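import Pool.Agent.Lib.HUK.Defs
import Pool.Agent.Lib.H9U.Defs

/-!
# Project HUK: the interfaces between the modules

Module A: `TII k` (in `Defs.lean`) for all `k ≥ 3`. Module B: `TII k → TLP k`. Module C: `LKP k`, and
`TLP k → LKP k → PK (k - 1) → PK k`. Module D: from `PK k` for all `k` to systems.
-/

open Finset

namespace Pool.Agent.HUK

open Pool.Agent.H44W (ee)
open Pool.Agent.Lib.H84V (nd)
open Pool.Agent.Lib.H68T (lp Lk)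
open Pool.Agent.Lib.H18Q (RegP)
open Pool.Agent.H9U (JJ cutJ Er Rgm Sys)

noncomputable section

/-- **Interface of module B.** -/
def TLP (k : ℕ) : Prop := ∀ κ : ℝ, 0 < κ → ∃ κ' : ℝ, 0 < κ' ∧ ∃ X0 : ℕ, ∀ X : ℕ, X0 ≤ X →
  ∀ f : ℕ → ℤ → ℂ, (∀ j, j < k → Bdd X (f j)) → GG X (k - 1) (f 0) ≤ (X : ℝ) ^ (k - κ) →
  ‖∑ n ∈ Icc 1 (2 * k * X), ((lp n : ℝ) : ℂ) * Psi X k f n‖ ≤ (X : ℝ) ^ (2 - κ')

/-- **Interface of module C, first part**: components of large modulus. `B` bounds the supports of the functions. -/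
def LKP (k : ℕ) : Prop := ∀ B : ℕ, ∃ K C c : ℝ, 1 ≤ K ∧ 0 < C ∧ 0 < c ∧ ∀ Q Q' X : ℕ, RegP K Q X → 1 ≤ Q' → Q' ≤ Q →
  ∀ f : ℕ → ℤ → ℂ, (∀ j, j < k → Bdd (B * X) (f j)) →
  ‖∑ n ∈ JJ X, ((Lk Q (X / Q ^ 2) n - Lk Q' (X / Q ^ 2) n : ℝ) : ℂ) * Psi (B * X) k f n‖ ≤
    C * (X : ℝ) ^ 2 * (Q' : ℝ) ^ (-c)

/-- **Interface of module C**: the `U^k` norm of the error is small. -/
def PK (k : ℕ) : Prop := ∃ K : ℝ, 1 ≤ K ∧ ∀ Cr θ : ℝ, 1 ≤ Cr → 0 < θ → ∃ κ : ℝ, 0 < κ ∧ κ ≤ 1 ∧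
  ∃ X0 : ℕ, ∀ Q Q' X : ℕ, X0 ≤ X → Rgm K Cr θ Q Q' X → GG (4 * X) k (cutJ X (Er Q Q' X)) ≤ (X : ℝ) ^ (k + 1 - κ)

/-- Systems of finite complexity, also after doubling `n`: every form depends on `n`, and no two linear parts are
proportional. -/
def SysFin {k d : ℕ} (S : Sys k d) : Prop :=
  (∀ i, S.a i ≠ 0) ∧ ∀ i j, i ≠ j → ∃ (s : ℤ) (u : Fin d → ℤ), S.lin j s u = 0 ∧ S.lin i s u ≠ 0

end

end Pool.Agent.HUK
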