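import Pool.Agent.Lib.HUK.P1
import Pool.Agent.Lib.HUK.IDE

/-!
# HUK, chunk C1 (S/M): rules for the dual function `Psi`
-/

open Finset

namespace Pool.Agent.HUK

open Pool.Agent.H44W (ee)

/-- `Psi` does not depend on the window. Proof. `Ioo (-2Y) (2Y) ⊆ Ioo (-2Y') (2Y')` and the other terms vanish: if `f 0 (n - k h) ≠ 0` and
`f 1 (n - (k - 1) h) ≠ 0` then both arguments are in `[-Y, Y)`, their difference is `h`, so `|h| < 2Y`. (`0, 1 ∈ range k` as `2 ≤ k`.) -/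
theorem C1_scale (Y Y' k : ℕ) (hk : 2 ≤ k) (h : Y ≤ Y') (f : ℕ → ℤ → ℂ)
    (hf : ∀ j, j < k → ∀ y, y ∉ Ico (-(Y : ℤ)) Y → f j y = 0) (n : ℤ) : Psi Y' k f n = Psi Y k f n := by
  unfold Psi
  symm
  refine Finset.sum_subset ?_ ?_
  · intro x hx
    rw [Finset.mem_Ioo] at hx ⊢
    omega
  · intro m _ hm
    by_contra hne
    rw [← ne_eq, Finset.prod_ne_zero_iff] at hne
    have h0 := hne 0 (Finset.mem_range.mpr (by omega))
    have h1 := hne 1 (Finset.mem_range.mpr (by omega))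
    have i0 : n - ((k : ℤ) - (0 : ℕ)) * m ∈ Ico (-(Y : ℤ)) Y := by
      by_contra hc
      exact h0 (hf 0 (by omega) _ hc)
    have i1 : n - ((k : ℤ) - (1 : ℕ)) * m ∈ Ico (-(Y : ℤ)) Y := by
      by_contra hc
      exact h1 (hf 1 (by omega) _ hc)
    have e0 : n - ((k : ℤ) - (0 : ℕ)) * m = n - k * m := by push_cast; ring
    have e1 : n - ((k : ℤ) - (1 : ℕ)) * m = n - k * m + m := by push_cast; ring
    rw [e0, Finset.mem_Ico] at i0
    rw [e1, Finset.mem_Ico] at i1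
    apply hm
    rw [Finset.mem_Ioo]
    omega

/-- Translations. Unfold. -/
theorem C1_shift (Y k : ℕ) (f : ℕ → ℤ → ℂ) (a n : ℤ) :
    Psi Y k (fun j x => f j (x + a)) n = Psi Y k f (n + a) := by
  unfold Psi
  refine Finset.sum_congr rfl fun m _ => Finset.prod_congr rfl fun j _ => ?_
  show f j (n - ((k : ℤ) - j) * m + a) = f j (n + a - ((k : ℤ) - j) * m)
  rw [show n - ((k : ℤ) - j) * m + a = n + a - ((k : ℤ) - j) * m by ring]

/-- The functions which absorb a phase. -/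
noncomputable def phf (k : ℕ) (θ : ℝ) (f : ℕ → ℤ → ℂ) : ℕ → ℤ → ℂ := fun j x =>
  if j = 0 then f 0 x * ee (-(θ * ((k : ℝ) - 1)) * x) else if j = 1 then f 1 x * ee (θ * k * x) else f j x

/-- Phases: `n = k (n - (k - 1) h) - (k - 1) (n - k h)`, `ee_add` (`H44W/E1`). Split the factors `j = 0, 1` off the product over `range k`
(`k = k' + 2`, `prod_range_succ'` twice). -/
theorem C1_phase (Y k : ℕ) (hk : 2 ≤ k) (f : ℕ → ℤ → ℂ) (θ : ℝ) (n : ℤ) :
    ee (θ * n) * Psi Y k f n = Psi Y k (phf k θ f) n := by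
  obtain ⟨k', rfl⟩ : ∃ k', k = k' + 2 := ⟨k - 2, by omega⟩
  unfold Psi
  rw [Finset.mul_sum]
  refine Finset.sum_congr rfl fun m _ => ?_
  rw [Finset.prod_range_succ' _ (k' + 1), Finset.prod_range_succ' _ k', Finset.prod_range_succ' _ (k' + 1),
    Finset.prod_range_succ' _ k']
  have e2 : ∀ (j : ℕ) (x : ℤ), phf (k' + 2) θ f (j + 1 + 1) x = f (j + 1 + 1) x := by
    intro j x
    unfold phf
    rw [if_neg (by omega), if_neg (by omega)]
  have e1 : ∀ x : ℤ, phf (k' + 2) θ f (0 + 1) x = f (0 + 1) x * ee (θ * ((k' + 2 : ℕ) : ℝ) * x) := by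
    intro x
    unfold phf
    rw [if_neg (by omega), if_pos rfl]
  have e0 : ∀ x : ℤ, phf (k' + 2) θ f 0 x = f 0 x * ee (-(θ * (((k' + 2 : ℕ) : ℝ) - 1)) * x) := by
    intro x
    unfold phf
    rw [if_pos rfl]
  rw [e1, e0]
  simp only [e2]
  have e3 : ee (θ * n) = ee (θ * ((k' + 2 : ℕ) : ℝ) * ((n - (((k' + 2 : ℕ) : ℤ) - ((0 + 1 : ℕ) : ℤ)) * m : ℤ) : ℝ)) *
      ee (-(θ * (((k' + 2 : ℕ) : ℝ) - 1)) * ((n - (((k' + 2 : ℕ) : ℤ) - ((0 : ℕ) : ℤ)) * m : ℤ) : ℝ)) := by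
    rw [← Pool.Agent.H44W.ee_add]
    congr 1
    push_cast
    ring
  rw [e3]
  ring

theorem C1_phase_bdd (Y k : ℕ) (f : ℕ → ℤ → ℂ) (θ : ℝ) (hf : ∀ j, j < k → Bdd Y (f j)) :
    ∀ j, j < k → Bdd Y (phf k θ f j) := by
  intro j hj
  have hn : ∀ t : ℝ, ‖ee t‖ = 1 := fun t => Pool.Agent.H44W.norm_ee t
  refine ⟨fun y => ?_, fun y hy => ?_⟩
  · unfold phf
    by_cases h0 : j = 0
    · rw [if_pos h0, norm_mul, hn, mul_one]
      exact (hf 0 (by omega)).le y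
    · rw [if_neg h0]
      by_cases h1 : j = 1
      · rw [if_pos h1, norm_mul, hn, mul_one]
        exact (hf 1 (by omega)).le y
      · rw [if_neg h1]
        exact (hf j hj).le y
  · unfold phf
    by_cases h0 : j = 0
    · rw [if_pos h0, (hf 0 (by omega)).sup y hy, zero_mul]
    · rw [if_neg h0]
      by_cases h1 : j = 1
      · rw [if_pos h1, (hf 1 (by omega)).sup y hy, zero_mul]
      · rw [if_neg h1]
        exact (hf j hj).sup y hy

/-- `GG_phase` (`P1`). -/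
theorem C1_phase_GG (Y k s : ℕ) (hs : 2 ≤ s) (f : ℕ → ℤ → ℂ) (θ : ℝ) : GG Y s (phf k θ f 0) = GG Y s (f 0) := by
  have e : phf k θ f 0 = fun x : ℤ => f 0 x * ee (-(θ * ((k : ℝ) - 1)) * x) := by
    funext x
    unfold phf
    rw [if_pos rfl]
  rw [e]
  exact GG_phase Y s hs (f 0) _

/-- Homogeneity: `DL_smul` (`P0`); every term of `GG` gets the factor `c^(2^s)`. -/
theorem C1_smul (Y s : ℕ) (f : ℤ → ℂ) (c : ℝ) : GG Y s (fun x => (c : ℂ) * f x) = c ^ (2 ^ s) * GG Y s f := by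
  unfold GG
  have e : ∀ h : Fin s → ℤ, FF Y h (fun x => (c : ℂ) * f x) = ((c ^ (2 ^ s) : ℝ) : ℂ) * FF Y h f := by
    intro h
    unfold FF DV
    rw [Finset.mul_sum, DL_smul, List.length_ofFn]
  rw [Finset.sum_congr rfl fun h _ => e h, ← Finset.mul_sum, Complex.re_ofReal_mul]

end Pool.Agent.HUK
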