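import Pool.Agent.Lib.HUK.D0
import Pool.Agent.Lib.H9U.U1A

/-!
# Project HUK, chunk D12 (M): sums over progressions through phases
-/

open Finset

namespace Pool.Agent.HUK

open Pool.Agent.H44W (ee)

/-- the coefficient bounds -/
noncomputable def d12_b (M j : ℕ) : ℝ :=
  if j = 0 then 1 else if j < M then 1 / (2 * (j : ℝ)) + 1 / (2 * ((M : ℝ) - j)) else 0

theorem d12_b_nn (M j : ℕ) : 0 ≤ d12_b M j := by
  unfold d12_b
  split_ifs with h1 h2
  · norm_num
  · have h3 : (0 : ℝ) < (M : ℝ) - j := by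
      have : (j : ℝ) < M := by exact_mod_cast h2
      linarith
    positivity
  · exact le_rfl

theorem d12_b_sum (M : ℕ) (hM : 1 ≤ M) : ∑ j ∈ range M, d12_b M j ≤ 4 * (1 + Real.log M) := by
  obtain ⟨K, rfl⟩ : ∃ K, M = K + 1 := ⟨M - 1, by omega⟩
  have hlog : 0 ≤ Real.log ((K + 1 : ℕ) : ℝ) := Real.log_nonneg (by exact_mod_cast hM)
  rw [sum_range_succ']
  have h0 : d12_b (K + 1) 0 = 1 := by
    unfold d12_b
    rw [if_pos rfl]
  rw [h0]
  have h1 : ∀ j ∈ range K, d12_b (K + 1) (j + 1) =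
      1 / 2 * (1 / ((j:ℝ) + 1)) + 1 / 2 * (1 / (((K - 1 - j : ℕ) : ℝ) + 1)) := by
    intro j hj
    rw [mem_range] at hj
    unfold d12_b
    rw [if_neg (by omega), if_pos (by omega)]
    have e1 : ((K - 1 - j : ℕ) : ℝ) + 1 = (K:ℝ) - j := by
      rw [Nat.cast_sub (by omega), Nat.cast_sub (by omega)]
      push_cast; ring
    rw [e1]
    push_cast
    rw [show (K:ℝ) + 1 - ((j:ℝ) + 1) = (K:ℝ) - j by ring, one_div_mul_one_div, one_div_mul_one_div]
  have hharm : ∑ j ∈ range K, 1 / ((j:ℝ) + 1) ≤ 1 + Real.log ((K + 1 : ℕ) : ℝ) := by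
    have e1 := harmonic_le_one_add_log K
    have e2 : ((harmonic K : ℚ) : ℝ) = ∑ j ∈ range K, 1 / ((j:ℝ) + 1) := by
      rw [harmonic]
      push_cast
      exact sum_congr rfl fun j _ => by rw [one_div]
    rw [← e2]
    refine le_trans e1 ?_
    rcases Nat.eq_zero_or_pos K with hK | hK
    · subst hK
      simp
    · have : Real.log K ≤ Real.log ((K + 1 : ℕ) : ℝ) :=
        Real.log_le_log (by exact_mod_cast hK) (by push_cast; linarith)
      linarith
  have hrefl : ∑ j ∈ range K, 1 / (((K - 1 - j : ℕ) : ℝ) + 1) = ∑ j ∈ range K, 1 / ((j:ℝ) + 1) :=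
    sum_range_reflect (fun j => 1 / ((j:ℝ) + 1)) K
  rw [sum_congr rfl h1, sum_add_distrib, ← mul_sum, ← mul_sum, hrefl]
  linarith

/-- The indicator of an interval as a combination of phases, with bounds for the coefficients which do not depend on the interval. Proof: as `U1A_ind`
(`H9U/U1A.lean`, whose proof contains exactly this): `b 0 = 1` and `b j = 1/(2j) + 1/(2(M-j))` for `0 < j < M` (`u1a_geo`), and the sum of the `b j` is at most
`4 (1 + log M)`, as there. -/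
theorem D12_ind (M : ℕ) (hM : 1 ≤ M) : ∃ b : ℕ → ℝ, (∀ j, 0 ≤ b j) ∧ ∑ j ∈ range M, b j ≤ 4 * (1 + Real.log M) ∧
    ∀ u v : ℤ, ∃ c : ℕ → ℂ, (∀ j ∈ range M, ‖c j‖ ≤ b j) ∧
      ∀ m : ℤ, 0 ≤ m → m < M → (if u ≤ m ∧ m < v then (1 : ℂ) else 0) = ∑ j ∈ range M, c j * ee ((j : ℝ) * m / M) := by
  refine ⟨d12_b M, d12_b_nn M, d12_b_sum M hM, fun u v => ?_⟩
  have hM0 : (0:ℝ) < M := by exact_mod_cast hM
  have hMc : (M:ℂ) ≠ 0 := by
    have : (M:ℝ) ≠ 0 := hM0.ne'
    exact_mod_cast this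
  set A : Finset ℤ := Ico (max u 0) (min v M) with hA
  refine ⟨fun j => (1 / (M:ℂ)) * ∑ s ∈ A, ee (-((j : ℝ) * s / M)), ?_, ?_⟩
  · intro j hj
    rw [mem_range] at hj
    show ‖(1 / (M:ℂ)) * ∑ s ∈ A, ee (-((j : ℝ) * s / M))‖ ≤ d12_b M j
    rw [norm_mul, norm_div, norm_one, Complex.norm_natCast]
    unfold d12_b
    by_cases h0 : j = 0
    · rw [if_pos h0]
      have h1 : ‖∑ s ∈ A, ee (-((j : ℝ) * s / M))‖ ≤ M := by
        refine le_trans (norm_sum_le _ _) ?_
        rw [sum_congr rfl fun s _ => Pool.Agent.H44W.norm_ee _, sum_const, nsmul_eq_mul, mul_one]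
        have h2 : A.card ≤ M := by
          rw [hA, Int.card_Ico]
          have e1 : (0:ℤ) ≤ max u 0 := le_max_right _ _
          have e2 : min v (M : ℤ) ≤ M := min_le_right _ _
          omega
        exact_mod_cast h2
      calc (1 / (M : ℝ)) * ‖∑ s ∈ A, ee (-((j : ℝ) * s / M))‖ ≤ (1 / (M : ℝ)) * M :=
            mul_le_mul_of_nonneg_left h1 (by positivity)
        _ = 1 := by rw [one_div, inv_mul_cancel₀ hM0.ne']
    · rw [if_neg h0, if_pos hj]
      have h2 := Pool.Agent.H9U.u1a_geo M j (Nat.pos_of_ne_zero h0) hj (max u 0) (min v M)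
      rw [← hA] at h2
      calc (1 / (M : ℝ)) * ‖∑ s ∈ A, ee (-((j : ℝ) * s / M))‖
          ≤ (1 / (M : ℝ)) * (M * (1 / (2 * (j : ℝ)) + 1 / (2 * ((M : ℝ) - j)))) :=
            mul_le_mul_of_nonneg_left h2 (by positivity)
        _ = _ := by rw [← mul_assoc, one_div, inv_mul_cancel₀ hM0.ne', one_mul]
  · intro m hm0 hmM
    have h1 : ∀ j ∈ range M, (1 / (M:ℂ)) * (∑ s ∈ A, ee (-((j : ℝ) * s / M))) * ee ((j : ℝ) * m / M) =
        ∑ s ∈ A, (1 / (M:ℂ)) * ee ((j:ℝ) * ((m - s : ℤ) : ℝ) / M) := by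
      intro j _
      rw [mul_assoc, sum_mul, mul_sum]
      refine sum_congr rfl fun s _ => ?_
      rw [← Pool.Agent.H44W.ee_add]
      congr 2
      push_cast
      ring
    rw [sum_congr rfl h1, sum_comm]
    have h2 : ∀ s ∈ A, ∑ j ∈ range M, (1 / (M:ℂ)) * ee ((j:ℝ) * ((m - s : ℤ) : ℝ) / M) = if s = m then 1 else 0 := by
      intro s hs
      rw [← mul_sum, Pool.Agent.H44W.ee_orth M hM]
      rw [hA, mem_Ico] at hs
      have hs0 : 0 ≤ s := le_trans (le_max_right _ _) hs.1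
      have hs1 : s < M := lt_of_lt_of_le hs.2 (min_le_right _ _)
      by_cases h : s = m
      · rw [if_pos h, if_pos (by rw [h, sub_self]; exact dvd_zero _), one_div, inv_mul_cancel₀ hMc]
      · rw [if_neg h, if_neg, mul_zero]
        intro hd
        apply h
        have h3 : m - s = 0 := Int.eq_zero_of_abs_lt_dvd hd (by rw [abs_lt]; constructor <;> omega)
        omega
    rw [sum_congr rfl h2, sum_ite_eq' A m (fun _ => (1:ℂ))]
    by_cases h : u ≤ m ∧ m < v
    · rw [if_pos h, if_pos]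
      rw [hA, mem_Ico]
      exact ⟨max_le h.1 hm0, lt_min h.2 hmM⟩
    · rw [if_neg h, if_neg]
      rw [hA, mem_Ico]
      intro h3
      exact h ⟨le_trans (le_max_left _ _) h3.1, lt_of_lt_of_le h3.2 (min_le_left _ _)⟩

/-- pairs as a single index -/
theorem d12_pair (M A : ℕ) (hA : 0 < A) (F : ℕ → ℕ → ℝ) :
    ∑ l ∈ range (M * A), F (l / A) (l % A) = ∑ j ∈ range M, ∑ i ∈ range A, F j i := by
  rw [← Finset.sum_product']
  refine Finset.sum_bij' (fun l _ => (l / A, l % A)) (fun p _ => p.1 * A + p.2) ?_ ?_ ?_ ?_ ?_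
  · intro l hl
    rw [mem_range] at hl
    rw [mem_product, mem_range, mem_range]
    exact ⟨Nat.div_lt_of_lt_mul (by rw [mul_comm]; exact hl), Nat.mod_lt _ hA⟩
  · intro p hp
    rw [mem_product, mem_range, mem_range] at hp
    rw [mem_range]
    calc p.1 * A + p.2 < p.1 * A + A := by omega
      _ = (p.1 + 1) * A := by ring
      _ ≤ M * A := Nat.mul_le_mul_right _ hp.1
  · intro l _
    exact Nat.div_add_mod' l A
  · intro p hp
    rw [mem_product, mem_range, mem_range] at hp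
    have h1 : (p.1 * A + p.2) / A = p.1 := by
      rw [mul_comm, Nat.mul_add_div hA, Nat.div_eq_of_lt hp.2, add_zero]
    have h2 : (p.1 * A + p.2) % A = p.2 := by
      rw [mul_comm, Nat.mul_add_mod, Nat.mod_eq_of_lt hp.2]
    exact Prod.ext h1 h2
  · intro l _
    rfl

/-- the interval for `y` -/
theorem d12_iv (a : ℤ) (ha : a ≠ 0) (c p q : ℤ) : ∃ u v : ℤ, ∀ x : ℤ, (x ∈ Ico p q ↔ u ≤ a * x + c ∧ a * x + c < v) := by
  rcases lt_or_gt_of_ne ha with h | h
  · refine ⟨a * (q - 1) + c, a * p + c + 1, fun x => ?_⟩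
    rw [mem_Ico]
    constructor
    · intro hx
      constructor
      · nlinarith
      · nlinarith
    · intro hx
      constructor
      · by_contra hc
        nlinarith
      · by_contra hc
        nlinarith
  · refine ⟨a * p + c, a * (q - 1) + c + 1, fun x => ?_⟩
    rw [mem_Ico]
    constructor
    · intro hx
      constructor
      · nlinarith
      · nlinarith
    · intro hx
      constructor
      · by_contra hc
        nlinarith
      · by_contra hc
        nlinarith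

/-- Proof. `A = |a|`. The sum over `x ∈ Ico p q` of `g(a x + c)` is the sum over `y ∈ [-Y, Y)` of `g y` times the indicator of `A ∣ y - c` times the
indicator of `u ≤ y + Y < v` (for `a > 0`: `y = a x + c`, `u = a p + c + Y`, `v = a (q-1) + c + Y + 1`; for `a < 0` the order is reversed, or replace `x` by
`-x`; if `q ≤ p` the sum is `0`). `D12_ind` with `M = 2Y`, `m = y + Y`: `∑_j c_j ee(j (y + Y)/M)`; `ee_orth` (`H44W/E1.lean`):
`[A ∣ y - c] = (1/A) ∑_{i < A} ee(i (y - c)/A)`. So the norm is at most `∑_{j,i} (b j / A) ‖∑_y g y ee((j/M + i/A) y)‖`. Index the pairs by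
`range (M A)` (`j = l / A`, `i = l % A`; `Finset.sum_product'`, `Nat.divModEquiv`-type bijection, or `Finset.sum_nbij'`). -/
theorem D12_prog (a : ℤ) (ha : a ≠ 0) (Y : ℕ) (hY : 1 ≤ Y) : ∃ (n : ℕ) (w θ : ℕ → ℝ), (∀ j, 0 ≤ w j) ∧
    ∑ j ∈ range n, w j ≤ 4 * (1 + Real.log (2 * Y)) ∧
    ∀ g : ℤ → ℂ, Spt Y g → ∀ c p q : ℤ, ‖∑ x ∈ Ico p q, g (a * x + c)‖ ≤
      ∑ j ∈ range n, w j * ‖∑ y ∈ Ico (-(Y : ℤ)) Y, g y * ee (θ j * y)‖ := by
  classical
  obtain ⟨b, hb0, hbs, hb⟩ := D12_ind (2 * Y) (by omega)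
  obtain ⟨A, hA⟩ : ∃ A : ℕ, A = a.natAbs := ⟨_, rfl⟩
  have hA0 : 0 < A := by rw [hA]; exact Int.natAbs_pos.2 ha
  have hAr : (0 : ℝ) < A := by exact_mod_cast hA0
  have hAc : (A : ℂ) ≠ 0 := by exact_mod_cast hA0.ne'
  have hAd : ∀ z : ℤ, (A : ℤ) ∣ z ↔ a ∣ z := by
    intro z
    rw [hA]
    exact Int.natAbs_dvd
  refine ⟨2 * Y * A, fun l => b (l / A) / A, fun l => ((l / A : ℕ) : ℝ) / ((2 * Y : ℕ) : ℝ) + ((l % A : ℕ) : ℝ) / A,
    fun l => div_nonneg (hb0 _) hAr.le, ?_, ?_⟩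
  · rw [d12_pair (2 * Y) A hA0 (fun j _ => b j / A)]
    have h1 : ∀ j ∈ range (2 * Y), ∑ i ∈ range A, b j / A = b j := by
      intro j _
      rw [sum_const, card_range, nsmul_eq_mul]
      field_simp
    rw [sum_congr rfl h1]
    push_cast at hbs
    exact hbs
  · intro g hg c p q
    obtain ⟨u, v, huv⟩ := d12_iv a ha c p q
    obtain ⟨d, hd, hdm⟩ := hb (u + Y) (v + Y)
    rw [d12_pair (2 * Y) A hA0 (fun j i => b j / A * ‖∑ y ∈ Ico (-(Y : ℤ)) Y, g y * ee (((j : ℝ) / ((2 * Y : ℕ) : ℝ) + (i : ℝ) / A) * y)‖)]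
    -- the sum as a sum over `y`
    have h1 : ∑ x ∈ Ico p q, g (a * x + c) =
        ∑ y ∈ Ico (-(Y : ℤ)) Y, g y * ((if (A : ℤ) ∣ y - c then (1 : ℂ) else 0) *
          (if u + Y ≤ y + Y ∧ y + Y < v + Y then (1 : ℂ) else 0)) := by
      have e1 : ∀ y ∈ Ico (-(Y : ℤ)) Y, g y * ((if (A : ℤ) ∣ y - c then (1 : ℂ) else 0) *
          (if u + Y ≤ y + Y ∧ y + Y < v + Y then (1 : ℂ) else 0)) =
          if a ∣ y - c ∧ u ≤ y ∧ y < v then g y else 0 := by
        intro y _
        by_cases h2 : a ∣ y - c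
        · by_cases h3 : u ≤ y ∧ y < v
          · rw [if_pos ((hAd _).2 h2), if_pos (by constructor <;> omega), if_pos ⟨h2, h3⟩, mul_one, mul_one]
          · rw [if_neg (fun h4 : u + Y ≤ y + Y ∧ y + Y < v + Y => h3 (by constructor <;> omega)),
              if_neg (fun h4 : _ ∧ _ => h3 h4.2), mul_zero, mul_zero]
        · rw [if_neg (fun h4 => h2 ((hAd _).1 h4)), if_neg (fun h4 : _ ∧ _ => h2 h4.1), zero_mul, mul_zero]
      rw [sum_congr rfl e1, ← sum_filter]
      have e2 : ∑ x ∈ Ico p q, g (a * x + c) = ∑ x ∈ (Ico p q).filter (fun x => a * x + c ∈ Ico (-(Y : ℤ)) Y), g (a * x + c) := by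
        rw [sum_filter]
        refine sum_congr rfl fun x _ => ?_
        by_cases h2 : a * x + c ∈ Ico (-(Y : ℤ)) Y
        · rw [if_pos h2]
        · rw [if_neg h2, hg _ h2]
      rw [e2]
      refine Finset.sum_bij' (fun x _ => a * x + c) (fun y _ => (y - c) / a) ?_ ?_ ?_ ?_ ?_
      · intro x hx
        rw [mem_filter] at hx ⊢
        refine ⟨hx.2, ⟨x, by ring⟩, (huv x).1 hx.1⟩
      · intro y hy
        rw [mem_filter] at hy ⊢
        have h2 : a * ((y - c) / a) = y - c := Int.mul_ediv_cancel' hy.2.1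
        have h3 : a * ((y - c) / a) + c = y := by rw [h2]; ring
        refine ⟨(huv _).2 ?_, ?_⟩
        · rw [h3]
          exact hy.2.2
        · rw [h3]
          exact hy.1
      · intro x _
        show (a * x + c - c) / a = x
        rw [add_sub_cancel_right, Int.mul_ediv_cancel_left _ ha]
      · intro y hy
        rw [mem_filter] at hy
        show a * ((y - c) / a) + c = y
        rw [Int.mul_ediv_cancel' hy.2.1]
        ring
      · intro x _
        rfl
    have h2 : ∀ y ∈ Ico (-(Y : ℤ)) Y, g y * ((if (A : ℤ) ∣ y - c then (1 : ℂ) else 0) *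
          (if u + Y ≤ y + Y ∧ y + Y < v + Y then (1 : ℂ) else 0)) =
        ∑ j ∈ range (2 * Y), ∑ i ∈ range A, d j / A * (ee ((j : ℝ) * Y / ((2 * Y : ℕ) : ℝ)) * ee (-((i : ℝ) * c / A))) *
          (g y * ee (((j : ℝ) / ((2 * Y : ℕ) : ℝ) + (i : ℝ) / A) * y)) := by
      intro y hy
      rw [mem_Ico] at hy
      have e1 := hdm (y + Y) (by omega) (by push_cast; omega)
      have e2 : (if (A : ℤ) ∣ y - c then (1 : ℂ) else 0) = (1 / (A : ℂ)) * ∑ i ∈ range A, ee ((i : ℝ) * ((y - c : ℤ) : ℝ) / A) := by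
        rw [Pool.Agent.H44W.ee_orth A hA0 (y - c)]
        by_cases h3 : (A : ℤ) ∣ y - c
        · rw [if_pos h3, if_pos h3]
          field_simp
        · rw [if_neg h3, if_neg h3, mul_zero]
      rw [e1, e2, mul_sum, mul_sum, mul_sum]
      refine sum_congr rfl fun j _ => ?_
      rw [sum_mul, mul_sum]
      refine sum_congr rfl fun i _ => ?_
      have e3 : ee ((j : ℝ) * ((y + Y : ℤ) : ℝ) / ((2 * Y : ℕ) : ℝ)) =
          ee ((j : ℝ) * Y / ((2 * Y : ℕ) : ℝ)) * ee ((j : ℝ) / ((2 * Y : ℕ) : ℝ) * y) := by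
        rw [← Pool.Agent.H44W.ee_add]
        congr 1
        push_cast
        ring
      have e4 : ee ((i : ℝ) * ((y - c : ℤ) : ℝ) / A) = ee (-((i : ℝ) * c / A)) * ee ((i : ℝ) / A * y) := by
        rw [← Pool.Agent.H44W.ee_add]
        congr 1
        push_cast
        ring
      have e5 : ee (((j : ℝ) / ((2 * Y : ℕ) : ℝ) + (i : ℝ) / A) * y) =
          ee ((j : ℝ) / ((2 * Y : ℕ) : ℝ) * y) * ee ((i : ℝ) / A * y) := by
        rw [← Pool.Agent.H44W.ee_add]
        congr 1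
        ring
      rw [e3, e4, e5]
      ring
    rw [h1, sum_congr rfl h2, sum_comm]
    refine (norm_sum_le _ _).trans (sum_le_sum fun j hj => ?_)
    rw [sum_comm]
    refine (norm_sum_le _ _).trans (sum_le_sum fun i _ => ?_)
    rw [← mul_sum, norm_mul, norm_mul, norm_mul, Pool.Agent.H44W.norm_ee, Pool.Agent.H44W.norm_ee, mul_one, mul_one,
      norm_div, Complex.norm_natCast]
    exact mul_le_mul_of_nonneg_right (div_le_div_of_nonneg_right (hd j hj) hAr.le) (norm_nonneg _)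

end Pool.Agent.HUK
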