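import Pool.Agent.Lib.HUK.DDefs

/-!
# Project HUK, chunk D0: sums over differences with weights

`D0_W`: for `s ≥ 2` weights which are combinations of phases do not increase the Gowers norm; `D0_fej`, `D0_V2` (Fejer weights on multiples),
`D0_V1` (residue classes).
-/

open Finset

namespace Pool.Agent.HUK

open Pool.Agent.H44W (ee)

/-! ## Differences -/

theorem D0_DLz {G : Type*} [Add G] (l : List G) (f : G → ℂ) (y : G) (h : f y = 0) : DL l f y = 0 := by
  induction l generalizing f with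
  | nil => exact h
  | cons a l ih =>
    refine ih (DD a f) ?_
    unfold DD
    rw [h, zero_mul]

theorem D0_comm {G : Type*} [AddCommGroup G] (h k : G) (f : G → ℂ) : DD h (DD k f) = DD k (DD h f) := by
  funext y
  unfold DD
  simp only [map_mul, Complex.conj_conj]
  rw [add_right_comm y h k]
  ring

theorem D0_DLDD {G : Type*} [AddCommGroup G] (l : List G) (k : G) (f : G → ℂ) : DL l (DD k f) = DD k (DL l f) := by
  induction l generalizing f with
  | nil => rfl
  | cons a l ih =>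
    show DL l (DD a (DD k f)) = DD k (DL l (DD a f))
    rw [D0_comm, ih]

theorem D0_DLn {G : Type*} [Add G] (l : List G) (f : G → ℂ) (h : ∀ y, ‖f y‖ ≤ 1) (y : G) : ‖DL l f y‖ ≤ 1 := by
  induction l generalizing f with
  | nil => exact h y
  | cons a l ih =>
    refine ih (DD a f) fun z => ?_
    unfold DD
    rw [norm_mul, RCLike.norm_conj]
    exact mul_le_one₀ (h z) (norm_nonneg _) (h _)

theorem D0_cons {s : ℕ} (a : ℤ) (h : Fin s → ℤ) (f : ℤ → ℂ) :
    DV (Fin.cons a h : Fin (s + 1) → ℤ) f = DV h (DD a f) := by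
  unfold DV
  rw [List.ofFn_succ]
  simp only [Fin.cons_zero, Fin.cons_succ]
  rfl

theorem D0_cons' {s : ℕ} (a : ℤ) (h : Fin s → ℤ) (f : ℤ → ℂ) :
    DV (Fin.cons a h : Fin (s + 1) → ℤ) f = DD a (DV h f) := by
  rw [D0_cons]
  exact D0_DLDD _ _ _

theorem D0_SDD {X : ℕ} {f : ℤ → ℂ} (h : Spt X f) (a : ℤ) : Spt X (DD a f) := by
  intro y hy
  unfold DD
  rw [h y hy, zero_mul]

theorem D0_SDV {X : ℕ} {f : ℤ → ℂ} (h : Spt X f) {s : ℕ} (a : Fin s → ℤ) : Spt X (DV a f) :=
  fun y hy => D0_DLz _ _ _ (h y hy)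

/-- sums over a box -/
theorem D0_bx {M : Type*} [AddCommMonoid M] (s N : ℕ) (F : (Fin (s + 1) → ℤ) → M) :
    ∑ h ∈ bxS (s + 1) N, F h = ∑ a ∈ Ioo (-(N : ℤ)) N, ∑ h ∈ bxS s N, F (Fin.cons a h) := by
  rw [← Finset.sum_product']
  refine Finset.sum_bij' (fun h _ => (h 0, fun i => h i.succ)) (fun p _ => Fin.cons p.1 p.2) ?_ ?_ ?_ ?_ ?_
  · intro h hh
    unfold bxS at hh ⊢
    rw [Fintype.mem_piFinset] at hh
    rw [mem_product, Fintype.mem_piFinset]
    exact ⟨hh 0, fun i => hh i.succ⟩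
  · intro p hp
    unfold bxS at hp ⊢
    rw [mem_product, Fintype.mem_piFinset] at hp
    rw [Fintype.mem_piFinset]
    intro i
    refine Fin.cases ?_ (fun j => ?_) i
    · exact hp.1
    · simp only [Fin.cons_succ]
      exact hp.2 j
  · intro h _
    funext i
    refine Fin.cases ?_ (fun j => ?_) i
    · rfl
    · rfl
  · intro p _
    rfl
  · intro h _
    congr 1
    funext i
    refine Fin.cases ?_ (fun j => ?_) i
    · rfl
    · rfl

/-- the autocorrelation with a phase -/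
theorem d0_sq (X : ℕ) (g : ℤ → ℂ) (hg : Spt X g) (θ : ℝ) :
    ∑ a ∈ Ioo (-(2 * X : ℤ)) (2 * X), ee (θ * a) * ∑ y ∈ Ico (-(X : ℤ)) X, DD a g y =
      ((‖∑ y ∈ Ico (-(X : ℤ)) X, g y * ee (-(θ * y))‖ ^ 2 : ℝ) : ℂ) := by
  have h1 : ((‖∑ y ∈ Ico (-(X : ℤ)) X, g y * ee (-(θ * y))‖ ^ 2 : ℝ) : ℂ) =
      ∑ y ∈ Ico (-(X : ℤ)) X, ∑ u ∈ Ico (-(X : ℤ)) X, g y * (starRingEnd ℂ) (g u) * ee (θ * ((u - y : ℤ) : ℝ)) := by
    push_cast
    rw [← Complex.mul_conj', map_sum, Finset.sum_mul]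
    refine sum_congr rfl fun y _ => ?_
    rw [Finset.mul_sum]
    refine sum_congr rfl fun u _ => ?_
    rw [map_mul, ← Pool.Agent.H44W.ee_neg, neg_neg]
    have : θ * ((u : ℝ) - y) = -(θ * y) + θ * u := by ring
    rw [this, Pool.Agent.H44W.ee_add]
    ring
  rw [h1]
  simp only [Finset.mul_sum]
  rw [Finset.sum_comm]
  refine sum_congr rfl fun y hy => ?_
  have hy' := mem_Ico.1 hy
  -- extend the sum over `u`
  have h2 : ∑ u ∈ Ico (-(X : ℤ)) X, g y * (starRingEnd ℂ) (g u) * ee (θ * ((u - y : ℤ) : ℝ)) =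
      ∑ u ∈ Ioo (y - 2 * X) (y + 2 * X), g y * (starRingEnd ℂ) (g u) * ee (θ * ((u - y : ℤ) : ℝ)) := by
    refine Finset.sum_subset (fun u hu => ?_) fun u _ hu => ?_
    · rw [mem_Ico] at hu
      rw [mem_Ioo]
      omega
    · rw [hg u hu, map_zero, mul_zero, zero_mul]
  rw [h2]
  refine Finset.sum_bij' (fun a _ => y + a) (fun u _ => u - y) ?_ ?_ ?_ ?_ ?_
  · intro a ha
    rw [mem_Ioo] at ha ⊢
    omega
  · intro u hu
    rw [mem_Ioo] at hu ⊢
    omega
  · intro a _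
    ring
  · intro u _
    ring
  · intro a _
    unfold DD
    have : ((y + a - y : ℤ) : ℝ) = a := by push_cast; ring
    rw [this]
    ring

/-- The sum of all `F_f(h)` is a sum of squares. -/
theorem D0_sq {X s : ℕ} {f : ℤ → ℂ} (hf : Spt X f) : ∑ h ∈ bxS (s + 1) (2 * X), FF X h f =
    ((∑ h ∈ bxS s (2 * X), ‖∑ y ∈ Ico (-(X : ℤ)) X, DV h f y‖ ^ 2 : ℝ) : ℂ) := by
  rw [D0_bx, Finset.sum_comm]
  rw [Complex.ofReal_sum]
  refine sum_congr rfl fun h _ => ?_
  have h1 := d0_sq X (DV h f) (D0_SDV hf h) 0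
  simp only [zero_mul, neg_zero, Pool.Agent.H44W.ee_zero, one_mul, mul_one] at h1
  rw [← h1]
  push_cast
  refine sum_congr rfl fun a _ => ?_
  unfold FF
  rw [D0_cons']

theorem D0_re {X s : ℕ} {f : ℤ → ℂ} (hf : Spt X f) (hs : 1 ≤ s) :
    ∑ h ∈ bxS s (2 * X), FF X h f = ((GG X s f : ℝ) : ℂ) := by
  obtain ⟨s, rfl⟩ : ∃ s', s = s' + 1 := ⟨s - 1, by omega⟩
  unfold GG
  rw [D0_sq hf, Complex.ofReal_re]

theorem D0_nn {X s : ℕ} {f : ℤ → ℂ} (hf : Spt X f) (hs : 1 ≤ s) : 0 ≤ GG X s f := by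
  obtain ⟨s, rfl⟩ : ∃ s', s = s' + 1 := ⟨s - 1, by omega⟩
  unfold GG
  rw [D0_sq hf, Complex.ofReal_re]
  exact sum_nonneg fun _ _ => by positivity

/-- `G_(s+1)(f) = ∑_a G_s(Δ_a f)` -/
theorem D0_succ {X s : ℕ} {f : ℤ → ℂ} : GG X (s + 1) f = ∑ a ∈ Ioo (-(2 * X : ℤ)) (2 * X), GG X s (DD a f) := by
  unfold GG
  rw [D0_bx, Complex.re_sum]
  push_cast
  refine sum_congr rfl fun a _ => ?_
  congr 1
  refine sum_congr rfl fun h _ => ?_
  unfold FF
  rw [D0_cons]

/-- **Phases do not increase the Gowers norm.** -/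
theorem D0_ph {X s : ℕ} {f : ℤ → ℂ} (hf : Spt X f) (hs : 2 ≤ s) (θ : Fin s → ℝ) :
    ‖∑ h ∈ bxS s (2 * X), ee (∑ i, θ i * h i) * FF X h f‖ ≤ GG X s f := by
  obtain ⟨s, rfl⟩ : ∃ s', s = s' + 1 := ⟨s - 1, by omega⟩
  have hs1 : 1 ≤ s := by omega
  have e1 : ∀ (a : ℤ) (h : Fin s → ℤ), ee (∑ i, θ i * ((Fin.cons a h : Fin (s + 1) → ℤ) i : ℝ)) =
      ee (θ 0 * a) * ee (∑ i, θ i.succ * h i) := by
    intro a h
    rw [← Pool.Agent.H44W.ee_add, Fin.sum_univ_succ]
    simp only [Fin.cons_zero, Fin.cons_succ]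
  have e2 : ∑ h ∈ bxS (s + 1) (2 * X), ee (∑ i, θ i * h i) * FF X h f =
      ∑ h ∈ bxS s (2 * X), ee (∑ i, θ i.succ * h i) *
        ((‖∑ y ∈ Ico (-(X : ℤ)) X, DV h f y * ee (-(θ 0 * y))‖ ^ 2 : ℝ) : ℂ) := by
    rw [D0_bx, Finset.sum_comm]
    refine sum_congr rfl fun h _ => ?_
    rw [← d0_sq X (DV h f) (D0_SDV hf h) (θ 0), Finset.mul_sum]
    push_cast
    refine sum_congr rfl fun a _ => ?_
    rw [e1]
    unfold FF
    rw [D0_cons']
    ring
  rw [e2]
  refine (norm_sum_le _ _).trans ?_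
  have e3 : ∑ h ∈ bxS s (2 * X), ‖ee (∑ i, θ i.succ * h i) *
        ((‖∑ y ∈ Ico (-(X : ℤ)) X, DV h f y * ee (-(θ 0 * y))‖ ^ 2 : ℝ) : ℂ)‖ =
      ‖∑ a ∈ Ioo (-(2 * X : ℤ)) (2 * X), ee (θ 0 * a) * ((GG X s (DD a f) : ℝ) : ℂ)‖ := by
    have e4 : ∑ a ∈ Ioo (-(2 * X : ℤ)) (2 * X), ee (θ 0 * a) * ((GG X s (DD a f) : ℝ) : ℂ) =
        ((∑ h ∈ bxS s (2 * X), ‖∑ y ∈ Ico (-(X : ℤ)) X, DV h f y * ee (-(θ 0 * y))‖ ^ 2 : ℝ) : ℂ) := by
      rw [Complex.ofReal_sum]
      have e5 : ∀ h ∈ bxS s (2 * X), ((‖∑ y ∈ Ico (-(X : ℤ)) X, DV h f y * ee (-(θ 0 * y))‖ ^ 2 : ℝ) : ℂ) =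
          ∑ a ∈ Ioo (-(2 * X : ℤ)) (2 * X), ee (θ 0 * a) * FF X h (DD a f) := by
        intro h _
        rw [← d0_sq X (DV h f) (D0_SDV hf h) (θ 0)]
        refine sum_congr rfl fun a _ => ?_
        unfold FF
        rw [← D0_cons', D0_cons]
      rw [sum_congr rfl e5, Finset.sum_comm]
      refine sum_congr rfl fun a _ => ?_
      rw [← Finset.mul_sum, D0_re (D0_SDD hf a) hs1]
    rw [e4, Complex.norm_real, Real.norm_of_nonneg (sum_nonneg fun _ _ => by positivity)]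
    refine sum_congr rfl fun h _ => ?_
    rw [norm_mul, Pool.Agent.H44W.norm_ee, one_mul, Complex.norm_real, Real.norm_of_nonneg (by positivity)]
  rw [e3, D0_succ]
  refine (norm_sum_le _ _).trans (sum_le_sum fun a _ => ?_)
  rw [norm_mul, Pool.Agent.H44W.norm_ee, one_mul, Complex.norm_real,
    Real.norm_of_nonneg (D0_nn (D0_SDD hf a) hs1)]

/-- **Weights which are combinations of phases do not increase the Gowers norm.** -/
theorem D0_W {X s : ℕ} {f : ℤ → ℂ} (hf : Spt X f) (hs : 2 ≤ s) (W : Fin s → ℤ → ℂ) (hW : ∀ i, PhW X (W i)) :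
    ‖∑ h ∈ bxS s (2 * X), (∏ i, W i (h i)) * FF X h f‖ ≤ GG X s f := by
  choose n c θ hc hWc using hW
  have hG := D0_nn hf (by omega : 1 ≤ s)
  have e1 : ∑ h ∈ bxS s (2 * X), (∏ i, W i (h i)) * FF X h f =
      ∑ ξ ∈ Fintype.piFinset (fun i => range (n i)), (∏ i, c i (ξ i)) *
        ∑ h ∈ bxS s (2 * X), ee (∑ i, θ i (ξ i) * h i) * FF X h f := by
    simp only [Finset.mul_sum]
    rw [Finset.sum_comm]
    refine sum_congr rfl fun h hh => ?_
    have h1 : ∏ i, W i (h i) = ∏ i, ∑ j ∈ range (n i), c i j * ee (θ i j * h i) := by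
      refine prod_congr rfl fun i _ => hWc i (h i) ?_
      unfold bxS at hh
      have := Fintype.mem_piFinset.1 hh i
      push_cast at this
      exact this
    rw [h1, Finset.prod_univ_sum, Finset.sum_mul]
    refine sum_congr rfl fun ξ _ => ?_
    have h2 : ∀ (t : Finset (Fin s)), ee (∑ i ∈ t, θ i (ξ i) * h i) = ∏ i ∈ t, ee (θ i (ξ i) * h i) := by
      intro t
      induction t using Finset.induction_on with
      | empty => simp [Pool.Agent.H44W.ee_zero]
      | insert a t ha ih => rw [sum_insert ha, prod_insert ha, Pool.Agent.H44W.ee_add, ih]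
    rw [h2, prod_mul_distrib]
    ring
  rw [e1]
  refine (norm_sum_le _ _).trans ?_
  have e2 : ∀ ξ ∈ Fintype.piFinset (fun i => range (n i)), ‖(∏ i, c i (ξ i)) *
        ∑ h ∈ bxS s (2 * X), ee (∑ i, θ i (ξ i) * h i) * FF X h f‖ ≤ (∏ i, ‖c i (ξ i)‖) * GG X s f := by
    intro ξ _
    rw [norm_mul, norm_prod]
    exact mul_le_mul_of_nonneg_left (D0_ph hf hs _) (prod_nonneg fun _ _ => norm_nonneg _)
  refine (sum_le_sum e2).trans ?_
  rw [← Finset.sum_mul, ← Finset.prod_univ_sum (fun i => range (n i)) (fun i j => ‖c i j‖)]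
  have e3 : ∏ i, ∑ j ∈ range (n i), ‖c i j‖ ≤ 1 :=
    prod_le_one (fun _ _ => sum_nonneg fun _ _ => norm_nonneg _) fun i _ => hc i
  calc _ ≤ 1 * GG X s f := mul_le_mul_of_nonneg_right e3 hG
    _ = _ := one_mul _

/-! ## Special weights -/

theorem D0_Wee (X : ℕ) (θ : ℝ) : PhW X (fun h => ee (θ * h)) :=
  ⟨1, fun _ => 1, fun _ => θ, by simp, fun h _ => by simp⟩

theorem D0_Wone (X : ℕ) : PhW X (fun _ => 1) :=
  ⟨1, fun _ => 1, fun _ => 0, by simp, fun h _ => by simp [Pool.Agent.H44W.ee_zero]⟩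

/-- residue classes of the difference -/
theorem D0_Wdvd (X Λ : ℕ) (hΛ : 0 < Λ) : PhW X (fun h => if (Λ : ℤ) ∣ h then 1 else 0) := by
  have hΛr : (0 : ℝ) < Λ := by exact_mod_cast hΛ
  refine ⟨Λ, fun _ => 1 / (Λ : ℂ), fun j => (j : ℝ) / Λ, ?_, fun h _ => ?_⟩
  · rw [sum_const, card_range, nsmul_eq_mul, norm_div, norm_one, Complex.norm_natCast]
    exact le_of_eq (by field_simp)
  · rw [← Finset.mul_sum]
    have h1 := Pool.Agent.H44W.ee_orth Λ hΛ h
    have h2 : ∀ j ∈ range Λ, ee ((j : ℝ) / Λ * h) = ee ((j : ℝ) * h / Λ) := by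
      intro j _
      congr 1
      ring
    have hΛc : (Λ : ℂ) ≠ 0 := by exact_mod_cast hΛ.ne'
    rw [sum_congr rfl h2, h1]
    show (if (Λ : ℤ) ∣ h then (1 : ℂ) else 0) = _
    by_cases hd : (Λ : ℤ) ∣ h
    · rw [if_pos hd, if_pos hd]
      field_simp
    · rw [if_neg hd, if_neg hd, mul_zero]

/-- the number of pairs with a given difference -/
theorem d0_pairs (M : ℕ) (t : ℤ) :
    ∑ j ∈ range M, ∑ i ∈ range M, (if (i : ℤ) - j = t then (1 : ℝ) else 0) = max 0 ((M : ℝ) - |(t : ℝ)|) := by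
  have h1 : ∀ j ∈ range M, ∑ i ∈ range M, (if (i : ℤ) - j = t then (1 : ℝ) else 0) =
      if 0 ≤ (j : ℤ) + t ∧ (j : ℤ) + t < M then (1 : ℝ) else 0 := by
    intro j _
    by_cases h : 0 ≤ (j : ℤ) + t ∧ (j : ℤ) + t < M
    · rw [if_pos h, Finset.sum_eq_single_of_mem (((j : ℤ) + t).toNat) (by rw [mem_range]; omega)]
      · rw [if_pos (by omega)]
      · intro i _ hi
        rw [if_neg]
        intro h2
        apply hi
        omega
    · rw [if_neg h]
      refine sum_eq_zero fun i hi => ?_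
      rw [mem_range] at hi
      rw [if_neg]
      intro h2
      apply h
      omega
  rw [sum_congr rfl h1, ← Finset.sum_filter, sum_const, nsmul_eq_mul, mul_one]
  have h3 : ((range M).filter (fun j : ℕ => 0 ≤ (j : ℤ) + t ∧ (j : ℤ) + t < M)).card = M - t.natAbs := by
    rcases le_total 0 t with ht | ht
    · have : (range M).filter (fun j : ℕ => 0 ≤ (j : ℤ) + t ∧ (j : ℤ) + t < M) = range (M - t.natAbs) := by
        ext j
        rw [mem_filter, mem_range, mem_range]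
        omega
      rw [this, card_range]
    · have : (range M).filter (fun j : ℕ => 0 ≤ (j : ℤ) + t ∧ (j : ℤ) + t < M) = Ico t.natAbs M := by
        ext j
        rw [mem_filter, mem_range, mem_Ico]
        omega
      rw [this, Nat.card_Ico]
  rw [h3]
  have h4 : |(t : ℝ)| = (t.natAbs : ℝ) := by
    rw [← Int.cast_abs, Int.abs_eq_natAbs, Int.cast_natCast]
  rw [h4]
  rcases le_total t.natAbs M with h5 | h5
  · rw [Nat.cast_sub h5, max_eq_right]
    have : (t.natAbs : ℝ) ≤ M := by exact_mod_cast h5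
    linarith
  · rw [Nat.sub_eq_zero_of_le h5, max_eq_left]
    · simp
    · have : (M : ℝ) ≤ t.natAbs := by exact_mod_cast h5
      linarith

/-- The Fejer weight on multiples of `d`. -/
theorem D0_fej (X M : ℕ) (hM : 0 < M) (d : ℤ) (hd : d ≠ 0) :
    PhW X (fun h => if d ∣ h then ((fw M (h / d) : ℝ) : ℂ) else 0) := by
  obtain ⟨L, hL⟩ : ∃ L : ℕ, L = 4 * X + 2 * d.natAbs * M + 1 := ⟨_, rfl⟩
  have hL0 : 0 < L := by omega
  have hLr : (0 : ℝ) < L := by exact_mod_cast hL0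
  have hMr : (0 : ℝ) < M := by exact_mod_cast hM
  have hLc : (L : ℂ) ≠ 0 := by exact_mod_cast hL0.ne'
  have hMc : (M : ℂ) ≠ 0 := by exact_mod_cast hM.ne'
  -- the value of the trigonometric polynomial
  have key : ∀ h : ℤ, |h| ≤ 2 * X → ∑ ξ ∈ range L, ((1 / ((M : ℝ) * L) * ‖∑ j ∈ range M, ee ((ξ : ℝ) / L * (d * j))‖ ^ 2 : ℝ) : ℂ) *
      ee ((ξ : ℝ) / L * h) = if d ∣ h then ((fw M (h / d) : ℝ) : ℂ) else 0 := by
    intro h hh
    have h1 : ∀ ξ ∈ range L, ((1 / ((M : ℝ) * L) * ‖∑ j ∈ range M, ee ((ξ : ℝ) / L * (d * j))‖ ^ 2 : ℝ) : ℂ) *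
        ee ((ξ : ℝ) / L * h) = 1 / ((M : ℂ) * L) * ∑ j ∈ range M, ∑ i ∈ range M,
          ee ((ξ : ℝ) * ((d * j - d * i + h : ℤ) : ℝ) / L) := by
      intro ξ _
      push_cast
      rw [← Complex.mul_conj', map_sum, Finset.sum_mul, mul_assoc, Finset.sum_mul]
      congr 1
      refine sum_congr rfl fun j _ => ?_
      rw [Finset.mul_sum, Finset.sum_mul]
      refine sum_congr rfl fun i _ => ?_
      rw [← Pool.Agent.H44W.ee_neg, ← Pool.Agent.H44W.ee_add, ← Pool.Agent.H44W.ee_add]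
      congr 1
      ring
    rw [sum_congr rfl h1, ← Finset.mul_sum, Finset.sum_comm]
    have h2 : ∀ j ∈ range M, ∑ ξ ∈ range L, ∑ i ∈ range M, ee ((ξ : ℝ) * ((d * j - d * i + h : ℤ) : ℝ) / L) =
        ∑ i ∈ range M, (if (d : ℤ) * (i - j) = h then (L : ℂ) else 0) := by
      intro j hj
      rw [Finset.sum_comm]
      refine sum_congr rfl fun i hi => ?_
      rw [Pool.Agent.H44W.ee_orth L hL0]
      rw [mem_range] at hi hj
      have h3 : (L : ℤ) ∣ (d * j - d * i + h) ↔ d * ((i : ℤ) - j) = h := by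
        constructor
        · intro h4
          have h5 : |d * j - d * i + h| < L := by
            have h6 : |d * ((j : ℤ) - i)| ≤ d.natAbs * M := by
              rw [abs_mul, Int.abs_eq_natAbs d]
              refine mul_le_mul_of_nonneg_left ?_ (by positivity)
              rw [abs_le]
              constructor <;> omega
            have h7 : d * j - d * i + h = d * ((j : ℤ) - i) + h := by ring
            rw [h7]
            refine lt_of_le_of_lt (abs_add_le _ _) ?_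
            have h8 : (L : ℤ) = 4 * X + 2 * (d.natAbs * M) + 1 := by
              rw [hL]
              push_cast
              ring
            have h9 : (0 : ℤ) ≤ (d.natAbs : ℤ) * M := by positivity
            rw [h8]
            omega
          have h6 := Int.eq_zero_of_abs_lt_dvd h4 h5
          linarith
        · intro h4
          have : d * (j : ℤ) - d * i + h = 0 := by rw [← h4]; ring
          rw [this]
          exact dvd_zero _
      by_cases h4 : d * ((i : ℤ) - j) = h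
      · rw [if_pos (h3.2 h4), if_pos h4]
      · rw [if_neg (fun h5 => h4 (h3.1 h5)), if_neg h4]
    rw [sum_congr rfl h2]
    split_ifs with hdh
    · obtain ⟨t, rfl⟩ := hdh
      rw [Int.mul_ediv_cancel_left _ hd]
      have h4 : ∀ j ∈ range M, ∑ i ∈ range M, (if (d : ℤ) * (i - j) = d * t then (L : ℂ) else 0) =
          (L : ℂ) * ((∑ i ∈ range M, (if (i : ℤ) - j = t then (1 : ℝ) else 0) : ℝ) : ℂ) := by
        intro j _
        push_cast
        rw [Finset.mul_sum]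
        refine sum_congr rfl fun i _ => ?_
        have : d * ((i : ℤ) - j) = d * t ↔ (i : ℤ) - j = t := ⟨fun h => mul_left_cancel₀ hd h, fun h => by rw [h]⟩
        by_cases h5 : (i : ℤ) - j = t
        · rw [if_pos (this.2 h5), if_pos h5, Complex.ofReal_one, mul_one]
        · rw [if_neg (fun h => h5 (this.1 h)), if_neg h5, Complex.ofReal_zero, mul_zero]
      rw [sum_congr rfl h4, ← Finset.mul_sum, ← Complex.ofReal_sum, d0_pairs]
      unfold fw
      have h6 : max 0 ((M : ℝ) - |(t : ℝ)|) = M * max 0 (1 - |(t : ℝ)| / M) := by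
        rw [mul_max_of_nonneg _ _ hMr.le, mul_zero]
        congr 1
        field_simp
      rw [h6]
      push_cast
      field_simp
    · refine mul_eq_zero_of_right _ (sum_eq_zero fun j _ => sum_eq_zero fun i _ => ?_)
      rw [if_neg]
      intro h4
      exact hdh ⟨_, h4.symm⟩
  refine ⟨L, fun ξ => ((1 / ((M : ℝ) * L) * ‖∑ j ∈ range M, ee ((ξ : ℝ) / L * (d * j))‖ ^ 2 : ℝ) : ℂ),
    fun ξ => (ξ : ℝ) / L, ?_, fun h hh => ?_⟩
  · have h0 := key 0 (by rw [abs_zero]; positivity)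
    rw [if_pos (dvd_zero d)] at h0
    simp only [Int.cast_zero, mul_zero, Pool.Agent.H44W.ee_zero, mul_one, Int.zero_ediv] at h0
    rw [← Complex.ofReal_sum] at h0
    have h1 := Complex.ofReal_inj.1 h0
    have h2 : ∑ ξ ∈ range L, ‖((1 / ((M : ℝ) * L) * ‖∑ j ∈ range M, ee ((ξ : ℝ) / L * (d * j))‖ ^ 2 : ℝ) : ℂ)‖ =
        ∑ ξ ∈ range L, 1 / ((M : ℝ) * L) * ‖∑ j ∈ range M, ee ((ξ : ℝ) / L * (d * j))‖ ^ 2 := by
      refine sum_congr rfl fun ξ _ => ?_
      rw [Complex.norm_real, Real.norm_of_nonneg (by positivity)]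
    rw [h2, h1]
    unfold fw
    simp
  · rw [mem_Ioo] at hh
    rw [key h (by rw [abs_le]; constructor <;> linarith)]

theorem D0_fw0 {M : ℕ} {t : ℤ} (hM : 0 < M) (ht : (M : ℤ) ≤ |t|) : fw M t = 0 := by
  unfold fw
  have hMr : (0 : ℝ) < M := by exact_mod_cast hM
  rw [max_eq_left]
  have : (M : ℝ) ≤ |(t : ℝ)| := by
    rw [← Int.cast_abs]
    exact_mod_cast ht
  rw [sub_nonpos, one_le_div hMr]
  exact this

/-- `F_f(h) = 0` if one difference is large -/
theorem D0_large {X s : ℕ} {f : ℤ → ℂ} (hf : Spt X f) (h : Fin s → ℤ) (i : Fin s) (hi : (2 * X : ℤ) ≤ |h i|) : FF X h f = 0 := by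
  unfold FF
  refine sum_eq_zero fun y hy => ?_
  rw [mem_Ico] at hy
  have key : ∀ (l : List ℤ) (g : ℤ → ℂ) (a : ℤ), a ∈ l → Spt X g → (2 * X : ℤ) ≤ |a| → DL l g y = 0 := by
    intro l
    induction l with
    | nil =>
      intro g a ha
      exact absurd ha (List.not_mem_nil)
    | cons b l ih =>
      intro g a ha hg h2
      rcases List.mem_cons.1 ha with h3 | h3
      · subst h3
        refine D0_DLz l (DD a g) y ?_
        unfold DD
        rw [hg (y + a), map_zero, mul_zero]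
        rw [mem_Ico]
        rcases abs_cases a with ⟨h4, _⟩ | ⟨h4, _⟩ <;> omega
      · exact ih (DD b g) a h3 (D0_SDD hg b) h2
  exact key _ f (h i) (List.mem_ofFn.2 ⟨i, rfl⟩) hf hi

/-- **Fejer weights on multiples of `d`.** -/
theorem D0_V2 {X s : ℕ} {f : ℤ → ℂ} (hf : Spt X f) (hs : 2 ≤ s) (M : ℕ) (hM : 0 < M) (d : ℤ) (hd : d ≠ 0) :
    ‖∑ t ∈ bxS s M, ((FW M t : ℝ) : ℂ) * FF X (fun i => d * t i) f‖ ≤ GG X s f := by
  classical
  have h1 := D0_W hf hs (fun _ h => if d ∣ h then ((fw M (h / d) : ℝ) : ℂ) else 0) (fun _ => D0_fej X M hM d hd)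
  refine le_trans (le_of_eq (congrArg norm ?_)) h1
  -- both sums are sums over the `t` in a large box
  obtain ⟨N, hN⟩ : ∃ N : ℕ, N = M + 2 * X + 1 := ⟨_, rfl⟩
  have hfw : ∀ t : Fin s → ℤ, (∃ i, (M : ℤ) ≤ |t i|) → FW M t = 0 := by
    rintro t ⟨i, hi⟩
    exact prod_eq_zero (mem_univ i) (D0_fw0 hM hi)
  have e1 : ∑ t ∈ bxS s M, ((FW M t : ℝ) : ℂ) * FF X (fun i => d * t i) f =
      ∑ t ∈ bxS s N, ((FW M t : ℝ) : ℂ) * FF X (fun i => d * t i) f := by
    refine Finset.sum_subset (fun t ht => ?_) fun t _ ht => ?_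
    · unfold bxS at ht ⊢
      rw [Fintype.mem_piFinset] at ht ⊢
      intro i
      have := mem_Ioo.1 (ht i)
      rw [mem_Ioo]
      omega
    · unfold bxS at ht
      rw [Fintype.mem_piFinset] at ht
      push Not at ht
      obtain ⟨i, hi⟩ := ht
      rw [hfw t ⟨i, ?_⟩]
      · simp
      · rw [mem_Ioo] at hi
        rw [le_abs]
        omega
  have e2 : ∑ h ∈ bxS s (2 * X), (∏ i, (if d ∣ h i then ((fw M (h i / d) : ℝ) : ℂ) else 0)) * FF X h f =
      ∑ t ∈ (bxS s N).filter (fun t => ∀ i, |d * t i| < 2 * X), ((FW M t : ℝ) : ℂ) * FF X (fun i => d * t i) f := by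
    symm
    have e3 : ∑ h ∈ bxS s (2 * X), (∏ i, (if d ∣ h i then ((fw M (h i / d) : ℝ) : ℂ) else 0)) * FF X h f =
        ∑ h ∈ (bxS s (2 * X)).filter (fun h => ∀ i, d ∣ h i),
          (∏ i, (if d ∣ h i then ((fw M (h i / d) : ℝ) : ℂ) else 0)) * FF X h f := by
      rw [Finset.sum_filter]
      refine sum_congr rfl fun h _ => ?_
      split_ifs with h2
      · rfl
      · push Not at h2
        obtain ⟨i, hi⟩ := h2
        rw [prod_eq_zero (mem_univ i) (if_neg hi), zero_mul]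
    rw [e3]
    refine Finset.sum_bij' (fun t _ => fun i => d * t i) (fun h _ => fun i => h i / d) ?_ ?_ ?_ ?_ ?_
    · intro t ht
      rw [mem_filter] at ht ⊢
      refine ⟨?_, fun i => dvd_mul_right _ _⟩
      unfold bxS
      rw [Fintype.mem_piFinset]
      intro i
      have := abs_lt.1 (ht.2 i)
      rw [mem_Ioo]
      push_cast
      exact this
    · intro h hh
      rw [mem_filter] at hh ⊢
      have hh1 := hh.1
      unfold bxS at hh1
      rw [Fintype.mem_piFinset] at hh1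
      have h3 : ∀ i, d * (h i / d) = h i := fun i => Int.mul_ediv_cancel' (hh.2 i)
      refine ⟨?_, fun i => ?_⟩
      · unfold bxS
        rw [Fintype.mem_piFinset]
        intro i
        have h4 := mem_Ioo.1 (hh1 i)
        push_cast at h4
        have h5 : |h i / d| ≤ |h i| := by
          rw [← h3 i, abs_mul, h3 i]
          have h6 : 1 ≤ |d| := Int.one_le_abs hd
          nlinarith [abs_nonneg (h i / d)]
        have h6 : |h i| < 2 * X := abs_lt.2 h4
        have h7 := abs_lt.1 (lt_of_le_of_lt h5 h6)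
        rw [mem_Ioo, hN]
        push_cast
        constructor <;> linarith [h7.1, h7.2, (by positivity : (0 : ℤ) ≤ (M : ℤ))]
      · rw [h3 i]
        have h4 := mem_Ioo.1 (hh1 i)
        push_cast at h4
        exact abs_lt.2 h4
    · intro t _
      funext i
      exact Int.mul_ediv_cancel_left _ hd
    · intro h hh
      rw [mem_filter] at hh
      funext i
      exact Int.mul_ediv_cancel' (hh.2 i)
    · intro t _
      congr 1
      unfold FW
      push_cast
      refine prod_congr rfl fun i _ => ?_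
      rw [if_pos (dvd_mul_right _ _), Int.mul_ediv_cancel_left _ hd]
  rw [e1, e2, Finset.sum_filter]
  refine sum_congr rfl fun t _ => ?_
  split_ifs with h2
  · rfl
  · push Not at h2
    obtain ⟨i, hi⟩ := h2
    rw [D0_large hf _ i hi, mul_zero]

theorem D0_NU {X s : ℕ} {f : ℤ → ℂ} (hf : Spt X f) (hs : 2 ≤ s) (M : ℕ) (hM : 0 < M) (d : ℤ) (hd : d ≠ 0) :
    NU X s M d f * (M : ℝ) ^ s ≤ GG X s f := by
  have hMr : (0 : ℝ) < (M : ℝ) ^ s := by positivity
  unfold NU
  rw [div_mul_cancel₀ _ hMr.ne']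
  exact (Complex.re_le_norm _).trans (D0_V2 hf hs M hM d hd)

/-- differences of a function cut off to a residue class -/
theorem D0_class (Λ : ℕ) (ρ : ℤ) (f : ℤ → ℂ) (l : List ℤ) (y : ℤ) :
    DL l (fun m => if (Λ : ℤ) ∣ m - ρ then f m else 0) y =
      if (Λ : ℤ) ∣ y - ρ ∧ ∀ a ∈ l, (Λ : ℤ) ∣ a then DL l f y else 0 := by
  induction l generalizing f with
  | nil => simp [DL]
  | cons b l ih =>
    have h1 : DD b (fun m => if (Λ : ℤ) ∣ m - ρ then f m else 0) =
        fun m => if (Λ : ℤ) ∣ m - ρ then (if (Λ : ℤ) ∣ b then DD b f m else 0) else 0 := by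
      funext m
      unfold DD
      dsimp only
      by_cases h2 : (Λ : ℤ) ∣ m - ρ
      · rw [if_pos h2, if_pos h2]
        by_cases h3 : (Λ : ℤ) ∣ b
        · have h4 : (Λ : ℤ) ∣ m + b - ρ := by
            have : m + b - ρ = (m - ρ) + b := by ring
            rw [this]
            exact dvd_add h2 h3
          rw [if_pos h4, if_pos h3]
        · have h4 : ¬ (Λ : ℤ) ∣ m + b - ρ := by
            intro h5
            apply h3
            have : b = (m + b - ρ) - (m - ρ) := by ring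
            rw [this]
            exact dvd_sub h5 h2
          rw [if_neg h4, if_neg h3, map_zero, mul_zero]
      · rw [if_neg h2, if_neg h2, zero_mul]
    show DL l (DD b _) y = _
    rw [h1, ih (fun m => if (Λ : ℤ) ∣ b then DD b f m else 0)]
    by_cases h3 : (Λ : ℤ) ∣ b
    · simp only [if_pos h3]
      by_cases h4 : (Λ : ℤ) ∣ y - ρ ∧ ∀ a ∈ l, (Λ : ℤ) ∣ a
      · rw [if_pos h4, if_pos ⟨h4.1, fun a ha => by
          rcases List.mem_cons.1 ha with h5 | h5
          · rw [h5]; exact h3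
          · exact h4.2 a h5⟩]
        rfl
      · rw [if_neg h4, if_neg]
        intro h5
        exact h4 ⟨h5.1, fun a ha => h5.2 a (List.mem_cons_of_mem _ ha)⟩
    · simp only [if_neg h3]
      rw [if_neg (fun h5 : _ ∧ ∀ a ∈ (b :: l), (Λ : ℤ) ∣ a => h3 (h5.2 b List.mem_cons_self))]
      split_ifs
      · exact D0_DLz l _ y rfl
      · rfl

/-- **Residue classes.** -/
theorem D0_V1 {X s : ℕ} {f : ℤ → ℂ} (hf : Spt X f) (hs : 2 ≤ s) (Λ : ℕ) (hΛ : 0 < Λ) (ρ : ℤ) :
    GG X s (fun m => if (Λ : ℤ) ∣ m - ρ then f m else 0) ≤ GG X s f := by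
  classical
  have hf' : ∀ σ : ℤ, Spt X (fun m => if (Λ : ℤ) ∣ m - σ then f m else 0) := by
    intro σ y hy
    simp only [hf y hy, ite_self]
  -- the sum over all classes
  have h1 : ∑ σ ∈ range Λ, GG X s (fun m => if (Λ : ℤ) ∣ m - σ then f m else 0) ≤ GG X s f := by
    have h2 : ((∑ σ ∈ range Λ, GG X s (fun m => if (Λ : ℤ) ∣ m - σ then f m else 0) : ℝ) : ℂ) =
        ∑ h ∈ bxS s (2 * X), (∏ i, (if (Λ : ℤ) ∣ h i then (1 : ℂ) else 0)) * FF X h f := by
      rw [Complex.ofReal_sum]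
      have h3 : ∀ σ ∈ range Λ, ((GG X s (fun m => if (Λ : ℤ) ∣ m - σ then f m else 0) : ℝ) : ℂ) =
          ∑ h ∈ bxS s (2 * X), FF X h (fun m => if (Λ : ℤ) ∣ m - σ then f m else 0) := fun σ _ =>
        (D0_re (hf' σ) (by omega)).symm
      rw [sum_congr rfl h3, Finset.sum_comm]
      refine sum_congr rfl fun h _ => ?_
      unfold FF
      rw [Finset.sum_comm, Finset.mul_sum]
      refine sum_congr rfl fun y _ => ?_
      unfold DV
      have h4 : ∀ σ ∈ range Λ, DL (List.ofFn h) (fun m => if (Λ : ℤ) ∣ m - σ then f m else 0) y =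
          if (Λ : ℤ) ∣ y - σ then (if ∀ i, (Λ : ℤ) ∣ h i then DL (List.ofFn h) f y else 0) else 0 := by
        intro σ _
        rw [D0_class]
        have h5 : (∀ a ∈ List.ofFn h, (Λ : ℤ) ∣ a) ↔ ∀ i, (Λ : ℤ) ∣ h i := by
          simp only [List.mem_ofFn]
          constructor
          · exact fun h6 i => h6 _ ⟨i, rfl⟩
          · rintro h6 _ ⟨i, rfl⟩
            exact h6 i
        by_cases h6 : (Λ : ℤ) ∣ y - σ
        · by_cases h7 : ∀ i, (Λ : ℤ) ∣ h i
          · rw [if_pos ⟨h6, h5.2 h7⟩, if_pos h6, if_pos h7]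
          · rw [if_neg (fun h8 => h7 (h5.1 h8.2)), if_pos h6, if_neg h7]
        · rw [if_neg (fun h8 => h6 h8.1), if_neg h6]
      rw [sum_congr rfl h4]
      have hΛz : (0 : ℤ) < Λ := by exact_mod_cast hΛ
      rw [Finset.sum_eq_single_of_mem (y % Λ).toNat]
      · rw [if_pos]
        · by_cases h7 : ∀ i, (Λ : ℤ) ∣ h i
          · rw [if_pos h7, prod_congr rfl fun i _ => if_pos (h7 i), prod_const_one, one_mul]
          · rw [if_neg h7]
            push Not at h7
            obtain ⟨i, hi⟩ := h7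
            rw [prod_eq_zero (mem_univ i) (if_neg hi), zero_mul]
        · have h8 : (((y % Λ).toNat : ℕ) : ℤ) = y % Λ := Int.toNat_of_nonneg (Int.emod_nonneg _ hΛz.ne')
          rw [h8]
          exact Int.dvd_self_sub_emod
      · rw [mem_range]
        have := Int.emod_lt_of_pos y hΛz
        have := Int.emod_nonneg y hΛz.ne'
        omega
      · intro σ hσ hne
        rw [if_neg]
        intro h8
        apply hne
        rw [mem_range] at hσ
        have h9 : y % Λ = σ := by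
          have h10 : y % Λ = (σ : ℤ) % Λ := Int.emod_eq_emod_iff_emod_sub_eq_zero.2 (Int.emod_eq_zero_of_dvd h8)
          rw [h10, Int.emod_eq_of_lt (by positivity) (by exact_mod_cast hσ)]
        rw [h9, Int.toNat_natCast]
    have h3 := D0_W hf hs (fun _ h => if (Λ : ℤ) ∣ h then 1 else 0) (fun _ => D0_Wdvd X Λ hΛ)
    rw [← h2, Complex.norm_real] at h3
    exact (le_abs_self _).trans h3
  -- one class
  have hΛz : (0 : ℤ) < Λ := by exact_mod_cast hΛ
  have h2 : (fun m => if (Λ : ℤ) ∣ m - ρ then f m else 0) =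
      fun m => if (Λ : ℤ) ∣ m - (((ρ % Λ).toNat : ℕ) : ℤ) then f m else 0 := by
    funext m
    have h8 : (((ρ % Λ).toNat : ℕ) : ℤ) = ρ % Λ := Int.toNat_of_nonneg (Int.emod_nonneg _ hΛz.ne')
    rw [h8]
    have h9 : (Λ : ℤ) ∣ m - ρ ↔ (Λ : ℤ) ∣ m - ρ % Λ := by
      have h10 : m - ρ % Λ = (m - ρ) + (ρ - ρ % Λ) := by ring
      rw [h10]
      exact (Int.dvd_add_left Int.dvd_self_sub_emod).symm
    by_cases h10 : (Λ : ℤ) ∣ m - ρ
    · rw [if_pos h10, if_pos (h9.1 h10)]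
    · rw [if_neg h10, if_neg (fun h => h10 (h9.2 h))]
  rw [h2]
  refine le_trans ?_ h1
  refine Finset.single_le_sum (f := fun σ : ℕ => GG X s (fun m => if (Λ : ℤ) ∣ m - σ then f m else 0))
    (fun σ _ => D0_nn (hf' σ) (by omega)) ?_
  rw [mem_range]
  have := Int.emod_lt_of_pos ρ hΛz
  have := Int.emod_nonneg ρ hΛz.ne'
  omega

end Pool.Agent.HUK
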