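import Pool.Agent.Lib.HUK.C1
import Pool.Agent.Lib.HUK.D0

/-!
# HUK, chunk C5 (M): the slices of a cube

`h_0 = h`, `h_i = h + e_i`: the vertex `y + ω · h` is `y + |ω| h + ω · (0, e)`, grouped by `|ω| = j`.
-/

open Finset

namespace Pool.Agent.HUK

/-- The product of the vertices with `j` coordinates `true`, translated by `∑ e`. -/
noncomputable def sl {s : ℕ} (f : ℤ → ℂ) (e : Fin s → ℤ) (j : ℕ) (x : ℤ) : ℂ :=
  ∏ ω ∈ univ.filter (fun ω : Fin (s + 1) → Bool => sg ω = j),
    cj j (f (x - ∑ i, e i + vt ω (Fin.cons 0 e : Fin (s + 1) → ℤ)))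

private theorem c5_cj_norm (j : ℕ) (z : ℂ) : ‖cj j z‖ = ‖z‖ := by
  unfold cj
  split_ifs
  · rfl
  · exact RCLike.norm_conj z

private theorem c5_cj_zero (j : ℕ) : cj j 0 = 0 := by
  unfold cj
  split_ifs
  · rfl
  · exact map_zero _

private theorem c5_vt_succ {s : ℕ} (ω : Fin (s + 1) → Bool) (g : Fin (s + 1) → ℤ) :
    vt ω g = (if ω 0 then g 0 else 0) + ∑ i : Fin s, if ω i.succ then g i.succ else 0 := by
  unfold vt
  rw [Fin.sum_univ_succ]

private theorem c5_vt_cons {s : ℕ} (ω : Fin (s + 1) → Bool) (e : Fin s → ℤ) :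
    vt ω (Fin.cons 0 e : Fin (s + 1) → ℤ) = ∑ i : Fin s, if ω i.succ then e i else 0 := by
  rw [c5_vt_succ]
  simp only [Fin.cons_zero, Fin.cons_succ, ite_self, zero_add]

private theorem c5_vt_add {s : ℕ} (ω : Fin s → Bool) (a : ℤ) (g : Fin s → ℤ) :
    vt ω (fun i => a + g i) = (sg ω : ℤ) * a + vt ω g := by
  unfold vt sg
  have h1 : ∀ i : Fin s, (if ω i then a + g i else 0) = (if ω i = true then a else 0) + (if ω i then g i else 0) := by
    intro i
    split_ifs
    · rfl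
    · rfl
  rw [Finset.sum_congr rfl (fun i _ => h1 i), Finset.sum_add_distrib, ← Finset.sum_filter, Finset.sum_const,
    nsmul_eq_mul]

private theorem c5_all {s : ℕ} (ω : Fin (s + 1) → Bool) (h : sg ω = s + 1) : ∀ i, ω i = true := by
  intro i
  unfold sg at h
  have h1 : (univ.filter fun i => ω i = true) = univ := by
    apply Finset.eq_univ_of_card
    rw [h, Fintype.card_fin]
  have h2 : i ∈ (univ.filter fun i => ω i = true) := by
    rw [h1]
    exact mem_univ i
  exact (mem_filter.mp h2).2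

private theorem c5_none {s : ℕ} (ω : Fin s → Bool) (h : sg ω = 0) : ∀ i, ω i = false := by
  intro i
  unfold sg at h
  rw [Finset.card_eq_zero] at h
  by_contra hc
  have h2 : i ∈ (univ.filter fun i => ω i = true) := mem_filter.mpr ⟨mem_univ i, by simpa using hc⟩
  rw [h] at h2
  exact absurd h2 (Finset.notMem_empty i)

private theorem c5_sg_exists (s j : ℕ) (hj : j ≤ s) : ∃ ω : Fin s → Bool, sg ω = j := by
  classical
  obtain ⟨t, -, ht⟩ := Finset.exists_subset_card_eq (s := (univ : Finset (Fin s))) (n := j)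
    (by rw [Finset.card_univ, Fintype.card_fin]; exact hj)
  refine ⟨fun i => decide (i ∈ t), ?_⟩
  unfold sg
  have h1 : (univ.filter fun i => decide (i ∈ t) = true) = t := by
    ext i
    simp
  rw [h1, ht]

private theorem c5_off {s : ℕ} (Y : ℕ) (ω : Fin (s + 1) → Bool) (e : Fin s → ℤ) (he : e ∈ bxS s (4 * Y)) :
    |vt ω (Fin.cons 0 e : Fin (s + 1) → ℤ) - ∑ i, e i| ≤ s * (4 * Y) := by
  rw [c5_vt_cons, ← Finset.sum_sub_distrib]
  refine (Finset.abs_sum_le_sum_abs _ _).trans ?_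
  have h1 : ∀ i ∈ (univ : Finset (Fin s)), |(if ω i.succ then e i else 0) - e i| ≤ 4 * (Y : ℤ) := by
    intro i _
    have h2 := Finset.mem_Ioo.mp (Fintype.mem_piFinset.mp he i)
    push_cast at h2
    split_ifs
    · rw [sub_self, abs_zero]
      positivity
    · rw [zero_sub, abs_neg, abs_le]
      exact ⟨h2.1.le, h2.2.le⟩
  refine (Finset.sum_le_sum h1).trans ?_
  rw [Finset.sum_const, Finset.card_univ, Fintype.card_fin, nsmul_eq_mul]

private theorem c5_last {s : ℕ} (f : ℤ → ℂ) (e : Fin s → ℤ) (x : ℤ) : sl f e (s + 1) x = cj (s + 1) (f x) := by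
  unfold sl
  have h1 : (univ.filter fun ω : Fin (s + 1) → Bool => sg ω = s + 1) = {fun _ => true} := by
    ext ω
    rw [mem_filter, mem_singleton]
    constructor
    · rintro ⟨-, h⟩
      funext i
      exact c5_all ω h i
    · rintro rfl
      refine ⟨mem_univ _, ?_⟩
      unfold sg
      simp
  rw [h1, Finset.prod_singleton, c5_vt_cons]
  simp

private theorem c5_prod {s : ℕ} (f : ℤ → ℂ) (e : Fin s → ℤ) (a y : ℤ) :
    DV (Fin.cons a (fun i => a + e i) : Fin (s + 1) → ℤ) f y =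
      ∏ j ∈ range (s + 2), sl f e j (y + j * a + ∑ i, e i) := by
  unfold DV
  rw [DL_prod]
  have hc : (Fin.cons a (fun i => a + e i) : Fin (s + 1) → ℤ) = fun i => a + (Fin.cons 0 e : Fin (s + 1) → ℤ) i := by
    funext i
    refine Fin.cases ?_ (fun i => ?_) i
    · simp
    · simp
  have hmap : ∀ ω ∈ (univ : Finset (Fin (s + 1) → Bool)), sg ω ∈ range (s + 2) := by
    intro ω _
    rw [mem_range]
    unfold sg
    have h1 := Finset.card_le_univ (univ.filter fun i => ω i = true)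
    rw [Fintype.card_fin] at h1
    omega
  rw [← Finset.prod_fiberwise_of_maps_to hmap]
  refine Finset.prod_congr rfl fun j _ => ?_
  unfold sl
  refine Finset.prod_congr rfl fun ω hω => ?_
  have hj : sg ω = j := (mem_filter.mp hω).2
  rw [hc, c5_vt_add, hj]
  congr 2
  ring

private theorem c5_sub (I : Finset ℤ) (Φ : ℤ → ℂ) (c : ℤ) (h1 : ∀ y, y ∉ I → Φ y = 0) (h2 : ∀ y, y + c ∉ I → Φ y = 0) :
    ∑ y ∈ I, Φ y = ∑ m ∈ I, Φ (m - c) := by
  have e1 : ∑ y ∈ I, Φ y = ∑ y ∈ I.filter (fun y => y + c ∈ I), Φ y := by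
    rw [Finset.sum_filter]
    refine Finset.sum_congr rfl fun y _ => ?_
    split_ifs with h
    · rfl
    · exact h2 y h
  have e2 : ∑ m ∈ I, Φ (m - c) = ∑ m ∈ I.filter (fun m => m - c ∈ I), Φ (m - c) := by
    rw [Finset.sum_filter]
    refine Finset.sum_congr rfl fun m _ => ?_
    split_ifs with h
    · rfl
    · exact h1 _ h
  rw [e1, e2]
  refine Finset.sum_bij' (fun y _ => y + c) (fun m _ => m - c) ?_ ?_ ?_ ?_ ?_
  · intro y hy
    rw [mem_filter] at hy ⊢
    rw [add_sub_cancel_right]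
    exact ⟨hy.2, hy.1⟩
  · intro m hm
    rw [mem_filter] at hm ⊢
    rw [sub_add_cancel]
    exact ⟨hm.2, hm.1⟩
  · intro y _
    exact add_sub_cancel_right _ _
  · intro m _
    exact sub_add_cancel _ _
  · intro y _
    rw [add_sub_cancel_right]

theorem C5_zero {s : ℕ} (f : ℤ → ℂ) (e : Fin s → ℤ) (x : ℤ) : sl f e 0 x = f (x - ∑ i, e i) := by
  unfold sl
  have h1 : (univ.filter fun ω : Fin (s + 1) → Bool => sg ω = 0) = {fun _ => false} := by
    ext ω
    rw [mem_filter, mem_singleton]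
    constructor
    · rintro ⟨-, h⟩
      funext i
      exact c5_none ω h i
    · rintro rfl
      refine ⟨mem_univ _, ?_⟩
      unfold sg
      simp
  rw [h1, Finset.prod_singleton, c5_vt_cons]
  simp [cj]

/-- `|∑ e| ≤ 4 s Y` and `|vt ω (0, e)| ≤ 4 s Y`; for `j ≤ s + 1` some `ω` has `sg ω = j` (the first `j` coordinates `true`), and `f` vanishes at its
vertex if `x` is not in `[-(8s+1)Y, (8s+1)Y)`. -/
theorem C5_bdd (Y s j : ℕ) (hj : j ≤ s + 1) (f : ℤ → ℂ) (hf : Bdd Y f) (e : Fin s → ℤ) (he : e ∈ bxS s (4 * Y)) :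
    Bdd ((8 * s + 1) * Y) (sl f e j) := by
  refine ⟨fun y => ?_, fun y hy => ?_⟩
  · unfold sl
    rw [norm_prod]
    refine Finset.prod_le_one (fun _ _ => norm_nonneg _) fun ω _ => ?_
    rw [c5_cj_norm]
    exact hf.le _
  · obtain ⟨ω, hω⟩ := c5_sg_exists (s + 1) j hj
    unfold sl
    refine Finset.prod_eq_zero (mem_filter.mpr ⟨mem_univ ω, hω⟩) ?_
    rw [hf.sup, c5_cj_zero]
    have h1 := abs_le.mp (c5_off Y ω e he)
    intro hc
    apply hy
    rw [mem_Ico] at hc ⊢
    have h2 : (0 : ℤ) ≤ (s : ℤ) * Y := by positivity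
    have e1 : (((8 * s + 1) * Y : ℕ) : ℤ) = 8 * ((s : ℤ) * Y) + Y := by push_cast; ring
    have e2 : (s : ℤ) * (4 * Y) = 4 * ((s : ℤ) * Y) := by ring
    rw [e1]
    rw [e2] at h1
    constructor <;> linarith [hc.1, hc.2, h1.1, h1.2]

/-- Proof. (1) `bxS_sum`, then for fixed `h = h_0 ∈ Ioo (-2Y) (2Y)` substitute `h_(i+1) = h + e_i`: the `e` with all `|h + e_i| < 2Y` are in
`bxS s (4Y)`, and for the other `e ∈ bxS s (4Y)` the term `FF Y (cons h (h + e)) f` vanishes (`D0_large` in `D0.lean`, or directly: a vertex is outside).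
(2) `DL_prod` (`P0`): `DV (cons h (h + e)) f y = ∏_ω cj (sg ω) (f (y + vt ω (cons h (h + e))))` and `vt ω (cons h (h + e)) = sg ω • h + vt ω (cons 0 e)`.
Group by `sg ω = j ∈ range (s + 2)` (`prod_fiberwise_of_maps_to`): `= ∏_{j < s+2} sl f e j (y + j h + ∑ e)`.
The factor `j = s + 1` (only `ω = true`, `vt = ∑ e`) is `cj (s+1) (f (y + (s+1) h + ∑ e))`.
(3) Substitute `m = y + (s+1) h + ∑ e`, so `y + j h + ∑ e = m - (s + 1 - j) h`: the sum over `y ∈ [-Y, Y)` becomes a sum over `m ∈ [-Y, Y)` because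
the summand vanishes unless both `y` (factor `j = 0`, `C5_zero`) and `m` are in `[-Y, Y)`. (4) Exchange the sums;
`∑_{h ∈ Ioo (-2Y) (2Y)} ∏_{j < s+1} sl f e j (m - (s+1-j) h) = Psi Y (s+1) (sl f e) m`, and the window may be enlarged to `Y'`: a non-zero term has
`f (m - (s+1) h - ∑ e) ≠ 0` (`j = 0`) and `f (m - s h - ∑ e) ≠ 0` (a factor of `j = 1`: the `ω` with only the coordinate `0` true), so `|h| < 2Y`. (Needs `1 ≤ s`.) -/
theorem C5_slice (Y Y' s : ℕ) (hs : 1 ≤ s) (hY : Y ≤ Y') (f : ℤ → ℂ) (hf : ∀ y, y ∉ Ico (-(Y : ℤ)) Y → f y = 0) :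
    ∑ h ∈ bxS (s + 1) (2 * Y), FF Y h f =
      ∑ e ∈ bxS s (4 * Y), ∑ m ∈ Ico (-(Y : ℤ)) Y, cj (s + 1) (f m) * Psi Y' (s + 1) (sl f e) m := by
  -- the change of variables in the directions
  have step1 : ∀ a : ℤ, ∑ h ∈ bxS s (2 * Y), FF Y (Fin.cons a h : Fin (s + 1) → ℤ) f =
      if a ∈ Ioo (-((2 * Y : ℕ) : ℤ)) ((2 * Y : ℕ) : ℤ) then
        ∑ e ∈ bxS s (4 * Y), FF Y (Fin.cons a (fun i => a + e i) : Fin (s + 1) → ℤ) f else
        ∑ h ∈ bxS s (2 * Y), FF Y (Fin.cons a h : Fin (s + 1) → ℤ) f := by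
    intro a
    split_ifs with ha
    · rw [mem_Ioo] at ha
      have e1 : ∑ e ∈ bxS s (4 * Y), FF Y (Fin.cons a (fun i => a + e i) : Fin (s + 1) → ℤ) f =
          ∑ e ∈ (bxS s (4 * Y)).filter (fun e => ∀ i, |a + e i| < 2 * Y),
            FF Y (Fin.cons a (fun i => a + e i) : Fin (s + 1) → ℤ) f := by
        rw [Finset.sum_filter]
        refine Finset.sum_congr rfl fun e _ => ?_
        split_ifs with h
        · rfl
        · push Not at h
          obtain ⟨i, hi⟩ := h
          refine D0_large hf _ i.succ ?_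
          rw [Fin.cons_succ]
          exact hi
      rw [e1]
      refine Finset.sum_bij' (fun h _ => fun i => h i - a) (fun e _ => fun i => a + e i) ?_ ?_ ?_ ?_ ?_
      · intro h hh
        have hh' := Fintype.mem_piFinset.mp hh
        rw [mem_filter]
        refine ⟨Fintype.mem_piFinset.mpr fun i => ?_, fun i => ?_⟩
        · have h1 := mem_Ioo.mp (hh' i)
          rw [mem_Ioo]
          push_cast at h1 ha ⊢
          constructor <;> linarith [h1.1, h1.2, ha.1, ha.2]
        · have h1 := mem_Ioo.mp (hh' i)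
          push_cast at h1
          rw [add_sub_cancel, abs_lt]
          exact h1
      · intro e he
        rw [mem_filter] at he
        refine Fintype.mem_piFinset.mpr fun i => ?_
        have h1 := abs_lt.mp (he.2 i)
        rw [mem_Ioo]
        push_cast
        exact h1
      · intro h _
        funext i
        exact add_sub_cancel _ _
      · intro e _
        funext i
        exact add_sub_cancel_left _ _
      · intro h _
        have e9 : (fun i => a + (h i - a)) = h := by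
          funext i
          exact add_sub_cancel _ _
        show FF Y (Fin.cons a h : Fin (s + 1) → ℤ) f = FF Y (Fin.cons a (fun i => a + (h i - a)) : Fin (s + 1) → ℤ) f
        rw [e9]
    · rfl
  -- the sum over the base point
  have step2 : ∀ (a : ℤ) (e : Fin s → ℤ), FF Y (Fin.cons a (fun i => a + e i) : Fin (s + 1) → ℤ) f =
      ∑ m ∈ Ico (-(Y : ℤ)) Y, cj (s + 1) (f m) *
        ∏ j ∈ range (s + 1), sl f e j (m - (((s + 1 : ℕ) : ℤ) - j) * a) := by
    intro a e
    unfold FF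
    have h1 : ∀ y, DV (Fin.cons a (fun i => a + e i) : Fin (s + 1) → ℤ) f y =
        (∏ j ∈ range (s + 1), sl f e j (y + j * a + ∑ i, e i)) *
          cj (s + 1) (f (y + ((s + 1 : ℕ) : ℤ) * a + ∑ i, e i)) := by
      intro y
      rw [c5_prod, Finset.prod_range_succ, c5_last]
    rw [Finset.sum_congr rfl fun y _ => h1 y]
    rw [c5_sub (Ico (-(Y : ℤ)) Y) (fun y => (∏ j ∈ range (s + 1), sl f e j (y + j * a + ∑ i, e i)) *
          cj (s + 1) (f (y + ((s + 1 : ℕ) : ℤ) * a + ∑ i, e i))) (((s + 1 : ℕ) : ℤ) * a + ∑ i, e i)]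
    · refine Finset.sum_congr rfl fun m _ => ?_
      have e2 : m - (((s + 1 : ℕ) : ℤ) * a + ∑ i, e i) + ((s + 1 : ℕ) : ℤ) * a + ∑ i, e i = m := by ring
      show (∏ j ∈ range (s + 1), sl f e j (m - (((s + 1 : ℕ) : ℤ) * a + ∑ i, e i) + j * a + ∑ i, e i)) *
        cj (s + 1) (f (m - (((s + 1 : ℕ) : ℤ) * a + ∑ i, e i) + ((s + 1 : ℕ) : ℤ) * a + ∑ i, e i)) = _
      rw [e2, mul_comm]
      refine congrArg _ (Finset.prod_congr rfl fun j _ => ?_)
      refine congrArg _ ?_
      ring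
    · intro y hy
      refine mul_eq_zero_of_left (Finset.prod_eq_zero (mem_range.mpr (Nat.succ_pos s)) ?_) _
      rw [C5_zero]
      have e3 : y + ((0 : ℕ) : ℤ) * a + ∑ i, e i - ∑ i, e i = y := by push_cast; ring
      rw [e3]
      exact hf y hy
    · intro y hy
      rw [← add_assoc] at hy
      show _ * cj (s + 1) (f (y + ((s + 1 : ℕ) : ℤ) * a + ∑ i, e i)) = 0
      rw [hf _ hy, c5_cj_zero, mul_zero]
  -- the window
  have step3 : ∀ (e : Fin s → ℤ) (m : ℤ), Psi Y' (s + 1) (sl f e) m =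
      ∑ a ∈ Ioo (-((2 * Y : ℕ) : ℤ)) ((2 * Y : ℕ) : ℤ), ∏ j ∈ range (s + 1), sl f e j (m - (((s + 1 : ℕ) : ℤ) - j) * a) := by
    intro e m
    unfold Psi
    symm
    refine Finset.sum_subset ?_ ?_
    · intro a ha
      rw [mem_Ioo] at ha ⊢
      push_cast at ha
      constructor <;> omega
    · intro a _ ha
      by_contra hne
      rw [← ne_eq, Finset.prod_ne_zero_iff] at hne
      have h0 := hne 0 (mem_range.mpr (by omega))
      have h1 := hne 1 (mem_range.mpr (by omega))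
      rw [C5_zero] at h0
      have i0 : m - (((s + 1 : ℕ) : ℤ) - ((0 : ℕ) : ℤ)) * a - ∑ i, e i ∈ Ico (-(Y : ℤ)) Y := by
        by_contra hc
        exact h0 (hf _ hc)
      have i1 : m - (((s + 1 : ℕ) : ℤ) - ((1 : ℕ) : ℤ)) * a - ∑ i, e i ∈ Ico (-(Y : ℤ)) Y := by
        by_contra hc
        apply h1
        unfold sl
        refine Finset.prod_eq_zero (i := (Fin.cons true (fun _ => false) : Fin (s + 1) → Bool))
          (mem_filter.mpr ⟨mem_univ _, ?_⟩) ?_
        · rw [p0_sg_cons]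
          unfold sg
          simp
        · rw [c5_vt_cons]
          simp only [Fin.cons_succ, Bool.false_eq_true, if_false, Finset.sum_const_zero, add_zero]
          rw [hf _ hc, c5_cj_zero]
      apply ha
      rw [mem_Ico] at i0 i1
      rw [mem_Ioo]
      have e0 : m - (((s + 1 : ℕ) : ℤ) - ((1 : ℕ) : ℤ)) * a - ∑ i, e i =
          m - (((s + 1 : ℕ) : ℤ) - ((0 : ℕ) : ℤ)) * a - ∑ i, e i + a := by push_cast; ring
      rw [e0] at i1
      push_cast at i0 i1 ⊢
      constructor <;> linarith [i0.1, i0.2, i1.1, i1.2]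
  rw [D0_bx, Finset.sum_congr rfl fun a ha => by
    rw [step1 a, if_pos ha, Finset.sum_congr rfl fun e _ => step2 a e]]
  rw [Finset.sum_comm]
  refine Finset.sum_congr rfl fun e _ => ?_
  rw [Finset.sum_comm]
  refine Finset.sum_congr rfl fun m _ => ?_
  rw [step3, Finset.mul_sum]

end Pool.Agent.HUK
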