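import Pool.Agent.Lib.HUK.Defs

/-!
# Project HUK, A8a (helper37): integer functions of degree at most `d` with a given leading coefficient; `Qf`, `Df` on lines
-/

open Finset

namespace Pool.Agent.HUK

/-- `P` is a polynomial function of degree at most `d` with leading coefficient `c` (coefficient of `k ^ d`). -/
def PF : ℕ → ℤ → (ℤ → ℤ) → Prop
  | 0, c, P => ∀ k, P k = c
  | d + 1, c, P => ∀ h : ℤ, PF d (((d : ℤ) + 1) * h * c) (fun k => P (k + h) - P k)

theorem pf_congr {d : ℕ} {c c' : ℤ} {P P' : ℤ → ℤ} (hc : c = c') (hP : ∀ k, P k = P' k) (h : PF d c P) : PF d c' P' := by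
  have h1 : P = P' := funext hP
  rw [← hc, ← h1]
  exact h

theorem pf_add (d : ℕ) : ∀ (c c' : ℤ) (P P' : ℤ → ℤ), PF d c P → PF d c' P' → PF d (c + c') (fun k => P k + P' k) := by
  induction d with
  | zero =>
    intro c c' P P' h h' k
    change P k + P' k = _
    rw [h k, h' k]
  | succ d ih =>
    intro c c' P P' h h' t
    refine pf_congr ?_ ?_ (ih _ _ _ _ (h t) (h' t))
    · ring
    · intro k
      ring

theorem pf_smul (d : ℕ) (a : ℤ) : ∀ (c : ℤ) (P : ℤ → ℤ), PF d c P → PF d (a * c) (fun k => a * P k) := by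
  induction d with
  | zero =>
    intro c P h k
    change a * P k = _
    rw [h k]
  | succ d ih =>
    intro c P h t
    refine pf_congr ?_ ?_ (ih _ _ (h t))
    · ring
    · intro k
      ring

theorem pf_shift (d : ℕ) (a : ℤ) : ∀ (c : ℤ) (P : ℤ → ℤ), PF d c P → PF d c (fun k => P (k + a)) := by
  induction d with
  | zero =>
    intro c P h k
    exact h _
  | succ d ih =>
    intro c P h t
    refine pf_congr rfl ?_ (ih _ _ (h t))
    intro k
    simp only [add_right_comm k a t]

theorem pf_mul (n : ℕ) : ∀ (d1 d2 : ℕ), d1 + d2 = n → ∀ (c1 c2 : ℤ) (P Q : ℤ → ℤ), PF d1 c1 P → PF d2 c2 Q →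
    PF n (c1 * c2) (fun k => P k * Q k) := by
  induction n with
  | zero =>
    intro d1 d2 hd c1 c2 P Q hP hQ
    obtain rfl : d1 = 0 := by omega
    obtain rfl : d2 = 0 := by omega
    intro k
    change P k * Q k = _
    rw [hP k, hQ k]
  | succ n ih =>
    intro d1 d2 hd c1 c2 P Q hP hQ
    rcases d1 with _ | a
    · obtain rfl : d2 = n + 1 := by omega
      exact pf_congr rfl (fun k => by rw [hP k]) (pf_smul (n + 1) c1 c2 Q hQ)
    · rcases d2 with _ | b
      · obtain rfl : a = n := by omega
        exact pf_congr (mul_comm _ _) (fun k => by rw [hQ k, mul_comm]) (pf_smul (a + 1) c2 c1 P hP)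
      · intro t
        have h1 := ih a (b + 1) (by omega) _ _ _ _ (hP t) (pf_shift (b + 1) t c2 Q hQ)
        have h2 := ih (a + 1) b (by omega) _ _ _ _ hP (hQ t)
        refine pf_congr ?_ ?_ (pf_add n _ _ _ _ h1 h2)
        · have h3 : (n : ℤ) = a + b + 1 := by
            have : n = a + b + 1 := by omega
            rw [this]
            push_cast
            ring
          rw [h3]
          ring
        · intro k
          ring

theorem pf_lin (a m : ℤ) : PF 1 m (fun k => a + m * k) := by
  intro h k
  simp only [Nat.cast_zero]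
  ring

theorem pf_Q (l : List ℤ) : ∀ a m : ℤ, PF (2 ^ l.length) (Qf (List.replicate l.length 1) m)
    (fun k => Qf (l.map (· + k)) (a + m * k)) := by
  induction l with
  | nil =>
    intro a m
    exact pf_lin a m
  | cons j l ih =>
    intro a m
    have h1 := pf_mul (2 ^ l.length + 2 ^ l.length) _ _ rfl _ _ _ _ (ih a m) (ih (a + j) (m + 1))
    have h2 : 2 ^ (j :: l).length = 2 ^ l.length + 2 ^ l.length := by
      rw [List.length_cons, pow_succ]
      ring
    rw [h2]
    refine pf_congr ?_ ?_ h1
    · rw [List.length_cons, List.replicate_succ]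
      rfl
    · intro k
      rw [List.map_cons]
      change _ = Qf (l.map (· + k)) (a + m * k) * Qf (l.map (· + k)) (a + m * k + (j + k))
      rw [show a + m * k + (j + k) = a + j + (m + 1) * k by ring]

theorem pf_D (l : List ℤ) : ∀ a m : ℤ, PF (2 ^ l.length - 1) (Df (List.replicate l.length 1) m)
    (fun k => Df (l.map (· + k)) (a + m * k)) := by
  induction l with
  | nil =>
    intro a m k
    rfl
  | cons j l ih =>
    intro a m
    have h1 := pf_mul (2 ^ l.length - 1 + 2 ^ l.length) _ _ rfl _ _ _ _ (ih a m) (pf_Q l (a + j) (m + 1))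
    have h2 := pf_mul (2 ^ l.length - 1 + 2 ^ l.length) _ _ rfl _ _ _ _ (ih (a + j) (m + 1)) (pf_Q l a m)
    have h3 := pf_add _ _ _ _ _ h1 (pf_smul _ (-1) _ _ h2)
    have h4 : 2 ^ (j :: l).length - 1 = 2 ^ l.length - 1 + 2 ^ l.length := by
      have h5 := Nat.one_le_two_pow (n := l.length)
      rw [List.length_cons, pow_succ]
      omega
    rw [h4]
    refine pf_congr ?_ ?_ h3
    · rw [List.length_cons, List.replicate_succ]
      change _ = Df (List.replicate l.length 1) m * Qf (List.replicate l.length 1) (m + 1) -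
        Df (List.replicate l.length 1) (m + 1) * Qf (List.replicate l.length 1) m
      ring
    · intro k
      rw [List.map_cons]
      change _ = Df (l.map (· + k)) (a + m * k) * Qf (l.map (· + k)) (a + m * k + (j + k)) -
        Df (l.map (· + k)) (a + m * k + (j + k)) * Qf (l.map (· + k)) (a + m * k)
      rw [show a + m * k + (j + k) = a + j + (m + 1) * k by ring]
      ring

theorem pf_Q_pos (r : ℕ) : ∀ a : ℤ, 0 < a → 0 < Qf (List.replicate r 1) a := by
  induction r with
  | zero =>
    intro a ha
    exact ha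
  | succ r ih =>
    intro a ha
    rw [List.replicate_succ]
    exact mul_pos (ih a ha) (ih (a + 1) (by omega))

theorem pf_D_eq (r : ℕ) : ∀ a : ℤ, Df (List.replicate r 1) a * ∏ i ∈ range (r + 1), (a + i) =
    (r.factorial : ℤ) * Qf (List.replicate r 1) a := by
  induction r with
  | zero =>
    intro a
    rw [zero_add, Finset.prod_range_one]
    simp [Df, Qf]
  | succ r ih =>
    intro a
    rw [List.replicate_succ]
    change (Df (List.replicate r 1) a * Qf (List.replicate r 1) (a + 1) -
      Df (List.replicate r 1) (a + 1) * Qf (List.replicate r 1) a) * _ =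
      _ * (Qf (List.replicate r 1) a * Qf (List.replicate r 1) (a + 1))
    have h1 := ih a
    have h2 := ih (a + 1)
    have h3 : ∏ i ∈ range (r + 1 + 1), (a + (i : ℤ)) = (∏ i ∈ range (r + 1), (a + (i : ℤ))) * (a + (r + 1)) := by
      rw [Finset.prod_range_succ]
      push_cast
      rfl
    have h4 : ∏ i ∈ range (r + 1 + 1), (a + (i : ℤ)) = a * ∏ i ∈ range (r + 1), (a + 1 + (i : ℤ)) := by
      rw [Finset.prod_range_succ']
      rw [mul_comm]
      congr 1
      · push_cast
        ring
      · refine Finset.prod_congr rfl fun i _ => ?_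
        push_cast
        ring
    have h5 : (Df (List.replicate r 1) a * Qf (List.replicate r 1) (a + 1) -
      Df (List.replicate r 1) (a + 1) * Qf (List.replicate r 1) a) * ∏ i ∈ range (r + 1 + 1), (a + (i : ℤ)) =
      Df (List.replicate r 1) a * Qf (List.replicate r 1) (a + 1) * ((∏ i ∈ range (r + 1), (a + (i : ℤ))) * (a + (r + 1))) -
      Df (List.replicate r 1) (a + 1) * Qf (List.replicate r 1) a * (a * ∏ i ∈ range (r + 1), (a + 1 + (i : ℤ))) := by
      rw [sub_mul]
      congr 1
      · rw [h3]
      · rw [h4]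
    rw [h5, Nat.factorial_succ]
    push_cast
    linear_combination (Qf (List.replicate r 1) (a + 1) * (a + (r + 1))) * h1 - (Qf (List.replicate r 1) a * a) * h2

theorem pf_D_ne (r : ℕ) : Df (List.replicate r 1) 1 ≠ 0 := by
  intro h
  have h1 := pf_D_eq r 1
  rw [h, zero_mul] at h1
  have h2 : (0 : ℤ) < (r.factorial : ℤ) * Qf (List.replicate r 1) 1 :=
    mul_pos (by exact_mod_cast Nat.factorial_pos r) (pf_Q_pos r 1 one_pos)
  omega

end Pool.Agent.HUK
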