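import Pool.Agent.Lib.HUK.P0

/-!
# Project HUK, chunk P1 (M): rules for `GG`
-/

open Finset

namespace Pool.Agent.HUK

open Pool.Agent.H44W (ee)

theorem Bdd_DD {X : ℕ} {f : ℤ → ℂ} (hf : Bdd X f) (h : ℤ) : Bdd X (DD h f) := by
  refine ⟨fun y => ?_, fun y hy => ?_⟩
  · unfold DD
    rw [norm_mul, RCLike.norm_conj]
    have h1 := hf.le y
    have h2 := hf.le (y + h)
    have h3 := norm_nonneg (f y)
    have h4 := norm_nonneg (f (y + h))
    nlinarith
  · unfold DD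
    rw [hf.sup y hy, zero_mul]

theorem Bdd_DV {X s : ℕ} {f : ℤ → ℂ} (hf : Bdd X f) (h : Fin s → ℤ) : Bdd X (DV h f) :=
  ⟨fun y => DL_norm _ f hf.le y, fun y hy => DL_supp _ f y (hf.sup y hy)⟩

theorem bxS_sum (s H : ℕ) (F : (Fin (s + 1) → ℤ) → ℂ) :
    ∑ h ∈ bxS (s + 1) H, F h = ∑ k ∈ Ioo (-(H : ℤ)) H, ∑ h ∈ bxS s H, F (Fin.cons k h : Fin (s + 1) → ℤ) := by
  rw [← Finset.sum_product']
  refine Finset.sum_nbij' (fun h => (h 0, Fin.tail h)) (fun p => (Fin.cons p.1 p.2 : Fin (s + 1) → ℤ)) ?_ ?_ ?_ ?_ ?_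
  · intro h hh
    rw [bxS, Fintype.mem_piFinset] at hh
    rw [Finset.mem_product]
    refine ⟨hh 0, ?_⟩
    rw [bxS, Fintype.mem_piFinset]
    intro i
    exact hh i.succ
  · intro p hp
    rw [Finset.mem_product] at hp
    rw [bxS, Fintype.mem_piFinset]
    intro i
    have h2 := hp.2
    rw [bxS, Fintype.mem_piFinset] at h2
    refine Fin.cases ?_ ?_ i
    · simpa using hp.1
    · intro j
      simpa using h2 j
  · intro h _
    exact Fin.cons_self_tail h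
  · intro p _
    simp
  · intro h _
    show F h = F (Fin.cons (h 0) (Fin.tail h) : Fin (s + 1) → ℤ)
    rw [Fin.cons_self_tail]

theorem bxS_card (s H : ℕ) : ((bxS s H).card : ℝ) ≤ (2 * H) ^ s := by
  unfold bxS
  rw [Fintype.card_piFinset]
  simp only [Int.card_Ioo, Finset.prod_const, Finset.card_univ, Fintype.card_fin]
  push_cast
  refine pow_le_pow_left₀ (by positivity) ?_ s
  have h1 : ((H : ℤ) - -(H : ℤ) - 1).toNat ≤ 2 * H := by omega
  exact_mod_cast h1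

theorem FF_cons (X s : ℕ) (k : ℤ) (h : Fin s → ℤ) (f : ℤ → ℂ) :
    FF X (Fin.cons k h : Fin (s + 1) → ℤ) f = FF X h (DD k f) := by
  unfold FF DV
  rw [List.ofFn_cons]
  rfl

theorem GG_succ (X s : ℕ) (f : ℤ → ℂ) : GG X (s + 1) f = ∑ k ∈ Ioo (-(2 * X : ℤ)) (2 * X), GG X s (DD k f) := by
  unfold GG
  rw [bxS_sum, Complex.re_sum]
  push_cast
  refine Finset.sum_congr rfl fun k _ => ?_
  congr 1
  exact Finset.sum_congr rfl fun h _ => FF_cons X s k h f

theorem p1_sum_zero (X : ℕ) (f : ℤ → ℂ) :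
    ∑ h ∈ bxS 0 (2 * X), FF X h f = ∑ y ∈ Ico (-(X : ℤ)) X, f y := by
  have h1 : bxS 0 (2 * X) = {(fun i : Fin 0 => i.elim0)} := by
    ext h
    rw [bxS, Fintype.mem_piFinset, Finset.mem_singleton]
    exact ⟨fun _ => Subsingleton.elim _ _, fun _ i => i.elim0⟩
  rw [h1, Finset.sum_singleton]
  rfl

theorem p1_DD_supp {X : ℕ} {f : ℤ → ℂ} (hf : ∀ y, y ∉ Ico (-(X : ℤ)) X → f y = 0) (k : ℤ) :
    ∀ y, y ∉ Ico (-(X : ℤ)) X → DD k f y = 0 := by
  intro y hy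
  unfold DD
  rw [hf y hy, zero_mul]

theorem p1_inner (X : ℕ) (f : ℤ → ℂ) (hf : ∀ y, y ∉ Ico (-(X : ℤ)) X → f y = 0) (y : ℤ)
    (hy : y ∈ Ico (-(X : ℤ)) X) :
    ∑ k ∈ Ioo (-(2 * X : ℤ)) (2 * X), (starRingEnd ℂ) (f (y + k)) = (starRingEnd ℂ) (∑ z ∈ Ico (-(X : ℤ)) X, f z) := by
  rw [map_sum]
  symm
  refine Finset.sum_bij_ne_zero (fun z _ _ => z - y) ?_ ?_ ?_ ?_
  · intro z hz _
    rw [Finset.mem_Ico] at hz hy
    rw [Finset.mem_Ioo]
    omega
  · intro a _ _ b _ _ hab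
    have : a - y = b - y := hab
    omega
  · intro k hk hne
    refine ⟨y + k, ?_, hne, ?_⟩
    · by_contra hc
      apply hne
      rw [hf _ hc, map_zero]
    · show y + k - y = k
      ring
  · intro z _ _
    show (starRingEnd ℂ) (f z) = (starRingEnd ℂ) (f (y + (z - y)))
    rw [show y + (z - y) = z by ring]

theorem p1_one (X : ℕ) (f : ℤ → ℂ) (hf : ∀ y, y ∉ Ico (-(X : ℤ)) X → f y = 0) :
    ∑ h ∈ bxS 1 (2 * X), FF X h f = ((‖∑ y ∈ Ico (-(X : ℤ)) X, f y‖ ^ 2 : ℝ) : ℂ) := by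
  have h0 : ∑ h ∈ bxS (0 + 1) (2 * X), FF X h f
      = ∑ k ∈ Ioo (-(2 * X : ℤ)) (2 * X), ∑ y ∈ Ico (-(X : ℤ)) X, DD k f y := by
    rw [bxS_sum]
    push_cast
    refine Finset.sum_congr rfl fun k _ => ?_
    rw [← p1_sum_zero X (DD k f)]
    exact Finset.sum_congr rfl fun h _ => FF_cons X 0 k h f
  rw [show (1 : ℕ) = 0 + 1 from rfl, h0, Finset.sum_comm]
  have h1 : ∀ y ∈ Ico (-(X : ℤ)) X, ∑ k ∈ Ioo (-(2 * X : ℤ)) (2 * X), DD k f y
      = f y * (starRingEnd ℂ) (∑ z ∈ Ico (-(X : ℤ)) X, f z) := by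
    intro y hy
    rw [← p1_inner X f hf y hy, Finset.mul_sum]
    rfl
  rw [Finset.sum_congr rfl h1, ← Finset.sum_mul, Complex.mul_conj, Complex.normSq_eq_norm_sq]

/-- `∑_h ∑_y f(y) conj f(y + h)`, all differences are in `(-2X, 2X)`. -/
theorem GG_one (X : ℕ) (f : ℤ → ℂ) (hf : ∀ y, y ∉ Ico (-(X : ℤ)) X → f y = 0) :
    GG X 1 f = ‖∑ y ∈ Ico (-(X : ℤ)) X, f y‖ ^ 2 := by
  unfold GG
  rw [p1_one X f hf, Complex.ofReal_re]

theorem p1_real (X s : ℕ) (f : ℤ → ℂ) (hf : ∀ y, y ∉ Ico (-(X : ℤ)) X → f y = 0) :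
    0 ≤ GG X (s + 1) f ∧ ∑ h ∈ bxS (s + 1) (2 * X), FF X h f = ((GG X (s + 1) f : ℝ) : ℂ) := by
  induction s generalizing f with
  | zero =>
    rw [zero_add, GG_one X f hf]
    exact ⟨by positivity, p1_one X f hf⟩
  | succ s ih =>
    rw [GG_succ X (s + 1) f]
    refine ⟨Finset.sum_nonneg fun k _ => (ih _ (p1_DD_supp hf k)).1, ?_⟩
    rw [bxS_sum]
    push_cast
    refine Finset.sum_congr rfl fun k _ => ?_
    rw [← (ih _ (p1_DD_supp hf k)).2]
    exact Finset.sum_congr rfl fun h _ => FF_cons X (s + 1) k h f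

theorem GG_nonneg (X s : ℕ) (hs : 1 ≤ s) (f : ℤ → ℂ) (hf : ∀ y, y ∉ Ico (-(X : ℤ)) X → f y = 0) : 0 ≤ GG X s f := by
  obtain ⟨t, rfl⟩ : ∃ t, s = t + 1 := ⟨s - 1, by omega⟩
  exact (p1_real X t f hf).1

/-- The sum without real part is real (`s ≥ 1`), same induction. -/
theorem GG_real (X s : ℕ) (hs : 1 ≤ s) (f : ℤ → ℂ) (hf : ∀ y, y ∉ Ico (-(X : ℤ)) X → f y = 0) :
    ∑ h ∈ bxS s (2 * X), FF X h f = ((GG X s f : ℝ) : ℂ) := by
  obtain ⟨t, rfl⟩ : ∃ t, s = t + 1 := ⟨s - 1, by omega⟩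
  exact (p1_real X t f hf).2

theorem GG_le (X s : ℕ) (f : ℤ → ℂ) (hf : Bdd X f) : GG X s f ≤ (4 * X) ^ s * (2 * X) := by
  unfold GG
  have h1 : ∀ h ∈ bxS s (2 * X), ‖FF X h f‖ ≤ 2 * X := by
    intro h _
    unfold FF
    calc ‖∑ y ∈ Ico (-(X : ℤ)) X, DV h f y‖ ≤ ∑ y ∈ Ico (-(X : ℤ)) X, ‖DV h f y‖ := norm_sum_le _ _
      _ ≤ ∑ _y ∈ Ico (-(X : ℤ)) X, (1 : ℝ) := Finset.sum_le_sum fun y _ => (Bdd_DV hf h).le y
      _ = 2 * X := by
        rw [Finset.sum_const, nsmul_eq_mul, mul_one, Int.card_Ico]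
        have h2 : (((X : ℤ) - -(X : ℤ)).toNat : ℤ) = 2 * (X : ℤ) := by
          rw [Int.toNat_of_nonneg] <;> omega
        exact_mod_cast h2
  calc (∑ h ∈ bxS s (2 * X), FF X h f).re ≤ ‖∑ h ∈ bxS s (2 * X), FF X h f‖ := Complex.re_le_norm _
    _ ≤ ∑ h ∈ bxS s (2 * X), ‖FF X h f‖ := norm_sum_le _ _
    _ ≤ ∑ _h ∈ bxS s (2 * X), (2 * X : ℝ) := Finset.sum_le_sum h1
    _ = (bxS s (2 * X)).card * (2 * X : ℝ) := by rw [Finset.sum_const, nsmul_eq_mul]
    _ ≤ (4 * X) ^ s * (2 * X) := by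
      refine mul_le_mul_of_nonneg_right ?_ (by positivity)
      have h3 := bxS_card s (2 * X)
      push_cast at h3
      rw [show (2 * (2 * (X : ℝ))) = 4 * X by ring] at h3
      exact h3

theorem p1_const (X s : ℕ) (f : ℤ → ℂ) (c : ℂ) (hc : ‖c‖ = 1) :
    GG X (s + 1) (fun y => c * f y) = GG X (s + 1) f := by
  rw [GG_succ, GG_succ]
  refine Finset.sum_congr rfl fun k _ => ?_
  congr 1
  funext y
  unfold DD
  rw [map_mul]
  have h1 : c * (starRingEnd ℂ) c = 1 := by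
    rw [Complex.mul_conj, Complex.normSq_eq_norm_sq, hc]
    norm_num
  calc c * f y * ((starRingEnd ℂ) c * (starRingEnd ℂ) (f (y + k)))
      = (c * (starRingEnd ℂ) c) * (f y * (starRingEnd ℂ) (f (y + k))) := by ring
    _ = f y * (starRingEnd ℂ) (f (y + k)) := by rw [h1, one_mul]

/-- Phases of degree one do not change `GG X s`, `s ≥ 2`: `DD k (f e)` is `DD k f` times a constant of absolute value `1`, and `DD h (c g) = DD h g`
for `‖c‖ = 1`. -/
theorem GG_phase (X s : ℕ) (hs : 2 ≤ s) (f : ℤ → ℂ) (θ : ℝ) : GG X s (fun y => f y * ee (θ * y)) = GG X s f := by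
  obtain ⟨t, rfl⟩ : ∃ t, s = t + 1 + 1 := ⟨s - 2, by omega⟩
  rw [GG_succ, GG_succ]
  refine Finset.sum_congr rfl fun k _ => ?_
  rw [← p1_const X t (DD k f) (ee (-(θ * k))) (Pool.Agent.H44W.norm_ee _)]
  congr 1
  funext y
  unfold DD
  rw [map_mul, ← Pool.Agent.H44W.ee_neg]
  have h1 : ee (θ * y) * ee (-(θ * ((y + k : ℤ) : ℝ))) = ee (-(θ * k)) := by
    rw [← Pool.Agent.H44W.ee_add]
    congr 1
    push_cast
    ring
  calc f y * ee (θ * y) * ((starRingEnd ℂ) (f (y + k)) * ee (-(θ * ((y + k : ℤ) : ℝ))))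
      = (ee (θ * y) * ee (-(θ * ((y + k : ℤ) : ℝ)))) * (f y * (starRingEnd ℂ) (f (y + k))) := by ring
    _ = ee (-(θ * k)) * (f y * (starRingEnd ℂ) (f (y + k))) := by rw [h1]

theorem p1_zero (X s : ℕ) : GG X s (fun _ => 0) = 0 := by
  induction s with
  | zero =>
    unfold GG
    rw [p1_sum_zero]
    simp
  | succ s ih =>
    rw [GG_succ]
    refine Finset.sum_eq_zero fun k _ => ?_
    rw [← ih]
    congr 1
    funext y
    unfold DD
    rw [zero_mul]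

theorem p1_DD_zero {A B : ℤ} {f : ℤ → ℂ} (hf : ∀ y, y ∉ Ico A B → f y = 0) (k : ℤ)
    (hk : k ∉ Ioo (-(B - A)) (B - A)) : DD k f = fun _ => 0 := by
  funext y
  unfold DD
  by_cases hy : y ∈ Ico A B
  · have h2 : y + k ∉ Ico A B := by
      intro h3
      apply hk
      rw [Finset.mem_Ico] at hy h3
      rw [Finset.mem_Ioo]
      omega
    rw [hf _ h2, map_zero, mul_zero]
  · rw [hf _ hy, zero_mul]

/-- Translations. -/
theorem GG_shift (X X' s : ℕ) (a : ℤ) (f : ℤ → ℂ) (hf : ∀ y, y ∉ Ico (-(X : ℤ)) X → f y = 0)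
    (hf' : ∀ y, y ∉ Ico (-(X' : ℤ)) X' → f (y + a) = 0) : GG X' s (fun y => f (y + a)) = GG X s f := by
  induction s generalizing f with
  | zero =>
    unfold GG
    rw [p1_sum_zero, p1_sum_zero]
    congr 1
    refine Finset.sum_bij_ne_zero (fun z _ _ => z + a) ?_ ?_ ?_ ?_
    · intro z _ hne
      by_contra hc
      exact hne (hf _ hc)
    · intro z _ _ w _ _ hzw
      have : z + a = w + a := hzw
      omega
    · intro z _ hne
      refine ⟨z - a, ?_, ?_, ?_⟩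
      · by_contra hc
        apply hne
        have := hf' _ hc
        rwa [sub_add_cancel] at this
      · rwa [sub_add_cancel]
      · show z - a + a = z
        ring
    · intro z _ _
      rfl
  | succ s ih =>
    rw [GG_succ, GG_succ]
    have h1 : ∀ k : ℤ, GG X' s (DD k (fun y => f (y + a))) = GG X s (DD k f) := by
      intro k
      rw [← ih (DD k f) (p1_DD_supp hf k) ?_]
      · congr 1
        funext y
        unfold DD
        show f (y + a) * (starRingEnd ℂ) (f (y + k + a)) = f (y + a) * (starRingEnd ℂ) (f (y + a + k))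
        rw [show y + k + a = y + a + k by ring]
      · intro y hy
        unfold DD
        rw [hf' y hy, zero_mul]
    rw [Finset.sum_congr rfl fun k _ => h1 k]
    have hf2 : ∀ y, y ∉ Ico (-(X' : ℤ) + a) (X' + a) → f y = 0 := by
      intro y hy
      have := hf' (y - a) (by
        intro h3
        apply hy
        rw [Finset.mem_Ico] at h3 ⊢
        omega)
      rwa [sub_add_cancel] at this
    have h2 : ∀ k : ℤ, GG X s (DD k f) ≠ 0 →
        k ∈ Ioo (-(2 * X : ℤ)) (2 * X) ∧ k ∈ Ioo (-(2 * X' : ℤ)) (2 * X') := by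
      intro k hk
      constructor
      · by_contra hc
        apply hk
        rw [p1_DD_zero hf k (by rw [show (X : ℤ) - -(X : ℤ) = 2 * X by ring]; exact hc), p1_zero]
      · by_contra hc
        apply hk
        rw [p1_DD_zero hf2 k (by rw [show (X' : ℤ) + a - (-(X' : ℤ) + a) = 2 * X' by ring]; exact hc), p1_zero]
    refine Finset.sum_bij_ne_zero (fun k _ _ => k) ?_ ?_ ?_ ?_
    · intro k _ hne
      exact (h2 k hne).1
    · intro k _ _ l _ _ hkl
      exact hkl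
    · intro k _ hne
      exact ⟨k, (h2 k hne).2, hne, rfl⟩
    · intro k _ _
      rfl

/-- The window does not matter. -/
theorem GG_scale (X X' s : ℕ) (h : X ≤ X') (f : ℤ → ℂ) (hf : ∀ y, y ∉ Ico (-(X : ℤ)) X → f y = 0) :
    GG X' s f = GG X s f := by
  have h1 := GG_shift X X' s 0 f hf (by
    intro y hy
    rw [add_zero]
    apply hf
    intro h3
    apply hy
    rw [Finset.mem_Ico] at h3 ⊢
    omega)
  simpa using h1

end Pool.Agent.HUK
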