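import Pool.Agent.Lib.H44W.W0
import Pool.Agent.Lib.H44W.E1
import Pool.Agent.Lib.H84V.Defs

/-!
# Project HUK: power saving for all Gowers norms of the primes. Definitions for modules A and B

Paper proof: `PROOF.md`. `ee θ = exp(2πiθ)` (`H44W/W0`, rules in `H44W/E1`), `nd x` the distance to the nearest integer
(`H84V/Defs`, with rules).
-/

open Finset

namespace Pool.Agent.HUK

open Pool.Agent.H44W (ee)
open Pool.Agent.Lib.H84V (nd)

noncomputable section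

/-- The difference operator `f(y) conj f(y + h)`. -/
def DD {G : Type*} [Add G] (h : G) (f : G → ℂ) : G → ℂ := fun y => f y * (starRingEnd ℂ) (f (y + h))

/-- Iterated differences. -/
def DL {G : Type*} [Add G] : List G → (G → ℂ) → G → ℂ
  | [], f => f
  | h :: l, f => DL l (DD h f)

/-- The box `(-H, H)^s`. -/
def bxS (s H : ℕ) : Finset (Fin s → ℤ) := Fintype.piFinset fun _ => Ioo (-(H : ℤ)) H

/-- Differences of a function on `ℤ` in the directions `h 0, …, h (s-1)`. -/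
def DV {s : ℕ} (h : Fin s → ℤ) (f : ℤ → ℂ) : ℤ → ℂ := DL (List.ofFn h) f

/-- Bounded by `1` and supported in `[-X, X)`. -/
structure Bdd (X : ℕ) (f : ℤ → ℂ) : Prop where
  le : ∀ y, ‖f y‖ ≤ 1
  sup : ∀ y, y ∉ Ico (-(X : ℤ)) X → f y = 0

/-- `∑_y Δ_h f(y)` for `f` supported in `[-X, X)`. -/
def FF (X : ℕ) {s : ℕ} (h : Fin s → ℤ) (f : ℤ → ℂ) : ℂ := ∑ y ∈ Ico (-(X : ℤ)) X, DV h f y

/-- `∑_{h ∈ ℤ^s} ∑_y Δ_h f(y)` (all `h` with a non-zero term) for `f` supported in `[-X, X)`: the power `2^s` of the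
unnormalised `U^s` norm. -/
def GG (X s : ℕ) (f : ℤ → ℂ) : ℝ := (∑ h ∈ bxS s (2 * X), FF X h f).re

/-- The Fejer weight. -/
def fw (M : ℕ) (t : ℤ) : ℝ := max 0 (1 - |(t : ℝ)| / M)

/-- Product of Fejer weights. -/
def FW (M : ℕ) {s : ℕ} (t : Fin s → ℤ) : ℝ := ∏ i, fw M (t i)

/-- Normalised `U^s` norm (power `2^s`, times `X`) along the progressions `d [0, M)`, Fejer weights. -/
def NU (X s M : ℕ) (d : ℤ) (f : ℤ → ℂ) : ℝ :=
  (∑ t ∈ bxS s M, ((FW M t : ℝ) : ℂ) * FF X (fun i => d * t i) f).re / (M : ℝ) ^ s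

/-- Normalised average of differences over mixed progressions: the entry `(m, d)` stands for the differences `d t`,
`|t| < m`, with Fejer weights. `NU X s M d f = (MQ X (List.replicate s (M, d)) f).re`. -/
def MQ (X : ℕ) : List (ℕ × ℤ) → (ℤ → ℂ) → ℂ
  | [], f => ∑ y ∈ Ico (-(X : ℤ)) X, f y
  | p :: l, f => (∑ t ∈ Ioo (-(p.1 : ℤ)) p.1, ((fw p.1 t : ℝ) : ℂ) * MQ X l (DD (p.2 * t) f)) / p.1

/-- The weights of the elimination lemma without absolute values. -/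
def WT (H : ℕ) {r : ℕ} (j : Fin r → ℤ) : ℝ := ∏ i : Fin r, fw H (j i) ^ (2 ^ (r - 1 - (i : ℕ)))

/-- Number of coordinates equal to `true`. -/
def sg {s : ℕ} (ω : Fin s → Bool) : ℕ := (univ.filter fun i => ω i = true).card

/-- Complex conjugation iterated `n` times. -/
def cj (n : ℕ) (z : ℂ) : ℂ := if Even n then z else (starRingEnd ℂ) z

/-- The vertex `ω · h`. -/
def vt {G : Type*} [AddCommMonoid G] {s : ℕ} (ω : Fin s → Bool) (h : Fin s → G) : G := ∑ i, if ω i then h i else 0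

/-! ### Quasi-periodic weights -/

/-- The product of all vertices `a + ω · j`. -/
def Qf : List ℤ → ℤ → ℤ
  | [], a => a
  | j :: l, a => Qf l a * Qf l (a + j)

/-- `Qf` times the alternating sum of the `1 / (a + ω · j)`. -/
def Df : List ℤ → ℤ → ℤ
  | [], _ => 1
  | j :: l, a => Df l a * Qf l (a + j) - Df l (a + j) * Qf l a

/-- All vertices `a + ω · j` are in `(K, 2K]`. -/
def Vt (K : ℕ) : List ℤ → ℤ → Prop
  | [], a => (K : ℤ) < a ∧ a ≤ 2 * K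
  | j :: l, a => Vt K l a ∧ Vt K l (a + j)

/-- Quasi-periodic weights `c (z, a)`: a translation of `z` by `a k` multiplies by `ee (ψ k)`, up to `k / H`. -/
structure QP (X K H : ℕ) (ψ : ℝ) (c : ℤ × ℤ → ℂ) : Prop where
  le : ∀ p, ‖c p‖ ≤ 1
  supz : ∀ z a : ℤ, z ∉ Ico (-(3 * X : ℤ)) (3 * X) → c (z, a) = 0
  supa : ∀ z a : ℤ, ¬ ((K : ℤ) < a ∧ a ≤ 2 * K) → c (z, a) = 0
  qp : ∀ (z a : ℤ) (k : ℕ), (K : ℤ) < a → a ≤ 2 * K → ‖c (z + a * k, a) - ee (ψ * k) * c (z, a)‖ ≤ k / H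

/-- Mean square of the averages of `g` times a phase over progressions of length `M` and difference `a`. -/
def TQ (X M : ℕ) (a : ℤ) (ψ : ℝ) (g : ℤ → ℂ) : ℝ :=
  ∑ z ∈ Ico (-(2 * X : ℤ)) (2 * X), ‖(∑ j ∈ range M, g (z + a * j) * ee (ψ * j)) / M‖ ^ 2

/-- The dual function of the forms `n - (k - j) h`, `j < k`, `f j` supported in `[-X, X)`, `k ≥ 2`. -/
def Psi (X k : ℕ) (f : ℕ → ℤ → ℂ) (n : ℤ) : ℂ :=
  ∑ h ∈ Ioo (-(2 * X : ℤ)) (2 * X), ∏ j ∈ range k, f j (n - ((k : ℤ) - j) * h)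

/-- The exponent up to which factors are treated as small in type II sums for `k + 1` forms. -/
def cs (k : ℕ) : ℝ := (1 / 2) ^ (2 ^ (k - 1) + 4)

/-- **Interface of module A: type II sums with a small factor.** -/
def TII (k : ℕ) : Prop := ∀ θ κ : ℝ, 0 < θ → 0 < κ → ∃ κ' ε : ℝ, 0 < κ' ∧ 0 < ε ∧ ∃ X0 : ℕ, ∀ X : ℕ, X0 ≤ X →
  ∀ α β : ℕ → ℂ, (∀ a, ‖α a‖ ≤ (X : ℝ) ^ ε) → (∀ b, ‖β b‖ ≤ (X : ℝ) ^ ε) →
  (∀ a : ℕ, α a ≠ 0 → (X : ℝ) ^ θ ≤ a ∧ (a : ℝ) ≤ (X : ℝ) ^ cs k) →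
  ∀ f : ℕ → ℤ → ℂ, (∀ j, j < k → Bdd X (f j)) → GG X (k - 1) (f 0) ≤ (X : ℝ) ^ (k - κ) →
  ‖∑ a ∈ Icc 1 (2 * k * X), ∑ b ∈ Icc 1 (2 * k * X), α a * β b * Psi X k f ((a : ℤ) * b)‖ ≤ (X : ℝ) ^ (2 - κ')

end

end Pool.Agent.HUK
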