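import Pool.Agent.Lib.HUK.BH1

/-!
# HUK, chunk BH6 (M): the two inputs in functional form
-/

open Finset

namespace Pool.Agent.HUK

open Pool.Agent.Lib.H81A (af muV one1 logf)

/-- **Type II.** Proof. `TII k` for `θ, κ`; `α a = F a` for `1 ≤ a ≤ 2 k X` and `0` otherwise, `β` the same with `G`; `LF_mul`. -/
theorem t2_LF (k : ℕ) (hk : 3 ≤ k) (h : TII k) (θ κ : ℝ) (hθ : 0 < θ) (hκ : 0 < κ) :
    ∃ κ' ε : ℝ, 0 < κ' ∧ 0 < ε ∧ ∃ X0 : ℕ, ∀ X : ℕ, X0 ≤ X → ∀ f : ℕ → ℤ → ℂ, (∀ j, j < k → Bdd X (f j)) →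
      GG X (k - 1) (f 0) ≤ (X : ℝ) ^ (k - κ) → ∀ F G : ArithmeticFunction ℝ,
      BN (2 * k * X) ((X : ℝ) ^ ε) F → BN (2 * k * X) ((X : ℝ) ^ ε) G →
      (∀ n : ℕ, 1 ≤ n → n ≤ 2 * k * X → F n ≠ 0 → (X : ℝ) ^ θ ≤ n ∧ (n : ℝ) ≤ (X : ℝ) ^ cs k) →
      ‖LF X k f (F * G)‖ ≤ (X : ℝ) ^ (2 - κ') := by
  obtain ⟨κ', ε, hκ', hε, X0, hX0⟩ := h θ κ hθ hκ
  refine ⟨κ', ε, hκ', hε, X0, fun X hX f hf hG F G hF hGb hs => ?_⟩
  have hXe : (0 : ℝ) ≤ (X : ℝ) ^ ε := Real.rpow_nonneg (Nat.cast_nonneg _) _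
  have key := hX0 X hX (fun a => if a ∈ Icc 1 (2 * k * X) then ((F a : ℝ) : ℂ) else 0)
    (fun b => if b ∈ Icc 1 (2 * k * X) then ((G b : ℝ) : ℂ) else 0) ?_ ?_ ?_ f hf hG
  · rw [LF_mul X k (by omega) f hf F G]
    refine le_of_eq_of_le (congrArg _ ?_) key
    refine Finset.sum_congr rfl fun a ha => Finset.sum_congr rfl fun b hb => ?_
    rw [if_pos ha, if_pos hb]
  · intro a
    split_ifs with ha
    · rw [mem_Icc] at ha
      rw [Complex.norm_real, Real.norm_eq_abs]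
      exact hF a ha.1 ha.2
    · rw [norm_zero]
      exact hXe
  · intro a
    split_ifs with ha
    · rw [mem_Icc] at ha
      rw [Complex.norm_real, Real.norm_eq_abs]
      exact hGb a ha.1 ha.2
    · rw [norm_zero]
      exact hXe
  · intro a ha
    beta_reduce at ha
    split_ifs at ha with h1
    · rw [mem_Icc] at h1
      refine hs a h1.1 h1.2 fun h0 => ha ?_
      rw [h0, Complex.ofReal_zero]
    · exact absurd rfl ha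

/-- **The error of the replacement.** Proof. `eta_sum` (`BFin.lean`) with `γ m = G m` for `1 ≤ m ≤ 2 k X` and `0` otherwise, `ω = 1` resp. `ω = log`; `LF_mul`, `mul_comm` of the arguments
(`af_apply` for `d ≥ 1`). -/
theorem eta_LF (k : ℕ) (hk : 3 ≤ k) (θ τ : ℝ) (hτ : 0 < τ) (hθτ : 2 ^ (k + 3) * τ ≤ θ) (hθ : θ ≤ 1) :
    ∃ c ε : ℝ, 0 < c ∧ 0 < ε ∧ ∃ X0 : ℕ, ∀ X : ℕ, X0 ≤ X → ∀ f : ℕ → ℤ → ℂ, (∀ j, j < k → Bdd X (f j)) →
      ∀ G : ArithmeticFunction ℝ, BN (2 * k * X) ((X : ℝ) ^ ε) G →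
      ‖LF X k f (G * fE ⌊(X : ℝ) ^ τ⌋₊ ⌊(X : ℝ) ^ θ⌋₊)‖ ≤ (X : ℝ) ^ (2 - c) ∧
      ‖LF X k f (G * fEL ⌊(X : ℝ) ^ τ⌋₊ ⌊(X : ℝ) ^ θ⌋₊)‖ ≤ (X : ℝ) ^ (2 - c) := by
  obtain ⟨c, ε, hc, hε, X0, hX0⟩ := eta_sum k (by omega) θ τ hτ hθτ hθ
  refine ⟨c, ε, hc, hε, X0, fun X hX f hf G hG => ?_⟩
  have hXe : (0 : ℝ) ≤ (X : ℝ) ^ ε := Real.rpow_nonneg (Nat.cast_nonneg _) _
  have hγ : ∀ m : ℕ, ‖(if m ∈ Icc 1 (2 * k * X) then ((G m : ℝ) : ℂ) else 0)‖ ≤ (X : ℝ) ^ ε := by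
    intro a
    split_ifs with ha
    · rw [mem_Icc] at ha
      rw [Complex.norm_real, Real.norm_eq_abs]
      exact hG a ha.1 ha.2
    · rw [norm_zero]
      exact hXe
  have key := hX0 X hX f hf (fun m => if m ∈ Icc 1 (2 * k * X) then ((G m : ℝ) : ℂ) else 0) hγ
  have haf : ∀ (g : ℕ → ℝ) (d : ℕ), d ∈ Icc 1 (2 * k * X) → af g d = g d := by
    intro g d hd
    rw [mem_Icc] at hd
    exact Pool.Agent.Lib.H81A.af_apply g (by omega)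
  constructor
  · refine le_of_eq_of_le (congrArg _ ?_) (key (fun _ => 1) (Or.inl fun _ => rfl))
    rw [LF_mul X k (by omega) f hf]
    refine Finset.sum_congr rfl fun a ha => Finset.sum_congr rfl fun b hb => ?_
    rw [if_pos ha, mul_one, mul_comm (a : ℤ)]
    unfold fE
    rw [haf _ b hb]
  · refine le_of_eq_of_le (congrArg _ ?_) (key (fun d => Real.log d) (Or.inr fun _ => rfl))
    rw [LF_mul X k (by omega) f hf]
    refine Finset.sum_congr rfl fun a ha => Finset.sum_congr rfl fun b hb => ?_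
    rw [if_pos ha, mul_comm (a : ℤ)]
    unfold fEL
    rw [haf _ b hb]

end Pool.Agent.HUK
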