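import Pool.Agent.Lib.HUK.BH0
import Pool.Agent.Lib.H21AP.DivisorBound

/-!
# HUK, chunk BH7 (M): sizes for large `X`
-/

open Finset

namespace Pool.Agent.HUK

open Pool.Agent.Lib.H81A (af muV one1 logf)

theorem bh7_ev (C : ℝ) {a b : ℝ} (hab : a < b) : ∀ᶠ X : ℕ in Filter.atTop, C * (X : ℝ) ^ a ≤ (X : ℝ) ^ b := by
  have h := ((tendsto_rpow_atTop (sub_pos.2 hab)).comp tendsto_natCast_atTop_atTop).eventually_ge_atTop C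
  filter_upwards [h, Filter.eventually_ge_atTop 1] with X h1 h2
  have hX : (0 : ℝ) < X := by exact_mod_cast h2
  have h3 : C ≤ (X : ℝ) ^ (b - a) := h1
  calc C * (X : ℝ) ^ a ≤ (X : ℝ) ^ (b - a) * (X : ℝ) ^ a :=
        mul_le_mul_of_nonneg_right h3 (Real.rpow_nonneg hX.le _)
    _ = (X : ℝ) ^ b := by rw [← Real.rpow_add hX, sub_add_cancel]

theorem bh7_one {δ : ℝ} (hδ : 0 < δ) {X : ℕ} (hX : 1 ≤ X) : 1 ≤ (X : ℝ) ^ δ :=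
  Real.one_le_rpow (by exact_mod_cast hX) hδ.le

theorem bh7_log (k : ℕ) {δ : ℝ} (hδ : 0 < δ) :
    ∀ᶠ X : ℕ in Filter.atTop, ∀ n : ℕ, 1 ≤ n → n ≤ 2 * k * X → Real.log n ≤ (X : ℝ) ^ δ := by
  have h := bh7_ev ((2 * (k : ℝ)) ^ (δ / 2) / (δ / 2)) (a := δ / 2) (b := δ) (by linarith)
  filter_upwards [h, Filter.eventually_ge_atTop 1] with X h1 h2 n hn hn2
  have hX : (0 : ℝ) < X := by exact_mod_cast h2
  have hn3 : (n : ℝ) ≤ 2 * k * X := by exact_mod_cast hn2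
  have hn0 : (0 : ℝ) ≤ n := Nat.cast_nonneg n
  have hk : (0 : ℝ) ≤ 2 * k := by positivity
  calc Real.log n ≤ (n : ℝ) ^ (δ / 2) / (δ / 2) := Real.log_le_rpow_div hn0 (by linarith)
    _ ≤ (2 * k * X : ℝ) ^ (δ / 2) / (δ / 2) := by
        have h3 := Real.rpow_le_rpow hn0 hn3 (by linarith : 0 ≤ δ / 2)
        gcongr
    _ = (2 * (k : ℝ)) ^ (δ / 2) / (δ / 2) * (X : ℝ) ^ (δ / 2) := by
        rw [Real.mul_rpow hk hX.le]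
        ring
    _ ≤ (X : ℝ) ^ δ := h1

theorem bh7_floor {τ : ℝ} (X : ℕ) : ((⌊(X : ℝ) ^ τ⌋₊ : ℕ) : ℝ) ≤ (X : ℝ) ^ τ :=
  Nat.floor_le (Real.rpow_nonneg (Nat.cast_nonneg X) τ)

theorem bh7_A {τ : ℝ} (hτ : 0 < τ) (A0 : ℕ) : ∀ᶠ X : ℕ in Filter.atTop, A0 ≤ ⌊(X : ℝ) ^ τ⌋₊ := by
  have h := ((tendsto_rpow_atTop hτ).comp tendsto_natCast_atTop_atTop).eventually_ge_atTop (A0 : ℝ)
  filter_upwards [h] with X h1
  exact Nat.le_floor h1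

theorem bh7_S {τ : ℝ} (hτ : 0 < τ) {ε : ℝ} (hε : 0 < ε) : ∀ᶠ X : ℕ in Filter.atTop,
    0 < SA ⌊(X : ℝ) ^ τ⌋₊ ∧ 1 / SA ⌊(X : ℝ) ^ τ⌋₊ ≤ (X : ℝ) ^ ε := by
  obtain ⟨A0, hA0, hA⟩ := sa_ge
  obtain ⟨e, he⟩ : ∃ e : ℝ, e = ε / (2 * τ) := ⟨_, rfl⟩
  have he0 : 0 < e := by rw [he]; positivity
  have h := bh7_ev (8 * ((4 : ℝ) ^ e / e)) (a := ε / 2) (b := ε) (by linarith)
  filter_upwards [h, bh7_A hτ A0, Filter.eventually_ge_atTop 1] with X h1 h2 h3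
  have hX : (0 : ℝ) < X := by exact_mod_cast h3
  obtain ⟨A, hAdef⟩ : ∃ A : ℕ, A = ⌊(X : ℝ) ^ τ⌋₊ := ⟨_, rfl⟩
  rw [← hAdef] at h2 ⊢
  have hA2 : 2 ≤ A := hA0.trans h2
  have hA2' : (2 : ℝ) ≤ A := by exact_mod_cast hA2
  have hAX : (A : ℝ) ≤ (X : ℝ) ^ τ := by rw [hAdef]; exact bh7_floor X
  have hlog : 0 < Real.log (4 * A) := Real.log_pos (by linarith)
  have h4 := hA A h2
  have h5 : 0 < SA A := lt_of_lt_of_le (by positivity) h4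
  refine ⟨h5, ?_⟩
  have h6 : 1 / SA A ≤ 8 * Real.log (4 * A) := by
    rw [div_le_iff₀ h5]
    rw [div_le_iff₀ (by positivity)] at h4
    linarith
  have h7 : Real.log (4 * A) ≤ (4 : ℝ) ^ e / e * (X : ℝ) ^ (ε / 2) := by
    calc Real.log (4 * A) ≤ (4 * (A : ℝ)) ^ e / e := Real.log_le_rpow_div (by positivity) he0
      _ ≤ (4 * (X : ℝ) ^ τ) ^ e / e := by
          have h8 := Real.rpow_le_rpow (by positivity : (0 : ℝ) ≤ 4 * A)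
            (by linarith : 4 * (A : ℝ) ≤ 4 * (X : ℝ) ^ τ) he0.le
          gcongr
      _ = (4 : ℝ) ^ e / e * (X : ℝ) ^ (ε / 2) := by
          rw [Real.mul_rpow (by norm_num) (Real.rpow_nonneg hX.le _), ← Real.rpow_mul hX.le]
          have h9 : τ * e = ε / 2 := by
            rw [he]
            field_simp
          rw [h9]
          ring
  calc 1 / SA A ≤ 8 * Real.log (4 * A) := h6
    _ ≤ 8 * ((4 : ℝ) ^ e / e * (X : ℝ) ^ (ε / 2)) := by linarith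
    _ = 8 * ((4 : ℝ) ^ e / e) * (X : ℝ) ^ (ε / 2) := by ring
    _ ≤ (X : ℝ) ^ ε := h1

/-- Proof. `Pool.Agent.Lib.H21AP.divisor_bound` with exponent `δ / 2`: `C (2 k X) ^ (δ/2) ≤ X ^ δ` for large `X`; `1 ≤ X ^ δ`. -/
theorem bh_tw (k : ℕ) (δ : ℝ) (hδ : 0 < δ) : ∃ X0 : ℕ, ∀ X : ℕ, X0 ≤ X → TW (2 * k * X) ((X : ℝ) ^ δ) := by
  obtain ⟨C, hC, hdiv⟩ := Pool.Agent.Lib.H21AP.divisor_bound (ε := δ / 2) (by linarith)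
  have h := bh7_ev (C * (2 * (k : ℝ)) ^ (δ / 2)) (a := δ / 2) (b := δ) (by linarith)
  obtain ⟨X0, hX0⟩ := Filter.eventually_atTop.1 (h.and (Filter.eventually_ge_atTop 1))
  refine ⟨X0, fun X hX => ?_⟩
  obtain ⟨h1, h2⟩ := hX0 X hX
  have hXp : (0 : ℝ) < X := by exact_mod_cast h2
  refine ⟨bh7_one hδ h2, fun n hn hn2 => ?_⟩
  have hn3 : (n : ℝ) ≤ 2 * k * X := by exact_mod_cast hn2
  have hn0 : (0 : ℝ) ≤ n := Nat.cast_nonneg n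
  have hk : (0 : ℝ) ≤ 2 * k := by positivity
  calc (n.divisors.card : ℝ) ≤ C * (n : ℝ) ^ (δ / 2) := hdiv n hn
    _ ≤ C * (2 * k * X : ℝ) ^ (δ / 2) :=
        mul_le_mul_of_nonneg_left (Real.rpow_le_rpow hn0 hn3 (by linarith)) hC.le
    _ = C * (2 * (k : ℝ)) ^ (δ / 2) * (X : ℝ) ^ (δ / 2) := by
        rw [Real.mul_rpow hk hXp.le]
        ring
    _ ≤ (X : ℝ) ^ δ := h1

/-- Proof. `A = ⌊X^τ⌋`, `D = z = ⌊X^θ⌋`, `N = 2 k X`, `M = X^δ`, `Y = X^(2θ)`. For large `X`: `A ≥ A0` of `sa_ge`, so `SA A > 0` and `1/SA A ≤ 8 log (4A) ≤ X^(δ/2)`; `log N ≤ X^(δ/2)` (`Real.log_le_rpow_div`, powers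
absorb constants); `4 X^θ ≤ X^(2θ)`. `muV z`: values of the Moebius function (`abs_moebius_le_one`, see `sm_bound` in `H81A/SM.lean`), supported on `n ≤ z ≤ X^θ`; `fS`: `sml_mem`, `sml_zero`; `fSL`: in addition `0 ≤ log n ≤ log N`; `fV`, `fVL`: `vv_mem`;
`one1`, `logf` clear. `tw` is `bh_tw`. -/
theorem bh_siz (k : ℕ) (hk : 1 ≤ k) (δ θ τ : ℝ) (hδ : 0 < δ) (hθ : 0 < θ) (hτ : 0 < τ) : ∃ X0 : ℕ, ∀ X : ℕ, X0 ≤ X →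
    Siz (2 * k * X) ⌊(X : ℝ) ^ τ⌋₊ ⌊(X : ℝ) ^ θ⌋₊ ⌊(X : ℝ) ^ θ⌋₊ ((X : ℝ) ^ (2 * θ)) ((X : ℝ) ^ δ) ((X : ℝ) ^ δ) := by
  obtain ⟨X1, hX1⟩ := bh_tw k δ hδ
  have h4 := bh7_ev 4 (a := θ) (b := 2 * θ) (by linarith)
  obtain ⟨X0, hX0⟩ := Filter.eventually_atTop.1 ((Filter.eventually_ge_atTop X1).and
    ((Filter.eventually_ge_atTop 1).and ((bh7_log k hδ).and ((bh7_S hτ hδ).and h4))))
  refine ⟨X0, fun X hX => ?_⟩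
  obtain ⟨h1, h2, h3, ⟨h5, -⟩, h6⟩ := hX0 X hX
  have hXp : (0 : ℝ) < X := by exact_mod_cast h2
  have hM : 1 ≤ (X : ℝ) ^ δ := bh7_one hδ h2
  have hD : ((⌊(X : ℝ) ^ θ⌋₊ : ℕ) : ℝ) ≤ (X : ℝ) ^ θ := bh7_floor X
  have hθ1 : 1 ≤ (X : ℝ) ^ θ := bh7_one hθ h2
  have hlog : ∀ n : ℕ, 1 ≤ n → 0 ≤ Real.log n := fun n hn => Real.log_natCast_nonneg n
  have hsm := fun n => sml_mem ⌊(X : ℝ) ^ τ⌋₊ ⌊(X : ℝ) ^ θ⌋₊ n h5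
  have hvm := fun n => vv_mem ⌊(X : ℝ) ^ τ⌋₊ ⌊(X : ℝ) ^ θ⌋₊ n
  have hss : ∀ n : ℕ, sml ⌊(X : ℝ) ^ τ⌋₊ ⌊(X : ℝ) ^ θ⌋₊ n ≠ 0 → (n : ℝ) ≤ (X : ℝ) ^ (2 * θ) := by
    intro n hn
    have h7 : n ≤ 4 * ⌊(X : ℝ) ^ θ⌋₊ := by
      by_contra hc
      exact hn (sml_zero _ _ n h5 (not_le.1 hc))
    have h8 : (n : ℝ) ≤ 4 * ((⌊(X : ℝ) ^ θ⌋₊ : ℕ) : ℝ) := by exact_mod_cast h7
    linarith
  refine ⟨hM, hX1 X h1, ⟨?_, ?_⟩, ⟨?_, ?_⟩, ⟨?_, ?_⟩, ?_, ?_, ?_, ?_, h5⟩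
  · intro n hn _
    rw [muV, Pool.Agent.Lib.H81A.af_apply _ (by omega)]
    split_ifs
    · have h7 : |((ArithmeticFunction.moebius n : ℤ) : ℝ)| ≤ 1 := by
        exact_mod_cast ArithmeticFunction.abs_moebius_le_one
      exact h7.trans hM
    · rw [abs_zero]
      linarith
  · intro n hn _ hF
    rw [muV, Pool.Agent.Lib.H81A.af_apply _ (by omega)] at hF
    split_ifs at hF with h7
    · have h8 : (n : ℝ) ≤ ((⌊(X : ℝ) ^ θ⌋₊ : ℕ) : ℝ) := by exact_mod_cast h7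
      linarith
    · exact absurd rfl hF
  · intro n hn _
    rw [fS, Pool.Agent.Lib.H81A.af_apply _ (by omega), abs_of_nonneg (hsm n).1]
    exact (hsm n).2.trans hM
  · intro n hn _ hF
    rw [fS, Pool.Agent.Lib.H81A.af_apply _ (by omega)] at hF
    exact hss n hF
  · intro n hn hn2
    rw [fSL, Pool.Agent.Lib.H81A.af_apply _ (by omega),
      abs_of_nonneg (mul_nonneg (hsm n).1 (hlog n hn))]
    exact (mul_le_of_le_one_left (hlog n hn) (hsm n).2).trans (h3 n hn hn2)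
  · intro n hn _ hF
    rw [fSL, Pool.Agent.Lib.H81A.af_apply _ (by omega)] at hF
    exact hss n (left_ne_zero_of_mul hF)
  · intro n hn _
    rw [fV, Pool.Agent.Lib.H81A.af_apply _ (by omega), abs_of_nonneg (hvm n).1]
    exact (hvm n).2.trans hM
  · intro n hn hn2
    rw [fVL, Pool.Agent.Lib.H81A.af_apply _ (by omega),
      abs_of_nonneg (mul_nonneg (hvm n).1 (hlog n hn))]
    exact (mul_le_of_le_one_left (hlog n hn) (hvm n).2).trans (h3 n hn hn2)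
  · intro n hn _
    rw [one1, Pool.Agent.Lib.H81A.af_apply _ (by omega), abs_one]
    exact hM
  · intro n hn hn2
    rw [logf, Pool.Agent.Lib.H81A.af_apply _ (by omega), abs_of_nonneg (hlog n hn)]
    exact h3 n hn hn2

/-- Proof. `A = ⌊X^τ⌋`, `N = 2kX`. `uu A n ≠ 0` only for `A < n ≤ 4 A` (`uu_supp`), so `X^(τ/2) ≤ X^τ < A + 1 ≤ n` and `n ≤ 4 X^τ ≤ X^σ` (as `τ < σ`, `X` large); `0 ≤ uu ≤ 1/SA A ≤ 8 log (4 A)` (`uu_mem`, `sa_ge`), times `log n ≤ log N`. -/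
theorem bh_u (k : ℕ) (hk : 1 ≤ k) (δ τ σ : ℝ) (hδ : 0 < δ) (hτ : 0 < τ) (hσ : τ < σ) : ∃ X0 : ℕ, ∀ X : ℕ, X0 ≤ X →
    (BN (2 * k * X) ((X : ℝ) ^ δ) (fU ⌊(X : ℝ) ^ τ⌋₊) ∧ BN (2 * k * X) ((X : ℝ) ^ δ) (fUL ⌊(X : ℝ) ^ τ⌋₊)) ∧
    (∀ n : ℕ, 1 ≤ n → n ≤ 2 * k * X → (fU ⌊(X : ℝ) ^ τ⌋₊ n ≠ 0 ∨ fUL ⌊(X : ℝ) ^ τ⌋₊ n ≠ 0) →
      (X : ℝ) ^ (τ / 2) ≤ n ∧ (n : ℝ) ≤ (X : ℝ) ^ σ) := by
  have h4 := bh7_ev 4 (a := τ) (b := σ) hσ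
  obtain ⟨X0, hX0⟩ := Filter.eventually_atTop.1 ((Filter.eventually_ge_atTop 1).and
    ((bh7_log k (half_pos hδ)).and ((bh7_S hτ (half_pos hδ)).and h4)))
  refine ⟨X0, fun X hX => ?_⟩
  obtain ⟨h2, h3, ⟨h5, h7⟩, h6⟩ := hX0 X hX
  have hXp : (0 : ℝ) < X := by exact_mod_cast h2
  have hX1 : (1 : ℝ) ≤ X := by exact_mod_cast h2
  have hM : 1 ≤ (X : ℝ) ^ (δ / 2) := bh7_one (half_pos hδ) h2
  have hMM : (X : ℝ) ^ (δ / 2) * (X : ℝ) ^ (δ / 2) = (X : ℝ) ^ δ := by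
    rw [← Real.rpow_add hXp, add_halves]
  have hM2 : (X : ℝ) ^ (δ / 2) ≤ (X : ℝ) ^ δ := by
    rw [← hMM]
    exact le_mul_of_one_le_left (by linarith) hM
  have hum := fun n => uu_mem ⌊(X : ℝ) ^ τ⌋₊ n
  have hlog : ∀ n : ℕ, 1 ≤ n → 0 ≤ Real.log n := fun n hn => Real.log_natCast_nonneg n
  refine ⟨⟨?_, ?_⟩, ?_⟩
  · intro n hn _
    rw [fU, Pool.Agent.Lib.H81A.af_apply _ (by omega), abs_of_nonneg (hum n).1]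
    exact ((hum n).2.trans h7).trans hM2
  · intro n hn hn2
    rw [fUL, Pool.Agent.Lib.H81A.af_apply _ (by omega),
      abs_of_nonneg (mul_nonneg (hum n).1 (hlog n hn)), ← hMM]
    exact mul_le_mul ((hum n).2.trans h7) (h3 n hn hn2) (hlog n hn) (by linarith)
  · intro n hn _ hF
    have hu : uu ⌊(X : ℝ) ^ τ⌋₊ n ≠ 0 := by
      rcases hF with hF | hF
      · rw [fU, Pool.Agent.Lib.H81A.af_apply _ (by omega)] at hF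
        exact hF
      · rw [fUL, Pool.Agent.Lib.H81A.af_apply _ (by omega)] at hF
        exact left_ne_zero_of_mul hF
    obtain ⟨h8, h9⟩ := uu_supp _ n hu
    have h10 : ((⌊(X : ℝ) ^ τ⌋₊ : ℕ) : ℝ) + 1 ≤ n := by exact_mod_cast h8
    have h11 : (n : ℝ) ≤ 4 * ((⌊(X : ℝ) ^ τ⌋₊ : ℕ) : ℝ) := by exact_mod_cast h9
    have h12 := Nat.lt_floor_add_one ((X : ℝ) ^ τ)
    have h13 : (X : ℝ) ^ (τ / 2) ≤ (X : ℝ) ^ τ := Real.rpow_le_rpow_of_exponent_le hX1 (by linarith)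
    have h14 : ((⌊(X : ℝ) ^ τ⌋₊ : ℕ) : ℝ) ≤ (X : ℝ) ^ τ := bh7_floor X
    exact ⟨by linarith, by linarith⟩

/-- Proof. `⌊X^θ⌋ + 1 ≥ X^θ`, so `(⌊X^θ⌋ + 1)^J ≥ X^(θ J) ≥ X^2 > 2 k X` for large `X`. -/
theorem bh_J (k J : ℕ) (θ : ℝ) (hθ : 0 < θ) (hJ : 2 ≤ θ * J) : ∃ X0 : ℕ, ∀ X : ℕ, X0 ≤ X →
    2 * k * X < (⌊(X : ℝ) ^ θ⌋₊ + 1) ^ J := by
  refine ⟨2 * k + 1, fun X hX => ?_⟩
  have h1 : (1 : ℝ) ≤ X := by
    have : 1 ≤ X := by omega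
    exact_mod_cast this
  have h2 : (2 * k + 1 : ℝ) ≤ X := by exact_mod_cast hX
  have h3 : (X : ℝ) ^ 2 ≤ ((⌊(X : ℝ) ^ θ⌋₊ : ℝ) + 1) ^ J := by
    calc (X : ℝ) ^ 2 = (X : ℝ) ^ (2 : ℝ) := by rw [← Real.rpow_natCast]; norm_num
      _ ≤ (X : ℝ) ^ (θ * J) := Real.rpow_le_rpow_of_exponent_le h1 hJ
      _ = ((X : ℝ) ^ θ) ^ J := Real.rpow_mul_natCast (by linarith) θ J
      _ ≤ ((⌊(X : ℝ) ^ θ⌋₊ : ℝ) + 1) ^ J :=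
          pow_le_pow_left₀ (Real.rpow_nonneg (by linarith) _) (Nat.lt_floor_add_one _).le J
  have h4 : ((2 * k * X : ℕ) : ℝ) < (((⌊(X : ℝ) ^ θ⌋₊ + 1) ^ J : ℕ) : ℝ) := by
    push_cast
    refine lt_of_lt_of_le ?_ h3
    nlinarith
  exact_mod_cast h4

end Pool.Agent.HUK
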