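import Pool.Agent.Lib.HUK.BH1
import Pool.Agent.Lib.H68T.BPS

/-!
# HUK, chunk BH8 (M): from primes to the von Mangoldt function
-/

open Finset

namespace Pool.Agent.HUK

open Pool.Agent.Lib.H68T (lp)

theorem bh8_prime_powers (N : ℕ) (hN : 1 ≤ N) :
    ∑ n ∈ Icc 1 N, (ArithmeticFunction.vonMangoldt n - lp n) ≤
      2 * √(N : ℝ) * Real.log (N : ℝ) := by
  have h1 := Chebyshev.psi_sub_theta_le (x := (N : ℝ)) (by exact_mod_cast hN)
  rw [Chebyshev.psi_sub_theta_eq_sum_not_prime, Nat.floor_natCast] at h1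
  refine le_trans (le_of_eq ?_) h1
  rw [Finset.sum_filter]
  apply Finset.sum_congr rfl
  intro n _
  unfold Pool.Agent.Lib.H68T.lp
  rw [Int.toNat_natCast]
  by_cases h : n.Prime
  · simp [h, ArithmeticFunction.vonMangoldt_apply_prime h]
  · simp [h]

theorem bh8_num (k : ℕ) (hk : 1 ≤ k) : ∃ X0 : ℕ, ∀ X : ℕ, X0 ≤ X →
    2 * √((2 * k * X : ℕ) : ℝ) * Real.log ((2 * k * X : ℕ) : ℝ) * (4 * X) ≤ (X : ℝ) ^ (7 / 4 : ℝ) := by
  have h1 : (fun x : ℝ => 8 * √(2 * k) * (Real.log (2 * k) + Real.log x)) =o[Filter.atTop]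
      fun x : ℝ => x ^ (1 / 4 : ℝ) := by
    apply Asymptotics.IsLittleO.const_mul_left
    apply Asymptotics.IsLittleO.add
    · rw [Asymptotics.isLittleO_const_left]
      right
      exact tendsto_norm_atTop_atTop.comp (tendsto_rpow_atTop (by norm_num))
    · exact isLittleO_log_rpow_atTop (by norm_num)
  have h2 := (h1.def (c := 1) one_pos)
  obtain ⟨x0, hx0⟩ := Filter.eventually_atTop.mp h2
  refine ⟨max 1 ⌈x0⌉₊, fun X hX => ?_⟩
  have hX1 : 1 ≤ X := le_trans (le_max_left _ _) hX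
  have hXr : (1 : ℝ) ≤ X := by exact_mod_cast hX1
  have hX0 : (0 : ℝ) < X := by linarith
  have hXx : x0 ≤ (X : ℝ) := by
    have : ⌈x0⌉₊ ≤ X := le_trans (le_max_right _ _) hX
    exact (Nat.le_ceil x0).trans (by exact_mod_cast this)
  have h3 := hx0 X hXx
  have hk' : (1 : ℝ) ≤ k := by exact_mod_cast hk
  have h4 : 8 * √(2 * k) * (Real.log (2 * k) + Real.log X) ≤ (X : ℝ) ^ (1 / 4 : ℝ) := by
    refine (le_abs_self _).trans ?_
    rw [Real.norm_eq_abs, Real.norm_eq_abs, one_mul, abs_of_nonneg (Real.rpow_nonneg hX0.le _)] at h3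
    exact h3
  have e1 : ((2 * k * X : ℕ) : ℝ) = 2 * k * X := by push_cast; ring
  have e2 : (X : ℝ) ^ (7 / 4 : ℝ) = X * √(X : ℝ) * (X : ℝ) ^ (1 / 4 : ℝ) := by
    rw [Real.sqrt_eq_rpow]
    nth_rewrite 2 [← Real.rpow_one (X : ℝ)]
    rw [← Real.rpow_add hX0, ← Real.rpow_add hX0]
    norm_num
  rw [e1, Real.sqrt_mul (by positivity), Real.log_mul (by positivity) hX0.ne', e2]
  have h5 : 0 ≤ X * √(X : ℝ) := by positivity
  calc 2 * (√(2 * k) * √(X : ℝ)) * (Real.log (2 * k) + Real.log X) * (4 * X)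
      = X * √(X : ℝ) * (8 * √(2 * k) * (Real.log (2 * k) + Real.log X)) := by ring
    _ ≤ _ := mul_le_mul_of_nonneg_left h4 h5

/-- Proof. `BPS_lp_le` (`H68T/BPS.lean`): `lp n ≤ Λ n`; as `BPS_prime_powers` there with `60 * X` replaced by `N = 2 k X` (`Chebyshev.psi_sub_theta_le`, `Chebyshev.psi_sub_theta_eq_sum_not_prime`): `∑_{n ≤ N} (Λ n - lp n) ≤ 2 √N log N`; `psi_bd`. So the
difference is at most `2 √N log N · 4 X ≤ X^(7/4)` for large `X`. (`X ≥ 1`, `k ≥ 1`.) -/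
theorem bh_lp (k : ℕ) (hk : 1 ≤ k) : ∃ X0 : ℕ, ∀ X : ℕ, X0 ≤ X → ∀ f : ℕ → ℤ → ℂ, (∀ j, j < k → Bdd X (f j)) →
    ‖(∑ n ∈ Icc 1 (2 * k * X), ((lp n : ℝ) : ℂ) * Psi X k f n) - LF X k f ArithmeticFunction.vonMangoldt‖ ≤ (X : ℝ) ^ (7 / 4 : ℝ) := by
  obtain ⟨X0, hX0⟩ := bh8_num k hk
  refine ⟨max 1 X0, fun X hX f hf => ?_⟩
  have hX1 : 1 ≤ X := le_trans (le_max_left _ _) hX
  refine le_trans ?_ (hX0 X (le_trans (le_max_right _ _) hX))
  have hN : 1 ≤ 2 * k * X := Nat.one_le_iff_ne_zero.mpr (by positivity)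
  have h1 := bh8_prime_powers (2 * k * X) hN
  have h2 : (0 : ℝ) ≤ 4 * X := by positivity
  refine le_trans ?_ (mul_le_mul_of_nonneg_right h1 h2)
  rw [LF, ← Finset.sum_sub_distrib, Finset.sum_mul]
  refine (norm_sum_le _ _).trans (Finset.sum_le_sum fun n _ => ?_)
  rw [← sub_mul, norm_mul, ← Complex.ofReal_sub, Complex.norm_real, Real.norm_eq_abs, abs_sub_comm,
    abs_of_nonneg (by linarith [Pool.Agent.Lib.H68T.BPS_lp_le n])]
  exact mul_le_mul_of_nonneg_left (psi_bd X k f hf n) (by linarith [Pool.Agent.Lib.H68T.BPS_lp_le n])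

end Pool.Agent.HUK
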