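import Pool.Agent.Lib.HUK.BH5
import Pool.Agent.Lib.HUK.BH6
import Pool.Agent.Lib.HUK.BH7
import Pool.Agent.Lib.HUK.BH8

/-!
# HUK, chunk BH9 (M): assembly of module B
-/

open Finset

namespace Pool.Agent.HUK

open Pool.Agent.Lib.H81A (af muV one1 logf)

/-- Proof. `hb_identity` (`H81A/HB.lean`) for `m ≤ 2kX < (z+1)^J`, `LF_sum`; a real constant `c` times an arithmetic function: the functional is linear (work with the sums: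
`LF X k f vonMangoldt = ∑ j ∈ range J, (-1)^j (J choose (j+1)) LF X k f (muV z ^ (j+1) * one1 ^ j * logf)` by exchanging the two sums in the definition of `LF`), and
`∑_{j<J} (J choose (j+1)) ≤ 2^J`. (The hypothesis `0 < J` is added: for `J = 0` there is no condition on `R`.) -/
theorem bh_vM (X k : ℕ) (f : ℕ → ℤ → ℂ) (z J : ℕ) (hJ : 0 < J) (hz : 2 * k * X < (z + 1) ^ J) (R : ℝ)
    (hR : ∀ j, j < J → ‖LF X k f (muV z ^ (j + 1) * one1 ^ j * logf)‖ ≤ R) :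
    ‖LF X k f ArithmeticFunction.vonMangoldt‖ ≤ 2 ^ J * R := by
  have hR0 : 0 ≤ R := (norm_nonneg _).trans (hR 0 hJ)
  have h1 : LF X k f ArithmeticFunction.vonMangoldt = ∑ j ∈ range J, (((-1 : ℝ) ^ j * (J.choose (j + 1) : ℝ) : ℝ) : ℂ) *
      LF X k f (muV z ^ (j + 1) * one1 ^ j * logf) := by
    unfold LF
    simp only [Finset.mul_sum]
    rw [Finset.sum_comm]
    refine Finset.sum_congr rfl fun n hn => ?_
    have hn2 := (Finset.mem_Icc.1 hn).2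
    rw [Pool.Agent.Lib.H81A.hb_identity z J n (lt_of_le_of_lt hn2 hz)]
    push_cast
    rw [Finset.sum_mul]
    refine Finset.sum_congr rfl fun j _ => ?_
    ring
  rw [h1]
  refine (norm_sum_le _ _).trans ?_
  have h2 : ∀ j ∈ range J, ‖(((-1 : ℝ) ^ j * (J.choose (j + 1) : ℝ) : ℝ) : ℂ) * LF X k f (muV z ^ (j + 1) * one1 ^ j * logf)‖ ≤
      (J.choose (j + 1) : ℝ) * R := by
    intro j hj
    rw [norm_mul, Complex.norm_real, Real.norm_eq_abs, abs_mul, abs_pow, abs_neg, abs_one, one_pow, one_mul, Nat.abs_cast]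
    exact mul_le_mul_of_nonneg_left (hR j (Finset.mem_range.1 hj)) (Nat.cast_nonneg _)
  refine (Finset.sum_le_sum h2).trans ?_
  rw [← Finset.sum_mul]
  refine mul_le_mul_of_nonneg_right ?_ hR0
  have h3 : ∑ j ∈ range (J + 1), J.choose j = 2 ^ J := Nat.sum_range_choose J
  rw [Finset.sum_range_succ'] at h3
  have h4 : ∑ j ∈ range J, J.choose (j + 1) ≤ 2 ^ J := by omega
  calc ∑ j ∈ range J, (J.choose (j + 1) : ℝ) = ((∑ j ∈ range J, J.choose (j + 1) : ℕ) : ℝ) := by push_cast; rfl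
    _ ≤ ((2 ^ J : ℕ) : ℝ) := by exact_mod_cast h4
    _ = 2 ^ J := by push_cast; rfl

theorem bh9_large (C e : ℝ) (he : 0 < e) : ∃ X0 : ℕ, ∀ X : ℕ, X0 ≤ X → C ≤ (X : ℝ) ^ e := by
  have h1 : Filter.Tendsto (fun X : ℕ => ((X : ℝ)) ^ e) Filter.atTop Filter.atTop :=
    (tendsto_rpow_atTop he).comp tendsto_natCast_atTop_atTop
  obtain ⟨X0, h2⟩ := Filter.eventually_atTop.1 (h1.eventually_ge_atTop C)
  exact ⟨X0, fun X hX => h2 X hX⟩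

/-- **Module B.** Proof. `σ = cs k > 0`, `θ = σ / 8`, `J = ⌈2 / θ⌉₊`, `T = X^(σ/4)`, `Y = X^(2θ) = X^(σ/4)`, `τ = θ / 2^(k+3) < σ`. `t2_LF` with lower exponents `τ / 2` and `σ / 4` (and `κ`), `eta_LF` with `θ, τ`: let `κ0` be the minimum of the three
exponents of the conclusions and `1 / 4`, `ε0` the minimum of the three `ε` and `1`, `δ = ε0 / (4 J + 8)`, `B = X^ε0`, `M = W = X^δ` (so `(W M)^(2J+2) = X^(2 δ (2J+2)) ≤ B`), `E = X^(2 - κ0)`. For large `X`: `bh_siz`, `bh_u`, `bh_J` give `Siz`, and `Hyp` (`u`, `ul`, `t2`: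
`t2_LF`, for `t2` the support `T < n ≤ T Y = X^(σ/2) ≤ X^σ`; `e`, `el`: `eta_LF`; `BN.mono` from `B` to the power `X^ε` of each input). `hb_term`, `bh_vM`: `|LF Λ| ≤ 2^J ((4J+5) X^(2-κ0) + 4 X^(1 + σ/4 + ε0))`, and `σ/4 + ε0 ≤ 1/2` if `ε0 ≤ 1/4` (take it so);
with `bh_lp` everything is at most `X^(2 - κ0/2)` for large `X`. -/
theorem tlp_of_tii (k : ℕ) (hk : 3 ≤ k) (h : TII k) : TLP k := by
  intro κ hκ
  obtain ⟨σ, hσ⟩ : ∃ σ : ℝ, σ = cs k := ⟨_, rfl⟩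
  have hσ0 : 0 < σ := by
    rw [hσ]
    exact pow_pos (by norm_num) _
  have hσ1 : σ ≤ 1 := by
    rw [hσ]
    exact pow_le_one₀ (by norm_num) (by norm_num)
  obtain ⟨θ, hθ⟩ : ∃ θ : ℝ, θ = σ / 8 := ⟨_, rfl⟩
  have hθ0 : 0 < θ := by rw [hθ]; positivity
  have hθ1 : θ ≤ 1 := by rw [hθ]; linarith
  obtain ⟨τ, hτ⟩ : ∃ τ : ℝ, τ = θ / 2 ^ (k + 3) := ⟨_, rfl⟩
  have hp : (1 : ℝ) ≤ 2 ^ (k + 3) := one_le_pow₀ (by norm_num)
  have hp0 : (0 : ℝ) < 2 ^ (k + 3) := by positivity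
  have hτ0 : 0 < τ := by rw [hτ]; positivity
  have hτθ : τ ≤ θ := by rw [hτ]; exact div_le_self hθ0.le hp
  have hτσ : τ < σ := by
    have : θ < σ := by rw [hθ]; linarith
    linarith
  have hθτ : 2 ^ (k + 3) * τ ≤ θ := by
    rw [hτ, mul_div_cancel₀ _ hp0.ne']
  obtain ⟨J, hJ⟩ : ∃ J : ℕ, J = ⌈2 / θ⌉₊ := ⟨_, rfl⟩
  have hJ2 : 2 ≤ θ * J := by
    have h1 : 2 / θ ≤ J := by rw [hJ]; exact Nat.le_ceil _
    rw [div_le_iff₀ hθ0] at h1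
    linarith
  have hJ0 : 0 < J := by
    rw [hJ]
    exact Nat.ceil_pos.2 (by positivity)
  obtain ⟨κ1, ε1, hκ1, hε1, X1, H1⟩ := t2_LF k hk h (τ / 2) κ (by positivity) hκ
  obtain ⟨κ2, ε2, hκ2, hε2, X2, H2⟩ := t2_LF k hk h (σ / 4) κ (by positivity) hκ
  obtain ⟨κ3, ε3, hκ3, hε3, X3, H3⟩ := eta_LF k hk θ τ hτ0 hθτ hθ1
  obtain ⟨κ0, hκ0⟩ : ∃ κ0 : ℝ, κ0 = min (min κ1 κ2) (min κ3 (1 / 4)) := ⟨_, rfl⟩
  obtain ⟨ε0, hε0⟩ : ∃ ε0 : ℝ, ε0 = min (min ε1 ε2) (min ε3 (1 / 4)) := ⟨_, rfl⟩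
  have kp : 0 < κ0 := by rw [hκ0]; exact lt_min (lt_min hκ1 hκ2) (lt_min hκ3 (by norm_num))
  have ep : 0 < ε0 := by rw [hε0]; exact lt_min (lt_min hε1 hε2) (lt_min hε3 (by norm_num))
  have k1 : κ0 ≤ κ1 := by rw [hκ0]; exact (min_le_left _ _).trans (min_le_left _ _)
  have k2 : κ0 ≤ κ2 := by rw [hκ0]; exact (min_le_left _ _).trans (min_le_right _ _)
  have k3 : κ0 ≤ κ3 := by rw [hκ0]; exact (min_le_right _ _).trans (min_le_left _ _)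
  have k4 : κ0 ≤ 1 / 4 := by rw [hκ0]; exact (min_le_right _ _).trans (min_le_right _ _)
  have e1 : ε0 ≤ ε1 := by rw [hε0]; exact (min_le_left _ _).trans (min_le_left _ _)
  have e2 : ε0 ≤ ε2 := by rw [hε0]; exact (min_le_left _ _).trans (min_le_right _ _)
  have e3 : ε0 ≤ ε3 := by rw [hε0]; exact (min_le_right _ _).trans (min_le_left _ _)
  have e4 : ε0 ≤ 1 / 4 := by rw [hε0]; exact (min_le_right _ _).trans (min_le_right _ _)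
  obtain ⟨δ, hδ⟩ : ∃ δ : ℝ, δ = ε0 / (4 * J + 8) := ⟨_, rfl⟩
  have hJp : (0 : ℝ) < 4 * J + 8 := by positivity
  have hδ0 : 0 < δ := by rw [hδ]; positivity
  have hδe : δ ≤ ε0 := by
    rw [hδ]
    refine div_le_self ep.le ?_
    have : (0 : ℝ) ≤ J := Nat.cast_nonneg _
    linarith
  have hδm : 2 * δ * ((2 * J + 2 : ℕ) : ℝ) ≤ ε0 := by
    rw [hδ]
    push_cast
    rw [show 2 * (ε0 / (4 * (J : ℝ) + 8)) * (2 * J + 2) = ε0 * ((4 * J + 4) / (4 * J + 8)) by ring]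
    refine mul_le_of_le_one_right ep.le ?_
    rw [div_le_one hJp]
    linarith
  obtain ⟨X4, H4⟩ := bh_siz k (by omega) δ θ τ hδ0 hθ0 hτ0
  obtain ⟨X5, H5⟩ := bh_u k (by omega) δ τ σ hδ0 hτ0 hτσ
  obtain ⟨X6, H6⟩ := bh_J k J θ hθ0 hJ2
  obtain ⟨X7, H7⟩ := bh_lp k (by omega)
  obtain ⟨X8, H8⟩ := bh9_large (1 + 2 ^ J * ((4 * J + 5) + 4)) (κ0 / 2) (by positivity)
  refine ⟨κ0 / 2, by positivity, X1 + X2 + X3 + X4 + X5 + X6 + X7 + X8 + 1, fun X hX f hf hG => ?_⟩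
  have hX1 : (1 : ℝ) ≤ X := by
    have : 1 ≤ X := by omega
    exact_mod_cast this
  have hXp : (0 : ℝ) < X := by linarith
  have mono : ∀ a b : ℝ, a ≤ b → (X : ℝ) ^ a ≤ (X : ℝ) ^ b := fun a b hab => Real.rpow_le_rpow_of_exponent_le hX1 hab
  have G1 := H1 X (by omega) f hf hG
  have G2 := H2 X (by omega) f hf hG
  have G3 := H3 X (by omega) f hf
  have G4 := H4 X (by omega)
  obtain ⟨⟨u1, u2⟩, u3⟩ := H5 X (by omega)
  have G6 := H6 X (by omega)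
  have G7 := H7 X (by omega) f hf
  have G8 := H8 X (by omega)
  rw [← hσ] at G1 G2
  have hyp : Hyp X k f ⌊(X : ℝ) ^ τ⌋₊ ⌊(X : ℝ) ^ θ⌋₊ ((X : ℝ) ^ (σ / 4)) ((X : ℝ) ^ (2 * θ)) ((X : ℝ) ^ ε0) ((X : ℝ) ^ (2 - κ0)) := by
    refine ⟨fun G hB => ?_, fun G hB => ?_, fun G hB => ?_, fun G hB => ?_, fun F G hF hB hs => ?_⟩
    · exact (G1 _ G (u1.mono (mono _ _ (hδe.trans e1))) (hB.mono (mono _ _ e1)) fun n n1 n2 n3 => u3 n n1 n2 (Or.inl n3)).trans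
        (mono _ _ (by linarith))
    · exact (G1 _ G (u2.mono (mono _ _ (hδe.trans e1))) (hB.mono (mono _ _ e1)) fun n n1 n2 n3 => u3 n n1 n2 (Or.inr n3)).trans
        (mono _ _ (by linarith))
    · exact ((G3 G (hB.mono (mono _ _ e3))).1).trans (mono _ _ (by linarith))
    · exact ((G3 G (hB.mono (mono _ _ e3))).2).trans (mono _ _ (by linarith))
    · refine (G2 F G (hF.mono (mono _ _ e2)) (hB.mono (mono _ _ e2)) fun n n1 n2 n3 => ?_).trans (mono _ _ (by linarith))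
      obtain ⟨s1, s2⟩ := hs n n1 n2 n3
      refine ⟨s1.le, s2.trans ?_⟩
      rw [← Real.rpow_add hXp]
      exact mono _ _ (by rw [hθ]; linarith)
  have hB : ((X : ℝ) ^ δ * (X : ℝ) ^ δ) ^ (2 * J + 2) ≤ (X : ℝ) ^ ε0 := by
    rw [← Real.rpow_add hXp, ← Real.rpow_natCast, ← Real.rpow_mul hXp.le]
    exact mono _ _ (by
      have : (δ + δ) * ((2 * J + 2 : ℕ) : ℝ) = 2 * δ * ((2 * J + 2 : ℕ) : ℝ) := by ring
      rw [this]
      exact hδm)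
  have hT : 1 ≤ (X : ℝ) ^ (σ / 4) := Real.one_le_rpow hX1 (by positivity)
  have K1 := bh_vM X k f ⌊(X : ℝ) ^ θ⌋₊ J hJ0 G6 _ fun j hj =>
    hb_term X k f hf ⌊(X : ℝ) ^ τ⌋₊ ⌊(X : ℝ) ^ θ⌋₊ ⌊(X : ℝ) ^ θ⌋₊ J j hj _ _ _ _ _ _ hT hyp G4 hB
  have K2 : ‖∑ n ∈ Icc 1 (2 * k * X), ((Pool.Agent.Lib.H68T.lp n : ℝ) : ℂ) * Psi X k f n‖ ≤
      (X : ℝ) ^ (7 / 4 : ℝ) + 2 ^ J * ((4 * J + 5) * (X : ℝ) ^ (2 - κ0) + (X : ℝ) ^ (σ / 4) * (X : ℝ) ^ ε0 * (4 * X)) := by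
    have t1 : (∑ n ∈ Icc 1 (2 * k * X), ((Pool.Agent.Lib.H68T.lp n : ℝ) : ℂ) * Psi X k f n) =
        ((∑ n ∈ Icc 1 (2 * k * X), ((Pool.Agent.Lib.H68T.lp n : ℝ) : ℂ) * Psi X k f n) - LF X k f ArithmeticFunction.vonMangoldt) +
          LF X k f ArithmeticFunction.vonMangoldt := by ring
    rw [t1]
    exact (norm_add_le _ _).trans (add_le_add G7 K1)
  refine K2.trans ?_
  have P1 : (X : ℝ) ^ (7 / 4 : ℝ) ≤ (X : ℝ) ^ (2 - κ0) := mono _ _ (by linarith)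
  have P2 : (X : ℝ) ^ (σ / 4) * (X : ℝ) ^ ε0 * (4 * X) ≤ 4 * (X : ℝ) ^ (2 - κ0) := by
    have t2 : (X : ℝ) ^ (σ / 4) * (X : ℝ) ^ ε0 * (4 * X) = 4 * (X : ℝ) ^ (σ / 4 + ε0 + 1) := by
      rw [Real.rpow_add hXp, Real.rpow_add hXp, Real.rpow_one]
      ring
    rw [t2]
    exact mul_le_mul_of_nonneg_left (mono _ _ (by linarith)) (by norm_num)
  have P3 : (1 + 2 ^ J * ((4 * (J : ℝ) + 5) + 4)) * (X : ℝ) ^ (2 - κ0) ≤ (X : ℝ) ^ (2 - κ0 / 2) := by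
    have t3 : (X : ℝ) ^ (2 - κ0 / 2) = (X : ℝ) ^ (κ0 / 2) * (X : ℝ) ^ (2 - κ0) := by
      rw [← Real.rpow_add hXp]
      congr 1
      ring
    rw [t3]
    exact mul_le_mul_of_nonneg_right G8 (Real.rpow_nonneg hXp.le _)
  refine le_trans ?_ P3
  have hJJ : (0 : ℝ) ≤ 2 ^ J := by positivity
  have P4 := mul_le_mul_of_nonneg_left P2 hJJ
  nlinarith

end Pool.Agent.HUK
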