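import Pool.Agent.Lib.HUK.MQ1

/-!
# Project HUK, chunk A2 (M): quasi-periodic weights
-/

open Finset

namespace Pool.Agent.HUK

open Pool.Agent.H44W (ee)

/-- The averages. -/
noncomputable def a2w (M : ℕ) (a : ℤ) (ψ : ℝ) (g : ℤ → ℂ) (z : ℤ) : ℂ :=
  (∑ j ∈ range M, g (z + a * j) * ee (ψ * j)) / M

/-- The weight. -/
noncomputable def a2c (M : ℕ) (a : ℤ) (ψ : ℝ) (w : ℤ → ℂ) (y : ℤ) : ℂ :=
  (∑ j ∈ range M, ee (ψ * j) * (starRingEnd ℂ) (w (y - a * j))) / M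

theorem a2_avg {M : ℕ} (hM : 1 ≤ M) {F : ℕ → ℂ} {B : ℝ} (h : ∀ j ∈ range M, ‖F j‖ ≤ B) :
    ‖(∑ j ∈ range M, F j) / M‖ ≤ B := by
  have hM0 : (0 : ℝ) < M := by exact_mod_cast hM
  rw [norm_div, Complex.norm_natCast, div_le_iff₀ hM0]
  refine (norm_sum_le _ _).trans ?_
  refine (Finset.sum_le_sum h).trans ?_
  rw [Finset.sum_const, card_range, nsmul_eq_mul, mul_comm]

theorem a2_w_le {M : ℕ} (hM : 1 ≤ M) (a : ℤ) (ψ : ℝ) {g : ℤ → ℂ} (hg : ∀ y, ‖g y‖ ≤ 1) (z : ℤ) :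
    ‖a2w M a ψ g z‖ ≤ 1 := by
  apply a2_avg hM
  intro j _
  rw [norm_mul, Pool.Agent.H44W.norm_ee, mul_one]
  exact hg _

theorem a2_c_le {M : ℕ} (hM : 1 ≤ M) (a : ℤ) (ψ : ℝ) {w : ℤ → ℂ} (hw : ∀ y, ‖w y‖ ≤ 1) (y : ℤ) :
    ‖a2c M a ψ w y‖ ≤ 1 := by
  apply a2_avg hM
  intro j _
  rw [norm_mul, Pool.Agent.H44W.norm_ee, one_mul, RCLike.norm_conj]
  exact hw _

theorem a2_w_step {M : ℕ} (hM : 1 ≤ M) (a : ℤ) (ψ : ℝ) {g : ℤ → ℂ} (hg : ∀ y, ‖g y‖ ≤ 1) (z : ℤ) :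
    ‖a2w M a ψ g (z + a) - ee (-ψ) * a2w M a ψ g z‖ ≤ 2 / M := by
  have hM0 : (0 : ℝ) < M := by exact_mod_cast hM
  have h1 : ∑ j ∈ range M, g (z + a + a * j) * ee (ψ * j) =
      ee (-ψ) * ∑ j ∈ range M, g (z + a * ((j + 1 : ℕ) : ℤ)) * ee (ψ * ((j + 1 : ℕ) : ℝ)) := by
    rw [Finset.mul_sum]
    refine Finset.sum_congr rfl fun j _ => ?_
    have e1 : z + a + a * (j : ℤ) = z + a * ((j + 1 : ℕ) : ℤ) := by
      push_cast
      ring
    have e2 : ψ * (j : ℝ) = -ψ + ψ * ((j + 1 : ℕ) : ℝ) := by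
      push_cast
      ring
    rw [e1, e2, Pool.Agent.H44W.ee_add]
    ring
  have h2 := Finset.sum_range_succ' (fun j : ℕ => g (z + a * (j : ℤ)) * ee (ψ * (j : ℝ))) M
  rw [Finset.sum_range_succ] at h2
  have h3 : a2w M a ψ g (z + a) - ee (-ψ) * a2w M a ψ g z =
      ee (-ψ) * ((g (z + a * (M : ℤ)) * ee (ψ * (M : ℝ)) - g (z + a * ((0 : ℕ) : ℤ)) * ee (ψ * ((0 : ℕ) : ℝ))) / M) := by
    unfold a2w
    rw [h1]
    linear_combination (-(ee (-ψ)) / M) * h2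
  rw [h3, norm_mul, Pool.Agent.H44W.norm_ee, one_mul, norm_div, Complex.norm_natCast]
  apply div_le_div_of_nonneg_right _ hM0.le
  refine (norm_sub_le _ _).trans ?_
  rw [norm_mul, norm_mul, Pool.Agent.H44W.norm_ee, Pool.Agent.H44W.norm_ee, mul_one, mul_one]
  linarith [hg (z + a * (M : ℤ)), hg (z + a * ((0 : ℕ) : ℤ))]

theorem a2_c_step {M : ℕ} (hM : 1 ≤ M) (a : ℤ) (ψ : ℝ) {w : ℤ → ℂ}
    (hw : ∀ z, ‖w (z + a) - ee (-ψ) * w z‖ ≤ 2 / M) (y : ℤ) :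
    ‖a2c M a ψ w (y + a) - ee ψ * a2c M a ψ w y‖ ≤ 2 / M := by
  have h1 : a2c M a ψ w (y + a) - ee ψ * a2c M a ψ w y =
      (∑ j ∈ range M, ee (ψ * j) * (starRingEnd ℂ) (w ((y - a * j) + a) - ee (-ψ) * w (y - a * j))) / M := by
    unfold a2c
    rw [← mul_div_assoc, ← sub_div, Finset.mul_sum, ← Finset.sum_sub_distrib]
    congr 1
    refine Finset.sum_congr rfl fun j _ => ?_
    have e1 : y + a - a * (j : ℤ) = (y - a * (j : ℤ)) + a := by ring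
    rw [e1, map_sub, map_mul, ← Pool.Agent.H44W.ee_neg, neg_neg]
    ring
  rw [h1]
  apply a2_avg hM
  intro j _
  rw [norm_mul, Pool.Agent.H44W.norm_ee, one_mul, RCLike.norm_conj]
  exact hw _

theorem a2_c_qp {M : ℕ} (hM : 1 ≤ M) (a : ℤ) (ψ : ℝ) {c : ℤ → ℂ}
    (hc : ∀ y, ‖c (y + a) - ee ψ * c y‖ ≤ 2 / M) (y : ℤ) (k : ℕ) :
    ‖c (y + a * k) - ee (ψ * k) * c y‖ ≤ 2 * k / M := by
  induction k with
  | zero =>
    rw [Nat.cast_zero, mul_zero, add_zero, Nat.cast_zero, mul_zero, Pool.Agent.H44W.ee_zero, one_mul, sub_self,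
      norm_zero, mul_zero, zero_div]
  | succ k ih =>
    have e1 : y + a * ((k + 1 : ℕ) : ℤ) = (y + a * k) + a := by
      push_cast
      ring
    have e2 : ψ * ((k + 1 : ℕ) : ℝ) = ψ + ψ * k := by
      push_cast
      ring
    have e3 : c ((y + a * k) + a) - ee (ψ + ψ * k) * c y =
        (c ((y + a * k) + a) - ee ψ * c (y + a * k)) + ee ψ * (c (y + a * k) - ee (ψ * k) * c y) := by
      rw [Pool.Agent.H44W.ee_add]
      ring
    rw [e1, e2, e3]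
    refine (norm_add_le _ _).trans ?_
    rw [norm_mul, Pool.Agent.H44W.norm_ee, one_mul]
    have h1 := hc (y + a * k)
    have e4 : 2 * (((k + 1 : ℕ) : ℝ)) / M = 2 / M + 2 * k / M := by
      push_cast
      ring
    rw [e4]
    exact add_le_add h1 ih

/-- Translation of a sum. -/
theorem a2_shift (X : ℕ) (b : ℤ) (hb : 0 ≤ b) (hbX : b ≤ X) (F : ℤ → ℂ) (hF : ∀ y, y ∉ Ico (-(X : ℤ)) X → F y = 0) :
    ∑ y ∈ Ico (-(X : ℤ)) X, F y = ∑ z ∈ Ico (-(2 * X : ℤ)) (2 * X), F (z + b) := by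
  have h1 : ∑ᶠ y, F y = ∑ y ∈ Ico (-(X : ℤ)) X, F y := by
    apply finsum_eq_sum_of_support_subset
    intro y hy
    by_contra hn
    exact hy (hF y (fun h => hn (by exact_mod_cast h)))
  have h2 : ∑ᶠ z, F (z + b) = ∑ z ∈ Ico (-(2 * X : ℤ)) (2 * X), F (z + b) := by
    apply finsum_eq_sum_of_support_subset
    intro z hz
    by_contra hn
    apply hz
    apply hF
    intro h
    apply hn
    rw [Finset.mem_Ico] at h
    rw [Finset.coe_Ico, Set.mem_Ico]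
    constructor
    · omega
    · omega
  rw [← h1, ← h2]
  exact (finsum_comp_equiv (Equiv.addRight b)).symm

/-- Proof. `w(z) = (1/M) ∑_{j<M} g(z + a j) ee(ψ j)`, `c(y) = (1/M) ∑_{j<M} ee(ψ j) conj w(y - a j)`. `‖w‖, ‖c‖ ≤ 1`; `w` is supported in `[-X - aM, X)`, `c` in
`[-X - aM, X + aM)`. `∑_y g(y) c(y) = (1/M) ∑_j ee(ψ j) ∑_z g(z + a j) conj w(z) = ∑_z ‖w(z)‖² = TQ`. Quasi-periodicity:
`w(z + a) = ee(-ψ) (w(z) + (g(z + aM) ee(ψ M) - g(z))/M)`, so `‖w(z + a) - ee(-ψ) w(z)‖ ≤ 2/M`, hence `‖c(y + a) - ee(ψ) c(y)‖ ≤ 2/M`; induction on `k`. -/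
theorem A2_wt (X M : ℕ) (hM : 1 ≤ M) (a : ℤ) (ha : 0 ≤ a) (haM : a * M ≤ X) (ψ : ℝ) (g : ℤ → ℂ) (hg : Bdd X g) :
    ∃ c : ℤ → ℂ, (∀ y, ‖c y‖ ≤ 1) ∧ (∀ y, y ∉ Ico (-(3 * X : ℤ)) (3 * X) → c y = 0) ∧
      (∀ (y : ℤ) (k : ℕ), ‖c (y + a * k) - ee (ψ * k) * c y‖ ≤ 2 * k / M) ∧
      ∑ y ∈ Ico (-(X : ℤ)) X, g y * c y = ((TQ X M a ψ g : ℝ) : ℂ) := by
  have hM0 : (0 : ℝ) < M := by exact_mod_cast hM
  have haj : ∀ j ∈ range M, 0 ≤ a * (j : ℤ) ∧ a * (j : ℤ) ≤ X := by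
    intro j hj
    rw [Finset.mem_range] at hj
    refine ⟨by positivity, le_trans (mul_le_mul_of_nonneg_left ?_ ha) haM⟩
    exact_mod_cast hj.le
  have hw := a2_w_le hM a ψ hg.le
  refine ⟨a2c M a ψ (a2w M a ψ g), a2_c_le hM a ψ hw, ?_,
    a2_c_qp hM a ψ (a2_c_step hM a ψ (a2_w_step hM a ψ hg.le)), ?_⟩
  · intro y hy
    unfold a2c
    rw [Finset.sum_eq_zero, zero_div]
    intro j hj
    have h0 : a2w M a ψ g (y - a * j) = 0 := by
      unfold a2w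
      rw [Finset.sum_eq_zero, zero_div]
      intro i hi
      have h1 := haj j hj
      have h2 := haj i hi
      rw [hg.sup, zero_mul]
      intro h3
      apply hy
      rw [Finset.mem_Ico] at h3 ⊢
      constructor
      · omega
      · omega
    rw [h0, map_zero, mul_zero]
  · have h1 : ∀ j ∈ range M, ∑ y ∈ Ico (-(X : ℤ)) X, g y * (starRingEnd ℂ) (a2w M a ψ g (y - a * j)) =
        ∑ z ∈ Ico (-(2 * X : ℤ)) (2 * X), g (z + a * j) * (starRingEnd ℂ) (a2w M a ψ g z) := by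
      intro j hj
      rw [a2_shift X (a * j) (haj j hj).1 (haj j hj).2 (fun y => g y * (starRingEnd ℂ) (a2w M a ψ g (y - a * j)))
        (fun y hy => by rw [hg.sup y hy, zero_mul])]
      refine Finset.sum_congr rfl fun z _ => ?_
      rw [add_sub_cancel_right]
    have h2 : ∑ y ∈ Ico (-(X : ℤ)) X, g y * a2c M a ψ (a2w M a ψ g) y =
        (∑ j ∈ range M, ee (ψ * j) * ∑ y ∈ Ico (-(X : ℤ)) X, g y * (starRingEnd ℂ) (a2w M a ψ g (y - a * j))) / M := by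
      unfold a2c
      rw [Finset.sum_congr rfl (fun j _ => Finset.mul_sum _ _ _), Finset.sum_comm, Finset.sum_div]
      refine Finset.sum_congr rfl fun y _ => ?_
      rw [← mul_div_assoc, Finset.mul_sum]
      congr 1
      refine Finset.sum_congr rfl fun j _ => ?_
      ring
    have h3 : ∑ j ∈ range M, ee (ψ * j) * ∑ y ∈ Ico (-(X : ℤ)) X, g y * (starRingEnd ℂ) (a2w M a ψ g (y - a * j)) =
        ∑ j ∈ range M, ee (ψ * j) * ∑ z ∈ Ico (-(2 * X : ℤ)) (2 * X), g (z + a * j) * (starRingEnd ℂ) (a2w M a ψ g z) :=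
      Finset.sum_congr rfl fun j hj => by rw [h1 j hj]
    rw [h2, h3]
    unfold TQ
    rw [Complex.ofReal_sum, Finset.sum_congr rfl (fun j _ => Finset.mul_sum _ _ _), Finset.sum_comm, Finset.sum_div]
    refine Finset.sum_congr rfl fun z _ => ?_
    have h4 : ∑ j ∈ range M, ee (ψ * j) * (g (z + a * j) * (starRingEnd ℂ) (a2w M a ψ g z)) =
        (∑ j ∈ range M, g (z + a * j) * ee (ψ * j)) * (starRingEnd ℂ) (a2w M a ψ g z) := by
      rw [Finset.sum_mul]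
      refine Finset.sum_congr rfl fun j _ => ?_
      ring
    have h5 : (∑ j ∈ range M, g (z + a * j) * ee (ψ * j)) / (M : ℂ) = a2w M a ψ g z := rfl
    rw [h4, mul_div_right_comm, h5, Complex.mul_conj, Complex.normSq_eq_norm_sq]

end Pool.Agent.HUK
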