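import Pool.Agent.Lib.HUK.Defs

/-!
# Project HUK, chunk P0 (M): rules for iterated differences (only `Defs`)
-/

open Finset

namespace Pool.Agent.HUK

theorem p0_DD_DD {G : Type*} [AddCommMonoid G] (a h : G) (f : G → ℂ) : DD a (DD h f) = DD h (DD a f) := by
  funext y
  simp only [DD, map_mul, Complex.conj_conj, add_right_comm y a h]
  ring

theorem p0_DD_mul {G : Type*} [AddCommMonoid G] (h : G) (f g : G → ℂ) :
    DD h (fun z => f z * g z) = fun z => DD h f z * DD h g z := by
  funext y
  simp only [DD, map_mul]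
  ring

theorem p0_cj_mul (n : ℕ) (a b : ℂ) : cj n (a * b) = cj n a * cj n b := by
  unfold cj
  split_ifs
  · rfl
  · exact map_mul _ _ _

theorem p0_cj_conj (n : ℕ) (a : ℂ) : cj n ((starRingEnd ℂ) a) = cj (n + 1) a := by
  unfold cj
  by_cases h : Even n
  · rw [if_pos h, if_neg (by rw [Nat.even_add_one]; exact not_not.mpr h)]
  · rw [if_neg h, if_pos (Nat.even_add_one.mpr h), Complex.conj_conj]

theorem p0_sg_cons {s : ℕ} (b : Bool) (ω : Fin s → Bool) :
    sg (Fin.cons b ω : Fin (s + 1) → Bool) = sg ω + (if b then 1 else 0) := by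
  unfold sg
  rw [Finset.card_filter, Finset.card_filter, Fin.sum_univ_succ]
  simp only [Fin.cons_zero, Fin.cons_succ]
  rw [add_comm]

theorem p0_vt_cons {G : Type*} [AddCommMonoid G] {s : ℕ} (b : Bool) (ω : Fin s → Bool) (h : Fin (s + 1) → G) :
    vt (Fin.cons b ω : Fin (s + 1) → Bool) h = (if b then h 0 else 0) + vt ω (fun i => h i.succ) := by
  unfold vt
  rw [Fin.sum_univ_succ]
  simp only [Fin.cons_zero, Fin.cons_succ]

/-- Differences commute. Induction on `l` (commutative addition). -/
theorem DL_DD {G : Type*} [AddCommMonoid G] (l : List G) (h : G) (f : G → ℂ) : DL l (DD h f) = DD h (DL l f) := by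
  induction l generalizing f with
  | nil => rfl
  | cons a l ih =>
    change DL l (DD a (DD h f)) = DD h (DL l (DD a f))
    rw [p0_DD_DD, ih]

/-- Hence `DL` does not depend on the order of the list (`List.Perm.rec`). -/
theorem DL_perm {G : Type*} [AddCommMonoid G] {l l' : List G} (h : l.Perm l') (f : G → ℂ) : DL l f = DL l' f := by
  induction h generalizing f with
  | nil => rfl
  | cons x _ ih => exact ih (DD x f)
  | swap x y l =>
    change DL l (DD x (DD y f)) = DL l (DD y (DD x f))
    rw [p0_DD_DD]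
  | trans _ _ ih1 ih2 => rw [ih1, ih2]

/-- Multiplicativity. -/
theorem DL_mul {G : Type*} [AddCommMonoid G] (l : List G) (f g : G → ℂ) :
    DL l (fun z => f z * g z) = fun z => DL l f z * DL l g z := by
  induction l generalizing f g with
  | nil => rfl
  | cons a l ih =>
    change DL l (DD a (fun z => f z * g z)) = fun z => DL l (DD a f) z * DL l (DD a g) z
    rw [p0_DD_mul, ih]

theorem DL_smul {G : Type*} [AddCommMonoid G] (l : List G) (w : ℝ) (f : G → ℂ) :
    DL l (fun z => (w : ℂ) * f z) = fun z => ((w ^ (2 ^ l.length) : ℝ) : ℂ) * DL l f z := by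
  induction l generalizing w f with
  | nil =>
    funext z
    simp only [DL, List.length_nil, pow_zero, pow_one]
  | cons a l ih =>
    change DL l (DD a (fun z => (w : ℂ) * f z)) = _
    have h1 : DD a (fun z => (w : ℂ) * f z) = fun z => ((w ^ 2 : ℝ) : ℂ) * DD a f z := by
      funext z
      simp only [DD, map_mul, Complex.conj_ofReal]
      push_cast
      ring
    rw [h1, ih (w ^ 2) (DD a f)]
    funext z
    change _ = _ * DL l (DD a f) z
    rw [List.length_cons, ← pow_mul, pow_succ, mul_comm 2]

theorem DL_norm {G : Type*} [AddCommMonoid G] (l : List G) (f : G → ℂ) (hf : ∀ z, ‖f z‖ ≤ 1) (z : G) :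
    ‖DL l f z‖ ≤ 1 := by
  induction l generalizing f with
  | nil => exact hf z
  | cons a l ih =>
    refine ih (DD a f) ?_
    intro y
    unfold DD
    rw [norm_mul, RCLike.norm_conj]
    exact mul_le_one₀ (hf y) (norm_nonneg _) (hf _)

/-- If `DL l f z ≠ 0` then `f z ≠ 0`. -/
theorem DL_supp {G : Type*} [AddCommMonoid G] (l : List G) (f : G → ℂ) (z : G) (h : f z = 0) : DL l f z = 0 := by
  induction l generalizing f with
  | nil => exact h
  | cons a l ih =>
    refine ih (DD a f) ?_
    unfold DD
    rw [h, zero_mul]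

/-- Product over the vertices of the cube. Induction on `s`: `List.ofFn_succ`, `DL (h 0 :: l) f = DL l (DD (h 0) f)`, and the vertices of
`{0,1}^(s+1)` are `Fin.cons false ω`, `Fin.cons true ω` (`vt (Fin.cons true ω) h = h 0 + vt ω (Fin.tail h)`, `sg (Fin.cons true ω) = sg ω + 1`). -/
theorem DL_prod {G : Type*} [AddCommMonoid G] (s : ℕ) (h : Fin s → G) (f : G → ℂ) (y : G) :
    DL (List.ofFn h) f y = ∏ ω : Fin s → Bool, cj (sg ω) (f (y + vt ω h)) := by
  induction s generalizing f y with
  | zero =>
    rw [List.ofFn_zero, Fintype.prod_unique]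
    have h1 : ∀ ω : Fin 0 → Bool, sg ω = 0 := by
      intro ω
      unfold sg
      simp
    have h2 : ∀ ω : Fin 0 → Bool, vt ω h = 0 := by
      intro ω
      unfold vt
      simp
    rw [h1, h2, add_zero]
    simp [cj, DL]
  | succ s ih =>
    rw [List.ofFn_succ]
    change DL (List.ofFn fun i : Fin s => h i.succ) (DD (h 0) f) y = _
    rw [ih]
    rw [← (Fin.consEquiv fun _ : Fin (s + 1) => Bool).prod_comp, Fintype.prod_prod_type, Fintype.prod_bool,
      ← Finset.prod_mul_distrib]
    refine Finset.prod_congr rfl fun ω _ => ?_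
    change _ = cj (sg (Fin.cons true ω : Fin (s + 1) → Bool)) (f (y + vt (Fin.cons true ω : Fin (s + 1) → Bool) h)) *
      cj (sg (Fin.cons false ω : Fin (s + 1) → Bool)) (f (y + vt (Fin.cons false ω : Fin (s + 1) → Bool) h))
    rw [p0_sg_cons, p0_sg_cons, p0_vt_cons, p0_vt_cons]
    simp only [if_true, Bool.false_eq_true, if_false, add_zero, zero_add]
    unfold DD
    rw [p0_cj_mul, p0_cj_conj, mul_comm]
    congr 3
    rw [add_assoc, add_comm (h 0)]

end Pool.Agent.HUK
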