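import Pool.Agent.Lib.HUK.E1
import Pool.Agent.Lib.HUK.P0

/-!
# Project HUK, chunk A3 (M): elimination of all values of `f`
-/

open Finset

namespace Pool.Agent.HUK

/-- Vertex sum `∑_l [ω l] t l`. -/
def ws {n : ℕ} (t : Fin n → ℤ) (ω : Fin n → Bool) : ℤ := ∑ l, if ω l then t l else 0

theorem a3_ws_abs (n H : ℕ) (t : Fin n → ℤ) (ht : ∀ i, |t i| ≤ (H : ℤ)) (ω : Fin n → Bool) :
    |ws t ω| ≤ (n : ℤ) * H := by
  unfold ws
  refine (Finset.abs_sum_le_sum_abs _ _).trans ?_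
  have h1 : ∀ l ∈ (univ : Finset (Fin n)), |if ω l then t l else 0| ≤ (H : ℤ) := by
    intro l _
    split_ifs
    · exact ht l
    · simp
  refine (Finset.sum_le_sum h1).trans ?_
  simp

theorem a3_vt (n : ℕ) (t : Fin n → ℤ) (a : ℤ) (ω : Fin n → Bool) :
    vt ω (fun i => a * t i) = a * ws t ω := by
  unfold vt ws
  rw [Finset.mul_sum]
  refine Finset.sum_congr rfl fun i _ => ?_
  split_ifs <;> simp

theorem a3_prod (n : ℕ) (t : Fin n → ℤ) (e : Fin (2 ^ n) ≃ (Fin n → Bool)) (f : ℤ → ℂ) (z a : ℤ) :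
    (∏ i, cj (sg (e i)) (f (z + a * ws t (e i)))) = DV (fun i => a * t i) f z := by
  unfold DV
  rw [DL_prod]
  rw [← Equiv.prod_comp e (fun ω => cj (sg ω) (f (z + vt ω fun i => a * t i)))]
  refine Finset.prod_congr rfl fun i _ => ?_
  rw [a3_vt]

theorem a3_cj_norm (n : ℕ) (z : ℂ) : ‖cj n z‖ = ‖z‖ := by
  unfold cj
  split_ifs
  · rfl
  · exact RCLike.norm_conj z

/-- Proof. `E1_elim` in `ℤ × ℤ`, `r = 2^n`, `B = Ico (-3X) (3X) ×ˢ Ioc K (2K)`, `B' = Ico (-4X) (4X) ×ˢ Ioc 0 (2K)`, `N = 16 X K`, vectors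
`v i = (-(ws t (e i)), 1)`, functions `g i (z, a) = cj (sg (e i)) (f (z + a ws t (e i)))`: invariant under `v i`; their product is `DL (ofFn (a • t)) f z`
(`DL_prod`; `vt ω (a • t) = a ws t ω`; reindex by `e`). The sum over `(z, a) ∈ B` is the sum of the hypothesis (for `z ∉ [-X, X)` the factor of the vertex `0`
vanishes). Windows: `|j ws| ≤ H2 n H ≤ X`, `H2 ≤ K`. `‖∑_{(z,a)}‖ ≤ ∑_a ‖∑_z‖`. Constants: `(ρ/16)^(2^r) ≤ 2^(2^r)/H2^r · (1/(16 X K)) ∑ …`. -/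
theorem A3_elim (n X K H H2 : ℕ) (hX : 1 ≤ X) (hK : 1 ≤ K) (hH2 : 1 ≤ H2) (hHK : H2 ≤ K) (hHH : n * H * H2 ≤ X) (ψ : ℝ)
    (c : ℤ × ℤ → ℂ) (hc : QP X K H ψ c) (t : Fin n → ℤ) (ht : ∀ i, |t i| ≤ H) (e : Fin (2 ^ n) ≃ (Fin n → Bool))
    (f : ℤ → ℂ) (hf : Bdd X f) (ρ : ℝ) (hρ : 0 < ρ)
    (h : ρ * (K * X) ≤ ‖∑ a ∈ Ioc (K : ℤ) (2 * K), ∑ z ∈ Ico (-(X : ℤ)) X, DV (fun i => a * t i) f z * c (z, a)‖) :
    (ρ / 32) ^ (2 ^ 2 ^ n) * (K * X * (H2 : ℝ) ^ (2 ^ n)) ≤ ∑ j ∈ bxS (2 ^ n) H2, ∑ a ∈ Ioc (K : ℤ) (2 * K),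
      ‖∑ z ∈ Ico (-(3 * X : ℤ)) (3 * X), DL (List.ofFn fun i => (-(j i * ws t (e i)), j i)) c (z, a)‖ := by
  set B : Finset (ℤ × ℤ) := Ico (-(3 * X : ℤ)) (3 * X) ×ˢ Ioc (K : ℤ) (2 * K) with hB
  set B' : Finset (ℤ × ℤ) := Ico (-(4 * X : ℤ)) (4 * X) ×ˢ Ioc (0 : ℤ) (2 * K) with hB'
  set N : ℝ := 16 * X * K with hN
  have hXr : (1 : ℝ) ≤ X := by exact_mod_cast hX
  have hKr : (1 : ℝ) ≤ K := by exact_mod_cast hK
  have hHr : (1 : ℝ) ≤ H2 := by exact_mod_cast hH2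
  have hN0 : 0 < N := by
    rw [hN]
    positivity
  have hcard : (B'.card : ℝ) ≤ N := by
    rw [hB', Finset.card_product, Int.card_Ico, Int.card_Ioc, hN]
    have e1 : (4 * (X : ℤ) - -(4 * (X : ℤ))).toNat = 8 * X := by omega
    have e2 : (2 * (K : ℤ) - 0).toNat = 2 * K := by omega
    rw [e1, e2]
    push_cast
    apply le_of_eq
    ring
  have hcB : ∀ z, z ∉ B → c z = 0 := by
    rintro ⟨z, a⟩ hz
    by_cases h1 : z ∈ Ico (-(3 * X : ℤ)) (3 * X)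
    · apply hc.supa
      rintro ⟨h2, h3⟩
      apply hz
      rw [hB, Finset.mem_product]
      exact ⟨h1, Finset.mem_Ioc.2 ⟨h2, h3⟩⟩
    · exact hc.supz z a h1
  have hwin : ∀ i (z : ℤ × ℤ), ∀ h : ℕ, h < H2 →
      z + h • ((-(ws t (e i)), 1) : ℤ × ℤ) ∈ B → z ∈ B' := by
    rintro i ⟨z, a⟩ h hh hz
    rw [hB, Finset.mem_product, Finset.mem_Ico, Finset.mem_Ioc] at hz
    simp only [Prod.smul_mk, Prod.mk_add_mk, nsmul_eq_mul, mul_one] at hz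
    obtain ⟨⟨h1, h2⟩, h3, h4⟩ := hz
    have hw : |(h : ℤ) * -(ws t (e i))| ≤ X := by
      rw [abs_mul, abs_neg, Nat.abs_cast]
      have h5 := a3_ws_abs n H t ht (e i)
      calc (h : ℤ) * |ws t (e i)| ≤ (H2 : ℤ) * ((n : ℤ) * H) := by
            apply mul_le_mul
            · exact_mod_cast hh.le
            · exact h5
            · exact abs_nonneg _
            · positivity
        _ = ((n * H * H2 : ℕ) : ℤ) := by push_cast; ring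
        _ ≤ X := by exact_mod_cast hHH
    rw [abs_le] at hw
    have hhK : (h : ℤ) < K := by exact_mod_cast lt_of_lt_of_le hh hHK
    have hh0 : (0 : ℤ) ≤ h := by positivity
    rw [hB', Finset.mem_product, Finset.mem_Ico, Finset.mem_Ioc]
    obtain ⟨hw1, hw2⟩ := hw
    refine ⟨⟨?_, ?_⟩, ?_, ?_⟩
    · show -(4 * X : ℤ) ≤ z
      linarith
    · show z < 4 * X
      linarith
    · show 0 < a
      linarith
    · show a ≤ 2 * K
      linarith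
  have main := E1_elim B B' N hcard hN0 H2 hH2 (2 ^ n) (fun i => ((-(ws t (e i)), 1) : ℤ × ℤ))
    (fun i z => cj (sg (e i)) (f (z.1 + z.2 * ws t (e i)))) c
    (fun i z => by
      show ‖cj (sg (e i)) (f (z.1 + z.2 * ws t (e i)))‖ ≤ 1
      rw [a3_cj_norm]
      exact hf.le _)
    (fun i z => by
      show cj (sg (e i)) (f ((z.1 + -(ws t (e i))) + (z.2 + 1) * ws t (e i))) =
        cj (sg (e i)) (f (z.1 + z.2 * ws t (e i)))
      congr 2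
      ring)
    hcB hwin
  have hS : ∑ z ∈ B, (∏ i, cj (sg (e i)) (f (z.1 + z.2 * ws t (e i)))) * c z =
      ∑ a ∈ Ioc (K : ℤ) (2 * K), ∑ z ∈ Ico (-(X : ℤ)) X, DV (fun i => a * t i) f z * c (z, a) := by
    rw [hB, Finset.sum_product_right]
    refine Finset.sum_congr rfl fun a _ => ?_
    have hsub : Ico (-(X : ℤ)) X ⊆ Ico (-(3 * X : ℤ)) (3 * X) := by
      apply Finset.Ico_subset_Ico
      · have : (0 : ℤ) ≤ X := by positivity
        linarith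
      · have : (0 : ℤ) ≤ X := by positivity
        linarith
    rw [← Finset.sum_subset hsub]
    · refine Finset.sum_congr rfl fun z _ => ?_
      rw [a3_prod]
    · intro z _ hz
      rw [a3_prod]
      unfold DV
      rw [DL_supp _ _ _ (hf.sup z hz), zero_mul]
  rw [hS] at main
  have hvec : ∀ j : Fin (2 ^ n) → ℤ,
      (List.ofFn fun i => j i • ((-(ws t (e i)), 1) : ℤ × ℤ)) =
      List.ofFn fun i => (-(j i * ws t (e i)), j i) := by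
    intro j
    congr 1
    funext i
    simp
  have hT : ∀ j : Fin (2 ^ n) → ℤ, ‖∑ z ∈ B, DL (List.ofFn fun i => j i • ((-(ws t (e i)), 1) : ℤ × ℤ)) c z‖ ≤
      ∑ a ∈ Ioc (K : ℤ) (2 * K),
      ‖∑ z ∈ Ico (-(3 * X : ℤ)) (3 * X), DL (List.ofFn fun i => (-(j i * ws t (e i)), j i)) c (z, a)‖ := by
    intro j
    rw [hvec, hB, Finset.sum_product_right]
    exact norm_sum_le _ _
  set SS : ℝ := ∑ j ∈ bxS (2 ^ n) H2, ∑ a ∈ Ioc (K : ℤ) (2 * K),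
      ‖∑ z ∈ Ico (-(3 * X : ℤ)) (3 * X), DL (List.ofFn fun i => (-(j i * ws t (e i)), j i)) c (z, a)‖ with hSS
  have h1 : ∑ j ∈ bxS (2 ^ n) H2, ‖∑ z ∈ B, DL (List.ofFn fun i => j i • ((-(ws t (e i)), 1) : ℤ × ℤ)) c z‖ / N ≤
      SS / N := by
    rw [← Finset.sum_div]
    apply div_le_div_of_nonneg_right _ hN0.le
    exact Finset.sum_le_sum fun j _ => hT j
  have h2 : (ρ / 16) ^ (2 ^ 2 ^ n) ≤ 2 ^ (2 ^ 2 ^ n) / (H2 : ℝ) ^ (2 ^ n) * (SS / N) := by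
    refine le_trans ?_ (main.trans (mul_le_mul_of_nonneg_left h1 (by positivity)))
    apply pow_le_pow_left₀ (by positivity)
    rw [le_div_iff₀ hN0, hN]
    refine le_trans (le_of_eq ?_) h
    ring
  have h3 : (ρ / 32) ^ (2 ^ 2 ^ n) = (ρ / 16) ^ (2 ^ 2 ^ n) / 2 ^ (2 ^ 2 ^ n) := by
    rw [← div_pow]
    congr 1
    ring
  have hp2 : (0 : ℝ) < 2 ^ (2 ^ 2 ^ n) := by positivity
  have hpH : (0 : ℝ) < (H2 : ℝ) ^ (2 ^ n) := by positivity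
  have h4 : (ρ / 32) ^ (2 ^ 2 ^ n) * (N * (H2 : ℝ) ^ (2 ^ n)) ≤ SS := by
    rw [h3]
    calc (ρ / 16) ^ (2 ^ 2 ^ n) / 2 ^ (2 ^ 2 ^ n) * (N * (H2 : ℝ) ^ (2 ^ n))
        ≤ (2 ^ (2 ^ 2 ^ n) / (H2 : ℝ) ^ (2 ^ n) * (SS / N)) / 2 ^ (2 ^ 2 ^ n) * (N * (H2 : ℝ) ^ (2 ^ n)) := by
          gcongr
      _ = SS := by
          field_simp
  refine le_trans ?_ h4
  apply mul_le_mul_of_nonneg_left _ (by positivity)
  apply mul_le_mul_of_nonneg_right _ hpH.le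
  rw [hN]
  nlinarith [mul_nonneg (by linarith : (0 : ℝ) ≤ K) (by linarith : (0 : ℝ) ≤ X)]

end Pool.Agent.HUK
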