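import Pool.Agent.Lib.HUK.A4

/-!
# Project HUK, chunk A5 (M): a large sum over `z` gives a diophantine condition for `ψ`
-/

open Finset

namespace Pool.Agent.HUK

open Pool.Agent.H44W (ee)
open Pool.Agent.Lib.H84V (nd)

theorem a5_one_sub (t : ℝ) : 4 * nd t ≤ ‖1 - ee t‖ := by
  have h1 : ee t = ee (t - round t) := by
    have h2 : t = (t - round t) + ((round t : ℤ) : ℝ) := by ring
    conv_lhs => rw [h2]
    rw [Pool.Agent.H44W.ee_add, Pool.Agent.H44W.ee_int, mul_one]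
  have h3 : |t - round t| ≤ 1 / 2 := abs_sub_round t
  rw [h1]
  unfold Pool.Agent.Lib.H84V.nd
  set s := t - round t with hs
  have h4 : ‖1 - ee s‖ = ‖2 * Real.sin (Real.pi * s)‖ := by
    rw [norm_sub_rev]
    have h5 := Complex.norm_exp_I_mul_ofReal_sub_one (2 * Real.pi * s)
    have h6 : 2 * Real.pi * s / 2 = Real.pi * s := by ring
    rw [h6] at h5
    rw [← h5]
    unfold Pool.Agent.H44W.ee
    congr 3
    push_cast
    ring
  rw [h4, Real.norm_eq_abs, abs_mul, abs_two]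
  have h7 : |Real.sin (Real.pi * s)| = |Real.sin (Real.pi * |s|)| := by
    rcases le_or_gt 0 s with h | h
    · rw [abs_of_nonneg h]
    · rw [abs_of_neg h, mul_neg, Real.sin_neg, abs_neg]
  have h8 : 2 / Real.pi * (Real.pi * |s|) ≤ Real.sin (Real.pi * |s|) := by
    refine Real.mul_le_sin (by positivity) ?_
    have := Real.pi_pos
    nlinarith
  have h9 : 2 / Real.pi * (Real.pi * |s|) = 2 * |s| := by
    field_simp
  rw [h9] at h8
  rw [h7]
  have h10 := le_abs_self (Real.sin (Real.pi * |s|))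
  linarith

/-- `‖∑_{k<R} ee(θ k)‖ ≤ 1/(2 nd θ)`; there are models in `SZW/A2.lean` (`geom_bound`) and `H9U/U1A.lean`. -/
theorem A5_geo (θ : ℝ) (R : ℕ) : ‖∑ k ∈ range R, ee (θ * k)‖ * (2 * nd θ) ≤ 1 := by
  have key : ∀ k : ℕ, (∑ n ∈ Finset.range k, ee (θ * n)) * (1 - ee θ) = 1 - ee (θ * k) := by
    intro k
    induction k with
    | zero => simp [Pool.Agent.H44W.ee_zero]
    | succ k ih =>
      rw [Finset.sum_range_succ, add_mul, ih]
      have h2 : ee (θ * ((k + 1 : ℕ) : ℝ)) = ee (θ * k) * ee θ := by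
        rw [← Pool.Agent.H44W.ee_add]
        congr 1
        push_cast
        ring
      rw [h2]
      ring
  have h1 := a5_one_sub θ
  have h2 : ‖∑ n ∈ Finset.range R, ee (θ * n)‖ * ‖1 - ee θ‖ ≤ 2 := by
    rw [← norm_mul, key R]
    refine (norm_sub_le _ _).trans ?_
    rw [norm_one, Pool.Agent.H44W.norm_ee]
    norm_num
  have h3 := mul_le_mul_of_nonneg_left h1 (norm_nonneg (∑ n ∈ Finset.range R, ee (θ * n)))
  linarith

/-- Proof. `U z = DL L c (z, a)`, `Q = Qf …`, `D = Df …`, `n = 2^|L|`. `U` is bounded by `1`, supported in `[-3X, 3X)`. For `R ≥ 1` with `Q R ≤ X`: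
`R ∑_z U(z) = ∑_{k<R} ∑_{z ∈ [-4X, 3X)} U(z + Q k)`, so by `A4_qp`
`‖∑_z U(z)‖ ≤ 7X ‖(1/R) ∑_{k<R} ee(ψ D k)‖ + 7X n R Q/(K H)`. Take `R = ⌊ρ K H/(14 n Q)⌋ ≥ 1` (`≥ ρ K H/(28 n Q)`): the last term is at most `ρ X/2`, so
`‖∑_{k<R} ee(ψ D k)‖ ≥ ρ R/14`, and `A5_geo` gives `nd(ψ D) ≤ 7/(ρ R) ≤ 196 n Q/(ρ² K H)`. -/
theorem A5_sum (X K H : ℕ) (hX : 1 ≤ X) (hK : 1 ≤ K) (hH : 1 ≤ H) (hKH : K * H ≤ X) (ψ : ℝ) (c : ℤ × ℤ → ℂ)
    (hc : QP X K H ψ c) (L : List (ℤ × ℤ)) (a : ℤ) (hV : Vt K (L.map Prod.snd) a) (ρ : ℝ) (hρ : 0 < ρ) (hρ1 : ρ ≤ 1)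
    (hQ : 14 * 2 ^ L.length * (Qf (L.map Prod.snd) a : ℝ) ≤ ρ * (K * H))
    (h : ρ * X ≤ ‖∑ z ∈ Ico (-(3 * X : ℤ)) (3 * X), DL L c (z, a)‖) :
    nd (ψ * Df (L.map Prod.snd) a) ≤ 196 * 2 ^ L.length * Qf (L.map Prod.snd) a / (ρ ^ 2 * (K * H)) := by
  have hpos := A4_pos K (L.map Prod.snd) a hV
  have hqp := fun z : ℤ => A4_qp X K H hK hH ψ c hc L a hV z 1
  set Q := Qf (L.map Prod.snd) a with hQdef
  set D := Df (L.map Prod.snd) a with hDdef
  have hQpos : (0 : ℝ) < Q := by exact_mod_cast hpos.1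
  have hU0 : ∀ z : ℤ, z ∉ Ico (-(3 * X : ℤ)) (3 * X) → DL L c (z, a) = 0 := fun z hz =>
    DL_supp L c (z, a) (hc.supz z a hz)
  have hXr : (1 : ℝ) ≤ X := by exact_mod_cast hX
  have hKr : (1 : ℝ) ≤ K := by exact_mod_cast hK
  have hHr : (1 : ℝ) ≤ H := by exact_mod_cast hH
  have hKHr : (K : ℝ) * H ≤ X := by exact_mod_cast hKH
  have hn1 : (1 : ℝ) ≤ 2 ^ L.length := one_le_pow₀ (by norm_num)
  have hKHpos : (0 : ℝ) < (K : ℝ) * H := by positivity
  -- `Q ≤ X`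
  have hQX : Q ≤ (X : ℤ) := by
    have h1 : (Q : ℝ) ≤ 14 * 2 ^ L.length * (Q : ℝ) := by nlinarith
    have h2 : ρ * (K * H) ≤ X := by nlinarith
    have h3 : (Q : ℝ) ≤ ((X : ℤ) : ℝ) := by push_cast; linarith
    exact_mod_cast h3
  -- the sum over the larger interval
  set S := ∑ z ∈ Ico (-(3 * X : ℤ)) (3 * X), DL L c (z, a) with hS
  have hS0 : ∑ z ∈ Ico (-(4 * X : ℤ)) (3 * X), DL L c (z, a) = S := by
    rw [hS]
    symm
    apply Finset.sum_subset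
    · intro z hz
      simp only [Finset.mem_Ico] at hz ⊢
      constructor
      · have : (0 : ℤ) ≤ X := by positivity
        linarith
      · exact hz.2
    · intro z _ hz
      exact hU0 z hz
  have hS1 : ∑ z ∈ Ico (-(4 * X : ℤ)) (3 * X), DL L c (z + Q, a) = S := by
    have h1 := Finset.sum_Ico_add' (fun z : ℤ => DL L c (z, a)) (-(4 * X : ℤ)) (3 * X) Q
    rw [h1, hS]
    symm
    apply Finset.sum_subset
    · intro z hz
      simp only [Finset.mem_Ico] at hz ⊢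
      have h5 := hpos.1
      constructor
      · linarith
      · linarith
    · intro z _ hz
      exact hU0 z hz
  have h1 : ‖S - ee (ψ * D) * S‖ ≤ 7 * X * (2 ^ L.length * Q / (K * H)) := by
    have h2 : S - ee (ψ * D) * S = ∑ z ∈ Ico (-(4 * X : ℤ)) (3 * X),
        (DL L c (z + Q, a) - ee (ψ * D) * DL L c (z, a)) := by
      rw [Finset.sum_sub_distrib, ← Finset.mul_sum, hS0, hS1]
    rw [h2]
    have h3 : ∀ z ∈ Ico (-(4 * X : ℤ)) (3 * X), ‖DL L c (z + Q, a) - ee (ψ * D) * DL L c (z, a)‖ ≤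
        2 ^ L.length * Q / (K * H) := by
      intro z _
      have h4 := hqp z
      simpa using h4
    refine (norm_sum_le_of_le _ h3).trans ?_
    rw [Finset.sum_const, nsmul_eq_mul, Int.card_Ico]
    have h5 : ((3 * X : ℤ) - -(4 * X : ℤ)).toNat = 7 * X := by omega
    rw [h5]
    push_cast
    exact le_refl _
  have h2 : ‖S - ee (ψ * D) * S‖ = ‖1 - ee (ψ * D)‖ * ‖S‖ := by
    rw [← norm_mul]
    congr 1
    ring
  rw [h2] at h1
  have h3 := a5_one_sub (ψ * D)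
  have hnd := Pool.Agent.Lib.H84V.nd_nonneg (ψ * D)
  -- `4 nd (ρ X) ≤ 7 X n Q/(KH)`
  have h4 : 4 * nd (ψ * D) * (ρ * X) ≤ 7 * X * (2 ^ L.length * Q / (K * H)) := by
    refine le_trans ?_ h1
    exact mul_le_mul h3 h (by positivity) (norm_nonneg _)
  have h5 : 4 * nd (ψ * D) * ρ ≤ 7 * (2 ^ L.length * Q / (K * H)) := by
    have hX0 : (0 : ℝ) < X := by linarith
    have h6 : (4 * nd (ψ * D) * ρ) * X ≤ (7 * (2 ^ L.length * Q / (K * H))) * X := by
      calc (4 * nd (ψ * D) * ρ) * X = 4 * nd (ψ * D) * (ρ * X) := by ring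
        _ ≤ 7 * X * (2 ^ L.length * Q / (K * H)) := h4
        _ = _ := by ring
    exact le_of_mul_le_mul_right h6 hX0
  rw [le_div_iff₀ (by positivity)]
  have h7 : 4 * nd (ψ * D) * ρ * (K * H) ≤ 7 * (2 ^ L.length * Q) := by
    have h8 := mul_le_mul_of_nonneg_right h5 hKHpos.le
    have h9 : 7 * (2 ^ L.length * (Q : ℝ) / (K * H)) * (K * H) = 7 * (2 ^ L.length * Q) := by
      field_simp
    rw [h9] at h8
    exact h8
  have h10 : nd (ψ * D) * (ρ ^ 2 * (K * H)) = (nd (ψ * D) * ρ * (K * H)) * ρ := by ring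
  rw [h10]
  have h11 : 0 ≤ nd (ψ * D) * ρ * (K * H) := by positivity
  have h12 : (nd (ψ * D) * ρ * (K * H)) * ρ ≤ nd (ψ * D) * ρ * (K * H) := by nlinarith
  have h13 : (0 : ℝ) ≤ 2 ^ L.length * Q := by positivity
  linarith

end Pool.Agent.HUK
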