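import Pool.Agent.Lib.HUK.A8b

/-!
# Project HUK, chunk A8 (helper37): from many diophantine conditions to one
-/

open Finset

namespace Pool.Agent.HUK

open Pool.Agent.Lib.H84V (nd nd_neg)

open Classical in
/-- A line in the direction `(1, …, 1; 1)` with many points of `G`. -/
theorem a8_line (r K H2 : ℕ) (hH : 1 ≤ H2) (hHK : H2 ≤ K) (G : Finset ((Fin r → ℤ) × ℤ))
    (hG : G ⊆ bxS r H2 ×ˢ Ioc (K : ℤ) (2 * K)) (δ : ℝ) (hδ : 0 < δ) (hc : δ * (K * (H2 : ℝ) ^ r) ≤ G.card) :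
    ∃ b : (Fin r → ℤ) × ℤ, δ / (2 * 3 ^ r) * H2 ≤
      (((range H2).filter fun k : ℕ => ((fun i => b.1 i + (k : ℤ)), b.2 + (k : ℤ)) ∈ G).card : ℝ) := by
  have hHr : (1 : ℝ) ≤ H2 := by exact_mod_cast hH
  have hHr0 : (0 : ℝ) < H2 := by linarith
  have hKr : (1 : ℝ) ≤ K := by
    have : 1 ≤ K := by omega
    exact_mod_cast this
  have hKr0 : (0 : ℝ) < K := by linarith
  obtain ⟨Bx, hBx⟩ : ∃ Bx : Finset ((Fin r → ℤ) × ℤ),
    Bx = (Fintype.piFinset fun _ : Fin r => Ico (-(2 * H2 : ℤ)) H2) ×ˢ Ioc (0 : ℤ) (2 * K) := ⟨_, rfl⟩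
  have hcard : Bx.card = (3 * H2) ^ r * (2 * K) := by
    rw [hBx, card_product, Fintype.card_piFinset, Finset.prod_const, Finset.card_univ, Fintype.card_fin, Int.card_Ico,
      Int.card_Ioc]
    have e1 : ((H2 : ℤ) - -(2 * (H2 : ℤ))).toNat = 3 * H2 := by omega
    have e2 : (2 * (K : ℤ) - 0).toNat = 2 * K := by omega
    rw [e1, e2]
  have hcardr : (Bx.card : ℝ) = (3 * H2) ^ r * (2 * K) := by
    rw [hcard]
    push_cast
    rfl
  have hne : Bx.Nonempty := by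
    rw [← Finset.card_pos, hcard]
    refine Nat.mul_pos (pow_pos (by omega) r) (by omega)
  have hsum : H2 * G.card ≤ ∑ b ∈ Bx,
      ((range H2).filter fun k : ℕ => ((fun i => b.1 i + (k : ℤ)), b.2 + (k : ℤ)) ∈ G).card := by
    simp only [Finset.card_filter]
    rw [Finset.sum_comm]
    have h1 : ∀ k ∈ range H2, G.card ≤ ∑ b ∈ Bx, (if ((fun i => b.1 i + (k : ℤ)), b.2 + (k : ℤ)) ∈ G then 1 else 0) := by
      intro k hk
      rw [mem_range] at hk
      rw [← Finset.card_filter]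
      refine Finset.card_le_card_of_injOn (fun g => ((fun i => g.1 i - (k : ℤ)), g.2 - (k : ℤ))) ?_ ?_
      · intro g hg
        have h2 := hG hg
        rw [mem_product] at h2
        unfold bxS at h2
        rw [Fintype.mem_piFinset, mem_Ioc] at h2
        rw [mem_coe, mem_filter]
        constructor
        · rw [hBx, mem_product, Fintype.mem_piFinset, mem_Ioc]
          constructor
          · intro i
            have h3 := h2.1 i
            rw [mem_Ioo] at h3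
            rw [mem_Ico]
            simp only
            omega
          · simp only
            omega
        · have h4 : ((fun i => g.1 i - (k : ℤ) + (k : ℤ)), g.2 - (k : ℤ) + (k : ℤ)) = g := by
            refine Prod.ext ?_ ?_
            · funext i
              simp only
              ring
            · simp only
              ring
          simp only
          rw [h4]
          exact hg
      · intro g _ g' _ h
        have h3 := congrArg Prod.fst h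
        have h4 := congrArg Prod.snd h
        simp only at h3 h4
        refine Prod.ext ?_ ?_
        · funext i
          have h5 := congrFun h3 i
          omega
        · omega
    calc H2 * G.card = ∑ _k ∈ range H2, G.card := by rw [Finset.sum_const, card_range, smul_eq_mul]
      _ ≤ _ := Finset.sum_le_sum h1
  have hsumr : (H2 : ℝ) * G.card ≤ ∑ b ∈ Bx,
      (((range H2).filter fun k : ℕ => ((fun i => b.1 i + (k : ℤ)), b.2 + (k : ℤ)) ∈ G).card : ℝ) := by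
    exact_mod_cast hsum
  have h5 : ∑ _b ∈ Bx, δ / (2 * 3 ^ r) * (H2 : ℝ) ≤ ∑ b ∈ Bx,
      (((range H2).filter fun k : ℕ => ((fun i => b.1 i + (k : ℤ)), b.2 + (k : ℤ)) ∈ G).card : ℝ) := by
    refine le_trans ?_ hsumr
    rw [Finset.sum_const, nsmul_eq_mul, hcardr]
    have h6 : (3 * (H2 : ℝ)) ^ r * (2 * K) * (δ / (2 * 3 ^ r) * H2) = H2 * (δ * (K * (H2 : ℝ) ^ r)) := by
      rw [mul_pow]
      field_simp
    rw [h6]
    exact mul_le_mul_of_nonneg_left hc hHr0.le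
  obtain ⟨b, _, hb⟩ := Finset.exists_le_of_sum_le hne h5
  exact ⟨b, hb⟩

open Classical in
/-- PROOF.md, 2.5. -/
theorem A8_major (r : ℕ) (hr : 1 ≤ r) : ∃ C : ℕ, ∀ δ : ℝ, 0 < δ → δ ≤ 1 / 2 → ∀ K H2 : ℕ, (1 / δ) ^ C ≤ H2 → δ * K ≤ H2 →
    H2 ≤ K → ∀ ψ ε : ℝ, 0 ≤ ε → ε ≤ δ ^ C →
    δ * (K * (H2 : ℝ) ^ r) ≤ (((bxS r H2 ×ˢ Ioc (K : ℤ) (2 * K)).filter fun p : (Fin r → ℤ) × ℤ =>
      Vt K (List.ofFn p.1) p.2 ∧ nd (ψ * Df (List.ofFn p.1) p.2) ≤ ε).card : ℝ) →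
    ∃ q : ℕ, 1 ≤ q ∧ (q : ℝ) ≤ (1 / δ) ^ C ∧ nd (q * ψ) ≤ (1 / δ) ^ C * ε / (K : ℝ) ^ (2 ^ r - 1) := by
  obtain ⟨C0, hC0⟩ := av_main (2 ^ r - 1)
  obtain ⟨c, hcd⟩ : ∃ c : ℤ, c = Df (List.replicate r 1) 1 := ⟨_, rfl⟩
  have hc0 : c ≠ 0 := by
    rw [hcd]
    exact pf_D_ne r
  obtain ⟨nc, hnc⟩ : ∃ nc : ℕ, nc = c.natAbs := ⟨_, rfl⟩
  have hcn : 1 ≤ nc := by omega
  have hcc : (c : ℝ) = nc ∨ (c : ℝ) = -nc := by
    have h1 : c = (nc : ℤ) ∨ c = -(nc : ℤ) := by omega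
    rcases h1 with h1 | h1
    · left
      rw [h1]
      norm_num
    · right
      rw [h1]
      norm_num
  refine ⟨(2 * r + 2) * C0 + nc + 2 ^ r, fun δ hδ hδ2 K H2 hH hδK hHK ψ ε hε hεδ hcard => ?_⟩
  have h2r := Nat.one_le_two_pow (n := r)
  have hδi : 2 ≤ 1 / δ := by
    rw [le_div_iff₀ hδ]
    linarith
  have hδi1 : 1 ≤ 1 / δ := by linarith
  have hδ1 : δ ≤ 1 := by linarith
  have hmono : ∀ a b : ℕ, a ≤ b → (1 / δ) ^ a ≤ (1 / δ) ^ b := fun a b hab => pow_le_pow_right₀ hδi1 hab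
  have hmono' : ∀ a b : ℕ, a ≤ b → δ ^ b ≤ δ ^ a := fun a b hab => pow_le_pow_of_le_one hδ.le hδ1 hab
  have hHr1 : (1 : ℝ) ≤ H2 := (one_le_pow₀ hδi1).trans hH
  have hH1 : 1 ≤ H2 := by exact_mod_cast hHr1
  have hHr0 : (0 : ℝ) < H2 := by linarith
  have hKr0 : (0 : ℝ) < K := by
    have : 0 < K := by omega
    exact_mod_cast this
  obtain ⟨G, hGd⟩ : ∃ G : Finset ((Fin r → ℤ) × ℤ), G = (bxS r H2 ×ˢ Ioc (K : ℤ) (2 * K)).filter
    fun p : (Fin r → ℤ) × ℤ => Vt K (List.ofFn p.1) p.2 ∧ nd (ψ * Df (List.ofFn p.1) p.2) ≤ ε := ⟨_, rfl⟩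
  rw [← hGd] at hcard
  have hG : G ⊆ bxS r H2 ×ˢ Ioc (K : ℤ) (2 * K) := by
    rw [hGd]
    exact Finset.filter_subset _ _
  obtain ⟨b, hb⟩ := a8_line r K H2 hH1 hHK G hG δ hδ hcard
  obtain ⟨δ', hδ'd⟩ : ∃ δ' : ℝ, δ' = δ / (2 * 3 ^ r) := ⟨_, rfl⟩
  rw [← hδ'd] at hb
  have h3r : (1 : ℝ) ≤ 3 ^ r := one_le_pow₀ (by norm_num)
  have hδ'0 : 0 < δ' := by rw [hδ'd]; positivity
  have hδ'h : δ' ≤ 1 / 2 := by
    rw [hδ'd, div_le_iff₀ (by positivity)]
    nlinarith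
  have hδ'i : 1 / δ' ≤ (1 / δ) ^ (2 * r + 2) := by
    have h1 : 1 / δ' = 2 * 3 ^ r * (1 / δ) := by
      rw [hδ'd]
      field_simp
    have h2 : (3 : ℝ) ^ r ≤ (1 / δ) ^ (2 * r) := by
      rw [pow_mul]
      refine pow_le_pow_left₀ (by norm_num) ?_ r
      nlinarith
    rw [h1, show 2 * r + 2 = 1 + 2 * r + 1 by ring, pow_succ, pow_add, pow_one]
    refine mul_le_mul_of_nonneg_right ?_ (by positivity)
    exact mul_le_mul hδi h2 (by positivity) (by positivity)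
  have hδ'pow : (1 / δ') ^ C0 ≤ (1 / δ) ^ ((2 * r + 2) * C0) := by
    rw [pow_mul]
    exact pow_le_pow_left₀ (by positivity) hδ'i C0
  have hδ'pow2 : δ ^ ((2 * r + 2) * C0) ≤ δ' ^ C0 := by
    rw [pow_mul]
    refine pow_le_pow_left₀ (by positivity) ?_ C0
    have h1 : 1 / δ' ≤ 1 / δ ^ (2 * r + 2) := by
      rw [← one_div_pow]
      exact hδ'i
    exact le_of_one_div_le_one_div hδ'0 h1
  have hPF := pf_D (List.ofFn b.1) b.2 1
  rw [List.length_ofFn, ← hcd] at hPF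
  obtain ⟨q, hq1, hqB, hqn⟩ := hC0 δ' hδ'0 hδ'h H2 ((hδ'pow.trans (hmono _ _ (by omega))).trans hH) c _ ψ ε hPF hε
    (hεδ.trans ((hmono' _ _ (by omega)).trans hδ'pow2)) (by
      refine hb.trans ?_
      have h1 : ((range H2).filter fun k : ℕ => ((fun i => b.1 i + (k : ℤ)), b.2 + (k : ℤ)) ∈ G) ⊆
          (range H2).filter fun k : ℕ => nd (ψ * Df ((List.ofFn b.1).map (· + (k : ℤ))) (b.2 + 1 * (k : ℤ))) ≤ ε := by
        intro k hk
        rw [mem_filter] at hk ⊢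
        refine ⟨hk.1, ?_⟩
        have h2 := hk.2
        rw [hGd, mem_filter] at h2
        have h3 := h2.2.2
        simp only at h3
        rw [List.map_ofFn, one_mul]
        exact h3
      exact_mod_cast Finset.card_le_card h1)
  refine ⟨q * nc, Nat.succ_le_of_lt (Nat.mul_pos hq1 hcn), ?_, ?_⟩
  · push_cast
    have h1 : (nc : ℝ) ≤ (1 / δ) ^ nc := by
      have h2 : (nc : ℝ) ≤ 2 ^ nc := by
        exact_mod_cast (Nat.lt_two_pow_self (n := nc)).le
      exact h2.trans (pow_le_pow_left₀ (by norm_num) hδi _)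
    calc (q : ℝ) * nc ≤ (1 / δ) ^ ((2 * r + 2) * C0) * (1 / δ) ^ nc :=
          mul_le_mul (hqB.trans hδ'pow) h1 (by positivity) (by positivity)
      _ = (1 / δ) ^ ((2 * r + 2) * C0 + nc) := by rw [← pow_add]
      _ ≤ _ := hmono _ _ (by omega)
  · have h1 : nd (((q * nc : ℕ) : ℝ) * ψ) = nd (q * (c * ψ)) := by
      push_cast
      rcases hcc with h2 | h2
      · rw [h2]
        congr 1
        ring
      · rw [h2, ← nd_neg]
        congr 1
        ring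
    rw [h1]
    refine hqn.trans ?_
    have h6 : (δ * K) ^ (2 ^ r - 1) ≤ (H2 : ℝ) ^ (2 ^ r - 1) := pow_le_pow_left₀ (by positivity) hδK _
    calc (1 / δ') ^ C0 * ε / (H2 : ℝ) ^ (2 ^ r - 1) ≤ (1 / δ) ^ ((2 * r + 2) * C0) * ε / (δ * K) ^ (2 ^ r - 1) := by
          refine div_le_div₀ (by positivity) (mul_le_mul_of_nonneg_right hδ'pow hε) (by positivity) h6
      _ = (1 / δ) ^ ((2 * r + 2) * C0 + (2 ^ r - 1)) * ε / (K : ℝ) ^ (2 ^ r - 1) := by
          rw [mul_pow, pow_add, one_div_pow (n := 2 ^ r - 1)]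
          field_simp
      _ ≤ _ := by
          have h7 := Nat.one_le_two_pow (n := r)
          refine div_le_div_of_nonneg_right (mul_le_mul_of_nonneg_right (hmono _ _ ?_) hε) (by positivity)
          omega

end Pool.Agent.HUK
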