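import Pool.Agent.Lib.HUK.MQ1

/-!
# Project HUK, chunk MQ2 (M): shorter progressions with a multiple of the difference
-/

open Finset

namespace Pool.Agent.HUK

open Pool.Agent.H44W (ee)
open Pool.Agent.Lib.H84V (nd)

theorem mq2_ee (x : ℝ) : ‖ee x - 1‖ ≤ 7 * nd x := by
  obtain ⟨m, hm⟩ := Pool.Agent.Lib.H84V.exists_nd x
  have h1 : ee x = ee (x - m) := by
    have h2 : ee (-(m : ℝ)) = 1 := by
      have h3 := Pool.Agent.H44W.ee_int (-m)
      push_cast at h3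
      exact h3
    rw [sub_eq_add_neg, Pool.Agent.H44W.ee_add, h2, mul_one]
  rw [h1, hm]
  have h2 : ee (x - m) = Complex.exp (Complex.I * ((2 * Real.pi * (x - m) : ℝ) : ℂ)) := by
    unfold Pool.Agent.H44W.ee
    congr 1
    push_cast
    ring
  rw [h2]
  refine (Real.norm_exp_I_mul_ofReal_sub_one_le).trans ?_
  rw [Real.norm_eq_abs, abs_mul, abs_of_pos (by positivity : (0 : ℝ) < 2 * Real.pi)]
  have h3 := Real.pi_lt_d2
  exact mul_le_mul_of_nonneg_right (by linarith) (abs_nonneg _)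

theorem mq2_shift (F : ℕ → ℂ) (hF : ∀ j, ‖F j‖ ≤ 1) (M n : ℕ) :
    ‖∑ j ∈ range M, F j - ∑ j ∈ range M, F (j + n)‖ ≤ 2 * n := by
  induction n with
  | zero => simp
  | succ n ih =>
    have h1 : ∑ j ∈ range M, F (j + n) - ∑ j ∈ range M, F (j + (n + 1)) = F n - F (M + n) := by
      rw [← Finset.sum_sub_distrib]
      have h2 := Finset.sum_range_sub' (fun j => F (j + n)) M
      simp only [zero_add] at h2
      rw [← h2]
      refine Finset.sum_congr rfl fun j _ => ?_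
      rw [show j + (n + 1) = j + 1 + n by ring]
    calc ‖∑ j ∈ range M, F j - ∑ j ∈ range M, F (j + (n + 1))‖ =
          ‖(∑ j ∈ range M, F j - ∑ j ∈ range M, F (j + n)) + (F n - F (M + n))‖ := by
          rw [← h1]
          congr 1
          ring
      _ ≤ 2 * n + (1 + 1) :=
          (norm_add_le _ _).trans (add_le_add ih ((norm_sub_le _ _).trans (add_le_add (hF _) (hF _))))
      _ = 2 * ((n + 1 : ℕ) : ℝ) := by
          push_cast
          ring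

theorem mq2_shiftsum (G : ℤ → ℝ) (hG0 : ∀ y, 0 ≤ G y) (A B b : ℤ) (hG : ∀ y, y ∉ Ico A B → G y = 0) :
    ∑ z ∈ Ico A B, G (z + b) ≤ ∑ y ∈ Ico A B, G y := by
  rw [Finset.sum_Ico_add' G A B b]
  calc ∑ y ∈ Ico (A + b) (B + b), G y = ∑ y ∈ (Ico (A + b) (B + b)).filter (fun y => y ∈ Ico A B), G y :=
        (Finset.sum_filter_of_ne (fun y _ hy => by
          by_contra h
          exact hy (hG y h))).symm
    _ ≤ ∑ y ∈ Ico A B, G y :=
        Finset.sum_le_sum_of_subset_of_nonneg (fun y hy => (mem_filter.1 hy).2) (fun y _ _ => hG0 y)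

theorem mq2_point (M M1 q : ℕ) (hM : 1 ≤ M) (hM1 : 1 ≤ M1) (a : ℤ) (ψ : ℝ) (g : ℤ → ℂ)
    (hg : ∀ y, ‖g y‖ ≤ 1) (z : ℤ) :
    ‖(∑ j ∈ range M, g (z + a * j) * ee (ψ * j)) / M‖ ≤
      (∑ j ∈ range M, ‖(∑ i ∈ range M1, g (z + a * j + a * q * i) * ee (0 * i)) / M1‖) / M +
        (2 * q * M1 / M + 7 * M1 * nd (q * ψ)) := by
  have hM' : (0 : ℝ) < M := by exact_mod_cast hM
  have hM1' : (0 : ℝ) < M1 := by exact_mod_cast hM1
  have hnd : 0 ≤ nd (q * ψ) := Pool.Agent.Lib.H84V.nd_nonneg _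
  have h1 : ∀ i ∈ range M1, ‖(∑ j ∈ range M, g (z + a * j) * ee (ψ * j)) -
      ∑ j ∈ range M, g (z + a * j + a * q * i) * ee (ψ * j)‖ ≤ 2 * q * M1 + 7 * M * M1 * nd (q * ψ) := by
    intro i hi
    have hi' : (i : ℝ) ≤ M1 := by exact_mod_cast (mem_range.1 hi).le
    have h2 := mq2_shift (fun j => g (z + a * j) * ee (ψ * j)) (fun j => by
      rw [norm_mul, Pool.Agent.H44W.norm_ee, mul_one]
      exact hg _) M (q * i)
    have h3 : ‖∑ j ∈ range M, g (z + a * ((j + q * i : ℕ) : ℤ)) * ee (ψ * ((j + q * i : ℕ) : ℝ)) -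
        ∑ j ∈ range M, g (z + a * j + a * q * i) * ee (ψ * j)‖ ≤ M * (7 * (i * nd (q * ψ))) := by
      rw [← Finset.sum_sub_distrib]
      refine (norm_sum_le _ _).trans ?_
      have h4 : ∀ j ∈ range M, ‖g (z + a * ((j + q * i : ℕ) : ℤ)) * ee (ψ * ((j + q * i : ℕ) : ℝ)) -
          g (z + a * j + a * q * i) * ee (ψ * j)‖ ≤ 7 * (i * nd (q * ψ)) := by
        intro j _
        have e1 : z + a * ((j + q * i : ℕ) : ℤ) = z + a * j + a * q * i := by
          push_cast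
          ring
        have e2 : ee (ψ * ((j + q * i : ℕ) : ℝ)) = ee (ψ * j) * ee (i * (q * ψ)) := by
          rw [← Pool.Agent.H44W.ee_add]
          congr 1
          push_cast
          ring
        rw [e1, e2]
        have e3 : g (z + a * j + a * q * i) * (ee (ψ * j) * ee (i * (q * ψ))) -
            g (z + a * j + a * q * i) * ee (ψ * j) =
            g (z + a * j + a * q * i) * ee (ψ * j) * (ee (i * (q * ψ)) - 1) := by ring
        rw [e3, norm_mul, norm_mul, Pool.Agent.H44W.norm_ee, mul_one]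
        have h5 := mq2_ee (i * (q * ψ))
        have h6 := Pool.Agent.Lib.H84V.nd_nat_mul_le i (q * ψ)
        calc ‖g (z + a * j + a * q * i)‖ * ‖ee (i * (q * ψ)) - 1‖ ≤ 1 * (7 * (i * nd (q * ψ))) :=
              mul_le_mul (hg _) (h5.trans (by linarith)) (norm_nonneg _) zero_le_one
          _ = 7 * (i * nd (q * ψ)) := one_mul _
      refine (Finset.sum_le_sum h4).trans ?_
      rw [Finset.sum_const, card_range, nsmul_eq_mul]
    have h7 : (∑ j ∈ range M, g (z + a * j) * ee (ψ * j)) -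
        ∑ j ∈ range M, g (z + a * j + a * q * i) * ee (ψ * j) =
        ((∑ j ∈ range M, g (z + a * j) * ee (ψ * j)) -
          ∑ j ∈ range M, g (z + a * ((j + q * i : ℕ) : ℤ)) * ee (ψ * ((j + q * i : ℕ) : ℝ))) +
        (∑ j ∈ range M, g (z + a * ((j + q * i : ℕ) : ℤ)) * ee (ψ * ((j + q * i : ℕ) : ℝ)) -
          ∑ j ∈ range M, g (z + a * j + a * q * i) * ee (ψ * j)) := by ring
    rw [h7]
    refine (norm_add_le _ _).trans ((add_le_add h2 h3).trans ?_)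
    have h8 : (q : ℝ) * i ≤ q * M1 := mul_le_mul_of_nonneg_left hi' (by positivity)
    have h9 : (i : ℝ) * nd (q * ψ) ≤ M1 * nd (q * ψ) := mul_le_mul_of_nonneg_right hi' hnd
    have h10 : (M : ℝ) * (i * nd (q * ψ)) ≤ M * (M1 * nd (q * ψ)) :=
      mul_le_mul_of_nonneg_left h9 hM'.le
    push_cast
    nlinarith
  have h2 : (M1 : ℂ) * (∑ j ∈ range M, g (z + a * j) * ee (ψ * j)) =
      (∑ i ∈ range M1, ((∑ j ∈ range M, g (z + a * j) * ee (ψ * j)) -
        ∑ j ∈ range M, g (z + a * j + a * q * i) * ee (ψ * j))) +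
      ∑ j ∈ range M, ee (ψ * j) * ∑ i ∈ range M1, g (z + a * j + a * q * i) * ee (0 * i) := by
    rw [Finset.sum_sub_distrib, Finset.sum_const, card_range, nsmul_eq_mul]
    have h3 : ∑ i ∈ range M1, ∑ j ∈ range M, g (z + a * j + a * q * i) * ee (ψ * j) =
        ∑ j ∈ range M, ee (ψ * j) * ∑ i ∈ range M1, g (z + a * j + a * q * i) * ee (0 * i) := by
      rw [Finset.sum_comm]
      refine Finset.sum_congr rfl fun j _ => ?_
      rw [Finset.mul_sum]
      refine Finset.sum_congr rfl fun i _ => ?_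
      rw [zero_mul, Pool.Agent.H44W.ee_zero]
      ring
    rw [h3]
    ring
  have h3 : (M1 : ℝ) * ‖∑ j ∈ range M, g (z + a * j) * ee (ψ * j)‖ ≤
      M1 * (2 * q * M1 + 7 * M * M1 * nd (q * ψ)) +
        ∑ j ∈ range M, ‖∑ i ∈ range M1, g (z + a * j + a * q * i) * ee (0 * i)‖ := by
    have h4 : (M1 : ℝ) * ‖∑ j ∈ range M, g (z + a * j) * ee (ψ * j)‖ =
        ‖(M1 : ℂ) * (∑ j ∈ range M, g (z + a * j) * ee (ψ * j))‖ := by
      rw [norm_mul, Complex.norm_natCast]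
    rw [h4, h2]
    refine (norm_add_le _ _).trans (add_le_add ?_ ?_)
    · refine (norm_sum_le _ _).trans ((Finset.sum_le_sum h1).trans ?_)
      rw [Finset.sum_const, card_range, nsmul_eq_mul]
    · refine (norm_sum_le _ _).trans (Finset.sum_le_sum fun j _ => ?_)
      rw [norm_mul, Pool.Agent.H44W.norm_ee, one_mul]
  have h4 : ∑ j ∈ range M, ‖(∑ i ∈ range M1, g (z + a * j + a * q * i) * ee (0 * i)) / M1‖ =
      (∑ j ∈ range M, ‖∑ i ∈ range M1, g (z + a * j + a * q * i) * ee (0 * i)‖) / M1 := by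
    rw [Finset.sum_div]
    refine Finset.sum_congr rfl fun j _ => ?_
    rw [norm_div, Complex.norm_natCast]
  rw [h4, norm_div, Complex.norm_natCast]
  set s1 := ‖∑ j ∈ range M, g (z + a * j) * ee (ψ * j)‖
  set s2 := ∑ j ∈ range M, ‖∑ i ∈ range M1, g (z + a * j + a * q * i) * ee (0 * i)‖
  have h5 : s2 / M1 / M + (2 * q * M1 / M + 7 * M1 * nd (q * ψ)) =
      (M1 * (2 * q * M1 + 7 * M * M1 * nd (q * ψ)) + s2) / (M1 * M) := by
    field_simp
    ring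
  have h6 : s1 / M = (M1 * s1) / (M1 * M) := by
    field_simp
  rw [h5, h6]
  exact div_le_div_of_nonneg_right h3 (by positivity)

/-- Proof. `w(z) = (1/M) ∑_{j<M} g(z + a j) ee(ψ j)`, `w₁(y) = (1/M1) ∑_{i<M1} g(y + a q i)`. For `i < M1` shift `j` by `q i`:
`‖w(z) - (1/M) ∑_{j<M} g(z + a j + a q i) ee(ψ j) ee(ψ q i)‖ ≤ 2 q i/M`, and `‖ee(ψ q i) - 1‖ ≤ 2π i nd(q ψ) ≤ 7 M1 nd(q ψ)` (`nd (i x) ≤ i nd x`,
`‖ee x - 1‖ ≤ 2π nd x`). Average over `i`: `‖w(z)‖ ≤ (1/M) ∑_{j<M} ‖w₁(z + a j)‖ + e`, `e = 2 q M1/M + 7 M1 nd(q ψ)`. Square (`(x+y)² ≤ 2x² + 2y²`,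
Cauchy-Schwarz over `j`), sum over `z ∈ [-2X, 2X)`; `w₁` is supported in `[-2X, X)` (`a q M1 ≤ X`), so `∑_z ‖w₁(z + a j)‖² ≤ TQ X M1 (a q) 0 g`. -/
theorem TQ_block (X M M1 q : ℕ) (hM : 1 ≤ M) (hM1 : 1 ≤ M1) (hq : 1 ≤ q) (a : ℤ) (ha : 0 ≤ a) (haM : a * (q * M1) ≤ X)
    (ψ : ℝ) (g : ℤ → ℂ) (hg : Bdd X g) :
    TQ X M a ψ g ≤ 2 * TQ X M1 (a * q) 0 g + 8 * X * (2 * q * M1 / M + 7 * M1 * nd (q * ψ)) ^ 2 := by
  have hM' : (0 : ℝ) < M := by exact_mod_cast hM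
  set w1 : ℤ → ℂ := fun y => (∑ i ∈ range M1, g (y + a * q * i) * ee (0 * i)) / M1 with hw1
  set e : ℝ := 2 * q * M1 / M + 7 * M1 * nd (q * ψ) with he
  have he0 : 0 ≤ e := by
    have := Pool.Agent.Lib.H84V.nd_nonneg (q * ψ)
    positivity
  have hsup : ∀ y, y ∉ Ico (-(2 * X : ℤ)) (2 * X) → ‖w1 y‖ ^ 2 = 0 := by
    intro y hy
    have h1 : w1 y = 0 := by
      rw [hw1]
      simp only
      rw [Finset.sum_eq_zero, zero_div]
      intro i hi
      have h2 : a * (q * (i : ℤ)) ≤ a * (q * M1) := by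
        refine mul_le_mul_of_nonneg_left ?_ ha
        refine mul_le_mul_of_nonneg_left ?_ (by positivity)
        exact_mod_cast (mem_range.1 hi).le
      have h3 : 0 ≤ a * (q * (i : ℤ)) := by positivity
      rw [hg.sup, zero_mul]
      rw [mem_Ico] at hy ⊢
      rw [mul_assoc]
      omega
    rw [h1, norm_zero]
    ring
  have hpt : ∀ z, ‖(∑ j ∈ range M, g (z + a * j) * ee (ψ * j)) / M‖ ^ 2 ≤
      2 * ((∑ j ∈ range M, ‖w1 (z + a * j)‖ ^ 2) / M) + 2 * e ^ 2 := by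
    intro z
    have h1 := mq2_point M M1 q hM hM1 a ψ g hg.le z
    have h2 : 0 ≤ (∑ j ∈ range M, ‖w1 (z + a * j)‖) / M := by positivity
    have h3 : ((∑ j ∈ range M, ‖w1 (z + a * j)‖) / M) ^ 2 ≤ (∑ j ∈ range M, ‖w1 (z + a * j)‖ ^ 2) / M := by
      have h4 := sq_sum_le_card_mul_sum_sq (s := range M) (f := fun j => ‖w1 (z + a * j)‖)
      rw [card_range] at h4
      rw [div_pow, div_le_div_iff₀ (by positivity) hM']
      calc (∑ j ∈ range M, ‖w1 (z + a * j)‖) ^ 2 * M ≤ (M * ∑ j ∈ range M, ‖w1 (z + a * j)‖ ^ 2) * M :=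
            mul_le_mul_of_nonneg_right h4 hM'.le
        _ = (∑ j ∈ range M, ‖w1 (z + a * j)‖ ^ 2) * M ^ 2 := by ring
    have h5 : ‖(∑ j ∈ range M, g (z + a * j) * ee (ψ * j)) / M‖ ^ 2 ≤
        ((∑ j ∈ range M, ‖w1 (z + a * j)‖) / M + e) ^ 2 :=
      pow_le_pow_left₀ (norm_nonneg _) h1 2
    nlinarith [sq_nonneg ((∑ j ∈ range M, ‖w1 (z + a * j)‖) / M - e)]
  have hcard : ((Ico (-(2 * X : ℤ)) (2 * X)).card : ℝ) = 4 * X := by
    rw [Int.card_Ico]
    have : ((2 * X : ℤ) - -(2 * X : ℤ)).toNat = 4 * X := by omega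
    rw [this]
    push_cast
    ring
  have hswap : ∑ z ∈ Ico (-(2 * X : ℤ)) (2 * X), ∑ j ∈ range M, ‖w1 (z + a * j)‖ ^ 2 ≤
      M * TQ X M1 (a * q) 0 g := by
    rw [Finset.sum_comm]
    refine (Finset.sum_le_sum (g := fun _ => TQ X M1 (a * q) 0 g) fun j _ => ?_).trans ?_
    · exact mq2_shiftsum (fun y => ‖w1 y‖ ^ 2) (fun y => by positivity) _ _ (a * j) hsup
    · rw [Finset.sum_const, card_range, nsmul_eq_mul]
  calc TQ X M a ψ g ≤ ∑ z ∈ Ico (-(2 * X : ℤ)) (2 * X),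
        (2 * ((∑ j ∈ range M, ‖w1 (z + a * j)‖ ^ 2) / M) + 2 * e ^ 2) :=
        Finset.sum_le_sum fun z _ => hpt z
    _ = 2 * ((∑ z ∈ Ico (-(2 * X : ℤ)) (2 * X), ∑ j ∈ range M, ‖w1 (z + a * j)‖ ^ 2) / M) +
          8 * X * e ^ 2 := by
        rw [Finset.sum_add_distrib, Finset.sum_const, nsmul_eq_mul, hcard, ← Finset.mul_sum,
          ← Finset.sum_div]
        ring
    _ ≤ 2 * TQ X M1 (a * q) 0 g + 8 * X * e ^ 2 := by
        have h1 : (∑ z ∈ Ico (-(2 * X : ℤ)) (2 * X), ∑ j ∈ range M, ‖w1 (z + a * j)‖ ^ 2) / M ≤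
            TQ X M1 (a * q) 0 g := by
          rw [div_le_iff₀ hM']
          exact hswap.trans (le_of_eq (mul_comm _ _))
        linarith

theorem mq2_fw_nonneg (m : ℕ) (t : ℤ) : 0 ≤ fw m t := le_max_left _ _

theorem mq2_abs_sum (m : ℕ) : ∑ t ∈ Ioo (-(m : ℤ)) m, ((m : ℝ) - |(t : ℝ)|) = (m : ℝ) ^ 2 := by
  induction m with
  | zero => simp
  | succ m ih =>
    have h1 : ∑ t ∈ Ioo (-((m + 1 : ℕ) : ℤ)) ((m + 1 : ℕ) : ℤ), ((m : ℝ) - |(t : ℝ)|) = (m : ℝ) ^ 2 := by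
      rw [← ih]
      symm
      refine Finset.sum_subset ?_ ?_
      · intro t ht
        rw [mem_Ioo] at ht ⊢
        push_cast
        omega
      · intro t ht ht'
        rw [mem_Ioo] at ht ht'
        push_cast at ht
        have h2 : t = m ∨ t = -m := by omega
        rcases h2 with rfl | rfl
        · simp
        · simp
    have h2 : ∑ t ∈ Ioo (-((m + 1 : ℕ) : ℤ)) ((m + 1 : ℕ) : ℤ), (((m + 1 : ℕ) : ℝ) - |(t : ℝ)|) =
        ∑ t ∈ Ioo (-((m + 1 : ℕ) : ℤ)) ((m + 1 : ℕ) : ℤ), ((m : ℝ) - |(t : ℝ)|) +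
          ∑ _t ∈ Ioo (-((m + 1 : ℕ) : ℤ)) ((m + 1 : ℕ) : ℤ), (1 : ℝ) := by
      rw [← Finset.sum_add_distrib]
      refine Finset.sum_congr rfl fun t _ => ?_
      push_cast
      ring
    rw [h2, h1, Finset.sum_const, Int.card_Ioo, nsmul_eq_mul, mul_one]
    have h3 : (((m + 1 : ℕ) : ℤ) - -((m + 1 : ℕ) : ℤ) - 1).toNat = 2 * m + 1 := by
      push_cast
      omega
    rw [h3]
    push_cast
    ring

theorem mq2_fw_sum (m : ℕ) (hm : 1 ≤ m) : ∑ t ∈ Ioo (-(m : ℤ)) m, fw m t = m := by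
  have hm' : (0 : ℝ) < m := by exact_mod_cast hm
  have h1 : ∀ t ∈ Ioo (-(m : ℤ)) m, fw m t = ((m : ℝ) - |(t : ℝ)|) / m := by
    intro t ht
    rw [mem_Ioo] at ht
    have h2 : |(t : ℝ)| ≤ m := by
      rw [abs_le]
      constructor
      · exact_mod_cast ht.1.le
      · exact_mod_cast ht.2.le
    unfold fw
    rw [max_eq_right (by rw [sub_nonneg, div_le_one hm']; exact h2)]
    field_simp
  rw [Finset.sum_congr rfl h1, ← Finset.sum_div, mq2_abs_sum]
  field_simp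

theorem mq2_cons_re (X : ℕ) (p : ℕ × ℤ) (l : List (ℕ × ℤ)) (f : ℤ → ℂ) :
    (MQ X (p :: l) f).re =
      (∑ t ∈ Ioo (-(p.1 : ℤ)) p.1, fw p.1 t * (MQ X l (DD (p.2 * t) f)).re) / p.1 := by
  show ((∑ t ∈ Ioo (-(p.1 : ℤ)) p.1, ((fw p.1 t : ℝ) : ℂ) * MQ X l (DD (p.2 * t) f)) / (p.1 : ℂ)).re = _
  rw [Complex.div_natCast_re, Complex.re_sum]
  congr 1
  refine Finset.sum_congr rfl fun t _ => ?_
  rw [Complex.re_ofReal_mul]

theorem mq2_change_end (X M M1 q : ℕ) (hM : 1 ≤ M) (hM1 : 1 ≤ M1) (hq : 1 ≤ q) (d : ℤ) (hd : 0 ≤ d)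
    (hdM : d * M ≤ X) (hdM1 : d * (q * M1) ≤ X) (l : List (ℕ × ℤ)) (hp : ∀ p ∈ l, 1 ≤ p.1) :
    ∀ f : ℤ → ℂ, Bdd X f → (MQ X (l ++ [(M, d)]) f).re ≤
      2 * (MQ X (l ++ [(M1, d * q)]) f).re + 32 * X * (q * M1 / M : ℝ) ^ 2 := by
  induction l with
  | nil =>
    intro f hf
    have h1 : (d * q) * (M1 : ℤ) ≤ X := by
      rw [mul_assoc]
      exact hdM1
    rw [List.nil_append, List.nil_append, MQ_one X M hM d hd hdM f hf.sup,
      MQ_one X M1 hM1 (d * q) (by positivity) h1 f hf.sup, Complex.ofReal_re, Complex.ofReal_re]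
    have h2 := TQ_block X M M1 q hM hM1 hq d hd hdM1 0 f hf
    have h3 : nd (q * (0 : ℝ)) = 0 := by
      rw [mul_zero]
      refine le_antisymm ?_ (Pool.Agent.Lib.H84V.nd_nonneg _)
      refine (Pool.Agent.Lib.H84V.nd_le_abs 0).trans ?_
      rw [abs_zero]
    rw [h3, mul_zero, add_zero] at h2
    refine h2.trans (le_of_eq ?_)
    ring
  | cons p l ih =>
    intro f hf
    have hp1 : 1 ≤ p.1 := hp p (List.mem_cons_self)
    have hp' : (0 : ℝ) < p.1 := by exact_mod_cast hp1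
    have hih := ih (fun p' h' => hp p' (List.mem_cons_of_mem _ h'))
    rw [List.cons_append, List.cons_append, mq2_cons_re, mq2_cons_re]
    set E : ℝ := 32 * X * (q * M1 / M : ℝ) ^ 2 with hE
    calc (∑ t ∈ Ioo (-(p.1 : ℤ)) p.1, fw p.1 t * (MQ X (l ++ [(M, d)]) (DD (p.2 * t) f)).re) / p.1 ≤
          (∑ t ∈ Ioo (-(p.1 : ℤ)) p.1,
            (2 * (fw p.1 t * (MQ X (l ++ [(M1, d * q)]) (DD (p.2 * t) f)).re) + fw p.1 t * E)) / p.1 := by
          refine div_le_div_of_nonneg_right (Finset.sum_le_sum fun t _ => ?_) hp'.le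
          have h1 := mul_le_mul_of_nonneg_left (hih _ (Bdd_DD hf (p.2 * t))) (mq2_fw_nonneg p.1 t)
          refine h1.trans (le_of_eq ?_)
          ring
      _ = 2 * ((∑ t ∈ Ioo (-(p.1 : ℤ)) p.1,
            fw p.1 t * (MQ X (l ++ [(M1, d * q)]) (DD (p.2 * t) f)).re) / p.1) + E := by
          rw [Finset.sum_add_distrib, ← Finset.mul_sum, ← Finset.sum_mul, mq2_fw_sum p.1 hp1]
          field_simp

/-- Change of one progression. Proof: move the entry to the end (`MQ_perm`), then `TQ_block` with `ψ = 0` (`MQ_one`) for every value of the other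
differences, weights `fw ≥ 0` with `∑_{|t|<m} fw m t = m`. -/
theorem MQ_change (X M M1 q : ℕ) (hM : 1 ≤ M) (hM1 : 1 ≤ M1) (hq : 1 ≤ q) (d : ℤ) (hd : 0 ≤ d) (hdM : d * M ≤ X)
    (hdM1 : d * (q * M1) ≤ X) (l : List (ℕ × ℤ)) (hp : ∀ p ∈ l, 1 ≤ p.1) (f : ℤ → ℂ) (hf : Bdd X f) :
    (MQ X ((M, d) :: l) f).re ≤ 2 * (MQ X ((M1, d * q) :: l) f).re + 32 * X * (q * M1 / M : ℝ) ^ 2 := by
  have h1 : ∀ p : ℕ × ℤ, (p :: l).Perm (l ++ [p]) := fun p => (List.perm_append_singleton p l).symm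
  rw [MQ_perm X (h1 (M, d)) f, MQ_perm X (h1 (M1, d * q)) f]
  exact mq2_change_end X M M1 q hM hM1 hq d hd hdM hdM1 l hp f hf

theorem mq2_rep (X n M : ℕ) (a : ℤ) (l : List (ℕ × ℤ)) : ∀ f : ℤ → ℂ,
    MQ X (List.replicate n (M, a) ++ l) f =
      (∑ t ∈ bxS n M, ((FW M t : ℝ) : ℂ) * MQ X l (DV (fun i => a * t i) f)) / (M : ℂ) ^ n := by
  induction n with
  | zero =>
    intro f
    simp [bxS, FW, DV, DL]
  | succ n ih =>
    intro f
    rw [List.replicate_succ, List.cons_append]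
    show (∑ t ∈ Ioo (-(M : ℤ)) M, ((fw M t : ℝ) : ℂ) * MQ X (List.replicate n (M, a) ++ l) (DD (a * t) f)) /
      (M : ℂ) = _
    rw [bxS_sum, pow_succ, ← div_div, Finset.sum_div (s := Ioo (-(M : ℤ)) M) (a := (M : ℂ) ^ n)]
    congr 1
    refine Finset.sum_congr rfl fun k _ => ?_
    rw [ih, mul_div_assoc', Finset.mul_sum]
    congr 1
    refine Finset.sum_congr rfl fun h _ => ?_
    have e1 : FW M (Fin.cons k h : Fin (n + 1) → ℤ) = fw M k * FW M h := by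
      unfold FW
      rw [Fin.prod_univ_succ, Fin.cons_zero]
      congr 1
    have e2 : DV (fun i => a * (Fin.cons k h : Fin (n + 1) → ℤ) i) f = DV (fun i => a * h i) (DD (a * k) f) := by
      unfold DV
      rw [List.ofFn_succ]
      rfl
    rw [e1, e2]
    push_cast
    ring

theorem mq2_many (X M M1 q : ℕ) (hM : 1 ≤ M) (hM1 : 1 ≤ M1) (hq : 1 ≤ q) (d : ℤ) (hd : 0 ≤ d)
    (hdM : d * M ≤ X) (hdM1 : d * (q * M1) ≤ X) (f : ℤ → ℂ) (hf : Bdd X f) (n : ℕ) : ∀ m : ℕ,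
    (MQ X (List.replicate n (M, d) ++ List.replicate m (M1, d * q)) f).re ≤
      2 ^ n * (MQ X (List.replicate (n + m) (M1, d * q)) f).re +
        (2 ^ n - 1) * (32 * X * (q * M1 / M : ℝ) ^ 2) := by
  induction n with
  | zero =>
    intro m
    simp
  | succ n ih =>
    intro m
    have h1 := MQ_change X M M1 q hM hM1 hq d hd hdM hdM1
      (List.replicate n (M, d) ++ List.replicate m (M1, d * q)) (by
        intro p hp
        rcases List.mem_append.1 hp with h | h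
        · rw [(List.mem_replicate.1 h).2]
          exact hM
        · rw [(List.mem_replicate.1 h).2]
          exact hM1) f hf
    have h2 : ((M1, d * q) :: (List.replicate n (M, d) ++ List.replicate m (M1, d * q))).Perm
        (List.replicate n (M, d) ++ List.replicate (m + 1) (M1, d * q)) := by
      rw [List.replicate_succ (n := m)]
      exact (List.perm_middle).symm
    rw [MQ_perm X h2 f] at h1
    have h3 := ih (m + 1)
    have h4 : n + (m + 1) = n + 1 + m := by ring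
    rw [h4] at h3
    rw [List.replicate_succ, List.cons_append]
    rw [pow_succ]
    nlinarith

/-- The other progressions: `n` coordinates `t ∈ (-M, M)^n` with direction `a` become coordinates with direction `a q` and length `M1`
(`MQ_change` `n` times, `MQ_perm`, `MQ_NU`; the left side is `(MQ X (replicate n (M, a) ++ [(M1, a q)]) f).re`). -/
theorem A10_coord (n X M M1 q a : ℕ) (hM : 1 ≤ M) (hM1 : 1 ≤ M1) (hq : 1 ≤ q) (haM : a * M ≤ X) (haM1 : a * (q * M1) ≤ X)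
    (f : ℤ → ℂ) (hf : Bdd X f) :
    (∑ t ∈ bxS n M, FW M t * TQ X M1 (a * q) 0 (DV (fun i => (a : ℤ) * t i) f)) / (M : ℝ) ^ n ≤
      2 ^ n * (NU X (n + 1) M1 (a * q) f + 32 * X * (q * M1 / M : ℝ) ^ 2) := by
  have hM' : (0 : ℝ) < M := by exact_mod_cast hM
  have ha : (0 : ℤ) ≤ a := by positivity
  have h1 : (a : ℤ) * M ≤ X := by exact_mod_cast haM
  have h2 : (a : ℤ) * (q * M1) ≤ X := by exact_mod_cast haM1
  have h2' : (a : ℤ) * q * M1 ≤ X := by
    rw [mul_assoc]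
    exact h2
  have h3 := mq2_many X M M1 q hM hM1 hq a ha h1 h2 f hf n 1
  have h4 : (MQ X (List.replicate n (M, (a : ℤ)) ++ List.replicate 1 (M1, (a : ℤ) * q)) f).re =
      (∑ t ∈ bxS n M, FW M t * TQ X M1 (a * q) 0 (DV (fun i => (a : ℤ) * t i) f)) / (M : ℝ) ^ n := by
    rw [mq2_rep]
    have h5 : ∀ t ∈ bxS n M, ((FW M t : ℝ) : ℂ) *
        MQ X (List.replicate 1 (M1, (a : ℤ) * q)) (DV (fun i => (a : ℤ) * t i) f) =
        ((FW M t * TQ X M1 (a * q) 0 (DV (fun i => (a : ℤ) * t i) f) : ℝ) : ℂ) := by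
      intro t _
      rw [List.replicate_one, MQ_one X M1 hM1 ((a : ℤ) * q) (by positivity) h2' _
        (Bdd_DV hf _).sup]
      push_cast
      rfl
    rw [Finset.sum_congr rfl h5]
    have h6 : (∑ t ∈ bxS n M, ((FW M t * TQ X M1 (a * q) 0 (DV (fun i => (a : ℤ) * t i) f) : ℝ) : ℂ)) /
        (M : ℂ) ^ n =
        (((∑ t ∈ bxS n M, FW M t * TQ X M1 (a * q) 0 (DV (fun i => (a : ℤ) * t i) f)) / (M : ℝ) ^ n : ℝ) : ℂ) := by
      push_cast
      rfl
    rw [h6, Complex.ofReal_re]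
  rw [← h4]
  refine h3.trans ?_
  rw [MQ_NU X (n + 1) M1 hM1 ((a : ℤ) * q) f]
  have h7 : 0 ≤ 32 * X * (q * M1 / M : ℝ) ^ 2 := by positivity
  nlinarith

end Pool.Agent.HUK
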