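import Pool.Agent.Lib.HUK.LL6
import Pool.Agent.Lib.HUK.MQ2

/-!
# Project HUK, chunk LL9 (M/L): the induction hypothesis for many differences `D_z f`, pigeonhole
-/

open Finset

namespace Pool.Agent.HUK

/-- The statement `L(s)`. -/
def LLP (s : ℕ) : Prop := ∃ C1 C2 : ℕ, ∀ δ : ℝ, 0 < δ → δ ≤ 1 / 2 → ∀ X K M q : ℕ, 1 ≤ K → 1 ≤ M → 1 ≤ q →
    (∀ n : ℕ, 1 ≤ n → n ≤ X → (n.divisors.card : ℝ) ≤ 1 / δ) → (1 / δ) ^ C2 * (K : ℝ) ^ (2 ^ s) ≤ X →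
    δ * X ≤ q * K * M → 4 * q * K * M ≤ X → (q : ℝ) ≤ 1 / δ → ∀ f : ℤ → ℂ, Bdd X f →
    δ * (K * X) ≤ ∑ b ∈ Ioc K (2 * K), NU X s M (b * q) f →
    ∃ q' : ℕ, 1 ≤ q' ∧ (q' : ℝ) ≤ (1 / δ) ^ C1 ∧ 4 * q' * ⌊δ ^ C2 * X⌋₊ ≤ X ∧ 1 ≤ ⌊δ ^ C2 * X⌋₊ ∧
      δ ^ C2 * X ≤ NU X s ⌊δ ^ C2 * X⌋₊ q' f

/-- Weighted pigeonhole: `R = (last entry)`. If the average of `θ(t) ≤ A` with weights `fw R t` (total `R`) is `≥ η A`, then the set of the `t`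
with `θ(t) ≥ η A / 2` has weight `≥ η R / 2`. -/
theorem LL9_pop (R : ℕ) (hR : 1 ≤ R) (A η : ℝ) (hA : 0 < A) (θ : ℤ → ℝ) (hθ : ∀ t, θ t ≤ A)
    (h : η * A * R ≤ ∑ t ∈ Ioo (-(R : ℤ)) R, fw R t * θ t) :
    η * R / 2 ≤ ∑ t ∈ (Ioo (-(R : ℤ)) R).filter (fun t => η * A / 2 ≤ θ t), fw R t := by
  have hR0 : (0 : ℝ) < R := by exact_mod_cast hR
  rcases lt_or_ge η 0 with hη | hη
  · have h1 : η * R / 2 ≤ 0 := by
      have : η * R ≤ 0 := mul_nonpos_of_nonpos_of_nonneg hη.le hR0.le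
      linarith
    exact h1.trans (sum_nonneg fun t _ => mq1_fw_nonneg R t)
  · rw [← sum_filter_add_sum_filter_not (Ioo (-(R : ℤ)) R) (fun t => η * A / 2 ≤ θ t)] at h
    have h1 : ∑ t ∈ (Ioo (-(R : ℤ)) R).filter (fun t => η * A / 2 ≤ θ t), fw R t * θ t ≤
        (∑ t ∈ (Ioo (-(R : ℤ)) R).filter (fun t => η * A / 2 ≤ θ t), fw R t) * A := by
      rw [sum_mul]
      exact sum_le_sum fun t _ => mul_le_mul_of_nonneg_left (hθ t) (mq1_fw_nonneg R t)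
    have h2 : ∑ t ∈ (Ioo (-(R : ℤ)) R).filter (fun t => ¬ η * A / 2 ≤ θ t), fw R t * θ t ≤
        (∑ t ∈ (Ioo (-(R : ℤ)) R).filter (fun t => ¬ η * A / 2 ≤ θ t), fw R t) * (η * A / 2) := by
      rw [sum_mul]
      refine sum_le_sum fun t ht => mul_le_mul_of_nonneg_left ?_ (mq1_fw_nonneg R t)
      rw [mem_filter] at ht
      exact (lt_of_not_ge ht.2).le
    have h3 : ∑ t ∈ (Ioo (-(R : ℤ)) R).filter (fun t => ¬ η * A / 2 ≤ θ t), fw R t ≤ R := by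
      rw [← mq1_fw_sum R hR]
      exact sum_le_sum_of_subset_of_nonneg (filter_subset _ _) fun t _ _ => mq1_fw_nonneg R t
    have h4 : (∑ t ∈ (Ioo (-(R : ℤ)) R).filter (fun t => ¬ η * A / 2 ≤ θ t), fw R t) * (η * A / 2) ≤ R * (η * A / 2) :=
      mul_le_mul_of_nonneg_right h3 (by positivity)
    have h5 : (η * R / 2) * A ≤ (∑ t ∈ (Ioo (-(R : ℤ)) R).filter (fun t => η * A / 2 ≤ θ t), fw R t) * A := by
      have : η * A * R = (η * R / 2) * A + R * (η * A / 2) := by ring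
      linarith
    exact le_of_mul_le_mul_right h5 hA

/-- trivial bound -/
theorem ll9_NU_le (X s M : ℕ) (hM : 1 ≤ M) (d : ℤ) (f : ℤ → ℂ) (hf : Bdd X f) : NU X s M d f ≤ 2 * X := by
  rw [← MQ_NU X s M hM d f]
  refine (Complex.re_le_norm _).trans (MQ_le X _ ?_ f hf)
  intro p hp
  rw [List.eq_of_mem_replicate hp]
  exact hM

/-- the first entry as an average of `NU` -/
theorem ll9_cons (X s H R : ℕ) (hH : 1 ≤ H) (d e : ℤ) (f : ℤ → ℂ) :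
    (MQ X ((R, e) :: List.replicate s (H, d)) f).re =
      (∑ t ∈ Ioo (-(R : ℤ)) R, fw R t * NU X s H d (DD (e * t) f)) / R := by
  rw [mq2_cons_re]
  congr 1
  refine sum_congr rfl fun t _ => ?_
  rw [MQ_NU X s H hH d]

/-- divisor bound: products of pairs -/
theorem ll9_div (X s K H q : ℕ) (D : ℝ) (hs : 1 ≤ s) (hH : 1 ≤ H) (hK : 4 * K ^ 2 ≤ X)
    (hD : ∀ n : ℕ, 1 ≤ n → n ≤ X → (n.divisors.card : ℝ) ≤ D) (hqH : 4 * K ^ 2 * q * H ≤ X) (g : ℤ → ℂ) (hg : Bdd X g) :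
    ∑ p ∈ Ioc K (2 * K) ×ˢ Ioc K (2 * K), NU X s H ((p.1 * p.2 * q : ℕ) : ℤ) g ≤
      D * (∑ n ∈ Ioc (K ^ 2) (2 * K ^ 2), NU X s H (n * q) g + ∑ n ∈ (Ioc (2 * K ^ 2) (2 * (2 * K ^ 2)) : Finset ℕ), NU X s H (n * q) g) := by
  have h0 : ∀ n : ℕ, n ≤ 4 * K ^ 2 → 0 ≤ NU X s H ((n : ℤ) * q) g := by
    intro n hn
    refine NU_nonneg X s H hs hH _ (by positivity) ?_ g hg.sup
    have h1 : n * q * H ≤ X := (Nat.mul_le_mul_right H (Nat.mul_le_mul_right q hn)).trans hqH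
    exact_mod_cast h1
  have h1 := LL6_div K D (fun n h1 h2 => hD n h1 (h2.trans hK)) (fun n => max 0 (NU X s H ((n : ℤ) * q) g)) (fun n => le_max_left _ _)
  have h2 : ∀ n ∈ Ioc (K ^ 2) (2 * K ^ 2), max 0 (NU X s H ((n : ℤ) * q) g) = NU X s H (n * q) g := by
    intro n hn
    rw [mem_Ioc] at hn
    exact max_eq_right (h0 n (by omega))
  have h3 : ∀ n ∈ (Ioc (2 * K ^ 2) (2 * (2 * K ^ 2)) : Finset ℕ), max 0 (NU X s H ((n : ℤ) * q) g) = NU X s H (n * q) g := by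
    intro n hn
    rw [mem_Ioc] at hn
    exact max_eq_right (h0 n (by omega))
  rw [sum_congr rfl h2, sum_congr rfl h3] at h1
  refine le_trans (sum_le_sum fun p _ => ?_) h1
  have : ((p.1 * p.2 * q : ℕ) : ℤ) = ((p.1 * p.2 : ℕ) : ℤ) * q := by push_cast; ring
  rw [this]
  exact le_max_right _ _

/-- one range of `n` -/
theorem ll9_one (s : ℕ) (hs : 1 ≤ s) (C1 C2 : ℕ)
    (hL : ∀ δ : ℝ, 0 < δ → δ ≤ 1 / 2 → ∀ X K M q : ℕ, 1 ≤ K → 1 ≤ M → 1 ≤ q →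
      (∀ n : ℕ, 1 ≤ n → n ≤ X → (n.divisors.card : ℝ) ≤ 1 / δ) → (1 / δ) ^ C2 * (K : ℝ) ^ (2 ^ s) ≤ X →
      δ * X ≤ q * K * M → 4 * q * K * M ≤ X → (q : ℝ) ≤ 1 / δ → ∀ f : ℤ → ℂ, Bdd X f →
      δ * (K * X) ≤ ∑ b ∈ Ioc K (2 * K), NU X s M (b * q) f →
      ∃ q' : ℕ, 1 ≤ q' ∧ (q' : ℝ) ≤ (1 / δ) ^ C1 ∧ 4 * q' * ⌊δ ^ C2 * X⌋₊ ≤ X ∧ 1 ≤ ⌊δ ^ C2 * X⌋₊ ∧
        δ ^ C2 * X ≤ NU X s ⌊δ ^ C2 * X⌋₊ q' f)
    (δ : ℝ) (hδ : 0 < δ) (hδ' : δ ≤ 1 / 2) (X K H q R : ℕ) (hX : 1 ≤ X) (hK : 1 ≤ K) (hH : 1 ≤ H) (hq : 1 ≤ q) (hR : 1 ≤ R)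
    (hdiv : ∀ n : ℕ, 1 ≤ n → n ≤ X → (n.divisors.card : ℝ) ≤ 1 / δ) (hKX : (1 / δ) ^ C2 * (K : ℝ) ^ (2 ^ s) ≤ X)
    (h1 : δ * X ≤ q * K * H) (h2 : 4 * q * K * H ≤ X) (hqδ : (q : ℝ) ≤ 1 / δ) (e : ℤ) (f : ℤ → ℂ) (hf : Bdd X f)
    (hm : (2 * δ) * (2 * K * X) * R ≤ ∑ t ∈ Ioo (-(R : ℤ)) R, fw R t * ∑ b ∈ Ioc K (2 * K), NU X s H (b * q) (DD (e * t) f)) :
    ∃ q' : ℕ, 1 ≤ q' ∧ (q' : ℝ) ≤ (1 / δ) ^ C1 ∧ 4 * q' * ⌊δ ^ C2 * X⌋₊ ≤ X ∧ 1 ≤ ⌊δ ^ C2 * X⌋₊ ∧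
      δ ^ (C1 + C2 + 1) * X ≤ (MQ X ((R, e) :: List.replicate s (⌊δ ^ C2 * X⌋₊, (q' : ℤ))) f).re := by
  have hR0 : (0 : ℝ) < R := by exact_mod_cast hR
  have hX0 : (0 : ℝ) < X := by exact_mod_cast hX
  have hK0 : (0 : ℝ) < K := by exact_mod_cast hK
  -- popular differences
  have hpop := LL9_pop R hR (2 * K * X) (2 * δ) (by positivity) (fun t => ∑ b ∈ Ioc K (2 * K), NU X s H (b * q) (DD (e * t) f))
    (by
      intro t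
      refine (sum_le_card_nsmul _ _ (2 * (X : ℝ)) fun b _ => ll9_NU_le X s H hH _ _ (Bdd_DD hf _)).trans ?_
      rw [Nat.card_Ioc, nsmul_eq_mul]
      have : 2 * K - K = K := by omega
      rw [this]
      exact le_of_eq (by ring)) hm
  set G := (Ioo (-(R : ℤ)) R).filter
    (fun t => 2 * δ * (2 * K * X) / 2 ≤ ∑ b ∈ Ioc K (2 * K), NU X s H (b * q) (DD (e * t) f)) with hG
  have hpop' : δ * R ≤ ∑ t ∈ G, fw R t := by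
    refine le_trans (le_of_eq ?_) hpop
    ring
  -- the value `q'` for every popular difference
  have hex : ∀ t ∈ G, ∃ q' : ℕ, 1 ≤ q' ∧ (q' : ℝ) ≤ (1 / δ) ^ C1 ∧ 4 * q' * ⌊δ ^ C2 * X⌋₊ ≤ X ∧ 1 ≤ ⌊δ ^ C2 * X⌋₊ ∧
      δ ^ C2 * X ≤ NU X s ⌊δ ^ C2 * X⌋₊ q' (DD (e * t) f) := by
    intro t ht
    rw [hG, mem_filter] at ht
    refine hL δ hδ hδ' X K H q hK hH hq hdiv hKX h1 h2 hqδ (DD (e * t) f) (Bdd_DD hf _) (le_trans ?_ ht.2)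
    have : (0 : ℝ) ≤ δ * (K * X) := by positivity
    have h3 : 2 * δ * (2 * K * X) / 2 = 2 * (δ * (K * X)) := by ring
    rw [h3]
    linarith
  choose! Q hQ using hex
  have hδ1 : (1 : ℝ) ≤ 1 / δ := by
    rw [le_div_iff₀ hδ]
    linarith
  have hN1 : 1 ≤ ⌊(1 / δ) ^ C1⌋₊ := Nat.le_floor (by exact_mod_cast one_le_pow₀ hδ1)
  have hmaps : ∀ t ∈ G, Q t ∈ Icc 1 ⌊(1 / δ) ^ C1⌋₊ := by
    intro t ht
    rw [mem_Icc]
    exact ⟨(hQ t ht).1, Nat.le_floor (hQ t ht).2.1⟩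
  obtain ⟨q', hq', hfib⟩ := exists_le_sum_fiber_of_maps_to_of_nsmul_le_sum (w := fun t => fw R t) (b := δ ^ (C1 + 1) * (R : ℝ)) hmaps
    ⟨1, by rw [mem_Icc]; exact ⟨le_rfl, hN1⟩⟩ (by
      refine le_trans ?_ hpop'
      rw [Nat.card_Icc, Nat.add_sub_cancel, nsmul_eq_mul]
      have h3 : ((⌊(1 / δ) ^ C1⌋₊ : ℕ) : ℝ) ≤ (1 / δ) ^ C1 := Nat.floor_le (by positivity)
      calc ((⌊(1 / δ) ^ C1⌋₊ : ℕ) : ℝ) * (δ ^ (C1 + 1) * (R : ℝ)) ≤ (1 / δ) ^ C1 * (δ ^ (C1 + 1) * (R : ℝ)) :=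
            mul_le_mul_of_nonneg_right h3 (by positivity)
        _ = δ * R := by
            rw [one_div, inv_pow, pow_succ]
            field_simp)
  -- a representative
  have hpos : 0 < δ ^ (C1 + 1) * (R : ℝ) := by positivity
  have hne : ∃ t0, t0 ∈ G ∧ Q t0 = q' := by
    by_contra hcon
    push Not at hcon
    have : G.filter (fun x => Q x = q') = ∅ := by
      rw [filter_eq_empty_iff]
      intro x hx
      exact hcon x hx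
    rw [this, sum_empty] at hfib
    linarith
  obtain ⟨t0, ht0, hQ0⟩ := hne
  obtain ⟨ha, hb, hc, hd, _⟩ := hQ t0 ht0
  rw [hQ0] at ha hb hc
  refine ⟨q', ha, hb, hc, hd, ?_⟩
  rw [ll9_cons X s _ R hd, le_div_iff₀ hR0]
  have hnn : ∀ t : ℤ, 0 ≤ NU X s ⌊δ ^ C2 * X⌋₊ (q' : ℤ) (DD (e * t) f) := by
    intro t
    refine NU_nonneg X s _ hs hd _ (by positivity) ?_ _ (Bdd_DD hf _).sup
    have : q' * ⌊δ ^ C2 * X⌋₊ ≤ X := by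
      refine le_trans ?_ hc
      rw [mul_assoc]
      exact Nat.le_mul_of_pos_left _ (by norm_num)
    exact_mod_cast this
  have hsub : ∑ t ∈ G.filter (fun x => Q x = q'), fw R t * NU X s ⌊δ ^ C2 * X⌋₊ (q' : ℤ) (DD (e * t) f) ≤
      ∑ t ∈ Ioo (-(R : ℤ)) R, fw R t * NU X s ⌊δ ^ C2 * X⌋₊ (q' : ℤ) (DD (e * t) f) :=
    sum_le_sum_of_subset_of_nonneg ((filter_subset _ _).trans (filter_subset _ _))
      fun t _ _ => mul_nonneg (mq1_fw_nonneg R t) (hnn t)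
  refine le_trans ?_ hsub
  have hlow : (∑ t ∈ G.filter (fun x => Q x = q'), fw R t) * (δ ^ C2 * X) ≤
      ∑ t ∈ G.filter (fun x => Q x = q'), fw R t * NU X s ⌊δ ^ C2 * X⌋₊ (q' : ℤ) (DD (e * t) f) := by
    rw [sum_mul]
    refine sum_le_sum fun t ht => mul_le_mul_of_nonneg_left ?_ (mq1_fw_nonneg R t)
    rw [mem_filter] at ht
    have := (hQ t ht.1).2.2.2.2
    rw [ht.2] at this
    exact this
  refine le_trans ?_ hlow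
  calc δ ^ (C1 + C2 + 1) * X * R = (δ ^ (C1 + 1) * R) * (δ ^ C2 * X) := by ring
    _ ≤ _ := mul_le_mul_of_nonneg_right hfib (by positivity)

/-- **Many differences.** `d = q γ`, `g_t = DD (d t) f` (bounded, `Bdd_DD`). The hypothesis says
`δ^C K² X R ≤ ∑_t fw R t ∑_p NU X s H (p.1 p.2 q) g_t` (`MQ`, `mq2_cons_re`, `MQ_NU`); `LL6_div` with `D = 1/δ` (`4K² ≤ X`, `NU ≥ 0` by `NU_nonneg`:
`n q H ≤ 4 K² q H ≤ X`; for larger `n` use `Φ n = max 0 (NU ..)`): at most `(1/δ) (Θ_1(t) + Θ_2(t))`, `Θ_j(t) = ∑_{n ∈ (K_j, 2K_j]} NU X s H (n q) g_t`,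
`K_1 = K²`, `K_2 = 2K²`, `0 ≤ Θ_j ≤ 2 K_j X`. One `j` has `∑_t fw Θ_j ≥ δ^(C+2) K² X R ≥ δ^(C+3) (2 K_j X) R / 2 ..`; `LL9_pop`: for `t` of weight
`≥ δ^(C+5) R` one has `Θ_j(t) ≥ δ' K_j X`, `δ' = δ^(C+5)`. `L(s)` for `δ'`, `K_j`, `H`, `q`, `g_t` (`δ' X ≤ q K_j H` because
`H ≥ δ^C M / (2K)`, `4 q K_j H ≤ 8 q K² δ^C M / K ≤ X` if `C ≥ 1`): `q'(t) ≤ (1/δ')^C1`. The most frequent value `q'` has weight `≥ δ^(C+5) δ'^C1 R`, and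
`NU X s R2 q' g_t ≥ 0` for all `t`, so `MQ X ((R, d) :: replicate s (R2, q')) f ≥ δ^(C+5) δ'^C1 δ'^C2 X`, `R2 = ⌊δ'^C2 X⌋ = ⌊δ^D2 X⌋`. -/
theorem LL9_many (s : ℕ) (hs : 1 ≤ s) (hL : LLP s) (C : ℕ) (hC : 1 ≤ C) : ∃ D1 D2 : ℕ, ∀ δ : ℝ, 0 < δ → δ ≤ 1 / 2 →
    ∀ X K M q γ R : ℕ, 1 ≤ K → 1 ≤ M → 1 ≤ q → 1 ≤ γ → 1 ≤ R →
    (∀ n : ℕ, 1 ≤ n → n ≤ X → (n.divisors.card : ℝ) ≤ 1 / δ) → (1 / δ) ^ D1 * (K : ℝ) ^ (2 ^ (s + 1)) ≤ X →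
    δ * X ≤ q * K * M → 4 * q * K * M ≤ X → (q : ℝ) ≤ 1 / δ → q * γ * R ≤ X → 1 ≤ ⌊δ ^ C * M / K⌋₊ →
    ∀ f : ℤ → ℂ, Bdd X f →
    δ ^ C * ((K : ℝ) ^ 2 * X) ≤ ∑ p ∈ Ioc K (2 * K) ×ˢ Ioc K (2 * K),
        (MQ X ((R, ((q * γ : ℕ) : ℤ)) :: List.replicate s (⌊δ ^ C * M / K⌋₊, ((p.1 * p.2 * q : ℕ) : ℤ))) f).re →
    ∃ q' : ℕ, 1 ≤ q' ∧ (q' : ℝ) ≤ (1 / δ) ^ D1 ∧ 4 * q' * ⌊δ ^ D2 * X⌋₊ ≤ X ∧ 1 ≤ ⌊δ ^ D2 * X⌋₊ ∧
      δ ^ D1 * X ≤ (MQ X ((R, ((q * γ : ℕ) : ℤ)) :: List.replicate s (⌊δ ^ D2 * X⌋₊, (q' : ℤ))) f).re := by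
  obtain ⟨C1, C2, hL⟩ := hL
  refine ⟨(C + 5) * (C1 + C2 + 1) + 2 ^ s + 2, (C + 5) * C2, ?_⟩
  intro δ hδ hδ2 X K M q γ R hK hM hq hγ hR hdiv hKX h1 h2 hqδ hqR hH f hf hmain
  set D1 := (C + 5) * (C1 + C2 + 1) + 2 ^ s + 2 with hD1
  set H := ⌊δ ^ C * M / K⌋₊ with hHdef
  have hps : 1 ≤ 2 ^ s := Nat.one_le_two_pow
  have hK0 : (0 : ℝ) < K := by exact_mod_cast hK
  have hK1 : (1 : ℝ) ≤ K := by exact_mod_cast hK
  have hM0 : (0 : ℝ) < M := by exact_mod_cast hM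
  have hq0 : (0 : ℝ) < q := by exact_mod_cast hq
  have hR0 : (0 : ℝ) < R := by exact_mod_cast hR
  have hi2 : (2 : ℝ) ≤ 1 / δ := by
    rw [le_div_iff₀ hδ]
    linarith
  have hi1 : (1 : ℝ) ≤ 1 / δ := by linarith
  have hi0 : (0 : ℝ) < 1 / δ := by linarith
  have hδ1 : δ ≤ 1 := by linarith
  have hX1 : (1 : ℝ) ≤ X := by
    refine le_trans ?_ hKX
    exact one_le_mul_of_one_le_of_one_le (one_le_pow₀ hi1) (one_le_pow₀ hK1)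
  have hX0 : (0 : ℝ) < X := by linarith
  have hXn : 1 ≤ X := by exact_mod_cast hX1
  -- `4 K² ≤ X`
  have h4K : 4 * K ^ 2 ≤ X := by
    have h3 : (4 : ℝ) * (K : ℝ) ^ 2 ≤ X := by
      refine le_trans ?_ hKX
      refine mul_le_mul ?_ ?_ (by positivity) (by positivity)
      · calc (4 : ℝ) = 2 ^ 2 := by norm_num
          _ ≤ (1 / δ) ^ 2 := pow_le_pow_left₀ (by norm_num) hi2 2
          _ ≤ (1 / δ) ^ D1 := pow_le_pow_right₀ hi1 (by omega)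
      · refine pow_le_pow_right₀ hK1 ?_
        rw [pow_succ]
        have := Nat.one_le_two_pow (n := s)
        omega
    exact_mod_cast h3
  have hδC : δ ^ C ≤ δ := by
    calc δ ^ C ≤ δ ^ 1 := pow_le_pow_of_le_one hδ.le hδ1 hC
      _ = δ := pow_one δ
  have hδC0 : 0 < δ ^ C := by positivity
  have hHle : (H : ℝ) ≤ δ ^ C * M / K := Nat.floor_le (by positivity)
  have hHge : δ ^ C * M / K / 2 ≤ H := by
    have h3 : δ ^ C * M / K < H + 1 := Nat.lt_floor_add_one _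
    have h4 : (1 : ℝ) ≤ H := by exact_mod_cast hH
    linarith
  have h2' : (4 : ℝ) * q * K * M ≤ X := by exact_mod_cast h2
  -- `8 K² q H ≤ X`
  have h8 : (8 : ℝ) * K ^ 2 * q * H ≤ X := by
    calc (8 : ℝ) * K ^ 2 * q * H ≤ 8 * K ^ 2 * q * (δ ^ C * M / K) := mul_le_mul_of_nonneg_left hHle (by positivity)
      _ = 2 * δ ^ C * (4 * q * K * M) := by
          field_simp
          ring
      _ ≤ 2 * δ ^ C * X := mul_le_mul_of_nonneg_left h2' (by positivity)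
      _ ≤ 1 * X := mul_le_mul_of_nonneg_right (by linarith) hX0.le
      _ = X := one_mul _
  have h8n : 8 * K ^ 2 * q * H ≤ X := by exact_mod_cast h8
  -- the sum over the pairs
  have hsum : δ ^ (C + 1) * ((K : ℝ) ^ 2 * X) * R ≤ (∑ t ∈ Ioo (-(R : ℤ)) R, fw R t *
        ∑ n ∈ Ioc (K ^ 2) (2 * K ^ 2), NU X s H (n * q) (DD (((q * γ : ℕ) : ℤ) * t) f)) +
      ∑ t ∈ Ioo (-(R : ℤ)) R, fw R t *
        ∑ n ∈ (Ioc (2 * K ^ 2) (2 * (2 * K ^ 2)) : Finset ℕ), NU X s H (n * q) (DD (((q * γ : ℕ) : ℤ) * t) f) := by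
    have h3 : δ ^ C * ((K : ℝ) ^ 2 * X) * R ≤ ∑ t ∈ Ioo (-(R : ℤ)) R, fw R t *
        ∑ p ∈ Ioc K (2 * K) ×ˢ Ioc K (2 * K), NU X s H ((p.1 * p.2 * q : ℕ) : ℤ) (DD (((q * γ : ℕ) : ℤ) * t) f) := by
      rw [← le_div_iff₀ hR0]
      refine hmain.trans (le_of_eq ?_)
      rw [sum_congr rfl fun p _ => ll9_cons X s H R hH ((p.1 * p.2 * q : ℕ) : ℤ) ((q * γ : ℕ) : ℤ) f, ← sum_div, sum_comm]
      congr 1
      refine sum_congr rfl fun t _ => ?_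
      rw [mul_sum]
    have h5 : ∀ t ∈ Ioo (-(R : ℤ)) R, fw R t *
        ∑ p ∈ Ioc K (2 * K) ×ˢ Ioc K (2 * K), NU X s H ((p.1 * p.2 * q : ℕ) : ℤ) (DD (((q * γ : ℕ) : ℤ) * t) f) ≤
        (1 / δ) * (fw R t * ∑ n ∈ Ioc (K ^ 2) (2 * K ^ 2), NU X s H (n * q) (DD (((q * γ : ℕ) : ℤ) * t) f) +
          fw R t * ∑ n ∈ (Ioc (2 * K ^ 2) (2 * (2 * K ^ 2)) : Finset ℕ), NU X s H (n * q) (DD (((q * γ : ℕ) : ℤ) * t) f)) := by
      intro t _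
      have h6 := ll9_div X s K H q (1 / δ) hs hH h4K hdiv
        (le_trans (Nat.mul_le_mul_right H (Nat.mul_le_mul_right q (Nat.mul_le_mul_right (K ^ 2) (by norm_num)))) h8n)
        (DD (((q * γ : ℕ) : ℤ) * t) f) (Bdd_DD hf _)
      refine (mul_le_mul_of_nonneg_left h6 (mq1_fw_nonneg R t)).trans (le_of_eq ?_)
      ring
    have h7 := h3.trans (sum_le_sum h5)
    rw [← mul_sum, sum_add_distrib] at h7
    have h9 := mul_le_mul_of_nonneg_left h7 hδ.le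
    rw [← mul_assoc δ (1 / δ), mul_one_div_cancel hδ.ne', one_mul] at h9
    refine le_trans (le_of_eq ?_) h9
    ring
  -- `δ' = δ^(C+5)`
  set δ' := δ ^ (C + 5) with hδ'
  have hδ'0 : 0 < δ' := by positivity
  have hδ'1 : δ' ≤ δ := by
    calc δ' ≤ δ ^ 1 := pow_le_pow_of_le_one hδ.le hδ1 (by omega)
      _ = δ := pow_one δ
  have hinv : (1 / δ') = (1 / δ) ^ (C + 5) := by
    rw [hδ', one_div, one_div, inv_pow]
  have hii : 1 / δ ≤ 1 / δ' := one_div_le_one_div_of_le hδ'0 hδ'1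
  have hp2 : δ' ^ C2 = δ ^ ((C + 5) * C2) := by rw [hδ', ← pow_mul]
  have hkey : ∀ Kj : ℕ, K ^ 2 ≤ Kj → Kj ≤ 2 * K ^ 2 →
      (2 * δ') * (2 * Kj * X) * R ≤ ∑ t ∈ Ioo (-(R : ℤ)) R, fw R t *
        ∑ n ∈ Ioc Kj (2 * Kj), NU X s H (n * q) (DD (((q * γ : ℕ) : ℤ) * t) f) →
      ∃ q' : ℕ, 1 ≤ q' ∧ (q' : ℝ) ≤ (1 / δ) ^ D1 ∧ 4 * q' * ⌊δ ^ ((C + 5) * C2) * X⌋₊ ≤ X ∧ 1 ≤ ⌊δ ^ ((C + 5) * C2) * X⌋₊ ∧
      δ ^ D1 * X ≤ (MQ X ((R, ((q * γ : ℕ) : ℤ)) :: List.replicate s (⌊δ ^ ((C + 5) * C2) * X⌋₊, (q' : ℤ))) f).re := by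
    intro Kj hKj1 hKj2 hm
    have hKjr1 : (K : ℝ) ^ 2 ≤ Kj := by exact_mod_cast hKj1
    have hKjr2 : (Kj : ℝ) ≤ 2 * (K : ℝ) ^ 2 := by exact_mod_cast hKj2
    have hKjp : 1 ≤ Kj := le_trans (Nat.one_le_pow _ _ hK) hKj1
    obtain ⟨q', e1, e2, e3, e4, e5⟩ := ll9_one s hs C1 C2 hL δ' hδ'0 (hδ'1.trans hδ2) X Kj H q R hXn hKjp hH hq hR
      (fun n n1 n2 => (hdiv n n1 n2).trans hii)
      (by
        refine le_trans ?_ hKX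
        have a1 : (Kj : ℝ) ^ (2 ^ s) ≤ 2 ^ (2 ^ s) * (K : ℝ) ^ (2 ^ (s + 1)) := by
          calc (Kj : ℝ) ^ (2 ^ s) ≤ (2 * (K : ℝ) ^ 2) ^ (2 ^ s) := pow_le_pow_left₀ (by positivity) hKjr2 _
            _ = 2 ^ (2 ^ s) * (K : ℝ) ^ (2 ^ (s + 1)) := by
                rw [mul_pow, ← pow_mul, pow_succ, mul_comm 2 (2 ^ s)]
        have a2 : (2 : ℝ) ^ (2 ^ s) ≤ (1 / δ) ^ (2 ^ s) := pow_le_pow_left₀ (by norm_num) hi2 _
        calc (1 / δ') ^ C2 * (Kj : ℝ) ^ (2 ^ s) ≤ (1 / δ') ^ C2 * ((1 / δ) ^ (2 ^ s) * (K : ℝ) ^ (2 ^ (s + 1))) := by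
              refine mul_le_mul_of_nonneg_left (a1.trans ?_) (by positivity)
              exact mul_le_mul_of_nonneg_right a2 (by positivity)
          _ = (1 / δ) ^ ((C + 5) * C2 + 2 ^ s) * (K : ℝ) ^ (2 ^ (s + 1)) := by
              rw [hinv, ← pow_mul, pow_add (1 / δ) ((C + 5) * C2) (2 ^ s), mul_assoc]
          _ ≤ (1 / δ) ^ D1 * (K : ℝ) ^ (2 ^ (s + 1)) := by
              refine mul_le_mul_of_nonneg_right (pow_le_pow_right₀ hi1 ?_) (by positivity)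
              rw [hD1]
              have : (C + 5) * C2 ≤ (C + 5) * (C1 + C2 + 1) := Nat.mul_le_mul_left _ (by omega)
              omega)
      (by
        calc δ' * X ≤ δ ^ (C + 2) * X := by
              refine mul_le_mul_of_nonneg_right ?_ hX0.le
              exact pow_le_pow_of_le_one hδ.le hδ1 (by omega)
          _ = (δ * δ ^ C) * (δ * X) := by ring
          _ ≤ (1 / 2 * δ ^ C) * (q * K * M) := by
              refine mul_le_mul ?_ h1 (by positivity) (by positivity)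
              exact mul_le_mul_of_nonneg_right hδ2 hδC0.le
          _ = q * (K : ℝ) ^ 2 * (δ ^ C * M / K / 2) := by
              field_simp
          _ ≤ q * Kj * H := by
              refine mul_le_mul (mul_le_mul_of_nonneg_left hKjr1 hq0.le) hHge (by positivity) (by positivity))
      (by
        calc 4 * q * Kj * H ≤ 4 * q * (2 * K ^ 2) * H :=
              Nat.mul_le_mul_right H (Nat.mul_le_mul_left (4 * q) hKj2)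
          _ = 8 * K ^ 2 * q * H := by ring
          _ ≤ X := h8n)
      (hqδ.trans hii) ((q * γ : ℕ) : ℤ) f hf hm
    rw [hp2] at e3 e4 e5
    refine ⟨q', e1, ?_, e3, e4, le_trans ?_ e5⟩
    · refine e2.trans ?_
      rw [hinv, ← pow_mul]
      refine pow_le_pow_right₀ hi1 ?_
      rw [hD1]
      have : (C + 5) * C1 ≤ (C + 5) * (C1 + C2 + 1) := Nat.mul_le_mul_left _ (by omega)
      omega
    · refine mul_le_mul_of_nonneg_right ?_ hX0.le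
      rw [hδ', ← pow_mul]
      refine pow_le_pow_of_le_one hδ.le hδ1 ?_
      rw [hD1]
      omega
  -- one of the two ranges
  have hA : (4 * δ') ≤ δ ^ (C + 1) / 4 := by
    have a1 : δ ^ 4 ≤ (1 / 2 : ℝ) ^ 4 := pow_le_pow_left₀ hδ.le hδ2 4
    calc 4 * δ' = 4 * (δ ^ (C + 1) * δ ^ 4) := by rw [hδ']; ring
      _ ≤ 4 * (δ ^ (C + 1) * (1 / 2) ^ 4) := by
          refine mul_le_mul_of_nonneg_left ?_ (by norm_num)
          exact mul_le_mul_of_nonneg_left a1 (by positivity)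
      _ = δ ^ (C + 1) / 4 := by ring
  have hKXR : (0 : ℝ) < (K : ℝ) ^ 2 * X * R := by positivity
  have hlow : (4 * δ') * ((K : ℝ) ^ 2 * X * R) ≤ δ ^ (C + 1) * ((K : ℝ) ^ 2 * X) * R / 4 := by
    refine (mul_le_mul_of_nonneg_right hA hKXR.le).trans (le_of_eq ?_)
    ring
  have hpos' : 0 < δ ^ (C + 1) * ((K : ℝ) ^ 2 * X) * R := by positivity
  rcases le_total (δ ^ (C + 1) * ((K : ℝ) ^ 2 * X) * R / 2) (∑ t ∈ Ioo (-(R : ℤ)) R, fw R t *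
        ∑ n ∈ Ioc (K ^ 2) (2 * K ^ 2), NU X s H (n * q) (DD (((q * γ : ℕ) : ℤ) * t) f)) with hc | hc
  · refine hkey (K ^ 2) le_rfl (by omega) (le_trans ?_ hc)
    have : (2 * δ') * (2 * ((K ^ 2 : ℕ) : ℝ) * X) * R = (4 * δ') * ((K : ℝ) ^ 2 * X * R) := by
      push_cast
      ring
    rw [this]
    linarith
  · have hc2 : δ ^ (C + 1) * ((K : ℝ) ^ 2 * X) * R / 2 ≤ ∑ t ∈ Ioo (-(R : ℤ)) R, fw R t *
        ∑ n ∈ (Ioc (2 * K ^ 2) (2 * (2 * K ^ 2)) : Finset ℕ), NU X s H (n * q) (DD (((q * γ : ℕ) : ℤ) * t) f) := by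
      linarith
    refine hkey (2 * K ^ 2) (by omega) le_rfl (le_trans ?_ hc2)
    have : (2 * δ') * (2 * ((2 * K ^ 2 : ℕ) : ℝ) * X) * R = 2 * ((4 * δ') * ((K : ℝ) ^ 2 * X * R)) := by
      push_cast
      ring
    rw [this]
    linarith

end Pool.Agent.HUK
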