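import Pool.Agent.Lib.HUK.LL8
import Pool.Agent.Lib.HUK.LL9

/-!
# Project HUK, chunk LL10 (M): the induction
-/

open Finset

namespace Pool.Agent.HUK

/-- From two differences to one: `MQ_change` for the first entry (factor `q'`), then `mq2_many` for the others (factor `d = q γ`, `n = s`,
`m = 1`, `MQ_perm`), `MQ_NU`. `R3 = ⌊δ^E X⌋` with `E` large in terms of `A`. -/
theorem LL10_one (s A : ℕ) : ∃ E : ℕ, A ≤ E ∧ ∀ δ : ℝ, 0 < δ → δ ≤ 1 / 2 → ∀ X d q' R R2 : ℕ, 1 ≤ d → 1 ≤ q' → 1 ≤ R → 1 ≤ R2 →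
    (1 / δ) ^ E ≤ X → (d : ℝ) ≤ (1 / δ) ^ A → (q' : ℝ) ≤ (1 / δ) ^ A → δ ^ A * X ≤ R → δ ^ A * X ≤ R2 → d * R ≤ X → q' * R2 ≤ X →
    ∀ f : ℤ → ℂ, Bdd X f → δ ^ A * X ≤ (MQ X ((R, (d : ℤ)) :: List.replicate s (R2, (q' : ℤ))) f).re →
    4 * (d * q') * ⌊δ ^ E * X⌋₊ ≤ X ∧ 1 ≤ ⌊δ ^ E * X⌋₊ ∧ δ ^ E * X ≤ NU X (s + 1) ⌊δ ^ E * X⌋₊ ((d * q' : ℕ) : ℤ) f := by
  refine ⟨3 * A + s + 7, by omega, ?_⟩
  intro δ hδ hδ2 X d q' R R2 hd hq hR hR2 hX hdA hqA hRA hR2A hdR hqR f hf hmain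
  have hX0 : (0 : ℝ) < X := lt_of_lt_of_le (by positivity) hX
  have hR' : (0 : ℝ) < R := by exact_mod_cast hR
  have hR2' : (0 : ℝ) < R2 := by exact_mod_cast hR2
  have hδ1 : δ ≤ 1 := by linarith
  set E := 3 * A + s + 7 with hE
  have hEX : 1 ≤ δ ^ E * X := by
    calc (1 : ℝ) = δ ^ E * (1 / δ) ^ E := by
          rw [← mul_pow, mul_one_div_cancel hδ.ne', one_pow]
      _ ≤ δ ^ E * X := mul_le_mul_of_nonneg_left hX (by positivity)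
  set R3 := ⌊δ ^ E * X⌋₊ with hR3
  have hR3one : 1 ≤ R3 := Nat.le_floor (by exact_mod_cast hEX)
  have hR3le : (R3 : ℝ) ≤ δ ^ E * X := Nat.floor_le (by positivity)
  set u : ℝ := δ ^ (A + s + 7) with hu
  have hu0 : 0 < u := by positivity
  have hEu : δ ^ E = δ ^ A * δ ^ A * u := by
    rw [hu, ← pow_add, ← pow_add, hE]
    congr 1
    ring
  have hinv : (1 / δ) ^ A * δ ^ A = 1 := by
    rw [← mul_pow, one_div_mul_cancel hδ.ne', one_pow]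
  have k1 : ∀ c : ℕ, (c : ℝ) ≤ (1 / δ) ^ A → (c : ℝ) * R3 ≤ u * (δ ^ A * X) := by
    intro c hc
    calc (c : ℝ) * R3 ≤ (1 / δ) ^ A * (δ ^ E * X) :=
          mul_le_mul hc hR3le (by positivity) (by positivity)
      _ = ((1 / δ) ^ A * δ ^ A) * (u * (δ ^ A * X)) := by
          rw [hEu]
          ring
      _ = u * (δ ^ A * X) := by
          rw [hinv, one_mul]
  have k2 : (q' : ℝ) * R3 / R ≤ u := by
    rw [div_le_iff₀ hR']
    exact (k1 q' hqA).trans (mul_le_mul_of_nonneg_left hRA hu0.le)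
  have k3 : (d : ℝ) * R3 / R2 ≤ u := by
    rw [div_le_iff₀ hR2']
    exact (k1 d hdA).trans (mul_le_mul_of_nonneg_left hR2A hu0.le)
  have hu7 : u ≤ 1 / 4 := by
    have h1 : u ≤ δ ^ 2 := pow_le_pow_of_le_one hδ.le hδ1 (by omega)
    have h2 : δ ^ 2 ≤ (1 / 2) ^ 2 := pow_le_pow_left₀ hδ.le hδ2 2
    calc u ≤ (1 / 2) ^ 2 := h1.trans h2
      _ = 1 / 4 := by norm_num
  have k4 : (d : ℝ) * (q' * R3) ≤ u * X := by
    calc (d : ℝ) * (q' * R3) ≤ (1 / δ) ^ A * (u * (δ ^ A * X)) :=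
          mul_le_mul hdA (k1 q' hqA) (by positivity) (by positivity)
      _ = ((1 / δ) ^ A * δ ^ A) * (u * X) := by ring
      _ = u * X := by rw [hinv, one_mul]
  have k5 : 4 * (d * q') * R3 ≤ X := by
    have h1 : ((4 * (d * q') * R3 : ℕ) : ℝ) ≤ X := by
      push_cast
      have h2 : u * X ≤ 1 / 4 * X := mul_le_mul_of_nonneg_right hu7 hX0.le
      linarith
    exact_mod_cast h1
  have k6 : d * (q' * R3) ≤ X := by nlinarith
  have k7 : q' * (d * R3) ≤ X := by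
    calc q' * (d * R3) = d * (q' * R3) := by ring
      _ ≤ X := k6
  refine ⟨k5, hR3one, ?_⟩
  have h1 := MQ_change X R R3 q' hR hR3one hq (d : ℤ) (by positivity) (by exact_mod_cast hdR)
    (by exact_mod_cast k6) (List.replicate s (R2, (q' : ℤ))) (by
      intro p hp
      rw [(List.mem_replicate.1 hp).2]
      exact hR2) f hf
  have h2 : ((R3, (d : ℤ) * q') :: List.replicate s (R2, (q' : ℤ))).Perm
      (List.replicate s (R2, (q' : ℤ)) ++ List.replicate 1 (R3, (q' : ℤ) * d)) := by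
    rw [mul_comm (d : ℤ) q', List.replicate_one]
    exact (List.perm_append_singleton _ _).symm
  rw [MQ_perm X h2 f] at h1
  have h3 := mq2_many X R2 R3 d hR2 hR3one hd (q' : ℤ) (by positivity) (by exact_mod_cast hqR)
    (by exact_mod_cast k7) f hf s 1
  rw [MQ_NU X (s + 1) R3 hR3one ((q' : ℤ) * d) f] at h3
  have h4 : ((d * q' : ℕ) : ℤ) = (q' : ℤ) * d := by
    push_cast
    ring
  rw [h4]
  set N := NU X (s + 1) R3 ((q' : ℤ) * d) f with hN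
  have h5 : (q' * R3 / R : ℝ) ^ 2 ≤ u ^ 2 := pow_le_pow_left₀ (by positivity) k2 2
  have h6 : (d * R3 / R2 : ℝ) ^ 2 ≤ u ^ 2 := pow_le_pow_left₀ (by positivity) k3 2
  have h7 : (1 : ℝ) ≤ 2 ^ s := one_le_pow₀ (by norm_num)
  have h8 : 32 * X * (q' * R3 / R : ℝ) ^ 2 ≤ 32 * X * u ^ 2 :=
    mul_le_mul_of_nonneg_left h5 (by positivity)
  have h9 : (2 ^ s - 1) * (32 * X * (d * R3 / R2 : ℝ) ^ 2) ≤ (2 ^ s - 1) * (32 * X * u ^ 2) :=
    mul_le_mul_of_nonneg_left (mul_le_mul_of_nonneg_left h6 (by positivity)) (by linarith)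
  have h10 : δ ^ A * X ≤ 2 ^ (s + 1) * N + 2 ^ (s + 1) * (32 * X * u ^ 2) := by
    rw [pow_succ]
    nlinarith [mul_nonneg (mul_nonneg (by norm_num : (0 : ℝ) ≤ 32) hX0.le) (sq_nonneg u)]
  have h11 : 2 ^ (s + 1) * (32 * X * u ^ 2) ≤ δ ^ A * X / 2 := by
    have e1 : u = δ ^ A * δ ^ (s + 7) := by
      rw [hu, ← pow_add]
      congr 1
    have e2 : (2 : ℝ) ^ (s + 7) * δ ^ (s + 7) ≤ 1 := by
      rw [← mul_pow]
      exact pow_le_one₀ (by positivity) (by linarith)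
    have e3 : u ≤ 1 := by linarith
    calc 2 ^ (s + 1) * (32 * X * u ^ 2) = (2 : ℝ) ^ (s + 7) / 2 * u * (u * X) := by
          rw [pow_succ, pow_add]
          ring
      _ = (2 : ℝ) ^ (s + 7) * δ ^ (s + 7) * (δ ^ A * (u * X) / 2) := by
          nth_rewrite 1 [e1]
          ring
      _ ≤ 1 * (δ ^ A * (u * X) / 2) := mul_le_mul_of_nonneg_right e2 (by positivity)
      _ ≤ δ ^ A * X / 2 := by
          rw [one_mul]
          have e4 : u * X ≤ X := by nlinarith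
          have e5 := mul_le_mul_of_nonneg_left e4 (by positivity : 0 ≤ δ ^ A)
          linarith
  have h12 : δ ^ A * X / 2 ≤ 2 ^ (s + 1) * N := by linarith
  have h13 : δ ^ E * X * 2 ^ (s + 2) ≤ δ ^ A * X := by
    have e1 : δ ^ E ≤ δ ^ A * δ ^ (s + 2) := by
      rw [← pow_add]
      exact pow_le_pow_of_le_one hδ.le hδ1 (by omega)
    have e2 : δ ^ (s + 2) * (2 : ℝ) ^ (s + 2) ≤ 1 := by
      rw [← mul_pow]
      exact pow_le_one₀ (by positivity) (by linarith)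
    calc δ ^ E * X * 2 ^ (s + 2) ≤ (δ ^ A * δ ^ (s + 2)) * X * 2 ^ (s + 2) := by gcongr
      _ = (δ ^ A * X) * (δ ^ (s + 2) * (2 : ℝ) ^ (s + 2)) := by ring
      _ ≤ (δ ^ A * X) * 1 := mul_le_mul_of_nonneg_left e2 (by positivity)
      _ = δ ^ A * X := mul_one _
  have h14 : (2 : ℝ) ^ (s + 2) = 2 ^ (s + 1) * 2 := by rw [pow_succ]
  rw [h14] at h13
  have h15 : (0 : ℝ) < 2 ^ (s + 1) := by positivity
  have h16 : 2 ^ (s + 1) * (δ ^ E * X) ≤ 2 ^ (s + 1) * N := by linarith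
  exact le_of_mul_le_mul_left h16 h15

theorem ll10_floor (x : ℝ) (h : 1 ≤ ⌊x⌋₊) : x / 2 ≤ (⌊x⌋₊ : ℝ) := by
  have h1 := Nat.lt_floor_add_one x
  have h2 : (1 : ℝ) ≤ (⌊x⌋₊ : ℝ) := by exact_mod_cast h
  linarith

/-- Base: `LL8_pairs 0` (`K²` equal terms `MQ X [(R, q γ)] f = NU X 1 R (q γ) f`). -/
theorem LL10_base : LLP 1 := by
  obtain ⟨C, hC, h8⟩ := LL8_pairs 0
  refine ⟨C + 1, C + 2, ?_⟩
  intro δ hδ hδ2 X K M q hK hM hq hdiv hX h1 h2 h3 f hf h4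
  have hK' : (0 : ℝ) < K := by exact_mod_cast hK
  have hX0 : (0 : ℝ) < X := lt_of_lt_of_le (by positivity) hX
  obtain ⟨-, hR, γ, hγ, hγC, hγX, hmain⟩ := h8 δ hδ hδ2 X K M q hK hM hq (by simpa using hX) h1 h2 h3 f hf h4
  refine ⟨q * γ, Nat.mul_pos hq hγ, ?_, hγX, hR, ?_⟩
  · push_cast
    calc (q : ℝ) * γ ≤ (1 / δ) * (1 / δ) ^ C := mul_le_mul h3 hγC (by positivity) (by positivity)
      _ = (1 / δ) ^ (C + 1) := by rw [pow_succ, mul_comm]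
  · have e1 : ∀ p ∈ Ioc K (2 * K) ×ˢ Ioc K (2 * K),
        (MQ X ((⌊δ ^ (C + 2) * X⌋₊, ((q * γ : ℕ) : ℤ)) ::
          List.replicate 0 (⌊δ ^ C * M / K⌋₊, ((p.1 * p.2 * q : ℕ) : ℤ))) f).re =
        NU X 1 ⌊δ ^ (C + 2) * X⌋₊ ((q * γ : ℕ) : ℤ) f := by
      intro p _
      exact MQ_NU X 1 _ hR _ f
    rw [Finset.sum_congr rfl e1, Finset.sum_const, card_product, Nat.card_Ioc, nsmul_eq_mul] at hmain
    have e2 : ((((2 * K - K) * (2 * K - K) : ℕ) : ℝ)) = (K : ℝ) ^ 2 := by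
      have : 2 * K - K = K := by omega
      rw [this]
      push_cast
      ring
    rw [e2] at hmain
    have e3 : (K : ℝ) ^ 2 * (δ ^ C * X) ≤ (K : ℝ) ^ 2 * NU X 1 ⌊δ ^ (C + 2) * X⌋₊ ((q * γ : ℕ) : ℤ) f := by
      refine le_trans (le_of_eq ?_) hmain
      ring
    have e4 := le_of_mul_le_mul_left e3 (by positivity)
    refine le_trans ?_ e4
    exact mul_le_mul_of_nonneg_right (pow_le_pow_of_le_one hδ.le (by linarith) (by omega)) hX0.le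

/-- Step: `LL8_pairs s`, `LL9_many`, `LL10_one` (`d = q γ`; `R = ⌊δ^(C+2) X⌋ ≥ δ^(C+3) X`, because `δ^(C+2) X ≥ 1`). -/
theorem LL10_step (s : ℕ) (hs : 1 ≤ s) (hL : LLP s) : LLP (s + 1) := by
  obtain ⟨C, hC, h8⟩ := LL8_pairs s
  obtain ⟨D1, D2, h9⟩ := LL9_many s hs hL C hC
  obtain ⟨E, hE, h10⟩ := LL10_one s (C + 3 + D1 + D2 + 1)
  refine ⟨C + 1 + D1, E, ?_⟩
  intro δ hδ hδ2 X K M q hK hM hq hdiv hX h1 h2 h3 f hf h4
  have hδ1 : δ ≤ 1 := by linarith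
  have hinv : (1 : ℝ) ≤ 1 / δ := by
    rw [le_div_iff₀ hδ]
    linarith
  have hK' : (1 : ℝ) ≤ K := by exact_mod_cast hK
  have hX0 : (0 : ℝ) < X := lt_of_lt_of_le (by positivity) hX
  have hK1 : (1 : ℝ) ≤ (K : ℝ) ^ (2 ^ (s + 1)) := one_le_pow₀ hK'
  have hXE : (1 / δ) ^ E ≤ X := by
    refine le_trans ?_ hX
    exact le_mul_of_one_le_right (by positivity) hK1
  have hX1 : (1 / δ) ^ (C + 2) * (K : ℝ) ^ 2 ≤ X := by
    refine le_trans ?_ hX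
    refine mul_le_mul (pow_le_pow_right₀ hinv (by omega)) ?_ (by positivity) (by positivity)
    refine pow_le_pow_right₀ hK' ?_
    calc 2 = 2 ^ 1 := (pow_one 2).symm
      _ ≤ 2 ^ (s + 1) := Nat.pow_le_pow_right (by norm_num) (by omega)
  have hX2 : (1 / δ) ^ D1 * (K : ℝ) ^ (2 ^ (s + 1)) ≤ X := by
    refine le_trans ?_ hX
    exact mul_le_mul_of_nonneg_right (pow_le_pow_right₀ hinv (by omega)) (by positivity)
  obtain ⟨hH, hR, γ, hγ, hγC, hγX, hmain⟩ := h8 δ hδ hδ2 X K M q hK hM hq hX1 h1 h2 h3 f hf h4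
  have hdR : q * γ * ⌊δ ^ (C + 2) * X⌋₊ ≤ X := by nlinarith
  obtain ⟨q', hq', hq'D, hq'X, hR2, hmain2⟩ := h9 δ hδ hδ2 X K M q γ ⌊δ ^ (C + 2) * X⌋₊ hK hM hq hγ hR
    hdiv hX2 h1 h2 h3 hdR hH f hf hmain
  have hqR2 : q' * ⌊δ ^ D2 * X⌋₊ ≤ X := by nlinarith
  have hfl : ∀ n : ℕ, 1 ≤ ⌊δ ^ n * X⌋₊ → δ ^ (n + 1) * X ≤ (⌊δ ^ n * X⌋₊ : ℝ) := by
    intro n hn
    refine le_trans ?_ (ll10_floor _ hn)
    calc δ ^ (n + 1) * X = δ * (δ ^ n * X) := by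
          rw [pow_succ]
          ring
      _ ≤ 1 / 2 * (δ ^ n * X) := mul_le_mul_of_nonneg_right hδ2 (by positivity)
      _ = δ ^ n * X / 2 := by ring
  have hle : ∀ m n : ℕ, m ≤ n → δ ^ n * X ≤ δ ^ m * X := fun m n hmn =>
    mul_le_mul_of_nonneg_right (pow_le_pow_of_le_one hδ.le hδ1 hmn) hX0.le
  have hdA : ((q * γ : ℕ) : ℝ) ≤ (1 / δ) ^ (C + 1) := by
    push_cast
    calc (q : ℝ) * γ ≤ (1 / δ) * (1 / δ) ^ C := mul_le_mul h3 hγC (by positivity) (by positivity)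
      _ = (1 / δ) ^ (C + 1) := by rw [pow_succ, mul_comm]
  obtain ⟨k1, k2, k3⟩ := h10 δ hδ hδ2 X (q * γ) q' ⌊δ ^ (C + 2) * X⌋₊ ⌊δ ^ D2 * X⌋₊
    (Nat.mul_pos hq hγ) hq' hR hR2 hXE
    (hdA.trans (pow_le_pow_right₀ hinv (by omega)))
    (hq'D.trans (pow_le_pow_right₀ hinv (by omega)))
    ((hle _ _ (by omega)).trans (hfl (C + 2) hR))
    ((hle _ _ (by omega)).trans (hfl D2 hR2)) hdR hqR2 f hf
    ((hle _ _ (by omega)).trans hmain2)
  refine ⟨q * γ * q', Nat.mul_pos (Nat.mul_pos hq hγ) hq', ?_, k1, k2, k3⟩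
  push_cast
  push_cast at hdA
  calc (q : ℝ) * γ * q' ≤ (1 / δ) ^ (C + 1) * (1 / δ) ^ D1 :=
        mul_le_mul hdA hq'D (by positivity) (by positivity)
    _ = (1 / δ) ^ (C + 1 + D1) := (pow_add _ _ _).symm

theorem LL10_all (s : ℕ) (hs : 1 ≤ s) : LLP s := by
  induction s, hs using Nat.le_induction with
  | base => exact LL10_base
  | succ n hn ih => exact LL10_step n hn ih

end Pool.Agent.HUK
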