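import Pool.Agent.Lib.HUK.P1
import Pool.Agent.Lib.HUK.D0

/-!
# Project HUK, chunk V1 (helper9): residue classes and multiples (Lemma W of helper9)
-/

open Finset

namespace Pool.Agent.HUK

open Pool.Agent.H44W (ee)

/-- Lemma W of helper9 (mail 01:10Z): for phases. `s ≥ 2`. For fixed `h' = (h_1, …)` and `g = DV h' f`: `∑_{h_0} ee(θ_0 h_0) ∑_y g(y) conj g(y + h_0) =
‖∑_y g(y) ee(-θ_0 y)‖² ≥ 0`, so the norm of the sum is at most `∑_{h'} ∑_{h_0} ee(θ_0 h_0) FF = ∑_{h_0} ee(θ_0 h_0) GG X (s-1) (DD h_0 f) ≤ GG X s f` because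
`GG X (s-1) ≥ 0`. -/
theorem V1_phase (X s : ℕ) (hs : 2 ≤ s) (θ : Fin s → ℝ) (f : ℤ → ℂ) (hf : ∀ y, y ∉ Ico (-(X : ℤ)) X → f y = 0) :
    ‖∑ h ∈ bxS s (2 * X), (∏ i, ee (θ i * h i)) * FF X h f‖ ≤ GG X s f :=
  D0_W hf hs (fun i h => ee (θ i * h)) (fun i => D0_Wee X (θ i))

/-- Differences which are multiples of `q`, with Fejer weights: `fw M (h/q) [q ∣ h]` is on `|h| < 2X` a convex combination of phases. -/
theorem V2_mul (X s M q : ℕ) (hs : 2 ≤ s) (hM : 1 ≤ M) (hq : 1 ≤ q) (f : ℤ → ℂ) (hf : ∀ y, y ∉ Ico (-(X : ℤ)) X → f y = 0) :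
    ‖∑ t ∈ bxS s M, ((FW M t : ℝ) : ℂ) * FF X (fun i => (q : ℤ) * t i) f‖ ≤ GG X s f :=
  D0_V2 hf hs M hM (q : ℤ) (by omega)

/-- Residue classes. -/
theorem V1_res (X s Λ : ℕ) (hs : 2 ≤ s) (hΛ : 1 ≤ Λ) (ρ : ℤ) (f : ℤ → ℂ) (hf : ∀ y, y ∉ Ico (-(X : ℤ)) X → f y = 0) :
    GG X s (fun y => if (Λ : ℤ) ∣ y - ρ then f y else 0) ≤ GG X s f :=
  D0_V1 hf hs Λ hΛ ρ

theorem v1_DL (Λ ρ : ℤ) (f : ℤ → ℂ) (l : List ℤ) (x : ℤ) :
    DL l (fun x => f (ρ + Λ * x)) x = DL (l.map (fun a => Λ * a)) f (ρ + Λ * x) := by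
  induction l generalizing f with
  | nil => rfl
  | cons a l ih =>
    show DL l (DD a (fun x => f (ρ + Λ * x))) x = DL (l.map (fun a => Λ * a)) (DD (Λ * a) f) (ρ + Λ * x)
    rw [← ih (DD (Λ * a) f)]
    congr 1
    funext z
    unfold DD
    dsimp only
    rw [mul_add, add_assoc]

theorem v1_DV {s : ℕ} (Λ ρ : ℤ) (f : ℤ → ℂ) (t : Fin s → ℤ) (x : ℤ) :
    DV t (fun x => f (ρ + Λ * x)) x = DV (fun i => Λ * t i) f (ρ + Λ * x) := by
  unfold DV
  rw [v1_DL, List.map_ofFn]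
  rfl

theorem v1_in (X Λ : ℕ) (hΛ : 1 ≤ Λ) (ρ : ℤ) (hρ : 0 ≤ ρ) (hρ' : ρ < Λ) (g : ℤ → ℂ)
    (hg : ∀ y, y ∉ Ico (-(X : ℤ)) X → g y = 0) :
    ∑ y ∈ Ico (-(X : ℤ)) X, (if (Λ : ℤ) ∣ y - ρ then g y else 0) = ∑ x ∈ Ico (-(X : ℤ)) X, g (ρ + Λ * x) := by
  have hΛz : (1 : ℤ) ≤ Λ := by exact_mod_cast hΛ
  have h1 : ∑ x ∈ Ico (-(X : ℤ)) X, g (ρ + Λ * x) =
      ∑ x ∈ (Ico (-(X : ℤ)) X).filter (fun x => ρ + Λ * x ∈ Ico (-(X : ℤ)) X), g (ρ + Λ * x) := by
    rw [Finset.sum_filter]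
    refine sum_congr rfl fun x _ => ?_
    split_ifs with h2
    · rfl
    · exact hg _ h2
  rw [h1, ← Finset.sum_filter]
  refine Finset.sum_bij' (fun y _ => (y - ρ) / Λ) (fun x _ => ρ + Λ * x) ?_ ?_ ?_ ?_ ?_
  · intro y hy
    rw [mem_filter] at hy ⊢
    obtain ⟨h3, t, ht⟩ := hy
    have h4 : (y - ρ) / Λ = t := by
      rw [ht]
      exact Int.mul_ediv_cancel_left t (by omega)
    rw [h4]
    have h5 : ρ + Λ * t = y := by rw [← ht]; ring
    rw [h5]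
    refine ⟨?_, h3⟩
    rw [mem_Ico] at h3 ⊢
    constructor
    · by_contra h6
      push Not at h6
      nlinarith
    · by_contra h6
      push Not at h6
      nlinarith
  · intro x hx
    rw [mem_filter] at hx ⊢
    refine ⟨hx.2, ?_⟩
    rw [add_sub_cancel_left]
    exact dvd_mul_right _ _
  · intro y hy
    rw [mem_filter] at hy
    have := Int.mul_ediv_cancel' hy.2
    linarith
  · intro x _
    rw [add_sub_cancel_left]
    exact Int.mul_ediv_cancel_left x (by omega)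
  · intro y hy
    rw [mem_filter] at hy
    have := Int.mul_ediv_cancel' hy.2
    congr 1
    linarith

theorem v1_out (X s Λ : ℕ) (hΛ : 1 ≤ Λ) (Φ : (Fin s → ℤ) → ℂ) (hΦ : ∀ h i, (2 * X : ℤ) ≤ |h i| → Φ h = 0) :
    ∑ h ∈ bxS s (2 * X), (if ∀ i, (Λ : ℤ) ∣ h i then Φ h else 0) = ∑ t ∈ bxS s (2 * X), Φ (fun i => (Λ : ℤ) * t i) := by
  classical
  have hΛz : (1 : ℤ) ≤ Λ := by exact_mod_cast hΛ
  have h1 : ∑ t ∈ bxS s (2 * X), Φ (fun i => (Λ : ℤ) * t i) =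
      ∑ t ∈ (bxS s (2 * X)).filter (fun t => ∀ i, |(Λ : ℤ) * t i| < 2 * X), Φ (fun i => (Λ : ℤ) * t i) := by
    rw [Finset.sum_filter]
    refine sum_congr rfl fun t _ => ?_
    split_ifs with h2
    · rfl
    · push Not at h2
      obtain ⟨i, hi⟩ := h2
      exact hΦ _ i hi
  rw [h1, ← Finset.sum_filter]
  symm
  refine Finset.sum_bij' (fun t _ => fun i => (Λ : ℤ) * t i) (fun h _ => fun i => h i / Λ) ?_ ?_ ?_ ?_ ?_
  · intro t ht
    rw [mem_filter] at ht ⊢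
    refine ⟨?_, fun i => dvd_mul_right _ _⟩
    unfold bxS
    rw [Fintype.mem_piFinset]
    intro i
    have := abs_lt.1 (ht.2 i)
    rw [mem_Ioo]
    push_cast
    exact this
  · intro h hh
    rw [mem_filter] at hh ⊢
    have hh1 := hh.1
    unfold bxS at hh1
    rw [Fintype.mem_piFinset] at hh1
    have h3 : ∀ i, (Λ : ℤ) * (h i / Λ) = h i := fun i => Int.mul_ediv_cancel' (hh.2 i)
    have h4 : ∀ i, |h i| < 2 * X := by
      intro i
      have := mem_Ioo.1 (hh1 i)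
      push_cast at this
      exact abs_lt.2 this
    refine ⟨?_, fun i => ?_⟩
    · unfold bxS
      rw [Fintype.mem_piFinset]
      intro i
      have h5 : |h i / Λ| ≤ |h i| := by
        rw [← h3 i, abs_mul, h3 i, abs_of_nonneg (by omega : (0 : ℤ) ≤ Λ)]
        nlinarith [abs_nonneg (h i / (Λ : ℤ))]
      have h7 := abs_lt.1 (lt_of_le_of_lt h5 (h4 i))
      rw [mem_Ioo]
      push_cast
      exact h7
    · rw [h3 i]
      exact h4 i
  · intro t _
    funext i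
    exact Int.mul_ediv_cancel_left _ (by omega)
  · intro h hh
    rw [mem_filter] at hh
    funext i
    exact Int.mul_ediv_cancel' (hh.2 i)
  · intro t _
    rfl

/-- The function `x ↦ f(ρ + Λ x)`: its differences `t` are the differences `Λ t` of `f` on the class of `ρ`; all other differences vanish.
`0 ≤ ρ < Λ`, so `ρ + Λ x ∈ [-X, X)` implies `x ∈ [-X, X)`. -/
theorem V1_dil (X s Λ : ℕ) (hX : 1 ≤ X) (hs : 1 ≤ s) (hΛ : 1 ≤ Λ) (ρ : ℤ) (hρ : 0 ≤ ρ) (hρ' : ρ < Λ) (f : ℤ → ℂ)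
    (hf : Bdd X f) : Bdd X (fun x => f (ρ + Λ * x)) ∧
    GG X s (fun x => f (ρ + Λ * x)) = GG X s (fun y => if (Λ : ℤ) ∣ y - ρ then f y else 0) := by
  have hΛz : (1 : ℤ) ≤ Λ := by exact_mod_cast hΛ
  refine ⟨⟨fun y => hf.le _, fun y hy => hf.sup _ fun h => hy ?_⟩, ?_⟩
  · rw [mem_Ico] at h ⊢
    constructor
    · by_contra h6
      push Not at h6
      nlinarith
    · by_contra h6
      push Not at h6
      nlinarith
  · unfold GG
    congr 1
    have h1 : ∀ h ∈ bxS s (2 * X), FF X h (fun y => if (Λ : ℤ) ∣ y - ρ then f y else 0) =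
        if ∀ i, (Λ : ℤ) ∣ h i then ∑ x ∈ Ico (-(X : ℤ)) X, DV h f (ρ + Λ * x) else 0 := by
      intro h _
      have h5 : (∀ a ∈ List.ofFn h, (Λ : ℤ) ∣ a) ↔ ∀ i, (Λ : ℤ) ∣ h i := by
        simp only [List.mem_ofFn]
        constructor
        · exact fun h6 i => h6 _ ⟨i, rfl⟩
        · rintro h6 _ ⟨i, rfl⟩
          exact h6 i
      unfold FF DV
      by_cases h7 : ∀ i, (Λ : ℤ) ∣ h i
      · rw [if_pos h7, ← v1_in X Λ hΛ ρ hρ hρ' (DL (List.ofFn h) f) (fun y hy => D0_DLz _ _ _ (hf.sup y hy))]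
        refine sum_congr rfl fun y _ => ?_
        rw [D0_class]
        by_cases h6 : (Λ : ℤ) ∣ y - ρ
        · rw [if_pos ⟨h6, h5.2 h7⟩, if_pos h6]
        · rw [if_neg (fun h8 => h6 h8.1), if_neg h6]
      · rw [if_neg h7]
        refine sum_eq_zero fun y _ => ?_
        rw [D0_class, if_neg (fun h8 => h7 (h5.1 h8.2))]
    rw [sum_congr rfl h1, v1_out X s Λ hΛ (fun h => ∑ x ∈ Ico (-(X : ℤ)) X, DV h f (ρ + Λ * x))]
    · refine sum_congr rfl fun t _ => ?_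
      unfold FF
      refine sum_congr rfl fun x _ => ?_
      rw [v1_DV]
    · intro h i hi
      show ∑ x ∈ Ico (-(X : ℤ)) X, DV h f (ρ + Λ * x) = 0
      rw [← v1_in X Λ hΛ ρ hρ hρ' (DV h f) (fun y hy => D0_DLz _ _ _ (hf.sup y hy))]
      have h2 := D0_large (X := X) (f := fun y => if (Λ : ℤ) ∣ y - ρ then f y else 0)
        (fun y hy => by simp only [hf.sup y hy, ite_self]) h i hi
      have key : ∀ y ∈ Ico (-(X : ℤ)) X, DV h f y = 0 := by
        intro y hy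
        rw [mem_Ico] at hy
        have key : ∀ (l : List ℤ) (g : ℤ → ℂ) (a : ℤ), a ∈ l → Spt X g → (2 * X : ℤ) ≤ |a| → DL l g y = 0 := by
          intro l
          induction l with
          | nil =>
            intro g a ha
            exact absurd ha (List.not_mem_nil)
          | cons b l ih =>
            intro g a ha hg h2
            rcases List.mem_cons.1 ha with h3 | h3
            · subst h3
              refine D0_DLz l (DD a g) y ?_
              unfold DD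
              rw [hg (y + a), map_zero, mul_zero]
              rw [mem_Ico]
              rcases abs_cases a with ⟨h4, _⟩ | ⟨h4, _⟩ <;> omega
            · exact ih (DD b g) a h3 (D0_SDD hg b) h2
        exact key _ f (h i) (List.mem_ofFn.2 ⟨i, rfl⟩) hf.sup hi
      refine sum_eq_zero fun y hy => ?_
      rw [key y hy, ite_self]

end Pool.Agent.HUK
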