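import Pool.Agent.Lib.HUK.LL10

/-!
# Project HUK, chunk LL: from the directions `b q`, `b ∈ (K, 2K]`, to one small direction
-/

open Finset

namespace Pool.Agent.HUK

/-- PROOF.md, 2.7. -/
theorem LL_main (s : ℕ) (hs : 1 ≤ s) : ∃ C1 C2 : ℕ, ∀ δ : ℝ, 0 < δ → δ ≤ 1 / 2 → ∀ X K M q : ℕ, 1 ≤ K → 1 ≤ M → 1 ≤ q →
    (∀ n : ℕ, 1 ≤ n → n ≤ X → (n.divisors.card : ℝ) ≤ 1 / δ) → (1 / δ) ^ C2 * (K : ℝ) ^ (2 ^ s) ≤ X →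
    δ * X ≤ q * K * M → 4 * q * K * M ≤ X → (q : ℝ) ≤ 1 / δ → ∀ f : ℤ → ℂ, Bdd X f →
    δ * (K * X) ≤ ∑ b ∈ Ioc K (2 * K), NU X s M (b * q) f →
    ∃ q' : ℕ, 1 ≤ q' ∧ (q' : ℝ) ≤ (1 / δ) ^ C1 ∧ 4 * q' * ⌊δ ^ C2 * X⌋₊ ≤ X ∧ 1 ≤ ⌊δ ^ C2 * X⌋₊ ∧
      δ ^ C2 * X ≤ NU X s ⌊δ ^ C2 * X⌋₊ q' f :=
  LL10_all s hs

end Pool.Agent.HUK
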