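import Pool.Agent.Lib.HUK.A12
import Pool.Agent.Lib.HUK.LL
import Pool.Agent.Lib.HUK.V1

/-!
# Project HUK, chunk A13 (M): Theorem (**) of PROOF.md, section 2
-/

open Finset

namespace Pool.Agent.HUK

/-- Proof. `A12_all`; the sum over `𝒜` is at most the sum over `(K, 2K]` (`NU_nonneg`). `LL_main (n+1)` with a power of `δ` in place of `δ`, `M = ⌊δ^C₁ H⌋`
(`δ^C₂ X ≤ q K M`, `4 q K M ≤ X`: `q ≤ (1/δ)^C₁` is beaten by a larger exponent in `M`, as in `A12`; `2^(n+1) ≤ 2^(2^n)` for `n ≥ 1`):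
`NU X (n+1) M' q' f ≥ δ^C₃ X`, `M' = ⌊δ^C₄ X⌋`. `V2_mul` (`s = n + 1 ≥ 2`): `NU M'^(n+1) ≤ GG X (n+1) f`, so
`GG ≥ δ^C₃ X (δ^C₄ X/2)^(n+1) ≥ δ^C X^(n+2)`. -/
theorem A13_star (n : ℕ) (hn : 1 ≤ n) : ∃ C : ℕ, ∀ δ : ℝ, 0 < δ → δ ≤ 1 / 2 → ∀ X K H : ℕ, (1 / δ) ^ C ≤ K →
    (1 / δ) ^ C * (K : ℝ) ^ (2 ^ 2 ^ n) ≤ X → δ * X ≤ K * H → 16 * n * K * H ≤ X → 1 ≤ H →
    (∀ m : ℕ, 1 ≤ m → m ≤ X → (m.divisors.card : ℝ) ≤ 1 / δ) → ∀ 𝒜 : Finset ℕ, 𝒜 ⊆ Ioc K (2 * K) →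
    ∀ f : ℤ → ℂ, Bdd X f →
    δ * ((H : ℝ) ^ (n + 1) * ((K : ℝ) * X) ^ 2) ≤ ∑ t ∈ bxS (n + 1) H, ‖∑ a ∈ 𝒜, FF X (fun i => (a : ℤ) * t i) f‖ ^ 2 →
    δ ^ C * (X : ℝ) ^ (n + 2) ≤ GG X (n + 1) f := by
  obtain ⟨C0, h12⟩ := A12_all n hn
  obtain ⟨C1, C2, hLL⟩ := LL_main (n + 1) (by omega)
  obtain ⟨E, hE⟩ : ∃ E, E = C0 + 2 := ⟨_, rfl⟩
  refine ⟨C0 + E * C2 * (n + 2) + (n + 1), fun δ hδ hδ2 X K H hK hX hXKH hnKH hH hdiv 𝒜 h𝒜 f hf hsum => ?_⟩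
  have hδ1 : δ ≤ 1 := by linarith
  have hδi : 1 ≤ 1 / δ := by
    rw [le_div_iff₀ hδ]
    linarith
  have hpow : ∀ a b : ℕ, a ≤ b → δ ^ b ≤ δ ^ a := fun a b hab => pow_le_pow_of_le_one hδ.le hδ1 hab
  have hipow : ∀ a b : ℕ, a ≤ b → (1 / δ) ^ a ≤ (1 / δ) ^ b := fun a b hab => pow_le_pow_right₀ hδi hab
  have hle1 : C0 ≤ C0 + E * C2 * (n + 2) + (n + 1) := by omega
  have hle2 : E * C2 ≤ C0 + E * C2 * (n + 2) + (n + 1) := by
    have h1 : E * C2 ≤ E * C2 * (n + 2) := Nat.le_mul_of_pos_right _ (by omega)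
    omega
  have hKr : (1 : ℝ) ≤ K := le_trans (one_le_pow₀ hδi) hK
  have hK1 : 1 ≤ K := by exact_mod_cast hKr
  have hKpos : (0 : ℝ) < K := by linarith
  have hHpos : (0 : ℝ) < H := by exact_mod_cast hH
  obtain ⟨q, hq1, hqC, hM1, hNU⟩ := h12 δ hδ hδ2 X K H ((hipow _ _ hle1).trans hK)
    ((mul_le_mul_of_nonneg_right (hipow _ _ hle1) (by positivity)).trans hX) hXKH hnKH hH 𝒜 h𝒜 f hf hsum
  obtain ⟨M, hM⟩ : ∃ M, M = ⌊δ ^ C0 * H⌋₊ := ⟨_, rfl⟩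
  rw [← hM] at hM1 hNU
  have hMr1 : (1 : ℝ) ≤ M := by exact_mod_cast hM1
  have hMle : (M : ℝ) ≤ δ ^ C0 * H := by
    rw [hM]
    exact Nat.floor_le (by positivity)
  have hMge : δ ^ C0 * H / 2 ≤ M := by
    have h1 : δ ^ C0 * H < M + 1 := by
      rw [hM]
      exact Nat.lt_floor_add_one _
    linarith
  have hqr1 : (1 : ℝ) ≤ q := by exact_mod_cast hq1
  have hqM : (q : ℝ) * M ≤ H := by
    have h1 : (q : ℝ) * M ≤ (1 / δ) ^ C0 * (δ ^ C0 * H) := mul_le_mul hqC hMle (by positivity) (by positivity)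
    have h2 : (1 / δ) ^ C0 * (δ ^ C0 * H) = H := by
      rw [← mul_assoc, ← mul_pow, one_div, inv_mul_cancel₀ hδ.ne', one_pow, one_mul]
    rwa [h2] at h1
  have h4 : 4 * q * K * M ≤ X := by
    have h1 : q * M ≤ H := by exact_mod_cast hqM
    have h2 : 4 * q * K * M = 4 * K * (q * M) := by ring
    have h3 : 4 * K * (q * M) ≤ 4 * K * H := Nat.mul_le_mul_left _ h1
    have h5 : 4 * K * H ≤ 16 * n * K * H := by
      have h6 : 4 * K * H * 1 ≤ 4 * K * H * (4 * n) := Nat.mul_le_mul_left _ (by omega)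
      calc 4 * K * H = 4 * K * H * 1 := (mul_one _).symm
        _ ≤ 4 * K * H * (4 * n) := h6
        _ = 16 * n * K * H := by ring
    omega
  -- the sum over all b
  have hall : δ ^ C0 * (K * X) ≤ ∑ b ∈ Ioc K (2 * K), NU X (n + 1) M (b * q) f := by
    refine hNU.trans (Finset.sum_le_sum_of_subset_of_nonneg h𝒜 fun b hb _ => ?_)
    rw [mem_Ioc] at hb
    refine NU_nonneg X (n + 1) M (by omega) hM1 _ (by positivity) ?_ f hf.sup
    have h1 : b * q * M ≤ X := by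
      have h2 : b * q * M ≤ 2 * K * q * M := Nat.mul_le_mul_right _ (Nat.mul_le_mul_right _ hb.2)
      have h3 : 2 * K * q * M ≤ 4 * q * K * M := by
        calc 2 * K * q * M = 2 * (q * K * M) := by ring
          _ ≤ 4 * (q * K * M) := Nat.mul_le_mul_right _ (by omega)
          _ = 4 * q * K * M := by ring
      omega
    exact_mod_cast h1
  have hE1 : 1 ≤ E := by omega
  obtain ⟨q', hq'1, hq'C, hq'X, hM'1, hNU'⟩ := hLL (δ ^ E) (by positivity)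
    (le_trans (by simpa using hpow 1 E hE1) hδ2) X K M q hK1 hM1 hq1
    (fun m hm1 hm2 => (hdiv m hm1 hm2).trans (by
      rw [← one_div_pow]
      simpa using hipow 1 E hE1))
    (by
      have h1 : (1 / δ ^ E) ^ C2 = (1 / δ) ^ (E * C2) := by
        rw [← one_div_pow, ← pow_mul]
      rw [h1]
      refine le_trans (mul_le_mul (hipow _ _ hle2) ?_ (by positivity) (by positivity)) hX
      refine pow_le_pow_right₀ hKr (Nat.pow_le_pow_right (by norm_num) ?_)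
      exact Nat.lt_two_pow_self)
    (by
      have h1 : δ ^ E * X ≤ δ ^ (C0 + 1) * (δ * X) := by
        have h2 : δ ^ E * (X : ℝ) = δ ^ (C0 + 1) * (δ * X) := by
          rw [hE, pow_succ, pow_succ]
          ring
        rw [h2]
      have h2 : δ ^ (C0 + 1) * (δ * X) ≤ δ ^ (C0 + 1) * (K * H) := mul_le_mul_of_nonneg_left hXKH (by positivity)
      have h3 : δ ^ (C0 + 1) * ((K : ℝ) * H) ≤ K * (δ ^ C0 * H / 2) := by
        have h5 : δ ^ (C0 + 1) ≤ δ ^ C0 / 2 := by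
          rw [pow_succ]
          have h6 : 0 < δ ^ C0 := by positivity
          nlinarith
        calc δ ^ (C0 + 1) * ((K : ℝ) * H) ≤ δ ^ C0 / 2 * (K * H) := mul_le_mul_of_nonneg_right h5 (by positivity)
          _ = K * (δ ^ C0 * H / 2) := by ring
      have h6 : (K : ℝ) * (δ ^ C0 * H / 2) ≤ K * M := mul_le_mul_of_nonneg_left hMge hKpos.le
      have h7 : (K : ℝ) * M ≤ q * K * M := by
        have h8 : (K : ℝ) * M = 1 * (K * M) := (one_mul _).symm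
        rw [h8, mul_assoc (q : ℝ)]
        exact mul_le_mul_of_nonneg_right hqr1 (by positivity)
      linarith)
    h4
    (by
      rw [← one_div_pow]
      exact hqC.trans (hipow _ _ (by omega)))
    f hf
    (le_trans (mul_le_mul_of_nonneg_right (hpow C0 E (by omega)) (by positivity)) hall)
  obtain ⟨M', hM'⟩ : ∃ M', M' = ⌊(δ ^ E) ^ C2 * X⌋₊ := ⟨_, rfl⟩
  rw [← hM'] at hM'1 hNU'
  have hM'r : (1 : ℝ) ≤ M' := by exact_mod_cast hM'1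
  have hV := V2_mul X (n + 1) M' q' (by omega) hM'1 hq'1 f hf.sup
  have hX0 : (0 : ℝ) ≤ X := by positivity
  have hDpos : 0 < (δ ^ E) ^ C2 := by positivity
  have hM'ge : (δ ^ E) ^ C2 * X / 2 ≤ M' := by
    have h1 : (δ ^ E) ^ C2 * X < M' + 1 := by
      rw [hM']
      exact Nat.lt_floor_add_one _
    linarith
  have hGG : NU X (n + 1) M' q' f * (M' : ℝ) ^ (n + 1) ≤ GG X (n + 1) f := by
    refine le_trans ?_ hV
    rw [NU, div_mul_cancel₀ _ (by positivity)]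
    exact Complex.re_le_norm _
  refine le_trans ?_ hGG
  have h1 : (δ ^ E) ^ C2 * X * ((δ ^ E) ^ C2 * X / 2) ^ (n + 1) ≤ NU X (n + 1) M' q' f * (M' : ℝ) ^ (n + 1) :=
    mul_le_mul hNU' (pow_le_pow_left₀ (by positivity) hM'ge _) (by positivity) (le_trans (by positivity) hNU')
  refine le_trans ?_ h1
  have h2 : (δ ^ E) ^ C2 * X * ((δ ^ E) ^ C2 * X / 2) ^ (n + 1) = ((δ ^ E) ^ C2) ^ (n + 2) * (1 / 2) ^ (n + 1) * (X : ℝ) ^ (n + 2) := by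
    obtain ⟨D, hD⟩ : ∃ D, D = (δ ^ E) ^ C2 := ⟨_, rfl⟩
    rw [← hD, div_eq_mul_one_div, mul_pow, mul_pow]
    ring
  rw [h2]
  refine mul_le_mul_of_nonneg_right ?_ (by positivity)
  have h3 : δ ^ (C0 + E * C2 * (n + 2) + (n + 1)) = δ ^ C0 * (((δ ^ E) ^ C2) ^ (n + 2) * δ ^ (n + 1)) := by
    rw [← pow_mul, ← pow_mul, ← pow_add, ← pow_add]
    congr 1
    ring
  rw [h3]
  have h5 : δ ^ (n + 1) ≤ (1 / 2) ^ (n + 1) := pow_le_pow_left₀ hδ.le hδ2 _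
  calc δ ^ C0 * (((δ ^ E) ^ C2) ^ (n + 2) * δ ^ (n + 1)) ≤ 1 * (((δ ^ E) ^ C2) ^ (n + 2) * δ ^ (n + 1)) :=
        mul_le_mul_of_nonneg_right (pow_le_one₀ hδ.le hδ1) (by positivity)
    _ = ((δ ^ E) ^ C2) ^ (n + 2) * δ ^ (n + 1) := one_mul _
    _ ≤ ((δ ^ E) ^ C2) ^ (n + 2) * (1 / 2) ^ (n + 1) := mul_le_mul_of_nonneg_left h5 (by positivity)

end Pool.Agent.HUK
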