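import Pool.Agent.Lib.HUK.A16a
import Pool.Agent.Lib.HUK.A13
import Pool.Agent.Lib.H21AP.DivisorBound

/-!
# Project HUK, chunk A16: the type II theorem `TII k`, `k ≥ 3` (PROOF.md, section 3)
-/

open Finset Filter

namespace Pool.Agent.HUK

theorem A16_dyadic (N : ℕ) (S : Finset ℕ) (hS : ∀ a ∈ S, 2 ≤ a ∧ a ≤ N) (F : ℕ → ℝ) (hF : ∀ a, 0 ≤ F a) (W : ℝ)
    (hW0 : 0 ≤ W) (hW : ∀ i : ℕ, (∃ a ∈ S, 2 ^ i < a ∧ a ≤ 2 * 2 ^ i) → ∑ a ∈ Ioc (2 ^ i) (2 * 2 ^ i), F a ≤ W) :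
    ∑ a ∈ S, F a ≤ ((Nat.log 2 N + 1 : ℕ) : ℝ) * W := by
  have hmem : ∀ a ∈ S, 2 ^ (Nat.log 2 (a - 1)) < a ∧ a ≤ 2 * 2 ^ (Nat.log 2 (a - 1)) := by
    intro a ha
    have h := hS a ha
    have h1 := Nat.pow_log_le_self 2 (x := a - 1) (by omega)
    have h2 := Nat.lt_pow_succ_log_self (b := 2) (by norm_num) (a - 1)
    rw [pow_succ] at h2
    omega
  have h1 : ∑ a ∈ S, F a = ∑ i ∈ range (Nat.log 2 N + 1), ∑ a ∈ S.filter (fun a => Nat.log 2 (a - 1) = i), F a := by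
    symm
    refine Finset.sum_fiberwise_of_maps_to (fun a ha => ?_) _
    rw [mem_range]
    have h := hS a ha
    have h2 := Nat.log_mono_right (b := 2) (by omega : a - 1 ≤ N)
    omega
  rw [h1]
  have h2 : ∀ i ∈ range (Nat.log 2 N + 1), ∑ a ∈ S.filter (fun a => Nat.log 2 (a - 1) = i), F a ≤ W := by
    intro i _
    by_cases hne : ∃ a ∈ S, 2 ^ i < a ∧ a ≤ 2 * 2 ^ i
    · refine (Finset.sum_le_sum_of_subset_of_nonneg ?_ fun a _ _ => hF a).trans (hW i hne)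
      intro a ha
      rw [mem_filter] at ha
      have h := hmem a ha.1
      rw [ha.2] at h
      rw [mem_Ioc]
      exact h
    · rw [Finset.sum_eq_zero]
      · exact hW0
      · intro a ha
        rw [mem_filter] at ha
        have h := hmem a ha.1
        rw [ha.2] at h
        exact absurd ⟨a, ha.1, h⟩ hne
  have h3 := Finset.sum_le_card_nsmul _ _ _ h2
  rw [card_range, nsmul_eq_mul] at h3
  exact h3

theorem A16_log (N : ℕ) (c : ℝ) (hc : 0 < c) : ∀ᶠ X : ℕ in atTop, ((Nat.log 2 (N * X) + 1 : ℕ) : ℝ) ≤ (X : ℝ) ^ c := by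
  have h1 : ∀ᶠ x : ℝ in atTop, ‖Real.log x‖ ≤ 1 / 4 * ‖x ^ c‖ :=
    (isLittleO_log_rpow_atTop hc).def (by norm_num)
  have h2 : ∀ᶠ x : ℝ in atTop, 4 * (1 + 2 * |Real.log N|) ≤ x ^ c :=
    (tendsto_rpow_atTop hc).eventually_ge_atTop _
  have h3 := (h1.and h2).and (eventually_ge_atTop (1 : ℝ))
  filter_upwards [tendsto_natCast_atTop_atTop.eventually h3] with X hX
  obtain ⟨⟨h4, h5⟩, h6⟩ := hX
  rcases Nat.eq_zero_or_pos N with hN | hN
  · subst hN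
    simp only [zero_mul, Nat.log_zero_right, zero_add, Nat.cast_one]
    have : 0 ≤ 2 * |Real.log ((0 : ℕ) : ℝ)| := by positivity
    linarith
  have hXp : (0 : ℝ) < X := by linarith
  have hNp : (0 : ℝ) < N := by exact_mod_cast hN
  have h7 : (Nat.log 2 (N * X) : ℝ) ≤ 2 * Real.log ((N * X : ℕ) : ℝ) := by
    have h8 := Nat.pow_log_le_self 2 (x := N * X) (by
      have : 0 < X := by exact_mod_cast hXp
      positivity)
    have h9 : ((2 : ℝ) ^ (Nat.log 2 (N * X))) ≤ ((N * X : ℕ) : ℝ) := by exact_mod_cast h8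
    have h10 := Real.log_le_log (by positivity) h9
    rw [Real.log_pow] at h10
    have h11 : (1 : ℝ) / 2 ≤ Real.log 2 := by linarith [Real.log_two_gt_d9]
    have h12 : (0 : ℝ) ≤ Nat.log 2 (N * X) := by positivity
    nlinarith
  push_cast at h7 ⊢
  rw [Real.log_mul hNp.ne' hXp.ne'] at h7
  rw [Real.norm_eq_abs, Real.norm_eq_abs, abs_of_nonneg (Real.log_nonneg h6), abs_of_nonneg (by positivity)] at h4
  have h8 := le_abs_self (Real.log (N : ℝ))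
  nlinarith

/-- **The type II theorem.** -/
theorem A16_TII (k : ℕ) (hk : 3 ≤ k) : TII k := by
  obtain ⟨n, rfl⟩ : ∃ n, k = n + 2 := ⟨k - 2, by omega⟩
  have hn : 1 ≤ n := by omega
  obtain ⟨C, hstar⟩ := A13_star n hn
  intro θ κ hθ hκ
  obtain ⟨m0, hm0, hm1, hm2, hm3⟩ : ∃ m0 : ℝ, 0 < m0 ∧ m0 ≤ θ / 2 ∧ m0 ≤ κ / 2 ∧ m0 ≤ 1 / 4 :=
    ⟨min (min (θ / 2) (κ / 2)) (1 / 4), by positivity, (min_le_left _ _).trans (min_le_left _ _),
      (min_le_left _ _).trans (min_le_right _ _), min_le_right _ _⟩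
  set η : ℝ := m0 / (C + 1) with hη
  have hη0 : 0 < η := by positivity
  have hηC : η * C ≤ m0 := by
    rw [hη, div_mul_eq_mul_div, div_le_iff₀ (by positivity)]
    nlinarith
  set z : ℝ := η / 2 ^ (n + 2) with hz
  have hz0 : 0 < z := by positivity
  set Ck : ℝ := 2 ^ (2 ^ (n + 1)) * (((n + 2 : ℕ) : ℝ) * (n + 2).factorial) * 2 ^ (n + 1) with hCk
  have hCk0 : 0 ≤ Ck := by positivity
  obtain ⟨C0, hC0, hdivb⟩ := Pool.Agent.Lib.H21AP.divisor_bound (ε := η / 2) (by positivity)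
  refine ⟨z / 4, z / 8, by positivity, by positivity, ?_⟩
  have hev : ∀ c : ℝ, 0 < c → ∀ D : ℝ, ∀ᶠ X : ℕ in atTop, D ≤ (X : ℝ) ^ c := fun c hc D =>
    ((tendsto_rpow_atTop hc).comp tendsto_natCast_atTop_atTop).eventually_ge_atTop D
  have hall := ((((((hev (θ / 2) (by positivity) 2).and (hev η hη0 2)).and
    (hev η hη0 (2 * (16 * (n + 2) * (n + 2).factorial)))).and (hev (η / 2) (by positivity) C0)).and
    (hev (1 / 2) (by norm_num) (2 * (16 * (n + 2) * (n + 2).factorial)))).and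
    (hev (z / 8) (by positivity) (52 * Ck))).and ((A16_log (2 * (n + 2)) (z / 8) (by positivity)).and
    (eventually_ge_atTop 2))
  obtain ⟨X0, hX0⟩ := eventually_atTop.1 hall
  refine ⟨X0, fun X hX α β hα hβ hαs f hf hGG => ?_⟩
  obtain ⟨⟨⟨⟨⟨⟨e1, e2⟩, e3⟩, e4⟩, e5⟩, e6⟩, e7, e8⟩ := hX0 X hX
  have hXr2 : (2 : ℝ) ≤ X := by exact_mod_cast e8
  have hXp : (0 : ℝ) < X := by linarith
  have hX1 : (1 : ℝ) ≤ X := by linarith
  set δ : ℝ := (X : ℝ) ^ (-η) with hδdef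
  have hδ0 : 0 < δ := by positivity
  have hδinv : 1 / δ = (X : ℝ) ^ η := by
    rw [hδdef, Real.rpow_neg hXp.le, one_div, inv_inv]
  have hδpow : (1 / δ) ^ C = (X : ℝ) ^ (η * C) := by
    rw [hδinv, Real.rpow_mul hXp.le, Real.rpow_natCast]
  have hδX : δ * (X : ℝ) ^ η = 1 := by
    rw [hδdef, ← Real.rpow_add hXp]
    simp
  have hδ2 : δ ≤ 1 / 2 := by
    rw [le_div_iff₀ (by norm_num)]
    calc δ * 2 ≤ δ * (X : ℝ) ^ η := mul_le_mul_of_nonneg_left e2 hδ0.le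
      _ = 1 := hδX
  set Z : ℝ := (X : ℝ) ^ (-z) with hZdef
  have hZ0 : 0 ≤ Z := by positivity
  have hZδ : Z ^ (2 ^ (n + 2)) = δ := by
    rw [hZdef, ← Real.rpow_natCast, ← Real.rpow_mul hXp.le, hδdef]
    congr 1
    push_cast
    rw [hz]
    field_simp
  have h4 : δ * (2 * (16 * (n + 2) * (n + 2).factorial)) ≤ 1 := by
    calc δ * (2 * (16 * (n + 2) * (n + 2).factorial)) ≤ δ * (X : ℝ) ^ η := mul_le_mul_of_nonneg_left e3 hδ0.le
      _ = 1 := hδX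
  have hdiv : ∀ m : ℕ, 1 ≤ m → m ≤ X → (m.divisors.card : ℝ) ≤ 1 / δ := by
    intro m hm hmX
    refine (hdivb m hm).trans ?_
    rw [hδinv]
    have h5 : (m : ℝ) ^ (η / 2) ≤ (X : ℝ) ^ (η / 2) := by
      refine Real.rpow_le_rpow (by positivity) (by exact_mod_cast hmX) (by positivity)
    have h6 : (X : ℝ) ^ η = (X : ℝ) ^ (η / 2) * (X : ℝ) ^ (η / 2) := by
      rw [← Real.rpow_add hXp]
      congr 1
      ring
    rw [h6]
    exact mul_le_mul e4 h5 (by positivity) (by positivity)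
  have hG : GG X (n + 1) (f 0) < δ ^ C * (X : ℝ) ^ (n + 2) := by
    refine lt_of_le_of_lt hGG ?_
    have h5 : δ ^ C * (X : ℝ) ^ (n + 2) = (X : ℝ) ^ (((n + 2 : ℕ) : ℝ) - η * C) := by
      rw [Real.rpow_sub hXp, ← hδpow, Real.rpow_natCast, one_div, inv_pow]
      field_simp
    rw [h5]
    refine Real.rpow_lt_rpow_of_exponent_lt (by linarith) ?_
    linarith
  set R : ℝ := (X : ℝ) ^ (z / 8) with hRdef
  have hR0 : 0 ≤ R := by positivity
  set F : ℕ → ℝ := fun a => ‖∑ b ∈ Icc 1 (2 * (n + 2) * X), β b * Psi X (n + 2) f ((a : ℤ) * (b : ℕ))‖ with hF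
  have hF0 : ∀ a, 0 ≤ F a := fun a => norm_nonneg _
  set S : Finset ℕ := (Icc 1 (2 * (n + 2) * X)).filter (fun a => α a ≠ 0) with hSdef
  have hcs : cs (n + 2) * 2 ^ (2 ^ n) ≤ 1 / 16 := by
    unfold cs
    have e : n + 2 - 1 = n + 1 := rfl
    rw [e, pow_add]
    have h5 : ((1 : ℝ) / 2) ^ (2 ^ (n + 1)) ≤ (1 / 2) ^ (2 ^ n) :=
      pow_le_pow_of_le_one (by norm_num) (by norm_num) (Nat.pow_le_pow_right (by norm_num) (by omega))
    calc ((1 : ℝ) / 2) ^ (2 ^ (n + 1)) * (1 / 2) ^ 4 * 2 ^ (2 ^ n)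
        ≤ (1 / 2) ^ (2 ^ n) * (1 / 2) ^ 4 * 2 ^ (2 ^ n) := by
          refine mul_le_mul_of_nonneg_right (mul_le_mul_of_nonneg_right h5 (by positivity)) (by positivity)
      _ = 1 / 16 := by
          rw [one_div, inv_pow]
          field_simp
          norm_num
  have hcs0 : 0 < cs (n + 2) := by
    unfold cs
    positivity
  have hcs1 : cs (n + 2) ≤ 1 / 16 := by
    have h5 : (1 : ℝ) ≤ 2 ^ (2 ^ n) := one_le_pow₀ (by norm_num)
    nlinarith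
  have hmain : ∑ a ∈ S, F a ≤ ((Nat.log 2 (2 * (n + 2) * X) + 1 : ℕ) : ℝ) * (52 * (X : ℝ) ^ 2 * (Ck * R * Z)) := by
    refine A16_dyadic (2 * (n + 2) * X) S ?_ F hF0 _ (by positivity) ?_
    · intro a ha
      rw [hSdef, mem_filter, mem_Icc] at ha
      refine ⟨?_, ha.1.2⟩
      have h5 := (hαs a ha.2).1
      by_contra hcon
      have ha1 : a = 1 := by omega
      rw [ha1] at h5
      have h6 : (X : ℝ) ^ θ = (X : ℝ) ^ (θ / 2) * (X : ℝ) ^ (θ / 2) := by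
        rw [← Real.rpow_add hXp]
        congr 1
        ring
      push_cast at h5
      nlinarith
    · rintro i ⟨a, ha, hai, hai2⟩
      rw [hSdef, mem_filter] at ha
      obtain ⟨h5, h6⟩ := hαs a ha.2
      have hK1 : 1 ≤ 2 ^ i := Nat.one_le_two_pow
      have hair : ((2 ^ i : ℕ) : ℝ) ≤ a := by exact_mod_cast hai.le
      have hair2 : (a : ℝ) ≤ 2 * ((2 ^ i : ℕ) : ℝ) := by exact_mod_cast hai2
      have h7 : (X : ℝ) ^ θ = (X : ℝ) ^ (θ / 2) * (X : ℝ) ^ (θ / 2) := by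
        rw [← Real.rpow_add hXp]
        congr 1
        ring
      have c1 : (1 / δ) ^ C ≤ ((2 ^ i : ℕ) : ℝ) := by
        rw [hδpow]
        have h8 : (X : ℝ) ^ (η * C) ≤ (X : ℝ) ^ (θ / 2) := Real.rpow_le_rpow_of_exponent_le hX1 (by linarith)
        nlinarith
      have hKcs : ((2 ^ i : ℕ) : ℝ) ≤ (X : ℝ) ^ cs (n + 2) := hair.trans h6
      have c2 : (1 / δ) ^ C * ((2 ^ i : ℕ) : ℝ) ^ (2 ^ 2 ^ n) ≤ X := by
        rw [hδpow]
        have h8 : ((2 ^ i : ℕ) : ℝ) ^ (2 ^ 2 ^ n) ≤ ((X : ℝ) ^ cs (n + 2)) ^ (2 ^ 2 ^ n) :=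
          pow_le_pow_left₀ (by positivity) hKcs _
        have h9 : ((X : ℝ) ^ cs (n + 2)) ^ (2 ^ 2 ^ n) = (X : ℝ) ^ (cs (n + 2) * 2 ^ (2 ^ n)) := by
          rw [← Real.rpow_natCast, ← Real.rpow_mul hXp.le]
          push_cast
          rfl
        calc (X : ℝ) ^ (η * C) * ((2 ^ i : ℕ) : ℝ) ^ (2 ^ 2 ^ n)
            ≤ (X : ℝ) ^ (η * C) * (X : ℝ) ^ (cs (n + 2) * 2 ^ (2 ^ n)) := by
              rw [← h9]
              exact mul_le_mul_of_nonneg_left h8 (by positivity)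
          _ = (X : ℝ) ^ (η * C + cs (n + 2) * 2 ^ (2 ^ n)) := (Real.rpow_add hXp _ _).symm
          _ ≤ (X : ℝ) ^ (1 : ℝ) := Real.rpow_le_rpow_of_exponent_le hX1 (by linarith)
          _ = X := Real.rpow_one _
      have c3 : 2 * (16 * (n + 2) * (n + 2).factorial) * 2 ^ i ≤ X := by
        have h8 : ((2 ^ i : ℕ) : ℝ) ≤ (X : ℝ) ^ ((1 : ℝ) / 2) :=
          hKcs.trans (Real.rpow_le_rpow_of_exponent_le hX1 (by linarith))
        have h9 : (X : ℝ) ^ ((1 : ℝ) / 2) * (X : ℝ) ^ ((1 : ℝ) / 2) = X := by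
          rw [← Real.rpow_add hXp]
          norm_num
        have h10 : (2 * (16 * ((n : ℝ) + 2) * ((n + 2).factorial : ℕ))) * ((2 ^ i : ℕ) : ℝ) ≤ X := by
          calc (2 * (16 * ((n : ℝ) + 2) * ((n + 2).factorial : ℕ))) * ((2 ^ i : ℕ) : ℝ)
              ≤ (X : ℝ) ^ ((1 : ℝ) / 2) * (X : ℝ) ^ ((1 : ℝ) / 2) := mul_le_mul e5 h8 (by positivity) (by positivity)
            _ = X := h9
        exact_mod_cast h10
      exact A16_one n hn C hstar δ Z hδ0 hδ2 hZ0 hZδ X (2 ^ i) (by omega) hK1 c1 c2 c3 h4 hdiv β R hR0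
        (fun b => (hβ b)) f hf hG
  have hT : ‖∑ a ∈ Icc 1 (2 * (n + 2) * X), ∑ b ∈ Icc 1 (2 * (n + 2) * X), α a * β b * Psi X (n + 2) f ((a : ℤ) * b)‖ ≤
      R * ∑ a ∈ S, F a := by
    rw [hSdef, Finset.sum_filter, Finset.mul_sum]
    refine (norm_sum_le _ _).trans (Finset.sum_le_sum fun a _ => ?_)
    have h5 : ∑ b ∈ Icc 1 (2 * (n + 2) * X), α a * β b * Psi X (n + 2) f ((a : ℤ) * b) =
        α a * ∑ b ∈ Icc 1 (2 * (n + 2) * X), β b * Psi X (n + 2) f ((a : ℤ) * (b : ℕ)) := by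
      rw [Finset.mul_sum]
      refine Finset.sum_congr rfl fun b _ => ?_
      rw [mul_assoc]
    rw [h5, norm_mul]
    split_ifs with h6
    · exact mul_le_mul_of_nonneg_right (hα a) (norm_nonneg _)
    · rw [not_ne_iff.1 h6]
      simp
  refine hT.trans ((mul_le_mul_of_nonneg_left hmain hR0).trans ?_)
  have hL0 : (0 : ℝ) ≤ ((Nat.log 2 (2 * (n + 2) * X) + 1 : ℕ) : ℝ) := by positivity
  calc R * (((Nat.log 2 (2 * (n + 2) * X) + 1 : ℕ) : ℝ) * (52 * (X : ℝ) ^ 2 * (Ck * R * Z)))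
      = (((Nat.log 2 (2 * (n + 2) * X) + 1 : ℕ) : ℝ) * (52 * Ck)) * (R * R * Z * (X : ℝ) ^ 2) := by ring
    _ ≤ ((X : ℝ) ^ (z / 8) * (X : ℝ) ^ (z / 8)) * (R * R * Z * (X : ℝ) ^ 2) := by
        refine mul_le_mul_of_nonneg_right (mul_le_mul e7 e6 (by positivity) (by positivity)) (by positivity)
    _ = (X : ℝ) ^ (2 - z / 2) := by
        rw [hRdef, hZdef, ← Real.rpow_natCast (X : ℝ) 2, ← Real.rpow_add hXp, ← Real.rpow_add hXp, ← Real.rpow_add hXp,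
          ← Real.rpow_add hXp]
        congr 1
        push_cast
        ring
    _ ≤ (X : ℝ) ^ (2 - z / 4) := Real.rpow_le_rpow_of_exponent_le hX1 (by linarith)

end Pool.Agent.HUK
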