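import Pool.Agent.Lib.HUK.LL7a

/-!
# Project HUK, chunk LL7 (M/L): one pair of directions
-/

open Finset

namespace Pool.Agent.HUK

theorem ll7_swap {ι κ : Type*} (S : Finset ι) (T : Finset κ) (w : ι → ℂ) (v : κ → ℂ) (A : κ → ι → ℂ) (P Q : ℂ) :
    (∑ x ∈ S, w x * ((∑ k ∈ T, v k * A k x) / P)) / Q = (∑ k ∈ T, v k * ((∑ x ∈ S, w x * A k x) / Q)) / P := by
  simp only [Finset.sum_div, Finset.mul_sum]
  rw [Finset.sum_comm]
  refine sum_congr rfl fun k _ => sum_congr rfl fun x _ => ?_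
  ring

theorem ll7_re {ι : Type*} (S : Finset ι) (w : ι → ℝ) (z : ι → ℂ) (M : ℕ) :
    ((∑ x ∈ S, ((w x : ℝ) : ℂ) * z x) / (M : ℂ) ^ 2).re = (∑ x ∈ S, w x * (z x).re) / (M : ℝ) ^ 2 := by
  have h1 : (M : ℂ) ^ 2 = ((M ^ 2 : ℕ) : ℂ) := by
    push_cast
    rfl
  rw [h1, Complex.div_natCast_re, Complex.re_sum]
  push_cast
  congr 1
  refine sum_congr rfl fun x _ => ?_
  rw [Complex.re_ofReal_mul]

theorem ll7_last (X M K R b b' q : ℕ) (hM : 1 ≤ M) (hK : 1 ≤ K) (hR : 1 ≤ R) (hb : b ∈ Ioc K (2 * K))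
    (hb' : b' ∈ Ioc K (2 * K)) (hq : q * Nat.gcd b b' * R ≤ X) (l : List (ℕ × ℤ)) (hp : ∀ p ∈ l, 1 ≤ p.1) :
    ∀ g : ℤ → ℂ, Bdd X g →
    ((∑ x ∈ Ioo (-(M : ℤ)) M ×ˢ Ioo (-(M : ℤ)) M, ((fw M x.1 * fw M x.2 : ℝ) : ℂ) *
      MQ X l (DD ((q : ℤ) * (b * x.1 - b' * x.2)) g)) / (M : ℂ) ^ 2).re ≤
      (MQ X (l ++ [(R, ((q * Nat.gcd b b' : ℕ) : ℤ))]) g).re + 4 * X * ((4 * K + Nat.gcd b b' * R / K) / M) := by
  induction l with
  | nil =>
    intro g hg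
    have h1 := LL5_last X M K R b b' q hM hK hR hb hb' hq g hg
    rw [List.nil_append, MQ_one X R hR _ (by positivity) (by exact_mod_cast hq) g hg.sup, Complex.ofReal_re]
    rw [Finset.sum_product]
    exact h1
  | cons p l ih =>
    intro g hg
    have hp1 : 1 ≤ p.1 := hp p List.mem_cons_self
    have hp' : (0 : ℝ) < p.1 := by exact_mod_cast hp1
    have ih' := ih fun p' h' => hp p' (List.mem_cons_of_mem _ h')
    rw [List.cons_append, mq2_cons_re]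
    obtain ⟨E, hE⟩ : ∃ E : ℝ, E = 4 * X * ((4 * K + Nat.gcd b b' * R / K) / M) := ⟨_, rfl⟩
    rw [← hE] at ih' ⊢
    have h1 : ∀ x ∈ Ioo (-(M : ℤ)) M ×ˢ Ioo (-(M : ℤ)) M, ((fw M x.1 * fw M x.2 : ℝ) : ℂ) *
        MQ X (p :: l) (DD ((q : ℤ) * (b * x.1 - b' * x.2)) g) = ((fw M x.1 * fw M x.2 : ℝ) : ℂ) *
        ((∑ k ∈ Ioo (-(p.1 : ℤ)) p.1, ((fw p.1 k : ℝ) : ℂ) *
          MQ X l (DD ((q : ℤ) * (b * x.1 - b' * x.2)) (DD (p.2 * k) g))) / (p.1 : ℂ)) := by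
      intro x _
      congr 1
      show (∑ t ∈ Ioo (-(p.1 : ℤ)) p.1, ((fw p.1 t : ℝ) : ℂ) *
        MQ X l (DD (p.2 * t) (DD ((q : ℤ) * (b * x.1 - b' * x.2)) g))) / (p.1 : ℂ) = _
      congr 1
      refine sum_congr rfl fun k _ => ?_
      rw [mq1_DD_comm]
    rw [sum_congr rfl h1, ll7_swap, Complex.div_natCast_re, Complex.re_sum]
    calc (∑ k ∈ Ioo (-(p.1 : ℤ)) p.1, (((fw p.1 k : ℝ) : ℂ) *
          ((∑ x ∈ Ioo (-(M : ℤ)) M ×ˢ Ioo (-(M : ℤ)) M, ((fw M x.1 * fw M x.2 : ℝ) : ℂ) *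
            MQ X l (DD ((q : ℤ) * (b * x.1 - b' * x.2)) (DD (p.2 * k) g))) / (M : ℂ) ^ 2)).re) / (p.1 : ℝ) ≤
          (∑ k ∈ Ioo (-(p.1 : ℤ)) p.1, (fw p.1 k * (MQ X (l ++ [(R, ((q * Nat.gcd b b' : ℕ) : ℤ))])
            (DD (p.2 * k) g)).re + fw p.1 k * E)) / (p.1 : ℝ) := by
          refine div_le_div_of_nonneg_right (Finset.sum_le_sum fun k _ => ?_) hp'.le
          rw [Complex.re_ofReal_mul]
          have h2 := mul_le_mul_of_nonneg_left (ih' _ (Bdd_DD hg (p.2 * k))) (mq2_fw_nonneg p.1 k)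
          refine h2.trans (le_of_eq ?_)
          ring
      _ = (∑ k ∈ Ioo (-(p.1 : ℤ)) p.1, fw p.1 k * (MQ X (l ++ [(R, ((q * Nat.gcd b b' : ℕ) : ℤ))])
            (DD (p.2 * k) g)).re) / (p.1 : ℝ) + E := by
          rw [Finset.sum_add_distrib, ← Finset.sum_mul, mq2_fw_sum p.1 hp1]
          field_simp

theorem ll7_DD0 (h : ℤ) (f : ℤ → ℂ) (y : ℤ) (hy : f y = 0) : DD h f y = 0 := by
  simp only [DD, hy, zero_mul]

theorem ll7_cj (n : ℕ) (z : ℂ) : ‖cj n z‖ = ‖z‖ := by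
  unfold cj
  split_ifs
  · rfl
  · exact RCLike.norm_conj z

theorem ll7_Uf_le {s : ℕ} (f : ℤ → ℂ) (hf : ∀ y, ‖f y‖ ≤ 1) (z : ℤ) (ω : Fin s → Bool) (y : ℤ) :
    ‖Uf (s := s) f z ω y‖ ≤ 1 := by
  unfold Uf
  rw [norm_mul, ll7_cj]
  refine mul_le_one₀ ?_ (norm_nonneg _) (hf _)
  split_ifs
  · rw [norm_one]
  · rw [ll7_cj]
    exact hf _

theorem ll7_num (n : ℕ) (hn : 1 ≤ n) (X C m e1 e2 e3 : ℝ) (hX : 0 ≤ X) (hC : 0 ≤ C) (hm : 0 ≤ m) (he3 : 0 ≤ e3)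
    (he : 4 * X * e1 + 2 * X * e2 ≤ 16 * (X * e3)) :
    C * (2 * X) ^ (n - 1) * ((m + 4 * X * e1) + 2 * X * e2) ≤ 16 * 2 ^ n * C * X ^ (n - 1) * (m + X * e3) := by
  have h1 : (2 * X) ^ (n - 1) ≤ 2 ^ n * X ^ (n - 1) := by
    rw [mul_pow]
    refine mul_le_mul_of_nonneg_right ?_ (by positivity)
    exact pow_le_pow_right₀ (by norm_num) (by omega)
  have h2 : (m + 4 * X * e1) + 2 * X * e2 ≤ 16 * (m + X * e3) := by linarith
  have h3 : 0 ≤ C * (2 * X) ^ (n - 1) := by positivity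
  have h4 : 0 ≤ 16 * (m + X * e3) := by positivity
  calc C * (2 * X) ^ (n - 1) * ((m + 4 * X * e1) + 2 * X * e2) ≤ C * (2 * X) ^ (n - 1) * (16 * (m + X * e3)) :=
        mul_le_mul_of_nonneg_left h2 h3
      _ ≤ C * (2 ^ n * X ^ (n - 1)) * (16 * (m + X * e3)) :=
        mul_le_mul_of_nonneg_right (mul_le_mul_of_nonneg_left h1 hC) h4
      _ = 16 * 2 ^ n * C * X ^ (n - 1) * (m + X * e3) := by ring

/-- `s ≥ 1`. `d = b b' q`, `γ = gcd`. `(max 0 SPd)^n ≤ (∑ fw fw ‖TT‖ / M²)^n ≤ (∑ fw fw ‖TT‖^n) / M²` (`n = 2^s`, Jensen, total weight 1), `LL3_main` for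
`2X` in place of `X`: product of the vertices `0` supported in `[-2X, 2X)` (`|b q t| ≤ 2 K q M ≤ X`); `LL7_Uf`, `LL7_shift`:
`NU (2X) s H d (..) = NU X s H d (DD (q (b t - b' t')) f)`; then
`(∑_{t,t'} fw fw NU X s H d (DD (q (b t - b' t')) f)) / M² = (∑_k FW H k (∑_{t,t'} fw fw ∑_y DD (q (..)) (DV (d k) f) y).re / M²) / H^s` and `LL5_last` for
`g = DV (d k) f` (`Bdd_DV`; `DD h (DV k f) = DV k (DD h f)`, `D0`/`P0`); finally `mq2_rep`, `MQ_one`, `MQ_perm`: the main term is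
`MQ X ((R, q γ) :: replicate s (H, d)) f`. Errors: `2X (b + b') H / M ≤ 8 X K H / M` and `4X (4K + γ R / K) / M`. -/
theorem LL7_pair (s : ℕ) : ∃ C : ℝ, 1 ≤ C ∧ ∀ X M K H R b b' q : ℕ, 1 ≤ X → 1 ≤ M → 1 ≤ K → 1 ≤ H → 1 ≤ R →
    b ∈ Ioc K (2 * K) → b' ∈ Ioc K (2 * K) → q * Nat.gcd b b' * R ≤ X → 2 * q * K * M ≤ X → b * b' * q * H ≤ X →
    4 * K * H ≤ M → ∀ f : ℤ → ℂ, Bdd X f →
    (max 0 (SPd X s M (b * q) (b' * q) f)) ^ (2 ^ s) ≤ C * (X : ℝ) ^ (2 ^ s - 1) *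
      ((MQ X ((R, ((q * Nat.gcd b b' : ℕ) : ℤ)) :: List.replicate s (H, ((b * b' * q : ℕ) : ℤ))) f).re +
        X * ((K * H + K + Nat.gcd b b' * R / K) / M)) := by
  rcases Nat.eq_zero_or_pos s with rfl | hs
  · refine ⟨16, by norm_num, ?_⟩
    intro X M K H R b b' q hX hM hK hH hR hb hb' hq hKM hbH hKH f hf
    have h1 := LL7_zero X M K R b b' q hM hK hR hb hb' hq hKM f hf
    obtain ⟨m, hm0, hm⟩ := MQ_nonneg X [(R, ((q * Nat.gcd b b' : ℕ) : ℤ))] (List.cons_ne_nil _ _) (by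
      intro p hp
      rw [List.mem_singleton] at hp
      subst hp
      refine ⟨hR, by positivity, ?_⟩
      show ((q * Nat.gcd b b' : ℕ) : ℤ) * (R : ℤ) ≤ X
      exact_mod_cast hq) f hf.sup
    rw [hm, Complex.ofReal_re] at h1
    rw [pow_zero, pow_one, List.replicate_zero, hm, Complex.ofReal_re, Nat.sub_self, pow_zero, mul_one]
    have hX0 : (0 : ℝ) < X := by exact_mod_cast hX
    have hM0 : (0 : ℝ) < M := by exact_mod_cast hM
    have hK0 : (0 : ℝ) < K := by exact_mod_cast hK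
    have hH0 : (0 : ℝ) < H := by exact_mod_cast hH
    have hg0 : (0 : ℝ) ≤ (Nat.gcd b b' : ℝ) * R / K := by positivity
    have h2 : (4 * (K : ℝ) + Nat.gcd b b' * R / K) / M ≤ 4 * ((K * H + K + Nat.gcd b b' * R / K) / M) := by
      rw [← mul_div_assoc]
      refine div_le_div_of_nonneg_right ?_ hM0.le
      have : 0 ≤ (K : ℝ) * H := by positivity
      linarith
    have h3 : 0 ≤ ((K : ℝ) * H + K + Nat.gcd b b' * R / K) / M := by positivity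
    refine max_le (by positivity) (h1.trans ?_)
    have h4 := mul_le_mul_of_nonneg_left h2 (by positivity : (0 : ℝ) ≤ 4 * X)
    nlinarith
  obtain ⟨C, hC1, hC⟩ := LL3_main s hs
  have hn1 : 1 ≤ 2 ^ s := Nat.one_le_two_pow
  refine ⟨16 * 2 ^ (2 ^ s) * C, ?_, ?_⟩
  · have h1 : (1 : ℝ) ≤ 2 ^ (2 ^ s) := one_le_pow₀ (by norm_num)
    nlinarith
  intro X M K H R b b' q hX hM hK hH hR hb hb' hq hKM hbH hKH f hf
  have hX0 : (0 : ℝ) < X := by exact_mod_cast hX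
  have hM0 : (0 : ℝ) < M := by exact_mod_cast hM
  have hK0 : (0 : ℝ) < K := by exact_mod_cast hK
  have hH0 : (0 : ℝ) < H := by exact_mod_cast hH
  have hb1 := mem_Ioc.1 hb
  have hb2 := mem_Ioc.1 hb'
  set L : List (ℕ × ℤ) := List.replicate s (H, ((b * b' * q : ℕ) : ℤ)) with hL
  have hLp : ∀ p ∈ L, p = (H, ((b * b' * q : ℕ) : ℤ)) := fun p hp => (List.mem_replicate.1 hp).2
  obtain ⟨m, hm0, hm⟩ := MQ_nonneg X ((R, ((q * Nat.gcd b b' : ℕ) : ℤ)) :: L) (List.cons_ne_nil _ _) (by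
    intro p hp
    rcases List.mem_cons.1 hp with h | h
    · subst h
      refine ⟨hR, by positivity, ?_⟩
      show ((q * Nat.gcd b b' : ℕ) : ℤ) * (R : ℤ) ≤ X
      exact_mod_cast hq
    · rw [hLp p h]
      refine ⟨hH, by positivity, ?_⟩
      show ((b * b' * q : ℕ) : ℤ) * (H : ℤ) ≤ X
      exact_mod_cast hbH) f hf.sup
  rw [hm, Complex.ofReal_re]
  -- the last coordinate
  have hlast := ll7_last X M K R b b' q hM hK hR hb hb' hq L (fun p hp => by rw [hLp p hp]; exact hH) f hf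
  rw [← MQ_perm X (List.perm_append_singleton (R, ((q * Nat.gcd b b' : ℕ) : ℤ)) L).symm f, hm, Complex.ofReal_re,
    ll7_re _ (fun x : ℤ × ℤ => fw M x.1 * fw M x.2)] at hlast
  set S : Finset (ℤ × ℤ) := Ioo (-(M : ℤ)) M ×ˢ Ioo (-(M : ℤ)) M with hS
  set T : ℤ × ℤ → ℂ := fun x => TT (2 * X) M (b * q) (b' * q) (Uf (s := s) f (b * q * x.1))
    (cU (Uf (s := s) f (b' * q * x.2))) with hT
  have hw0 : ∀ x : ℤ × ℤ, 0 ≤ fw M x.1 * fw M x.2 := fun x => mul_nonneg (mq2_fw_nonneg M _) (mq2_fw_nonneg M _)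
  have hws : ∑ x ∈ S, fw M x.1 * fw M x.2 = (M : ℝ) ^ 2 := by
    rw [hS, Finset.sum_product, ← Finset.sum_mul_sum, mq2_fw_sum M hM]
    ring
  have hSP : SPd X s M (b * q) (b' * q) f ≤ ∑ x ∈ S, fw M x.1 * fw M x.2 / (M : ℝ) ^ 2 * ‖T x‖ := by
    unfold SPd
    rw [← Finset.sum_product' (Ioo (-(M : ℤ)) M) (Ioo (-(M : ℤ)) M) (fun t t' => ((fw M t * fw M t' : ℝ) : ℂ) *
      TT (2 * X) M (b * q) (b' * q) (Uf (s := s) f (b * q * t)) (cU (Uf (s := s) f (b' * q * t')))),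
      ll7_re _ (fun x : ℤ × ℤ => fw M x.1 * fw M x.2), Finset.sum_div]
    refine Finset.sum_le_sum fun x _ => ?_
    rw [div_mul_eq_mul_div]
    refine div_le_div_of_nonneg_right ?_ (by positivity)
    exact mul_le_mul_of_nonneg_left (Complex.re_le_norm _) (hw0 x)
  have hSP0 : 0 ≤ ∑ x ∈ S, fw M x.1 * fw M x.2 / (M : ℝ) ^ 2 * ‖T x‖ := by
    refine Finset.sum_nonneg fun x _ => ?_
    have := hw0 x
    positivity
  have hJ := Real.pow_arith_mean_le_arith_mean_pow S (fun x => fw M x.1 * fw M x.2 / (M : ℝ) ^ 2) (fun x => ‖T x‖)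
    (fun x _ => by
      have := hw0 x
      positivity) (by
      rw [← Finset.sum_div, hws]
      exact div_self (by positivity)) (fun x _ => norm_nonneg _) (2 ^ s)
  -- the bound for one pair
  have hbb : (b + b') * H ≤ M := by
    refine le_trans (Nat.mul_le_mul_right H ?_) hKH
    omega
  have hpt : ∀ x ∈ S, ‖T x‖ ^ (2 ^ s) ≤ C * (2 * (X : ℝ)) ^ (2 ^ s - 1) *
      ((MQ X L (DD ((q : ℤ) * (b * x.1 - b' * x.2)) f)).re + 2 * X * (((b : ℝ) + b') * H / M)) := by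
    intro x hx
    rw [hS, mem_product, mem_Ioo, mem_Ioo] at hx
    have hz' : |(b' : ℤ) * q * x.2| ≤ X := by
      rw [abs_mul, abs_of_nonneg (by positivity : (0 : ℤ) ≤ (b' : ℤ) * q)]
      have h1 : |x.2| ≤ M := abs_le.2 ⟨hx.2.1.le, hx.2.2.le⟩
      calc (b' : ℤ) * q * |x.2| ≤ b' * q * M := mul_le_mul_of_nonneg_left h1 (by positivity)
        _ ≤ ((2 * q * K * M : ℕ) : ℤ) := by
          have h2 : b' * q * M ≤ 2 * q * K * M := by
            refine Nat.mul_le_mul_right M ?_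
            calc b' * q ≤ (2 * K) * q := Nat.mul_le_mul_right q hb2.2
              _ = 2 * q * K := by ring
          exact_mod_cast h2
        _ ≤ X := by exact_mod_cast hKM
    have hz'' := abs_le.1 hz'
    have hfun : (fun y => Uf (s := s) f (b * q * x.1) (zv s) y * cU (Uf (s := s) f (b' * q * x.2)) (zv s) y) =
        fun y => DD ((q : ℤ) * (b * x.1 - b' * x.2)) f (y + b' * q * x.2) := by
      funext y
      rw [LL7_Uf]
      congr 1
      ring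
    have hsup : ∀ y, y ∉ Ico (-((2 * X : ℕ) : ℤ)) ((2 * X : ℕ) : ℤ) →
        DD ((q : ℤ) * (b * x.1 - b' * x.2)) f (y + b' * q * x.2) = 0 := by
      intro y hy
      refine ll7_DD0 _ _ _ (hf.sup _ fun h => hy ?_)
      rw [mem_Ico] at h ⊢
      push_cast
      constructor <;> linarith [h.1, h.2]
    have h1 := hC (2 * X) M H b b' q (by omega) hM hH (by omega) hbb (Uf (s := s) f (b * q * x.1))
      (cU (Uf (s := s) f (b' * q * x.2))) (fun ω y => ll7_Uf_le f hf.le _ ω y) (fun ω y => by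
        unfold cU
        rw [RCLike.norm_conj]
        exact ll7_Uf_le f hf.le _ ω y) (fun y hy => (congrFun hfun y).trans (hsup y hy))
    rw [hfun, LL7_shift X (2 * X) s H _ (b' * q * x.2) (DD ((q : ℤ) * (b * x.1 - b' * x.2)) f)
      (fun y hy => ll7_DD0 _ _ _ (hf.sup y hy)) hsup, ← MQ_NU X s H hH] at h1
    push_cast at h1
    have h3 : ((b : ℤ) * b' * q) = ((b * b' * q : ℕ) : ℤ) := by push_cast; rfl
    rw [h3] at h1
    exact h1
  refine (pow_le_pow_left₀ (le_max_left _ _) (max_le hSP0 hSP) _).trans (hJ.trans ?_)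
  have hfin : ∑ x ∈ S, fw M x.1 * fw M x.2 / (M : ℝ) ^ 2 * ‖T x‖ ^ (2 ^ s) ≤ C * (2 * (X : ℝ)) ^ (2 ^ s - 1) *
      ((m + 4 * X * ((4 * K + Nat.gcd b b' * R / K) / M)) + 2 * X * (((b : ℝ) + b') * H / M)) := by
    calc ∑ x ∈ S, fw M x.1 * fw M x.2 / (M : ℝ) ^ 2 * ‖T x‖ ^ (2 ^ s) ≤
        ∑ x ∈ S, fw M x.1 * fw M x.2 / (M : ℝ) ^ 2 * (C * (2 * (X : ℝ)) ^ (2 ^ s - 1) *
          ((MQ X L (DD ((q : ℤ) * (b * x.1 - b' * x.2)) f)).re + 2 * X * (((b : ℝ) + b') * H / M))) := by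
          refine Finset.sum_le_sum fun x hx => mul_le_mul_of_nonneg_left (hpt x hx) ?_
          have := hw0 x
          positivity
      _ = C * (2 * (X : ℝ)) ^ (2 ^ s - 1) * ((∑ x ∈ S, fw M x.1 * fw M x.2 *
          (MQ X L (DD ((q : ℤ) * (b * x.1 - b' * x.2)) f)).re) / (M : ℝ) ^ 2 +
          (∑ x ∈ S, fw M x.1 * fw M x.2) / (M : ℝ) ^ 2 * (2 * X * (((b : ℝ) + b') * H / M))) := by
          rw [Finset.sum_div, Finset.sum_div, Finset.sum_mul, ← Finset.sum_add_distrib, Finset.mul_sum]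
          refine sum_congr rfl fun x _ => ?_
          ring
      _ ≤ C * (2 * (X : ℝ)) ^ (2 ^ s - 1) *
          ((m + 4 * X * ((4 * K + Nat.gcd b b' * R / K) / M)) + 2 * X * (((b : ℝ) + b') * H / M)) := by
          refine mul_le_mul_of_nonneg_left ?_ (by positivity)
          rw [hws, div_self (by positivity), one_mul]
          linarith
  refine hfin.trans ?_
  refine ll7_num (2 ^ s) hn1 X C m _ _ _ hX0.le (by linarith) hm0 (by positivity) ?_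
  have hbr : (b : ℝ) + b' ≤ 4 * K := by
    have : b + b' ≤ 4 * K := by omega
    exact_mod_cast this
  have h5 : ((b : ℝ) + b') * H / M ≤ 4 * (K * H / M) := by
    rw [← mul_div_assoc]
    refine div_le_div_of_nonneg_right ?_ hM0.le
    nlinarith
  have hg0 : (0 : ℝ) ≤ (Nat.gcd b b' : ℝ) * R / K / M := by positivity
  have hk0 : (0 : ℝ) ≤ (K : ℝ) * H / M := by positivity
  have hk1 : (0 : ℝ) ≤ (K : ℝ) / M := by positivity
  have e1 : (4 * (K : ℝ) + Nat.gcd b b' * R / K) / M = 4 * (K / M) + Nat.gcd b b' * R / K / M := by ring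
  have e2 : ((K : ℝ) * H + K + Nat.gcd b b' * R / K) / M = K * H / M + K / M + Nat.gcd b b' * R / K / M := by ring
  rw [e1, e2]
  have h6 := mul_le_mul_of_nonneg_left h5 hX0.le
  have h7 := mul_nonneg hX0.le hg0
  have h8 := mul_nonneg hX0.le hk0
  have h9 := mul_nonneg hX0.le hk1
  linarith

end Pool.Agent.HUK
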