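import Mathlib

/-!
# Project HUK, chunk LL6 (S/M): counting (only Mathlib)
-/

open Finset

namespace Pool.Agent.HUK

/-- Few pairs have a large gcd: for `γ > G` there are at most `2K/γ` multiples of `γ` in `(K, 2K]` (`γ ≤ K`: at most `K/γ + 1`;
`K < γ ≤ 2K`: one; else none), and `∑_{γ>G} 1/γ² ≤ 1/G`. -/
theorem LL6_gcd (K G : ℕ) (hG : 1 ≤ G) :
    (((Ioc K (2 * K) ×ˢ Ioc K (2 * K)).filter (fun p : ℕ × ℕ => G < Nat.gcd p.1 p.2)).card : ℝ) ≤ 4 * (K : ℝ) ^ 2 / G := by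
  classical
  have hsub : ((Ioc K (2 * K) ×ˢ Ioc K (2 * K)).filter (fun p : ℕ × ℕ => G < Nat.gcd p.1 p.2)) ⊆
      (Ioc G (2 * K)).biUnion (fun γ => ((Ioc 0 (2 * K)).filter (fun a => γ ∣ a)) ×ˢ ((Ioc 0 (2 * K)).filter (fun a => γ ∣ a))) := by
    intro p hp
    rw [mem_filter, mem_product, mem_Ioc, mem_Ioc] at hp
    obtain ⟨⟨⟨h1, h2⟩, h3, h4⟩, h5⟩ := hp
    rw [mem_biUnion]
    refine ⟨Nat.gcd p.1 p.2, ?_, ?_⟩
    · rw [mem_Ioc]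
      refine ⟨h5, ?_⟩
      have : Nat.gcd p.1 p.2 ≤ p.1 := Nat.le_of_dvd (by omega) (Nat.gcd_dvd_left _ _)
      omega
    · rw [mem_product, mem_filter, mem_filter, mem_Ioc, mem_Ioc]
      exact ⟨⟨⟨by omega, h2⟩, Nat.gcd_dvd_left _ _⟩, ⟨⟨by omega, h4⟩, Nat.gcd_dvd_right _ _⟩⟩
  have hcard : ∀ γ ∈ Ioc G (2 * K), (((((Ioc 0 (2 * K)).filter (fun a => γ ∣ a)) ×ˢ ((Ioc 0 (2 * K)).filter (fun a => γ ∣ a))).card : ℕ) : ℝ) ≤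
      4 * (K : ℝ) ^ 2 * ((γ : ℝ) ^ 2)⁻¹ := by
    intro γ hγ
    rw [mem_Ioc] at hγ
    have hγ0 : (0 : ℝ) < γ := by
      have : 0 < γ := by omega
      exact_mod_cast this
    rw [card_product, Nat.Ioc_filter_dvd_card_eq_div]
    push_cast
    have h1 : (((2 * K / γ : ℕ)) : ℝ) ≤ (2 * (K : ℝ)) / γ := by
      have := @Nat.cast_div_le ℝ _ _ _ (2 * K) γ
      push_cast at this
      exact this
    have h0 : (0 : ℝ) ≤ (((2 * K / γ : ℕ)) : ℝ) := Nat.cast_nonneg _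
    calc (((2 * K / γ : ℕ)) : ℝ) * (((2 * K / γ : ℕ)) : ℝ) ≤ ((2 * (K : ℝ)) / γ) * ((2 * (K : ℝ)) / γ) :=
          mul_le_mul h1 h1 h0 (le_trans h0 h1)
      _ = 4 * (K : ℝ) ^ 2 * ((γ : ℝ) ^ 2)⁻¹ := by
          field_simp
          ring
  have hG0 : (0 : ℝ) < G := by exact_mod_cast hG
  have hsum : (∑ γ ∈ Ioc G (2 * K), ((γ : ℝ) ^ 2)⁻¹) ≤ (G : ℝ)⁻¹ := by
    rcases le_or_gt G (2 * K) with h | h
    · have h1 := @sum_Ioc_inv_sq_le_sub ℝ _ _ _ G (2 * K) (by omega) h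
      have h2 : (0 : ℝ) ≤ (((2 * K : ℕ)) : ℝ)⁻¹ := by positivity
      linarith
    · rw [Ioc_eq_empty (by omega), sum_empty]
      positivity
  calc (((Ioc K (2 * K) ×ˢ Ioc K (2 * K)).filter (fun p : ℕ × ℕ => G < Nat.gcd p.1 p.2)).card : ℝ)
      ≤ ((((Ioc G (2 * K)).biUnion (fun γ => ((Ioc 0 (2 * K)).filter (fun a => γ ∣ a)) ×ˢ ((Ioc 0 (2 * K)).filter (fun a => γ ∣ a)))).card : ℕ) : ℝ) := by
        exact_mod_cast card_le_card hsub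
    _ ≤ ((∑ γ ∈ Ioc G (2 * K), (((Ioc 0 (2 * K)).filter (fun a => γ ∣ a)) ×ˢ ((Ioc 0 (2 * K)).filter (fun a => γ ∣ a))).card : ℕ) : ℝ) := by
        exact_mod_cast card_biUnion_le
    _ = ∑ γ ∈ Ioc G (2 * K), (((((Ioc 0 (2 * K)).filter (fun a => γ ∣ a)) ×ˢ ((Ioc 0 (2 * K)).filter (fun a => γ ∣ a))).card : ℕ) : ℝ) := by
        rw [Nat.cast_sum]
    _ ≤ ∑ γ ∈ Ioc G (2 * K), 4 * (K : ℝ) ^ 2 * ((γ : ℝ) ^ 2)⁻¹ := sum_le_sum hcard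
    _ = 4 * (K : ℝ) ^ 2 * ∑ γ ∈ Ioc G (2 * K), ((γ : ℝ) ^ 2)⁻¹ := by rw [mul_sum]
    _ ≤ 4 * (K : ℝ) ^ 2 * (G : ℝ)⁻¹ := mul_le_mul_of_nonneg_left hsum (by positivity)
    _ = 4 * (K : ℝ) ^ 2 / G := by rw [div_eq_mul_inv]

/-- Products of pairs: `n = p.1 p.2` is in `(K², 4K²]` and has at most `n.divisors.card` representations. -/
theorem LL6_div (K : ℕ) (D : ℝ) (hD : ∀ n : ℕ, 1 ≤ n → n ≤ 4 * K ^ 2 → (n.divisors.card : ℝ) ≤ D) (Φ : ℕ → ℝ) (hΦ : ∀ n, 0 ≤ Φ n) :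
    ∑ p ∈ Ioc K (2 * K) ×ˢ Ioc K (2 * K), Φ (p.1 * p.2) ≤
      D * (∑ n ∈ Ioc (K ^ 2) (2 * K ^ 2), Φ n + ∑ n ∈ Ioc (2 * K ^ 2) (2 * (2 * K ^ 2)), Φ n) := by
  classical
  have hmaps : ∀ p ∈ Ioc K (2 * K) ×ˢ Ioc K (2 * K), p.1 * p.2 ∈ Ioc (K ^ 2) (4 * K ^ 2) := by
    intro p hp
    rw [mem_product, mem_Ioc, mem_Ioc] at hp
    obtain ⟨⟨h1, h2⟩, h3, h4⟩ := hp
    rw [mem_Ioc]
    refine ⟨?_, ?_⟩
    · calc K ^ 2 = K * K := by ring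
        _ < p.1 * p.2 := Nat.mul_lt_mul_of_lt_of_lt h1 h3
    · calc p.1 * p.2 ≤ (2 * K) * (2 * K) := Nat.mul_le_mul h2 h4
        _ = 4 * K ^ 2 := by ring
  have hfib : ∀ n ∈ Ioc (K ^ 2) (4 * K ^ 2), (∑ p ∈ (Ioc K (2 * K) ×ˢ Ioc K (2 * K)) with p.1 * p.2 = n, Φ (p.1 * p.2)) ≤ D * Φ n := by
    intro n hn
    rw [mem_Ioc] at hn
    have h1 : (∑ p ∈ (Ioc K (2 * K) ×ˢ Ioc K (2 * K)) with p.1 * p.2 = n, Φ (p.1 * p.2)) =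
        (((Ioc K (2 * K) ×ˢ Ioc K (2 * K)).filter (fun p : ℕ × ℕ => p.1 * p.2 = n)).card : ℝ) * Φ n := by
      rw [← nsmul_eq_mul, ← sum_const]
      refine sum_congr rfl ?_
      intro p hp
      rw [mem_filter] at hp
      rw [hp.2]
    rw [h1]
    refine mul_le_mul_of_nonneg_right ?_ (hΦ n)
    refine le_trans ?_ (hD n (by omega) hn.2)
    have h2 : ((Ioc K (2 * K) ×ˢ Ioc K (2 * K)).filter (fun p : ℕ × ℕ => p.1 * p.2 = n)).card ≤ n.divisors.card := by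
      refine card_le_card_of_injOn (fun p : ℕ × ℕ => p.1) ?_ ?_
      · intro p hp
        have hp' := mem_filter.mp (mem_coe.mp hp)
        rw [mem_coe, Nat.mem_divisors]
        refine ⟨⟨p.2, hp'.2.symm⟩, by omega⟩
      · intro p hp q hq hpq
        have hp' := mem_filter.mp (mem_coe.mp hp)
        have hq' := mem_filter.mp (mem_coe.mp hq)
        have hpq' : p.1 = q.1 := hpq
        have hpp := mem_product.mp hp'.1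
        have hp1 := mem_Ioc.mp hpp.1
        have h3 : p.1 * p.2 = p.1 * q.2 := by
          rw [hp'.2, hpq', hq'.2]
        have h4 : p.2 = q.2 := Nat.eq_of_mul_eq_mul_left (by omega) h3
        exact Prod.ext hpq' h4
    exact_mod_cast h2
  have hunion : Ioc (K ^ 2) (4 * K ^ 2) = Ioc (K ^ 2) (2 * K ^ 2) ∪ Ioc (2 * K ^ 2) (2 * (2 * K ^ 2)) := by
    ext n
    rw [mem_union, mem_Ioc, mem_Ioc, mem_Ioc]
    generalize K ^ 2 = k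
    omega
  have hdisj : Disjoint (Ioc (K ^ 2) (2 * K ^ 2)) (Ioc (2 * K ^ 2) (2 * (2 * K ^ 2))) := by
    rw [disjoint_left]
    intro n hn hn'
    rw [mem_Ioc] at hn hn'
    omega
  calc ∑ p ∈ Ioc K (2 * K) ×ˢ Ioc K (2 * K), Φ (p.1 * p.2)
      = ∑ n ∈ Ioc (K ^ 2) (4 * K ^ 2), ∑ p ∈ (Ioc K (2 * K) ×ˢ Ioc K (2 * K)) with p.1 * p.2 = n, Φ (p.1 * p.2) :=
        (sum_fiberwise_of_maps_to hmaps _).symm
    _ ≤ ∑ n ∈ Ioc (K ^ 2) (4 * K ^ 2), D * Φ n := sum_le_sum hfib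
    _ = D * ∑ n ∈ Ioc (K ^ 2) (4 * K ^ 2), Φ n := by rw [mul_sum]
    _ = D * (∑ n ∈ Ioc (K ^ 2) (2 * K ^ 2), Φ n + ∑ n ∈ Ioc (2 * K ^ 2) (2 * (2 * K ^ 2)), Φ n) := by
        rw [hunion, sum_union hdisj]

end Pool.Agent.HUK
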