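import Pool.Agent.Lib.HUK.DDefs

/-!
# Project HUK, chunk D14 (S/M): systems of finite complexity
-/

open Finset

namespace Pool.Agent.HUK

open Pool.Agent.H9U (Sys)

theorem D14_smul {k d : ℕ} (S : Sys k d) (i : Fin k) (c s : ℤ) (u : Fin d → ℤ) :
    S.lin i (c * s) (fun r => c * u r) = c * S.lin i s u := by
  unfold Sys.lin
  rw [mul_add, Finset.mul_sum]
  have h1 : ∀ r, S.c i r * (c * u r) = c * (S.c i r * u r) := fun r => by ring
  rw [Finset.sum_congr rfl fun r _ => h1 r]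
  ring

/-- The directions of elimination, all with the same value of the form `i0`. Proof. For `j ≠ i0` let `(s_j, u_j)` be the vector of `SysFin` for the pair
`(i0, j)`: `lin j s_j u_j = 0`, `e_j = lin i0 s_j u_j ≠ 0`; for `j = i0` the vector `(1, 0)`, `e_{i0} = a i0`. `Λ = ∏_j e_j`, `v_j = (Λ / e_j) (s_j, u_j)`,
written with the factor `∏_{l ≠ j} e_l` instead of the quotient (`lin` is linear; `Finset.mul_prod_erase`). -/
theorem D14_vec {k d : ℕ} (S : Sys k d) (hS : SysFin S) (i0 : Fin k) : ∃ Λ : ℤ, Λ ≠ 0 ∧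
    ∃ v : Fin k → ℤ × (Fin d → ℤ), (∀ j, S.lin i0 (v j).1 (v j).2 = Λ) ∧ (∀ j, j ≠ i0 → S.lin j (v j).1 (v j).2 = 0) ∧
      (v i0).2 = 0 := by
  classical
  have hw : ∀ j, ∃ w : ℤ × (Fin d → ℤ), S.lin i0 w.1 w.2 ≠ 0 ∧ (j ≠ i0 → S.lin j w.1 w.2 = 0) ∧
      (j = i0 → w.2 = 0) := by
    intro j
    by_cases hj : j = i0
    · refine ⟨(1, 0), ?_, fun h => absurd hj h, fun _ => rfl⟩
      have h1 : S.lin i0 1 0 = S.a i0 := by
        unfold Sys.lin
        simp
      show S.lin i0 1 0 ≠ 0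
      rw [h1]
      exact hS.1 i0
    · obtain ⟨s, u, h1, h2⟩ := hS.2 i0 j (Ne.symm hj)
      exact ⟨(s, u), h2, fun _ => h1, fun h => absurd h hj⟩
  choose w hw1 hw2 hw3 using hw
  let e : Fin k → ℤ := fun j => S.lin i0 (w j).1 (w j).2
  refine ⟨∏ j, e j, Finset.prod_ne_zero_iff.2 fun j _ => hw1 j,
    fun j => ((∏ l ∈ univ.erase j, e l) * (w j).1,
      fun r => (∏ l ∈ univ.erase j, e l) * (w j).2 r), ?_, ?_, ?_⟩
  · intro j
    show S.lin i0 ((∏ l ∈ univ.erase j, e l) * (w j).1)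
      (fun r => (∏ l ∈ univ.erase j, e l) * (w j).2 r) = ∏ j, e j
    rw [D14_smul]
    exact Finset.prod_erase_mul univ e (Finset.mem_univ j)
  · intro j hj
    show S.lin j ((∏ l ∈ univ.erase j, e l) * (w j).1)
      (fun r => (∏ l ∈ univ.erase j, e l) * (w j).2 r) = 0
    rw [D14_smul, hw2 j hj, mul_zero]
  · funext r
    show (∏ l ∈ univ.erase i0, e l) * (w i0).2 r = 0
    rw [hw3 i0 rfl, Pi.zero_apply, mul_zero]

/-- Proof. As `T6S_ne` (`H9U/T6.lean`): otherwise `a_i lin_j = a_j lin_i` as functions, and at the vector `(s, u)` of `SysFin` for `(i, j)` the left side is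
`0` and the right side is not. -/
theorem D14_min {k d : ℕ} (S : Sys k d) (hS : SysFin S) : MinP S := by
  intro i j hij
  by_contra hc
  push Not at hc
  have key : ∀ (s : ℤ) (u : Fin d → ℤ), S.a i * S.lin j s u = S.a j * S.lin i s u := by
    intro s u
    unfold Sys.lin
    rw [mul_add, mul_add, Finset.mul_sum, Finset.mul_sum]
    have h1 : ∀ r, S.a i * (S.c j r * u r) = S.a j * (S.c i r * u r) := by
      intro r
      have h2 := hc r
      linear_combination u r * h2
    rw [Finset.sum_congr rfl fun r _ => h1 r]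
    ring
  obtain ⟨s, u, h1, h2⟩ := hS.2 i j hij
  have h3 := key s u
  rw [h1, mul_zero] at h3
  rcases mul_eq_zero.1 h3.symm with h4 | h4
  · exact hS.1 j h4
  · exact h2 h4

/-- Proof. The vector `(s, u) = (-c_jr, a_j e_r)` (`e_r` the unit vector; `Pi.single r (S.a j)`): `lin j = 0` and `lin i = a_j c_ir - a_i c_jr ≠ 0`. -/
theorem D14_fin {k d : ℕ} (S : Sys k d) (ha : ∀ i, S.a i ≠ 0) (hS : MinP S) : SysFin S := by
  classical
  refine ⟨ha, fun i j hij => ?_⟩
  obtain ⟨r, hr⟩ := hS i j hij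
  have hlin : ∀ l, S.lin l (-S.c j r) (Pi.single r (S.a j)) = S.a l * (-S.c j r) + S.c l r * S.a j := by
    intro l
    unfold Sys.lin
    rw [Finset.sum_eq_single r]
    · rw [Pi.single_eq_same]
    · intro r' _ hr'
      rw [Pi.single_eq_of_ne hr', mul_zero]
    · intro h
      exact absurd (Finset.mem_univ _) h
  refine ⟨-S.c j r, Pi.single r (S.a j), ?_, ?_⟩
  · rw [hlin]
    ring
  · rw [hlin]
    intro h
    apply hr
    linear_combination -h

end Pool.Agent.HUK
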