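import Pool.Agent.Lib.HUK.DDefs
import Pool.Agent.Lib.H9U.Z4A

/-!
# Project HUK, chunk D32: the average over `t` (copy of `Z4A_avg`)
-/

open Finset

namespace Pool.Agent.HUK

open Pool.Agent.H9U
open Pool.Agent.Lib.H68T (lp Lk PC p0)
open Pool.Agent.Lib.H18Q (gk KS SG Bc RegP)
open Pool.Agent.Lib.H59P (Ch SF bx TS Rp MX pr)

/-- Proof. `K` the maximum of the constants of `U7_tel`, `V1S`, `UM_mass` and `20`. With `H = X / Q^8` (so `H Q^8 ≤ X`, `Q ≤ H` since `20 log Q ≤ log X`, hence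
`Q'^(10 (k+1)) ≤ H`) add: `U7_tel` (exponent `κ4`); `V1S` for each `t` (`T^d X/Q`, `Q ≥ X^(1/(2 Cr))`); `Z2S` with `Q := Q'` for each cell `j < L/H`, `a = j H`,
`c' t i p = Bc Q (Xs i) p (val b (jH) (iv t) i)`, `mb` from `UM_mass` for `(Q, Xs i)` (restricted to `PC Q' ⊆ PC Q`): the sum over the cells is at most
`(L/H) H T^d M^k C (1+log Q')^C D2^(-c)`, `L ≤ C0 X`, `T ≤ C0 X`, `D2 ≥ Q'^δ3 ≥ X^(θ δ3)` (`Rgm.low`, `X ≤ Xs i`). `κ = min (κ4) (1/(2Cr)) (c θ δ3)/2`. (`k = 0`: `Fin 0` has no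
`Xs i`; then both products are `1`, the difference is at most `H`; or use `PS: 1 ≤ k`.) -/
theorem D32_avg {k d : ℕ} (hk : 1 ≤ k) (S : Sys k d) (hT : TelP S) (hL : LBig S) : ∃ K : ℝ, 1 ≤ K ∧
    ∀ Cr θ δ3 : ℝ, 1 ≤ Cr → 0 < θ → 0 < δ3 → ∀ C0 : ℕ, ∃ κ : ℝ, 0 < κ ∧ ∃ X0 : ℕ, ∀ Q Q' X : ℕ, X0 ≤ X →
    ∀ Xs : Fin k → ℕ, (∀ i, X ≤ Xs i ∧ Xs i ≤ C0 * X) → (∀ i, Rgm K Cr θ Q Q' (Xs i)) → Q' ^ (20 * (k + 1)) ≤ Q →
    ∀ (D D1 D2 : ℕ) (px : Ch), 1 ≤ D2 → px.1 * D2 ≤ D1 → D1 ≤ D → D ≤ Q' → px ∈ PC Q' → (Q' : ℝ) ^ δ3 ≤ D2 →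
    ∀ (b : Fin k → ℤ) (L T : ℕ), L ≤ C0 * X → T ≤ C0 * X → Q' ^ (10 * (k + 1)) ≤ T →
    (∀ i, ∀ n ∈ range L, ∀ t ∈ bx d T, S.val b n (iv t) i ∈ JJ (Xs i)) →
    ∑ t ∈ bx d T, ‖((∑ n ∈ range L, ∏ i, lp (S.val b n (iv t) i) : ℝ) : ℂ) -
      ∑ j ∈ range (L / (X / Q ^ 8)), ((X / Q ^ 8 : ℕ) : ℂ) * MCS S b (iv t) Q' D D1 px
        (fun i p => Bc Q (Xs i) p (S.val b ((j * (X / Q ^ 8) : ℕ) : ℤ) (iv t) i))‖ ≤ (X : ℝ) ^ (1 + d - κ) := by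
  obtain ⟨K1, hK1, hU⟩ := hT
  obtain ⟨K2, hK2, hV⟩ := V1S S
  obtain ⟨K3, CM, hK3, hCM, hMs⟩ := Pool.Agent.Lib.H59T.UM_mass
  obtain ⟨c, C, hc, hC, hZ⟩ := Z2S S hL
  refine ⟨max (max K1 K2) (max K3 20), le_trans hK1 (le_trans (le_max_left _ _) (le_max_left _ _)), ?_⟩
  intro Cr θ δ3 hCr hθ hδ C0
  obtain ⟨κ4, hκ4, X4, hX4⟩ := hU Cr θ hCr hθ C0
  obtain ⟨Q0, hQ0⟩ := hV C0
  have hCr0 : 0 < Cr := by linarith
  obtain ⟨X5, hX5⟩ := u7_large (Q0 : ℝ) (1 / Cr) (by positivity)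
  obtain ⟨κ, hκ, X6, hX6⟩ := z4a_final d ((C0 : ℝ) ^ d)
    (CM ^ k * C * (1 + C / (c * θ * δ3 / 2)) ^ C * (C0 : ℝ) ^ (d + 1)) κ4 (1 / Cr) (c * θ * δ3 / 2)
    hκ4 (by positivity) (by positivity) (by positivity)
    (by
      have : (0:ℝ) ≤ (1 + C / (c * θ * δ3 / 2)) ^ C := Real.rpow_nonneg (by positivity) _
      positivity)
  refine ⟨κ, hκ, max (max X4 X5) (max X6 (max 1 C0)), ?_⟩
  intro Q Q' X hX Xs hXs hR hQ20 D D1 D2 px hD2 hD21 hD1 hDQ hpx hD2b b L T hLX hTX hTQ hval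
  have a4 : X4 ≤ X := le_trans (le_trans (le_max_left _ _) (le_max_left _ _)) hX
  have a5 : X5 ≤ X := le_trans (le_trans (le_max_right _ _) (le_max_left _ _)) hX
  have a6 : X6 ≤ X := le_trans (le_trans (le_max_left _ _) (le_max_right _ _)) hX
  have a7 : max 1 C0 ≤ X := le_trans (le_trans (le_max_right _ _) (le_max_right _ _)) hX
  have hX1 : 1 ≤ X := le_trans (le_max_left _ _) a7
  have hXC : C0 ≤ X := le_trans (le_max_right _ _) a7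
  have hX1r : (1:ℝ) ≤ X := by exact_mod_cast hX1
  obtain ⟨i0⟩ : Nonempty (Fin k) := ⟨⟨0, hk⟩⟩
  have hKpos : (0:ℝ) ≤ max (max K1 K2) (max K3 20) := by
    have := le_max_right K3 20
    have := le_max_right (max K1 K2) (max K3 20)
    linarith
  have hQ'1 : 1 ≤ Q' := by
    obtain ⟨p1, p2, -⟩ := Pool.Agent.Lib.H68T.mem_PC.1 hpx
    exact le_trans p1 p2
  have hQQ : Q' ≤ Q := (hR i0).le
  have hQ1 : 1 ≤ Q := le_trans hQ'1 hQQ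
  have hQpow : Q * Q ^ 8 ≤ X := z4a_Qpow Q X (Xs i0) C0 20 le_rfl
    ((hR i0).reg.mono hKpos (le_trans (le_max_right _ _) (le_max_right _ _))) (hXs i0).2 hXC
  have hQlow : (X : ℝ) ^ (1 / Cr) ≤ Q := z4a_Qlow Q X (Xs i0) Cr hCr hX1 (hXs i0).1 hQ1 (hR i0).log
  have hQ0' : Q0 ≤ Q := by exact_mod_cast le_trans (hX5 X a5) hQlow
  have hlow : (X : ℝ) ^ θ ≤ Q' := le_trans (Real.rpow_le_rpow (by linarith)
    (by exact_mod_cast (hXs i0).1) hθ.le) (hR i0).low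
  have hQX : Q ≤ X := by
    refine le_trans ?_ hQpow
    exact Nat.le_mul_of_pos_right _ (Nat.pow_pos hQ1)
  obtain ⟨H, hHd⟩ : ∃ H : ℕ, H = X / Q ^ 8 := ⟨_, rfl⟩
  rw [← hHd]
  have hQH : Q ≤ H := by
    rw [hHd, Nat.le_div_iff_mul_le (Nat.pow_pos hQ1)]
    exact hQpow
  have hH1 : 1 ≤ H := le_trans hQ1 hQH
  have hHX : H * Q ^ 8 ≤ X := by
    rw [hHd]
    exact Nat.div_mul_le_self _ _
  have hH10 : Q' ^ (10 * (k + 1)) ≤ H := by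
    refine le_trans (le_trans ?_ hQ20) hQH
    exact Nat.pow_le_pow_right hQ'1 (by omega)
  have hval' : ∀ i, ∀ n ∈ range L, ∀ t ∈ bx d T, (Xs i : ℤ) ≤ S.val b n (iv t) i ∧
      S.val b n (iv t) i ≤ 4 * Xs i := by
    intro i n hn t ht
    have h1 := hval i n hn t ht
    unfold JJ at h1
    have h2 := Finset.mem_Ico.1 h1
    constructor <;> omega
  have hms := fun i => hMs Q (Xs i) ((hR i).reg.mono hKpos (le_trans (le_max_left _ _) (le_max_right _ _)))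
  choose mb hmb0 hmbs hmb using hms
  have hR1 : ∀ i, Rgm K1 Cr θ Q Q' (Xs i) := fun i =>
    ⟨(hR i).reg.mono hKpos (le_trans (le_max_left _ _) (le_max_left _ _)), (hR i).log, (hR i).low, (hR i).le⟩
  have p1 := hX4 Q Q' X a4 Xs hXs hR1 b L T hLX hTX hval
  have p2 : ∀ t ∈ bx d T, _ := fun t ht => hQ0 Q Q' X H L hQ0' hQ'1 hQ20 hH1 hHX hLX Xs (fun i => (hXs i).1)
    (fun i => (hR i).reg.mono hKpos (le_trans (le_max_right _ _) (le_max_left _ _))) b (iv t)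
    (fun i n hn => hval' i n hn t ht)
  have p3 := z4a_cells S c C hZ Q Q' D D1 D2 H L T px hD2 hD21 hD1 hDQ hpx hQQ b hH1 hH10 hTQ Xs hval'
    CM hCM mb hmb0 hmbs hmb
  have q2 := z4a_second d C0 X Q T Cr hX1 hTX hQlow
  have q3 := z4a_third k d C0 c C CM θ δ3 hc hC hCM hθ hδ X Q' T L H D2 hQ'1 (le_trans hQQ hQX) hTX hLX hlow hD2b
  have q4 := hX6 X a6
  have tri : ∀ t ∈ bx d T, ‖((∑ n ∈ range L, ∏ i, lp (S.val b n (iv t) i) : ℝ) : ℂ) -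
      ∑ j ∈ range (L / H), ((H : ℕ) : ℂ) * MCS S b (iv t) Q' D D1 px
        (fun i p => Bc Q (Xs i) p (S.val b ((j * H : ℕ) : ℤ) (iv t) i))‖ ≤
      |∑ n ∈ range L, (∏ i, lp (S.val b n (iv t) i) - ∏ i, Lk Q' (Xs i / Q ^ 2) (S.val b n (iv t) i))| +
      (X / Q : ℝ) +
      ‖∑ j ∈ range (L / H), ∑ n ∈ Ico (j * H) (j * H + H),
        ∏ i, SG Q' (fun p => Bc Q (Xs i) p (S.val b ((j * H : ℕ) : ℤ) (iv t) i)) (S.val b n (iv t) i) -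
      ∑ j ∈ range (L / H), ((H : ℕ) : ℂ) * MCS S b (iv t) Q' D D1 px
        (fun i p => Bc Q (Xs i) p (S.val b ((j * H : ℕ) : ℤ) (iv t) i))‖ := by
    intro t ht
    have e1 : ‖((∑ n ∈ range L, ∏ i, lp (S.val b n (iv t) i) : ℝ) : ℂ) -
        ((∑ n ∈ range L, ∏ i, Lk Q' (Xs i / Q ^ 2) (S.val b n (iv t) i) : ℝ) : ℂ)‖ =
        |∑ n ∈ range L, (∏ i, lp (S.val b n (iv t) i) - ∏ i, Lk Q' (Xs i / Q ^ 2) (S.val b n (iv t) i))| := by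
      rw [← Complex.ofReal_sub, ← Finset.sum_sub_distrib, Complex.norm_real, Real.norm_eq_abs]
    have e2 := p2 t ht
    rw [← e1]
    refine le_trans (norm_sub_le_norm_sub_add_norm_sub _
      (((∑ n ∈ range L, ∏ i, Lk Q' (Xs i / Q ^ 2) (S.val b n (iv t) i) : ℝ) : ℂ)) _) ?_
    rw [add_assoc]
    refine add_le_add le_rfl ?_
    refine le_trans (norm_sub_le_norm_sub_add_norm_sub _ (∑ j ∈ range (L / H), ∑ n ∈ Ico (j * H) (j * H + H),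
        ∏ i, SG Q' (fun p => Bc Q (Xs i) p (S.val b ((j * H : ℕ) : ℤ) (iv t) i)) (S.val b n (iv t) i)) _) ?_
    exact add_le_add e2 le_rfl
  refine le_trans (Finset.sum_le_sum tri) ?_
  rw [Finset.sum_add_distrib, Finset.sum_add_distrib, Finset.sum_const, z4a_card, nsmul_eq_mul, Nat.cast_pow]
  refine le_trans ?_ q4
  exact add_le_add (add_le_add p1 q2) (le_trans p3 q3)

end Pool.Agent.HUK
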