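import Pool.Agent.Lib.HUK.D31
import Pool.Agent.Lib.HUK.D32
import Pool.Agent.Lib.H9U.Z4

/-!
# Project HUK, chunk D33: few `t` with few prime values, given data (copy of `Z4_count`)
-/

open Finset

namespace Pool.Agent.HUK

open Pool.Agent.H9U
open Pool.Agent.Lib.H68T (lp Lk PC p0)
open Pool.Agent.Lib.H18Q (gk KS SG Bc RegP)
open Pool.Agent.Lib.H59P (Ch SF bx TS Rp MX pr)

open Classical in
/-- Proof. If `T < Q'^(10 (k+1)) ≤ Q ≤ X^(1/20)` the count is at most `T^d ≤ X^(d/2) ≤ X^(d-κ)` (`d ≥ 1`). Otherwise let `E(t)` be the summand of `Z4A_avg`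
(exponent `κ'`). By `Z4B_low` every `t` of the set has a vanishing minor (at most `k² T^(d-1)`, `T6S_card`) or `E(t) ≥ X η^k exp(-4k)/16`, and the number of the latter is at most
`16 e^(4k) X^(k ε1) X^(d - κ')`. `ε1` the minimum of that of `Z4B_low` and `κ'/(4k)` (the hypothesis `X^(-ε1) ≤ η` is stronger for a smaller `ε1`), `κ = min κ' 1/4`. -/
theorem D33_count {k d : ℕ} (hk : 1 ≤ k) (hd : 1 ≤ d) (S : Sys k d) (ha : ∀ i, S.a i ≠ 0) (hM : MinP S) (hT : TelP S) (hL : LBig S) :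
    ∃ K : ℝ, 1 ≤ K ∧
    ∀ Cr θ δ3 : ℝ, 1 ≤ Cr → 0 < θ → 0 < δ3 → ∀ C0 : ℕ, ∃ κ ε1 : ℝ, 0 < κ ∧ 0 < ε1 ∧ ∃ X0 : ℕ, ∀ Q Q' X : ℕ, X0 ≤ X →
    ∀ Xs : Fin k → ℕ, (∀ i, X ≤ Xs i ∧ Xs i ≤ C0 * X) → (∀ i, Rgm K Cr θ Q Q' (Xs i)) → Q' ^ (20 * (k + 1)) ≤ Q →
    ∀ (D D1 D2 : ℕ) (η E0 : ℝ) (px : Ch) (th : ℤ → ℝ), Dat k Q Q' D D1 D2 η E0 px th Xs → (Q' : ℝ) ^ δ3 ≤ D2 →
    (X : ℝ) ^ (-ε1) ≤ η → ∀ (b : Fin k → ℤ) (L T : ℕ), X ≤ L → L ≤ C0 * X → T ≤ C0 * X →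
    (∀ i, ∀ n ∈ range L, ∀ t ∈ bx d T, S.val b n (iv t) i ∈ JJ (Xs i)) →
    (((bx d T).filter (fun t => S.Adm b (iv t) ∧ ∑ n ∈ range L, ∏ i, lp (S.val b n (iv t) i) <
      X * (η ^ k * Real.exp (-(4 * k : ℝ))) / 16)).card : ℝ) ≤ (X : ℝ) ^ (d - κ) := by
  obtain ⟨K1, hK1, H1⟩ := D32_avg hk S hT hL
  obtain ⟨K2, hK2, H2⟩ := Z4B_low hk S ha
  have hKm : 1 ≤ max K1 K2 := hK1.trans (le_max_left _ _)
  refine ⟨max K1 K2, hKm, ?_⟩
  intro Cr θ δ3 hCr hθ hδ3 C0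
  obtain ⟨κ', hκ', Xa, H1⟩ := H1 Cr θ δ3 hCr hθ hδ3 C0
  obtain ⟨ε', hε', Xb, H2⟩ := H2 Cr θ δ3 hCr hθ hδ3 C0
  have hk0 : (0 : ℝ) < k := by exact_mod_cast hk
  have hε1 : 0 < min ε' (κ' / (4 * k)) := lt_min hε' (by positivity)
  have hκ : 0 < min κ' 1 / 4 := by
    have := lt_min hκ' one_pos
    positivity
  have hκa : min κ' 1 / 4 ≤ 1 / 4 := by
    have := min_le_right κ' (1 : ℝ)
    linarith
  have hκb : min κ' 1 / 4 ≤ κ' / 4 := by
    have := min_le_left κ' (1 : ℝ)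
    linarith
  obtain ⟨Xc, hXc⟩ := z4_large (1 / 2) ((C0 : ℝ) ^ d) (by norm_num)
  obtain ⟨Xd, hXd⟩ := z4_large (1 / 2) (2 * (k * k * (C0 : ℝ) ^ (d - 1))) (by norm_num)
  obtain ⟨Xe, hXe⟩ := z4_large (κ' / 2) (32 * Real.exp (4 * k : ℝ)) (by positivity)
  refine ⟨min κ' 1 / 4, min ε' (κ' / (4 * k)), hκ, hε1,
    max (max Xa Xb) (max (max Xc Xd) (max Xe 1)), ?_⟩
  intro Q Q' X hX Xs hXs hR hQQ D D1 D2 η E0 px th hDat hD2 hη b L T hXL hL1 hT hJ
  have g1 : Xa ≤ X := le_trans (le_trans (le_max_left _ _) (le_max_left _ _)) hX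
  have g2 : Xb ≤ X := le_trans (le_trans (le_max_right _ _) (le_max_left _ _)) hX
  have g3 : Xc ≤ X := le_trans (le_trans (le_trans (le_max_left _ _) (le_max_left _ _)) (le_max_right _ _)) hX
  have g4 : Xd ≤ X := le_trans (le_trans (le_trans (le_max_right _ _) (le_max_left _ _)) (le_max_right _ _)) hX
  have g5 : Xe ≤ X := le_trans (le_trans (le_trans (le_max_left _ _) (le_max_right _ _)) (le_max_right _ _)) hX
  have hX1 : 1 ≤ X := le_trans (le_trans (le_trans (le_max_right _ _) (le_max_right _ _)) (le_max_right _ _)) hX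
  have hX0r : (0 : ℝ) < X := by exact_mod_cast hX1
  have hX1r : (1 : ℝ) ≤ X := by exact_mod_cast hX1
  have f1 := hXc X g3
  have f2 := hXd X g4
  have f3 := hXe X g5
  have i0 : Fin k := ⟨0, hk⟩
  by_cases hT1 : T < Q' ^ (10 * (k + 1))
  · -- small `T`
    refine z4_small hd C0 X T _ hX1 _ hκa ?_ ((card_filter_le _ _).trans (z4_card_bx d T).le) f1
    have h1 : T * T ≤ Q' ^ (20 * (k + 1)) := by
      calc T * T ≤ Q' ^ (10 * (k + 1)) * Q' ^ (10 * (k + 1)) := Nat.mul_le_mul hT1.le hT1.le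
        _ = Q' ^ (20 * (k + 1)) := by
          rw [← pow_add]
          congr 1
          ring
    have h2 : Q ≤ Xs i0 := z4_QX (hR i0).reg hKm (lt_of_lt_of_le hX1 (hXs i0).1)
    exact h1.trans (hQQ.trans (h2.trans (hXs i0).2))
  · have hT1 : Q' ^ (10 * (k + 1)) ≤ T := not_lt.1 hT1
    -- `T` is positive
    have hQ' : 0 < Q' := by
      have h1 := (hR i0).low
      have h2 : (0 : ℝ) < (Xs i0 : ℝ) := by exact_mod_cast lt_of_lt_of_le hX1 (hXs i0).1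
      have h3 : (0 : ℝ) < (Q' : ℝ) := lt_of_lt_of_le (Real.rpow_pos_of_pos h2 θ) h1
      exact_mod_cast h3
    have hT0 : 0 < T := lt_of_lt_of_le (pow_pos hQ' _) hT1
    -- the error terms
    have hRa : ∀ i, Rgm K1 Cr θ Q Q' (Xs i) := fun i =>
      z4_rgm (hR i) (by linarith) (le_max_left _ _)
    have hRb : ∀ i, Rgm K2 Cr θ Q Q' (Xs i) := fun i =>
      z4_rgm (hR i) (by linarith) (le_max_right _ _)
    have hD1D : D1 ≤ D := (Nat.le_mul_self D1).trans hDat.hD1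
    have avg := H1 Q Q' X g1 Xs hXs hRa hQQ D D1 D2 px hDat.D2_pos hDat.hD2 hD1D hDat.hD hDat.mem
      hD2 b L T hL1 hT hT1 hJ
    have hη' : (X : ℝ) ^ (-ε') ≤ η := by
      refine le_trans (Real.rpow_le_rpow_of_exponent_le hX1r ?_) hη
      exact neg_le_neg (min_le_left _ _)
    have hηk : (X : ℝ) ^ (-(κ' / 4)) ≤ η ^ k := by
      have h1 : (X : ℝ) ^ (-(κ' / (4 * k))) ≤ η := by
        refine le_trans (Real.rpow_le_rpow_of_exponent_le hX1r ?_) hη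
        exact neg_le_neg (min_le_right _ _)
      have h2 := pow_le_pow_left₀ (Real.rpow_nonneg hX0r.le _) h1 k
      rw [← Real.rpow_natCast, ← Real.rpow_mul hX0r.le] at h2
      have h3 : -(κ' / (4 * k)) * (k : ℝ) = -(κ' / 4) := by
        field_simp
      rw [h3] at h2
      exact h2
    obtain ⟨A, hA⟩ : ∃ A, A = (bx d T).filter (fun t => S.Adm b (iv t) ∧
      ∑ n ∈ range L, ∏ i, lp (S.val b n (iv t) i) < X * (η ^ k * Real.exp (-(4 * k : ℝ))) / 16) := ⟨_, rfl⟩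
    rw [← hA]
    obtain ⟨G, hG⟩ : ∃ G, G = A.filter (fun t => ¬ ∃ i j, i ≠ j ∧ S.minr b (iv t) i j = 0) := ⟨_, rfl⟩
    have hcard : A.card ≤ k * k * T ^ (d - 1) + G.card := by
      rw [← Finset.card_filter_add_card_filter_not (s := A) (fun t => ∃ i j, i ≠ j ∧ S.minr b (iv t) i j = 0), ← hG]
      refine Nat.add_le_add_right ?_ _
      refine le_trans (Finset.card_le_card ?_) (D31_minor S hM hd b T hT0)
      intro t ht
      rw [Finset.mem_filter, hA, Finset.mem_filter] at ht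
      exact Finset.mem_filter.2 ⟨ht.1.1, ht.2⟩
    -- the set `G`
    have hGb : (G.card : ℝ) * (X * (η ^ k * Real.exp (-(4 * k : ℝ))) / 16) ≤ (X : ℝ) ^ (1 + (d : ℝ) - κ') := by
      refine le_trans ?_ avg
      have hsub : G ⊆ bx d T := by
        intro t ht
        rw [hG, Finset.mem_filter, hA, Finset.mem_filter] at ht
        exact ht.1.1
      refine le_trans ?_ (Finset.sum_le_sum_of_subset_of_nonneg hsub fun _ _ _ => norm_nonneg _)
      rw [← nsmul_eq_mul]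
      refine Finset.card_nsmul_le_sum _ _ _ ?_
      intro t ht
      have ht' := ht
      rw [hG, Finset.mem_filter, hA, Finset.mem_filter] at ht'
      obtain ⟨⟨htb, hadm, hlt⟩, hmin⟩ := ht'
      have hmin' : ∀ i j, i ≠ j → S.minr b (iv t) i j ≠ 0 := fun i j hij h0 => hmin ⟨i, j, hij, h0⟩
      have low := H2 Q Q' X g2 Xs hXs hRb D D1 D2 η E0 px th hDat hD2 hη' b L (iv t) hXL hadm hmin'
        (fun i n hn => hJ i n hn t htb)
      have h1 := Complex.abs_re_le_norm (((∑ n ∈ range L, ∏ i, lp (S.val b n (iv t) i) : ℝ) : ℂ) -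
        ∑ j ∈ range (L / (X / Q ^ 8)), ((X / Q ^ 8 : ℕ) : ℂ) * MCS S b (iv t) Q' D D1 px
        (fun i p => Bc Q (Xs i) p (S.val b ((j * (X / Q ^ 8) : ℕ) : ℤ) (iv t) i)))
      refine le_trans ?_ h1
      rw [Complex.sub_re, Complex.ofReal_re]
      have h2 := neg_le_abs ((∑ n ∈ range L, ∏ i, lp (S.val b n (iv t) i) : ℝ) -
        (∑ j ∈ range (L / (X / Q ^ 8)), ((X / Q ^ 8 : ℕ) : ℂ) * MCS S b (iv t) Q' D D1 px
        (fun i p => Bc Q (Xs i) p (S.val b ((j * (X / Q ^ 8) : ℕ) : ℤ) (iv t) i))).re)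
      refine le_trans ?_ h2
      linarith
    have hG2 := z4_exc (d := d) X G.card hX1 η κ' hηk hGb f3
    have hG3 : (X : ℝ) ^ ((d : ℝ) - κ' / 4) ≤ (X : ℝ) ^ ((d : ℝ) - min κ' 1 / 4) :=
      Real.rpow_le_rpow_of_exponent_le hX1r (by linarith)
    have hB : ((k * k * T ^ (d - 1) : ℕ) : ℝ) ≤ (X : ℝ) ^ ((d : ℝ) - min κ' 1 / 4) / 2 := by
      have h1 : ((k * k * T ^ (d - 1) : ℕ) : ℝ) ≤ k * k * ((C0 : ℝ) * X) ^ (d - 1) := by
        push_cast
        refine mul_le_mul_of_nonneg_left ?_ (by positivity)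
        exact pow_le_pow_left₀ (Nat.cast_nonneg T) (by exact_mod_cast hT) _
      have h2 : (X : ℝ) ^ (d - 1 : ℕ) = (X : ℝ) ^ ((d : ℝ) - 1) := by
        rw [← Real.rpow_natCast]
        congr 1
        push_cast [hd]
        ring
      have h3 : (X : ℝ) ^ (1 / 2 : ℝ) * (X : ℝ) ^ ((d : ℝ) - 1) ≤ (X : ℝ) ^ ((d : ℝ) - min κ' 1 / 4) := by
        rw [← Real.rpow_add hX0r]
        exact Real.rpow_le_rpow_of_exponent_le hX1r (by linarith)
      rw [mul_pow, h2] at h1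
      have h4 := mul_le_mul_of_nonneg_right f2 (Real.rpow_nonneg hX0r.le ((d : ℝ) - 1))
      linarith
    have hfin : (A.card : ℝ) ≤ ((k * k * T ^ (d - 1) : ℕ) : ℝ) + (G.card : ℝ) := by exact_mod_cast hcard
    linarith

end Pool.Agent.HUK
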