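import Pool.Agent.Lib.HUK.D33
import Pool.Agent.Lib.H9U.CORE

/-!
# Project HUK, chunk D34: CORE for general systems (copy of `CORE`)
-/

open Finset

namespace Pool.Agent.HUK

open Pool.Agent.H9U
open Pool.Agent.Lib.H68T (lp Lk PC p0)
open Pool.Agent.Lib.H18Q (gk KS SG Bc RegP)
open Pool.Agent.Lib.H59P (Ch SF bx TS Rp MX pr)

open Classical in
/-- **CORE.** Proof. `K` from `Z4_count`. `A3S` with `E = 1/(4k)` and `K' = K` gives `Cr, c0` and for each large `X` a level `Q` with a model `px, th, η`. `θ = 1/(100 (k+1) Cr)`,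
`Q' = ⌈(C0 X)^θ⌉`: `Rgm K Cr θ Q Q' (Xs i)`, `Q'^(20 (k+1)) ≤ Q`, `Q' ≤ X` for `X` large. `Z4_count` with `δ3 = 1/5` gives `κa, εa`; `δ2 = min (min εa (ε/(4k))) (1/20) / 4`; `Z4_count` with
`δ3 = δ2/4` gives `κb, εb`. Case 1, `px.1 ≤ Q'^δ2`: `CORE_dat1` with `D2 = ⌈Q'^(1/5)⌉` (`px.1 D2 ≤ Q'^(1/20) · 2 Q'^(1/5) ≤ √Q'` rounded down), `η ≥ c0/px.1² ≥ c0 Q'^(-2 δ2) ≥ X^(-min(εa, ε/(4k)))`.
Case 2, `px.1 > Q'^δ2`: `CORE_dat2` with `D = ⌊Q'^δ2⌋` (`Q'^(δ2/4) ≤ √D` rounded down), `η = 1`. In both cases `η^k exp(-4k)/16 ≥ X^(-ε/2)`, and fewer than `X^(1-ε)` prime values imply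
`∑_n ∏ lp < X^(1-ε) (log (4 C0 X))^k ≤ X^(1-ε/2)` (`lp m ≤ log m`, and `0` unless `m` is a prime; `m ∈ JJ (Xs i)`). -/
theorem D34_core {k d : ℕ} (hk : 1 ≤ k) (hd : 1 ≤ d) (S : Sys k d) (ha : ∀ i, S.a i ≠ 0) (hMin : MinP S) (hTel : TelP S) (hL : LBig S) (C0 : ℕ) (hC0 : 1 ≤ C0)
    (ε : ℝ) (hε : 0 < ε) : ∃ κ : ℝ, 0 < κ ∧ ∃ X0 : ℕ, ∀ X : ℕ, X0 ≤ X →
    ∀ Xs : Fin k → ℕ, (∀ i, X ≤ Xs i ∧ Xs i ≤ C0 * X) → ∀ (b : Fin k → ℤ) (L T : ℕ), X ≤ L → L ≤ C0 * X → T ≤ C0 * X →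
    (∀ i, ∀ n ∈ range L, ∀ t ∈ bx d T, S.val b n (iv t) i ∈ JJ (Xs i)) →
    (((bx d T).filter (fun t => S.Adm b (iv t) ∧
      (((range L).filter (fun n : ℕ => ∀ i, (S.val b n (iv t) i).toNat.Prime)).card : ℝ) < (X : ℝ) ^ (1 - ε))).card : ℝ) ≤
      (X : ℝ) ^ (d - κ) := by
  obtain ⟨K, hK, HZ⟩ := D33_count hk hd S ha hMin hTel hL
  have hk0 : (0 : ℝ) < k := by exact_mod_cast hk
  have hC1 : (1 : ℝ) ≤ C0 := by exact_mod_cast hC0
  have hE : (0 : ℝ) < 1 / (4 * k) := by positivity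
  have hkE : 4 * (k : ℝ) * (1 / (4 * k)) ≤ 1 := by
    rw [mul_one_div, div_self (by positivity)]
  obtain ⟨Cr, c0, hCr, hc0, Xa, HA⟩ := A3S C0 hC0 (1 / (4 * k)) K hE
  obtain ⟨θ, hθ⟩ : ∃ θ : ℝ, θ = 1 / (100 * ((k : ℝ) + 1) * Cr) := ⟨_, rfl⟩
  have hθ0 : 0 < θ := by rw [hθ]; positivity
  obtain ⟨κa, εa, hκa, hεa, Xb, HZa⟩ := HZ Cr θ (1 / 5) hCr hθ0 (by norm_num) C0
  obtain ⟨mm, hmm⟩ : ∃ mm, mm = min εa (ε / (4 * k)) := ⟨_, rfl⟩
  have hmm0 : 0 < mm := by rw [hmm]; exact lt_min hεa (by positivity)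
  have hmma : mm ≤ εa := by rw [hmm]; exact min_le_left _ _
  have hmmb : mm ≤ ε / (4 * k) := by rw [hmm]; exact min_le_right _ _
  obtain ⟨δ2, hδ2⟩ : ∃ δ2, δ2 = min mm (1 / 20) / 4 := ⟨_, rfl⟩
  have hδ0 : 0 < δ2 := by
    rw [hδ2]
    have : 0 < min mm (1 / 20) := lt_min hmm0 (by norm_num)
    positivity
  have hδa : δ2 ≤ mm / 4 := by
    rw [hδ2]
    have := min_le_left mm (1 / 20)
    linarith
  have hδb : δ2 ≤ 1 / 80 := by
    rw [hδ2]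
    have := min_le_right mm (1 / 20)
    linarith
  obtain ⟨κb, εb, hκb, hεb, Xc, HZb⟩ := HZ Cr θ (δ2 / 4) hCr hθ0 (by positivity) C0
  obtain ⟨Xd, HL⟩ := core_level k C0 hC0 Cr hCr
  obtain ⟨Xe, He⟩ := core_large (θ * (23 / 40)) 4 (by positivity)
  obtain ⟨Xf, Hf⟩ := core_large (θ * (δ2 / 4)) 2 (by positivity)
  obtain ⟨Xg, Hg⟩ := core_large (mm / 2) (1 / c0) (by positivity)
  obtain ⟨Xh, Hh⟩ := core_large (ε / 2)
    (16 * Real.exp (4 * k : ℝ) * ((4 * C0 : ℝ) ^ (ε / 4) / (ε / (4 * k)) ^ k) + 1) (by positivity)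
  refine ⟨min κa κb, lt_min hκa hκb,
    max (max (max Xa Xb) (max Xc Xd)) (max (max Xe Xf) (max (max Xg Xh) 1)), ?_⟩
  intro X hX Xs hXs b L T hXL hL1 hT hJ
  have g0 : max (max Xa Xb) (max Xc Xd) ≤ X := (le_max_left _ _).trans hX
  have g0' : max (max Xe Xf) (max (max Xg Xh) 1) ≤ X := (le_max_right _ _).trans hX
  have ga : Xa ≤ X := ((le_max_left _ _).trans (le_max_left _ _)).trans g0
  have gb : Xb ≤ X := ((le_max_right _ _).trans (le_max_left _ _)).trans g0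
  have gc : Xc ≤ X := ((le_max_left _ _).trans (le_max_right _ _)).trans g0
  have gd : Xd ≤ X := ((le_max_right _ _).trans (le_max_right _ _)).trans g0
  have ge : Xe ≤ X := ((le_max_left _ _).trans (le_max_left _ _)).trans g0'
  have gf : Xf ≤ X := ((le_max_right _ _).trans (le_max_left _ _)).trans g0'
  have gg : Xg ≤ X := (((le_max_left _ _).trans (le_max_left _ _)).trans (le_max_right _ _)).trans g0'
  have gh : Xh ≤ X := (((le_max_right _ _).trans (le_max_left _ _)).trans (le_max_right _ _)).trans g0'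
  have hX1 : 1 ≤ X := ((le_max_right _ _).trans (le_max_right _ _)).trans g0'
  have hX1r : (1 : ℝ) ≤ X := by exact_mod_cast hX1
  have hX0r : (0 : ℝ) < X := by linarith
  have i0 : Fin k := ⟨0, hk⟩
  obtain ⟨Q, hQ, px, th, η, hpx, hη, hM⟩ := HA X ga
  have hXC : X ≤ C0 * X := Nat.le_mul_of_pos_left _ hC0
  have hlogQ : Real.log ((C0 : ℝ) * X) ≤ Cr * Real.log Q := by
    have := (hQ (C0 * X) hXC le_rfl).2
    push_cast at this
    exact this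
  obtain ⟨Q', hQ'1, hQ'2, hQ'3⟩ := HL X gd Q hlogQ
  rw [← hθ] at hQ'1
  have hQ'X : (X : ℝ) ^ θ ≤ Q' := by
    refine (Real.rpow_le_rpow hX0r.le ?_ hθ0.le).trans hQ'1
    nlinarith
  have hQ'one : (1 : ℝ) ≤ Q' := (Real.one_le_rpow hX1r hθ0.le).trans hQ'X
  have hQ'1n : 1 ≤ Q' := by exact_mod_cast hQ'one
  have hQ'Q : Q' ≤ Q := by
    refine le_trans ?_ hQ'2
    calc Q' = Q' ^ 1 := (pow_one _).symm
      _ ≤ Q' ^ (20 * (k + 1)) := Nat.pow_le_pow_right hQ'1n (by omega)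
  have hR : ∀ i, Rgm K Cr θ Q Q' (Xs i) := by
    intro i
    obtain ⟨h1, h2⟩ := hQ (Xs i) (hXs i).1 (hXs i).2
    refine ⟨h1, h2, ?_, hQ'Q⟩
    refine le_trans ?_ hQ'1
    refine Real.rpow_le_rpow (Nat.cast_nonneg _) ?_ hθ0.le
    exact_mod_cast (hXs i).2
  have hMi : ∀ i, MdB Q (Xs i) η (1 / (4 * k)) px th := fun i => hM (Xs i) (hXs i).1 (hXs i).2
  have hr1 : 1 ≤ px.1 := (Pool.Agent.Lib.H68T.mem_PC.1 (hMi i0).mem).1
  have hr1r : (1 : ℝ) ≤ (px.1 : ℝ) := by exact_mod_cast hr1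
  have hbig := Hh X gh
  -- bounds for the values
  have hval : ∀ t ∈ bx d T, ∀ i, ∀ n ∈ range L, 0 < S.val b n (iv t) i ∧
      (S.val b n (iv t) i : ℝ) ≤ 4 * C0 * X := by
    intro t ht i n hn
    have h1 := hJ i n hn t ht
    unfold JJ at h1
    rw [Finset.mem_Ico] at h1
    have h2 : X ≤ Xs i := (hXs i).1
    have h3 : Xs i ≤ C0 * X := (hXs i).2
    have h4 : S.val b n (iv t) i ≤ 4 * ((C0 * X : ℕ) : ℤ) := by omega
    refine ⟨by omega, ?_⟩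
    have h5 : (S.val b n (iv t) i : ℝ) ≤ 4 * ((C0 * X : ℕ) : ℝ) := by exact_mod_cast h4
    push_cast at h5
    linarith
  -- few primes give a small sum
  have hsub : ∀ η' : ℝ, (X : ℝ) ^ (-(ε / 4)) ≤ η' ^ k →
      ((bx d T).filter (fun t => S.Adm b (iv t) ∧
      (((range L).filter (fun n : ℕ => ∀ i, (S.val b n (iv t) i).toNat.Prime)).card : ℝ) < (X : ℝ) ^ (1 - ε))).card ≤
      ((bx d T).filter (fun t => S.Adm b (iv t) ∧ ∑ n ∈ range L, ∏ i, lp (S.val b n (iv t) i) <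
      X * (η' ^ k * Real.exp (-(4 * k : ℝ))) / 16)).card := by
    intro η' hη'
    refine Finset.card_le_card ?_
    intro t ht
    rw [Finset.mem_filter] at ht ⊢
    obtain ⟨h1, h2, h3⟩ := ht
    refine ⟨h1, h2, ?_⟩
    exact core_thr hk hC0 hX1 ε η' _ hε h3 (core_primes S b (iv t) L (4 * C0 * X) (hval t h1)) hη' hbig
  by_cases hc : (px.1 : ℝ) ≤ (Q' : ℝ) ^ δ2
  · -- small conductor
    have hr80 : (px.1 : ℝ) ≤ (Q' : ℝ) ^ (1 / 80 : ℝ) :=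
      hc.trans (Real.rpow_le_rpow_of_exponent_le hQ'one hδb)
    have h4 : 4 ≤ (Q' : ℝ) ^ (23 / 40 : ℝ) := by
      refine (He X ge).trans ?_
      rw [Real.rpow_mul hX0r.le]
      exact Real.rpow_le_rpow (Real.rpow_nonneg hX0r.le _) hQ'X (by norm_num)
    obtain ⟨d1, d2⟩ := core_case1 Q' px.1 h4 hQ'1n hr80
    have hdat := CORE_dat1 hk Q Q' ⌈(Q' : ℝ) ^ (1 / 5 : ℝ)⌉₊ hQ'Q d1 Xs η (1 / (4 * k)) px th hE.le hkE hMi d2
    have hηmm : (X : ℝ) ^ (-mm) ≤ η := by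
      refine le_trans ?_ hη
      have h5 : ((px.1 : ℝ)) ^ 2 ≤ (X : ℝ) ^ (mm / 2) := by
        have h6 : (px.1 : ℝ) ≤ (X : ℝ) ^ (mm / 4) := by
          refine hc.trans ?_
          have h7 : (Q' : ℝ) ≤ X := by exact_mod_cast hQ'3
          refine (Real.rpow_le_rpow (Nat.cast_nonneg _) h7 hδ0.le).trans ?_
          exact Real.rpow_le_rpow_of_exponent_le hX1r hδa
        calc ((px.1 : ℝ)) ^ 2 ≤ ((X : ℝ) ^ (mm / 4)) ^ 2 := pow_le_pow_left₀ (Nat.cast_nonneg _) h6 2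
          _ = (X : ℝ) ^ (mm / 2) := by
            rw [← Real.rpow_natCast, ← Real.rpow_mul hX0r.le]
            congr 1
            push_cast
            ring
      have hr2 : (0 : ℝ) < (px.1 : ℝ) ^ 2 := by positivity
      rw [le_div_iff₀ hr2]
      have h8 := Hg X gg
      rw [div_le_iff₀ hc0] at h8
      have h9 : 0 < (X : ℝ) ^ (-mm) := Real.rpow_pos_of_pos hX0r _
      calc (X : ℝ) ^ (-mm) * (px.1 : ℝ) ^ 2 ≤ (X : ℝ) ^ (-mm) * (X : ℝ) ^ (mm / 2) :=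
            mul_le_mul_of_nonneg_left h5 h9.le
        _ = (X : ℝ) ^ (-mm) * (X : ℝ) ^ (mm / 2) * 1 := (mul_one _).symm
        _ ≤ (X : ℝ) ^ (-mm) * (X : ℝ) ^ (mm / 2) * ((X : ℝ) ^ (mm / 2) * c0) :=
            mul_le_mul_of_nonneg_left h8 (by positivity)
        _ = c0 := by
            have h10 : (X : ℝ) ^ (-mm) * (X : ℝ) ^ (mm / 2) * (X : ℝ) ^ (mm / 2) = 1 := by
              rw [← Real.rpow_add hX0r, ← Real.rpow_add hX0r]
              have : -mm + mm / 2 + mm / 2 = 0 := by ring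
              rw [this, Real.rpow_zero]
            rw [← mul_assoc, h10, one_mul]
    have hηa : (X : ℝ) ^ (-εa) ≤ η :=
      (Real.rpow_le_rpow_of_exponent_le hX1r (neg_le_neg hmma)).trans hηmm
    have hηk : (X : ℝ) ^ (-(ε / 4)) ≤ η ^ k := by
      have h5 : (X : ℝ) ^ (-(ε / (4 * k))) ≤ η :=
        (Real.rpow_le_rpow_of_exponent_le hX1r (neg_le_neg hmmb)).trans hηmm
      have h6 := pow_le_pow_left₀ (Real.rpow_nonneg hX0r.le _) h5 k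
      rw [← Real.rpow_natCast, ← Real.rpow_mul hX0r.le] at h6
      have h7 : -(ε / (4 * k)) * (k : ℝ) = -(ε / 4) := by field_simp
      rw [h7] at h6
      exact h6
    have hfin := HZa Q Q' X gb Xs hXs hR hQ'2 Q' (Nat.sqrt Q') ⌈(Q' : ℝ) ^ (1 / 5 : ℝ)⌉₊ η
      (1 / (4 * k)) px th hdat (Nat.le_ceil _) hηa b L T hXL hL1 hT hJ
    have h11 : ((((bx d T).filter (fun t => S.Adm b (iv t) ∧
      (((range L).filter (fun n : ℕ => ∀ i, (S.val b n (iv t) i).toNat.Prime)).card : ℝ) <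
        (X : ℝ) ^ (1 - ε))).card : ℕ) : ℝ) ≤ _ := Nat.cast_le.2 (hsub η hηk)
    refine h11.trans (hfin.trans (Real.rpow_le_rpow_of_exponent_le hX1r ?_))
    have := min_le_left κa κb
    linarith
  · -- large conductor
    push Not at hc
    have h2 : 2 ≤ (Q' : ℝ) ^ (δ2 / 4) := by
      refine (Hf X gf).trans ?_
      rw [Real.rpow_mul hX0r.le]
      exact Real.rpow_le_rpow (Real.rpow_nonneg hX0r.le _) hQ'X (by positivity)
    obtain ⟨d1, d2, d3, d4⟩ := core_case2 Q' px.1 δ2 hδ0 (by linarith) h2 hQ'1n hc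
    have hdat := CORE_dat2 Q Q' ⌊(Q' : ℝ) ^ δ2⌋₊ hQ'Q d1 d2 Xs η (1 / (4 * k)) px th hE.le hkE hMi d3
    have hη1 : (X : ℝ) ^ (-εb) ≤ 1 := Real.rpow_le_one_of_one_le_of_nonpos hX1r (by linarith)
    have hηk : (X : ℝ) ^ (-(ε / 4)) ≤ (1 : ℝ) ^ k := by
      rw [one_pow]
      exact Real.rpow_le_one_of_one_le_of_nonpos hX1r (by linarith)
    have hfin := HZb Q Q' X gc Xs hXs hR hQ'2 ⌊(Q' : ℝ) ^ δ2⌋₊ (Nat.sqrt ⌊(Q' : ℝ) ^ δ2⌋₊)
      (Nat.sqrt ⌊(Q' : ℝ) ^ δ2⌋₊) 1 (1 / (4 * k)) p0 (fun _ => 0) hdat d4 hη1 b L T hXL hL1 hT hJ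
    have h11 : ((((bx d T).filter (fun t => S.Adm b (iv t) ∧
      (((range L).filter (fun n : ℕ => ∀ i, (S.val b n (iv t) i).toNat.Prime)).card : ℝ) <
        (X : ℝ) ^ (1 - ε))).card : ℕ) : ℝ) ≤ _ := Nat.cast_le.2 (hsub 1 hηk)
    refine h11.trans (hfin.trans (Real.rpow_le_rpow_of_exponent_le hX1r ?_))
    have := min_le_right κa κb
    linarith

end Pool.Agent.HUK
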