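import Pool.Agent.Lib.HUK.D2
import Pool.Agent.Lib.HUK.D34
import Pool.Agent.Lib.HUK.D48
import Pool.Agent.Lib.H96U.Defs

/-!
# Project HUK, module D, final statement: the core theorem for systems of finite complexity
-/

open Finset

namespace Pool.Agent.HUK

open Pool.Agent.H9U (Sys)
open Pool.Agent.H96U (CoreOf Fin2)

theorem DFIN_fin2 {k d : ℕ} (S : Sys k d) (hS : Fin2 S) : SysFin S :=
  D14_fin S hS.1 fun i j hij => by
    obtain ⟨l, hl⟩ := hS.2 i j hij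
    exact ⟨l, sub_ne_zero.2 hl⟩

/-- **CORE for systems of finite complexity.** -/
theorem DFIN_core {k d : ℕ} (hk : 1 ≤ k) (hd : 1 ≤ d) (S : Sys k d) (hS : SysFin S) (hP : PK (k + 1)) (hU : UCH (k + 1)) :
    CoreOf S := by
  intro C0 hC0 ε hε
  exact D34_core hk hd S hS.1 (D14_min S hS) (D2_tel S hS hP) (D48_LB S hS hU) C0 hC0 ε hε

theorem DFIN_core2 {k d : ℕ} (hk : 1 ≤ k) (hd : 1 ≤ d) (S : Sys k d) (hS : Fin2 S) (hP : PK (k + 1)) (hU : UCH (k + 1)) :
    CoreOf S :=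
  DFIN_core hk hd S (DFIN_fin2 S hS) hP hU

end Pool.Agent.HUK
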