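import Pool.Agent.Lib.HUK.DDefs
import Pool.Agent.Lib.H9U.T6

/-!
# Project HUK, chunk D31: few `t` with a vanishing minor
-/

open Finset

namespace Pool.Agent.HUK

open Pool.Agent.H9U (Sys iv)
open Pool.Agent.Lib.H59P (bx)

open Classical in
/-- Proof. `minr b t i j = ∑_r (a_i c_jr - a_j c_ir) t_r + const` with a nonzero coefficient at `r0` (`T6S_ne`): for given other coordinates at most one
value of `t_{r0}` (the map to the other coordinates, e.g. `t ↦ Function.update t r0 0`, is injective on the set). -/
theorem D31_card {k d : ℕ} (S : Sys k d) (hS : MinP S) (i j : Fin k) (hij : i ≠ j) (b : Fin k → ℤ) (T : ℕ) :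
    ((bx d T).filter (fun t => S.minr b (iv t) i j = 0)).card * T ≤ T ^ d := by
  obtain ⟨r0, hr0⟩ := hS i j hij
  have hcard : (bx d T).card = T ^ d := by
    unfold bx
    rw [Fintype.card_piFinset, Finset.prod_const, Finset.card_univ, Fintype.card_fin, Finset.card_range]
  obtain ⟨A, hA⟩ : ∃ A, A = (bx d T).filter (fun t => S.minr b (iv t) i j = 0) := ⟨_, rfl⟩
  rw [← hA]
  have hlin : ∀ t : Fin d → ℕ, S.minr b (iv t) i j =
      ∑ r, (S.a i * S.c j r - S.a j * S.c i r) * (t r : ℤ) + (S.a i * b j - S.a j * b i) := by
    intro t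
    unfold Sys.minr Sys.val Sys.lin iv
    rw [mul_add, mul_add, mul_add, mul_add, Finset.mul_sum, Finset.mul_sum]
    have h1 : ∀ r, (S.a i * S.c j r - S.a j * S.c i r) * (t r : ℤ) =
        S.a i * (S.c j r * (t r : ℤ)) - S.a j * (S.c i r * (t r : ℤ)) := fun r => by ring
    rw [Finset.sum_congr rfl fun r _ => h1 r, Finset.sum_sub_distrib]
    ring
  have hmem : ∀ t, t ∈ bx d T ↔ ∀ r, t r < T := by
    intro t
    unfold bx
    rw [Fintype.mem_piFinset]
    exact forall_congr' fun r => Finset.mem_range
  have h2 : (A ×ˢ range T).card ≤ (bx d T).card := by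
    refine Finset.card_le_card_of_injOn (fun x => Function.update x.1 r0 x.2) ?_ ?_
    · rintro ⟨t, y⟩ hx
      have hx' := Finset.mem_product.1 (Finset.mem_coe.1 hx)
      rw [Finset.mem_coe, hmem]
      intro r
      have ht : t ∈ bx d T := by
        have := hx'.1
        rw [hA, Finset.mem_filter] at this
        exact this.1
      show Function.update t r0 y r < T
      by_cases hr : r = r0
      · rw [hr, Function.update_self]
        exact Finset.mem_range.1 hx'.2
      · rw [Function.update_of_ne hr]
        exact (hmem t).1 ht r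
    · rintro ⟨t, y⟩ hx ⟨t', y'⟩ hx' he
      have he' : Function.update t r0 y = Function.update t' r0 y' := he
      have h3 := (Finset.mem_product.1 (Finset.mem_coe.1 hx)).1
      have h4 := (Finset.mem_product.1 (Finset.mem_coe.1 hx')).1
      rw [hA, Finset.mem_filter] at h3 h4
      have hy : y = y' := by
        have := congrFun he' r0
        rwa [Function.update_self, Function.update_self] at this
      have hother : ∀ r, r ≠ r0 → t r = t' r := by
        intro r hr
        have := congrFun he' r
        rwa [Function.update_of_ne hr, Function.update_of_ne hr] at this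
      have h5 : ∑ r, (S.a i * S.c j r - S.a j * S.c i r) * (t r : ℤ) =
          ∑ r, (S.a i * S.c j r - S.a j * S.c i r) * (t' r : ℤ) := by
        have h6 := h3.2
        have h7 := h4.2
        rw [hlin] at h6 h7
        linarith
      have h8 : (S.a i * S.c j r0 - S.a j * S.c i r0) * (t r0 : ℤ) =
          (S.a i * S.c j r0 - S.a j * S.c i r0) * (t' r0 : ℤ) := by
        rw [← Finset.add_sum_erase _ _ (Finset.mem_univ r0), ← Finset.add_sum_erase _ _ (Finset.mem_univ r0)] at h5
        have h9 : ∑ r ∈ univ.erase r0, (S.a i * S.c j r - S.a j * S.c i r) * (t r : ℤ) =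
            ∑ r ∈ univ.erase r0, (S.a i * S.c j r - S.a j * S.c i r) * (t' r : ℤ) :=
          Finset.sum_congr rfl fun r hr => by rw [hother r (Finset.ne_of_mem_erase hr)]
        rw [h9] at h5
        exact add_right_cancel h5
      have h10 : t r0 = t' r0 := by
        have := mul_left_cancel₀ hr0 h8
        exact_mod_cast this
      have h11 : t = t' := by
        funext r
        by_cases hr : r = r0
        · rw [hr]
          exact h10
        · exact hother r hr
      rw [h11, hy]
  rw [Finset.card_product, Finset.card_range, hcard] at h2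
  exact h2

open Classical in
/-- the `t` with a vanishing minor. -/
theorem D31_minor {k d : ℕ} (S : Sys k d) (hS : MinP S) (hd : 1 ≤ d) (b : Fin k → ℤ) (T : ℕ) (hT : 0 < T) :
    ((bx d T).filter (fun t => ∃ i j, i ≠ j ∧ S.minr b (iv t) i j = 0)).card ≤ k * k * T ^ (d - 1) := by
  have h1 : (bx d T).filter (fun t => ∃ i j, i ≠ j ∧ S.minr b (iv t) i j = 0) ⊆
      (univ : Finset (Fin k)).offDiag.biUnion
        (fun ij => (bx d T).filter (fun t => S.minr b (iv t) ij.1 ij.2 = 0)) := by
    intro t ht
    rw [Finset.mem_filter] at ht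
    obtain ⟨h0, i, j, hij, hm⟩ := ht
    rw [Finset.mem_biUnion]
    exact ⟨(i, j), Finset.mem_offDiag.2 ⟨mem_univ _, mem_univ _, hij⟩, Finset.mem_filter.2 ⟨h0, hm⟩⟩
  refine (Finset.card_le_card h1).trans ?_
  refine (Finset.card_biUnion_le_card_mul _ _ (T ^ (d - 1)) ?_).trans ?_
  · intro ij hij
    rw [Finset.mem_offDiag] at hij
    have h2 := D31_card S hS ij.1 ij.2 hij.2.2 b T
    have h3 : T ^ d = T ^ (d - 1) * T := by
      rw [← pow_succ]
      congr 1
      omega
    rw [h3] at h2
    exact Nat.le_of_mul_le_mul_right h2 hT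
  · refine Nat.mul_le_mul_right _ ?_
    rw [Finset.offDiag_card, Finset.card_univ, Fintype.card_fin]
    exact Nat.sub_le _ _

end Pool.Agent.HUK
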