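import Pool.Agent.Lib.HUK.IDE

/-!
# Project HUK, module D: definitions and interfaces
-/

open Finset

namespace Pool.Agent.HUK

open Pool.Agent.H44W (ee)
open Pool.Agent.Lib.H68T (lp Lk)
open Pool.Agent.H9U (JJ cutJ Er Rgm Sys iv)
open Pool.Agent.Lib.H59P (bx)

noncomputable section

/-- `f` is supported in `[-X, X)`. -/
def Spt (X : ℕ) (f : ℤ → ℂ) : Prop := ∀ y, y ∉ Ico (-(X : ℤ)) X → f y = 0

/-- A weight which on `|h| < 2X` is a combination of phases with coefficients of total size at most `1`. -/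
def PhW (X : ℕ) (W : ℤ → ℂ) : Prop := ∃ (n : ℕ) (c : ℕ → ℂ) (θ : ℕ → ℝ), ∑ i ∈ range n, ‖c i‖ ≤ 1 ∧
  ∀ h ∈ Ioo (-(2 * X : ℤ)) (2 * X), W h = ∑ i ∈ range n, c i * ee (θ i * h)

/-- **Interface**: primitive characters have small `U^s` norm (with absolute values over the differences). -/
def UCH (s : ℕ) : Prop := ∃ C c : ℝ, 0 < C ∧ 0 < c ∧ c ≤ 1 ∧ ∀ (q : ℕ) [NeZero q] (χ : DirichletCharacter ℂ q),
  χ.IsPrimitive → ∑ h : Fin s → ZMod q, ‖∑ y : ZMod q, DL (List.ofFn h) (fun y => χ y) y‖ ≤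
    C * (q : ℝ) ^ ((s : ℝ) + 1 - c)

/-- No two linear parts are proportional. -/
def MinP {k d : ℕ} (S : Sys k d) : Prop := ∀ i j : Fin k, i ≠ j → ∃ r : Fin d, S.a i * S.c j r - S.a j * S.c i r ≠ 0

/-- The primes may be replaced by the projections of small level, for almost all `t`. -/
def TelP {k d : ℕ} (S : Sys k d) : Prop := ∃ K : ℝ, 1 ≤ K ∧
  ∀ Cr θ : ℝ, 1 ≤ Cr → 0 < θ → ∀ C0 : ℕ, ∃ κ : ℝ, 0 < κ ∧ ∃ X0 : ℕ, ∀ Q Q' X : ℕ, X0 ≤ X → ∀ Xs : Fin k → ℕ,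
  (∀ i, X ≤ Xs i ∧ Xs i ≤ C0 * X) → (∀ i, Rgm K Cr θ Q Q' (Xs i)) → ∀ (b : Fin k → ℤ) (L T : ℕ), L ≤ C0 * X → T ≤ C0 * X →
  (∀ i, ∀ n ∈ range L, ∀ t ∈ bx d T, S.val b n (iv t) i ∈ JJ (Xs i)) →
  ∑ t ∈ bx d T, |∑ n ∈ range L, (∏ i, lp (S.val b n (iv t) i) - ∏ i, Lk Q' (Xs i / Q ^ 2) (S.val b n (iv t) i))| ≤
    (X : ℝ) ^ (1 + d - κ)

end

end Pool.Agent.HUK
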