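import Pool.Agent.Lib.HUK.KA13
import Pool.Agent.Lib.HUK.DDefs

/-!
# Project HUK, chunk KA14 (S/M): the interface `UCH s`
-/

open Finset

namespace Pool.Agent.HUK

/-- Proof. `s = n + 1`; `C'`, `e'` from `KA13_u n`. Cauchy-Schwarz: `(∑_h ‖∑_y ..‖)² ≤ q^s ∑_h ‖∑_y ..‖²`, and by `KA10_sq`
`∑_{h : Fin s → ZMod q} ‖∑_y DL (List.ofFn h) χ y‖² = q^(s+2) uG (s+1) χ ≤ q^(s+2) C' q^(-e')`. So the sum is at most
`q^(s+1) (C')^(1/2) q^(-e'/2)`: `C = C'^(1/2)`, `c = e'/2`. -/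
theorem UCH_all (s : ℕ) (hs : 1 ≤ s) : UCH s := by
  obtain ⟨n, rfl⟩ : ∃ n, s = n + 1 := ⟨s - 1, by omega⟩
  obtain ⟨C', e', hC, he, he1, h⟩ := KA13_u n
  refine ⟨Real.sqrt C', e' / 2, Real.sqrt_pos.2 hC, by linarith, by linarith, ?_⟩
  intro q _ χ hχ
  have hu := h q χ hχ
  have hq : (0 : ℝ) < q := Nat.cast_pos.2 (NeZero.pos q)
  have h1 : uG (n + 2) (fun y => χ y) =
      (∑ t : Fin (n + 1) → ZMod q, ‖∑ y, DL (List.ofFn t) (fun y => χ y) y‖ ^ 2) / (q : ℝ) ^ (n + 3) := by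
    unfold uG
    rw [KA10_sq (n + 1) (fun y => χ y), Complex.ofReal_re]
  rw [h1, div_le_iff₀ (pow_pos hq _)] at hu
  have h3 : (∑ t : Fin (n + 1) → ZMod q, ‖∑ y, DL (List.ofFn t) (fun y => χ y) y‖) ^ 2 ≤
      (q : ℝ) ^ (n + 1) * ∑ t : Fin (n + 1) → ZMod q, ‖∑ y, DL (List.ofFn t) (fun y => χ y) y‖ ^ 2 := by
    have h4 := sq_sum_le_card_mul_sum_sq (s := (univ : Finset (Fin (n + 1) → ZMod q)))
      (f := fun t => ‖∑ y, DL (List.ofFn t) (fun y => χ y) y‖)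
    have h5 : ((univ : Finset (Fin (n + 1) → ZMod q)).card : ℝ) = (q : ℝ) ^ (n + 1) := by
      rw [card_univ, Fintype.card_fun, ZMod.card, Fintype.card_fin, Nat.cast_pow]
    rw [h5] at h4
    exact h4
  have h6 : (q : ℝ) ^ (n + 1) * (C' * (q : ℝ) ^ (-e') * (q : ℝ) ^ (n + 3)) =
      (Real.sqrt C' * (q : ℝ) ^ (((n + 1 : ℕ) : ℝ) + 1 - e' / 2)) ^ 2 := by
    rw [mul_pow, Real.sq_sqrt hC.le, ← Real.rpow_natCast (_ ^ _) 2, ← Real.rpow_mul hq.le,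
      ← Real.rpow_natCast (q : ℝ) (n + 1), ← Real.rpow_natCast (q : ℝ) (n + 3)]
    rw [show (q : ℝ) ^ (((n + 1 : ℕ) : ℝ)) * (C' * (q : ℝ) ^ (-e') * (q : ℝ) ^ (((n + 3 : ℕ) : ℝ))) =
      C' * ((q : ℝ) ^ (((n + 1 : ℕ) : ℝ)) * (q : ℝ) ^ (-e') * (q : ℝ) ^ (((n + 3 : ℕ) : ℝ))) by ring,
      ← Real.rpow_add hq, ← Real.rpow_add hq]
    congr 2
    push_cast
    ring
  have h7 : (∑ t : Fin (n + 1) → ZMod q, ‖∑ y, DL (List.ofFn t) (fun y => χ y) y‖) ^ 2 ≤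
      (Real.sqrt C' * (q : ℝ) ^ (((n + 1 : ℕ) : ℝ) + 1 - e' / 2)) ^ 2 := by
    rw [← h6]
    exact h3.trans (mul_le_mul_of_nonneg_left hu (pow_pos hq _).le)
  exact le_of_sq_le_sq h7 (mul_nonneg (Real.sqrt_nonneg _) (Real.rpow_nonneg hq.le _))

end Pool.Agent.HUK
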