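import Pool.Agent.Lib.HUK.KB12
import Pool.Agent.Lib.HUK.IDE
import Pool.Agent.Lib.H59T.UL

/-!
# Project HUK, chunk KB13 (M): the interface `LKP k`
-/

open Finset

namespace Pool.Agent.HUK

open Pool.Agent.Lib.H59T Pool.Agent.Lib.H68T Pool.Agent.Lib.H18Q
open Pool.Agent.H9U (JJ)

/-- Proof. Copy of the proof of `LK_diff` in `H59T/UL.lean` with `KB12_one` instead of `UB_one` and one sum over `n ∈ JJ X` (contained in `[X, 4X]`) instead of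
the double sum. `UL_expand` (regime `K1`), `UM_mass` (`K2`, `C2`), `Bc_lip` (`K3`), `regp_pow_le 2 A 1` (`K4`: `Q^A ≤ X`). `w_p = mb p + Q^(-3)`,
`β_p m = Bc Q X p m / w_p`: at most `1`, Lipschitz with `(Q³ / (2X)) Q³ ≤ Q^6 / X`; `∑_p w_p ≤ C2 + 1` (`card_PC_le`). -/
theorem LKP_all (k : ℕ) (hk : 1 ≤ k) : LKP k := by
  intro B
  obtain ⟨A, C5, ρ, hC5, hρ, -, h5⟩ := KB12_one k hk B
  obtain ⟨K1, hK1, h1⟩ := UL_expand
  obtain ⟨K2, C2, hK2, hC2, h2⟩ := UM_mass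
  obtain ⟨K3, hK3, h3⟩ := Bc_lip
  obtain ⟨K4, hK4, h4⟩ := regp_pow_le 1 A 1 one_pos
  refine ⟨max (max K1 K2) (max K3 K4), C5 * (C2 + 1), ρ, hK1.trans ((le_max_left _ _).trans (le_max_left _ _)),
    by positivity, hρ, ?_⟩
  intro Q Q' X hreg hQ'1 hQ'Q f hf
  have hK0 : 0 ≤ max (max K1 K2) (max K3 K4) := by
    have := (le_max_left K1 K2).trans (le_max_left (max K1 K2) (max K3 K4))
    linarith
  have r1 := hreg.mono hK0 ((le_max_left K1 K2).trans (le_max_left _ _))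
  have r2 := hreg.mono hK0 ((le_max_right K1 K2).trans (le_max_left _ _))
  have r3 := hreg.mono hK0 ((le_max_left K3 K4).trans (le_max_right _ _))
  have r4 := hreg.mono hK0 ((le_max_right K3 K4).trans (le_max_right _ _))
  have hQ1 : 1 ≤ Q := hQ'1.trans hQ'Q
  have hQR : (1 : ℝ) ≤ Q := by exact_mod_cast hQ1
  have hQ0 : (0 : ℝ) < Q := by linarith
  have hX0 : 0 < X := r1.X_pos (by linarith)
  have hX0' : (0 : ℝ) < X := by exact_mod_cast hX0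
  have hQA : Q ^ A ≤ X := by
    have h6 := h4 Q X r4
    rw [one_mul, Real.rpow_one, Real.rpow_natCast] at h6
    exact_mod_cast h6
  obtain ⟨mb, hmb0, hmbs, hmb⟩ := h2 Q X r2
  have hwp : ∀ p ∈ PC Q, 0 < mb p + ((Q : ℝ) ^ 3)⁻¹ := fun p hp => by
    have := hmb0 p hp
    positivity
  have hsum : ∑ p ∈ PC Q, (mb p + ((Q : ℝ) ^ 3)⁻¹) ≤ C2 + 1 := by
    rw [Finset.sum_add_distrib, Finset.sum_const, nsmul_eq_mul]
    have h8 : ((PC Q).card : ℝ) * ((Q : ℝ) ^ 3)⁻¹ ≤ 1 := by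
      rw [← div_eq_mul_inv, div_le_one (by positivity)]
      have h9 : ((PC Q).card : ℝ) ≤ (Q : ℝ) ^ 2 := by exact_mod_cast card_PC_le Q
      refine h9.trans ?_
      exact pow_le_pow_right₀ hQR (by norm_num)
    linarith
  have hJ : ∀ n ∈ JJ X, (X : ℤ) ≤ n ∧ n ≤ 4 * X := by
    intro n hn
    unfold JJ at hn
    rw [Finset.mem_Ico] at hn
    omega
  have hexp : ∀ n ∈ JJ X, ((Lk Q (X / Q ^ 2) n - Lk Q' (X / Q ^ 2) n : ℝ) : ℂ) * Psi (B * X) k f n =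
      ∑ p ∈ PC Q, ((mb p + ((Q : ℝ) ^ 3)⁻¹ : ℝ) : ℂ) *
        ((Bc Q X p n / ((mb p + ((Q : ℝ) ^ 3)⁻¹ : ℝ) : ℂ)) * Vl Q Q' p n * Psi (B * X) k f n) := by
    intro n hn
    rw [h1 Q Q' X r1 hQ'1 hQ'Q n (hJ n hn).1 (hJ n hn).2, Finset.sum_mul]
    refine Finset.sum_congr rfl fun p hp => ?_
    have h10 : ((mb p + ((Q : ℝ) ^ 3)⁻¹ : ℝ) : ℂ) ≠ 0 := by exact_mod_cast (hwp p hp).ne'
    generalize ((mb p + ((Q : ℝ) ^ 3)⁻¹ : ℝ) : ℂ) = c at h10 ⊢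
    have h11 : Bc Q X p n = c * (Bc Q X p n / c) := by rw [mul_div_cancel₀ _ h10]
    rw [h11]
    rw [mul_div_cancel_left₀ _ h10]
    ring
  rw [Finset.sum_congr rfl hexp, Finset.sum_comm]
  have hQ'0 : (0 : ℝ) ≤ (X : ℝ) ^ 2 * (Q' : ℝ) ^ (-ρ) :=
    mul_nonneg (by positivity) (Real.rpow_nonneg (Nat.cast_nonneg _) _)
  have hone : ∀ p ∈ PC Q, ‖∑ n ∈ JJ X, ((mb p + ((Q : ℝ) ^ 3)⁻¹ : ℝ) : ℂ) *
        ((Bc Q X p n / ((mb p + ((Q : ℝ) ^ 3)⁻¹ : ℝ) : ℂ)) * Vl Q Q' p n * Psi (B * X) k f n)‖ ≤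
      (mb p + ((Q : ℝ) ^ 3)⁻¹) * (C5 * (X : ℝ) ^ 2 * (Q' : ℝ) ^ (-ρ)) := by
    intro p hp
    have hw := hwp p hp
    rw [← Finset.mul_sum, norm_mul, Complex.norm_real, Real.norm_eq_abs, abs_of_pos hw]
    refine mul_le_mul_of_nonneg_left ?_ hw.le
    refine h5 Q Q' X hQ'1 hQ'Q hQA p hp (fun m => Bc Q X p m / ((mb p + ((Q : ℝ) ^ 3)⁻¹ : ℝ) : ℂ)) ?_ ?_
      f (fun j hj y => (hf j hj).le y)
    · intro m hm hm4
      rw [norm_div, Complex.norm_real, Real.norm_eq_abs, abs_of_pos hw, div_le_one hw]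
      have h11 := hmb m hm hm4 p hp
      have h12 : 0 ≤ ((Q : ℝ) ^ 3)⁻¹ := by positivity
      linarith
    · intro m hm hm4
      rw [← sub_div, norm_div, Complex.norm_real, Real.norm_eq_abs, abs_of_pos hw]
      have h13 := h3 Q X r3 p m hm (by omega)
      have h14 : ((Q : ℝ) ^ 3)⁻¹ ≤ mb p + ((Q : ℝ) ^ 3)⁻¹ := by linarith [hmb0 p hp]
      have h15 : 0 < ((Q : ℝ) ^ 3)⁻¹ := by positivity
      calc ‖Bc Q X p (m + 1) - Bc Q X p m‖ / (mb p + ((Q : ℝ) ^ 3)⁻¹)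
          ≤ ((Q : ℝ) ^ 3 / (2 * X)) / ((Q : ℝ) ^ 3)⁻¹ :=
            div_le_div₀ (by positivity) h13 h15 h14
        _ = (Q : ℝ) ^ 6 / X * (1 / 2) := by
            field_simp
        _ ≤ (Q : ℝ) ^ 6 / X := by
            have h16 : 0 ≤ (Q : ℝ) ^ 6 / X := by positivity
            linarith
  refine (norm_sum_le _ _).trans ((Finset.sum_le_sum hone).trans ?_)
  rw [← Finset.sum_mul]
  calc (∑ p ∈ PC Q, (mb p + ((Q : ℝ) ^ 3)⁻¹)) * (C5 * (X : ℝ) ^ 2 * (Q' : ℝ) ^ (-ρ))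
      ≤ (C2 + 1) * (C5 * (X : ℝ) ^ 2 * (Q' : ℝ) ^ (-ρ)) := by
        refine mul_le_mul_of_nonneg_right hsum ?_
        have := mul_nonneg hC5.le hQ'0
        linarith
    _ = C5 * (C2 + 1) * (X : ℝ) ^ 2 * (Q' : ℝ) ^ (-ρ) := by ring

end Pool.Agent.HUK
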