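import Pool.Agent.Lib.HUK.C8
import Pool.Agent.Lib.HUK.A16
import Pool.Agent.Lib.HUK.BH9
import Pool.Agent.Lib.HUK.KA14
import Pool.Agent.Lib.HUK.KB13
import Pool.Agent.Lib.HUK.DFIN
import Pool.Agent.Lib.H37T.A6

/-!
# Project HUK: all modules together

`PK k` for all `k ≥ 2` (all Gowers norms of the error are small) and the core theorem for all systems of linear forms without
proportional linear parts.
-/

namespace Pool.Agent.HUK

open Pool.Agent.H9U (Sys)
open Pool.Agent.H96U (CoreOf Fin2)

/-- All Gowers norms of the error are small. -/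
theorem FIN_PK (k : ℕ) (hk : 2 ≤ k) : PK k :=
  C8_all Pool.Agent.H37T.inv (fun k hk => tlp_of_tii k hk (A16_TII k hk)) (fun k hk => LKP_all k (by omega)) k hk

/-- **The core theorem for all systems of finite complexity.** -/
theorem FIN_core {k d : ℕ} (hk : 1 ≤ k) (hd : 1 ≤ d) (S : Sys k d) (hS : Fin2 S) : CoreOf S :=
  DFIN_core2 hk hd S hS (FIN_PK (k + 1) (by omega)) (UCH_all (k + 1) (by omega))

/-- The hypothesis `hCore` of the hand-ins. -/
theorem FIN_all : ∀ (k d : ℕ) (S : Sys k d), 1 ≤ k → 1 ≤ d → Fin2 S → CoreOf S :=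
  fun _ _ S hk hd hS => FIN_core hk hd S hS

end Pool.Agent.HUK
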