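import Pool.Agent.Lib.HUK.E0

/-!
# Project HUK, chunk E1 (M): the elimination lemma with absolute values
-/

open Finset

namespace Pool.Agent.HUK

theorem e1_box_succ {M : Type*} [AddCommMonoid M] (r H : ℕ) (F : (Fin (r + 1) → ℤ) → M) :
    ∑ j ∈ bxS (r + 1) H, F j = ∑ j0 ∈ Ioo (-(H : ℤ)) H, ∑ j' ∈ bxS r H, F (Fin.cons j0 j') := by
  rw [← Finset.sum_product' (Ioo (-(H : ℤ)) H) (bxS r H) (fun j0 j' => F (Fin.cons j0 j'))]
  refine Finset.sum_nbij' (fun j => (j 0, fun i => j i.succ)) (fun p => Fin.cons p.1 p.2) ?_ ?_ ?_ ?_ ?_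
  · intro j hj
    unfold bxS at hj ⊢
    rw [Fintype.mem_piFinset] at hj
    rw [mem_product, Fintype.mem_piFinset]
    exact ⟨hj 0, fun i => hj i.succ⟩
  · intro p hp
    unfold bxS at hp ⊢
    rw [mem_product, Fintype.mem_piFinset] at hp
    rw [Fintype.mem_piFinset]
    refine Fin.cases ?_ ?_
    · exact hp.1
    · exact fun i => hp.2 i
  · intro j _
    exact Fin.cons_self_tail j
  · intro p _
    rfl
  · intro j _
    exact congrArg F (Fin.cons_self_tail j).symm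

theorem e1_DD_prod {G : Type*} [Add G] {r : ℕ} (h : G) (g : Fin r → G → ℂ) (c : G → ℂ) (z : G) :
    DD h (fun z => (∏ i, g i z) * c z) z = (∏ i, DD h (g i) z) * DD h c z := by
  simp only [DD, map_mul, map_prod, Finset.prod_mul_distrib]
  ring

theorem e1_DD_le {G : Type*} [Add G] (h : G) (g : G → ℂ) (hg : ∀ z, ‖g z‖ ≤ 1) (z : G) : ‖DD h g z‖ ≤ 1 := by
  simp only [DD, norm_mul, RCLike.norm_conj]
  exact mul_le_one₀ (hg _) (norm_nonneg _) (hg _)

theorem e1_DD_inv {G : Type*} [AddCommGroup G] (h v : G) (g : G → ℂ) (hg : ∀ z, g (z + v) = g z) (z : G) :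
    DD h g (z + v) = DD h g z := by
  simp only [DD, hg, add_right_comm z v h]

/-- Power mean over the `2H - 1` values of `j`. -/
theorem e1_mean (H : ℕ) (hH : 0 < H) (n : ℕ) (y : ℤ → ℝ) (hy : ∀ j, 0 ≤ y j) :
    ((∑ j ∈ Ioo (-(H : ℤ)) H, y j) / H) ^ (n + 1) ≤ 2 ^ n / H * ∑ j ∈ Ioo (-(H : ℤ)) H, y j ^ (n + 1) := by
  have hHr : (0 : ℝ) < H := by exact_mod_cast hH
  have h1 := pow_sum_div_card_le_sum_pow (s := Ioo (-(H : ℤ)) H) (f := y) (fun j _ => hy j) n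
  have hc : ((Ioo (-(H : ℤ)) H).card : ℝ) ≤ 2 * H := by
    have h2 : (Ioo (-(H : ℤ)) H).card ≤ 2 * H := by
      rw [Int.card_Ioo]
      omega
    exact_mod_cast h2
  have hc0 : (0 : ℝ) < (Ioo (-(H : ℤ)) H).card := by
    have h2 : 0 < (Ioo (-(H : ℤ)) H).card := by
      rw [Int.card_Ioo]
      omega
    exact_mod_cast h2
  rw [div_le_iff₀ (pow_pos hc0 n)] at h1
  rw [div_pow, div_le_iff₀ (by positivity)]
  refine h1.trans ?_
  have h3 : ((Ioo (-(H : ℤ)) H).card : ℝ) ^ n ≤ (2 * H) ^ n := pow_le_pow_left₀ hc0.le hc n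
  have h4 : 0 ≤ ∑ j ∈ Ioo (-(H : ℤ)) H, y j ^ (n + 1) := Finset.sum_nonneg fun j _ => pow_nonneg (hy j) _
  refine (mul_le_mul_of_nonneg_left h3 h4).trans (le_of_eq ?_)
  rw [mul_pow, pow_succ]
  field_simp

/-- Proof by induction on `r` (generalise `c`, `g`, `v`). `r = 0`: clear (`DL [] c = c`, one `j`, `2 ≥ 1`). Step: `x = ‖S‖/N`. `E0_step` with
`v 0`, `g 0` and `u z = (∏_{i} g i.succ z) * c z`: `x² ≤ (1/H) ∑_{|j| < H} y_j`, `y_j = ‖∑_z DD (j • v 0) u z‖ / N`, and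
`DD (j • v 0) u z = (∏_i DD (j • v 0) (g i.succ) z) * DD (j • v 0) c z`; the new functions are bounded by `1` and invariant under `v i.succ`
(commutative group), and `DD (j • v 0) c` vanishes outside `B`. Hoelder (power mean) with `p = 2^r`:
`x^(2^(r+1)) ≤ ((1/H) ∑_j y_j)^p ≤ (2^(p-1)/H) ∑_j y_j^p` (at most `2H` values of `j`), induction hypothesis for each `j`, and
`∑_{j ∈ Ioo} ∑_{j' ∈ bxS r H} = ∑_{bxS (r+1) H}` via `Fin.cons` (`List.ofFn_succ`, `DL (h :: l) c = DL l (DD h c)`). -/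
theorem E1_elim {G : Type*} [AddCommGroup G] [DecidableEq G] (B B' : Finset G) (N : ℝ) (hN : (B'.card : ℝ) ≤ N)
    (hN0 : 0 < N) (H : ℕ) (hH : 0 < H) (r : ℕ) (v : Fin r → G) (g : Fin r → G → ℂ) (c : G → ℂ)
    (hg : ∀ i z, ‖g i z‖ ≤ 1) (hinv : ∀ i z, g i (z + v i) = g i z) (hc : ∀ z, z ∉ B → c z = 0)
    (hB : ∀ i z, ∀ h : ℕ, h < H → z + h • v i ∈ B → z ∈ B') :
    (‖∑ z ∈ B, (∏ i, g i z) * c z‖ / N) ^ (2 ^ r) ≤
      2 ^ (2 ^ r) / (H : ℝ) ^ r * ∑ j ∈ bxS r H, ‖∑ z ∈ B, DL (List.ofFn fun i => j i • v i) c z‖ / N := by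
  have hHr : (0 : ℝ) < H := by exact_mod_cast hH
  induction r generalizing c with
  | zero =>
    have h1 : ∑ j ∈ bxS 0 H, ‖∑ z ∈ B, DL (List.ofFn fun i => j i • v i) c z‖ / N = ‖∑ z ∈ B, c z‖ / N := by
      have h2 : bxS 0 H = {fun i => i.elim0} := by
        unfold bxS
        rw [Fintype.piFinset_of_isEmpty]
        ext j
        simp only [mem_univ, mem_singleton, true_iff]
        exact Subsingleton.elim _ _
      rw [h2, Finset.sum_singleton]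
      simp only [List.ofFn_zero, DL]
    rw [h1, pow_zero, pow_one, pow_one, pow_zero, div_one]
    have h3 : ∑ z ∈ B, (∏ i : Fin 0, g i z) * c z = ∑ z ∈ B, c z := by
      refine Finset.sum_congr rfl fun z _ => ?_
      rw [Finset.univ_eq_empty, Finset.prod_empty, one_mul]
    rw [h3]
    have h4 : 0 ≤ ‖∑ z ∈ B, c z‖ / N := by positivity
    linarith
  | succ r ih =>
    -- one step
    have h1 := E0_step B B' N hN H hH (v 0) (g 0) (fun z => (∏ i : Fin r, g i.succ z) * c z) (hg 0) (hinv 0)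
      (fun z hz => by simp only [hc z hz, mul_zero]) (hB 0)
    have h2 : ∑ z ∈ B, (∏ i, g i z) * c z = ∑ z ∈ B, g 0 z * ((∏ i : Fin r, g i.succ z) * c z) := by
      refine Finset.sum_congr rfl fun z _ => ?_
      rw [Fin.prod_univ_succ, mul_assoc]
    rw [h2]
    obtain ⟨x, hx⟩ : ∃ x : ℝ, x = ‖∑ z ∈ B, g 0 z * ((∏ i : Fin r, g i.succ z) * c z)‖ / N := ⟨_, rfl⟩
    obtain ⟨y, hy⟩ : ∃ y : ℤ → ℝ, ∀ j, y j =
        ‖∑ z ∈ B, (∏ i : Fin r, DD (j • v 0) (g i.succ) z) * DD (j • v 0) c z‖ / N := ⟨_, fun _ => rfl⟩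
    have hx0 : 0 ≤ x := by rw [hx]; positivity
    have hy0 : ∀ j, 0 ≤ y j := by
      intro j
      rw [hy]
      positivity
    rw [← hx]
    have h3 : x ^ 2 ≤ (∑ j ∈ Ioo (-(H : ℤ)) H, y j) / H := by
      rw [hx, div_pow, div_le_iff₀ (by positivity)]
      refine h1.trans (le_of_eq ?_)
      have h4 : ∑ j ∈ Ioo (-(H : ℤ)) H, y j = (∑ j ∈ Ioo (-(H : ℤ)) H,
          ‖∑ z ∈ B, DD (j • v 0) (fun z => (∏ i : Fin r, g i.succ z) * c z) z‖) / N := by
        rw [Finset.sum_div]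
        refine Finset.sum_congr rfl fun j _ => ?_
        rw [hy]
        congr 2
        exact Finset.sum_congr rfl fun z _ => (e1_DD_prod _ _ _ _).symm
      rw [h4]
      field_simp
    obtain ⟨n, hn⟩ : ∃ n : ℕ, 2 ^ r = n + 1 := ⟨2 ^ r - 1, by
      have := Nat.one_le_two_pow (n := r)
      omega⟩
    have h5 : x ^ (2 ^ (r + 1)) ≤ 2 ^ n / H * ∑ j ∈ Ioo (-(H : ℤ)) H, y j ^ (2 ^ r) := by
      calc x ^ (2 ^ (r + 1)) = (x ^ 2) ^ (n + 1) := by
            rw [← hn, ← pow_mul, pow_succ, mul_comm]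
        _ ≤ ((∑ j ∈ Ioo (-(H : ℤ)) H, y j) / H) ^ (n + 1) := pow_le_pow_left₀ (by positivity) h3 _
        _ ≤ 2 ^ n / H * ∑ j ∈ Ioo (-(H : ℤ)) H, y j ^ (n + 1) := e1_mean H hH n y hy0
        _ = _ := by rw [hn]
    refine h5.trans ?_
    -- induction hypothesis
    have h6 : ∀ j ∈ Ioo (-(H : ℤ)) H, y j ^ (2 ^ r) ≤ 2 ^ (2 ^ r) / (H : ℝ) ^ r *
        ∑ j' ∈ bxS r H, ‖∑ z ∈ B, DL (List.ofFn fun i => (Fin.cons j j' : Fin (r + 1) → ℤ) i • v i) c z‖ / N := by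
      intro j _
      rw [hy]
      refine (ih (fun i => v i.succ) (fun i => DD (j • v 0) (g i.succ)) (DD (j • v 0) c)
        (fun i z => e1_DD_le _ _ (hg i.succ) z) (fun i z => e1_DD_inv _ _ _ (hinv i.succ) z)
        (fun z hz => by simp only [DD, hc z hz, zero_mul]) (fun i => hB i.succ)).trans (le_of_eq ?_)
      congr 1
      refine Finset.sum_congr rfl fun j' _ => ?_
      rw [List.ofFn_succ]
      simp only [Fin.cons_zero, Fin.cons_succ, DL]
    calc 2 ^ n / (H : ℝ) * ∑ j ∈ Ioo (-(H : ℤ)) H, y j ^ (2 ^ r)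
        ≤ 2 ^ n / (H : ℝ) * ∑ j ∈ Ioo (-(H : ℤ)) H, 2 ^ (2 ^ r) / (H : ℝ) ^ r *
        ∑ j' ∈ bxS r H, ‖∑ z ∈ B, DL (List.ofFn fun i => (Fin.cons j j' : Fin (r + 1) → ℤ) i • v i) c z‖ / N := by
          refine mul_le_mul_of_nonneg_left (Finset.sum_le_sum h6) (by positivity)
      _ = 2 ^ n * 2 ^ (2 ^ r) / (H : ℝ) ^ (r + 1) * ∑ j ∈ bxS (r + 1) H,
          ‖∑ z ∈ B, DL (List.ofFn fun i => j i • v i) c z‖ / N := by
          rw [e1_box_succ, ← Finset.mul_sum, ← mul_assoc]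
          congr 1
          rw [pow_succ (H : ℝ) r]
          field_simp
      _ ≤ _ := by
          refine mul_le_mul_of_nonneg_right ?_ (Finset.sum_nonneg fun j _ => by positivity)
          refine div_le_div_of_nonneg_right ?_ (by positivity)
          rw [← pow_add]
          refine pow_le_pow_right₀ one_le_two ?_
          rw [pow_succ]
          omega

end Pool.Agent.HUK
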