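import Pool.Agent.Lib.HUK.KB0

/-!
# Project HUK, chunk KB1 (M): Chinese remainder theorem for averages
-/

open Finset

namespace Pool.Agent.HUK

theorem kb1_inj (M1 M2 : ℕ) (hc : Nat.Coprime M1 M2) {x y : ℤ}
    (hx : x ∈ Ico (0 : ℤ) ((M1 * M2 : ℕ) : ℤ)) (hy : y ∈ Ico (0 : ℤ) ((M1 * M2 : ℕ) : ℤ))
    (e1 : x % (M1 : ℤ) = y % (M1 : ℤ)) (e2 : x % (M2 : ℤ) = y % (M2 : ℤ)) : x = y := by
  have d1 : (M1 : ℤ) ∣ x - y := Int.ModEq.dvd (show y ≡ x [ZMOD M1] from e1.symm)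
  have d2 : (M2 : ℤ) ∣ x - y := Int.ModEq.dvd (show y ≡ x [ZMOD M2] from e2.symm)
  have hc' : IsCoprime (M1 : ℤ) (M2 : ℤ) := Nat.isCoprime_iff_coprime.2 hc
  have d : (M1 : ℤ) * M2 ∣ x - y := hc'.mul_dvd d1 d2
  rw [mem_Ico] at hx hy
  push_cast at hx hy
  have h0 : x - y = 0 := Int.eq_zero_of_abs_lt_dvd d (by rw [abs_lt]; constructor <;> linarith [hx.1, hx.2, hy.1, hy.2])
  linarith

theorem kb1_surj (M1 M2 : ℕ) (h1 : 1 ≤ M1) (h2 : 1 ≤ M2) (hc : Nat.Coprime M1 M2) {a b : ℤ}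
    (ha : a ∈ Ico (0 : ℤ) M1) (hb : b ∈ Ico (0 : ℤ) M2) :
    ∃ x ∈ Ico (0 : ℤ) ((M1 * M2 : ℕ) : ℤ), x % (M1 : ℤ) = a ∧ x % (M2 : ℤ) = b := by
  rw [mem_Ico] at ha hb
  have hk := (Nat.chineseRemainder hc a.toNat b.toNat).2
  have hlt := Nat.chineseRemainder_lt_mul hc a.toNat b.toNat (by omega) (by omega)
  set k : ℕ := (Nat.chineseRemainder hc a.toNat b.toNat : ℕ) with hkd
  refine ⟨(k : ℤ), ?_, ?_, ?_⟩
  · rw [mem_Ico]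
    exact ⟨by positivity, by exact_mod_cast hlt⟩
  · have e := hk.1
    have e' : (k : ℤ) % (M1 : ℤ) = (a.toNat : ℤ) % (M1 : ℤ) := by
      have := congrArg (fun n : ℕ => (n : ℤ)) (show k % M1 = a.toNat % M1 from e)
      simpa using this
    rw [e', Int.toNat_of_nonneg ha.1, Int.emod_eq_of_lt ha.1 ha.2]
  · have e := hk.2
    have e' : (k : ℤ) % (M2 : ℤ) = (b.toNat : ℤ) % (M2 : ℤ) := by
      have := congrArg (fun n : ℕ => (n : ℤ)) (show k % M2 = b.toNat % M2 from e)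
      simpa using this
    rw [e', Int.toNat_of_nonneg hb.1, Int.emod_eq_of_lt hb.1 hb.2]

theorem kb1_mem (M : ℕ) (h : 1 ≤ M) (x : ℤ) : x % (M : ℤ) ∈ Ico (0 : ℤ) M := by
  rw [mem_Ico]
  have : (0 : ℤ) < M := by exact_mod_cast h
  exact ⟨Int.emod_nonneg _ this.ne', Int.emod_lt_of_pos _ this⟩

theorem kb1_sum1 (M1 M2 : ℕ) (h1 : 1 ≤ M1) (h2 : 1 ≤ M2) (hc : Nat.Coprime M1 M2) (F : ℤ → ℤ → ℂ) :
    ∑ x ∈ Ico (0 : ℤ) ((M1 * M2 : ℕ) : ℤ), F (x % (M1 : ℤ)) (x % (M2 : ℤ)) =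
      ∑ a ∈ Ico (0 : ℤ) M1, ∑ b ∈ Ico (0 : ℤ) M2, F a b := by
  rw [← sum_product' (Ico (0 : ℤ) M1) (Ico (0 : ℤ) M2) F]
  refine sum_bij (fun x _ => (x % (M1 : ℤ), x % (M2 : ℤ))) ?_ ?_ ?_ ?_
  · intro x _
    exact mem_product.2 ⟨kb1_mem M1 h1 x, kb1_mem M2 h2 x⟩
  · intro x hx y hy e
    rw [Prod.mk.injEq] at e
    exact kb1_inj M1 M2 hc hx hy e.1 e.2
  · rintro ⟨a, b⟩ hab
    rw [mem_product] at hab
    obtain ⟨x, hx, e1, e2⟩ := kb1_surj M1 M2 h1 h2 hc hab.1 hab.2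
    exact ⟨x, hx, by rw [e1, e2]⟩
  · intro x _; rfl

theorem kb1_sumk (k M1 M2 : ℕ) (h1 : 1 ≤ M1) (h2 : 1 ≤ M2) (hc : Nat.Coprime M1 M2)
    (F : (Fin k → ℤ) → (Fin k → ℤ) → ℝ) :
    ∑ h ∈ Fintype.piFinset (fun _ : Fin k => Ico (0 : ℤ) ((M1 * M2 : ℕ) : ℤ)),
      F (fun i => h i % (M1 : ℤ)) (fun i => h i % (M2 : ℤ)) =
      ∑ a ∈ Fintype.piFinset (fun _ : Fin k => Ico (0 : ℤ) M1),
        ∑ b ∈ Fintype.piFinset (fun _ : Fin k => Ico (0 : ℤ) M2), F a b := by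
  rw [← sum_product' _ _ F]
  refine sum_bij (fun h _ => (fun i => h i % (M1 : ℤ), fun i => h i % (M2 : ℤ))) ?_ ?_ ?_ ?_
  · intro h _
    exact mem_product.2 ⟨Fintype.mem_piFinset.2 fun i => kb1_mem M1 h1 _,
      Fintype.mem_piFinset.2 fun i => kb1_mem M2 h2 _⟩
  · intro x hx y hy e
    rw [Prod.mk.injEq] at e
    funext i
    exact kb1_inj M1 M2 hc (Fintype.mem_piFinset.1 hx i) (Fintype.mem_piFinset.1 hy i)
      (congrFun e.1 i) (congrFun e.2 i)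
  · rintro ⟨a, b⟩ hab
    rw [mem_product, Fintype.mem_piFinset, Fintype.mem_piFinset] at hab
    choose x hx e1 e2 using fun i => kb1_surj M1 M2 h1 h2 hc (hab.1 i) (hab.2 i)
    refine ⟨x, Fintype.mem_piFinset.2 hx, ?_⟩
    rw [Prod.mk.injEq]
    exact ⟨funext e1, funext e2⟩
  · intro x _; rfl

/-- Proof. The map `x ↦ (x % M1, x % M2)` is a bijection from `Ico 0 (M1 * M2)` to `Ico 0 M1 ×ˢ Ico 0 M2` (injective by coprimality, and both sides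
have `M1 * M2` elements; or surjective by `Nat.chineseRemainder`), and for `h : Fin k → ℤ` coordinatewise. For fixed `h` with residues `h1`, `h2`
(modulo `M1`, `M2`): `∑_{y ∈ Ico 0 (M1 M2)} φ1 y h * φ2 y h = ∑_{y1} ∑_{y2} φ1 y1 h1 * φ2 y2 h2 = (∑_{y1} φ1 y1 h1) (∑_{y2} φ2 y2 h2)` (periodicity);
take norms and sum over `h` in the same way; `(M1 M2)^(k+1) = M1^(k+1) M2^(k+1)`. -/
theorem KB1_mul {k : ℕ} (M1 M2 : ℕ) (h1 : 1 ≤ M1) (h2 : 1 ≤ M2) (hc : Nat.Coprime M1 M2)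
    (φ1 φ2 : ℤ → (Fin k → ℤ) → ℂ) (hp1 : Pe M1 φ1) (hp2 : Pe M2 φ2) :
    Av k (M1 * M2) (fun y h => φ1 y h * φ2 y h) = Av k M1 φ1 * Av k M2 φ2 := by
  have e1 : ∀ (M : ℕ) (φ : ℤ → (Fin k → ℤ) → ℂ), Pe M φ → ∀ y h,
      φ y h = φ (y % (M : ℤ)) (fun i => h i % (M : ℤ)) := by
    intro M φ hp y h
    apply hp
    · exact Int.dvd_self_sub_emod
    · intro i; exact Int.dvd_self_sub_emod
  have e2 : ∀ h : Fin k → ℤ, ‖∑ y ∈ Ico (0 : ℤ) ((M1 * M2 : ℕ) : ℤ), φ1 y h * φ2 y h‖ =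
      ‖∑ y ∈ Ico (0 : ℤ) M1, φ1 y (fun i => h i % (M1 : ℤ))‖ * ‖∑ y ∈ Ico (0 : ℤ) M2, φ2 y (fun i => h i % (M2 : ℤ))‖ := by
    intro h
    rw [← norm_mul, sum_mul_sum]
    congr 1
    rw [← kb1_sum1 M1 M2 h1 h2 hc
      (fun a b => φ1 a (fun i => h i % (M1 : ℤ)) * φ2 b (fun i => h i % (M2 : ℤ)))]
    apply sum_congr rfl; intro y _
    rw [e1 M1 φ1 hp1 y h, e1 M2 φ2 hp2 y h]
  simp only [Av]
  rw [sum_congr rfl fun h _ => e2 h]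
  rw [kb1_sumk k M1 M2 h1 h2 hc (fun a b => ‖∑ y ∈ Ico (0 : ℤ) M1, φ1 y a‖ * ‖∑ y ∈ Ico (0 : ℤ) M2, φ2 y b‖)]
  rw [← sum_mul_sum, div_mul_div_comm]
  congr 1
  push_cast
  rw [mul_pow]

/-- Rules for `Pe` and `Av` (short). -/
theorem KB1_per {k : ℕ} (M1 M2 : ℕ) (φ1 φ2 : ℤ → (Fin k → ℤ) → ℂ) (hp1 : Pe M1 φ1) (hp2 : Pe M2 φ2) :
    Pe (M1 * M2) (fun y h => φ1 y h * φ2 y h) := by
  intro y y' h h' hy hh
  have hm : ((M1 * M2 : ℕ) : ℤ) = (M1 : ℤ) * M2 := by push_cast; rfl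
  rw [hm] at hy
  have a1 := hp1 y y' h h' ((dvd_mul_right _ _).trans hy) fun i => (dvd_mul_right _ _).trans (hm ▸ hh i)
  have a2 := hp2 y y' h h' ((dvd_mul_left _ _).trans hy) fun i => (dvd_mul_left _ _).trans (hm ▸ hh i)
  simp only [a1, a2]

theorem KB1_nn (k M : ℕ) (φ : ℤ → (Fin k → ℤ) → ℂ) : 0 ≤ Av k M φ := by
  rw [Av]
  positivity

theorem KB1_smul (k M : ℕ) (a : ℂ) (φ : ℤ → (Fin k → ℤ) → ℂ) : Av k M (fun y h => a * φ y h) = ‖a‖ * Av k M φ := by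
  rw [Av, Av, mul_div_assoc', mul_sum]
  congr 1
  apply sum_congr rfl; intro h _
  rw [← mul_sum, norm_mul]

theorem KB1_one (k : ℕ) (M : ℕ) (hM : 1 ≤ M) (φ : ℤ → (Fin k → ℤ) → ℂ) (h : ∀ y h, ‖φ y h‖ ≤ 1) : Av k M φ ≤ 1 := by
  have hM' : (0 : ℝ) < M := by exact_mod_cast hM
  rw [Av]
  apply div_le_one_of_le₀ _ (by positivity)
  have h1 : ∀ a : Fin k → ℤ, ‖∑ y ∈ Ico (0 : ℤ) M, φ y a‖ ≤ M := by
    intro a
    refine (norm_sum_le _ _).trans ?_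
    refine (sum_le_sum fun y _ => h y a).trans ?_
    simp
  refine (sum_le_sum fun a _ => h1 a).trans ?_
  rw [sum_const, Fintype.card_piFinset]
  simp only [Int.card_Ico, sub_zero, Int.toNat_natCast, prod_const, card_univ, Fintype.card_fin, nsmul_eq_mul]
  push_cast
  rw [pow_succ]

end Pool.Agent.HUK
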