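import Pool.Agent.Lib.HUK.D0
import Pool.Agent.Lib.HUK.IDE
import Pool.Agent.Lib.H9U.U3
import Pool.Agent.Lib.H9U.U0B

/-!
# HUK, chunk C7 (M): the start of the induction, `U³`
-/

open Finset

namespace Pool.Agent.HUK

open Pool.Agent.H9U (JJ cutJ Er Rgm)

theorem c7_bx0 {M : Type*} [AddCommMonoid M] (N : ℕ) (F : (Fin 0 → ℤ) → M) :
    ∑ h ∈ bxS 0 N, F h = F (fun i => i.elim0) := by
  have h : bxS 0 N = {fun i => i.elim0} := by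
    ext x
    simp only [bxS, Fintype.mem_piFinset, mem_singleton]
    constructor
    · intro _; funext i; exact i.elim0
    · intro _ i; exact i.elim0
  rw [h, sum_singleton]

theorem c7_spt (X : ℕ) (F : ℤ → ℂ) : Spt (4 * X) (cutJ X F) := by
  intro y hy
  unfold cutJ
  rw [if_neg]
  intro h
  apply hy
  unfold JJ at h
  rw [mem_Ico] at h ⊢
  push_cast
  omega

theorem c7_T (X : ℕ) (F : ℤ → ℂ) (a b : ℤ) :
    ∑ y ∈ Ico (-((4 * X : ℕ) : ℤ)) ((4 * X : ℕ) : ℤ), DD b (DD a (cutJ X F)) y =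
      ∑ m ∈ JJ X, F m * (starRingEnd ℂ) (cutJ X F (m + a)) * (starRingEnd ℂ) (cutJ X F (m + b)) *
        cutJ X F (m + a + b) := by
  have e : ∀ y, DD b (DD a (cutJ X F)) y = cutJ X F y * (starRingEnd ℂ) (cutJ X F (y + a)) *
      (starRingEnd ℂ) (cutJ X F (y + b)) * cutJ X F (y + a + b) := by
    intro y
    unfold DD
    rw [map_mul, Complex.conj_conj, add_right_comm y b a]
    ring
  rw [sum_congr rfl fun y _ => e y]
  symm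
  have e2 : ∀ m ∈ JJ X, F m * (starRingEnd ℂ) (cutJ X F (m + a)) * (starRingEnd ℂ) (cutJ X F (m + b)) *
        cutJ X F (m + a + b) = cutJ X F m * (starRingEnd ℂ) (cutJ X F (m + a)) *
      (starRingEnd ℂ) (cutJ X F (m + b)) * cutJ X F (m + a + b) := by
    intro m hm
    have h1 : cutJ X F m = F m := by unfold cutJ; rw [if_pos hm]
    rw [h1]
  rw [sum_congr rfl e2]
  refine sum_subset ?_ ?_
  · intro y hy
    unfold JJ at hy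
    rw [mem_Ico] at hy ⊢
    push_cast
    omega
  · intro y _ hy
    have h1 : cutJ X F y = 0 := by unfold cutJ; rw [if_neg hy]
    rw [h1]
    ring

theorem c7_zero (X : ℕ) (F : ℤ → ℂ) (a b : ℤ) (h : a ∉ Ioo (-(X : ℤ)) X ∨ b ∉ Ioo (-(X : ℤ)) X) :
    ∑ m ∈ JJ X, F m * (starRingEnd ℂ) (cutJ X F (m + a)) * (starRingEnd ℂ) (cutJ X F (m + b)) *
        cutJ X F (m + a + b) = 0 := by
  refine sum_eq_zero fun m hm => ?_
  have key : ∀ c : ℤ, c ∉ Ioo (-(X : ℤ)) X → cutJ X F (m + c) = 0 := by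
    intro c hc
    unfold cutJ
    rw [if_neg]
    intro h2
    apply hc
    unfold JJ at hm h2
    rw [mem_Ico] at hm h2
    rw [mem_Ioo]
    omega
  rcases h with h | h
  · rw [key a h, map_zero]; ring
  · rw [key b h, map_zero]; ring

/-- Proof. `U0_unif` (`H9U/U0B`): `Unif X κ0 (Er Q Q' X)` in the regime; `U3_norm κ0` (`H9U/U3`). With `F = Er Q Q' X`, `f = cutJ X F` (supported in
`JJ X ⊆ [-4X, 4X)`): by `D0_sq` (`s = 2`) and `D0_re`, `GG (4X) 3 f = ∑_{h ∈ bxS 2 (8X)} ‖∑_{y ∈ Ico (-4X) (4X)} DV h f y‖²`, `DV ![a, b] f y = f y conj f(y+a) ·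
conj (f(y+b) conj f(y+a+b))`, so the inner sum is the sum over `m ∈ JJ X` of `U3_norm` (the last factor is `cutJ X F (m+a+b)`, twice conjugated), and it
vanishes if `|a| ≥ X` or `|b| ≥ X` (two points of `JJ X` have distance `< X`). So `GG (4X) 3 f ≤ X^(4 - κ0/4)`, `κ = κ0/4`. -/
theorem C7_three (hI : Pool.Agent.H9S.INV) : PK 3 := by
  obtain ⟨K, hK, h⟩ := Pool.Agent.H9U.U0_unif hI
  refine ⟨K, hK, fun Cr θ hCr hθ => ?_⟩
  obtain ⟨κ0, h0, h1, X1, hU⟩ := h Cr θ hCr hθ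
  obtain ⟨X2, hN⟩ := Pool.Agent.H9U.U3_norm κ0 h0
  refine ⟨κ0 / 4, by linarith, by linarith, max X1 X2, fun Q Q' X hX hR => ?_⟩
  have hF := hU Q Q' X ((le_max_left _ _).trans hX) hR
  have hB := hN X ((le_max_right _ _).trans hX) (Er Q Q' X) hF
  generalize Er Q Q' X = F at hB
  have hGG : GG (4 * X) 3 (cutJ X F) = ∑ a ∈ Ioo (-((2 * (4 * X) : ℕ) : ℤ)) ((2 * (4 * X) : ℕ) : ℤ),
      ∑ b ∈ Ioo (-((2 * (4 * X) : ℕ) : ℤ)) ((2 * (4 * X) : ℕ) : ℤ),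
        ‖∑ m ∈ JJ X, F m * (starRingEnd ℂ) (cutJ X F (m + a)) * (starRingEnd ℂ) (cutJ X F (m + b)) *
          cutJ X F (m + a + b)‖ ^ 2 := by
    unfold GG
    rw [D0_sq (s := 2) (c7_spt X F), Complex.ofReal_re, D0_bx]
    refine sum_congr rfl fun a _ => ?_
    rw [D0_bx]
    refine sum_congr rfl fun b _ => ?_
    rw [c7_bx0, ← c7_T X F a b, D0_cons, D0_cons]
    rfl
  have hsub : Ioo (-(X : ℤ)) X ⊆ Ioo (-((2 * (4 * X) : ℕ) : ℤ)) ((2 * (4 * X) : ℕ) : ℤ) := by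
    intro a ha
    rw [mem_Ioo] at ha ⊢
    push_cast
    omega
  have hGG2 : GG (4 * X) 3 (cutJ X F) = ∑ a ∈ Ioo (-(X : ℤ)) X, ∑ b ∈ Ioo (-(X : ℤ)) X,
        ‖∑ m ∈ JJ X, F m * (starRingEnd ℂ) (cutJ X F (m + a)) * (starRingEnd ℂ) (cutJ X F (m + b)) *
          cutJ X F (m + a + b)‖ ^ 2 := by
    rw [hGG]
    symm
    have e1 : ∀ a ∈ Ioo (-(X : ℤ)) X, ∑ b ∈ Ioo (-(X : ℤ)) X,
        ‖∑ m ∈ JJ X, F m * (starRingEnd ℂ) (cutJ X F (m + a)) * (starRingEnd ℂ) (cutJ X F (m + b)) *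
          cutJ X F (m + a + b)‖ ^ 2 = ∑ b ∈ Ioo (-((2 * (4 * X) : ℕ) : ℤ)) ((2 * (4 * X) : ℕ) : ℤ),
        ‖∑ m ∈ JJ X, F m * (starRingEnd ℂ) (cutJ X F (m + a)) * (starRingEnd ℂ) (cutJ X F (m + b)) *
          cutJ X F (m + a + b)‖ ^ 2 := by
      intro a _
      refine sum_subset hsub fun b _ hb => ?_
      rw [c7_zero X F a b (Or.inr hb), norm_zero]
      norm_num
    rw [sum_congr rfl e1]
    refine sum_subset hsub fun a _ ha => sum_eq_zero fun b _ => ?_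
    rw [c7_zero X F a b (Or.inl ha), norm_zero]
    norm_num
  rw [hGG2]
  refine hB.trans (le_of_eq ?_)
  congr 1
  push_cast
  ring

theorem c7_cs (Y : ℕ) (G : ℤ → ℝ) : (∑ a ∈ Ioo (-((2 * Y : ℕ) : ℤ)) ((2 * Y : ℕ) : ℤ), G a) ^ 2 ≤
    (4 * Y) * ∑ a ∈ Ioo (-((2 * Y : ℕ) : ℤ)) ((2 * Y : ℕ) : ℤ), G a ^ 2 := by
  have h1 := sq_sum_le_card_mul_sum_sq (s := Ioo (-((2 * Y : ℕ) : ℤ)) ((2 * Y : ℕ) : ℤ)) (f := G)
  refine h1.trans (mul_le_mul_of_nonneg_right ?_ (sum_nonneg fun _ _ => sq_nonneg _))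
  rw [Int.card_Ioo]
  have h2 : (((2 * Y : ℕ) : ℤ) - -((2 * Y : ℕ) : ℤ) - 1).toNat ≤ 4 * Y := by
    push_cast
    omega
  exact_mod_cast h2

theorem c7_one (Y : ℕ) (g : ℤ → ℂ) (hg : Spt Y g) : GG Y 1 g ^ 2 ≤ (4 * Y) * GG Y 2 g := by
  have h1 : GG Y 1 g = ∑ a ∈ Ioo (-((2 * Y : ℕ) : ℤ)) ((2 * Y : ℕ) : ℤ), (∑ y ∈ Ico (-(Y : ℤ)) Y, DD a g y).re := by
    unfold GG
    rw [D0_bx, Complex.re_sum]
    refine sum_congr rfl fun a _ => ?_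
    rw [c7_bx0]
    unfold FF
    rw [D0_cons]
    rfl
  have h2 : GG Y 2 g = ∑ a ∈ Ioo (-((2 * Y : ℕ) : ℤ)) ((2 * Y : ℕ) : ℤ), ‖∑ y ∈ Ico (-(Y : ℤ)) Y, DD a g y‖ ^ 2 := by
    unfold GG
    rw [D0_sq (s := 1) hg, Complex.ofReal_re, D0_bx]
    refine sum_congr rfl fun a _ => ?_
    rw [c7_bx0, D0_cons]
    rfl
  rw [h1, h2]
  refine (c7_cs Y _).trans (mul_le_mul_of_nonneg_left (sum_le_sum fun a _ => ?_) (by positivity))
  rw [← sq_abs]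
  exact pow_le_pow_left₀ (abs_nonneg _) (Complex.abs_re_le_norm _) 2

/-- Proof. Let `f = cutJ X (Er Q Q' X)`, `Y = 4X` (window). `GG Y 1 g ^ 2 ≤ 4Y · GG Y 2 g` for `g` supported in `[-Y, Y)`: `GG Y 1 g` is a sum over `|h| < 2Y`
of autocorrelations `A(h)` and `GG Y 2 g = ∑_h ‖A(h)‖²` (`D0_sq` with `s = 1`; Cauchy-Schwarz). With `D0_succ`:
`GG Y 2 f ^ 2 = (∑_a GG Y 1 (DD a f))² ≤ 4Y ∑_a GG Y 1 (DD a f)² ≤ (4Y)² ∑_a GG Y 2 (DD a f) = (4Y)² GG Y 3 f ≤ (16 X)² X^(4-κ)`. So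
`GG Y 2 f ≤ 16 X^(3 - κ/2) ≤ X^(3 - κ/4)` for `X` large. Same `K`. -/
theorem C7_two (h : PK 3) : PK 2 := by
  obtain ⟨K, hK, h⟩ := h
  refine ⟨K, hK, fun Cr θ hCr hθ => ?_⟩
  obtain ⟨κ, h0, h1, X1, hU⟩ := h Cr θ hCr hθ
  refine ⟨κ / 4, by linarith, by linarith, max X1 (⌈(16 : ℝ) ^ (4 / κ)⌉₊ + 1), fun Q Q' X hX hR => ?_⟩
  have hB := hU Q Q' X ((le_max_left _ _).trans hX) hR
  have hX2 : ⌈(16 : ℝ) ^ (4 / κ)⌉₊ + 1 ≤ X := (le_max_right _ _).trans hX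
  have hX1 : 1 ≤ X := by omega
  have hXp : (0 : ℝ) < X := by exact_mod_cast hX1
  have h16 : (16 : ℝ) ≤ (X : ℝ) ^ (κ / 4) := by
    have h2 : (16 : ℝ) ^ (4 / κ) ≤ X :=
      (Nat.le_ceil _).trans (by exact_mod_cast (Nat.le_succ _).trans hX2)
    have h3 := Real.rpow_le_rpow (by positivity) h2 (by positivity : 0 ≤ κ / 4)
    rw [← Real.rpow_mul (by norm_num)] at h3
    have h4 : 4 / κ * (κ / 4) = 1 := by field_simp
    rw [h4, Real.rpow_one] at h3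
    exact h3
  have hf := c7_spt X (Er Q Q' X)
  generalize hff : cutJ X (Er Q Q' X) = f at hB hf
  have hY : (GG (4 * X) 2 f) ^ 2 ≤ (4 * ((4 * X : ℕ) : ℝ)) ^ 2 * GG (4 * X) 3 f := by
    have e2 : GG (4 * X) 2 f = ∑ a ∈ Ioo (-((2 * (4 * X) : ℕ) : ℤ)) ((2 * (4 * X) : ℕ) : ℤ), GG (4 * X) 1 (DD a f) := by
      rw [D0_succ (s := 1)]
      push_cast
      rfl
    have e3 : GG (4 * X) 3 f = ∑ a ∈ Ioo (-((2 * (4 * X) : ℕ) : ℤ)) ((2 * (4 * X) : ℕ) : ℤ), GG (4 * X) 2 (DD a f) := by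
      rw [D0_succ (s := 2)]
      push_cast
      rfl
    rw [e2, e3]
    refine (c7_cs (4 * X) _).trans ?_
    rw [sq (4 * ((4 * X : ℕ) : ℝ)), mul_assoc (4 * ((4 * X : ℕ) : ℝ)) (4 * ((4 * X : ℕ) : ℝ)) _]
    have hp : (0 : ℝ) ≤ 4 * ((4 * X : ℕ) : ℝ) := by positivity
    refine mul_le_mul_of_nonneg_left ?_ hp
    rw [mul_sum]
    exact sum_le_sum fun a _ => c7_one (4 * X) _ (D0_SDD hf a)
  have hY2 : (GG (4 * X) 2 f) ^ 2 ≤ (16 * (X : ℝ) ^ (3 - κ / 2)) ^ 2 := by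
    have e : (4 * ((4 * X : ℕ) : ℝ)) ^ 2 = 16 ^ 2 * (X : ℝ) ^ (2 : ℝ) := by
      push_cast
      rw [Real.rpow_two]
      ring
    have e4 : (16 * (X : ℝ) ^ (3 - κ / 2)) ^ 2 = 16 ^ 2 * ((X : ℝ) ^ (2 : ℝ) * (X : ℝ) ^ (((3 : ℕ) : ℝ) + 1 - κ)) := by
      rw [mul_pow, ← Real.rpow_natCast ((X : ℝ) ^ (3 - κ / 2)) 2, ← Real.rpow_mul hXp.le, ← Real.rpow_add hXp]
      congr 2
      push_cast
      ring
    rw [e4, ← mul_assoc, ← e]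
    exact hY.trans (mul_le_mul_of_nonneg_left hB (sq_nonneg _))
  have hY3 : GG (4 * X) 2 f ≤ 16 * (X : ℝ) ^ (3 - κ / 2) :=
    (le_abs_self _).trans (abs_le_of_sq_le_sq hY2 (by positivity))
  refine hY3.trans ?_
  calc 16 * (X : ℝ) ^ (3 - κ / 2) ≤ (X : ℝ) ^ (κ / 4) * (X : ℝ) ^ (3 - κ / 2) :=
        mul_le_mul_of_nonneg_right h16 (by positivity)
    _ = (X : ℝ) ^ (((2 : ℕ) : ℝ) + 1 - κ / 4) := by
        rw [← Real.rpow_add hXp]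
        congr 1
        push_cast
        ring

end Pool.Agent.HUK
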