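import Pool.Agent.Lib.HUK.MQ1

open Finset

namespace Pool.Agent.HUK

open Pool.Agent.H44W (ee)

/-- Parseval on the grid. -/
theorem A1_pars (N : ℕ) (hN : 0 < N) (I : Finset ℤ) (hI : ∀ m ∈ I, ∀ n ∈ I, (N : ℤ) ∣ m - n → m = n) (c : ℤ → ℂ) :
    ∑ j ∈ range N, ‖∑ n ∈ I, c n * ee (-((j : ℝ) / N * n))‖ ^ 2 = N * ∑ n ∈ I, ‖c n‖ ^ 2 := by
  have h : ∑ j ∈ range N, (((‖∑ n ∈ I, c n * ee (-((j : ℝ) / N * n))‖ ^ 2 : ℝ)) : ℂ) =
      N * ∑ n ∈ I, ((‖c n‖ ^ 2 : ℝ) : ℂ) := by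
    have h1 : ∀ j ∈ range N, (((‖∑ n ∈ I, c n * ee (-((j : ℝ) / N * n))‖ ^ 2 : ℝ)) : ℂ) =
        ∑ n ∈ I, ∑ m ∈ I, c n * (starRingEnd ℂ) (c m) * ee ((j : ℝ) * ((m - n : ℤ) : ℝ) / N) := by
      intro j _
      push_cast
      rw [← Complex.mul_conj', map_sum, Finset.sum_mul_sum]
      refine Finset.sum_congr rfl fun n _ => Finset.sum_congr rfl fun m _ => ?_
      rw [map_mul, ← Pool.Agent.H44W.ee_neg, show (j : ℝ) * ((m : ℝ) - n) / N = -((j : ℝ) / N * n) + - -((j : ℝ) / N * m) by ring,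
        Pool.Agent.H44W.ee_add]
      ring
    rw [Finset.sum_congr rfl h1, Finset.sum_comm]
    rw [Finset.mul_sum]
    refine Finset.sum_congr rfl fun n hn => ?_
    rw [Finset.sum_comm]
    have h2 : ∀ m ∈ I, ∑ j ∈ range N, c n * (starRingEnd ℂ) (c m) * ee ((j : ℝ) * ((m - n : ℤ) : ℝ) / N) =
        if m = n then (N : ℂ) * ((‖c n‖ ^ 2 : ℝ) : ℂ) else 0 := by
      intro m hm
      rw [← Finset.mul_sum, Pool.Agent.H44W.ee_orth N hN (m - n)]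
      by_cases hmn : m = n
      · rw [if_pos hmn, hmn, sub_self, if_pos (dvd_zero _), Complex.mul_conj']
        push_cast
        ring
      · rw [if_neg hmn, if_neg (fun hd => hmn (hI m hm n hn hd)), mul_zero]
    rw [Finset.sum_congr rfl h2, Finset.sum_ite_eq' I n, if_pos hn]
  have h3 : ((∑ j ∈ range N, ‖∑ n ∈ I, c n * ee (-((j : ℝ) / N * n))‖ ^ 2 : ℝ) : ℂ) = ((N * ∑ n ∈ I, ‖c n‖ ^ 2 : ℝ) : ℂ) := by
    push_cast
    push_cast at h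
    exact h
  exact_mod_cast h3

/-- Mean value on the grid. -/
theorem A1_mean (N : ℕ) (hN : 0 < N) (I : Finset ℤ) (hI : ∀ n ∈ I, (N : ℤ) ∣ n → n = 0) (h0 : (0 : ℤ) ∈ I) (c : ℤ → ℂ) :
    ∑ j ∈ range N, ∑ n ∈ I, c n * ee (-((j : ℝ) / N * n)) = N * c 0 := by
  rw [Finset.sum_comm]
  have h2 : ∀ n ∈ I, ∑ j ∈ range N, c n * ee (-((j : ℝ) / N * n)) = if n = 0 then (N : ℂ) * c 0 else 0 := by
    intro n hn
    have h3 : ∀ j ∈ range N, c n * ee (-((j : ℝ) / N * n)) = c n * ee ((j : ℝ) * ((-n : ℤ) : ℝ) / N) := by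
      intro j _
      congr 2
      push_cast
      ring
    rw [Finset.sum_congr rfl h3, ← Finset.mul_sum, Pool.Agent.H44W.ee_orth N hN (-n)]
    by_cases hn0 : n = 0
    · rw [if_pos hn0, hn0, neg_zero, if_pos (dvd_zero _)]
      ring
    · rw [if_neg hn0, if_neg (fun hd => hn0 (hI n hn ((dvd_neg).mp hd))), mul_zero]
  rw [Finset.sum_congr rfl h2, Finset.sum_ite_eq' I 0, if_pos h0]

theorem A1_fw_half (H : ℕ) (hH : 1 ≤ H) (n : ℤ) (hn : n ∈ Ioo (-(H : ℤ)) H) : 1 / 2 ≤ fw (2 * H) n := by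
  rw [mem_Ioo] at hn
  have h1 : |(n : ℝ)| ≤ H := by
    rw [abs_le]
    constructor
    · have := hn.1.le
      exact_mod_cast this
    · have := hn.2.le
      exact_mod_cast this
  have hH' : (0 : ℝ) < H := by exact_mod_cast hH
  unfold fw
  refine le_trans ?_ (le_max_right _ _)
  push_cast
  rw [le_sub_iff_add_le, ← le_sub_iff_add_le', div_le_iff₀ (by positivity)]
  linarith

/-- Proof. `Φ(n) = ∑_{a ∈ 𝒜} ∑_y g a y conj g a (y + a n)`, `S(ψ) = ∑_{|n|<2H} fw (2H) n Φ(n) ee(-ψ n) = 2H ∑_{a ∈ 𝒜} TQ X (2H) a ψ (g a) ≥ 0` (`TQ_eq`).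
Over the grid `ψ = j/(4H)`, `j < 4H` (`ee_orth`): the mean of `S` is `Φ(0) ≤ 2 |𝒜| X`, the mean of `S²` is `∑_{|n|<2H} fw² ‖Φ(n)‖² ≥ (1/4) ∑_{|n|<H} ‖Φ(n)‖²`
(`Φ(-n) = conj Φ(n)` is not needed: use `S = |S|` and Parseval for `‖S‖²`). So for some grid point `S ≥ mean S²/mean S ≥ (δ/8) H |𝒜| X` (if `|𝒜| X = 0` the claim
is clear). -/
theorem A1_freq (X H : ℕ) (hH : 1 ≤ H) (𝒜 : Finset ℕ) (hA : ∀ a ∈ 𝒜, 1 ≤ a ∧ 4 * a * H ≤ X) (g : ℕ → ℤ → ℂ)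
    (hg : ∀ a ∈ 𝒜, Bdd X (g a)) (δ : ℝ) (hδ : 0 ≤ δ)
    (h : δ * H * ((𝒜.card : ℝ) * X) ^ 2 ≤ ∑ n ∈ Ioo (-(H : ℤ)) H,
      ‖∑ a ∈ 𝒜, ∑ y ∈ Ico (-(X : ℤ)) X, g a y * (starRingEnd ℂ) (g a (y + a * n))‖ ^ 2) :
    ∃ ψ : ℝ, δ / 16 * (𝒜.card * X) ≤ ∑ a ∈ 𝒜, TQ X (2 * H) a ψ (g a) := by
  have hH' : (0 : ℝ) < H := by exact_mod_cast hH
  set Φ : ℤ → ℂ := fun n => ∑ a ∈ 𝒜, ∑ y ∈ Ico (-(X : ℤ)) X, g a y * (starRingEnd ℂ) (g a (y + a * n)) with hΦ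
  set S : ℕ → ℝ := fun j => ∑ a ∈ 𝒜, TQ X (2 * H) a ((j : ℝ) / (4 * H : ℕ)) (g a) with hS
  have hS0 : ∀ j, 0 ≤ S j := fun j => Finset.sum_nonneg fun a _ => Finset.sum_nonneg fun z _ => by positivity
  set c : ℤ → ℂ := fun n => ((fw (2 * H) n : ℝ) : ℂ) * Φ n with hc
  have hSe : ∀ j : ℕ, (((2 * H : ℕ) * S j : ℝ) : ℂ) = ∑ n ∈ Ioo (-((2 * H : ℕ) : ℤ)) (2 * H : ℕ), c n * ee (-((j : ℝ) / (4 * H : ℕ) * n)) := by
    intro j
    have h1 : (((2 * H : ℕ) * S j : ℝ) : ℂ) = ∑ a ∈ 𝒜, (((2 * H : ℕ) * TQ X (2 * H) a ((j : ℝ) / (4 * H : ℕ)) (g a) : ℝ) : ℂ) := by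
      rw [hS]
      simp only
      rw [Finset.mul_sum, Complex.ofReal_sum]
    rw [h1]
    have h2 : ∀ a ∈ 𝒜, (((2 * H : ℕ) * TQ X (2 * H) a ((j : ℝ) / (4 * H : ℕ)) (g a) : ℝ) : ℂ) =
        ∑ n ∈ Ioo (-((2 * H : ℕ) : ℤ)) (2 * H : ℕ), ((fw (2 * H) n : ℝ) : ℂ) * ee (-((j : ℝ) / (4 * H : ℕ) * n)) *
          ∑ y ∈ Ico (-(X : ℤ)) X, g a y * (starRingEnd ℂ) (g a (y + a * n)) := by
      intro a ha
      refine TQ_eq X (2 * H) (by omega) a (by positivity) ?_ _ (g a) (hg a ha).sup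
      have := (hA a ha).2
      have h3 : a * (2 * H) ≤ X := by nlinarith
      exact_mod_cast h3
    rw [Finset.sum_congr rfl h2, Finset.sum_comm]
    refine Finset.sum_congr rfl fun n _ => ?_
    rw [hc, hΦ]
    simp only
    rw [← Finset.mul_sum]
    ring
  have hI : ∀ m ∈ Ioo (-((2 * H : ℕ) : ℤ)) (2 * H : ℕ), ∀ n ∈ Ioo (-((2 * H : ℕ) : ℤ)) (2 * H : ℕ), ((4 * H : ℕ) : ℤ) ∣ m - n → m = n := by
    intro m hm n hn hd
    rw [mem_Ioo] at hm hn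
    push_cast at hm hn hd
    have := Int.eq_zero_of_abs_lt_dvd hd (by rw [abs_lt]; constructor <;> omega)
    omega
  have h0I : (0 : ℤ) ∈ Ioo (-((2 * H : ℕ) : ℤ)) (2 * H : ℕ) := by
    rw [mem_Ioo]; push_cast; constructor <;> omega
  have hI0 : ∀ n ∈ Ioo (-((2 * H : ℕ) : ℤ)) (2 * H : ℕ), ((4 * H : ℕ) : ℤ) ∣ n → n = 0 := by
    intro n hn hd
    exact hI n hn 0 h0I (by rw [sub_zero]; exact hd)
  have hmean : ∑ j ∈ range (4 * H), S j ≤ 2 * (2 * (𝒜.card * X)) := by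
    have h1 := A1_mean (4 * H) (by omega) _ hI0 h0I c
    have h2 : ((∑ j ∈ range (4 * H), (2 * H : ℕ) * S j : ℝ) : ℂ) = (4 * H : ℕ) * c 0 := by
      rw [Complex.ofReal_sum, ← h1]
      exact Finset.sum_congr rfl fun j _ => hSe j
    have h3 : ‖c 0‖ ≤ 2 * (𝒜.card * X) := by
      have hf : fw (2 * H) 0 = 1 := by simp [fw]
      rw [hc]
      simp only
      rw [hf, Complex.ofReal_one, one_mul]
      rw [hΦ]
      simp only
      have h4 : ∀ a ∈ 𝒜, ‖∑ y ∈ Ico (-(X : ℤ)) X, g a y * (starRingEnd ℂ) (g a (y + a * 0))‖ ≤ 2 * X := by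
        intro a ha
        refine (norm_sum_le _ _).trans ?_
        have h5 : ∀ y ∈ Ico (-(X : ℤ)) X, ‖g a y * (starRingEnd ℂ) (g a (y + a * 0))‖ ≤ 1 := by
          intro y _
          rw [norm_mul, RCLike.norm_conj]
          exact mul_le_one₀ ((hg a ha).le _) (norm_nonneg _) ((hg a ha).le _)
        refine (Finset.sum_le_sum h5).trans ?_
        rw [Finset.sum_const, Int.card_Ico, nsmul_eq_mul, mul_one]
        have : ((X : ℤ) - -(X : ℤ)).toNat = 2 * X := by omega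
        rw [this]
        push_cast
        exact le_refl _
      refine (norm_sum_le _ _).trans ((Finset.sum_le_sum h4).trans ?_)
      rw [Finset.sum_const, nsmul_eq_mul]
      apply le_of_eq
      ring
    have h4 : (2 * H : ℕ) * ∑ j ∈ range (4 * H), S j = ‖((4 * H : ℕ) : ℂ) * c 0‖ := by
      rw [← h2, ← Finset.mul_sum, Complex.norm_real, Real.norm_of_nonneg]
      exact mul_nonneg (by positivity) (Finset.sum_nonneg fun j _ => hS0 j)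
    rw [norm_mul, Complex.norm_natCast] at h4
    push_cast at h4
    have h5 : 4 * (H : ℝ) * ‖c 0‖ ≤ 4 * H * (2 * (𝒜.card * X)) := mul_le_mul_of_nonneg_left h3 (by positivity)
    have h6 : (2 * (H : ℝ)) * ∑ j ∈ range (4 * H), S j ≤ (2 * H) * (2 * (2 * (𝒜.card * X))) := by linarith
    exact le_of_mul_le_mul_left h6 (by positivity)
  have hsq : δ / 4 * (𝒜.card * X) ^ 2 ≤ ∑ j ∈ range (4 * H), S j ^ 2 := by
    have h1 := A1_pars (4 * H) (by omega) _ hI c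
    have h2 : ∑ j ∈ range (4 * H), ((2 * H : ℕ) * S j) ^ 2 = (4 * H : ℕ) * ∑ n ∈ Ioo (-((2 * H : ℕ) : ℤ)) (2 * H : ℕ), ‖c n‖ ^ 2 := by
      rw [← h1]
      refine Finset.sum_congr rfl fun j _ => ?_
      rw [← hSe j, Complex.norm_real, Real.norm_eq_abs, sq_abs]
    have h3 : 1 / 4 * ∑ n ∈ Ioo (-(H : ℤ)) H, ‖Φ n‖ ^ 2 ≤ ∑ n ∈ Ioo (-((2 * H : ℕ) : ℤ)) (2 * H : ℕ), ‖c n‖ ^ 2 := by
      rw [Finset.mul_sum]
      refine (Finset.sum_le_sum (g := fun n => ‖c n‖ ^ 2) ?_).trans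
        (Finset.sum_le_sum_of_subset_of_nonneg ?_ fun n _ _ => by positivity)
      · intro n hn
        have h4 := A1_fw_half H hH n hn
        rw [hc]
        simp only
        rw [norm_mul, Complex.norm_real, mul_pow]
        refine mul_le_mul_of_nonneg_right ?_ (by positivity)
        rw [Real.norm_eq_abs, sq_abs]
        nlinarith
      · intro n hn
        rw [mem_Ioo] at hn ⊢
        push_cast
        constructor <;> omega
    have h4 : ∑ j ∈ range (4 * H), ((2 * H : ℕ) * S j) ^ 2 = (2 * (H : ℝ)) ^ 2 * ∑ j ∈ range (4 * H), S j ^ 2 := by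
      rw [Finset.mul_sum]
      refine Finset.sum_congr rfl fun j _ => ?_
      push_cast
      ring
    rw [h4] at h2
    have h5 : (4 * (H : ℝ)) * (1 / 4 * (δ * H * ((𝒜.card : ℝ) * X) ^ 2)) ≤ (2 * (H : ℝ)) ^ 2 * ∑ j ∈ range (4 * H), S j ^ 2 := by
      rw [h2]
      push_cast
      refine mul_le_mul_of_nonneg_left ?_ (by positivity)
      refine le_trans ?_ h3
      linarith
    have h6 : (4 * (H : ℝ)^2) * (δ / 4 * (𝒜.card * X) ^ 2) ≤ (4 * (H : ℝ)^2) * ∑ j ∈ range (4 * H), S j ^ 2 := by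
      nlinarith
    exact le_of_mul_le_mul_left h6 (by positivity)
  obtain ⟨j0, hj0, hmax⟩ := Finset.exists_max_image (range (4 * H)) S ⟨0, by rw [mem_range]; omega⟩
  refine ⟨(j0 : ℝ) / (4 * H : ℕ), ?_⟩
  change _ ≤ S j0
  have h7 : ∑ j ∈ range (4 * H), S j ^ 2 ≤ S j0 * ∑ j ∈ range (4 * H), S j := by
    rw [Finset.mul_sum]
    refine Finset.sum_le_sum fun j hj => ?_
    rw [pow_two]
    exact mul_le_mul_of_nonneg_right (hmax j hj) (hS0 j)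
  have h8 : δ / 4 * (𝒜.card * X) ^ 2 ≤ S j0 * (2 * (2 * (𝒜.card * X))) :=
    hsq.trans (h7.trans (mul_le_mul_of_nonneg_left hmean (hS0 j0)))
  have hcX : (0 : ℝ) ≤ 𝒜.card * X := by positivity
  rcases hcX.eq_or_lt with h9 | h9
  · rw [← h9, mul_zero]
    exact hS0 j0
  · have h10 : (4 * (𝒜.card * X : ℝ)) * (δ / 16 * (𝒜.card * X)) ≤ (4 * (𝒜.card * X)) * S j0 := by nlinarith
    exact le_of_mul_le_mul_left h10 (by positivity)

end Pool.Agent.HUK
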