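import Pool.Agent.Lib.HUK.P0
import Pool.Agent.Lib.HUK.V1

/-!
# Project HUK, chunk A14a: rules for the type II theorem (PROOF.md, section 3)
-/

open Finset

namespace Pool.Agent.HUK

/-- Differences along an additive homomorphism. -/
theorem DL_comp {G G' : Type*} [AddCommMonoid G] [AddCommMonoid G'] (φ : G →+ G') (l : List G) (F : G' → ℂ) (z : G) :
    DL l (fun z => F (φ z)) z = DL (l.map φ) F (φ z) := by
  induction l generalizing F with
  | nil => rfl
  | cons h l ih =>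
    have h1 : DD h (fun z => F (φ z)) = fun z => (DD (φ h) F) (φ z) := by
      funext y
      simp only [DD, map_add]
    rw [DL, h1, ih]
    rfl

theorem DL_norm_le {G : Type*} [AddCommMonoid G] (l : List G) (f : G → ℂ) (R : ℝ) (hR : 0 ≤ R) (hf : ∀ z, ‖f z‖ ≤ R)
    (z : G) : ‖DL l f z‖ ≤ R ^ (2 ^ l.length) := by
  induction l generalizing f R with
  | nil => simpa [DL] using hf z
  | cons h l ih =>
    have h1 : ∀ y, ‖DD h f y‖ ≤ R ^ 2 := by
      intro y
      rw [DD, norm_mul, RCLike.norm_conj, pow_two]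
      exact mul_le_mul (hf _) (hf _) (norm_nonneg _) hR
    have h2 := ih (DD h f) (R ^ 2) (by positivity) h1
    rw [DL, List.length_cons, pow_succ' 2, pow_mul]
    exact h2

/-- The sum over `h` in `Psi`, with the factor `f 0` split off. -/
theorem A14_psi (X k : ℕ) (hk : 3 ≤ k) (f : ℕ → ℤ → ℂ) (hf : ∀ j, j < k → Bdd X (f j)) (n : ℤ) :
    Psi X k f n = ∑ h ∈ Ioo (-(6 * X : ℤ)) (6 * X),
      (∏ i : Fin (k - 1), f ((i : ℕ) + 1) (n - ((k : ℤ) - ((i : ℕ) + 1 : ℕ)) * h)) * f 0 (n - k * h) := by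
  obtain ⟨r, rfl⟩ : ∃ r, k = r + 1 := ⟨k - 1, by omega⟩
  have h1 : ∀ h : ℤ, ∏ j ∈ range (r + 1), f j (n - (((r + 1 : ℕ) : ℤ) - j) * h) =
      (∏ i : Fin (r + 1 - 1), f ((i : ℕ) + 1) (n - (((r + 1 : ℕ) : ℤ) - ((i : ℕ) + 1 : ℕ)) * h)) *
        f 0 (n - ((r + 1 : ℕ) : ℤ) * h) := by
    intro h
    rw [Finset.prod_range_succ', Nat.add_sub_cancel, Finset.prod_range]
    simp
  unfold Psi
  simp only [h1]
  refine Finset.sum_subset ?_ ?_
  · intro h hh
    rw [mem_Ioo] at hh ⊢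
    omega
  · intro h _ hh2
    by_contra hne
    have hne0 : f 0 (n - ((r + 1 : ℕ) : ℤ) * h) ≠ 0 := fun h0 => hne (by rw [h0, mul_zero])
    have hne1 : ∀ i : Fin (r + 1 - 1), f ((i : ℕ) + 1) (n - (((r + 1 : ℕ) : ℤ) - ((i : ℕ) + 1 : ℕ)) * h) ≠ 0 := by
      intro i h0
      apply hne
      rw [Finset.prod_eq_zero (mem_univ i) h0, zero_mul]
    have h3 := hne1 ⟨r - 1, by omega⟩
    have hr : 2 ≤ r := by omega
    have hb0 : n - ((r + 1 : ℕ) : ℤ) * h ∈ Ico (-(X : ℤ)) X := by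
      by_contra hc
      exact hne0 ((hf 0 (by omega)).sup _ hc)
    have hb1 : n - (((r + 1 : ℕ) : ℤ) - ((r - 1 : ℕ) + 1 : ℕ)) * h ∈ Ico (-(X : ℤ)) X := by
      by_contra hc
      exact h3 ((hf (r - 1 + 1) (by omega)).sup _ hc)
    rw [mem_Ico] at hb0 hb1
    apply hh2
    rw [mem_Ioo]
    have e1 : (((r - 1 : ℕ) + 1 : ℕ) : ℤ) = r := by
      have : r - 1 + 1 = r := by omega
      rw [this]
    rw [e1] at hb1
    push_cast at hb0 hb1
    have hr' : (2 : ℤ) ≤ r := by exact_mod_cast hr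
    have e2 : n - ((r : ℤ) + 1 - r) * h - (n - ((r : ℤ) + 1) * h) = r * h := by ring
    have hh3 : -(2 * X : ℤ) < r * h ∧ (r : ℤ) * h < 2 * X := by
      constructor <;> linarith [hb0.1, hb0.2, hb1.1, hb1.2]
    constructor
    · by_contra hcon
      push Not at hcon
      nlinarith [hh3.1, hh3.2]
    · by_contra hcon
      push Not at hcon
      nlinarith [hh3.1, hh3.2]

/-- `Psi` vanishes beyond `2 X`. -/
theorem A14_zero (X k : ℕ) (hk : 3 ≤ k) (f : ℕ → ℤ → ℂ) (hf : ∀ j, j < k → Bdd X (f j)) (n : ℤ) (hn : 2 * (X : ℤ) < n) :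
    Psi X k f n = 0 := by
  unfold Psi
  refine Finset.sum_eq_zero fun h _ => ?_
  by_contra hne
  replace hne := Finset.prod_ne_zero_iff.1 hne
  have h0 := hne 0 (by rw [mem_range]; omega)
  have h1 := hne (k - 1) (by rw [mem_range]; omega)
  have hb0 : n - ((k : ℤ) - (0 : ℕ)) * h ∈ Ico (-(X : ℤ)) X := by
    by_contra hc
    exact h0 ((hf 0 (by omega)).sup _ hc)
  have hb1 : n - ((k : ℤ) - (k - 1 : ℕ)) * h ∈ Ico (-(X : ℤ)) X := by
    by_contra hc
    exact h1 ((hf (k - 1) (by omega)).sup _ hc)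
  rw [mem_Ico] at hb0 hb1
  have e1 : ((k - 1 : ℕ) : ℤ) = (k : ℤ) - 1 := by
    have : 1 ≤ k := by omega
    push_cast [Nat.cast_sub this]
    ring
  rw [e1] at hb1
  push_cast at hb0
  have hk' : (3 : ℤ) ≤ k := by exact_mod_cast hk
  have e2 : (k : ℤ) * (n - (k - (k - 1)) * h) - (n - ((k : ℤ) - 0) * h) = (k - 1) * n := by ring
  have h3 : ((k : ℤ) - 1) * n < (k + 1) * X := by
    rw [← e2]
    have : (k : ℤ) * (n - (k - (k - 1)) * h) ≤ k * X := mul_le_mul_of_nonneg_left hb1.2.le (by omega)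
    nlinarith [hb0.1, hb0.2]
  nlinarith [h3, hn]

/-- The sum over `h` as a sum over the classes modulo `Λ`. -/
theorem A14_hsum (X k Λ : ℕ) (hk : 1 ≤ k) (hΛ : 1 ≤ Λ) (hkΛ : k ∣ Λ) (n : ℤ) (hn : 0 ≤ n) (hn' : n ≤ 4 * X) (G : ℤ → ℂ)
    (hG : ∀ y, y ∉ Ico (-(X : ℤ)) X → G y = 0) :
    ∑ h ∈ Ioo (-(6 * X : ℤ)) (6 * X), G (n - k * h) =
      ∑ ρ ∈ (range Λ).filter (fun ρ : ℕ => (k : ℤ) ∣ (ρ : ℤ) - n), ∑ x ∈ Ico (-(X : ℤ)) X, G (ρ + Λ * x) := by
  have hk0 : (0 : ℤ) < k := by exact_mod_cast hk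
  have hΛ0 : (0 : ℤ) < Λ := by exact_mod_cast hΛ
  have hL : ∑ h ∈ Ioo (-(6 * X : ℤ)) (6 * X), G (n - k * h) =
      ∑ y ∈ (Ico (-(X : ℤ)) X).filter (fun y => (k : ℤ) ∣ y - n), G y := by
    refine Finset.sum_bij_ne_zero (fun h _ _ => n - k * h) ?_ ?_ ?_ ?_
    · intro h _ hne
      rw [mem_filter]
      refine ⟨?_, ⟨-h, by ring⟩⟩
      by_contra hc
      exact hne (hG _ hc)
    · intro h1 _ _ h2 _ _ he
      have : (k : ℤ) * h1 = k * h2 := by linarith
      exact mul_left_cancel₀ hk0.ne' this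
    · intro y hy hne
      rw [mem_filter, mem_Ico] at hy
      obtain ⟨⟨hy1, hy2⟩, m, hm⟩ := hy
      have hX : (0 : ℤ) < X := by omega
      refine ⟨-m, ?_, ?_, by linarith⟩
      · rw [mem_Ioo]
        have hm1 : -(5 * X : ℤ) ≤ k * m := by rw [← hm]; linarith
        have hm2 : (k : ℤ) * m < X := by rw [← hm]; linarith
        have hk1 : (1 : ℤ) ≤ k := hk0
        constructor
        · by_contra hcon
          push Not at hcon
          nlinarith
        · by_contra hcon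
          push Not at hcon
          nlinarith
      · have e : n - k * -m = y := by linarith
        rw [e]
        exact hne
    · intro h _ _
      rfl
  rw [hL, ← Finset.sum_product']
  symm
  refine Finset.sum_bij_ne_zero (fun p _ _ => (p.1 : ℤ) + Λ * p.2) ?_ ?_ ?_ ?_
  · intro p hp hne
    rw [mem_product, mem_filter] at hp
    rw [mem_filter]
    refine ⟨?_, ?_⟩
    · by_contra hc
      exact hne (hG _ hc)
    · obtain ⟨c, hc⟩ := hkΛ
      obtain ⟨d, hd⟩ := hp.1.2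
      refine ⟨d + c * p.2, ?_⟩
      have : (p.1 : ℤ) + Λ * p.2 - n = (p.1 - n) + Λ * p.2 := by ring
      rw [this, hd, hc]
      push_cast
      ring
  · intro p hp _ q hq _ he
    rw [mem_product, mem_filter, mem_range] at hp hq
    have hp1 : (p.1 : ℤ) < Λ := by exact_mod_cast hp.1.1
    have hq1 : (q.1 : ℤ) < Λ := by exact_mod_cast hq.1.1
    have e1 : ((p.1 : ℤ) + Λ * p.2) % Λ = p.1 := by
      rw [Int.add_mul_emod_self_left]
      exact Int.emod_eq_of_lt (by positivity) hp1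
    have e2 : ((q.1 : ℤ) + Λ * q.2) % Λ = q.1 := by
      rw [Int.add_mul_emod_self_left]
      exact Int.emod_eq_of_lt (by positivity) hq1
    have h1 : (p.1 : ℤ) = q.1 := by
      rw [← e1, ← e2, he]
    have h2 : p.2 = q.2 := by
      have : (Λ : ℤ) * p.2 = Λ * q.2 := by linarith
      exact mul_left_cancel₀ hΛ0.ne' this
    exact Prod.ext (by exact_mod_cast h1) h2
  · intro y hy hne
    rw [mem_filter, mem_Ico] at hy
    obtain ⟨⟨hy1, hy2⟩, hd⟩ := hy
    have hX : (1 : ℤ) ≤ X := by omega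
    have hm0 := Int.emod_nonneg y hΛ0.ne'
    have hm1 := Int.emod_lt_of_pos y hΛ0
    have hdiv := Int.emod_add_mul_ediv y Λ
    have e0 : ((y % Λ).toNat : ℤ) = y % Λ := Int.toNat_of_nonneg hm0
    refine ⟨((y % Λ).toNat, y / Λ), ?_, ?_, ?_⟩
    · rw [mem_product, mem_filter, mem_range, mem_Ico]
      refine ⟨⟨?_, ?_⟩, ?_, ?_⟩
      · zify
        rw [e0]
        exact hm1
      · simp only
        rw [e0]
        obtain ⟨c, hc⟩ := hkΛ
        obtain ⟨d, hd⟩ := hd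
        refine ⟨d - c * (y / Λ), ?_⟩
        have h5 : y % (Λ : ℤ) = y - Λ * (y / Λ) := by linarith
        have h6 : y % (Λ : ℤ) - n = (y - n) - Λ * (y / Λ) := by linarith
        rw [h6, hd, hc]
        push_cast
        ring
      · simp only
        rw [Int.le_ediv_iff_mul_le hΛ0]
        nlinarith
      · simp only
        rw [Int.ediv_lt_iff_lt_mul hΛ0]
        nlinarith
    · simp only
      rw [e0, hdiv]
      exact hne
    · simp only
      rw [e0, hdiv]
  · intro p _ _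
    rfl

end Pool.Agent.HUK
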