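import Pool.Agent.Lib.HUK.E1
import Pool.Agent.Lib.HUK.P0

/-!
# Project HUK, chunk E2 (M): the elimination lemma without absolute values
-/

open Finset

namespace Pool.Agent.HUK

theorem e2_WT_cons (H r : ℕ) (j : ℤ) (j' : Fin r → ℤ) :
    WT H (Fin.cons j j' : Fin (r + 1) → ℤ) = fw H j ^ (2 ^ r) * WT H j' := by
  unfold WT
  rw [Fin.prod_univ_succ]
  simp only [Fin.cons_zero, Fin.cons_succ, Fin.val_zero, Fin.val_succ, Nat.add_sub_cancel, Nat.sub_zero]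
  congr 1
  refine Finset.prod_congr rfl fun i _ => ?_
  congr 2
  omega

/-- One step for a family. -/
theorem e2_step {G ι : Type*} [AddCommGroup G] [DecidableEq G] (B B' : Finset G) (N : ℝ)
    (hN : (B'.card : ℝ) ≤ N) (hN0 : 0 < N) (H : ℕ) (hH : 0 < H) (r : ℕ) (J : Finset ι) (hJ : 0 < J.card)
    (v : ι → Fin (r + 1) → G) (g : ι → Fin (r + 1) → G → ℂ) (c : ι → G → ℂ)
    (hg : ∀ x i z, ‖g x i z‖ ≤ 1) (hinv : ∀ x i z, g x i (z + v x i) = g x i z) (hc : ∀ x z, z ∉ B → c x z = 0)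
    (hB : ∀ x i z, ∀ h : ℕ, h < H → z + h • v x i ∈ B → z ∈ B') :
    (‖∑ x ∈ J, ∑ z ∈ B, (∏ i, g x i z) * c x z‖ / (N * J.card)) ^ 2 ≤
      (∑ p ∈ J ×ˢ Ioo (-(H : ℤ)) H, ∑ z ∈ B, (∏ i : Fin r, DD (p.2 • v p.1 0) (g p.1 i.succ) z) *
        (((fw H p.2 : ℝ) : ℂ) * DD (p.2 • v p.1 0) (c p.1) z)).re / (H * (N * J.card)) := by
  have hHr : (0 : ℝ) < H := by exact_mod_cast hH
  have hJr : (0 : ℝ) < J.card := by exact_mod_cast hJ
  have h1 : ∀ x ∈ J, ‖∑ z ∈ B, (∏ i, g x i z) * c x z‖ ^ 2 ≤ N / H * (∑ j ∈ Ioo (-(H : ℤ)) H,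
      ∑ z ∈ B, (∏ i : Fin r, DD (j • v x 0) (g x i.succ) z) *
        (((fw H j : ℝ) : ℂ) * DD (j • v x 0) (c x) z)).re := by
    intro x _
    have h2 := E0_real B B' N hN H hH (v x 0) (g x 0) (fun z => (∏ i : Fin r, g x i.succ z) * c x z) (hg x 0) (hinv x 0)
      (fun z hz => by simp only [hc x z hz, mul_zero]) (hB x 0)
    have h3 : ∑ z ∈ B, (∏ i, g x i z) * c x z = ∑ z ∈ B, g x 0 z * ((∏ i : Fin r, g x i.succ z) * c x z) := by
      refine Finset.sum_congr rfl fun z _ => ?_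
      rw [Fin.prod_univ_succ, mul_assoc]
    rw [h3]
    refine h2.trans (le_of_eq ?_)
    congr 2
    refine Finset.sum_congr rfl fun j _ => ?_
    rw [Finset.mul_sum]
    refine Finset.sum_congr rfl fun z _ => ?_
    rw [e1_DD_prod]
    ring
  have h4 : ‖∑ x ∈ J, ∑ z ∈ B, (∏ i, g x i z) * c x z‖ ^ 2 ≤
      J.card * ∑ x ∈ J, ‖∑ z ∈ B, (∏ i, g x i z) * c x z‖ ^ 2 := by
    refine (pow_le_pow_left₀ (norm_nonneg _) (norm_sum_le _ _) 2).trans ?_
    exact sq_sum_le_card_mul_sum_sq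
  have h5 := h4.trans (mul_le_mul_of_nonneg_left (Finset.sum_le_sum h1) hJr.le)
  have h6 : ∑ x ∈ J, N / H * (∑ j ∈ Ioo (-(H : ℤ)) H,
      ∑ z ∈ B, (∏ i : Fin r, DD (j • v x 0) (g x i.succ) z) *
        (((fw H j : ℝ) : ℂ) * DD (j • v x 0) (c x) z)).re = N / H *
      (∑ p ∈ J ×ˢ Ioo (-(H : ℤ)) H, ∑ z ∈ B, (∏ i : Fin r, DD (p.2 • v p.1 0) (g p.1 i.succ) z) *
        (((fw H p.2 : ℝ) : ℂ) * DD (p.2 • v p.1 0) (c p.1) z)).re := by
    rw [← Finset.mul_sum, ← Complex.re_sum, ← Finset.sum_product' J (Ioo (-(H : ℤ)) H) (fun x j =>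
      ∑ z ∈ B, (∏ i : Fin r, DD (j • v x 0) (g x i.succ) z) * (((fw H j : ℝ) : ℂ) * DD (j • v x 0) (c x) z))]
  rw [h6] at h5
  rw [div_pow, div_le_div_iff₀ (by positivity) (by positivity)]
  calc ‖∑ x ∈ J, ∑ z ∈ B, (∏ i, g x i z) * c x z‖ ^ 2 * (H * (N * J.card))
      ≤ (J.card * (N / H * (∑ p ∈ J ×ˢ Ioo (-(H : ℤ)) H, ∑ z ∈ B,
        (∏ i : Fin r, DD (p.2 • v p.1 0) (g p.1 i.succ) z) *
        (((fw H p.2 : ℝ) : ℂ) * DD (p.2 • v p.1 0) (c p.1) z)).re)) * (H * (N * J.card)) :=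
        mul_le_mul_of_nonneg_right h5 (by positivity)
    _ = _ := by
        field_simp

/-- The sum on the right after one step and the induction hypothesis. -/
theorem e2_sum {G ι : Type*} [AddCommGroup G] (B : Finset G) (H : ℕ) (r : ℕ) (J : Finset ι)
    (v : ι → Fin (r + 1) → G) (c : ι → G → ℂ) :
    ∑ j' ∈ bxS r H, ((WT H j' : ℝ) : ℂ) * ∑ p ∈ J ×ˢ Ioo (-(H : ℤ)) H, ∑ z ∈ B,
      DL (List.ofFn fun i => j' i • v p.1 i.succ) (fun z => ((fw H p.2 : ℝ) : ℂ) * DD (p.2 • v p.1 0) (c p.1) z) z =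
    ∑ j ∈ bxS (r + 1) H, ((WT H j : ℝ) : ℂ) * ∑ x ∈ J, ∑ z ∈ B, DL (List.ofFn fun i => j i • v x i) (c x) z := by
  rw [e1_box_succ, Finset.sum_comm]
  refine Finset.sum_congr rfl fun j' _ => ?_
  rw [Finset.sum_product, Finset.sum_comm, Finset.mul_sum]
  refine Finset.sum_congr rfl fun j _ => ?_
  rw [Finset.mul_sum, Finset.mul_sum]
  refine Finset.sum_congr rfl fun x _ => ?_
  rw [Finset.mul_sum, Finset.mul_sum]
  refine Finset.sum_congr rfl fun z _ => ?_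
  rw [e2_WT_cons, DL_smul, List.length_ofFn, List.ofFn_succ]
  simp only [Fin.cons_zero, Fin.cons_succ, DL]
  push_cast
  ring

/-- The constants. -/
theorem e2_const (H r : ℕ) (hH : 0 < H) (N J m : ℝ) (hN : 0 < N) (hJ : 0 < J) (hm : 0 < m) (hm2 : m ≤ 2 * H)
    (x S T : ℝ) (hx : 0 ≤ x) (hT : 0 ≤ T)
    (h1 : x ^ 2 ≤ S / (H * (N * J)))
    (h2 : (S / (N * (J * m))) ^ (2 ^ r) ≤ 2 ^ (2 ^ r) / (H : ℝ) ^ r * (T / (N * (J * m)))) :
    x ^ (2 ^ (r + 1)) ≤ 2 ^ (2 ^ (r + 1)) / (H : ℝ) ^ (r + 1) * (T / (N * J)) := by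
  have hH0 : (0 : ℝ) < H := by exact_mod_cast hH
  obtain ⟨n, hn⟩ : ∃ n : ℕ, 2 ^ r = n + 1 := ⟨2 ^ r - 1, by
    have := Nat.one_le_two_pow (n := r)
    omega⟩
  have h3 : S / (H * (N * J)) = m / H * (S / (N * (J * m))) := by
    field_simp
  have h4 : x ^ (2 ^ (r + 1)) ≤ (m / H) ^ (2 ^ r) * (2 ^ (2 ^ r) / (H : ℝ) ^ r * (T / (N * (J * m)))) := by
    calc x ^ (2 ^ (r + 1)) = (x ^ 2) ^ (2 ^ r) := by rw [← pow_mul, pow_succ, mul_comm]
      _ ≤ (S / (H * (N * J))) ^ (2 ^ r) := pow_le_pow_left₀ (by positivity) h1 _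
      _ = (m / H) ^ (2 ^ r) * (S / (N * (J * m))) ^ (2 ^ r) := by rw [h3, mul_pow]
      _ ≤ _ := mul_le_mul_of_nonneg_left h2 (by positivity)
  refine h4.trans ?_
  have h5 : (m / H) ^ (2 ^ r) * (2 ^ (2 ^ r) / (H : ℝ) ^ r * (T / (N * (J * m)))) =
      m ^ n * (2 ^ (2 ^ r) / ((H : ℝ) ^ (2 ^ r) * (H : ℝ) ^ r) * (T / (N * J))) := by
    rw [div_pow, hn, pow_succ m]
    field_simp
  rw [h5]
  have h6 : m ^ n ≤ (2 * H) ^ n := pow_le_pow_left₀ hm.le hm2 n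
  refine (mul_le_mul_of_nonneg_right h6 (by positivity)).trans ?_
  have h7 : (2 * (H : ℝ)) ^ n * (2 ^ (2 ^ r) / ((H : ℝ) ^ (2 ^ r) * (H : ℝ) ^ r) * (T / (N * J))) =
      2 ^ (n + 2 ^ r) / (H : ℝ) ^ (r + 1) * (T / (N * J)) := by
    rw [mul_pow, pow_add, hn, pow_succ (H : ℝ) n, pow_succ (H : ℝ) r]
    field_simp
  rw [h7]
  refine mul_le_mul_of_nonneg_right ?_ (by positivity)
  refine div_le_div_of_nonneg_right ?_ (by positivity)
  refine pow_le_pow_right₀ one_le_two ?_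
  rw [pow_succ]
  omega

theorem e2_card (J H : ℕ) (hH : 0 < H) : ((J * (Ioo (-(H : ℤ)) H).card : ℕ) : ℝ) = J * (2 * H - 1) := by
  have h1 : (Ioo (-(H : ℤ)) H).card = 2 * H - 1 := by
    rw [Int.card_Ioo]
    omega
  rw [h1, Nat.cast_mul, Nat.cast_sub (by omega)]
  push_cast
  rfl

/-- The version with the real part, at least one function. -/
theorem e2_re {G : Type*} [AddCommGroup G] [DecidableEq G] (B B' : Finset G) (N : ℝ)
    (hN : (B'.card : ℝ) ≤ N) (hN0 : 0 < N) (H : ℕ) (hH : 0 < H) (r : ℕ) : ∀ (ι : Type*) (J : Finset ι), 0 < J.card →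
    ∀ (v : ι → Fin (r + 1) → G) (g : ι → Fin (r + 1) → G → ℂ) (c : ι → G → ℂ),
    (∀ x i z, ‖g x i z‖ ≤ 1) → (∀ x i z, g x i (z + v x i) = g x i z) → (∀ x z, z ∉ B → c x z = 0) →
    (∀ x i z, ∀ h : ℕ, h < H → z + h • v x i ∈ B → z ∈ B') →
    0 ≤ (∑ j ∈ bxS (r + 1) H, ((WT H j : ℝ) : ℂ) *
        ∑ x ∈ J, ∑ z ∈ B, DL (List.ofFn fun i => j i • v x i) (c x) z).re ∧
    (‖∑ x ∈ J, ∑ z ∈ B, (∏ i, g x i z) * c x z‖ / (N * J.card)) ^ (2 ^ (r + 1)) ≤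
      2 ^ (2 ^ (r + 1)) / (H : ℝ) ^ (r + 1) * ((∑ j ∈ bxS (r + 1) H, ((WT H j : ℝ) : ℂ) *
        ∑ x ∈ J, ∑ z ∈ B, DL (List.ofFn fun i => j i • v x i) (c x) z).re / (N * J.card)) := by
  have hHr : (0 : ℝ) < H := by exact_mod_cast hH
  induction r with
  | zero =>
    intro ι J hJ v g c hg hinv hc hB
    have hJr : (0 : ℝ) < J.card := by exact_mod_cast hJ
    have h1 := e2_step B B' N hN hN0 H hH 0 J hJ v g c hg hinv hc hB
    have h2 : ∑ p ∈ J ×ˢ Ioo (-(H : ℤ)) H, ∑ z ∈ B, (∏ i : Fin 0, DD (p.2 • v p.1 0) (g p.1 i.succ) z) *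
        (((fw H p.2 : ℝ) : ℂ) * DD (p.2 • v p.1 0) (c p.1) z) =
        ∑ j ∈ bxS (0 + 1) H, ((WT H j : ℝ) : ℂ) * ∑ x ∈ J, ∑ z ∈ B, DL (List.ofFn fun i => j i • v x i) (c x) z := by
      rw [← e2_sum B H 0 J v c]
      have h3 : bxS 0 H = {fun i => i.elim0} := by
        unfold bxS
        rw [Fintype.piFinset_of_isEmpty]
        ext j
        simp only [mem_univ, mem_singleton, true_iff]
        exact Subsingleton.elim _ _
      rw [h3, Finset.sum_singleton]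
      have h4 : WT H (fun i : Fin 0 => (i.elim0 : ℤ)) = 1 := by
        unfold WT
        rw [Finset.univ_eq_empty, Finset.prod_empty]
      rw [h4, Complex.ofReal_one, one_mul]
      refine Finset.sum_congr rfl fun p _ => Finset.sum_congr rfl fun z _ => ?_
      rw [Finset.univ_eq_empty, Finset.prod_empty, one_mul, List.ofFn_zero]
      simp only [DL]
    rw [h2] at h1
    obtain ⟨T, hT⟩ : ∃ T : ℝ, T = (∑ j ∈ bxS (0 + 1) H, ((WT H j : ℝ) : ℂ) *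
      ∑ x ∈ J, ∑ z ∈ B, DL (List.ofFn fun i => j i • v x i) (c x) z).re := ⟨_, rfl⟩
    rw [← hT] at h1 ⊢
    have h5 : 0 ≤ T := by
      have h6 := (sq_nonneg _).trans h1
      rwa [le_div_iff₀ (by positivity), zero_mul] at h6
    refine ⟨h5, ?_⟩
    have h7 : (2 : ℕ) ^ (0 + 1) = 2 := by norm_num
    rw [h7]
    refine h1.trans ?_
    rw [zero_add, pow_one]
    have h8 : T / (H * (N * J.card)) = 1 / H * (T / (N * J.card)) := by
      field_simp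
    rw [h8]
    refine mul_le_mul_of_nonneg_right ?_ (by positivity)
    refine div_le_div_of_nonneg_right ?_ hHr.le
    norm_num
  | succ r ih =>
    intro ι J hJ v g c hg hinv hc hB
    have hJr : (0 : ℝ) < J.card := by exact_mod_cast hJ
    have h1 := e2_step B B' N hN hN0 H hH (r + 1) J hJ v g c hg hinv hc hB
    have hcard : 0 < (J ×ˢ Ioo (-(H : ℤ)) H).card := by
      rw [card_product]
      refine Nat.mul_pos hJ ?_
      rw [Int.card_Ioo]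
      omega
    obtain ⟨h2, h3⟩ := ih (ι × ℤ) (J ×ˢ Ioo (-(H : ℤ)) H) hcard (fun p i => v p.1 i.succ)
      (fun p i => DD (p.2 • v p.1 0) (g p.1 i.succ)) (fun p z => ((fw H p.2 : ℝ) : ℂ) * DD (p.2 • v p.1 0) (c p.1) z)
      (fun p i z => e1_DD_le _ _ (hg p.1 i.succ) z) (fun p i z => e1_DD_inv _ _ _ (hinv p.1 i.succ) z)
      (fun p z hz => by simp only [DD, hc p.1 z hz, zero_mul, mul_zero]) (fun p i => hB p.1 i.succ)
    rw [e2_sum] at h2 h3
    refine ⟨h2, ?_⟩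
    rw [card_product, e2_card _ _ hH] at h3
    have hH1 : (1 : ℝ) ≤ H := by exact_mod_cast hH
    exact e2_const H (r + 1) hH N J.card (2 * H - 1) hN0 hJr (by linarith) (by linarith) _ _ _ (by positivity) h2
      (h1.trans (div_le_div_of_nonneg_right (Complex.re_le_norm _) (by positivity))) h3

/-- The statement for a finite family (index set `J`), needed for the induction. Proof by induction on `r`. Step: Cauchy-Schwarz over
`x ∈ J`, then `E0_real` for each `x` with `v x 0`, `g x 0` and `u = (∏_i g x i.succ) * c x`: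
`‖S‖² ≤ |J| (N/H) ∑_{x ∈ J} (∑_{|j|<H} fw H j ∑_z DD (j • v x 0) u z).re`, i.e. `(‖S‖/(N|J|))² ≤ (1/(H N |J|)) ‖∑_{(x,j)} ∑_z (∏ DD (…) (g x i.succ)) c' (x,j)‖`
with `c' (x,j) z = fw H j * DD (j • v x 0) (c x) z`. Induction hypothesis for the index set `J ×ˢ Ioo (-H) H` (cardinality `≤ 2 H |J|`; take
`N |J| 2H` as normalisation); for a real `w ≥ 0`: `DL l (w c) = w^(2^|l|) DL l c`. Constants: as in `E1` the total factor is at most `2^(2^r)/H^r`.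
For `r = 0` there is nothing to prove except `S = (…)` (the right side has `‖ ‖`). -/
theorem E2_fam {G ι : Type*} [AddCommGroup G] [DecidableEq G] [DecidableEq ι] (B B' : Finset G) (N : ℝ)
    (hN : (B'.card : ℝ) ≤ N) (hN0 : 0 < N) (H : ℕ) (hH : 0 < H) (r : ℕ) (J : Finset ι) (hJ : 0 < J.card)
    (v : ι → Fin r → G) (g : ι → Fin r → G → ℂ) (c : ι → G → ℂ)
    (hg : ∀ x i z, ‖g x i z‖ ≤ 1) (hinv : ∀ x i z, g x i (z + v x i) = g x i z) (hc : ∀ x z, z ∉ B → c x z = 0)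
    (hB : ∀ x i z, ∀ h : ℕ, h < H → z + h • v x i ∈ B → z ∈ B') :
    (‖∑ x ∈ J, ∑ z ∈ B, (∏ i, g x i z) * c x z‖ / (N * J.card)) ^ (2 ^ r) ≤
      2 ^ (2 ^ r) / (H : ℝ) ^ r * (‖∑ j ∈ bxS r H, ((WT H j : ℝ) : ℂ) *
        ∑ x ∈ J, ∑ z ∈ B, DL (List.ofFn fun i => j i • v x i) (c x) z‖ / (N * J.card)) := by
  have hHr : (0 : ℝ) < H := by exact_mod_cast hH
  have hJr : (0 : ℝ) < J.card := by exact_mod_cast hJ
  cases r with
  | zero =>
    have h1 : ∑ j ∈ bxS 0 H, ((WT H j : ℝ) : ℂ) *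
        ∑ x ∈ J, ∑ z ∈ B, DL (List.ofFn fun i => j i • v x i) (c x) z = ∑ x ∈ J, ∑ z ∈ B, c x z := by
      have h2 : bxS 0 H = {fun i => i.elim0} := by
        unfold bxS
        rw [Fintype.piFinset_of_isEmpty]
        ext j
        simp only [mem_univ, mem_singleton, true_iff]
        exact Subsingleton.elim _ _
      rw [h2, Finset.sum_singleton]
      have h4 : WT H (fun i : Fin 0 => (i.elim0 : ℤ)) = 1 := by
        unfold WT
        rw [Finset.univ_eq_empty, Finset.prod_empty]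
      rw [h4, Complex.ofReal_one, one_mul]
      simp only [List.ofFn_zero, DL]
    have h3 : ∑ x ∈ J, ∑ z ∈ B, (∏ i : Fin 0, g x i z) * c x z = ∑ x ∈ J, ∑ z ∈ B, c x z := by
      refine Finset.sum_congr rfl fun x _ => Finset.sum_congr rfl fun z _ => ?_
      rw [Finset.univ_eq_empty, Finset.prod_empty, one_mul]
    rw [h1, h3, pow_zero, pow_one, pow_one, pow_zero, div_one]
    have h4 : 0 ≤ ‖∑ x ∈ J, ∑ z ∈ B, c x z‖ / (N * J.card) := by positivity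
    linarith
  | succ r =>
    refine (e2_re B B' N hN hN0 H hH r ι J hJ v g c hg hinv hc hB).2.trans ?_
    refine mul_le_mul_of_nonneg_left ?_ (by positivity)
    exact div_le_div_of_nonneg_right (Complex.re_le_norm _) (by positivity)

/-- `J` a single point; for `r ≥ 1` the sum on the right is real and `≥ 0` (in the last step of the proof it comes from `E0_real`, whose right
side is `≥ 0`; or: reprove the statement with `.re`). -/
theorem E2_elim {G : Type*} [AddCommGroup G] [DecidableEq G] (B B' : Finset G) (N : ℝ) (hN : (B'.card : ℝ) ≤ N)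
    (hN0 : 0 < N) (H : ℕ) (hH : 0 < H) (r : ℕ) (hr : 1 ≤ r) (v : Fin r → G) (g : Fin r → G → ℂ) (c : G → ℂ)
    (hg : ∀ i z, ‖g i z‖ ≤ 1) (hinv : ∀ i z, g i (z + v i) = g i z) (hc : ∀ z, z ∉ B → c z = 0)
    (hB : ∀ i z, ∀ h : ℕ, h < H → z + h • v i ∈ B → z ∈ B') :
    (‖∑ z ∈ B, (∏ i, g i z) * c z‖ / N) ^ (2 ^ r) ≤
      2 ^ (2 ^ r) / (H : ℝ) ^ r * ((∑ j ∈ bxS r H, ((WT H j : ℝ) : ℂ) *
        ∑ z ∈ B, DL (List.ofFn fun i => j i • v i) c z).re / N) := by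
  obtain ⟨r, rfl⟩ : ∃ r' : ℕ, r = r' + 1 := ⟨r - 1, by omega⟩
  have h1 := (e2_re B B' N hN hN0 H hH r Unit {()} (by simp) (fun _ => v) (fun _ => g) (fun _ => c)
    (fun _ => hg) (fun _ => hinv) (fun _ => hc) (fun _ => hB)).2
  simp only [Finset.sum_singleton, Finset.card_singleton, Nat.cast_one, mul_one] at h1
  exact h1

end Pool.Agent.HUK
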