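import Pool.Agent.Lib.HUK.A14a
import Pool.Agent.Lib.HUK.E2

/-!
# Project HUK, chunk A14b: elimination of the `k - 1` functions `f 1, …, f (k-1)` for one factor `a`
-/

open Finset

namespace Pool.Agent.HUK

noncomputable section

/-- The differences of `β` which come out of the elimination; they do not depend on `a`. -/
def bj (k : ℕ) (β : ℤ → ℂ) (j : Fin (k - 1) → ℤ) (b : ℤ) : ℂ :=
  DL (List.ofFn fun i : Fin (k - 1) =>
    j i * (-(((k.factorial / ((i : ℕ) + 1) : ℕ) : ℤ) * ((k : ℤ) - ((i : ℕ) + 1 : ℕ))))) β b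

/-- The restriction of `f` to a class modulo `k!`. -/
def frho (k : ℕ) (f : ℤ → ℂ) (ρ : ℕ) : ℤ → ℂ := fun x => f ((ρ : ℤ) + (k.factorial : ℕ) * x)

theorem DL_shift (l : List ℤ) (F : ℤ → ℂ) (ρ y : ℤ) : DL l (fun y => F (ρ + y)) y = DL l F (ρ + y) := by
  induction l generalizing F with
  | nil => rfl
  | cons h l ih =>
    have h1 : DD h (fun y => F (ρ + y)) = fun y => (DD h F) (ρ + y) := by
      funext z
      simp only [DD, add_assoc]
    rw [DL, h1, ih]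
    rfl

theorem DL_frho (k : ℕ) (f : ℤ → ℂ) (ρ : ℕ) {r : ℕ} (u : Fin r → ℤ) (x : ℤ) :
    DL (List.ofFn fun i => (k.factorial : ℤ) * u i) f ((ρ : ℤ) + (k.factorial : ℕ) * x) =
      DL (List.ofFn u) (frho k f ρ) x := by
  have h1 := DL_comp (AddMonoidHom.mulLeft (k.factorial : ℤ)) (List.ofFn u) (fun y => f ((ρ : ℤ) + y)) x
  rw [List.map_ofFn] at h1
  have h2 : (⇑(AddMonoidHom.mulLeft (k.factorial : ℤ)) ∘ u) = fun i => (k.factorial : ℤ) * u i := by
    funext i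
    rfl
  rw [h2] at h1
  have h3 : (AddMonoidHom.mulLeft (k.factorial : ℤ)) x = (k.factorial : ℤ) * x := rfl
  rw [h3, DL_shift] at h1
  exact h1.symm

theorem A14_elim (k : ℕ) (hk : 3 ≤ k) (X K H Nb : ℕ) (hX : 1 ≤ X) (hH : 1 ≤ H) (hNb : 1 ≤ Nb) (hKN : 2 * K * Nb ≤ 4 * X)
    (hHN : H * (k.factorial * k) ≤ Nb) (hHK : 2 * H * k.factorial * K ≤ X) (a : ℕ) (ha : a ≤ 2 * K)
    (β : ℤ → ℂ) (hβ : ∀ b, b ∉ Icc (1 : ℤ) Nb → β b = 0) (f : ℕ → ℤ → ℂ) (hf : ∀ j, j < k → Bdd X (f j)) :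
    (‖∑ b ∈ Icc (1 : ℤ) Nb, β b * Psi X k f ((a : ℤ) * b)‖ / (26 * Nb * X)) ^ (2 ^ (k - 1)) ≤
      2 ^ (2 ^ (k - 1)) / (H : ℝ) ^ (k - 1) * ((∑ j ∈ bxS (k - 1) H, ((WT H j : ℝ) : ℂ) *
        ∑ b ∈ Icc (1 : ℤ) Nb, bj k β j b * ∑ ρ ∈ (range k.factorial).filter (fun ρ : ℕ => (k : ℤ) ∣ (ρ : ℤ) - a * b),
          FF X (fun i => (a : ℤ) * j i) (frho k (f 0) ρ)).re / (26 * Nb * X)) := by
  set w : Fin (k - 1) → ℕ := fun i => k.factorial / ((i : ℕ) + 1) with hw
  have hwi : ∀ i : Fin (k - 1), w i * ((i : ℕ) + 1) = k.factorial := by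
    intro i
    exact Nat.div_mul_cancel (Nat.dvd_factorial (by omega) (by have := i.2; omega))
  have hwle : ∀ i : Fin (k - 1), w i ≤ k.factorial := fun i => Nat.div_le_self _ _
  set v : Fin (k - 1) → ℤ × ℤ := fun i => (-((w i : ℤ) * ((k : ℤ) - ((i : ℕ) + 1 : ℕ))), -((w i : ℤ) * a)) with hv
  set g : Fin (k - 1) → ℤ × ℤ → ℂ := fun i z => f ((i : ℕ) + 1) (a * z.1 - ((k : ℤ) - ((i : ℕ) + 1 : ℕ)) * z.2) with hg0
  set c : ℤ × ℤ → ℂ := fun z => β z.1 * f 0 (a * z.1 - k * z.2) with hc0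
  set B : Finset (ℤ × ℤ) := Icc (1 : ℤ) Nb ×ˢ Ioo (-(6 * X : ℤ)) (6 * X) with hB0
  set B' : Finset (ℤ × ℤ) := Icc (1 : ℤ) (2 * Nb) ×ˢ Ioo (-(6 * X : ℤ)) (7 * X) with hB'0
  have hk0 : (0 : ℤ) < k := by exact_mod_cast (by omega : 0 < k)
  have hXr : (1 : ℝ) ≤ X := by exact_mod_cast hX
  have hNr : (1 : ℝ) ≤ Nb := by exact_mod_cast hNb
  have hcardB' : (B'.card : ℝ) ≤ 26 * Nb * X := by
    rw [hB'0, card_product, Int.card_Icc, Int.card_Ioo]
    have e1 : (2 * (Nb : ℤ) + 1 - 1).toNat = 2 * Nb := by omega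
    have e2 : (7 * (X : ℤ) - -(6 * X) - 1).toNat = 13 * X - 1 := by omega
    rw [e1, e2]
    have e3 : (((2 * Nb * (13 * X - 1) : ℕ)) : ℝ) ≤ ((2 * Nb * (13 * X) : ℕ) : ℝ) := by
      exact_mod_cast Nat.mul_le_mul_left _ (by omega)
    refine e3.trans (le_of_eq ?_)
    push_cast
    ring
  have hN0 : (0 : ℝ) < 26 * Nb * X := by positivity
  have hg : ∀ i z, ‖g i z‖ ≤ 1 := fun i z => (hf ((i : ℕ) + 1) (by have := i.2; omega)).le _
  have hinv : ∀ i z, g i (z + v i) = g i z := by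
    intro i z
    simp only [hg0, hv, Prod.fst_add, Prod.snd_add]
    congr 1
    ring
  have hc : ∀ z, z ∉ B → c z = 0 := by
    intro z hz
    by_contra hne
    apply hz
    have h1 : β z.1 ≠ 0 := fun h0 => hne (by simp only [hc0, h0, zero_mul])
    have h2 : f 0 (a * z.1 - k * z.2) ≠ 0 := fun h0 => hne (by simp only [hc0, h0, mul_zero])
    have h3 : z.1 ∈ Icc (1 : ℤ) Nb := by
      by_contra hcon
      exact h1 (hβ _ hcon)
    have h4 : a * z.1 - k * z.2 ∈ Ico (-(X : ℤ)) X := by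
      by_contra hcon
      exact h2 ((hf 0 (by omega)).sup _ hcon)
    rw [hB0, mem_product]
    refine ⟨h3, ?_⟩
    rw [mem_Icc] at h3
    rw [mem_Ico] at h4
    rw [mem_Ioo]
    have haz : (a : ℤ) * z.1 ≤ 4 * X := by
      have h5 : (a : ℤ) ≤ 2 * K := by exact_mod_cast ha
      have h6 : (2 : ℤ) * K * Nb ≤ 4 * X := by exact_mod_cast hKN
      have h7 : (a : ℤ) * z.1 ≤ (2 * K) * Nb := mul_le_mul h5 h3.2 (by linarith [h3.1]) (by positivity)
      linarith
    have haz0 : 0 ≤ (a : ℤ) * z.1 := mul_nonneg (by positivity) (by linarith [h3.1])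
    have hX' : (1 : ℤ) ≤ X := by exact_mod_cast hX
    have hk1 : (1 : ℤ) ≤ k := hk0
    constructor
    · by_contra hcon
      push Not at hcon
      nlinarith [h4.1, h4.2]
    · by_contra hcon
      push Not at hcon
      nlinarith [h4.1, h4.2]
  have hB : ∀ i z, ∀ h : ℕ, h < H → z + h • v i ∈ B → z ∈ B' := by
    intro i z h hh hz
    rw [hB0, mem_product, mem_Icc, mem_Ioo] at hz
    have e1 : (z + h • v i).1 = z.1 - h * (w i * ((k : ℤ) - ((i : ℕ) + 1 : ℕ))) := by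
      rw [Prod.fst_add, Prod.smul_fst, nsmul_eq_mul]
      simp only [hv]
      ring
    have e2 : (z + h • v i).2 = z.2 - h * (w i * a) := by
      rw [Prod.snd_add, Prod.smul_snd, nsmul_eq_mul]
      simp only [hv]
      ring
    rw [e1, e2] at hz
    have hi := i.2
    have hik : (0 : ℤ) ≤ (k : ℤ) - ((i : ℕ) + 1 : ℕ) := by
      push_cast
      omega
    have hik2 : (k : ℤ) - ((i : ℕ) + 1 : ℕ) ≤ k := by
      push_cast
      omega
    have hh' : (h : ℤ) ≤ H := by exact_mod_cast hh.le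
    have hw' : (w i : ℤ) ≤ (k.factorial : ℕ) := by exact_mod_cast hwle i
    have s1 : (h : ℤ) * (w i * ((k : ℤ) - ((i : ℕ) + 1 : ℕ))) ≤ Nb := by
      have h1 : (w i : ℤ) * ((k : ℤ) - ((i : ℕ) + 1 : ℕ)) ≤ (k.factorial : ℕ) * k :=
        mul_le_mul hw' hik2 hik (by positivity)
      have h2 : (h : ℤ) * (w i * ((k : ℤ) - ((i : ℕ) + 1 : ℕ))) ≤ H * ((k.factorial : ℕ) * k) :=
        mul_le_mul hh' h1 (mul_nonneg (by positivity) hik) (by positivity)
      have h3 : (H : ℤ) * ((k.factorial : ℕ) * k) ≤ Nb := by exact_mod_cast hHN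
      linarith
    have s1' : 0 ≤ (h : ℤ) * (w i * ((k : ℤ) - ((i : ℕ) + 1 : ℕ))) :=
      mul_nonneg (by positivity) (mul_nonneg (by positivity) hik)
    have s2 : (h : ℤ) * (w i * a) ≤ X := by
      have ha' : (a : ℤ) ≤ 2 * K := by exact_mod_cast ha
      have h1 : (w i : ℤ) * a ≤ (k.factorial : ℕ) * (2 * K) := mul_le_mul hw' ha' (by positivity) (by positivity)
      have h2 : (h : ℤ) * (w i * a) ≤ H * ((k.factorial : ℕ) * (2 * K)) :=
        mul_le_mul hh' h1 (by positivity) (by positivity)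
      have h3 : (2 : ℤ) * H * (k.factorial : ℕ) * K ≤ X := by exact_mod_cast hHK
      linarith
    have s2' : 0 ≤ (h : ℤ) * (w i * a) := by positivity
    rw [hB'0, mem_product, mem_Icc, mem_Ioo]
    refine ⟨⟨by linarith [hz.1.1], by linarith [hz.1.2]⟩, by linarith [hz.2.1], by linarith [hz.2.2]⟩
  have key := E2_elim B B' (26 * Nb * X) hcardB' hN0 H hH (k - 1) (by omega) v g c hg hinv hc hB
  have hL : ∑ z ∈ B, (∏ i, g i z) * c z = ∑ b ∈ Icc (1 : ℤ) Nb, β b * Psi X k f ((a : ℤ) * b) := by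
    rw [hB0, Finset.sum_product]
    refine Finset.sum_congr rfl fun b _ => ?_
    rw [A14_psi X k hk f hf, Finset.mul_sum]
    refine Finset.sum_congr rfl fun h _ => ?_
    simp only [hg0, hc0]
    ring
  have hR : ∀ j : Fin (k - 1) → ℤ, ∑ z ∈ B, DL (List.ofFn fun i => j i • v i) c z =
      ∑ b ∈ Icc (1 : ℤ) Nb, bj k β j b * ∑ ρ ∈ (range k.factorial).filter (fun ρ : ℕ => (k : ℤ) ∣ (ρ : ℤ) - a * b),
          FF X (fun i => (a : ℤ) * j i) (frho k (f 0) ρ) := by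
    intro j
    set l := List.ofFn fun i => j i • v i with hl
    have h1 : ∀ z : ℤ × ℤ, DL l c z = bj k β j z.1 *
        DL (List.ofFn fun i => (k.factorial : ℤ) * (a * j i)) (f 0) (a * z.1 - k * z.2) := by
      intro z
      have h2 : c = fun z => (fun z : ℤ × ℤ => β ((AddMonoidHom.fst ℤ ℤ) z)) z *
          (fun z : ℤ × ℤ => f 0 (((AddMonoidHom.mulLeft (a : ℤ)).comp (AddMonoidHom.fst ℤ ℤ) -
            (AddMonoidHom.mulLeft (k : ℤ)).comp (AddMonoidHom.snd ℤ ℤ)) z)) z := by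
        funext z
        rfl
      rw [h2, DL_mul]
      simp only
      rw [DL_comp, DL_comp, hl, List.map_ofFn, List.map_ofFn]
      have hb1 : DL (List.ofFn (⇑(AddMonoidHom.fst ℤ ℤ) ∘ fun i => j i • v i)) β ((AddMonoidHom.fst ℤ ℤ) z) = bj k β j z.1 := rfl
      rw [hb1]
      congr 1
      have e : (⇑((AddMonoidHom.mulLeft (a : ℤ)).comp (AddMonoidHom.fst ℤ ℤ) -
          (AddMonoidHom.mulLeft (k : ℤ)).comp (AddMonoidHom.snd ℤ ℤ)) ∘ fun i => j i • v i) =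
          fun i : Fin (k - 1) => (k.factorial : ℤ) * (a * j i) := by
        funext i
        have e1 : (w i : ℤ) * ((i : ℕ) + 1 : ℕ) = (k.factorial : ℕ) := by exact_mod_cast hwi i
        have e2 : (⇑((AddMonoidHom.mulLeft (a : ℤ)).comp (AddMonoidHom.fst ℤ ℤ) -
          (AddMonoidHom.mulLeft (k : ℤ)).comp (AddMonoidHom.snd ℤ ℤ)) ∘ fun i => j i • v i) i =
            a * (j i * (-((w i : ℤ) * ((k : ℤ) - ((i : ℕ) + 1 : ℕ))))) - k * (j i * (-((w i : ℤ) * a))) := rfl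
        rw [e2, ← e1]
        ring
      rw [e]
      rfl
    have h3 : ∀ b ∈ Icc (1 : ℤ) Nb, ∑ h ∈ Ioo (-(6 * X : ℤ)) (6 * X), DL l c (b, h) =
        bj k β j b * ∑ ρ ∈ (range k.factorial).filter (fun ρ : ℕ => (k : ℤ) ∣ (ρ : ℤ) - a * b),
          FF X (fun i => (a : ℤ) * j i) (frho k (f 0) ρ) := by
      intro b hb
      rw [mem_Icc] at hb
      have h4 : ∀ h : ℤ, DL l c (b, h) = bj k β j b *
          DL (List.ofFn fun i => (k.factorial : ℤ) * (a * j i)) (f 0) (a * b - k * h) := fun h => h1 (b, h)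
      simp only [h4]
      rw [← Finset.mul_sum]
      congr 1
      have haz : (a : ℤ) * b ≤ 4 * X := by
        have h5 : (a : ℤ) ≤ 2 * K := by exact_mod_cast ha
        have h6 : (2 : ℤ) * K * Nb ≤ 4 * X := by exact_mod_cast hKN
        have h7 : (a : ℤ) * b ≤ (2 * K) * Nb := mul_le_mul h5 hb.2 (by linarith [hb.1]) (by positivity)
        linarith
      have haz0 : 0 ≤ (a : ℤ) * b := mul_nonneg (by positivity) (by linarith [hb.1])
      rw [A14_hsum X k k.factorial (by omega) (Nat.factorial_pos k) (Nat.dvd_factorial (by omega) le_rfl) _ haz0 haz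
        (DL (List.ofFn fun i => (k.factorial : ℤ) * (a * j i)) (f 0))
        (fun y hy => DL_supp _ _ _ ((hf 0 (by omega)).sup y hy))]
      refine Finset.sum_congr rfl fun ρ _ => ?_
      unfold FF DV
      refine Finset.sum_congr rfl fun x _ => ?_
      exact DL_frho k (f 0) ρ (fun i => (a : ℤ) * j i) x
    rw [hB0, Finset.sum_product]
    exact Finset.sum_congr rfl h3
  rw [hL] at key
  simp only [hR] at key
  exact key

end

end Pool.Agent.HUK
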