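import Pool.Agent.Lib.HUK.A14b

/-!
# Project HUK, chunk A15: all factors `a ∈ (K, 2K]`, classes modulo `k`, Cauchy-Schwarz over the differences
-/

open Finset

namespace Pool.Agent.HUK

theorem A15_fw (M : ℕ) (t : ℤ) : 0 ≤ fw M t ∧ fw M t ≤ 1 := by
  unfold fw
  refine ⟨le_max_left _ _, max_le zero_le_one ?_⟩
  have : 0 ≤ |(t : ℝ)| / M := by positivity
  linarith

theorem A15_WT (H : ℕ) {r : ℕ} (j : Fin r → ℤ) : ‖((WT H j : ℝ) : ℂ)‖ ≤ 1 := by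
  rw [Complex.norm_real, Real.norm_eq_abs]
  have h0 : 0 ≤ WT H j := Finset.prod_nonneg fun i _ => pow_nonneg (A15_fw _ _).1 _
  rw [abs_of_nonneg h0]
  exact Finset.prod_le_one (fun i _ => pow_nonneg (A15_fw _ _).1 _)
    fun i _ => pow_le_one₀ (A15_fw _ _).1 (A15_fw _ _).2

/-- The sum over `a` of the right sides of `A14_elim`. -/
theorem A15_swap (k : ℕ) (hk : 3 ≤ k) (X K H Nb : ℕ) (β : ℤ → ℂ) (R : ℝ) (hR : 0 ≤ R) (hβR : ∀ b, ‖β b‖ ≤ R) (f : ℤ → ℂ) :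
    ‖∑ a ∈ Ioc K (2 * K), ∑ j ∈ bxS (k - 1) H, ((WT H j : ℝ) : ℂ) *
        ∑ b ∈ Icc (1 : ℤ) Nb, bj k β j b * ∑ ρ ∈ (range k.factorial).filter (fun ρ : ℕ => (k : ℤ) ∣ (ρ : ℤ) - a * b),
          FF X (fun i => (a : ℤ) * j i) (frho k f ρ)‖ ≤
      Nb * R ^ (2 ^ (k - 1)) * ∑ a0 ∈ range k, ∑ ρ ∈ range k.factorial, ∑ j ∈ bxS (k - 1) H,
        ‖∑ a ∈ (Ioc K (2 * K)).filter (fun a => a % k = a0), FF X (fun i => (a : ℤ) * j i) (frho k f ρ)‖ := by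
  have hk0 : 0 < k := by omega
  have hbj : ∀ j b, ‖bj k β j b‖ ≤ R ^ (2 ^ (k - 1)) := by
    intro j b
    have h := DL_norm_le (List.ofFn fun i : Fin (k - 1) =>
      j i * (-(((k.factorial / ((i : ℕ) + 1) : ℕ) : ℤ) * ((k : ℤ) - ((i : ℕ) + 1 : ℕ))))) β R hR hβR b
    rw [List.length_ofFn] at h
    exact h
  have h1 : ∀ j : Fin (k - 1) → ℤ, ∑ a ∈ Ioc K (2 * K), ((WT H j : ℝ) : ℂ) *
        ∑ b ∈ Icc (1 : ℤ) Nb, bj k β j b * ∑ ρ ∈ (range k.factorial).filter (fun ρ : ℕ => (k : ℤ) ∣ (ρ : ℤ) - a * b),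
          FF X (fun i => (a : ℤ) * j i) (frho k f ρ) =
      ((WT H j : ℝ) : ℂ) * ∑ a0 ∈ range k, ∑ ρ ∈ range k.factorial,
        (∑ b ∈ (Icc (1 : ℤ) Nb).filter (fun b => (k : ℤ) ∣ (ρ : ℤ) - a0 * b), bj k β j b) *
        ∑ a ∈ (Ioc K (2 * K)).filter (fun a => a % k = a0), FF X (fun i => (a : ℤ) * j i) (frho k f ρ) := by
    intro j
    rw [← Finset.mul_sum]
    congr 1
    have h2 : ∀ a0 ∈ range k, ∑ a ∈ (Ioc K (2 * K)).filter (fun a => a % k = a0),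
        ∑ b ∈ Icc (1 : ℤ) Nb, bj k β j b * ∑ ρ ∈ (range k.factorial).filter (fun ρ : ℕ => (k : ℤ) ∣ (ρ : ℤ) - a * b),
          FF X (fun i => (a : ℤ) * j i) (frho k f ρ) = ∑ ρ ∈ range k.factorial,
        (∑ b ∈ (Icc (1 : ℤ) Nb).filter (fun b => (k : ℤ) ∣ (ρ : ℤ) - a0 * b), bj k β j b) *
        ∑ a ∈ (Ioc K (2 * K)).filter (fun a => a % k = a0), FF X (fun i => (a : ℤ) * j i) (frho k f ρ) := by
      intro a0 _
      have h3 : ∀ a ∈ (Ioc K (2 * K)).filter (fun a => a % k = a0),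
          ∑ b ∈ Icc (1 : ℤ) Nb, bj k β j b *
            ∑ ρ ∈ (range k.factorial).filter (fun ρ : ℕ => (k : ℤ) ∣ (ρ : ℤ) - a * b),
              FF X (fun i => (a : ℤ) * j i) (frho k f ρ) =
          ∑ ρ ∈ range k.factorial, (∑ b ∈ (Icc (1 : ℤ) Nb).filter (fun b => (k : ℤ) ∣ (ρ : ℤ) - a0 * b), bj k β j b) *
            FF X (fun i => (a : ℤ) * j i) (frho k f ρ) := by
        intro a ha
        rw [mem_filter] at ha
        have hdvd : ∀ (ρ : ℕ) (b : ℤ), ((k : ℤ) ∣ (ρ : ℤ) - a * b) ↔ ((k : ℤ) ∣ (ρ : ℤ) - a0 * b) := by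
          intro ρ b
          have h4 : (k : ℤ) ∣ ((a : ℤ) - a0) * b := by
            have h5 : ((a : ℤ)) - a0 = k * ((a / k : ℕ) : ℤ) := by
              have h6 := Nat.mod_add_div a k
              rw [ha.2] at h6
              have h7 : (a : ℤ) = a0 + k * ((a / k : ℕ) : ℤ) := by
                rw [← Nat.cast_mul, ← Nat.cast_add, h6]
              rw [h7]
              ring
            rw [h5]
            exact ⟨((a / k : ℕ) : ℤ) * b, by ring⟩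
          have h8 : (ρ : ℤ) - a0 * b = (ρ - a * b) + (a - a0) * b := by ring
          rw [h8]
          exact (dvd_add_left h4).symm
        simp only [Finset.sum_filter, hdvd, Finset.mul_sum, Finset.sum_mul]
        rw [Finset.sum_comm]
        refine Finset.sum_congr rfl fun ρ _ => Finset.sum_congr rfl fun b _ => ?_
        split_ifs <;> simp
      rw [Finset.sum_congr rfl h3, Finset.sum_comm]
      refine Finset.sum_congr rfl fun ρ _ => ?_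
      rw [Finset.mul_sum]
    rw [← Finset.sum_congr rfl h2]
    symm
    refine Finset.sum_fiberwise_of_maps_to (fun a _ => ?_) _
    rw [mem_range]
    exact Nat.mod_lt _ hk0
  rw [Finset.sum_comm, Finset.sum_congr rfl fun j _ => h1 j]
  have h4 : ∀ j ∈ bxS (k - 1) H, ‖((WT H j : ℝ) : ℂ) * ∑ a0 ∈ range k, ∑ ρ ∈ range k.factorial,
        (∑ b ∈ (Icc (1 : ℤ) Nb).filter (fun b => (k : ℤ) ∣ (ρ : ℤ) - a0 * b), bj k β j b) *
        ∑ a ∈ (Ioc K (2 * K)).filter (fun a => a % k = a0), FF X (fun i => (a : ℤ) * j i) (frho k f ρ)‖ ≤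
      ∑ a0 ∈ range k, ∑ ρ ∈ range k.factorial, (Nb * R ^ (2 ^ (k - 1))) *
        ‖∑ a ∈ (Ioc K (2 * K)).filter (fun a => a % k = a0), FF X (fun i => (a : ℤ) * j i) (frho k f ρ)‖ := by
    intro j _
    rw [norm_mul]
    refine (mul_le_of_le_one_left (norm_nonneg _) (A15_WT H j)).trans ?_
    refine (norm_sum_le _ _).trans (Finset.sum_le_sum fun a0 _ => ?_)
    refine (norm_sum_le _ _).trans (Finset.sum_le_sum fun ρ _ => ?_)
    rw [norm_mul]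
    refine mul_le_mul_of_nonneg_right ?_ (norm_nonneg _)
    refine (norm_sum_le _ _).trans ((Finset.sum_le_card_nsmul _ _ _ fun b _ => hbj j b).trans ?_)
    rw [nsmul_eq_mul]
    refine mul_le_mul_of_nonneg_right ?_ (by positivity)
    have h5 := Finset.card_filter_le (Icc (1 : ℤ) Nb) (fun b => (k : ℤ) ∣ (ρ : ℤ) - a0 * b)
    have h6 : (Icc (1 : ℤ) Nb).card = Nb := by
      rw [Int.card_Icc]
      omega
    rw [h6] at h5
    exact_mod_cast h5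
  refine (norm_sum_le _ _).trans ((Finset.sum_le_sum h4).trans (le_of_eq ?_))
  simp only [← Finset.mul_sum]
  congr 1
  rw [Finset.sum_comm]
  refine Finset.sum_congr rfl fun a0 _ => ?_
  rw [Finset.sum_comm]

/-- All `a ∈ (K, 2K]`. -/
theorem A15_block (k : ℕ) (hk : 3 ≤ k) (X K H Nb : ℕ) (hX : 1 ≤ X) (hK : 1 ≤ K) (hH : 1 ≤ H) (hNb : 1 ≤ Nb)
    (hKN : 2 * K * Nb ≤ 4 * X) (hHN : H * (k.factorial * k) ≤ Nb) (hHK : 2 * H * k.factorial * K ≤ X)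
    (β : ℤ → ℂ) (hβ : ∀ b, b ∉ Icc (1 : ℤ) Nb → β b = 0) (R : ℝ) (hR : 0 ≤ R) (hβR : ∀ b, ‖β b‖ ≤ R)
    (f : ℕ → ℤ → ℂ) (hf : ∀ j, j < k → Bdd X (f j)) (η : ℝ) (hη : 0 ≤ η)
    (hS : ∀ a0 ρ : ℕ, a0 < k → ρ < k.factorial → ∑ j ∈ bxS (k - 1) H,
      ‖∑ a ∈ (Ioc K (2 * K)).filter (fun a => a % k = a0), FF X (fun i => (a : ℤ) * j i) (frho k (f 0) ρ)‖ ^ 2 ≤
        η ^ 2 * ((H : ℝ) ^ (k - 1) * ((K : ℝ) * X) ^ 2)) :
    (∑ a ∈ Ioc K (2 * K), ‖∑ b ∈ Icc (1 : ℤ) Nb, β b * Psi X k f ((a : ℤ) * b)‖ / (26 * Nb * X)) ^ (2 ^ (k - 1)) ≤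
      (2 ^ (2 ^ (k - 1)) * (k * k.factorial) * 2 ^ (k - 1)) * (K * R) ^ (2 ^ (k - 1)) * η := by
  obtain ⟨P, hP⟩ : ∃ P, 2 ^ (k - 1) = P + 1 := ⟨2 ^ (k - 1) - 1, by have := Nat.one_le_two_pow (n := k - 1); omega⟩
  have hXr : (1 : ℝ) ≤ X := by exact_mod_cast hX
  have hKr : (1 : ℝ) ≤ K := by exact_mod_cast hK
  have hHr : (1 : ℝ) ≤ H := by exact_mod_cast hH
  have hNr : (1 : ℝ) ≤ Nb := by exact_mod_cast hNb
  have hHp : (0 : ℝ) < (H : ℝ) ^ (k - 1) := by positivity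
  set E : ℕ → ℂ := fun a => ∑ j ∈ bxS (k - 1) H, ((WT H j : ℝ) : ℂ) *
        ∑ b ∈ Icc (1 : ℤ) Nb, bj k β j b * ∑ ρ ∈ (range k.factorial).filter (fun ρ : ℕ => (k : ℤ) ∣ (ρ : ℤ) - a * b),
          FF X (fun i => (a : ℤ) * j i) (frho k (f 0) ρ) with hE
  set x : ℕ → ℝ := fun a => ‖∑ b ∈ Icc (1 : ℤ) Nb, β b * Psi X k f ((a : ℤ) * b)‖ / (26 * Nb * X) with hx
  have h1 : ∀ a ∈ Ioc K (2 * K), x a ^ (P + 1) ≤ 2 ^ (P + 1) / (H : ℝ) ^ (k - 1) * ((E a).re / (26 * Nb * X)) := by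
    intro a ha
    rw [mem_Ioc] at ha
    have h := A14_elim k hk X K H Nb hX hH hNb hKN hHN hHK a ha.2 β hβ f hf
    rw [hP] at h
    exact h
  have hx0 : ∀ a ∈ Ioc K (2 * K), 0 ≤ x a := fun a _ => by positivity
  have hcs : ∀ a0 ρ : ℕ, a0 < k → ρ < k.factorial → ∑ j ∈ bxS (k - 1) H,
      ‖∑ a ∈ (Ioc K (2 * K)).filter (fun a => a % k = a0), FF X (fun i => (a : ℤ) * j i) (frho k (f 0) ρ)‖ ≤
        2 ^ (k - 1) * η * (H : ℝ) ^ (k - 1) * (K * X) := by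
    intro a0 ρ ha0 hρ
    have h2 := Finset.sum_mul_sq_le_sq_mul_sq (bxS (k - 1) H) (fun _ => (1 : ℝ)) (fun j =>
      ‖∑ a ∈ (Ioc K (2 * K)).filter (fun a => a % k = a0), FF X (fun i => (a : ℤ) * j i) (frho k (f 0) ρ)‖)
    simp only [one_mul, one_pow, Finset.sum_const, nsmul_eq_mul, mul_one] at h2
    have h3 := hS a0 ρ ha0 hρ
    have h4 := bxS_card (k - 1) H
    have h5 : (∑ j ∈ bxS (k - 1) H,
      ‖∑ a ∈ (Ioc K (2 * K)).filter (fun a => a % k = a0), FF X (fun i => (a : ℤ) * j i) (frho k (f 0) ρ)‖) ^ 2 ≤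
        (2 ^ (k - 1) * η * (H : ℝ) ^ (k - 1) * (K * X)) ^ 2 := by
      refine h2.trans ((mul_le_mul h4 h3 (Finset.sum_nonneg fun _ _ => by positivity) (by positivity)).trans ?_)
      have h6 : (1 : ℝ) ≤ 2 ^ (k - 1) := one_le_pow₀ (by norm_num)
      have h7 : (2 * (H : ℝ)) ^ (k - 1) * (η ^ 2 * ((H : ℝ) ^ (k - 1) * ((K : ℝ) * X) ^ 2)) =
          2 ^ (k - 1) * (η * (H : ℝ) ^ (k - 1) * (K * X)) ^ 2 := by
        rw [mul_pow]
        ring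
      have h8 : (2 ^ (k - 1) * η * (H : ℝ) ^ (k - 1) * (K * X)) ^ 2 =
          (2 ^ (k - 1)) ^ 2 * (η * (H : ℝ) ^ (k - 1) * (K * X)) ^ 2 := by ring
      rw [h7, h8]
      refine mul_le_mul_of_nonneg_right ?_ (by positivity)
      nlinarith
    exact le_of_sq_le_sq h5 (by positivity)
  have hsum : ‖∑ a ∈ Ioc K (2 * K), E a‖ ≤
      Nb * R ^ (P + 1) * ((k * k.factorial) * (2 ^ (k - 1) * η * (H : ℝ) ^ (k - 1) * (K * X))) := by
    have h2 := A15_swap k hk X K H Nb β R hR hβR (f 0)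
    rw [hP] at h2
    refine h2.trans (mul_le_mul_of_nonneg_left ?_ (by positivity))
    have h3 : ∀ a0 ∈ range k, ∑ ρ ∈ range k.factorial, ∑ j ∈ bxS (k - 1) H,
        ‖∑ a ∈ (Ioc K (2 * K)).filter (fun a => a % k = a0), FF X (fun i => (a : ℤ) * j i) (frho k (f 0) ρ)‖ ≤
        k.factorial * (2 ^ (k - 1) * η * (H : ℝ) ^ (k - 1) * (K * X)) := by
      intro a0 ha0
      have h4 := Finset.sum_le_card_nsmul (range k.factorial) _ _ fun ρ hρ => hcs a0 ρ (mem_range.1 ha0) (mem_range.1 hρ)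
      rw [card_range, nsmul_eq_mul] at h4
      exact h4
    have h5 := Finset.sum_le_card_nsmul (range k) _ _ h3
    rw [card_range, nsmul_eq_mul] at h5
    rw [mul_assoc (k : ℝ)]
    exact h5
  have hcard : (Ioc K (2 * K)).card = K := by
    rw [Nat.card_Ioc]
    omega
  have h2 : (∑ a ∈ Ioc K (2 * K), x a) ^ (P + 1) ≤ (K : ℝ) ^ P * ∑ a ∈ Ioc K (2 * K), x a ^ (P + 1) := by
    have h := pow_sum_div_card_le_sum_pow (s := Ioc K (2 * K)) (f := x) hx0 P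
    rw [hcard, div_le_iff₀ (by positivity)] at h
    linarith
  have h3 : ∑ a ∈ Ioc K (2 * K), x a ^ (P + 1) ≤
      2 ^ (P + 1) / (H : ℝ) ^ (k - 1) * (‖∑ a ∈ Ioc K (2 * K), E a‖ / (26 * Nb * X)) := by
    refine (Finset.sum_le_sum h1).trans ?_
    rw [← Finset.mul_sum, ← Finset.sum_div, ← Complex.re_sum]
    refine mul_le_mul_of_nonneg_left ?_ (by positivity)
    exact div_le_div_of_nonneg_right (Complex.re_le_norm _) (by positivity)
  rw [hP]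
  refine h2.trans ?_
  have h4 : ‖∑ a ∈ Ioc K (2 * K), E a‖ / (26 * Nb * X) ≤
      R ^ (P + 1) * ((k * k.factorial) * (2 ^ (k - 1) * η * (H : ℝ) ^ (k - 1) * K)) := by
    rw [div_le_iff₀ (by positivity)]
    refine hsum.trans ?_
    have h5 : 0 ≤ R ^ (P + 1) * ((k * k.factorial) * (2 ^ (k - 1) * η * (H : ℝ) ^ (k - 1) * K)) * (Nb * X) := by positivity
    nlinarith [h5]
  have h5 : (K : ℝ) ^ P * (2 ^ (P + 1) / (H : ℝ) ^ (k - 1) *
      (R ^ (P + 1) * ((k * k.factorial) * (2 ^ (k - 1) * η * (H : ℝ) ^ (k - 1) * K)))) =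
      2 ^ (P + 1) * (k * k.factorial) * 2 ^ (k - 1) * (K * R) ^ (P + 1) * η := by
    field_simp
    ring
  rw [← h5]
  refine mul_le_mul_of_nonneg_left (h3.trans ?_) (by positivity)
  exact mul_le_mul_of_nonneg_left h4 (by positivity)

end Pool.Agent.HUK
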