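import Pool.Agent.Lib.HUK.P0

/-!
# Project HUK, chunk A4 (M): the quasi-period of the product over the cube
-/

open Finset

namespace Pool.Agent.HUK

open Pool.Agent.H44W (ee)

/-- Auxiliary: the recursion of `DL` at the first direction. -/
theorem a4_cons (c : ℤ × ℤ → ℂ) (p : ℤ × ℤ) (L : List (ℤ × ℤ)) (z a : ℤ) :
    DL (p :: L) c (z, a) = DL L c (z, a) * (starRingEnd ℂ) (DL L c (z + p.1, a + p.2)) := by
  have h : DL (p :: L) c = DD p (DL L c) := DL_DD L p c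
  rw [h]
  rfl

/-- If not all vertices are in `(K, 2K]`, the product vanishes. Induction on `L` (`DL_DD`: `DL (p :: L) c = DD p (DL L c)`). -/
theorem A4_zero (X K H : ℕ) (ψ : ℝ) (c : ℤ × ℤ → ℂ) (hc : QP X K H ψ c) (L : List (ℤ × ℤ)) (z a : ℤ)
    (hV : ¬ Vt K (L.map Prod.snd) a) : DL L c (z, a) = 0 := by
  induction L generalizing z a with
  | nil => exact hc.supa z a hV
  | cons p L ih =>
    rw [a4_cons]
    by_cases h1 : Vt K (L.map Prod.snd) a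
    · have h2 : ¬ Vt K (L.map Prod.snd) (a + p.2) := fun h2 => hV ⟨h1, h2⟩
      rw [ih (z + p.1) (a + p.2) h2, map_zero, mul_zero]
    · rw [ih z a h1, zero_mul]

theorem A4_pos (K : ℕ) (l : List ℤ) (a : ℤ) (hV : Vt K l a) :
    0 < Qf l a ∧ (Qf l a : ℝ) ≤ (2 * K) ^ (2 ^ l.length) := by
  induction l generalizing a with
  | nil =>
    obtain ⟨h1, h2⟩ := hV
    refine ⟨lt_of_le_of_lt (Int.natCast_nonneg K) h1, ?_⟩
    have h3 : ((a : ℤ) : ℝ) ≤ ((2 * K : ℤ) : ℝ) := by exact_mod_cast h2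
    simpa [Qf] using h3
  | cons j l ih =>
    obtain ⟨h1, h2⟩ := hV
    obtain ⟨p1, q1⟩ := ih a h1
    obtain ⟨p2, q2⟩ := ih (a + j) h2
    refine ⟨mul_pos p1 p2, ?_⟩
    have p2' : (0 : ℝ) ≤ (Qf l (a + j) : ℝ) := by exact_mod_cast p2.le
    have p1' : (0 : ℝ) ≤ (Qf l a : ℝ) := by exact_mod_cast p1.le
    have e : (Qf (j :: l) a : ℝ) = (Qf l a : ℝ) * (Qf l (a + j) : ℝ) := by
      show (((Qf l a * Qf l (a + j) : ℤ)) : ℝ) = _
      push_cast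
      rfl
    rw [e, List.length_cons, pow_succ, pow_mul, sq]
    exact mul_le_mul q1 q2 p2' (p1'.trans q1)

/-- Auxiliary: products of two approximations. -/
theorem a4_prod (U1 U2 u1 u2 e1 e2 : ℂ) (δ1 δ2 : ℝ) (h1 : ‖U1 - e1 * u1‖ ≤ δ1) (h2 : ‖U2 - e2 * u2‖ ≤ δ2)
    (hU2 : ‖U2‖ ≤ 1) (hu1 : ‖u1‖ ≤ 1) (he1 : ‖e1‖ = 1) :
    ‖U1 * (starRingEnd ℂ) U2 - (e1 * (starRingEnd ℂ) e2) * (u1 * (starRingEnd ℂ) u2)‖ ≤ δ1 + δ2 := by
  have e : U1 * (starRingEnd ℂ) U2 - (e1 * (starRingEnd ℂ) e2) * (u1 * (starRingEnd ℂ) u2) =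
      (U1 - e1 * u1) * (starRingEnd ℂ) U2 + (e1 * u1) * (starRingEnd ℂ) (U2 - e2 * u2) := by
    rw [map_sub, map_mul]
    ring
  rw [e]
  refine (norm_add_le _ _).trans (add_le_add ?_ ?_)
  · rw [norm_mul, Complex.norm_conj]
    calc ‖U1 - e1 * u1‖ * ‖U2‖ ≤ ‖U1 - e1 * u1‖ * 1 := mul_le_mul_of_nonneg_left hU2 (norm_nonneg _)
      _ ≤ δ1 := by rw [mul_one]; exact h1
  · rw [norm_mul, Complex.norm_conj, norm_mul, he1, one_mul]
    calc ‖u1‖ * ‖U2 - e2 * u2‖ ≤ 1 * ‖U2 - e2 * u2‖ := mul_le_mul_of_nonneg_right hu1 (norm_nonneg _)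
      _ ≤ δ2 := by rw [one_mul]; exact h2

/-- Proof by induction on `L`. `U = DL L c`, `DL ((σ, j) :: L) c (z, a) = U (z, a) * conj U (z + σ, a + j)` (`DL_DD`). With `Q = Qf l a`, `Q' = Qf l (a + j)`,
`Qf (j :: l) a = Q Q'`: the translation by `Q Q' k` is `Q (Q' k)` for the first and `Q' (Q k)` for the second factor; the phases are
`ee(ψ Df l a Q' k)`, `ee(ψ Df l (a+j) Q k)`, the quotient is `ee(ψ Df (j :: l) a k)`; the errors `2^|l| (Q' k) Q/(K H)` and `2^|l| (Q k) Q'/(K H)`, all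
functions are bounded by `1`. Base: `k/H ≤ k a/(K H)`. -/
theorem A4_qp (X K H : ℕ) (hK : 1 ≤ K) (hH : 1 ≤ H) (ψ : ℝ) (c : ℤ × ℤ → ℂ) (hc : QP X K H ψ c) (L : List (ℤ × ℤ)) (a : ℤ)
    (hV : Vt K (L.map Prod.snd) a) (z : ℤ) (k : ℕ) :
    ‖DL L c (z + Qf (L.map Prod.snd) a * k, a) - ee (ψ * (Df (L.map Prod.snd) a * k)) * DL L c (z, a)‖ ≤
      2 ^ L.length * (k * Qf (L.map Prod.snd) a) / (K * H) := by
  induction L generalizing a z k with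
  | nil =>
    obtain ⟨h1, h2⟩ := hV
    have h3 := hc.qp z a k h1 h2
    have hK' : (0 : ℝ) < K := by exact_mod_cast hK
    have hH' : (0 : ℝ) < H := by exact_mod_cast hH
    have ha : (K : ℝ) ≤ (a : ℝ) := by exact_mod_cast h1.le
    have e1 : ψ * (((Df (List.map Prod.snd ([] : List (ℤ × ℤ))) a : ℤ) : ℝ) * (k : ℝ)) = ψ * k := by
      simp [Df]
    rw [e1]
    refine h3.trans ?_
    show (k : ℝ) / H ≤ 2 ^ 0 * (k * (a : ℝ)) / (K * H)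
    rw [pow_zero, one_mul, div_le_div_iff₀ hH' (mul_pos hK' hH')]
    have hk : (0 : ℝ) ≤ k := Nat.cast_nonneg k
    have := mul_le_mul_of_nonneg_left ha (mul_nonneg hk hH'.le)
    nlinarith
  | cons p L ih =>
    obtain ⟨h1, h2⟩ := hV
    set l := L.map Prod.snd with hl
    obtain ⟨p1, -⟩ := A4_pos K l a h1
    obtain ⟨p2, -⟩ := A4_pos K l (a + p.2) h2
    obtain ⟨Q, hQ⟩ : ∃ Q : ℕ, (Q : ℤ) = Qf l a := ⟨(Qf l a).toNat, Int.toNat_of_nonneg p1.le⟩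
    obtain ⟨Q', hQ'⟩ : ∃ Q' : ℕ, (Q' : ℤ) = Qf l (a + p.2) := ⟨(Qf l (a + p.2)).toNat, Int.toNat_of_nonneg p2.le⟩
    have i1 := ih a h1 z (Q' * k)
    have i2 := ih (a + p.2) h2 (z + p.1) (Q * k)
    have eQ : Qf (List.map Prod.snd (p :: L)) a = Qf l a * Qf l (a + p.2) := rfl
    have eD : Df (List.map Prod.snd (p :: L)) a = Df l a * Qf l (a + p.2) - Df l (a + p.2) * Qf l a := rfl
    rw [a4_cons, a4_cons, eQ, eD, List.length_cons]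
    rw [← hQ] at i1 ⊢
    rw [← hQ'] at i2 ⊢
    have z1 : z + (Q : ℤ) * ((Q' * k : ℕ) : ℤ) = z + (Q : ℤ) * (Q' : ℤ) * (k : ℤ) := by push_cast; ring
    have z2 : z + p.1 + (Q' : ℤ) * ((Q * k : ℕ) : ℤ) = z + (Q : ℤ) * (Q' : ℤ) * (k : ℤ) + p.1 := by push_cast; ring
    rw [z1] at i1
    rw [z2] at i2
    have hP := a4_prod _ _ _ _ _ _ _ _ i1 i2 (DL_norm L c hc.le _) (DL_norm L c hc.le _)
      (Pool.Agent.H44W.norm_ee _)
    rw [← Pool.Agent.H44W.ee_neg, ← Pool.Agent.H44W.ee_add] at hP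
    have e1 : ψ * (((Df l a : ℤ) : ℝ) * ((Q' * k : ℕ) : ℝ)) + -(ψ * (((Df l (a + p.2) : ℤ) : ℝ) * ((Q * k : ℕ) : ℝ))) =
        ψ * (((Df l a * (Q' : ℤ) - Df l (a + p.2) * (Q : ℤ) : ℤ) : ℝ) * (k : ℝ)) := by
      push_cast
      ring
    have e2 : 2 ^ L.length * (((Q' * k : ℕ) : ℝ) * (((Q : ℤ)) : ℝ)) / ((K : ℝ) * H) +
        2 ^ L.length * (((Q * k : ℕ) : ℝ) * (((Q' : ℤ)) : ℝ)) / ((K : ℝ) * H) =
        2 ^ (L.length + 1) * ((k : ℝ) * (((Q : ℤ) * (Q' : ℤ) : ℤ) : ℝ)) / ((K : ℝ) * H) := by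
      push_cast
      ring
    rw [e1, e2] at hP
    exact hP

end Pool.Agent.HUK
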