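import Pool.Agent.Lib.HUK.A8a
import Pool.Agent.Lib.H84V.V3

/-!
# Project HUK, A8b (helper37): Vinogradov's lemma for integer functions of degree at most `d`
-/

open Finset

namespace Pool.Agent.HUK

open Pool.Agent.Lib.H84V (nd nd_sub_le vino nd_nonneg)

open Classical in
/-- pairs of elements of `S ⊆ [0, L)` by their difference. -/
theorem av_pairs (L : ℕ) (S : Finset ℕ) (hS : S ⊆ range L) :
    ∑ h ∈ Ioo (-(L : ℤ)) L, ((range L).filter fun k : ℕ => k ∈ S ∧ ∃ k' ∈ S, (k' : ℤ) = k + h).card = S.card ^ 2 := by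
  rw [sq, ← Finset.card_product]
  rw [Finset.card_eq_sum_card_fiberwise (s := S ×ˢ S) (t := Ioo (-(L : ℤ)) L) (f := fun p : ℕ × ℕ => (p.2 : ℤ) - p.1)]
  · refine Finset.sum_congr rfl fun h _ => ?_
    refine Finset.card_bij' (fun k _ => (k, ((k : ℤ) + h).toNat)) (fun p _ => p.1) ?_ ?_ ?_ ?_
    · intro k hk
      rw [mem_filter] at hk
      obtain ⟨_, hk1, k', hk', he⟩ := hk
      rw [mem_filter, mem_product]
      have h1 : ((k : ℤ) + h).toNat = k' := by omega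
      refine ⟨⟨hk1, ?_⟩, ?_⟩
      · simp only [h1]
        exact hk'
      · simp only [h1]
        omega
    · intro p hp
      rw [mem_filter, mem_product] at hp
      rw [mem_filter]
      exact ⟨hS hp.1.1, hp.1.1, p.2, hp.1.2, by omega⟩
    · intro k _
      rfl
    · intro p hp
      rw [mem_filter, mem_product] at hp
      refine Prod.ext rfl ?_
      simp only
      omega
  · intro p hp
    rw [mem_coe, mem_product] at hp
    have h1 := mem_range.1 (hS hp.1)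
    have h2 := mem_range.1 (hS hp.2)
    have h3 : ((p.2 : ℤ) - p.1) ∈ Ioo (-(L : ℤ)) L := by
      rw [mem_Ioo]
      omega
    exact mem_coe.2 h3

open Classical in
/-- Many differences occur often. -/
theorem av_many (L : ℕ) (hL : 1 ≤ L) (δ : ℝ) (hδ : 0 < δ) (S : Finset ℕ) (hS : S ⊆ range L) (hc : δ * L ≤ S.card) :
    δ ^ 2 / 2 * L ≤ (((Ioo (-(L : ℤ)) L).filter fun h : ℤ => δ ^ 2 / 4 * L ≤
      (((range L).filter fun k : ℕ => k ∈ S ∧ ∃ k' ∈ S, (k' : ℤ) = k + h).card : ℝ)).card : ℝ) := by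
  have hLr : (1 : ℝ) ≤ L := by exact_mod_cast hL
  have h1 : ∑ h ∈ Ioo (-(L : ℤ)) L,
      (((range L).filter fun k : ℕ => k ∈ S ∧ ∃ k' ∈ S, (k' : ℤ) = k + h).card : ℝ) = (S.card : ℝ) ^ 2 := by
    exact_mod_cast av_pairs L S hS
  obtain ⟨r, hr⟩ : ∃ r : ℤ → ℝ, ∀ h, r h =
    (((range L).filter fun k : ℕ => k ∈ S ∧ ∃ k' ∈ S, (k' : ℤ) = k + h).card : ℝ) := ⟨_, fun _ => rfl⟩
  simp only [← hr] at h1 ⊢
  have hrL : ∀ h, r h ≤ L := by
    intro h
    rw [hr]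
    have h2 : ((range L).filter fun k : ℕ => k ∈ S ∧ ∃ k' ∈ S, (k' : ℤ) = k + h).card ≤ L :=
      (Finset.card_filter_le _ _).trans (card_range L).le
    exact_mod_cast h2
  have h3 : ∑ h ∈ Ioo (-(L : ℤ)) L, r h ≤
      (((Ioo (-(L : ℤ)) L).filter fun h : ℤ => δ ^ 2 / 4 * L ≤ r h).card : ℝ) * L + (2 * L) * (δ ^ 2 / 4 * L) := by
    rw [← Finset.sum_filter_add_sum_filter_not _ (fun h : ℤ => δ ^ 2 / 4 * L ≤ r h)]
    refine add_le_add ?_ ?_
    · rw [← nsmul_eq_mul]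
      exact Finset.sum_le_card_nsmul _ _ _ fun h _ => hrL h
    · have h4 : ∑ h ∈ (Ioo (-(L : ℤ)) L).filter (fun h : ℤ => ¬ δ ^ 2 / 4 * L ≤ r h), r h ≤
          ((Ioo (-(L : ℤ)) L).filter (fun h : ℤ => ¬ δ ^ 2 / 4 * L ≤ r h)).card • (δ ^ 2 / 4 * L) :=
        Finset.sum_le_card_nsmul _ _ _ fun h hh => (not_le.1 (mem_filter.1 hh).2).le
      refine h4.trans ?_
      rw [nsmul_eq_mul]
      refine mul_le_mul_of_nonneg_right ?_ (by positivity)
      have h5 : ((Ioo (-(L : ℤ)) L).filter (fun h : ℤ => ¬ δ ^ 2 / 4 * L ≤ r h)).card ≤ 2 * L := by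
        refine (Finset.card_filter_le _ _).trans ?_
        rw [Int.card_Ioo]
        omega
      exact_mod_cast h5
  rw [h1] at h3
  have h6 : (δ * L) ^ 2 ≤ (S.card : ℝ) ^ 2 := pow_le_pow_left₀ (by positivity) hc 2
  have h7 : δ ^ 2 / 2 * L * L ≤ (((Ioo (-(L : ℤ)) L).filter fun h : ℤ => δ ^ 2 / 4 * L ≤ r h).card : ℝ) * L := by
    nlinarith
  exact le_of_mul_le_mul_right h7 (by linarith)

/-- Pigeonhole for a function with values in `[1, B]`. -/
theorem av_pigeon (T : Finset ℤ) (f : ℤ → ℕ) (B : ℝ) (hB : 1 ≤ B) (hT : 0 < T.card)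
    (hf : ∀ h ∈ T, 1 ≤ f h ∧ (f h : ℝ) ≤ B) : ∃ q : ℕ, 1 ≤ q ∧ (q : ℝ) ≤ B ∧ (T.card : ℝ) / B ≤ ((T.filter fun h => f h = q).card : ℝ) := by
  have hB0 : 0 < B := by linarith
  obtain ⟨n, hn⟩ : ∃ n : ℕ, n = ⌊B⌋₊ := ⟨_, rfl⟩
  have hn1 : 1 ≤ n := by
    rw [hn]
    exact Nat.le_floor (by exact_mod_cast hB)
  have hnB : (n : ℝ) ≤ B := by
    rw [hn]
    exact Nat.floor_le hB0.le
  have hmaps : ∀ h ∈ T, f h ∈ Icc 1 n := by
    intro h hh
    rw [mem_Icc, hn]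
    exact ⟨(hf h hh).1, Nat.le_floor (hf h hh).2⟩
  by_contra hcon
  push Not at hcon
  have h1 : ∀ q ∈ Icc 1 n, (((T.filter fun h => f h = q).card : ℕ) : ℝ) < (T.card : ℝ) / B := by
    intro q hq
    rw [mem_Icc] at hq
    refine hcon q hq.1 (le_trans ?_ hnB)
    exact_mod_cast hq.2
  have h2 := Finset.card_eq_sum_card_fiberwise (s := T) (t := Icc 1 n) (f := f) (fun h hh => hmaps h hh)
  have h3 : (T.card : ℝ) = ∑ q ∈ Icc 1 n, (((T.filter fun h => f h = q).card : ℕ) : ℝ) := by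
    exact_mod_cast h2
  have h4 : ∑ q ∈ Icc 1 n, (((T.filter fun h => f h = q).card : ℕ) : ℝ) < ∑ _q ∈ Icc 1 n, (T.card : ℝ) / B := by
    refine Finset.sum_lt_sum_of_nonempty ?_ h1
    exact ⟨1, mem_Icc.2 ⟨le_rfl, hn1⟩⟩
  rw [← h3, Finset.sum_const, Nat.card_Icc, nsmul_eq_mul, Nat.add_sub_cancel] at h4
  have h5 : (n : ℝ) * ((T.card : ℝ) / B) ≤ B * ((T.card : ℝ) / B) := mul_le_mul_of_nonneg_right hnB (by positivity)
  rw [mul_div_cancel₀ _ hB0.ne'] at h5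
  linarith

open Classical in
/-- Vinogradov's lemma for functions of degree at most `d`. -/
theorem av_main (d : ℕ) : ∃ C : ℕ, ∀ δ : ℝ, 0 < δ → δ ≤ 1 / 2 → ∀ L : ℕ, (1 / δ) ^ C ≤ L → ∀ (c : ℤ) (P : ℤ → ℤ) (ψ ε : ℝ),
    PF d c P → 0 ≤ ε → ε ≤ δ ^ C → δ * L ≤ (((range L).filter fun k : ℕ => nd (ψ * P k) ≤ ε).card : ℝ) →
    ∃ q : ℕ, 1 ≤ q ∧ (q : ℝ) ≤ (1 / δ) ^ C ∧ nd (q * (c * ψ)) ≤ (1 / δ) ^ C * ε / (L : ℝ) ^ d := by
  induction d with
  | zero =>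
    refine ⟨1, fun δ hδ hδ2 L hL c P ψ ε hP hε _ hcard => ?_⟩
    have hδi : 2 ≤ 1 / δ := by
      rw [le_div_iff₀ hδ]
      linarith
    have hL0 : (0 : ℝ) < L := by
      rw [pow_one] at hL
      linarith
    have h1 : (0 : ℝ) < (((range L).filter fun k : ℕ => nd (ψ * P k) ≤ ε).card : ℝ) :=
      lt_of_lt_of_le (by positivity) hcard
    have h2 : 0 < ((range L).filter fun k : ℕ => nd (ψ * P k) ≤ ε).card := by exact_mod_cast h1
    obtain ⟨k, hk⟩ := Finset.card_pos.1 h2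
    rw [mem_filter, hP] at hk
    refine ⟨1, le_rfl, by rw [pow_one]; push_cast; linarith, ?_⟩
    rw [Nat.cast_one, one_mul, mul_comm, pow_zero, div_one, pow_one]
    refine hk.2.trans ?_
    nlinarith
  | succ d ih =>
    obtain ⟨C, hC⟩ := ih
    refine ⟨12 * C + d + 20, fun δ hδ hδ2 L hL c P ψ ε hP hε hεδ hcard => ?_⟩
    have hδi : 2 ≤ 1 / δ := by
      rw [le_div_iff₀ hδ]
      linarith
    have hδi1 : 1 ≤ 1 / δ := by linarith
    have hδ1 : δ ≤ 1 := by linarith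
    have hmono : ∀ a b : ℕ, a ≤ b → (1 / δ) ^ a ≤ (1 / δ) ^ b := fun a b hab => pow_le_pow_right₀ hδi1 hab
    have hmono' : ∀ a b : ℕ, a ≤ b → δ ^ b ≤ δ ^ a := fun a b hab => pow_le_pow_of_le_one hδ.le hδ1 hab
    have hLr1 : (1 : ℝ) ≤ L := (one_le_pow₀ hδi1).trans hL
    have hL1 : 1 ≤ L := by exact_mod_cast hLr1
    have hL0 : (0 : ℝ) < L := by linarith
    obtain ⟨δ1, hδ1d⟩ : ∃ δ1 : ℝ, δ1 = δ ^ 2 / 4 := ⟨_, rfl⟩
    have hδ1p : 0 < δ1 := by rw [hδ1d]; positivity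
    have hδ1h : δ1 ≤ 1 / 2 := by
      rw [hδ1d]
      nlinarith
    have hδ1le1 : δ1 ≤ 1 := by linarith
    have hδ14 : δ ^ 4 ≤ δ1 := by
      rw [hδ1d]
      have h1 : δ ^ 2 ≤ 1 / 4 := by nlinarith
      have h2 : δ ^ 4 = δ ^ 2 * δ ^ 2 := by ring
      rw [h2]
      nlinarith [sq_nonneg δ]
    have hδ1i : 1 / δ1 ≤ (1 / δ) ^ 4 := by
      rw [one_div, one_div, inv_pow]
      exact inv_anti₀ (by positivity) hδ14
    have hδ1i1 : 1 ≤ 1 / δ1 := by
      rw [le_div_iff₀ hδ1p]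
      linarith
    have hinvpow : ∀ n : ℕ, (1 / δ1) ^ n ≤ (1 / δ) ^ (4 * n) := by
      intro n
      rw [pow_mul]
      exact pow_le_pow_left₀ (by positivity) hδ1i n
    have hpowδ1 : ∀ n : ℕ, δ ^ (4 * n) ≤ δ1 ^ n := by
      intro n
      rw [pow_mul]
      exact pow_le_pow_left₀ (by positivity) hδ14 n
    -- the set of differences
    obtain ⟨S, hSd⟩ : ∃ S : Finset ℕ, S = (range L).filter fun k : ℕ => nd (ψ * P k) ≤ ε := ⟨_, rfl⟩
    rw [← hSd] at hcard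
    have hS : S ⊆ range L := by
      rw [hSd]
      exact Finset.filter_subset _ _
    obtain ⟨T, hTd⟩ : ∃ T : Finset ℤ, T = (Ioo (-(L : ℤ)) L).filter fun h : ℤ => δ ^ 2 / 4 * L ≤
      (((range L).filter fun k : ℕ => k ∈ S ∧ ∃ k' ∈ S, (k' : ℤ) = k + h).card : ℝ) := ⟨_, rfl⟩
    have hT := av_many L hL1 δ hδ S hS hcard
    rw [← hTd] at hT
    -- the induction hypothesis for each difference
    have hε2 : 2 * ε ≤ δ1 ^ C := by
      have h1 : 2 * ε ≤ (1 / δ) * δ ^ (12 * C + d + 20) := mul_le_mul hδi hεδ hε (by positivity)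
      have h2 : (1 / δ) * δ ^ (12 * C + d + 20) = δ ^ (12 * C + d + 19) := by
        rw [show 12 * C + d + 20 = 12 * C + d + 19 + 1 by ring, pow_succ]
        field_simp
      rw [h2] at h1
      exact h1.trans ((hmono' (4 * C) _ (by omega)).trans (hpowδ1 C))
    have hq : ∀ h : ℤ, h ∈ T → ∃ q : ℕ, 1 ≤ q ∧ (q : ℝ) ≤ (1 / δ1) ^ C ∧
        nd (q * ((((((d : ℤ) + 1) * h * c : ℤ) : ℝ)) * ψ)) ≤ (1 / δ1) ^ C * (2 * ε) / (L : ℝ) ^ d := by
      intro h hh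
      rw [hTd, mem_filter] at hh
      refine hC δ1 hδ1p hδ1h L (((hinvpow C).trans (hmono _ _ (by omega))).trans hL) _ _ ψ (2 * ε) (hP h) (by linarith) hε2 ?_
      rw [hδ1d]
      refine hh.2.trans ?_
      have h3 : ((range L).filter fun k : ℕ => k ∈ S ∧ ∃ k' ∈ S, (k' : ℤ) = k + h) ⊆
          (range L).filter fun k : ℕ => nd (ψ * ((P (k + h) - P k : ℤ) : ℝ)) ≤ 2 * ε := by
        intro k hk
        rw [mem_filter] at hk ⊢
        obtain ⟨hk0, hk1, k', hk', he⟩ := hk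
        refine ⟨hk0, ?_⟩
        rw [hSd, mem_filter] at hk1 hk'
        rw [← he]
        push_cast
        rw [mul_sub]
        refine (nd_sub_le _ _).trans ?_
        linarith [hk1.2, hk'.2]
      exact_mod_cast Finset.card_le_card h3
    obtain ⟨f, hf⟩ : ∃ f : ℤ → ℕ, ∀ h ∈ T, 1 ≤ f h ∧ (f h : ℝ) ≤ (1 / δ1) ^ C ∧
        nd (f h * ((((((d : ℤ) + 1) * h * c : ℤ) : ℝ)) * ψ)) ≤ (1 / δ1) ^ C * (2 * ε) / (L : ℝ) ^ d := by
      refine ⟨fun h => if hh : h ∈ T then (hq h hh).choose else 1, fun h hh => ?_⟩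
      simp only [dif_pos hh]
      exact (hq h hh).choose_spec
    have hTpos : 0 < T.card := by
      have h1 : (0 : ℝ) < T.card := lt_of_lt_of_le (by positivity) hT
      exact_mod_cast h1
    obtain ⟨q, hq1, hqB, hqc⟩ := av_pigeon T f ((1 / δ1) ^ C) (one_le_pow₀ hδ1i1) hTpos
      (fun h hh => ⟨(hf h hh).1, (hf h hh).2.1⟩)
    -- linear Vinogradov
    obtain ⟨η, hηd⟩ : ∃ η : ℝ, η = δ1 ^ (C + 1) := ⟨_, rfl⟩
    have hη : 0 < η := by rw [hηd]; positivity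
    have hη1 : η ≤ 1 := by
      rw [hηd]
      exact pow_le_one₀ hδ1p.le hδ1le1
    have hLd : (1 : ℝ) ≤ (L : ℝ) ^ d := one_le_pow₀ hLr1
    have hε2n : 0 ≤ (1 / δ1) ^ C * (2 * ε) / (L : ℝ) ^ d := by positivity
    have hε2le : (1 / δ1) ^ C * (2 * ε) / (L : ℝ) ^ d ≤ η / 16 := by
      have h1 : (1 / δ1) ^ C * (2 * ε) / (L : ℝ) ^ d ≤ (1 / δ1) ^ C * (2 * ε) :=
        div_le_self (by positivity) hLd
      refine h1.trans ?_
      have h2 : (1 / δ1) ^ C * (2 * ε) ≤ (1 / δ1) ^ C * (2 * (δ1 ^ (2 * C + 1) * δ ^ 5)) := by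
        refine mul_le_mul_of_nonneg_left ?_ (by positivity)
        refine mul_le_mul_of_nonneg_left ?_ (by norm_num)
        refine hεδ.trans ?_
        calc δ ^ (12 * C + d + 20) ≤ δ ^ (4 * (2 * C + 1) + 5) := hmono' _ _ (by omega)
          _ = δ ^ (4 * (2 * C + 1)) * δ ^ 5 := pow_add _ _ _
          _ ≤ δ1 ^ (2 * C + 1) * δ ^ 5 := mul_le_mul_of_nonneg_right (hpowδ1 _) (by positivity)
      refine h2.trans ?_
      have h3 : (1 / δ1) ^ C * (2 * (δ1 ^ (2 * C + 1) * δ ^ 5)) = η * (2 * δ ^ 5) := by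
        rw [hηd, show 2 * C + 1 = C + (C + 1) by ring, pow_add δ1 C (C + 1), one_div, inv_pow]
        field_simp
      rw [h3]
      have h4 : δ ^ 5 ≤ 1 / 32 := by
        calc δ ^ 5 ≤ (1 / 2) ^ 5 := pow_le_pow_left₀ hδ.le hδ2 5
          _ = 1 / 32 := by norm_num
      nlinarith
    have h24 : 24 / η ^ 2 ≤ ((2 * L : ℕ) : ℝ) := by
      push_cast
      rw [div_le_iff₀ (by positivity), hηd]
      have h1 : (1 / δ) ^ (4 * (2 * (C + 1)) + 4) ≤ L := (hmono _ _ (by omega)).trans hL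
      have h2 : (16 : ℝ) ≤ (1 / δ) ^ 4 := by
        calc (16 : ℝ) = 2 ^ 4 := by norm_num
          _ ≤ (1 / δ) ^ 4 := pow_le_pow_left₀ (by norm_num) hδi 4
      have h3 : (1 / δ1) ^ (2 * (C + 1)) * 16 ≤ L := by
        refine le_trans ?_ h1
        rw [pow_add]
        exact mul_le_mul (hinvpow _) h2 (by norm_num) (by positivity)
      have h4 : (δ1 ^ (C + 1)) ^ 2 * (1 / δ1) ^ (2 * (C + 1)) = 1 := by
        rw [← pow_mul, mul_comm (C + 1) 2, ← mul_pow, mul_one_div_cancel hδ1p.ne', one_pow]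
      have h5 : 16 ≤ (L : ℝ) * (δ1 ^ (C + 1)) ^ 2 := by
        calc (16 : ℝ) = (1 / δ1) ^ (2 * (C + 1)) * 16 * (δ1 ^ (C + 1)) ^ 2 := by
              rw [show (1 / δ1) ^ (2 * (C + 1)) * 16 * (δ1 ^ (C + 1)) ^ 2 =
                16 * ((δ1 ^ (C + 1)) ^ 2 * (1 / δ1) ^ (2 * (C + 1))) by ring, h4, mul_one]
          _ ≤ L * (δ1 ^ (C + 1)) ^ 2 := mul_le_mul_of_nonneg_right h3 (by positivity)
      linarith
    have hcardη : η * ((2 * L : ℕ) : ℝ) ≤ ((T.filter fun h => f h = q).card : ℝ) := by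
      refine le_trans ?_ hqc
      rw [le_div_iff₀ (by positivity), hηd]
      push_cast
      have h1 : δ1 ^ (C + 1) * (2 * (L : ℝ)) * (1 / δ1) ^ C = δ1 * (2 * L) := by
        rw [pow_succ]
        have h2 : δ1 ^ C * (1 / δ1) ^ C = 1 := by
          rw [← mul_pow, mul_one_div_cancel hδ1p.ne', one_pow]
        calc δ1 ^ C * δ1 * (2 * (L : ℝ)) * (1 / δ1) ^ C = δ1 * (2 * L) * (δ1 ^ C * (1 / δ1) ^ C) := by ring
          _ = _ := by rw [h2, mul_one]
      rw [h1, hδ1d]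
      refine le_trans (le_of_eq ?_) hT
      ring
    have hsub : (T.filter fun h => f h = q) ⊆ Finset.Ico (-(L : ℤ)) (-(L : ℤ) + ((2 * L : ℕ) : ℤ)) := by
      intro h hh
      have h1 := (mem_filter.1 hh).1
      rw [hTd, mem_filter, mem_Ioo] at h1
      rw [mem_Ico]
      push_cast
      omega
    obtain ⟨q', hq'1, hq'2, hq'3⟩ := vino (N := 2 * L) (a := -(L : ℤ)) (α := q * (((d : ℝ) + 1) * (c * ψ))) (β := 0)
      hη hη1 hε2n hε2le h24 (T.filter fun h => f h = q) hsub hcardη (by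
        intro w hw
        rw [mem_filter] at hw
        have h1 := (hf w hw.1).2.2
        rw [hw.2] at h1
        push_cast at h1
        rw [add_zero]
        rw [show (w : ℝ) * (q * (((d : ℝ) + 1) * (c * ψ))) = q * (((d : ℝ) + 1) * w * c * ψ) by ring]
        exact h1)
    refine ⟨q' * q * (d + 1), ?_, ?_, ?_⟩
    · exact Nat.succ_le_of_lt (Nat.mul_pos (Nat.mul_pos hq'1 hq1) (Nat.succ_pos d))
    · push_cast
      have h1 : 2 / η ≤ (1 / δ) ^ (1 + 4 * (C + 1)) := by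
        rw [pow_add, pow_one, hηd, div_eq_mul_inv, ← inv_pow, ← one_div]
        exact mul_le_mul hδi (hinvpow _) (by positivity) (by positivity)
      have h2 : (d : ℝ) + 1 ≤ (1 / δ) ^ (d + 1) := by
        have h3 : (d : ℝ) + 1 ≤ 2 ^ (d + 1) := by
          have h4 : d + 1 < 2 ^ (d + 1) := Nat.lt_two_pow_self
          exact_mod_cast h4.le
        exact h3.trans (pow_le_pow_left₀ (by norm_num) hδi _)
      calc (q' : ℝ) * q * ((d : ℝ) + 1) ≤ (1 / δ) ^ (1 + 4 * (C + 1)) * (1 / δ) ^ (4 * C) * (1 / δ) ^ (d + 1) := by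
            refine mul_le_mul (mul_le_mul (hq'2.trans h1) (hqB.trans (hinvpow C)) (by positivity) (by positivity)) h2
              (by positivity) (by positivity)
        _ = (1 / δ) ^ (1 + 4 * (C + 1) + 4 * C + (d + 1)) := by rw [← pow_add, ← pow_add]
        _ ≤ _ := hmono _ _ (by omega)
    · push_cast
      rw [show (q' : ℝ) * q * ((d : ℝ) + 1) * (c * ψ) = q' * (q * (((d : ℝ) + 1) * (c * ψ))) by ring]
      refine hq'3.trans ?_
      push_cast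
      have h1 : 16 * ((1 / δ1) ^ C * (2 * ε) / (L : ℝ) ^ d) / (η ^ 2 * (2 * L)) =
          16 * ((1 / δ1) ^ C * (1 / η) ^ 2) * ε / (L : ℝ) ^ (d + 1) := by
        rw [pow_succ (L : ℝ) d]
        field_simp
      rw [h1]
      refine div_le_div_of_nonneg_right ?_ (by positivity)
      refine mul_le_mul_of_nonneg_right ?_ hε
      have h2 : (1 / η) ^ 2 ≤ (1 / δ) ^ (4 * (2 * (C + 1))) := by
        rw [hηd, one_div, ← inv_pow, ← one_div, ← pow_mul, mul_comm (C + 1) 2]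
        exact hinvpow _
      have h3 : (16 : ℝ) ≤ (1 / δ) ^ 4 := by
        calc (16 : ℝ) = 2 ^ 4 := by norm_num
          _ ≤ (1 / δ) ^ 4 := pow_le_pow_left₀ (by norm_num) hδi 4
      calc 16 * ((1 / δ1) ^ C * (1 / η) ^ 2) ≤ (1 / δ) ^ 4 * ((1 / δ) ^ (4 * C) * (1 / δ) ^ (4 * (2 * (C + 1)))) := by
            refine mul_le_mul h3 (mul_le_mul (hinvpow C) h2 (by positivity) (by positivity)) (by positivity) (by positivity)
        _ = (1 / δ) ^ (4 + (4 * C + 4 * (2 * (C + 1)))) := by rw [← pow_add, ← pow_add]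
        _ ≤ _ := hmono _ _ (by omega)

end Pool.Agent.HUK
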