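import Pool.Agent.Lib.HUK.BDefs
import Mathlib.NumberTheory.Chebyshev

/-!
# HUK B01 (M, only Mathlib): the reciprocals of the primes in `(A, 4A]`

PROOF. `θ(x) = ∑_{p ≤ x} log p` (`Chebyshev.theta`). Mathlib: `Chebyshev.theta_ge (n) : n log 2 - log (n+1) - 2 √n log n ≤ θ n`
and `Chebyshev.theta_le_log4_mul_x : θ x ≤ log 4 * x`. So
`∑_{p ∈ PA A} log p = θ(4A) - θ(A) ≥ 4A log 2 - log(4A+1) - 2 √(4A) log(4A) - 2A log 2 = 2A log 2 - small ≥ A` for large `A`
(`2 log 2 > 1.38`). Every `p ∈ PA A` has `log p ≤ log(4A)` and `1/p ≥ 1/(4A)`, so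
`SA A ≥ ∑ log p /(4A log(4A)) ≥ 1/(4 log (4A)) ≥ 1/(8 log(4A))`.
-/

open Finset

namespace Pool.Agent.HUK

theorem b01_split (A : ℕ) : Chebyshev.theta ((4 * A : ℕ) : ℝ) =
    Chebyshev.theta (A : ℝ) + ∑ p ∈ PA A, Real.log p := by
  unfold Chebyshev.theta PA
  rw [Nat.floor_natCast, Nat.floor_natCast, Finset.sum_filter, Finset.sum_filter,
    Finset.sum_filter, Finset.sum_Ioc_consecutive _ (Nat.zero_le _) (by omega)]

theorem b01_small : ∃ X0 : ℝ, 1 ≤ X0 ∧ ∀ x : ℝ, X0 ≤ x →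
    Real.log (x + 1) + 2 * √x * Real.log x ≤ 1 + 3 / 100 * x := by
  have h1 := (isLittleO_log_rpow_atTop (r := (1 / 4 : ℝ)) (by norm_num)).def
    (c := 1 / 100) (by norm_num)
  rw [Filter.eventually_atTop] at h1
  obtain ⟨X1, hX1⟩ := h1
  refine ⟨max X1 1, le_max_right _ _, fun x hx => ?_⟩
  have hx1 : 1 ≤ x := le_trans (le_max_right _ _) hx
  have hx0 : 0 < x := by linarith
  have h2 := hX1 x (le_trans (le_max_left _ _) hx)
  rw [Real.norm_eq_abs, Real.norm_eq_abs, abs_of_nonneg (Real.log_nonneg hx1),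
    abs_of_nonneg (Real.rpow_nonneg hx0.le _)] at h2
  have h3 : x ^ (1 / 4 : ℝ) ≤ x := by
    calc x ^ (1 / 4 : ℝ) ≤ x ^ (1 : ℝ) := Real.rpow_le_rpow_of_exponent_le hx1 (by norm_num)
      _ = x := Real.rpow_one x
  have h4 : √x * x ^ (1 / 4 : ℝ) ≤ x := by
    rw [Real.sqrt_eq_rpow, ← Real.rpow_add hx0]
    calc x ^ (1 / 2 + 1 / 4 : ℝ) ≤ x ^ (1 : ℝ) :=
          Real.rpow_le_rpow_of_exponent_le hx1 (by norm_num)
      _ = x := Real.rpow_one x
  have h5 : √x * Real.log x ≤ 1 / 100 * x := by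
    calc √x * Real.log x ≤ √x * (1 / 100 * x ^ (1 / 4 : ℝ)) :=
          mul_le_mul_of_nonneg_left h2 (Real.sqrt_nonneg _)
      _ = 1 / 100 * (√x * x ^ (1 / 4 : ℝ)) := by ring
      _ ≤ 1 / 100 * x := by linarith
  have h6 : Real.log (x + 1) ≤ 1 + Real.log x := by
    have h7 : Real.log (x + 1) ≤ Real.log (2 * x) := Real.log_le_log (by linarith) (by linarith)
    rw [Real.log_mul (by norm_num) hx0.ne'] at h7
    have h8 := Real.log_two_lt_d9
    linarith
  linarith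

/-- For large `A` the sum of the reciprocals of the primes in `(A, 4A]` is at least `1/(8 log 4A)`. -/
theorem b01_sa : ∃ A0 : ℕ, 2 ≤ A0 ∧ ∀ A : ℕ, A0 ≤ A → 1 / (8 * Real.log (4 * A)) ≤ SA A := by
  obtain ⟨X0, hX0, hX⟩ := b01_small
  refine ⟨max ⌈X0⌉₊ 10, le_trans (by norm_num) (le_max_right _ _), fun A hA => ?_⟩
  have hA10 : 10 ≤ A := le_trans (le_max_right _ _) hA
  have hA10' : (10 : ℝ) ≤ A := by exact_mod_cast hA10
  have hA1 : X0 ≤ (A : ℝ) := by
    have := le_trans (le_max_left _ _) hA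
    exact le_trans (Nat.le_ceil _) (by exact_mod_cast this)
  have h1 := hX (4 * A) (by linarith)
  have h2 := Chebyshev.theta_ge (4 * A)
  have h3 := Chebyshev.theta_le_log4_mul_x (x := (A : ℝ)) (by positivity)
  rw [b01_split] at h2
  push_cast at h2
  have h4 : Real.log 4 = 2 * Real.log 2 := by
    rw [show (4 : ℝ) = 2 ^ 2 by norm_num, Real.log_pow]
    norm_num
  rw [h4] at h3
  have h5 := Real.log_two_gt_d9
  have h6 : (A : ℝ) ≤ ∑ p ∈ PA A, Real.log p := by nlinarith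
  have h7 : 1 ≤ Real.log (4 * A) := by
    have h8 : Real.log (Real.exp 1) ≤ Real.log (4 * A) := by
      apply Real.log_le_log (Real.exp_pos 1)
      have := Real.exp_one_lt_d9
      linarith
    rwa [Real.log_exp] at h8
  have h9 : ∑ p ∈ PA A, Real.log p ≤ 4 * A * Real.log (4 * A) * SA A := by
    unfold SA
    rw [Finset.mul_sum]
    refine Finset.sum_le_sum fun p hp => ?_
    unfold PA at hp
    rw [Finset.mem_filter, Finset.mem_Ioc] at hp
    have hp0 : (0 : ℝ) < p := by exact_mod_cast hp.2.pos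
    have hp1 : (p : ℝ) ≤ 4 * A := by exact_mod_cast hp.1.2
    have h10 : Real.log p ≤ Real.log (4 * A) := Real.log_le_log hp0 hp1
    rw [mul_one_div, le_div_iff₀ hp0]
    have hlog : 0 ≤ Real.log p := Real.log_natCast_nonneg p
    calc Real.log p * p ≤ Real.log (4 * A) * (4 * A) := by
          apply mul_le_mul h10 hp1 hp0.le (by linarith)
      _ = 4 * A * Real.log (4 * A) := by ring
  have h11 : 0 < 8 * Real.log (4 * A) := by linarith
  rw [div_le_iff₀ h11]
  have h12 : (A : ℝ) ≤ A * (4 * Real.log (4 * A) * SA A) := by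
    calc (A : ℝ) ≤ _ := h6
      _ ≤ _ := h9
      _ = A * (4 * Real.log (4 * A) * SA A) := by ring
  have h13 : 1 ≤ 4 * Real.log (4 * A) * SA A := by
    by_contra h
    push Not at h
    have : (A : ℝ) * (4 * Real.log (4 * A) * SA A) < A * 1 :=
      mul_lt_mul_of_pos_left h (by linarith)
    linarith
  nlinarith

end Pool.Agent.HUK
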