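import Pool.Agent.Lib.HUK.BDefs

/-!
# HUK B02 (M, only Mathlib): the decomposition `1 = s + u * v + η`

PROOF. For `d ≥ 1` the pairs `(p, e)` with `p e = d`, `p ∈ PA A` are the `p ∈ PA A` with `p ∣ d`, `e = d / p`, and then
`D < e A ↔ p D < d A` (multiply by `p > 0`). So
`∑_{(p,e)} uu p * vv e = (1/S) ∑_{p ∈ PA, p ∣ d} 1_{pD < dA}` (`Nat.sum_divisorsAntidiagonal`, or `Finset.sum_bij`), and
`sml + this + eta = 1 - (1/S) ∑_p 1_{pD<dA}/p + (1/S) ∑_p 1_{pD<dA} 1_{p∣d} - (1/S) ∑_p 1_{pD<dA} (1_{p∣d} - 1/p) = 1`.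
`b02_log`: multiply by `log d` and use `log d = log p + log e` for `p e = d` (all non-zero).
-/

open Finset

namespace Pool.Agent.HUK

/-- The divisor sum of a function of the first factor times `v` of the second. -/
theorem b02_sum (A D d : ℕ) (hd : 1 ≤ d) (f : ℕ → ℕ → ℝ) :
    ∑ x ∈ d.divisorsAntidiagonal, uu A x.1 * vv A D x.2 * f x.1 x.2 =
      (1 / SA A) * ∑ p ∈ PA A, if p * D < d * A then (if p ∣ d then f p (d / p) else 0) else 0 := by
  have h1 : ∀ x ∈ d.divisorsAntidiagonal, uu A x.1 * vv A D x.2 * f x.1 x.2 =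
      if x.1 ∈ PA A then (1 / SA A) * (if x.1 * D < d * A then f x.1 x.2 else 0) else 0 := by
    intro x hx
    obtain ⟨hx1, hx2⟩ := Nat.mem_divisorsAntidiagonal.1 hx
    have hp : 0 < x.1 := Nat.pos_of_ne_zero (by rintro h; rw [h, zero_mul] at hx1; omega)
    have hiff : D < x.2 * A ↔ x.1 * D < d * A := by
      rw [← hx1, mul_assoc]
      exact (Nat.mul_lt_mul_left hp).symm
    by_cases h : x.1 ∈ PA A
    · by_cases h' : D < x.2 * A
      · rw [uu, vv, if_pos h, if_pos h', if_pos h, if_pos (hiff.1 h'), mul_one]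
      · rw [uu, vv, if_pos h, if_neg h', if_pos h, if_neg (fun h2 => h' (hiff.2 h2))]
        ring
    · rw [uu, if_neg h, if_neg h, zero_mul, zero_mul]
  rw [Finset.sum_congr rfl h1]
  have h2 := Nat.sum_divisorsAntidiagonal (f := fun p e => if p ∈ PA A then (1 / SA A) * (if p * D < d * A then f p e else 0) else 0) (n := d)
  rw [h2, Finset.mul_sum, ← Finset.sum_filter]
  have h3 : (∑ p ∈ PA A, (1 / SA A) * (if p * D < d * A then (if p ∣ d then f p (d / p) else 0) else 0)) =
      ∑ p ∈ (PA A).filter (fun p => p ∣ d), (1 / SA A) * (if p * D < d * A then f p (d / p) else 0) := by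
    rw [Finset.sum_filter]
    refine Finset.sum_congr rfl fun p _ => ?_
    by_cases h : p ∣ d
    · simp [h]
    · simp [h]
  rw [h3]
  refine Finset.sum_congr ?_ fun _ _ => rfl
  ext p
  simp only [Finset.mem_filter, Nat.mem_divisors]
  constructor
  · rintro ⟨⟨h, _⟩, h'⟩
    exact ⟨h', h⟩
  · rintro ⟨h, h'⟩
    exact ⟨⟨h', by omega⟩, h⟩

/-- `1 = s + u * v + η`. -/
theorem b02_one (A D d : ℕ) (hS : 0 < SA A) (hd : 1 ≤ d) :
    (1 : ℝ) = sml A D d + ∑ x ∈ d.divisorsAntidiagonal, uu A x.1 * vv A D x.2 + eta A D d := by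
  have h1 : ∑ x ∈ d.divisorsAntidiagonal, uu A x.1 * vv A D x.2 =
      (1 / SA A) * ∑ p ∈ PA A, if p * D < d * A then (if p ∣ d then (1 : ℝ) else 0) else 0 := by
    have h := b02_sum A D d hd (fun _ _ => 1)
    simp only [mul_one] at h
    exact h
  have h2 : ∑ p ∈ PA A, eprime A D p d =
      (∑ p ∈ PA A, if p * D < d * A then (if p ∣ d then (1 : ℝ) else 0) else 0) -
        ∑ p ∈ PA A, if p * D < d * A then 1 / (p : ℝ) else 0 := by
    rw [← Finset.sum_sub_distrib]
    refine Finset.sum_congr rfl fun p _ => ?_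
    rw [eprime]
    by_cases h : p * D < d * A
    · rw [if_pos h, if_pos h, if_pos h]
    · rw [if_neg h, if_neg h, if_neg h, sub_zero]
  rw [h1, sml, ell, eta, h2]
  ring

/-- `log = s log + (u log) * v + u * (v log) + η log`. -/
theorem b02_log (A D d : ℕ) (hS : 0 < SA A) (hd : 1 ≤ d) :
    Real.log d = sml A D d * Real.log d
      + ∑ x ∈ d.divisorsAntidiagonal, uu A x.1 * Real.log x.1 * vv A D x.2
      + ∑ x ∈ d.divisorsAntidiagonal, uu A x.1 * (vv A D x.2 * Real.log x.2) + eta A D d * Real.log d := by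
  have h1 := b02_one A D d hS hd
  have h2 : (∑ x ∈ d.divisorsAntidiagonal, uu A x.1 * Real.log x.1 * vv A D x.2) +
      ∑ x ∈ d.divisorsAntidiagonal, uu A x.1 * (vv A D x.2 * Real.log x.2) =
      (∑ x ∈ d.divisorsAntidiagonal, uu A x.1 * vv A D x.2) * Real.log d := by
    rw [← Finset.sum_add_distrib, Finset.sum_mul]
    refine Finset.sum_congr rfl fun x hx => ?_
    obtain ⟨hx1, hx2⟩ := Nat.mem_divisorsAntidiagonal.1 hx
    have ha : (x.1 : ℝ) ≠ 0 := by
      rintro h
      rw [Nat.cast_eq_zero] at h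
      rw [h, zero_mul] at hx1
      omega
    have hb : (x.2 : ℝ) ≠ 0 := by
      rintro h
      rw [Nat.cast_eq_zero] at h
      rw [h, mul_zero] at hx1
      omega
    have h3 : Real.log d = Real.log x.1 + Real.log x.2 := by
      rw [← hx1, Nat.cast_mul, Real.log_mul ha hb]
    rw [h3]
    ring
  have h4 : Real.log d = (sml A D d + ∑ x ∈ d.divisorsAntidiagonal, uu A x.1 * vv A D x.2 + eta A D d) * Real.log d := by
    rw [← h1, one_mul]
  calc Real.log d = (sml A D d + ∑ x ∈ d.divisorsAntidiagonal, uu A x.1 * vv A D x.2 + eta A D d) * Real.log d := h4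
    _ = sml A D d * Real.log d + (∑ x ∈ d.divisorsAntidiagonal, uu A x.1 * vv A D x.2) * Real.log d
        + eta A D d * Real.log d := by ring
    _ = _ := by rw [← h2]; ring

end Pool.Agent.HUK
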