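import Pool.Agent.Lib.HUK.BDefs

/-!
# HUK B03 (S/M, only Mathlib): simple properties of `s`, `u`, `v`, `η`

PROOFS. `sml`: for `d > 4D` every `p ∈ PA A` has `p D ≤ 4 A D < d A` (`A > 0` as `SA A > 0` forces `PA A` non-empty; if `D = 0`
the claim is `0 < dA`), so `ell = (1/S) S = 1`. `0 ≤ ell ≤ 1`: the sum is over a subset of terms of `S`, all `≥ 0`.
`eta_supp`: some term is non-zero, so `p D < d A` with `p > A`, hence `D < d`.
`b03_ge`: for `0 ≤ lo` the two definitions agree term by term (casts of `<`, `∣`).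
-/

open Finset

namespace Pool.Agent.HUK

theorem b03_mem (A p : ℕ) (hp : p ∈ PA A) : A < p ∧ p ≤ 4 * A ∧ p.Prime := by
  unfold PA at hp
  rw [mem_filter, mem_Ioc] at hp
  exact ⟨hp.1.1, hp.1.2, hp.2⟩

theorem b03_ell_mem (A D d : ℕ) (hS : 0 < SA A) : 0 ≤ ell A D d ∧ ell A D d ≤ 1 := by
  unfold ell
  have hinv : 0 ≤ 1 / SA A := by positivity
  have h1 : (∑ p ∈ PA A, if p * D < d * A then 1 / (p : ℝ) else 0) ≤ SA A := by
    unfold SA
    refine sum_le_sum fun p _ => ?_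
    split_ifs
    · exact le_rfl
    · positivity
  refine ⟨mul_nonneg hinv (sum_nonneg fun p _ => by split_ifs <;> positivity), ?_⟩
  calc 1 / SA A * (∑ p ∈ PA A, if p * D < d * A then 1 / (p : ℝ) else 0) ≤ 1 / SA A * SA A :=
        mul_le_mul_of_nonneg_left h1 hinv
    _ = 1 := by field_simp

theorem b03_sml_zero (A D d : ℕ) (hS : 0 < SA A) (hd : 4 * D < d) : sml A D d = 0 := by
  have hell : ell A D d = 1 := by
    unfold ell
    have h1 : (∑ p ∈ PA A, if p * D < d * A then 1 / (p : ℝ) else 0) = SA A := by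
      unfold SA
      refine sum_congr rfl fun p hp => ?_
      obtain ⟨h1, h2, h3⟩ := b03_mem A p hp
      have hA : 0 < A := by omega
      have h4 : p * D < d * A := by
        calc p * D ≤ 4 * A * D := Nat.mul_le_mul_right _ h2
          _ = 4 * D * A := by ring
          _ < d * A := Nat.mul_lt_mul_of_pos_right hd hA
      rw [if_pos h4]
    rw [h1]
    field_simp
  unfold sml
  rw [hell]
  norm_num

theorem b03_sml_mem (A D d : ℕ) (hS : 0 < SA A) : 0 ≤ sml A D d ∧ sml A D d ≤ 1 := by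
  obtain ⟨h1, h2⟩ := b03_ell_mem A D d hS
  unfold sml
  constructor <;> linarith

theorem b03_uu_supp (A p : ℕ) (h : uu A p ≠ 0) : A < p ∧ p ≤ 4 * A := by
  unfold uu at h
  by_cases hp : p ∈ PA A
  · exact ⟨(b03_mem A p hp).1, (b03_mem A p hp).2.1⟩
  · rw [if_neg hp] at h
    exact absurd rfl h

theorem b03_uu_mem (A p : ℕ) : 0 ≤ uu A p ∧ uu A p ≤ 1 / SA A := by
  have hS : 0 ≤ SA A := by
    unfold SA
    exact sum_nonneg fun p _ => by positivity
  have hinv : 0 ≤ 1 / SA A := by positivity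
  unfold uu
  split_ifs
  · exact ⟨hinv, le_rfl⟩
  · exact ⟨le_rfl, hinv⟩

theorem b03_vv_mem (A D e : ℕ) : 0 ≤ vv A D e ∧ vv A D e ≤ 1 := by
  unfold vv
  split_ifs
  · exact ⟨zero_le_one, le_rfl⟩
  · exact ⟨le_rfl, zero_le_one⟩

/-- `η` is supported on `d > D`. -/
theorem b03_eta_supp (A D d : ℕ) (h : eta A D d ≠ 0) : D < d := by
  by_contra hc
  apply h
  unfold eta
  have h0 : ∑ p ∈ PA A, eprime A D p d = 0 := by
    refine sum_eq_zero fun p hp => ?_
    obtain ⟨h1, h2, h3⟩ := b03_mem A p hp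
    unfold eprime
    have h4 : ¬ (p * D < d * A) := by
      push Not at hc ⊢
      calc d * A ≤ D * p := Nat.mul_le_mul hc h1.le
        _ = p * D := Nat.mul_comm _ _
    rw [if_neg h4]
  rw [h0, mul_zero]

/-- `ge` is `η` cut to `(lo, hi]`. -/
theorem b03_ge (A D d : ℕ) (lo : ℕ) (hi : ℤ) : ge A D lo hi d = if lo < d ∧ (d : ℤ) ≤ hi then eta A D d else 0 := by
  unfold ge eta
  by_cases hc : lo < d ∧ (d : ℤ) ≤ hi
  · rw [if_pos hc]
    congr 1
    refine sum_congr rfl fun p _ => ?_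
    unfold gp eprime
    by_cases h1 : p * D < d * A
    · have h2 : (lo : ℤ) < (d : ℤ) ∧ (d : ℤ) ≤ hi ∧ (p : ℤ) * D < (d : ℤ) * A := by
        refine ⟨by exact_mod_cast hc.1, hc.2, by exact_mod_cast h1⟩
      rw [if_pos h1, if_pos h2]
      by_cases h3 : p ∣ d
      · have h4 : (p : ℤ) ∣ (d : ℤ) := by exact_mod_cast h3
        rw [if_pos h3, if_pos h4]
      · have h4 : ¬ (p : ℤ) ∣ (d : ℤ) := by
          intro h5
          exact h3 (by exact_mod_cast h5)
        rw [if_neg h3, if_neg h4]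
    · have h2 : ¬ ((lo : ℤ) < (d : ℤ) ∧ (d : ℤ) ≤ hi ∧ (p : ℤ) * D < (d : ℤ) * A) := by
        intro h5
        exact h1 (by exact_mod_cast h5.2.2)
      rw [if_neg h1, if_neg h2]
  · rw [if_neg hc]
    have h0 : ∑ p ∈ PA A, gp A D p lo hi d = 0 := by
      refine sum_eq_zero fun p _ => ?_
      unfold gp
      rw [if_neg]
      intro h5
      exact hc ⟨by exact_mod_cast h5.1, h5.2.1⟩
    rw [h0, mul_zero]

end Pool.Agent.HUK
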