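import Pool.Agent.Lib.HUK.BDefs

/-!
# HUK B04 (M, only Mathlib): bounds for `η` and partial sums

PROOF. For `1 ≤ d` (integer) and `T ⊆ PA A`: `|gp p d| ≤ 1_{p ∣ d} + 1/p`, and `∑_{p ∈ T} 1/p ≤ S`. The primes of `T` dividing `d`:
their product divides `d` (distinct primes: `Finset.prod_primes_dvd` or `Nat.prod_primeFactors_dvd`), each is `≥ 2`, so
`2 ^ #{p ∈ T : p ∣ d} ≤ d`, `#{..} ≤ log d / log 2 ≤ 2 log d` (`log 2 > 1/2`: `Real.log_two_gt_d9`). For `d ≤ 0` (resp. `d ∉ (lo,hi]`)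
with `0 ≤ lo` all terms are `0`.
`b04_eta_abs` is the same for `eta`.
-/

open Finset

namespace Pool.Agent.HUK

theorem b04_mem (A p : ℕ) (hp : p ∈ PA A) : A < p ∧ p ≤ 4 * A ∧ p.Prime := by
  unfold PA at hp
  rw [mem_filter, mem_Ioc] at hp
  exact ⟨hp.1.1, hp.1.2, hp.2⟩

theorem b04_card (A : ℕ) (T : Finset ℕ) (hT : T ⊆ PA A) (d : ℕ) (hd : 1 ≤ d) :
    ((T.filter (fun p => p ∣ d)).card : ℝ) ≤ 2 * Real.log d := by
  have hsub : T.filter (fun p => p ∣ d) ⊆ d.primeFactors := by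
    intro p hp
    rw [mem_filter] at hp
    rw [Nat.mem_primeFactors]
    exact ⟨(b04_mem A p (hT hp.1)).2.2, hp.2, by omega⟩
  have h1 : 2 ^ (T.filter (fun p => p ∣ d)).card ≤ d := by
    calc 2 ^ (T.filter (fun p => p ∣ d)).card ≤ 2 ^ d.primeFactors.card :=
          Nat.pow_le_pow_right (by norm_num) (card_le_card hsub)
      _ = ∏ p ∈ d.primeFactors, 2 := by rw [prod_const]
      _ ≤ ∏ p ∈ d.primeFactors, p := by
          refine prod_le_prod' fun p hp => ?_
          exact (Nat.prime_of_mem_primeFactors hp).two_le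
      _ ≤ d := Nat.le_of_dvd (by omega) (Nat.prod_primeFactors_dvd d)
  have h2 : Real.log ((2 : ℝ) ^ (T.filter (fun p => p ∣ d)).card) ≤ Real.log d := by
    refine Real.log_le_log (by positivity) ?_
    exact_mod_cast h1
  rw [Real.log_pow] at h2
  have h3 := Real.log_two_gt_d9
  have h4 : (0 : ℝ) ≤ ((T.filter (fun p => p ∣ d)).card : ℝ) := Nat.cast_nonneg _
  nlinarith

theorem b04_sum (A : ℕ) (hS : 0 < SA A) (T : Finset ℕ) (hT : T ⊆ PA A) (d : ℕ) (hd : 1 ≤ d) (g : ℕ → ℝ)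
    (hg : ∀ p ∈ T, |g p| ≤ (if p ∣ d then 1 else 0) + 1 / (p : ℝ)) :
    (1 / SA A) * ∑ p ∈ T, |g p| ≤ (1 / SA A) * (2 * Real.log d) + 1 := by
  have hinv : 0 ≤ 1 / SA A := by positivity
  have h1 : ∑ p ∈ T, |g p| ≤ 2 * Real.log d + SA A := by
    calc ∑ p ∈ T, |g p| ≤ ∑ p ∈ T, ((if p ∣ d then (1 : ℝ) else 0) + 1 / (p : ℝ)) := sum_le_sum hg
      _ = ((T.filter (fun p => p ∣ d)).card : ℝ) + ∑ p ∈ T, 1 / (p : ℝ) := by
          rw [sum_add_distrib, sum_boole]
      _ ≤ 2 * Real.log d + SA A := by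
          refine add_le_add (b04_card A T hT d hd) ?_
          unfold SA
          exact sum_le_sum_of_subset_of_nonneg hT fun p _ _ => by positivity
  calc (1 / SA A) * ∑ p ∈ T, |g p| ≤ (1 / SA A) * (2 * Real.log d + SA A) := mul_le_mul_of_nonneg_left h1 hinv
    _ = (1 / SA A) * (2 * Real.log d) + 1 := by
        rw [mul_add]
        congr 1
        field_simp

theorem b04_term (b : Prop) [Decidable b] (p : ℕ) (hp : 1 ≤ p) :
    |(if b then (1 : ℝ) else 0) - 1 / (p : ℝ)| ≤ (if b then 1 else 0) + 1 / (p : ℝ) := by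
  have h1 : (0 : ℝ) ≤ 1 / (p : ℝ) := by positivity
  rw [abs_le]
  split_ifs <;> constructor <;> linarith

theorem b04_eta_abs (A D d : ℕ) (hA : 2 ≤ A) (hS : 0 < SA A) (hd : 1 ≤ d) :
    |eta A D d| ≤ (1 / SA A) * (2 * Real.log d) + 1 := by
  have hinv : 0 ≤ 1 / SA A := by positivity
  unfold eta
  rw [abs_mul, abs_neg, abs_of_nonneg hinv]
  refine le_trans (mul_le_mul_of_nonneg_left (abs_sum_le_sum_abs _ _) hinv) ?_
  refine b04_sum A hS (PA A) (Subset.refl _) d hd (fun p => eprime A D p d) fun p hp => ?_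
  have hp1 : 1 ≤ p := by
    have := (b04_mem A p hp).1
    omega
  show |eprime A D p d| ≤ _
  unfold eprime
  by_cases h1 : p * D < d * A
  · rw [if_pos h1]
    exact b04_term (p ∣ d) p hp1
  · rw [if_neg h1, abs_zero]
    split_ifs <;> positivity

/-- Partial sums over `T ⊆ PA A`, on `(lo, hi]` with `hi ≤ Y`. -/
theorem b04_part (A D : ℕ) (hA : 2 ≤ A) (hS : 0 < SA A) (T : Finset ℕ) (hT : T ⊆ PA A) (lo hi d : ℤ) (hlo : 0 ≤ lo)
    (Y : ℝ) (hY : 1 ≤ Y) (hhi : (hi : ℝ) ≤ Y) :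
    (1 / SA A) * ∑ p ∈ T, |gp A D p lo hi d| ≤ (1 / SA A) * (2 * Real.log Y) + 1 := by
  have hinv : 0 ≤ 1 / SA A := by positivity
  by_cases hd : lo < d ∧ d ≤ hi
  · obtain ⟨e, he⟩ : ∃ e : ℕ, d = (e : ℤ) := ⟨d.toNat, by omega⟩
    have he1 : 1 ≤ e := by omega
    have h1 := b04_sum A hS T hT e he1 (fun p => gp A D p lo hi d) (fun p hp => by
      have hp1 : 1 ≤ p := by
        have := (b04_mem A p (hT hp)).1
        omega
      show |gp A D p lo hi d| ≤ _
      unfold gp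
      by_cases h1 : lo < d ∧ d ≤ hi ∧ (p : ℤ) * D < d * A
      · rw [if_pos h1]
        have h2 := b04_term ((p : ℤ) ∣ d) p hp1
        by_cases h3 : p ∣ e
        · have h4 : (p : ℤ) ∣ d := by
            rw [he]
            exact_mod_cast h3
          rw [if_pos h4] at h2 ⊢
          rw [if_pos h3]
          exact h2
        · have h4 : ¬ (p : ℤ) ∣ d := by
            intro h5
            rw [he] at h5
            exact h3 (by exact_mod_cast h5)
          rw [if_neg h4] at h2 ⊢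
          rw [if_neg h3]
          exact h2
      · rw [if_neg h1, abs_zero]
        split_ifs <;> positivity)
    refine le_trans h1 ?_
    have he2 : (e : ℝ) ≤ Y := by
      have h5 : (d : ℝ) ≤ (hi : ℝ) := by exact_mod_cast hd.2
      rw [he] at h5
      push_cast at h5
      linarith
    have h6 : Real.log e ≤ Real.log Y := Real.log_le_log (by exact_mod_cast he1) he2
    have h7 : (1 / SA A) * (2 * Real.log e) ≤ (1 / SA A) * (2 * Real.log Y) :=
      mul_le_mul_of_nonneg_left (by linarith) hinv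
    linarith
  · have h0 : ∑ p ∈ T, |gp A D p lo hi d| = 0 := by
      refine sum_eq_zero fun p _ => ?_
      unfold gp
      rw [if_neg, abs_zero]
      intro h5
      exact hd ⟨h5.1, h5.2.1⟩
    rw [h0, mul_zero]
    have h1 : 0 ≤ Real.log Y := Real.log_nonneg hY
    positivity

end Pool.Agent.HUK
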