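import Pool.Agent.Lib.HUK.BDefs

/-!
# HUK B05 (M, only Mathlib): incomplete sums of a product of two periodic functions with coprime periods

PROOF. Let `F = a b`, periodic modulo `P = p R`. Over a complete period `∑_{x < P} a(x) b(x) = (∑_{x < p} a)(∑_{y < R} b) = 0` (Chinese
remainder theorem: `x ↦ (x mod p, x mod R)` is a bijection `range P → range p × range R`; `Nat.chineseRemainder`, or `ZMod.chineseRemainder`,
or: write `x = i + p j`, `i < p`, `j < R`; for fixed `i` the map `j ↦ i + p j mod R` is a bijection, so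
`∑_x a(x) b(x) = ∑_{i<p} a(i) ∑_{j<R} b(i + p j) = ∑_i a(i) (∑_{y<R} b(y)) = 0`). By periodicity the sum over any `P` consecutive
integers is `0` (`Function.Periodic`, or induction moving the window by one). Cut `[u, v)` in blocks of `P` consecutive integers and a rest of
fewer than `P` integers, where each term is at most `1` in absolute value (strong induction on `v - u`: if `v - u < P` trivial bound, else
remove the first `P` terms).
-/

open Finset

namespace Pool.Agent.HUK

theorem b05_zmod (R : ℕ) [NeZero R] (h : ZMod R → ℝ) :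
    ∑ w ∈ range R, h (w : ZMod R) = ∑ z, h z := by
  refine Finset.sum_nbij' (fun w => (w : ZMod R)) (fun z => z.val) ?_ ?_ ?_ ?_ ?_
  · intro _ _
    exact Finset.mem_univ _
  · intro z _
    exact Finset.mem_range.2 (ZMod.val_lt z)
  · intro w hw
    exact ZMod.val_natCast_of_lt (Finset.mem_range.1 hw)
  · intro z _
    exact ZMod.natCast_zmod_val z
  · intro _ _
    rfl

theorem b05_lift (R : ℕ) [NeZero R] (b : ℤ → ℝ) (hb : ∀ x, b (x + R) = b x) (x : ℤ) :
    b ((((x : ZMod R).val : ℕ) : ℤ)) = b x := by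
  have hper : Function.Periodic b (R : ℤ) := hb
  rw [ZMod.val_intCast]
  have h1 := hper.int_mul (x / R) (x % R)
  rw [Int.cast_id] at h1
  rw [show x % (R : ℤ) + x / R * R = x by rw [mul_comm]; exact Int.emod_add_mul_ediv x R] at h1
  exact h1.symm

theorem b05_bsum (p R : ℕ) (hR : 0 < R) (hc : Nat.Coprime p R) (b : ℤ → ℝ)
    (hb : ∀ x, b (x + R) = b x) (t : ℤ) :
    ∑ w ∈ range R, b (t + w * p) = ∑ y ∈ range R, b y := by
  have : NeZero R := ⟨hR.ne'⟩
  have h1 : ∀ w : ℕ, b (t + w * p) =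
      (fun z : ZMod R => b (((z.val : ℕ) : ℤ))) ((t : ZMod R) + (w : ZMod R) * p) := by
    intro w
    have h2 := b05_lift R b hb (t + w * p)
    push_cast at h2
    exact h2.symm
  have h1' : ∀ w : ℕ, b (w : ℤ) = (fun z : ZMod R => b (((z.val : ℕ) : ℤ))) (w : ZMod R) := by
    intro w
    have h2 := b05_lift R b hb (w : ℤ)
    push_cast at h2
    exact h2.symm
  rw [Finset.sum_congr rfl fun w _ => h1 w, Finset.sum_congr rfl fun w _ => h1' w,
    b05_zmod R (fun z => (fun z : ZMod R => b (((z.val : ℕ) : ℤ))) ((t : ZMod R) + z * p)),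
    b05_zmod R (fun z : ZMod R => b (((z.val : ℕ) : ℤ)))]
  have hu : IsUnit (p : ZMod R) := (ZMod.isUnit_iff_coprime p R).2 hc
  obtain ⟨u, hu⟩ := hu
  rw [← hu]
  exact Equiv.sum_comp (Equiv.trans (Units.mulRight u) (Equiv.addLeft (t : ZMod R)))
    (fun z : ZMod R => b (((z.val : ℕ) : ℤ)))

theorem b05_blocks (p : ℕ) (a : ℤ → ℝ) (ha : ∀ x, a (x + p) = a x)
    (ha0 : ∑ x ∈ range p, a x = 0) (n : ℕ) : ∑ x ∈ range (p * n), a x = 0 := by
  induction n with
  | zero => simp
  | succ n ih =>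
    rw [Nat.mul_succ, Finset.sum_range_add, ih, zero_add, ← ha0]
    refine Finset.sum_congr rfl fun t _ => ?_
    have hper : Function.Periodic a (p : ℤ) := ha
    have h1 := hper.nat_mul n (t : ℤ)
    rw [← h1]
    push_cast
    congr 1
    ring

theorem b05_shift (P : ℕ) (F : ℤ → ℝ) (hF : ∀ x, F (x + P) = F x) (u : ℤ) :
    ∑ t ∈ range P, F (u + t) = ∑ t ∈ range P, F t := by
  have h1 : ∀ v : ℤ, ∑ t ∈ range P, F (v + 1 + t) = ∑ t ∈ range P, F (v + t) := by
    intro v
    have h2 := Finset.sum_range_succ (fun t : ℕ => F (v + t)) P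
    have h3 := Finset.sum_range_succ' (fun t : ℕ => F (v + t)) P
    rw [h2] at h3
    push_cast at h3
    rw [hF, add_zero] at h3
    have h4 : ∑ t ∈ range P, F (v + 1 + t) = ∑ t ∈ range P, F (v + ((t : ℤ) + 1)) := by
      refine Finset.sum_congr rfl fun t _ => ?_
      congr 1
      ring
    rw [h4]
    linarith
  induction u using Int.induction_on with
  | zero => simp
  | succ i ih => rw [h1, ih]
  | pred i ih =>
    rw [← ih, ← h1 (-(i : ℤ) - 1)]
    refine Finset.sum_congr rfl fun t _ => ?_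
    congr 1
    ring

theorem b05_full (p R : ℕ) (hR : 0 < R) (hc : Nat.Coprime p R) (a b : ℤ → ℝ)
    (ha : ∀ x, a (x + p) = a x) (hb : ∀ x, b (x + R) = b x) (ha0 : ∑ x ∈ range p, a x = 0) (u : ℤ) :
    ∑ t ∈ range (p * R), a (u + t) * b (u + t) = 0 := by
  have hpa : Function.Periodic a (p : ℤ) := ha
  have hpb : Function.Periodic b (R : ℤ) := hb
  have hF : ∀ x, (fun x => a x * b x) (x + (p * R : ℕ)) = (fun x => a x * b x) x := by
    intro x
    change a (x + (p * R : ℕ)) * b (x + (p * R : ℕ)) = a x * b x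
    have h1 := hpa.nat_mul R x
    have h2 := hpb.nat_mul p x
    rw [show x + ((p * R : ℕ) : ℤ) = x + (R : ℤ) * p by push_cast; ring, h1,
      show x + (R : ℤ) * p = x + (p : ℤ) * R by ring, h2]
  have hsh := b05_shift (p * R) (fun x => a x * b x) hF
  have hS : ∀ w : ℤ, ∑ t ∈ range (p * R), a t * b (t + w * p) =
      ∑ t ∈ range (p * R), a (t : ℤ) * b (t : ℤ) := by
    intro w
    rw [← hsh (w * p)]
    refine Finset.sum_congr rfl fun t _ => ?_
    change a t * b (t + w * p) = a (w * p + t) * b (w * p + t)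
    have h1 := hpa.int_mul w (t : ℤ)
    rw [Int.cast_id] at h1
    rw [show w * (p : ℤ) + t = t + w * p by ring, h1]
  have h3 : (R : ℝ) * ∑ t ∈ range (p * R), a (t : ℤ) * b (t : ℤ) = 0 := by
    calc (R : ℝ) * ∑ t ∈ range (p * R), a (t : ℤ) * b (t : ℤ)
        = ∑ w ∈ range R, ∑ t ∈ range (p * R), a t * b (t + (w : ℤ) * p) := by
          rw [Finset.sum_congr rfl fun (w : ℕ) _ => hS (w : ℤ), Finset.sum_const, Finset.card_range,
            nsmul_eq_mul]
      _ = ∑ t ∈ range (p * R), a t * ∑ w ∈ range R, b (t + (w : ℤ) * p) := by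
          rw [Finset.sum_comm]
          refine Finset.sum_congr rfl fun t _ => ?_
          rw [Finset.mul_sum]
      _ = ∑ t ∈ range (p * R), a t * ∑ y ∈ range R, b y := by
          refine Finset.sum_congr rfl fun t _ => ?_
          rw [b05_bsum p R hR hc b hb]
      _ = 0 := by
          rw [← Finset.sum_mul, b05_blocks p a ha ha0, zero_mul]
  have hR0 : (R : ℝ) ≠ 0 := by exact_mod_cast hR.ne'
  have h4 := (mul_eq_zero.1 h3).resolve_left hR0
  rw [← h4]
  exact hsh u

theorem b05_range (P : ℕ) (hP : 0 < P) (F : ℤ → ℝ) (hF : ∀ u : ℤ, ∑ t ∈ range P, F (u + t) = 0)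
    (h1 : ∀ x, |F x| ≤ 1) (n : ℕ) : ∀ u : ℤ, |∑ t ∈ range n, F (u + t)| ≤ P := by
  induction n using Nat.strong_induction_on with
  | _ n ih =>
    intro u
    rcases lt_or_ge n P with h | h
    · calc |∑ t ∈ range n, F (u + t)| ≤ ∑ t ∈ range n, |F (u + t)| :=
            Finset.abs_sum_le_sum_abs _ _
        _ ≤ ∑ _t ∈ range n, (1 : ℝ) := Finset.sum_le_sum fun t _ => h1 _
        _ = n := by rw [Finset.sum_const, Finset.card_range, nsmul_eq_mul, mul_one]
        _ ≤ P := by exact_mod_cast h.le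
    · obtain ⟨m, rfl⟩ := Nat.exists_eq_add_of_le h
      rw [Finset.sum_range_add, hF, zero_add]
      have h2 := ih m (by omega) (u + P)
      have h3 : ∑ x ∈ range m, F (u + ((P + x : ℕ) : ℤ)) = ∑ x ∈ range m, F (u + P + x) := by
        refine Finset.sum_congr rfl fun x _ => ?_
        congr 1
        push_cast
        ring
      rw [h3]
      exact h2

theorem b05_conv (F : ℤ → ℝ) (u v : ℤ) :
    ∑ x ∈ Ico u v, F x = ∑ t ∈ range (v - u).toNat, F (u + t) := by
  refine Finset.sum_nbij' (fun x => (x - u).toNat) (fun t => u + t) ?_ ?_ ?_ ?_ ?_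
  · intro x hx
    rw [Finset.mem_Ico] at hx
    rw [Finset.mem_range]
    omega
  · intro t ht
    rw [Finset.mem_range] at ht
    rw [Finset.mem_Ico]
    omega
  · intro x hx
    rw [Finset.mem_Ico] at hx
    omega
  · intro t ht
    omega
  · intro x hx
    rw [Finset.mem_Ico] at hx
    have h1 : u + ((x - u).toNat : ℤ) = x := by omega
    rw [h1]

theorem b05_per (p R : ℕ) (hp : 0 < p) (hR : 0 < R) (hc : Nat.Coprime p R) (a b : ℤ → ℝ) (ha : ∀ x, a (x + p) = a x)
    (hb : ∀ x, b (x + R) = b x) (ha0 : ∑ x ∈ range p, a x = 0) (ha1 : ∀ x, |a x| ≤ 1) (hb1 : ∀ x, |b x| ≤ 1) (u v : ℤ) :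
    |∑ x ∈ Ico u v, a x * b x| ≤ (p : ℝ) * R := by
  rw [b05_conv]
  have h1 := b05_range (p * R) (Nat.mul_pos hp hR) (fun x => a x * b x)
    (fun u => b05_full p R hR hc a b ha hb ha0 u)
    (fun x => by
      rw [abs_mul]
      exact mul_le_one₀ (ha1 x) (abs_nonneg _) (hb1 x)) (v - u).toNat u
  push_cast at h1
  exact h1

end Pool.Agent.HUK
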