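import Pool.Agent.Lib.HUK.B05

/-!
# HUK B06 (M): one tuple of primes

PROOF. By the definition of `gp` the product is `1_J(d) (1_{p∣d} - 1/p) ∏_w (1_{q_w ∣ d + σ_w} - 1/q_w)` with
`J = {d ∈ (lo, hi] : pD < dA, and for all w ∈ W: lo < d + σ_w ≤ hi, q_w D < (d + σ_w) A}`, a finite set of integers which is order connected
(each condition is monotone in `d` because `A > 0`), hence `J = Ico u v` for some `u v` (if empty trivial; else `u = min`, `v = max + 1`;
or show: a finite set `J` of integers such that `x, z ∈ J`, `x ≤ y ≤ z` imply `y ∈ J` is an `Icc`). Apply `b05_per` with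
`a(d) = 1_{p∣d} - 1/p` (period `p`, sum over a period `1 - p/p = 0`, `|a| ≤ 1`) and `b(d) = ∏_w (1_{q_w ∣ d+σ_w} - 1/q_w)`, period
`R = ∏_{w ∈ W} q_w`, coprime to `p` (distinct primes; `Nat.Coprime.prod_right`), `|b| ≤ 1` (each factor has absolute value `≤ 1`).
-/

open Finset

namespace Pool.Agent.HUK

theorem b06_cond (A m : ℕ) (hA : 0 < A) (lo hi σ d : ℤ) :
    (lo < d + σ ∧ d + σ ≤ hi ∧ (m : ℤ) < (d + σ) * A) ↔
      (max lo ((m : ℤ) / A) - σ < d ∧ d ≤ hi - σ) := by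
  have hA' : (0 : ℤ) < A := by exact_mod_cast hA
  rw [← Int.ediv_lt_iff_lt_mul hA']
  constructor
  · rintro ⟨h1, h2, h3⟩
    refine ⟨?_, by omega⟩
    have h4 : max lo ((m : ℤ) / A) < d + σ := max_lt h1 h3
    omega
  · rintro ⟨h1, h2⟩
    have h4 : max lo ((m : ℤ) / A) < d + σ := by omega
    exact ⟨(le_max_left _ _).trans_lt h4, by omega, (le_max_right _ _).trans_lt h4⟩

theorem b06_int {ι : Type*} (A D p : ℕ) (hA : 0 < A) (W : Finset ι) (q : ι → ℕ) (σ : ι → ℤ)
    (lo hi : ℤ) : ∃ u v : ℤ, ∀ d : ℤ, ((lo < d ∧ d ≤ hi ∧ (p : ℤ) * D < d * A) ∧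
      ∀ w ∈ W, (lo < d + σ w ∧ d + σ w ≤ hi ∧ (q w : ℤ) * D < (d + σ w) * A)) ↔
      (u < d ∧ d ≤ v) := by
  classical
  induction W using Finset.induction_on with
  | empty =>
    refine ⟨max lo (((p * D : ℕ) : ℤ) / A) - 0, hi - 0, fun d => ?_⟩
    have h1 := b06_cond A (p * D) hA lo hi 0 d
    rw [add_zero, Nat.cast_mul] at h1
    rw [Nat.cast_mul, ← h1]
    constructor
    · exact fun h => h.1
    · exact fun h => ⟨h, fun w hw => absurd hw (Finset.notMem_empty w)⟩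
  | insert w W hw ih =>
    obtain ⟨u, v, h⟩ := ih
    refine ⟨max u (max lo (((q w * D : ℕ) : ℤ) / A) - σ w), min v (hi - σ w), fun d => ?_⟩
    have h1 := b06_cond A (q w * D) hA lo hi (σ w) d
    rw [Nat.cast_mul] at h1
    rw [Nat.cast_mul, max_lt_iff, le_min_iff]
    have h2 := h d
    constructor
    · rintro ⟨h3, h4⟩
      have h5 := h2.1 ⟨h3, fun w' hw' => h4 w' (Finset.mem_insert_of_mem hw')⟩
      have h6 := h1.1 (h4 w (Finset.mem_insert_self _ _))
      exact ⟨⟨h5.1, h6.1⟩, h5.2, h6.2⟩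
    · rintro ⟨⟨h3, h4⟩, h5, h6⟩
      have h7 := h2.2 ⟨h3, h5⟩
      have h8 := h1.2 ⟨h4, h6⟩
      refine ⟨h7.1, fun w' hw' => ?_⟩
      rcases Finset.mem_insert.1 hw' with rfl | hw'
      · exact h8
      · exact h7.2 w' hw'

theorem b06_abs (q : ℕ) (hq : 0 < q) (x : ℤ) :
    |(if (q : ℤ) ∣ x then (1 : ℝ) else 0) - 1 / (q : ℝ)| ≤ 1 := by
  have h1 : (1 : ℝ) ≤ q := by exact_mod_cast hq
  have h2 : (0 : ℝ) < 1 / (q : ℝ) := by positivity
  have h3 : 1 / (q : ℝ) ≤ 1 := by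
    rw [div_le_one (by linarith)]
    exact h1
  rw [abs_le]
  split_ifs <;> constructor <;> linarith

theorem b06_tuple {ι : Type*} (A D p : ℕ) (hA : 0 < A) (hp : p.Prime) (W : Finset ι) (q : ι → ℕ)
    (hq : ∀ w ∈ W, (q w).Prime ∧ q w ≠ p) (σ : ι → ℤ) (lo hi : ℤ) :
    |∑ d ∈ Ioc lo hi, gp A D p lo hi d * ∏ w ∈ W, gp A D (q w) lo hi (d + σ w)| ≤ (p : ℝ) * ∏ w ∈ W, (q w : ℝ) := by
  classical
  obtain ⟨u, v, huv⟩ := b06_int A D p hA W q σ lo hi
  let a : ℤ → ℝ := fun d => (if (p : ℤ) ∣ d then 1 else 0) - 1 / (p : ℝ)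
  let b : ℤ → ℝ := fun d => ∏ w ∈ W, ((if (q w : ℤ) ∣ d + σ w then 1 else 0) - 1 / (q w : ℝ))
  have hterm : ∀ d : ℤ, gp A D p lo hi d * ∏ w ∈ W, gp A D (q w) lo hi (d + σ w) =
      if u < d ∧ d ≤ v then a d * b d else 0 := by
    intro d
    by_cases hd : u < d ∧ d ≤ v
    · rw [if_pos hd]
      obtain ⟨h1, h2⟩ := (huv d).2 hd
      have h3 : gp A D p lo hi d = a d := by
        unfold gp
        rw [if_pos h1]
      have h4 : ∏ w ∈ W, gp A D (q w) lo hi (d + σ w) = b d := by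
        refine Finset.prod_congr rfl fun w hw => ?_
        unfold gp
        rw [if_pos (h2 w hw)]
      rw [h3, h4]
    · rw [if_neg hd]
      by_cases h1 : lo < d ∧ d ≤ hi ∧ (p : ℤ) * D < d * A
      · have h2 : ¬ ∀ w ∈ W, (lo < d + σ w ∧ d + σ w ≤ hi ∧ (q w : ℤ) * D < (d + σ w) * A) :=
          fun h => hd ((huv d).1 ⟨h1, h⟩)
        push Not at h2
        obtain ⟨w, hw, h3⟩ := h2
        have h4 : gp A D (q w) lo hi (d + σ w) = 0 := by
          unfold gp
          rw [if_neg]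
          rintro ⟨h5, h6, h7⟩
          exact absurd h7 (not_lt.2 (h3 h5 h6))
        rw [Finset.prod_eq_zero hw h4, mul_zero]
      · have h2 : gp A D p lo hi d = 0 := by
          unfold gp
          rw [if_neg h1]
        rw [h2, zero_mul]
  rw [Finset.sum_congr rfl fun d _ => hterm d]
  have hsum : ∑ d ∈ Ioc lo hi, (if u < d ∧ d ≤ v then a d * b d else 0) =
      ∑ d ∈ Ico (u + 1) (v + 1), a d * b d := by
    rw [← Finset.sum_filter]
    refine Finset.sum_congr ?_ fun _ _ => rfl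
    ext d
    rw [Finset.mem_filter, Finset.mem_Ioc, Finset.mem_Ico]
    constructor
    · rintro ⟨-, h1, h2⟩
      omega
    · rintro ⟨h1, h2⟩
      have h3 : u < d ∧ d ≤ v := by omega
      have h4 := ((huv d).2 h3).1
      exact ⟨⟨h4.1, h4.2.1⟩, h3⟩
  rw [hsum]
  have hpp : 0 < p := hp.pos
  have hR : 0 < ∏ w ∈ W, q w := Finset.prod_pos fun w hw => (hq w hw).1.pos
  have h := b05_per p (∏ w ∈ W, q w) hpp hR
    (Nat.Coprime.prod_right fun w hw => (Nat.coprime_primes hp (hq w hw).1).2 (hq w hw).2.symm)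
    a b
    (by
      intro x
      have h1 : (p : ℤ) ∣ x + p ↔ (p : ℤ) ∣ x := dvd_add_self_right
      simp only [a, h1])
    (by
      intro x
      refine Finset.prod_congr rfl fun w hw => ?_
      have h1 : (q w : ℤ) ∣ ((∏ w ∈ W, q w : ℕ) : ℤ) := by
        exact_mod_cast Finset.dvd_prod_of_mem q hw
      have h2 : (q w : ℤ) ∣ x + ((∏ w ∈ W, q w : ℕ) : ℤ) + σ w ↔ (q w : ℤ) ∣ x + σ w := by
        have h3 : x + ((∏ w ∈ W, q w : ℕ) : ℤ) + σ w = (x + σ w) + ((∏ w ∈ W, q w : ℕ) : ℤ) := by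
          ring
        rw [h3]
        exact (Int.dvd_add_left h1)
      simp only [h2])
    (by
      have h1 : ∑ x ∈ range p, (if (p : ℤ) ∣ ((x : ℕ) : ℤ) then (1 : ℝ) else 0) = 1 := by
        rw [Finset.sum_eq_single 0]
        · simp
        · intro x hx hx0
          rw [Finset.mem_range] at hx
          rw [if_neg]
          intro h2
          rw [Int.natCast_dvd_natCast] at h2
          exact hx0 (Nat.eq_zero_of_dvd_of_lt h2 hx)
        · intro h2
          exact absurd (Finset.mem_range.2 hpp) h2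
      simp only [a]
      rw [Finset.sum_sub_distrib, h1, Finset.sum_const, Finset.card_range, nsmul_eq_mul]
      have h2 : (p : ℝ) ≠ 0 := by exact_mod_cast hpp.ne'
      field_simp
      ring)
    (fun x => b06_abs p hpp x)
    (by
      intro x
      simp only [b]
      rw [Finset.abs_prod]
      exact Finset.prod_le_one (fun w _ => abs_nonneg _) fun w hw => b06_abs (q w) (hq w hw).1.pos _)
    (u + 1) (v + 1)
  refine h.trans (le_of_eq ?_)
  push_cast
  rfl

end Pool.Agent.HUK
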