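import Pool.Agent.Lib.HUK.B06

/-!
# HUK B07 (M): expansion over all tuples of primes different from `p`

PROOF. `∏_{w ∈ W} ∑_{q ∈ (PA A).erase p} gp q (d + σ_w) = ∑_{q : functions} ∏_w gp (q_w) (d + σ_w)` (`Finset.prod_sum` with `pi`, or
`Finset.prod_univ_sum` on the subtype; `Finset.prod_sum` gives `W.pi fun _ => (PA A).erase p` and `W.attach`; alternatively induction on `W`
with a GENERAL statement: for every finite multiset of already chosen `(q, σ)`. The expansion is easiest.) Exchange the sums, apply `b06_tuple` to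
each function `q` (all values are primes `≠ p`, `≤ 4A`): `≤ p ∏ q_w ≤ (4A)^(#W+1)`. The number of functions is `(#(PA A) - 1)^(#W) ≤ (#PA)^(#W)`,
and `#(PA A) ≤ 3 A ≤ 4 A`.
-/

open Finset

namespace Pool.Agent.HUK

theorem b07_main {ι : Type*} (A D p : ℕ) (hA : 0 < A) (hp : p ∈ PA A) (W : Finset ι) (σ : ι → ℤ) (lo hi : ℤ) :
    |∑ d ∈ Ioc lo hi, gp A D p lo hi d * ∏ w ∈ W, ∑ q ∈ (PA A).erase p, gp A D q lo hi (d + σ w)| ≤
      (4 * A : ℝ) ^ (2 * #W + 1) := by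
  classical
  have hPA : ∀ q ∈ PA A, q.Prime ∧ q ≤ 4 * A := by
    intro q hq
    rw [PA, Finset.mem_filter, Finset.mem_Ioc] at hq
    exact ⟨hq.2, hq.1.2⟩
  have hcardPA : #(PA A) ≤ 4 * A := by
    have h1 : #(PA A) ≤ #(Ioc A (4 * A)) := Finset.card_filter_le _ _
    rw [Nat.card_Ioc] at h1
    omega
  have hA1 : (0 : ℝ) ≤ 4 * A := by positivity
  have hpA : (p : ℝ) ≤ 4 * A := by exact_mod_cast (hPA p hp).2
  have hexp : ∑ d ∈ Ioc lo hi, gp A D p lo hi d *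
      ∏ w ∈ W, ∑ q ∈ (PA A).erase p, gp A D q lo hi (d + σ w) =
      ∑ f ∈ W.pi fun _ => (PA A).erase p, ∑ d ∈ Ioc lo hi, gp A D p lo hi d *
        ∏ x ∈ W.attach, gp A D (f x.1 x.2) lo hi (d + σ x.1) := by
    rw [Finset.sum_comm]
    refine Finset.sum_congr rfl fun d _ => ?_
    rw [Finset.prod_sum, Finset.mul_sum]
  rw [hexp]
  refine (Finset.abs_sum_le_sum_abs _ _).trans ?_
  have hone : ∀ f ∈ W.pi fun _ => (PA A).erase p, |∑ d ∈ Ioc lo hi, gp A D p lo hi d *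
        ∏ x ∈ W.attach, gp A D (f x.1 x.2) lo hi (d + σ x.1)| ≤ (4 * A : ℝ) ^ (#W + 1) := by
    intro f hf
    rw [Finset.mem_pi] at hf
    have h1 := b06_tuple A D p hA (hPA p hp).1 W.attach (fun x => f x.1 x.2)
      (fun x _ => by
        have h2 := Finset.mem_erase.1 (hf x.1 x.2)
        exact ⟨(hPA _ h2.2).1, h2.1⟩) (fun x => σ x.1) lo hi
    refine h1.trans ?_
    have h3 : ∏ x ∈ W.attach, (f x.1 x.2 : ℝ) ≤ (4 * A : ℝ) ^ #W := by
      rw [← Finset.card_attach, ← Finset.prod_const]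
      refine Finset.prod_le_prod (fun x _ => Nat.cast_nonneg _) fun x _ => ?_
      exact_mod_cast (hPA _ (Finset.mem_erase.1 (hf x.1 x.2)).2).2
    rw [pow_succ']
    exact mul_le_mul hpA h3 (Finset.prod_nonneg fun x _ => Nat.cast_nonneg _) hA1
  refine (Finset.sum_le_sum hone).trans ?_
  rw [Finset.sum_const, nsmul_eq_mul, Finset.card_pi, Finset.prod_const]
  have h4 : ((#((PA A).erase p) ^ #W : ℕ) : ℝ) ≤ (4 * A : ℝ) ^ #W := by
    have h5 : #((PA A).erase p) ≤ 4 * A := (Finset.card_le_card (Finset.erase_subset _ _)).trans hcardPA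
    have h6 : #((PA A).erase p) ^ #W ≤ (4 * A) ^ #W := Nat.pow_le_pow_left h5 _
    exact_mod_cast h6
  calc ((#((PA A).erase p) ^ #W : ℕ) : ℝ) * (4 * A : ℝ) ^ (#W + 1)
      ≤ (4 * A : ℝ) ^ #W * (4 * A : ℝ) ^ (#W + 1) :=
        mul_le_mul_of_nonneg_right h4 (pow_nonneg hA1 _)
    _ = (4 * A : ℝ) ^ (2 * #W + 1) := by rw [← pow_add]; congr 1; ring

end Pool.Agent.HUK
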