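import Pool.Agent.Lib.HUK.BDefs

/-!
# HUK B08 (S/M, only Mathlib): difference of two products

PROOF. Induction on `W` (`Finset.induction_on`): with `x = ∏_{W}(a+b)`, `y = ∏_W a`,
`(a_i + b_i) x - a_i y = b_i x + a_i (x - y)`, `|b_i x| ≤ |b_i| G^{#W}`, `|a_i (x - y)| ≤ G * G^{#W - 1} ∑ ...`. To avoid `#W - 1` the bound has
`G^{#W}` (`G ≥ 1`).
-/

open Finset

namespace Pool.Agent.HUK

theorem b08_prod {ι : Type*} (W : Finset ι) (a b : ι → ℝ) (G : ℝ) (hG : 1 ≤ G) (ha : ∀ i ∈ W, |a i| ≤ G)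
    (hab : ∀ i ∈ W, |a i + b i| ≤ G) :
    |∏ i ∈ W, (a i + b i) - ∏ i ∈ W, a i| ≤ G ^ #W * ∑ i ∈ W, |b i| := by
  classical
  have hG0 : (0 : ℝ) ≤ G := le_trans zero_le_one hG
  induction W using Finset.induction_on with
  | empty => simp
  | insert i W hi ih =>
    have ih' := ih (fun j hj => ha j (Finset.mem_insert_of_mem hj))
      (fun j hj => hab j (Finset.mem_insert_of_mem hj))
    rw [Finset.prod_insert hi, Finset.prod_insert hi, Finset.sum_insert hi,
      Finset.card_insert_of_notMem hi]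
    set x := ∏ j ∈ W, (a j + b j) with hx
    set y := ∏ j ∈ W, a j with hy
    have h1 : |x| ≤ G ^ #W := by
      rw [hx, Finset.abs_prod]
      calc ∏ j ∈ W, |a j + b j| ≤ ∏ _j ∈ W, G :=
            Finset.prod_le_prod (fun j _ => abs_nonneg _)
              (fun j hj => hab j (Finset.mem_insert_of_mem hj))
        _ = G ^ #W := by rw [Finset.prod_const]
    have h2 : |a i| ≤ G := ha i (Finset.mem_insert_self i W)
    have h3 : (a i + b i) * x - a i * y = b i * x + a i * (x - y) := by ring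
    have h4 : (0 : ℝ) ≤ G ^ #W := pow_nonneg hG0 _
    have h5 : (0 : ℝ) ≤ ∑ j ∈ W, |b j| := Finset.sum_nonneg fun j _ => abs_nonneg _
    rw [h3]
    calc |b i * x + a i * (x - y)| ≤ |b i * x| + |a i * (x - y)| := abs_add_le _ _
      _ = |b i| * |x| + |a i| * |x - y| := by rw [abs_mul, abs_mul]
      _ ≤ |b i| * G ^ #W + G * (G ^ #W * ∑ j ∈ W, |b j|) := by
          apply add_le_add
          · exact mul_le_mul_of_nonneg_left h1 (abs_nonneg _)
          · exact mul_le_mul h2 ih' (abs_nonneg _) hG0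
      _ ≤ G ^ (#W + 1) * (|b i| + ∑ j ∈ W, |b j|) := by
          rw [pow_succ]
          have h6 : |b i| * G ^ #W ≤ |b i| * G ^ #W * G :=
            le_mul_of_one_le_right (mul_nonneg (abs_nonneg _) h4) hG
          nlinarith [h6]

end Pool.Agent.HUK
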