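import Pool.Agent.Lib.HUK.BDefs

/-!
# HUK B09 (M, only Mathlib): two multiples of `p`

PROOFS. `b09_line`: `p ∤ c` so the `t ∈ (-H, H)` with `p ∣ x + c t` lie in one residue class mod `p`: at most `(2H-1)/p + 1 ≤ 2H/p + 1 ≤ 3H/p`
of them (`p ≤ H`; `Int.Ioc_filter_modEq_card`, or injectivity of `t ↦ t / p`), and `∑ 1/p ≤ 2H/p`.
`b09_int`: the multiples of `p` in `(lo, hi]` are at most `L/p + 1 ≤ 2L/p`.
`b09_pair`: `|gp p d| ≤ (1_{p∣d} + 1/p) 1_{(lo,hi]}(d)`. Choose `i0 ∈ w`. For fixed `d` and fixed `j_i`, `i ≠ i0`, the sum over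
`j_{i0} ∈ (-H, H)` of `1_{p ∣ d + σ_w(j)} + 1/p` is `≤ 5H/p` by `b09_line` (`p ∤ c_{i0}` because `1 ≤ c_{i0} ≤ k < p`); summing over the other
`k - 1` coordinates: `≤ (2H)^(k-1) * 5H/p ≤ (2H)^k * 3/p`. (`bxS k H` is a `Fintype.piFinset`; to isolate a coordinate use
`Fintype.piFinset` and `Finset.sum_comm'` / `Fin.insertNthEquiv`, or `Function.update`; or reindex by `Equiv.funSplitAt i0`.)
Then `∑_d (1_{p∣d} + 1/p) ≤ 3L/p` by `b09_int`.
-/

open Finset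

namespace Pool.Agent.HUK

theorem b09_cnt (p : ℕ) (hp : 0 < p) (a b : ℤ) (hab : a ≤ b) (S : Finset ℤ) (hS : ∀ t ∈ S, a < t ∧ t ≤ b)
    (hd : ∀ s ∈ S, ∀ t ∈ S, (p : ℤ) ∣ s - t) : (S.card : ℝ) ≤ (b - a) / p + 1 := by
  have hp' : (0 : ℝ) < p := by exact_mod_cast hp
  rcases S.eq_empty_or_nonempty with h | ⟨t0, ht0⟩
  · rw [h, card_empty]
    have h1 : (0 : ℝ) ≤ (b - a) / p := div_nonneg (by
      have : (a : ℝ) ≤ b := by exact_mod_cast hab
      linarith) hp'.le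
    push_cast
    linarith
  · have hsub : S ⊆ (Ioc a b).filter fun x => x ≡ t0 [ZMOD (p : ℤ)] := by
      intro t ht
      rw [mem_filter, mem_Ioc]
      exact ⟨hS t ht, (Int.modEq_iff_dvd.2 (hd t0 ht0 t ht))⟩
    have hc := card_le_card hsub
    have hcard : (((Ioc a b).filter fun x => x ≡ t0 [ZMOD (p : ℤ)]).card : ℤ) =
        max (⌊((b : ℚ) - t0) / (((p : ℤ) : ℤ) : ℚ)⌋ - ⌊((a : ℚ) - t0) / (((p : ℤ) : ℤ) : ℚ)⌋) 0 := by
      exact_mod_cast Int.Ioc_filter_modEq_card a b (by exact_mod_cast hp) t0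
    have h1 : ((⌊((b : ℚ) - t0) / (((p : ℤ) : ℤ) : ℚ)⌋ - ⌊((a : ℚ) - t0) / (((p : ℤ) : ℤ) : ℚ)⌋ : ℤ) : ℚ) ≤
        ((b : ℚ) - a) / p + 1 := by
      have e1 := Int.floor_le (((b : ℚ) - t0) / (((p : ℤ) : ℤ) : ℚ))
      have e2 := Int.lt_floor_add_one (((a : ℚ) - t0) / (((p : ℤ) : ℤ) : ℚ))
      have e3 : ((b : ℚ) - a) / p = ((b : ℚ) - t0) / (((p : ℤ) : ℤ) : ℚ) - ((a : ℚ) - t0) / (((p : ℤ) : ℤ) : ℚ) := by
        push_cast
        ring
      push_cast at e1 e2 e3 ⊢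
      linarith
    have h2 : (0 : ℚ) ≤ ((b : ℚ) - a) / p + 1 := by
      have h3 : (0 : ℚ) ≤ ((b : ℚ) - a) / p := div_nonneg (by
        have : (a : ℚ) ≤ b := by exact_mod_cast hab
        linarith) (by positivity)
      linarith
    have h3 : (((Ioc a b).filter fun x => x ≡ t0 [ZMOD (p : ℤ)]).card : ℚ) ≤ ((b : ℚ) - a) / p + 1 := by
      have h4 : (((Ioc a b).filter fun x => x ≡ t0 [ZMOD (p : ℤ)]).card : ℚ) =
          ((max (⌊((b : ℚ) - t0) / (((p : ℤ) : ℤ) : ℚ)⌋ - ⌊((a : ℚ) - t0) / (((p : ℤ) : ℤ) : ℚ)⌋) 0 : ℤ) : ℚ) := by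
        rw [← hcard]
        push_cast
        rfl
      rw [h4]
      rcases max_choice (⌊((b : ℚ) - t0) / (((p : ℤ) : ℤ) : ℚ)⌋ - ⌊((a : ℚ) - t0) / (((p : ℤ) : ℤ) : ℚ)⌋) 0 with h5 | h5
      · rw [h5]
        exact h1
      · rw [h5]
        exact_mod_cast h2
    have h6 : (S.card : ℚ) ≤ ((b : ℚ) - a) / p + 1 := le_trans (by exact_mod_cast hc) h3
    exact_mod_cast h6

theorem b09_line (p H : ℕ) (hp : p.Prime) (hH : p ≤ H) (c x : ℤ) (hc : ¬ (p : ℤ) ∣ c) :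
    ∑ t ∈ Ioo (-(H : ℤ)) H, ((if (p : ℤ) ∣ x + c * t then (1 : ℝ) else 0) + 1 / p) ≤ 5 * H / p := by
  have hp' : (0 : ℝ) < p := by exact_mod_cast hp.pos
  have hpH : (p : ℝ) ≤ H := by exact_mod_cast hH
  have hH1 : (1 : ℝ) ≤ H / p := (one_le_div hp').2 hpH
  rw [sum_add_distrib, sum_const, ← sum_filter, sum_const, nsmul_eq_mul, nsmul_eq_mul, mul_one]
  have h1 := b09_cnt p hp.pos (-(H : ℤ)) H (by omega) ((Ioo (-(H : ℤ)) H).filter fun t => (p : ℤ) ∣ x + c * t)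
    (fun t ht => by
      rw [mem_filter, mem_Ioo] at ht
      exact ⟨ht.1.1, ht.1.2.le⟩)
    (fun s hs t ht => by
      rw [mem_filter] at hs ht
      have h2 : (p : ℤ) ∣ c * (s - t) := by
        have h3 := dvd_sub hs.2 ht.2
        have e : x + c * s - (x + c * t) = c * (s - t) := by ring
        rwa [e] at h3
      exact ((Nat.prime_iff_prime_int.1 hp).dvd_or_dvd h2).resolve_left hc)
  have h2 : ((Ioo (-(H : ℤ)) H).card : ℝ) ≤ 2 * H := by
    rw [Int.card_Ioo]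
    have : ((H : ℤ) - -(H : ℤ) - 1).toNat ≤ 2 * H := by omega
    exact_mod_cast this
  have h3 : ((Ioo (-(H : ℤ)) H).card : ℝ) * (1 / p) ≤ 2 * H / p := by
    rw [mul_one_div]
    exact div_le_div_of_nonneg_right h2 hp'.le
  push_cast at h1
  have e1 : ((H : ℝ) - -(H : ℝ)) / p = 2 * (H / p) := by ring
  have e2 : 2 * (H : ℝ) / p = 2 * (H / p) := by ring
  have e3 : 5 * (H : ℝ) / p = 5 * (H / p) := by ring
  rw [e1] at h1
  rw [e2] at h3
  rw [e3]
  linarith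

theorem b09_int (p L : ℕ) (hp : p.Prime) (hL : p ≤ L) (lo hi : ℤ) (h : hi - lo ≤ L) :
    ∑ d ∈ Ioc lo hi, ((if (p : ℤ) ∣ d then (1 : ℝ) else 0) + 1 / p) ≤ 3 * L / p := by
  have hp' : (0 : ℝ) < p := by exact_mod_cast hp.pos
  have hpL : (p : ℝ) ≤ L := by exact_mod_cast hL
  have hL1 : (1 : ℝ) ≤ L / p := (one_le_div hp').2 hpL
  have e3 : 3 * (L : ℝ) / p = 3 * (L / p) := by ring
  rcases lt_or_ge hi lo with hlt | hge
  · rw [Ioc_eq_empty (by omega), sum_empty]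
    positivity
  rw [sum_add_distrib, sum_const, ← sum_filter, sum_const, nsmul_eq_mul, nsmul_eq_mul, mul_one]
  have h1 := b09_cnt p hp.pos lo hi hge ((Ioc lo hi).filter fun t => (p : ℤ) ∣ t)
    (fun t ht => by
      rw [mem_filter, mem_Ioc] at ht
      exact ht.1)
    (fun s hs t ht => by
      rw [mem_filter] at hs ht
      exact dvd_sub hs.2 ht.2)
  have h0 : (hi : ℝ) - lo ≤ L := by exact_mod_cast h
  have h2 : ((Ioc lo hi).card : ℝ) ≤ L := by
    rw [Int.card_Ioc]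
    have : (hi - lo).toNat ≤ L := by omega
    exact_mod_cast this
  have h3 : ((Ioc lo hi).card : ℝ) * (1 / p) ≤ L / p := by
    rw [mul_one_div]
    exact div_le_div_of_nonneg_right h2 hp'.le
  have h4 : ((hi : ℝ) - lo) / p ≤ L / p := div_le_div_of_nonneg_right h0 hp'.le
  rw [e3]
  linarith

theorem b09_gp (A D p : ℕ) (lo hi d : ℤ) :
    |gp A D p lo hi d| ≤ (if (p : ℤ) ∣ d then (1 : ℝ) else 0) + 1 / p := by
  have h0 : (0 : ℝ) ≤ 1 / p := by positivity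
  unfold gp
  by_cases h1 : lo < d ∧ d ≤ hi ∧ (p : ℤ) * D < d * A
  · rw [if_pos h1]
    by_cases h2 : (p : ℤ) ∣ d
    · rw [if_pos h2, abs_le]
      constructor <;> linarith
    · rw [if_neg h2, abs_le]
      constructor <;> linarith
  · rw [if_neg h1, abs_zero]
    by_cases h2 : (p : ℤ) ∣ d
    · rw [if_pos h2]
      linarith
    · rw [if_neg h2]
      linarith

theorem b09_box (k H p : ℕ) (hp : p.Prime) (hk : k < p) (hH : p ≤ H) (c : Fin k → ℤ) (hc : ∀ i, 1 ≤ c i ∧ c i ≤ k)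
    (w : Finset (Fin k)) (hw : w.Nonempty) (d : ℤ) :
    ∑ j ∈ bxS k H, ((if (p : ℤ) ∣ d + sgb c j w then (1 : ℝ) else 0) + 1 / p) ≤ (2 * H : ℝ) ^ k * (3 / p) := by
  have hp' : (0 : ℝ) < p := by exact_mod_cast hp.pos
  obtain ⟨i0, hi0⟩ := hw
  rcases k with _ | k
  · exact i0.elim0
  have hci : ¬ (p : ℤ) ∣ c i0 := by
    intro h1
    have h2 := Int.le_of_dvd (by have := (hc i0).1; omega) h1
    have h3 := (hc i0).2
    omega
  have key : ∑ j ∈ bxS (k + 1) H, ((if (p : ℤ) ∣ d + sgb c j w then (1 : ℝ) else 0) + 1 / p) =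
      ∑ j' ∈ bxS k H, ∑ t ∈ Ioo (-(H : ℤ)) H, ((if (p : ℤ) ∣ (d + ∑ i ∈ w.erase i0, c i * (i0.insertNth 0 j' : Fin (k + 1) → ℤ) i) +
        c i0 * t then (1 : ℝ) else 0) + 1 / p) := by
    rw [← sum_product']
    refine sum_nbij' (fun j => (i0.removeNth j, j i0)) (fun q => (i0.insertNth q.2 q.1 : Fin (k + 1) → ℤ)) ?_ ?_ ?_ ?_ ?_
    · intro j hj
      rw [bxS, Fintype.mem_piFinset] at hj
      rw [mem_product, bxS, Fintype.mem_piFinset]
      exact ⟨fun i => hj _, hj _⟩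
    · intro q hq
      rw [mem_product, bxS, Fintype.mem_piFinset] at hq
      rw [bxS, Fintype.mem_piFinset]
      intro i
      rcases eq_or_ne i i0 with rfl | hne
      · rw [Fin.insertNth_apply_same]
        exact hq.2
      · obtain ⟨m, rfl⟩ := Fin.exists_succAbove_eq hne
        rw [Fin.insertNth_apply_succAbove]
        exact hq.1 m
    · intro j _
      exact Fin.insertNth_self_removeNth i0 j
    · intro q _
      refine Prod.ext ?_ ?_
      · exact Fin.removeNth_insertNth (α := fun _ => ℤ) i0 q.2 q.1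
      · exact Fin.insertNth_apply_same (α := fun _ => ℤ) i0 q.2 q.1
    · intro j _
      have e : d + sgb c j w = (d + ∑ i ∈ w.erase i0, c i * (i0.insertNth 0 (i0.removeNth j) : Fin (k + 1) → ℤ) i) +
          c i0 * j i0 := by
        rw [sgb, ← add_sum_erase w (fun i => c i * j i) hi0]
        have e2 : ∑ i ∈ w.erase i0, c i * (i0.insertNth 0 (i0.removeNth j) : Fin (k + 1) → ℤ) i =
            ∑ i ∈ w.erase i0, c i * j i := by
          refine sum_congr rfl fun i hi => ?_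
          obtain ⟨m, rfl⟩ := Fin.exists_succAbove_eq (ne_of_mem_erase hi)
          rw [Fin.insertNth_apply_succAbove]
          rfl
        rw [e2]
        ring
      rw [e]
  rw [key]
  have hcb : ((bxS k H).card : ℝ) ≤ (2 * H : ℝ) ^ k := by
    rw [bxS, Fintype.card_piFinset, prod_const, card_univ, Fintype.card_fin, Int.card_Ioo]
    push_cast
    have : ((H : ℤ) - -(H : ℤ) - 1).toNat ≤ 2 * H := by omega
    exact pow_le_pow_left₀ (by positivity) (by exact_mod_cast this) k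
  calc _ ≤ ∑ j' ∈ bxS k H, (5 * H / p : ℝ) := sum_le_sum fun j' _ => b09_line p H hp hH (c i0) _ hci
    _ = (bxS k H).card * (5 * H / p : ℝ) := by rw [sum_const, nsmul_eq_mul]
    _ ≤ (2 * H : ℝ) ^ k * (5 * H / p : ℝ) := by
        refine mul_le_mul_of_nonneg_right hcb (by positivity)
    _ ≤ (2 * H : ℝ) ^ (k + 1) * (3 / p) := by
        rw [pow_succ]
        have h1 : (2 * H : ℝ) ^ k * (2 * H) * (3 / p) = (2 * H : ℝ) ^ k * (6 * H / p) := by ring
        rw [h1]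
        refine mul_le_mul_of_nonneg_left ?_ (by positivity)
        refine div_le_div_of_nonneg_right ?_ hp'.le
        have : (0 : ℝ) ≤ H := by positivity
        linarith

theorem b09_pair (k A D p H L : ℕ) (hp : p.Prime) (hk : k < p) (hH : p ≤ H) (hL : p ≤ L) (lo hi : ℤ) (h : hi - lo ≤ L)
    (c : Fin k → ℤ) (hc : ∀ i, 1 ≤ c i ∧ c i ≤ k) (w : Finset (Fin k)) (hw : w.Nonempty) :
    ∑ j ∈ bxS k H, ∑ d ∈ Ioc lo hi, |gp A D p lo hi d| * |gp A D p lo hi (d + sgb c j w)| ≤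
      (2 * H : ℝ) ^ k * (9 * L / (p : ℝ) ^ 2) := by
  have hp' : (0 : ℝ) < p := by exact_mod_cast hp.pos
  rw [sum_comm]
  have hnn : ∀ d : ℤ, (0 : ℝ) ≤ (if (p : ℤ) ∣ d then (1 : ℝ) else 0) + 1 / p := fun d =>
    (abs_nonneg _).trans (b09_gp 0 0 p 0 0 d)
  calc _ ≤ ∑ d ∈ Ioc lo hi, ((if (p : ℤ) ∣ d then (1 : ℝ) else 0) + 1 / p) * ((2 * H : ℝ) ^ k * (3 / p)) := by
        refine sum_le_sum fun d _ => ?_
        rw [← mul_sum]
        refine mul_le_mul (b09_gp A D p lo hi d) ?_ (sum_nonneg fun _ _ => abs_nonneg _) (hnn d)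
        exact (sum_le_sum fun j _ => b09_gp A D p lo hi _).trans (b09_box k H p hp hk hH c hc w hw d)
    _ = (∑ d ∈ Ioc lo hi, ((if (p : ℤ) ∣ d then (1 : ℝ) else 0) + 1 / p)) * ((2 * H : ℝ) ^ k * (3 / p)) := by
        rw [sum_mul]
    _ ≤ (3 * L / p) * ((2 * H : ℝ) ^ k * (3 / p)) :=
        mul_le_mul_of_nonneg_right (b09_int p L hp hL lo hi h) (by positivity)
    _ = (2 * H : ℝ) ^ k * (9 * L / (p : ℝ) ^ 2) := by
        field_simp
        ring

end Pool.Agent.HUK
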