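import Pool.Agent.Lib.HUK.B04
import Pool.Agent.Lib.HUK.B07
import Pool.Agent.Lib.HUK.B08
import Pool.Agent.Lib.HUK.B09

/-!
# HUK B10 (M/L): the correlation of `η` along the cubes

Write `g = ge A D lo hi`, `σ_w = sgb c j w`, `S = SA A`, `N = NE k` (the `2^k - 1` non-empty subsets), and for `p ∈ PA A`
`g_p = -(1/S) gp p`, `g^(p) = -(1/S) ∑_{q ∈ (PA A).erase p} gp q`, so `g = g^(p) + g_p`. `G = (1/S) 2 log Y + 1 ≥ 1` bounds `|g|`, `|g^(p)|` and `|g_p|`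
everywhere (`b04_part` with `T = PA A`, `(PA A).erase p`, `{p}`).

PROOF. Fix `j`. `∏_{w ⊆ univ} g(d + σ_w) = g(d) ∏_{w ∈ N} g(d + σ_w)` (`σ_∅ = 0`) `= ∑_{p ∈ PA A} g_p(d) ∏_{w ∈ N} g(d + σ_w)`. For each `p`
`∏_{w∈N} g = ∏_{w∈N} g^(p) + Δ`, `|Δ| ≤ G^(2^k - 1) ∑_{w∈N} |g_p(d + σ_w)|` (`b08_prod`). The main part is
`(-1/S)^(2^k) ∑_d gp p d ∏_{w∈N} ∑_{q≠p} gp q (d+σ_w)`, at most `S^(-2^k) (4A)^(2(2^k-1)+1)` by `b07_main`; sum over the at most `3A ≤ 4A`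
primes: `≤ S^(-2^k) (4A)^(2^(k+1))`. The rest, summed over `p`, `d`, `j`: `G^(2^k) S^(-2) ∑_p ∑_{w∈N} ∑_j ∑_d |gp p d| |gp p (d+σ_w)|
≤ G^(2^k) S^(-2) 3A 2^k (2H)^k 9L/A^2` by `b09_pair` (`p > A`, `p ≤ 4A ≤ H, L`). The sum over `d ∈ ℤ` of the product is a sum over
`Ioc lo hi` as `g(d) = 0` outside. `#(bxS k H) ≤ (2H)^k`.
-/

open Finset

namespace Pool.Agent.HUK

theorem b10_card_PA (A : ℕ) : (#(PA A) : ℝ) ≤ 3 * A := by
  have h1 : #(PA A) ≤ #(Ioc A (4 * A)) := Finset.card_filter_le _ _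
  rw [Nat.card_Ioc] at h1
  have h2 : #(PA A) ≤ 3 * A := by omega
  exact_mod_cast h2

theorem b10_card_NE (k : ℕ) : #(NE k) + 1 = 2 ^ k := by
  unfold NE
  rw [Finset.card_erase_of_mem (Finset.mem_univ _), Finset.card_univ, Fintype.card_finset,
    Fintype.card_fin]
  have : 0 < 2 ^ k := pow_pos (by norm_num) _
  omega

theorem b10_card_bx (k H : ℕ) : (#(bxS k H) : ℝ) ≤ (2 * H : ℝ) ^ k := by
  have h1 : #(bxS k H) ≤ (2 * H) ^ k := by
    unfold bxS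
    rw [Fintype.card_piFinset]
    calc ∏ _i : Fin k, #(Ioo (-(H : ℤ)) H) ≤ ∏ _i : Fin k, 2 * H := by
          refine Finset.prod_le_prod' fun i _ => ?_
          rw [Int.card_Ioo]
          omega
      _ = (2 * H) ^ k := by
          rw [Finset.prod_const, Finset.card_univ, Fintype.card_fin]
  calc (#(bxS k H) : ℝ) ≤ (((2 * H) ^ k : ℕ) : ℝ) := by exact_mod_cast h1
    _ = (2 * H : ℝ) ^ k := by push_cast; ring

/-- One prime, one shift vector. -/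
theorem b10_one (k A D p : ℕ) (hA : 2 ≤ A) (hS : 0 < SA A) (hp : p ∈ PA A) (lo hi : ℤ) (hlo : 0 ≤ lo)
    (Y : ℝ) (hY : 1 ≤ Y) (hhi : (hi : ℝ) ≤ Y) (σ : Finset (Fin k) → ℤ) :
    |∑ d ∈ Ioc lo hi, gp A D p lo hi d * ∏ w ∈ NE k, ge A D lo hi (d + σ w)| ≤
      (1 / SA A) ^ #(NE k) * (4 * A : ℝ) ^ (2 * #(NE k) + 1) +
      ((1 / SA A) * (2 * Real.log Y) + 1) ^ #(NE k) * ((1 / SA A) *
        ∑ w ∈ NE k, ∑ d ∈ Ioc lo hi, |gp A D p lo hi d| * |gp A D p lo hi (d + σ w)|) := by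
  obtain ⟨G, hG⟩ : ∃ G : ℝ, G = (1 / SA A) * (2 * Real.log Y) + 1 := ⟨_, rfl⟩
  obtain ⟨a, ha⟩ : ∃ a : ℤ → ℝ, ∀ x, a x = -(1 / SA A) * ∑ q ∈ (PA A).erase p, gp A D q lo hi x :=
    ⟨_, fun _ => rfl⟩
  obtain ⟨b, hb⟩ : ∃ b : ℤ → ℝ, ∀ x, b x = -(1 / SA A) * gp A D p lo hi x := ⟨_, fun _ => rfl⟩
  have hS1 : 0 ≤ 1 / SA A := by positivity
  have hG1 : 1 ≤ G := by
    rw [hG]
    have h1 : 0 ≤ Real.log Y := Real.log_nonneg hY
    have h2 : 0 ≤ (1 / SA A) * (2 * Real.log Y) := mul_nonneg hS1 (by linarith)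
    linarith
  have hab : ∀ x, ge A D lo hi x = a x + b x := by
    intro x
    rw [ha, hb, ge, ← Finset.add_sum_erase _ _ hp]
    ring
  have haG : ∀ x, |a x| ≤ G := by
    intro x
    rw [ha, abs_mul, abs_neg, abs_of_nonneg hS1, hG]
    refine le_trans (mul_le_mul_of_nonneg_left (Finset.abs_sum_le_sum_abs _ _) hS1) ?_
    exact b04_part A D hA hS ((PA A).erase p) (Finset.erase_subset _ _) lo hi x hlo Y hY hhi
  have hgG : ∀ x, |a x + b x| ≤ G := by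
    intro x
    rw [← hab, ge, abs_mul, abs_neg, abs_of_nonneg hS1, hG]
    refine le_trans (mul_le_mul_of_nonneg_left (Finset.abs_sum_le_sum_abs _ _) hS1) ?_
    exact b04_part A D hA hS (PA A) (Finset.Subset.refl _) lo hi x hlo Y hY hhi
  have hdec : ∀ d, gp A D p lo hi d * ∏ w ∈ NE k, ge A D lo hi (d + σ w) =
      gp A D p lo hi d * ∏ w ∈ NE k, a (d + σ w) +
      gp A D p lo hi d * (∏ w ∈ NE k, (a (d + σ w) + b (d + σ w)) - ∏ w ∈ NE k, a (d + σ w)) := by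
    intro d
    rw [Finset.prod_congr rfl fun w _ => hab (d + σ w)]
    ring
  have hmain : |∑ d ∈ Ioc lo hi, gp A D p lo hi d * ∏ w ∈ NE k, a (d + σ w)| ≤
      (1 / SA A) ^ #(NE k) * (4 * A : ℝ) ^ (2 * #(NE k) + 1) := by
    have h1 : ∑ d ∈ Ioc lo hi, gp A D p lo hi d * ∏ w ∈ NE k, a (d + σ w) =
        (-(1 / SA A)) ^ #(NE k) * ∑ d ∈ Ioc lo hi, gp A D p lo hi d *
          ∏ w ∈ NE k, ∑ q ∈ (PA A).erase p, gp A D q lo hi (d + σ w) := by
      rw [Finset.mul_sum]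
      refine Finset.sum_congr rfl fun d _ => ?_
      rw [Finset.prod_congr rfl fun w _ => ha (d + σ w), Finset.prod_mul_distrib,
        Finset.prod_const]
      ring
    rw [h1, abs_mul, abs_pow, abs_neg, abs_of_nonneg hS1]
    exact mul_le_mul_of_nonneg_left (b07_main A D p (by omega) hp (NE k) σ lo hi)
      (pow_nonneg hS1 _)
  have hrest : |∑ d ∈ Ioc lo hi, gp A D p lo hi d *
      (∏ w ∈ NE k, (a (d + σ w) + b (d + σ w)) - ∏ w ∈ NE k, a (d + σ w))| ≤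
      G ^ #(NE k) * ((1 / SA A) *
        ∑ w ∈ NE k, ∑ d ∈ Ioc lo hi, |gp A D p lo hi d| * |gp A D p lo hi (d + σ w)|) := by
    calc |∑ d ∈ Ioc lo hi, gp A D p lo hi d *
          (∏ w ∈ NE k, (a (d + σ w) + b (d + σ w)) - ∏ w ∈ NE k, a (d + σ w))|
        ≤ ∑ d ∈ Ioc lo hi, |gp A D p lo hi d *
          (∏ w ∈ NE k, (a (d + σ w) + b (d + σ w)) - ∏ w ∈ NE k, a (d + σ w))| :=
          Finset.abs_sum_le_sum_abs _ _
      _ ≤ ∑ d ∈ Ioc lo hi, G ^ #(NE k) * ((1 / SA A) *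
          ∑ w ∈ NE k, |gp A D p lo hi d| * |gp A D p lo hi (d + σ w)|) := by
          refine Finset.sum_le_sum fun d _ => ?_
          rw [abs_mul]
          have h2 := b08_prod (NE k) (fun w => a (d + σ w)) (fun w => b (d + σ w)) G hG1
            (fun w _ => haG _) (fun w _ => hgG _)
          calc |gp A D p lo hi d| *
                |∏ w ∈ NE k, (a (d + σ w) + b (d + σ w)) - ∏ w ∈ NE k, a (d + σ w)|
              ≤ |gp A D p lo hi d| * (G ^ #(NE k) * ∑ w ∈ NE k, |b (d + σ w)|) :=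
                mul_le_mul_of_nonneg_left h2 (abs_nonneg _)
            _ = G ^ #(NE k) * ((1 / SA A) *
                ∑ w ∈ NE k, |gp A D p lo hi d| * |gp A D p lo hi (d + σ w)|) := by
                have h3 : ∀ w, |b (d + σ w)| = (1 / SA A) * |gp A D p lo hi (d + σ w)| := by
                  intro w
                  rw [hb, abs_mul, abs_neg, abs_of_nonneg hS1]
                rw [Finset.sum_congr rfl fun w _ => h3 w, ← Finset.mul_sum, ← Finset.mul_sum]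
                ring
      _ = G ^ #(NE k) * ((1 / SA A) *
          ∑ w ∈ NE k, ∑ d ∈ Ioc lo hi, |gp A D p lo hi d| * |gp A D p lo hi (d + σ w)|) := by
          rw [← Finset.mul_sum, ← Finset.mul_sum, Finset.sum_comm]
  rw [Finset.sum_congr rfl fun d _ => hdec d, Finset.sum_add_distrib, ← hG]
  exact le_trans (abs_add_le _ _) (add_le_add hmain hrest)

/-- One shift vector, all primes. -/
theorem b10_all (k A D : ℕ) (hA : 2 ≤ A) (hS : 0 < SA A) (lo hi : ℤ) (hlo : 0 ≤ lo)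
    (Y : ℝ) (hY : 1 ≤ Y) (hhi : (hi : ℝ) ≤ Y) (c j : Fin k → ℤ) :
    |∑ d ∈ Ioc lo hi, ∏ w : Finset (Fin k), ge A D lo hi (d + sgb c j w)| ≤
      (1 / SA A) * ∑ p ∈ PA A, ((1 / SA A) ^ #(NE k) * (4 * A : ℝ) ^ (2 * #(NE k) + 1) +
      ((1 / SA A) * (2 * Real.log Y) + 1) ^ #(NE k) * ((1 / SA A) *
        ∑ w ∈ NE k, ∑ d ∈ Ioc lo hi, |gp A D p lo hi d| * |gp A D p lo hi (d + sgb c j w)|)) := by
  have hS1 : 0 ≤ 1 / SA A := by positivity
  have h1 : ∑ d ∈ Ioc lo hi, ∏ w : Finset (Fin k), ge A D lo hi (d + sgb c j w) =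
      -(1 / SA A) * ∑ p ∈ PA A, ∑ d ∈ Ioc lo hi, gp A D p lo hi d *
        ∏ w ∈ NE k, ge A D lo hi (d + sgb c j w) := by
    rw [Finset.sum_comm, Finset.mul_sum]
    refine Finset.sum_congr rfl fun d _ => ?_
    rw [← Finset.mul_prod_erase Finset.univ (fun w => ge A D lo hi (d + sgb c j w))
      (Finset.mem_univ (∅ : Finset (Fin k)))]
    have h2 : sgb c j (∅ : Finset (Fin k)) = 0 := by
      unfold sgb
      exact Finset.sum_empty
    change ge A D lo hi (d + sgb c j ∅) * ∏ w ∈ NE k, ge A D lo hi (d + sgb c j w) = _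
    rw [h2, add_zero, ← Finset.sum_mul]
    conv_lhs => rw [ge]
    ring
  rw [h1, abs_mul, abs_neg, abs_of_nonneg hS1]
  refine mul_le_mul_of_nonneg_left ?_ hS1
  refine le_trans (Finset.abs_sum_le_sum_abs _ _) ?_
  exact Finset.sum_le_sum fun p hp => b10_one k A D p hA hS hp lo hi hlo Y hY hhi (sgb c j)

theorem b10_corr (k A D H L : ℕ) (hA : 2 ≤ A) (hkA : k ≤ A) (hH : 4 * A ≤ H) (hL : 4 * A ≤ L) (hS : 0 < SA A) (lo hi : ℤ)
    (hlo : 0 ≤ lo) (h : hi - lo ≤ L) (Y : ℝ) (hY : 1 ≤ Y) (hhi : (hi : ℝ) ≤ Y)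
    (c : Fin k → ℤ) (hc : ∀ i, 1 ≤ c i ∧ c i ≤ k) :
    ∑ j ∈ bxS k H, |∑ d ∈ Ioc lo hi, ∏ w : Finset (Fin k), ge A D lo hi (d + sgb c j w)| ≤
      (2 * H : ℝ) ^ k * ((1 / SA A) ^ (2 ^ k) * (4 * A : ℝ) ^ (2 ^ (k + 1))
        + 27 * 2 ^ k * ((1 / SA A) * (2 * Real.log Y) + 1) ^ (2 ^ k) * (1 / SA A) ^ 2 * L / A) := by
  obtain ⟨N, hN⟩ : ∃ N : ℕ, N = #(NE k) := ⟨_, rfl⟩
  have hN1 : N + 1 = 2 ^ k := by rw [hN]; exact b10_card_NE k
  obtain ⟨s, hs⟩ : ∃ s : ℝ, s = 1 / SA A := ⟨_, rfl⟩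
  obtain ⟨G, hG⟩ : ∃ G : ℝ, G = s * (2 * Real.log Y) + 1 := ⟨_, rfl⟩
  have hs0 : 0 < s := by rw [hs]; positivity
  have hG1 : 1 ≤ G := by
    rw [hG]
    have h1 : 0 ≤ Real.log Y := Real.log_nonneg hY
    have h2 : 0 ≤ s * (2 * Real.log Y) := mul_nonneg hs0.le (by linarith)
    linarith
  have hA0 : (0 : ℝ) < A := by
    have : 0 < A := by omega
    exact_mod_cast this
  obtain ⟨B, hB⟩ : ∃ B : ℝ, B = (2 * H : ℝ) ^ k := ⟨_, rfl⟩
  have hB0 : 0 ≤ B := by rw [hB]; positivity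
  have hcard := b10_card_bx k H
  rw [← hB] at hcard
  -- the sum over the shift vectors
  have h1 : ∑ j ∈ bxS k H, |∑ d ∈ Ioc lo hi, ∏ w : Finset (Fin k), ge A D lo hi (d + sgb c j w)| ≤
      s * ∑ p ∈ PA A, (B * (s ^ N * (4 * A : ℝ) ^ (2 * N + 1)) +
        G ^ N * (s * ∑ w ∈ NE k, (B * (9 * L / (p : ℝ) ^ 2)))) := by
    calc ∑ j ∈ bxS k H, |∑ d ∈ Ioc lo hi, ∏ w : Finset (Fin k), ge A D lo hi (d + sgb c j w)|
        ≤ ∑ j ∈ bxS k H, s * ∑ p ∈ PA A, (s ^ N * (4 * A : ℝ) ^ (2 * N + 1) +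
          G ^ N * (s * ∑ w ∈ NE k, ∑ d ∈ Ioc lo hi,
            |gp A D p lo hi d| * |gp A D p lo hi (d + sgb c j w)|)) := by
          refine Finset.sum_le_sum fun j _ => ?_
          have h2 := b10_all k A D hA hS lo hi hlo Y hY hhi c j
          rw [← hs, ← hG, ← hN] at h2
          exact h2
      _ = s * ∑ p ∈ PA A, ((#(bxS k H) : ℝ) * (s ^ N * (4 * A : ℝ) ^ (2 * N + 1)) +
          G ^ N * (s * ∑ w ∈ NE k, ∑ j ∈ bxS k H, ∑ d ∈ Ioc lo hi,
            |gp A D p lo hi d| * |gp A D p lo hi (d + sgb c j w)|)) := by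
          rw [← Finset.mul_sum, Finset.sum_comm]
          congr 1
          refine Finset.sum_congr rfl fun p _ => ?_
          rw [Finset.sum_add_distrib, Finset.sum_const, nsmul_eq_mul, ← Finset.mul_sum,
            ← Finset.mul_sum, Finset.sum_comm]
      _ ≤ s * ∑ p ∈ PA A, (B * (s ^ N * (4 * A : ℝ) ^ (2 * N + 1)) +
          G ^ N * (s * ∑ w ∈ NE k, (B * (9 * L / (p : ℝ) ^ 2)))) := by
          refine mul_le_mul_of_nonneg_left (Finset.sum_le_sum fun p hp => ?_) hs0.le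
          refine add_le_add (mul_le_mul_of_nonneg_right hcard (by positivity)) ?_
          refine mul_le_mul_of_nonneg_left (mul_le_mul_of_nonneg_left
            (Finset.sum_le_sum fun w hw => ?_) hs0.le) (by positivity)
          unfold PA at hp
          rw [Finset.mem_filter, Finset.mem_Ioc] at hp
          unfold NE at hw
          rw [Finset.mem_erase] at hw
          rw [hB]
          exact b09_pair k A D p H L hp.2 (by omega) (by omega) (by omega) lo hi h c hc w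
            (Finset.nonempty_iff_ne_empty.2 hw.1)
  refine le_trans h1 ?_
  -- the sum over the primes
  have h3 : ∑ p ∈ PA A, (B * (s ^ N * (4 * A : ℝ) ^ (2 * N + 1)) +
      G ^ N * (s * ∑ w ∈ NE k, (B * (9 * L / (p : ℝ) ^ 2)))) ≤
      (3 * A) * (B * (s ^ N * (4 * A : ℝ) ^ (2 * N + 1)) +
      G ^ N * (s * (N * (B * (9 * L / (A : ℝ) ^ 2))))) := by
    have h4 : ∀ p ∈ PA A, (B * (s ^ N * (4 * A : ℝ) ^ (2 * N + 1)) +
        G ^ N * (s * ∑ w ∈ NE k, (B * (9 * L / (p : ℝ) ^ 2)))) ≤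
        B * (s ^ N * (4 * A : ℝ) ^ (2 * N + 1)) +
        G ^ N * (s * (N * (B * (9 * L / (A : ℝ) ^ 2)))) := by
      intro p hp
      unfold PA at hp
      rw [Finset.mem_filter, Finset.mem_Ioc] at hp
      have hpA : (A : ℝ) ≤ p := by exact_mod_cast hp.1.1.le
      rw [Finset.sum_const, nsmul_eq_mul, ← hN]
      refine add_le_add le_rfl (mul_le_mul_of_nonneg_left (mul_le_mul_of_nonneg_left
        (mul_le_mul_of_nonneg_left (mul_le_mul_of_nonneg_left ?_ hB0) (by positivity)) hs0.le)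
        (by positivity))
      exact div_le_div_of_nonneg_left (by positivity) (by positivity)
        (pow_le_pow_left₀ hA0.le hpA 2)
    refine le_trans (Finset.sum_le_sum h4) ?_
    rw [Finset.sum_const, nsmul_eq_mul]
    exact mul_le_mul_of_nonneg_right (b10_card_PA A) (by positivity)
  refine le_trans (mul_le_mul_of_nonneg_left h3 hs0.le) ?_
  have hNk : (N : ℝ) ≤ 2 ^ k := by
    have : N ≤ 2 ^ k := by omega
    exact_mod_cast this
  have h5 : s * ((3 * A) * (B * (s ^ N * (4 * A : ℝ) ^ (2 * N + 1)))) ≤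
      B * (s ^ (2 ^ k) * (4 * A : ℝ) ^ (2 ^ (k + 1))) := by
    rw [show 2 ^ (k + 1) = 2 * N + 1 + 1 by rw [pow_succ, ← hN1]; ring, ← hN1, pow_succ s N,
      pow_succ (4 * A : ℝ) (2 * N + 1)]
    have h6 : 0 ≤ B * (s ^ N * s * (4 * A : ℝ) ^ (2 * N + 1)) * A := by positivity
    nlinarith [h6]
  have h7 : s * ((3 * A) * (G ^ N * (s * (N * (B * (9 * L / (A : ℝ) ^ 2)))))) ≤
      B * (27 * 2 ^ k * G ^ (2 ^ k) * s ^ 2 * L / A) := by
    have h8 : s * ((3 * A) * (G ^ N * (s * (N * (B * (9 * L / (A : ℝ) ^ 2)))))) =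
        (G ^ N * N) * (B * (27 * s ^ 2 * L / A)) := by
      field_simp
      ring
    have h9 : B * (27 * 2 ^ k * G ^ (2 ^ k) * s ^ 2 * L / A) =
        (G ^ (2 ^ k) * 2 ^ k) * (B * (27 * s ^ 2 * L / A)) := by
      field_simp
    rw [h8, h9]
    refine mul_le_mul_of_nonneg_right ?_ (by positivity)
    exact mul_le_mul (pow_le_pow_right₀ hG1 (by omega)) hNk (by positivity) (by positivity)
  rw [← hs, ← hG, ← hB]
  calc s * ((3 * A) * (B * (s ^ N * (4 * A : ℝ) ^ (2 * N + 1)) +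
        G ^ N * (s * (N * (B * (9 * L / (A : ℝ) ^ 2))))))
      = s * ((3 * A) * (B * (s ^ N * (4 * A : ℝ) ^ (2 * N + 1)))) +
        s * ((3 * A) * (G ^ N * (s * (N * (B * (9 * L / (A : ℝ) ^ 2)))))) := by ring
    _ ≤ B * (s ^ (2 ^ k) * (4 * A : ℝ) ^ (2 ^ (k + 1))) +
        B * (27 * 2 ^ k * G ^ (2 ^ k) * s ^ 2 * L / A) := add_le_add h5 h7
    _ = B * (s ^ (2 ^ k) * (4 * A : ℝ) ^ (2 ^ (k + 1)) +
        27 * 2 ^ k * G ^ (2 ^ k) * s ^ 2 * L / A) := by ring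

end Pool.Agent.HUK
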