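import Pool.Agent.Lib.HUK.BDefs

/-!
# HUK B11 (M, only Mathlib): iterated differences of real functions, of products, of indicators

PROOFS. `b11_real`: induction on `k`, `List.ofFn_succ`; `DL (h₀ :: l) f = DL l (DD h₀ f)` and `DD h₀ (g : ℂ) = ((g * g(· + h₀) : ℝ) : ℂ)`
(`Complex.conj_ofReal`). A subset `w` of `Fin (k+1)` is `w'` or `{0} ∪ w'` with `w' ⊆` the image of `Fin.succ`, so the product over
`Finset (Fin (k+1))` of `g (y + ∑_{i∈w} h i)` is `∏_{w' : Finset (Fin k)} g (y + ∑_{i∈w'} h (i+1)) g (y + h 0 + ∑_{i∈w'} h (i+1))`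
(bijection `Finset (Fin k) ⊕ Finset (Fin k) ≃ Finset (Fin (k+1))`, or `Finset.prod_powerset_insert` after `univ = insert 0 (univ.map succ)`).
`b11_mul`: induction on the list, `DD (v) (a ⊗ b) = DD v.1 a ⊗ DD v.2 b`.
`b11_le`: induction. `b11_zero`: `DL l f y` is a product with `f y` as a factor: induction, `DD h f y = 0` if `f y = 0`.
-/

open Finset

namespace Pool.Agent.HUK

theorem b11_prod_succ (k : ℕ) (F : Finset (Fin (k + 1)) → ℝ) :
    ∏ w : Finset (Fin (k + 1)), F w =
      (∏ w : Finset (Fin k), F (w.map (Fin.succEmb k))) * ∏ w : Finset (Fin k), F (insert 0 (w.map (Fin.succEmb k))) := by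
  have hu : (univ : Finset (Fin (k + 1))) = insert 0 (univ.map (Fin.succEmb k)) := by
    ext i
    refine Fin.cases ?_ (fun j => ?_) i
    · simp
    · simp
  have h0 : (0 : Fin (k + 1)) ∉ (univ : Finset (Fin k)).map (Fin.succEmb k) := by
    intro h
    rw [mem_map] at h
    obtain ⟨a, _, ha⟩ := h
    exact Fin.succ_ne_zero a ha
  have hb : ∀ G : Finset (Fin (k + 1)) → ℝ, ∏ t ∈ ((univ : Finset (Fin k)).map (Fin.succEmb k)).powerset, G t =
      ∏ w : Finset (Fin k), G (w.map (Fin.succEmb k)) := by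
    intro G
    symm
    refine prod_bij (fun w _ => w.map (Fin.succEmb k)) (fun w _ => ?_) (fun w _ w' _ h => ?_) (fun t ht => ?_) (fun w _ => rfl)
    · rw [mem_powerset]
      exact map_subset_map.2 (subset_univ w)
    · exact map_injective _ h
    · rw [mem_powerset, subset_map_iff] at ht
      obtain ⟨u, _, hu2⟩ := ht
      exact ⟨u, mem_univ u, hu2.symm⟩
  rw [← powerset_univ, hu, prod_powerset_insert h0, hb, hb]

theorem b11_real (k : ℕ) (h : Fin k → ℤ) (g : ℤ → ℝ) (y : ℤ) :
    DL (List.ofFn h) (fun x => ((g x : ℝ) : ℂ)) y = ((∏ w : Finset (Fin k), g (y + ∑ i ∈ w, h i) : ℝ) : ℂ) := by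
  induction k generalizing g with
  | zero =>
    have h1 : (univ : Finset (Finset (Fin 0))) = {∅} := by
      ext w
      simp only [mem_univ, mem_singleton, true_iff]
      exact eq_empty_of_isEmpty w
    rw [h1, prod_singleton, sum_empty, add_zero, List.ofFn_zero]
    rfl
  | succ k ih =>
    rw [List.ofFn_succ]
    have h1 : DD (h 0) (fun x => ((g x : ℝ) : ℂ)) = fun x => ((g x * g (x + h 0) : ℝ) : ℂ) := by
      funext x
      unfold DD
      rw [Complex.conj_ofReal, Complex.ofReal_mul]
    show DL (List.ofFn fun i => h i.succ) (DD (h 0) (fun x => ((g x : ℝ) : ℂ))) y = _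
    rw [h1, ih (fun i => h i.succ) (fun x => g x * g (x + h 0)), b11_prod_succ, prod_mul_distrib]
    congr 2
    · refine prod_congr rfl fun w _ => ?_
      rw [sum_map]
      rfl
    · refine prod_congr rfl fun w _ => ?_
      have h0 : (0 : Fin (k + 1)) ∉ w.map (Fin.succEmb k) := by
        intro h
        rw [mem_map] at h
        obtain ⟨a, _, ha⟩ := h
        exact Fin.succ_ne_zero a ha
      rw [sum_insert h0, sum_map]
      congr 1
      show y + ∑ i ∈ w, h i.succ + h 0 = y + (h 0 + ∑ i ∈ w, h i.succ)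
      ring

theorem b11_mul {G H : Type*} [AddCommGroup G] [AddCommGroup H] (l : List (G × H)) (a : G → ℂ) (b : H → ℂ) (z : G × H) :
    DL l (fun z => a z.1 * b z.2) z = DL (l.map Prod.fst) a z.1 * DL (l.map Prod.snd) b z.2 := by
  induction l generalizing a b with
  | nil => rfl
  | cons v l ih =>
    have h1 : DD v (fun z : G × H => a z.1 * b z.2) = fun z : G × H => DD v.1 a z.1 * DD v.2 b z.2 := by
      funext z
      unfold DD
      show a z.1 * b z.2 * (starRingEnd ℂ) (a (z.1 + v.1) * b (z.2 + v.2)) = _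
      rw [map_mul]
      ring
    show DL l (DD v (fun z : G × H => a z.1 * b z.2)) z = _
    rw [h1, ih (DD v.1 a) (DD v.2 b)]
    rfl

theorem b11_le {G : Type*} [AddCommGroup G] (l : List G) (f : G → ℂ) (hf : ∀ y, ‖f y‖ ≤ 1) (y : G) : ‖DL l f y‖ ≤ 1 := by
  induction l generalizing f with
  | nil => exact hf y
  | cons v l ih =>
    refine ih (DD v f) fun x => ?_
    unfold DD
    rw [norm_mul, RCLike.norm_conj]
    exact mul_le_one₀ (hf x) (norm_nonneg _) (hf _)

theorem b11_zero {G : Type*} [AddCommGroup G] (l : List G) (f : G → ℂ) (y : G) (hf : f y = 0) : DL l f y = 0 := by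
  induction l generalizing f with
  | nil => exact hf
  | cons v l ih =>
    refine ih (DD v f) ?_
    unfold DD
    rw [hf, zero_mul]

end Pool.Agent.HUK
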