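import Pool.Agent.Lib.HUK.BDefs

/-!
# HUK B12 (S/M, only Mathlib): support and bounds of the dual function `Psi`

PROOFS. In `Psi X k f n` a non-zero term has `n - k h ∈ [-X, X)` (`j = 0`) and `n - (k-1) h ∈ [-X, X)` would need the index `j = 1 < k`
(as `k ≥ 2`). Then `n = k (n - (k-1) h) - (k-1) (n - k h)`, so `|n| ≤ k X + (k-1) X < 2 k X`.
`b12_log`: for `1 ≤ d ≤ Y`, `log d = ∑_{1 ≤ i < d} log(1 + 1/i)`, so
`∑_{d ∈ [1,Y]} a(d) log d = ∑_{i ∈ [1,Y]} log(1+1/i) ∑_{d ∈ (i, Y]} a(d)`, and `∑_{i ≤ Y} log (1+1/i) = log (Y+1)`.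
-/

open Finset

namespace Pool.Agent.HUK

theorem b12_psi_zero (X k : ℕ) (hk : 2 ≤ k) (f : ℕ → ℤ → ℂ) (hf : ∀ j, j < k → Bdd X (f j)) (n : ℤ)
    (hn : (2 * k * X : ℤ) < n) : Psi X k f n = 0 := by
  unfold Psi
  refine Finset.sum_eq_zero fun h _ => ?_
  by_contra hne
  rw [← ne_eq, Finset.prod_ne_zero_iff] at hne
  have h0 := hne 0 (Finset.mem_range.2 (by omega))
  have h1 := hne 1 (Finset.mem_range.2 (by omega))
  have e0 : n - ((k : ℤ) - ((0 : ℕ) : ℤ)) * h ∈ Ico (-(X : ℤ)) X := by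
    by_contra hc
    exact h0 ((hf 0 (by omega)).sup _ hc)
  have e1 : n - ((k : ℤ) - ((1 : ℕ) : ℤ)) * h ∈ Ico (-(X : ℤ)) X := by
    by_contra hc
    exact h1 ((hf 1 (by omega)).sup _ hc)
  rw [Finset.mem_Ico] at e0 e1
  push_cast at e0 e1
  have hk' : (2 : ℤ) ≤ k := by exact_mod_cast hk
  have hX : (0 : ℤ) ≤ X := by positivity
  obtain ⟨a0, a1⟩ := e0
  obtain ⟨b0, b1⟩ := e1
  have hid : n = k * (n - ((k : ℤ) - 1) * h) - (k - 1) * (n - ((k : ℤ) - 0) * h) := by ring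
  have i1 : (k : ℤ) * (n - ((k : ℤ) - 1) * h) ≤ k * X :=
    mul_le_mul_of_nonneg_left b1.le (by linarith)
  have i2 : ((k : ℤ) - 1) * (-X) ≤ (k - 1) * (n - ((k : ℤ) - 0) * h) :=
    mul_le_mul_of_nonneg_left a0 (by linarith)
  nlinarith

theorem b12_ind (Y : ℕ) (a : ℕ → ℂ) :
    ∑ d ∈ Icc 1 Y, a d * ((Real.log d : ℝ) : ℂ) =
      ∑ i ∈ Icc 1 Y, (((Real.log (i + 1) - Real.log i : ℝ)) : ℂ) * ∑ d ∈ Ioc i Y, a d := by
  have hlog : ∀ d : ℕ, 1 ≤ d → Real.log d = ∑ i ∈ Ico 1 d, (Real.log ((i : ℝ) + 1) - Real.log i) := by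
    intro d hd
    induction d, hd using Nat.le_induction with
    | base => simp
    | succ m hm ih =>
      rw [Finset.sum_Ico_succ_top hm, ← ih]
      push_cast
      ring
  have h1 : ∀ d ∈ Icc 1 Y, a d * ((Real.log d : ℝ) : ℂ) =
      ∑ i ∈ Icc 1 Y, if i < d then (((Real.log (i + 1) - Real.log i : ℝ)) : ℂ) * a d else 0 := by
    intro d hd
    rw [Finset.mem_Icc] at hd
    rw [hlog d hd.1, ← Finset.sum_filter]
    have hs : (Icc 1 Y).filter (fun i => i < d) = Ico 1 d := by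
      ext i
      simp only [Finset.mem_filter, Finset.mem_Icc, Finset.mem_Ico]
      omega
    rw [hs]
    push_cast
    rw [Finset.mul_sum]
    refine Finset.sum_congr rfl fun i _ => ?_
    ring
  rw [Finset.sum_congr rfl h1, Finset.sum_comm]
  refine Finset.sum_congr rfl fun i hi => ?_
  rw [Finset.mem_Icc] at hi
  rw [← Finset.sum_filter, Finset.mul_sum]
  refine Finset.sum_congr ?_ fun d _ => rfl
  ext d
  simp only [Finset.mem_filter, Finset.mem_Icc, Finset.mem_Ioc]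
  omega

theorem b12_log (Y : ℕ) (a : ℕ → ℂ) (E : ℝ) (hE : ∀ i : ℕ, ‖∑ d ∈ Ioc i Y, a d‖ ≤ E) :
    ‖∑ d ∈ Icc 1 Y, a d * ((Real.log d : ℝ) : ℂ)‖ ≤ E * Real.log (Y + 1) := by
  rw [b12_ind]
  have hmono : ∀ i ∈ Icc 1 Y, 0 ≤ Real.log ((i : ℝ) + 1) - Real.log i := by
    intro i hi
    rw [Finset.mem_Icc] at hi
    have : (0 : ℝ) < i := by exact_mod_cast hi.1
    have := Real.log_le_log this (by linarith : (i : ℝ) ≤ i + 1)
    linarith
  have htel : ∑ i ∈ Icc 1 Y, (Real.log ((i : ℝ) + 1) - Real.log i) = Real.log (Y + 1) := by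
    have : Icc 1 Y = Ico 1 (Y + 1) := by
      ext i
      simp only [Finset.mem_Icc, Finset.mem_Ico]
      omega
    rw [this]
    have h := Finset.sum_Ico_sub (fun i : ℕ => Real.log (i : ℝ)) (by omega : 1 ≤ Y + 1)
    push_cast at h
    rw [h]
    simp
  calc ‖∑ i ∈ Icc 1 Y, (((Real.log (i + 1) - Real.log i : ℝ)) : ℂ) * ∑ d ∈ Ioc i Y, a d‖
      ≤ ∑ i ∈ Icc 1 Y, (Real.log ((i : ℝ) + 1) - Real.log i) * E := by
        refine (norm_sum_le _ _).trans (Finset.sum_le_sum fun i hi => ?_)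
        rw [norm_mul, Complex.norm_real, Real.norm_of_nonneg (hmono i hi)]
        exact mul_le_mul_of_nonneg_left (hE i) (hmono i hi)
    _ = E * Real.log (Y + 1) := by
        rw [← Finset.sum_mul, htel, mul_comm]

end Pool.Agent.HUK
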