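import Pool.Agent.Lib.HUK.B11
import Pool.Agent.Lib.HUK.E1

/-!
# HUK B13 (M/L): killing all functions of the dual function by Cauchy-Schwarz

PROOF. `E1_elim` with `G = ℤ × ℤ`, `r = k`, `B = Ioc lo hi ×ˢ Ioo (-2X) (2X)`, `B' = Ioc (lo - k H) hi ×ˢ Ioo (-2X - m H) (2X)`,
`v i = (k - i, m)`, `g i z = f i (z.1 * m - (k - i) * z.2)` (bounded by `Bdd.le`, invariant under `v i`: `(z.1 + (k-i)) m - (k-i) (z.2 + m)`),
`c z = a z.1 * b z.2` with `a d = (g d : ℂ)`, `b h = if h ∈ Ioo (-2X) (2X) then 1 else 0`. If `z + h • v i ∈ B`, `0 ≤ h < H`, then `z ∈ B'` (`1 ≤ k - i ≤ k`).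
`N = 8 (k+1) L X`: `#B' ≤ (L + k H) (4X + m H) ≤ (k+1) L * 8 X` (if `lo - kH > hi` the set is empty; `Int.card_Ioc`, `Int.card_Ioo`, `toNat`).
The left side: `∑_{z ∈ B} (∏_i g i z) c z = ∑_{d ∈ Ioc lo hi} g d * Psi X k f (d m)` (`Finset.sum_product`, `Finset.prod_range`).
The right side: `b11_mul` (`List.map` of `List.ofFn` is `List.ofFn`: `List.map_ofFn`): `DL (ofFn (j i • v i)) c z = DL (ofFn fun i => j i * (k - i)) a z.1 *
DL (ofFn fun i => j i * m) b z.2`; the sum over `B` is the product of the sums; the second has absolute value at most `4X` (`b11_le`), the first is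
`∑_{d ∈ Ioc lo hi} ∏_w g (d + ∑_{i ∈ w} j i (k - i))` (`b11_real`), i.e. the real number of the claim (`sgb`, commutativity).
So `(‖Σ‖/N)^(2^k) ≤ 2^(2^k) / H^k * ∑_j 4X |T j| / N`; multiply by `N^(2^k)`:
`‖Σ‖^(2^k) ≤ 2^(2^k) 4 N^(2^k - 1) X / H^k ∑_j |T j|`, and `N^(2^k-1) = (8(k+1))^(2^k-1) (L X)^(2^k-1)`. `C = 4 * 2^(2^k) * (8 (k+1))^(2^k)`.
-/

open Finset

namespace Pool.Agent.HUK

private theorem b13_left (X k m : ℕ) (f : ℕ → ℤ → ℂ) (lo hi : ℤ) (g : ℤ → ℝ) :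
    ∑ z ∈ Ioc lo hi ×ˢ Ioo (-(2 * X : ℤ)) (2 * X),
      (∏ i : Fin k, f i (z.1 * m - ((k : ℤ) - i) * z.2)) *
        (((g z.1 : ℝ) : ℂ) * (if z.2 ∈ Ioo (-(2 * X : ℤ)) (2 * X) then 1 else 0)) =
    ∑ d ∈ Ioc lo hi, ((g d : ℝ) : ℂ) * Psi X k f (d * m) := by
  rw [Finset.sum_product]
  refine Finset.sum_congr rfl fun d _ => ?_
  unfold Psi
  rw [Finset.mul_sum]
  refine Finset.sum_congr rfl fun h hh => ?_
  simp only [hh, if_true, mul_one]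
  rw [mul_comm, Finset.prod_range]

private theorem b13_card (X k m H L : ℕ) (lo hi : ℤ) (hL : hi - lo ≤ L) (hHL : H ≤ L) (hmH : m * H ≤ 4 * X) (hX : 1 ≤ X) :
    ((Ioc (lo - k * H) hi ×ˢ Ioo (-(2 * X : ℤ) - m * H) (2 * X)).card : ℝ) ≤ 8 * (k + 1) * L * X := by
  rw [Finset.card_product, Int.card_Ioc, Int.card_Ioo]
  have h1 : (hi - (lo - k * H)).toNat ≤ (k + 1) * L := by
    have h2 : (k : ℤ) * H ≤ k * L := by exact_mod_cast Nat.mul_le_mul_left k hHL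
    have h3 : hi - (lo - k * H) ≤ (((k + 1) * L : ℕ) : ℤ) := by
      push_cast
      linarith
    exact Int.toNat_le.mpr h3
  have h4 : ((2 * X : ℤ) - (-(2 * X : ℤ) - m * H) - 1).toNat ≤ 8 * X := by
    have h5 : ((m : ℤ) * H) ≤ 4 * X := by exact_mod_cast hmH
    exact Int.toNat_le.mpr (by push_cast; linarith)
  have h6 := Nat.mul_le_mul h1 h4
  have h7 : (((hi - (lo - k * H)).toNat * ((2 * X : ℤ) - (-(2 * X : ℤ) - m * H) - 1).toNat : ℕ) : ℝ) ≤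
      (((k + 1) * L * (8 * X) : ℕ) : ℝ) := by exact_mod_cast h6
  refine h7.trans (le_of_eq ?_)
  push_cast
  ring

private theorem b13_right (X k m : ℕ) (lo hi : ℤ) (g : ℤ → ℝ) (hX : 1 ≤ X) (j : Fin k → ℤ) :
    ‖∑ z ∈ Ioc lo hi ×ˢ Ioo (-(2 * X : ℤ)) (2 * X),
      DL (List.ofFn fun i : Fin k => j i • (((k : ℤ) - i, (m : ℤ)) : ℤ × ℤ))
        (fun z : ℤ × ℤ => ((g z.1 : ℝ) : ℂ) * (if z.2 ∈ Ioo (-(2 * X : ℤ)) (2 * X) then 1 else 0)) z‖ ≤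
    |∑ d ∈ Ioc lo hi, ∏ w : Finset (Fin k), g (d + sgb (fun i => (k : ℤ) - i) j w)| * (4 * X) := by
  have hb := fun z : ℤ × ℤ => b11_mul (List.ofFn fun i : Fin k => j i • (((k : ℤ) - i, (m : ℤ)) : ℤ × ℤ))
    (fun d => ((g d : ℝ) : ℂ)) (fun h => if h ∈ Ioo (-(2 * X : ℤ)) (2 * X) then (1 : ℂ) else 0) z
  rw [Finset.sum_congr rfl fun z _ => hb z, Finset.sum_product]
  simp only [List.map_ofFn]
  rw [← Finset.sum_mul_sum, norm_mul]
  refine mul_le_mul ?_ ?_ (norm_nonneg _) (abs_nonneg _)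
  · have h1 : ∀ d, DL (List.ofFn (Prod.fst ∘ fun i : Fin k => j i • (((k : ℤ) - i, (m : ℤ)) : ℤ × ℤ))) (fun d => ((g d : ℝ) : ℂ)) d =
        ((∏ w : Finset (Fin k), g (d + sgb (fun i => (k : ℤ) - i) j w) : ℝ) : ℂ) := by
      intro d
      rw [b11_real]
      congr 1
      refine Finset.prod_congr rfl fun w _ => ?_
      congr 2
      unfold sgb
      refine Finset.sum_congr rfl fun i _ => ?_
      simp [mul_comm]
    rw [Finset.sum_congr rfl fun d _ => h1 d, ← Complex.ofReal_sum, Complex.norm_real, Real.norm_eq_abs]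
  · refine (norm_sum_le _ _).trans ?_
    refine (Finset.sum_le_sum fun h _ => b11_le _ _ (fun y => ?_) h).trans ?_
    · by_cases hy : y ∈ Ioo (-(2 * X : ℤ)) (2 * X)
      · simp [hy]
      · simp [hy]
    · rw [Finset.sum_const, nsmul_eq_mul, mul_one, Int.card_Ioo]
      have h2 : ((2 * X : ℤ) - -(2 * X : ℤ) - 1).toNat ≤ 4 * X := Int.toNat_le.mpr (by push_cast; linarith)
      have h3 : ((((2 * X : ℤ) - -(2 * X : ℤ) - 1).toNat : ℕ) : ℝ) ≤ ((4 * X : ℕ) : ℝ) := by exact_mod_cast h2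
      refine h3.trans (le_of_eq ?_)
      push_cast
      ring

theorem b13_elim (k : ℕ) (hk : 2 ≤ k) : ∃ C : ℝ, 1 ≤ C ∧ ∀ X m H L : ℕ, 1 ≤ X → 1 ≤ m → 1 ≤ H → H ≤ L → m * H ≤ 4 * X →
    ∀ f : ℕ → ℤ → ℂ, (∀ j, j < k → Bdd X (f j)) → ∀ lo hi : ℤ, hi - lo ≤ L → ∀ g : ℤ → ℝ, (∀ d, d ∉ Ioc lo hi → g d = 0) →
    ‖∑ d ∈ Ioc lo hi, ((g d : ℝ) : ℂ) * Psi X k f (d * m)‖ ^ (2 ^ k) ≤
      C * ((L : ℝ) * X) ^ (2 ^ k - 1) * X * (1 / (H : ℝ) ^ k) *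
        ∑ j ∈ bxS k H, |∑ d ∈ Ioc lo hi, ∏ w : Finset (Fin k), g (d + sgb (fun i => (k : ℤ) - i) j w)| := by
  refine ⟨4 * 2 ^ (2 ^ k) * (8 * (k + 1)) ^ (2 ^ k - 1), ?_, ?_⟩
  · have h1 : (1 : ℝ) ≤ 2 ^ (2 ^ k) := one_le_pow₀ (by norm_num)
    have h2 : (1 : ℝ) ≤ (8 * ((k : ℝ) + 1)) ^ (2 ^ k - 1) := one_le_pow₀ (by
      have : (0 : ℝ) ≤ k := Nat.cast_nonneg k
      linarith)
    nlinarith
  intro X m H L hX hm hH hHL hmH f hf lo hi hL g hg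
  have hX' : (0 : ℝ) < X := by exact_mod_cast hX
  have hL' : (0 : ℝ) < L := by exact_mod_cast (lt_of_lt_of_le (Nat.lt_of_lt_of_le Nat.zero_lt_one hH) hHL)
  have hH' : (0 : ℝ) < H := by exact_mod_cast hH
  have hk' : (0 : ℝ) ≤ k := Nat.cast_nonneg k
  set N : ℝ := 8 * (k + 1) * L * X with hN
  have hN0 : 0 < N := by positivity
  have hE := E1_elim (G := ℤ × ℤ) (Ioc lo hi ×ˢ Ioo (-(2 * X : ℤ)) (2 * X))
    (Ioc (lo - k * H) hi ×ˢ Ioo (-(2 * X : ℤ) - m * H) (2 * X)) N (b13_card X k m H L lo hi hL hHL hmH hX) hN0 H hH k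
    (fun i => ((k : ℤ) - i, (m : ℤ))) (fun i z => f i (z.1 * m - ((k : ℤ) - i) * z.2))
    (fun z => ((g z.1 : ℝ) : ℂ) * (if z.2 ∈ Ioo (-(2 * X : ℤ)) (2 * X) then 1 else 0))
    (fun i z => (hf i i.2).le _)
    (fun i z => by
      simp only [Prod.fst_add, Prod.snd_add]
      congr 1
      ring)
    (fun z hz => by
      rw [Finset.mem_product, not_and_or] at hz
      rcases hz with hz | hz
      · simp [hg z.1 hz]
      · simp [hz])
    (fun i z h hh hz => by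
      have s1 : (h • (((k : ℤ) - i, (m : ℤ)) : ℤ × ℤ)).1 = h * ((k : ℤ) - i) := by
        rw [Prod.smul_fst, nsmul_eq_mul]
      have s2 : (h • (((k : ℤ) - i, (m : ℤ)) : ℤ × ℤ)).2 = h * m := by
        rw [Prod.smul_snd, nsmul_eq_mul]
      rw [Finset.mem_product, Finset.mem_Ioc, Finset.mem_Ioo] at hz ⊢
      rw [Prod.fst_add, Prod.snd_add, s1, s2] at hz
      have hi1 : (i : ℤ) < k := by exact_mod_cast i.2
      have hi0 : (0 : ℤ) ≤ i := by positivity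
      have hh0 : (0 : ℤ) ≤ h := by positivity
      have hhH : (h : ℤ) ≤ H := by exact_mod_cast hh.le
      have e1 : (0 : ℤ) ≤ h * ((k : ℤ) - i) := mul_nonneg hh0 (by linarith)
      have e2 : (h : ℤ) * ((k : ℤ) - i) ≤ k * H := by
        calc (h : ℤ) * ((k : ℤ) - i) ≤ H * k := mul_le_mul hhH (by linarith) (by linarith) (by positivity)
          _ = k * H := mul_comm _ _
      have e3 : (0 : ℤ) ≤ h * m := by positivity
      have e4 : (h : ℤ) * m ≤ m * H := by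
        calc (h : ℤ) * m ≤ H * m := mul_le_mul_of_nonneg_right hhH (by positivity)
          _ = m * H := mul_comm _ _
      refine ⟨⟨by linarith [hz.1.1], by linarith [hz.1.2]⟩, ⟨by linarith [hz.2.1], by linarith [hz.2.2]⟩⟩)
  rw [b13_left] at hE
  set S : ℝ := ‖∑ d ∈ Ioc lo hi, ((g d : ℝ) : ℂ) * Psi X k f (d * m)‖ with hS
  set T : (Fin k → ℤ) → ℝ := fun j => |∑ d ∈ Ioc lo hi, ∏ w : Finset (Fin k), g (d + sgb (fun i => (k : ℤ) - i) j w)| with hT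
  have hR : (S / N) ^ (2 ^ k) ≤ 2 ^ (2 ^ k) / (H : ℝ) ^ k * ((∑ j ∈ bxS k H, T j) * (4 * X) / N) := by
    refine hE.trans (mul_le_mul_of_nonneg_left ?_ (by positivity))
    rw [Finset.sum_mul, Finset.sum_div]
    refine Finset.sum_le_sum fun j _ => ?_
    exact div_le_div_of_nonneg_right (b13_right X k m lo hi g hX j) hN0.le
  have hpow : 2 ^ k - 1 + 1 = 2 ^ k := Nat.sub_add_cancel (Nat.one_le_two_pow)
  have hSN : S ^ (2 ^ k) = (S / N) ^ (2 ^ k) * N ^ (2 ^ k) := by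
    rw [div_pow, div_mul_cancel₀]
    positivity
  rw [hSN]
  calc (S / N) ^ (2 ^ k) * N ^ (2 ^ k) ≤
      2 ^ (2 ^ k) / (H : ℝ) ^ k * ((∑ j ∈ bxS k H, T j) * (4 * X) / N) * N ^ (2 ^ k) :=
        mul_le_mul_of_nonneg_right hR (by positivity)
    _ = 2 ^ (2 ^ k) / (H : ℝ) ^ k * ((∑ j ∈ bxS k H, T j) * (4 * X)) * N ^ (2 ^ k - 1) := by
        rw [← hpow, pow_succ (n := 2 ^ k - 1) (a := N)]
        rw [hpow]
        field_simp
    _ = 4 * 2 ^ (2 ^ k) * (8 * (k + 1)) ^ (2 ^ k - 1) * ((L : ℝ) * X) ^ (2 ^ k - 1) * X * (1 / (H : ℝ) ^ k) *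
        ∑ j ∈ bxS k H, T j := by
        have : N ^ (2 ^ k - 1) = (8 * ((k : ℝ) + 1)) ^ (2 ^ k - 1) * ((L : ℝ) * X) ^ (2 ^ k - 1) := by
          rw [← mul_pow]
          congr 1
          rw [hN]
          ring
        rw [this]
        ring

end Pool.Agent.HUK
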