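import Pool.Agent.Lib.HUK.BDefs

/-!
# HUK B14 (M, only Mathlib): the numbers

PROOF. Put `ε = τ / 2^(k+4)`. For large `X`: `1/S ≤ 8 log(4 X^τ) ≤ X^ε` and `(1/S)(2 log(2kX)) + 1 ≤ X^(2ε)` (logarithms are
`o(X^ε)`: `isLittleO_log_rpow_atTop`, or `Real.add_one_le_exp` / `Real.log_le_rpow_div`), `X^τ / 2 ≤ ⌊X^τ⌋ ≤ X^τ`, `X^θ / 2 ≤ ⌊X^θ⌋ ≤ L`.
First term: `≤ C X^(2^k ε) 4^(2^(k+1)) X^(2^(k+1) τ)`, and `X^(2^(k+1) τ) = X^(2^(k+3) τ) X^(-3 * 2^(k+1) τ) ≤ 2 L X^(-6 τ)` (as `2^(k+3) τ ≤ θ`,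
`3 * 2^(k+1) ≥ 6`), so the first term is `≤ 2 C 4^(2^(k+1)) X^(τ/16) L X^(-6τ) ≤ (L/2) X^(-τ/2)`.
Second term: `≤ 27 C 2^k X^(2^(k+1) ε) X^(2ε) 2 L X^(-τ) ≤ (L/2) X^(-τ/2)` as `2^(k+1) ε + 2 ε ≤ τ/8 + τ/8 < τ/2`.
-/

open Finset

namespace Pool.Agent.HUK

theorem b14_log (a b e : ℝ) (he : 0 < e) : ∀ᶠ x : ℝ in Filter.atTop, a + b * Real.log x ≤ x ^ e := by
  have h1 := (isLittleO_log_rpow_atTop he).bound (c := 1 / (2 * (|b| + 1))) (by positivity)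
  have h2 : ∀ᶠ x : ℝ in Filter.atTop, 2 * a ≤ x ^ e := (tendsto_rpow_atTop he).eventually_ge_atTop _
  filter_upwards [h1, h2, Filter.eventually_ge_atTop (1 : ℝ)] with x h1 h2 hx
  have hxe : 0 < x ^ e := Real.rpow_pos_of_pos (by linarith) e
  rw [Real.norm_eq_abs, Real.norm_eq_abs, abs_of_pos hxe] at h1
  have h3 : b * Real.log x ≤ |b| * |Real.log x| := by
    rw [← abs_mul]
    exact le_abs_self _
  have h4 : |b| * |Real.log x| ≤ |b| * (1 / (2 * (|b| + 1)) * x ^ e) :=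
    mul_le_mul_of_nonneg_left h1 (abs_nonneg b)
  have h5 : |b| * (1 / (2 * (|b| + 1)) * x ^ e) ≤ x ^ e / 2 := by
    have hb := abs_nonneg b
    have h6 : |b| * (1 / (2 * (|b| + 1)) * x ^ e) = (|b| / (|b| + 1)) * (x ^ e / 2) := by
      field_simp
    rw [h6]
    exact mul_le_of_le_one_left (by positivity) (div_le_one_of_le₀ (by linarith) (by linarith))
  linarith

theorem b14_floor {y : ℝ} (hy : 2 ≤ y) : y / 2 ≤ (⌊y⌋₊ : ℝ) := by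
  have h1 := Nat.lt_floor_add_one y
  linarith

/-- The estimate for one x. -/
theorem b14_core (k : ℕ) (θ τ C x : ℝ) (hτ : 0 < τ) (hθτ : 2 ^ (k + 3) * τ ≤ θ) (hC : 1 ≤ C) (hx : 1 ≤ x)
    (h2 : 2 ≤ x ^ τ) (h3 : C * 4 ^ (2 ^ (k + 1) + 1) ≤ x ^ τ) (h4 : 108 * C * 2 ^ k ≤ x ^ (τ / 4))
    {a B L : ℝ} (ha : 0 < a) (haE : a ≤ x ^ (τ / 2 ^ (k + 4))) (hB : 0 ≤ B) (hBE : B ≤ x ^ (2 * (τ / 2 ^ (k + 4))))
    (hL : (⌊x ^ θ⌋₊ : ℝ) ≤ L) :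
    C * (a ^ (2 ^ k) * (4 * ⌊x ^ τ⌋₊ : ℝ) ^ (2 ^ (k + 1)) + 27 * 2 ^ k * B ^ (2 ^ k) * a ^ 2 * L / ⌊x ^ τ⌋₊) ≤
      L * x ^ (-(τ / 2)) := by
  have hx0 : 0 < x := by linarith
  have hp1 : (1 : ℝ) ≤ 2 ^ k := one_le_pow₀ (by norm_num)
  have hp : (0 : ℝ) < 2 ^ k := by positivity
  have e4 : (2 : ℝ) ^ (k + 4) = 16 * 2 ^ k := by ring
  have e3 : (2 : ℝ) ^ (k + 3) = 8 * 2 ^ k := by ring
  have e1 : (2 : ℝ) ^ (k + 1) = 2 * 2 ^ k := by ring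
  have hT1 : (⌊x ^ τ⌋₊ : ℝ) ≤ x ^ τ := Nat.floor_le (by positivity)
  have hT2 : x ^ τ / 2 ≤ (⌊x ^ τ⌋₊ : ℝ) := b14_floor h2
  have hτθ : τ ≤ θ := by nlinarith
  have hxθ : 2 ≤ x ^ θ := h2.trans (Real.rpow_le_rpow_of_exponent_le hx hτθ)
  have hL1 : x ^ (8 * 2 ^ k * τ) / 2 ≤ L := by
    have h5 : x ^ (8 * 2 ^ k * τ) ≤ x ^ θ := Real.rpow_le_rpow_of_exponent_le hx (by rw [← e3]; exact hθτ)
    have h6 := b14_floor hxθ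
    linarith
  have hL0 : 0 < L := lt_of_lt_of_le (by positivity) hL1
  -- powers
  have hnat : ∀ (y : ℝ) (n : ℕ), (x ^ y) ^ n = x ^ (y * n) := fun y n => by
    rw [← Real.rpow_natCast, ← Real.rpow_mul hx0.le]
  have hA : a ^ (2 ^ k) ≤ x ^ (τ / 16) := by
    have h5 : a ^ (2 ^ k) ≤ (x ^ (τ / 2 ^ (k + 4))) ^ (2 ^ k) := pow_le_pow_left₀ ha.le haE _
    rw [hnat] at h5
    have e5 : τ / 2 ^ (k + 4) * ((2 ^ k : ℕ) : ℝ) = τ / 16 := by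
      push_cast
      rw [e4]
      field_simp
    rwa [e5] at h5
  have hA2 : a ^ 2 ≤ x ^ (τ / 8) := by
    have h5 : a ^ 2 ≤ (x ^ (τ / 2 ^ (k + 4))) ^ 2 := pow_le_pow_left₀ ha.le haE _
    rw [hnat] at h5
    refine h5.trans (Real.rpow_le_rpow_of_exponent_le hx ?_)
    rw [e4]
    push_cast
    rw [div_mul_eq_mul_div, div_le_div_iff₀ (by positivity) (by norm_num)]
    nlinarith
  have hB1 : B ^ (2 ^ k) ≤ x ^ (τ / 8) := by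
    have h5 : B ^ (2 ^ k) ≤ (x ^ (2 * (τ / 2 ^ (k + 4)))) ^ (2 ^ k) := pow_le_pow_left₀ hB hBE _
    rw [hnat] at h5
    have e5 : 2 * (τ / 2 ^ (k + 4)) * ((2 ^ k : ℕ) : ℝ) = τ / 8 := by
      push_cast
      rw [e4]
      field_simp
      ring
    rwa [e5] at h5
  have hT3 : (4 * (⌊x ^ τ⌋₊ : ℝ)) ^ (2 ^ (k + 1)) ≤ 4 ^ (2 ^ (k + 1)) * x ^ (τ * (2 * 2 ^ k)) := by
    have h5 : (4 * (⌊x ^ τ⌋₊ : ℝ)) ^ (2 ^ (k + 1)) ≤ (4 * x ^ τ) ^ (2 ^ (k + 1)) :=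
      pow_le_pow_left₀ (by positivity) (by linarith) _
    rw [mul_pow 4 (x ^ τ), hnat] at h5
    have e5 : τ * ((2 ^ (k + 1) : ℕ) : ℝ) = τ * (2 * 2 ^ k) := by
      push_cast
      rw [e1]
    rwa [e5] at h5
  -- first term
  have hfirst : C * (a ^ (2 ^ k) * (4 * ⌊x ^ τ⌋₊ : ℝ) ^ (2 ^ (k + 1))) ≤ L / 2 * x ^ (-(τ / 2)) := by
    have h5 : a ^ (2 ^ k) * (4 * ⌊x ^ τ⌋₊ : ℝ) ^ (2 ^ (k + 1)) ≤
        x ^ (τ / 16) * (4 ^ (2 ^ (k + 1)) * x ^ (τ * (2 * 2 ^ k))) :=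
      mul_le_mul hA hT3 (by positivity) (by positivity)
    have h6 : C * (a ^ (2 ^ k) * (4 * ⌊x ^ τ⌋₊ : ℝ) ^ (2 ^ (k + 1))) ≤
        C * (x ^ (τ / 16) * (4 ^ (2 ^ (k + 1)) * x ^ (τ * (2 * 2 ^ k)))) :=
      mul_le_mul_of_nonneg_left h5 (by linarith)
    have h7 : C * (x ^ (τ / 16) * (4 ^ (2 ^ (k + 1)) * x ^ (τ * (2 * 2 ^ k)))) =
        (C * 4 ^ (2 ^ (k + 1) + 1)) * (x ^ (τ / 16) * x ^ (τ * (2 * 2 ^ k))) / 4 := by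
      rw [pow_succ (4 : ℝ) (2 ^ (k + 1))]
      ring
    have h8 : (C * 4 ^ (2 ^ (k + 1) + 1)) * (x ^ (τ / 16) * x ^ (τ * (2 * 2 ^ k))) ≤
        x ^ τ * (x ^ (τ / 16) * x ^ (τ * (2 * 2 ^ k))) :=
      mul_le_mul_of_nonneg_right h3 (by positivity)
    have h9 : x ^ τ * (x ^ (τ / 16) * x ^ (τ * (2 * 2 ^ k))) ≤ x ^ (8 * 2 ^ k * τ) * x ^ (-(τ / 2)) := by
      rw [← Real.rpow_add hx0, ← Real.rpow_add hx0, ← Real.rpow_add hx0]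
      apply Real.rpow_le_rpow_of_exponent_le hx
      nlinarith
    have h10 : x ^ (8 * 2 ^ k * τ) / 2 * x ^ (-(τ / 2)) ≤ L * x ^ (-(τ / 2)) :=
      mul_le_mul_of_nonneg_right hL1 (by positivity)
    rw [h7] at h6
    linarith
  -- second term
  have hsecond : C * (27 * 2 ^ k * B ^ (2 ^ k) * a ^ 2 * L / ⌊x ^ τ⌋₊) ≤ L / 2 * x ^ (-(τ / 2)) := by
    have hT0 : (0 : ℝ) < x ^ τ / 2 := by positivity
    have h5 : 27 * 2 ^ k * B ^ (2 ^ k) * a ^ 2 * L / ⌊x ^ τ⌋₊ ≤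
        27 * 2 ^ k * x ^ (τ / 8) * x ^ (τ / 8) * L / (x ^ τ / 2) := by
      apply div_le_div₀ (by positivity) _ hT0 hT2
      apply mul_le_mul_of_nonneg_right _ hL0.le
      apply mul_le_mul _ hA2 (by positivity) (by positivity)
      exact mul_le_mul_of_nonneg_left hB1 (by positivity)
    have h6 : C * (27 * 2 ^ k * B ^ (2 ^ k) * a ^ 2 * L / ⌊x ^ τ⌋₊) ≤
        C * (27 * 2 ^ k * x ^ (τ / 8) * x ^ (τ / 8) * L / (x ^ τ / 2)) :=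
      mul_le_mul_of_nonneg_left h5 (by linarith)
    have h7 : C * (27 * 2 ^ k * x ^ (τ / 8) * x ^ (τ / 8) * L / (x ^ τ / 2)) =
        (108 * C * 2 ^ k) * (x ^ (τ / 8) * x ^ (τ / 8) * x ^ (-τ)) * (L / 2) := by
      rw [Real.rpow_neg hx0.le]
      field_simp
      ring
    have h8 : (108 * C * 2 ^ k) * (x ^ (τ / 8) * x ^ (τ / 8) * x ^ (-τ)) ≤
        x ^ (τ / 4) * (x ^ (τ / 8) * x ^ (τ / 8) * x ^ (-τ)) :=
      mul_le_mul_of_nonneg_right h4 (by positivity)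
    have h9 : x ^ (τ / 4) * (x ^ (τ / 8) * x ^ (τ / 8) * x ^ (-τ)) = x ^ (-(τ / 2)) := by
      rw [← Real.rpow_add hx0, ← Real.rpow_add hx0, ← Real.rpow_add hx0]
      congr 1
      ring
    rw [h9] at h8
    rw [h7] at h6
    have h10 := mul_le_mul_of_nonneg_right h8 (by positivity : (0 : ℝ) ≤ L / 2)
    linarith
  have e6 : C * (a ^ (2 ^ k) * (4 * ⌊x ^ τ⌋₊ : ℝ) ^ (2 ^ (k + 1)) + 27 * 2 ^ k * B ^ (2 ^ k) * a ^ 2 * L / ⌊x ^ τ⌋₊) =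
      C * (a ^ (2 ^ k) * (4 * ⌊x ^ τ⌋₊ : ℝ) ^ (2 ^ (k + 1))) + C * (27 * 2 ^ k * B ^ (2 ^ k) * a ^ 2 * L / ⌊x ^ τ⌋₊) := by
    ring
  rw [e6]
  linarith

theorem b14_num (k : ℕ) (θ τ C : ℝ) (hτ : 0 < τ) (hθτ : 2 ^ (k + 3) * τ ≤ θ) (hθ : θ ≤ 1) (hC : 1 ≤ C) :
    ∃ X0 : ℕ, ∀ X : ℕ, X0 ≤ X → ∀ S : ℝ, 0 < S → 1 / S ≤ 8 * Real.log (4 * ⌊(X : ℝ) ^ τ⌋₊) →
    ∀ L : ℝ, (⌊(X : ℝ) ^ θ⌋₊ : ℝ) ≤ L →
    C * ((1 / S) ^ (2 ^ k) * (4 * ⌊(X : ℝ) ^ τ⌋₊ : ℝ) ^ (2 ^ (k + 1))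
        + 27 * 2 ^ k * ((1 / S) * (2 * Real.log (2 * k * X)) + 1) ^ (2 ^ k) * (1 / S) ^ 2 * L / ⌊(X : ℝ) ^ τ⌋₊) ≤
      L * (X : ℝ) ^ (-(τ / 2)) := by
  have he : 0 < τ / 2 ^ (k + 4) := by positivity
  have k1 := b14_log (8 * Real.log 4) (8 * τ) _ he
  have k2 := b14_log (2 * Real.log (2 * k + 1) + 1) 2 _ he
  have k3 : ∀ᶠ x : ℝ in Filter.atTop, max 2 (C * 4 ^ (2 ^ (k + 1) + 1)) ≤ x ^ τ :=
    (tendsto_rpow_atTop hτ).eventually_ge_atTop _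
  have k4 : ∀ᶠ x : ℝ in Filter.atTop, 108 * C * 2 ^ k ≤ x ^ (τ / 4) :=
    (tendsto_rpow_atTop (by positivity)).eventually_ge_atTop _
  have k5 := (((k1.and k2).and (k3.and k4)).and (Filter.eventually_ge_atTop (1 : ℝ)))
  have k6 := tendsto_natCast_atTop_atTop (R := ℝ) |>.eventually k5
  obtain ⟨X0, hX0⟩ := Filter.eventually_atTop.1 k6
  refine ⟨X0, fun X hX S hS hS1 L hL => ?_⟩
  obtain ⟨⟨⟨g1, g2⟩, g3, g4⟩, hx⟩ := hX0 X hX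
  have hx0 : (0 : ℝ) < X := by linarith
  have h2 := (le_max_left _ _).trans g3
  have h3 := (le_max_right _ _).trans g3
  have ha : 0 < 1 / S := by positivity
  have haE : 1 / S ≤ (X : ℝ) ^ (τ / 2 ^ (k + 4)) := by
    refine hS1.trans ?_
    have hT1 : (⌊(X : ℝ) ^ τ⌋₊ : ℝ) ≤ (X : ℝ) ^ τ := Nat.floor_le (by positivity)
    have hT2 : (X : ℝ) ^ τ / 2 ≤ (⌊(X : ℝ) ^ τ⌋₊ : ℝ) := b14_floor h2
    have h5 : Real.log (4 * ⌊(X : ℝ) ^ τ⌋₊) ≤ Real.log (4 * (X : ℝ) ^ τ) := by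
      apply Real.log_le_log
      · linarith
      · linarith
    have h6 : Real.log (4 * (X : ℝ) ^ τ) = Real.log 4 + τ * Real.log X := by
      rw [Real.log_mul (by norm_num) (by positivity), Real.log_rpow hx0]
    rw [h6] at h5
    linarith
  have hlog0 : 0 ≤ Real.log (2 * k * X) := by
    rcases Nat.eq_zero_or_pos k with hk | hk
    · rw [hk]
      simp
    · apply Real.log_nonneg
      have : (1 : ℝ) ≤ k := by exact_mod_cast hk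
      nlinarith
  have hlog1 : Real.log (2 * k * X) ≤ Real.log (2 * k + 1) + Real.log X := by
    rw [← Real.log_mul (by positivity) (by positivity)]
    rcases Nat.eq_zero_or_pos k with hk | hk
    · rw [hk]
      simp only [Nat.cast_zero, mul_zero, zero_mul, Real.log_zero, zero_add, one_mul]
      exact Real.log_nonneg hx
    · apply Real.log_le_log
      · have : (1 : ℝ) ≤ k := by exact_mod_cast hk
        positivity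
      · nlinarith
  have hE1 : 1 ≤ (X : ℝ) ^ (τ / 2 ^ (k + 4)) := Real.one_le_rpow hx he.le
  have hB : 0 ≤ (1 / S) * (2 * Real.log (2 * k * X)) + 1 := by positivity
  have hBE : (1 / S) * (2 * Real.log (2 * k * X)) + 1 ≤ (X : ℝ) ^ (2 * (τ / 2 ^ (k + 4))) := by
    have h5 : (1 / S) * (2 * Real.log (2 * k * X)) ≤ (X : ℝ) ^ (τ / 2 ^ (k + 4)) * (2 * Real.log (2 * k * X)) :=
      mul_le_mul_of_nonneg_right haE (by positivity)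
    have h6 : 2 * Real.log (2 * k * X) + 1 ≤ (X : ℝ) ^ (τ / 2 ^ (k + 4)) := by linarith
    have h7 : (X : ℝ) ^ (2 * (τ / 2 ^ (k + 4))) = (X : ℝ) ^ (τ / 2 ^ (k + 4)) * (X : ℝ) ^ (τ / 2 ^ (k + 4)) := by
      rw [← Real.rpow_add hx0]
      congr 1
      ring
    rw [h7]
    nlinarith
  exact b14_core k θ τ C X hτ hθτ hC hx h2 h3 g4 ha haE hB hBE hL

end Pool.Agent.HUK
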