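import Pool.Agent.Lib.HUK.B01
import Pool.Agent.Lib.HUK.B03
import Pool.Agent.Lib.HUK.B10
import Pool.Agent.Lib.HUK.B12
import Pool.Agent.Lib.HUK.B13
import Pool.Agent.Lib.HUK.B14

/-!
# HUK B15 (M/L): the local estimate

PROOF. `A = ⌊X^τ⌋`, `D = ⌊X^θ⌋`, `S = SA A` (`> 0` and `1/S ≤ 8 log 4A` by `b01_sa`, `X` large so that `A ≥ A0`, `A ≥ k`).
`L = 2 k X / m` (division in `ℕ`). For `d > L` one has `d m > 2kX` and `Psi = 0` (`b12_psi_zero`); for `d ≤ D` `eta = 0` (`b03_eta_supp`). So if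
`L ≤ D` or `L ≤ i` the sum is `0`. Otherwise the sum is `∑_{d ∈ Ioc (i:ℤ) L} ge A D i L d * Psi(d m)` (`b03_ge`, sums over `ℕ` and over `ℤ`).
Take `H = L / k` (division in `ℕ`): `m H ≤ 2X`, `1 ≤ H ≤ L`, and `4A ≤ H` because `L > D ≥ 4 k (A + 1)` for `X` large (`θ ≥ 2^(k+3) τ ≥ 2 τ`).
`b13_elim` with `g = ge A D i L` (zero outside `(i, L]`) and `b10_corr` with `c i = k - i`, `Y = 2kX`, `hi = L ≤ Y`:
`‖Σ‖^(2^k) ≤ C (L X)^(2^k - 1) X H^(-k) (2H)^k [...] = 2^k C (LX)^(2^k - 1) X [...] ≤ (L X)^(2^k) X^(-τ/2)` by `b14_num` with the constant `2^k C`.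
Roots: `‖Σ‖ ≤ L X * X^(-τ/2^(k+1)) ≤ (2kX/m) X X^(-τ/2^(k+1)) ≤ X^(2-c)/m` with `c = τ/2^(k+2)` once `X^c ≥ 2k`.
-/

open Finset

namespace Pool.Agent.HUK

theorem b15_cast (i L : ℕ) (f : ℤ → ℂ) : ∑ d ∈ Ioc (i : ℤ) L, f d = ∑ d ∈ Ioc i L, f (d : ℤ) := by
  refine (Finset.sum_nbij' (fun d : ℕ => (d : ℤ)) (fun d : ℤ => d.toNat) ?_ ?_ ?_ ?_ ?_).symm
  · intro d hd
    rw [mem_Ioc] at hd ⊢
    exact ⟨by exact_mod_cast hd.1, by exact_mod_cast hd.2⟩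
  · intro d hd
    rw [mem_Ioc] at hd ⊢
    omega
  · intro d hd
    simp
  · intro d hd
    rw [mem_Ioc] at hd
    exact Int.toNat_of_nonneg (by omega)
  · intro d hd
    rfl

theorem b15_ge_zero (A D i L : ℕ) (d : ℤ) (hd : d ∉ Ioc (i : ℤ) L) : ge A D i L d = 0 := by
  unfold ge
  have h : ∀ p ∈ PA A, gp A D p i L d = 0 := by
    intro p _
    unfold gp
    rw [if_neg]
    rintro ⟨h1, h2, _⟩
    exact hd (mem_Ioc.mpr ⟨h1, h2⟩)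
  rw [Finset.sum_eq_zero h, mul_zero]

/-- The sum over `d` is a sum over `Ioc i L`. -/
theorem b15_sum (k X A D m i : ℕ) (hk : 2 ≤ k) (hm : 1 ≤ m) (f : ℕ → ℤ → ℂ) (hf : ∀ j, j < k → Bdd X (f j)) :
    ∑ d ∈ Ioc i (2 * k * X), ((eta A D d : ℝ) : ℂ) * Psi X k f ((d : ℤ) * m) =
      ∑ d ∈ Ioc (i : ℤ) ((2 * k * X / m : ℕ) : ℤ), ((ge A D i ((2 * k * X / m : ℕ) : ℤ) d : ℝ) : ℂ) * Psi X k f (d * m) := by
  rw [b15_cast i (2 * k * X / m)]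
  have hsub : Ioc i (2 * k * X / m) ⊆ Ioc i (2 * k * X) :=
    Finset.Ioc_subset_Ioc_right (Nat.div_le_self _ _)
  rw [← Finset.sum_subset hsub]
  · refine Finset.sum_congr rfl fun d hd => ?_
    rw [mem_Ioc] at hd
    rw [b03_ge, if_pos ⟨hd.1, by exact_mod_cast hd.2⟩]
  · intro d hd hd2
    rw [mem_Ioc] at hd
    rw [mem_Ioc] at hd2
    have h1 : 2 * k * X / m < d := by
      by_contra hcon
      exact hd2 ⟨hd.1, by omega⟩
    have h2 : 2 * k * X < d * m := (Nat.div_lt_iff_lt_mul (by omega)).mp h1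
    rw [b12_psi_zero X k hk f hf ((d : ℤ) * m) (by exact_mod_cast h2), mul_zero]

theorem b15_core (k X A D m i : ℕ) (hk : 2 ≤ k) (hX : 1 ≤ X) (hm : 1 ≤ m) (hA : 2 ≤ A) (hkA : k ≤ A) (hS : 0 < SA A)
    (f : ℕ → ℤ → ℂ) (hf : ∀ j, j < k → Bdd X (f j)) (hD : 4 * k * (A + 1) ≤ D) (hDL : D < 2 * k * X / m)
    (C : ℝ) (hC : 1 ≤ C)
    (hel : ∀ X m H L : ℕ, 1 ≤ X → 1 ≤ m → 1 ≤ H → H ≤ L → m * H ≤ 4 * X →
      ∀ f : ℕ → ℤ → ℂ, (∀ j, j < k → Bdd X (f j)) → ∀ lo hi : ℤ, hi - lo ≤ L → ∀ g : ℤ → ℝ, (∀ d, d ∉ Ioc lo hi → g d = 0) →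
      ‖∑ d ∈ Ioc lo hi, ((g d : ℝ) : ℂ) * Psi X k f (d * m)‖ ^ (2 ^ k) ≤
        C * ((L : ℝ) * X) ^ (2 ^ k - 1) * X * (1 / (H : ℝ) ^ k) *
          ∑ j ∈ bxS k H, |∑ d ∈ Ioc lo hi, ∏ w : Finset (Fin k), g (d + sgb (fun i => (k : ℤ) - i) j w)|) :
    ‖∑ d ∈ Ioc i (2 * k * X), ((eta A D d : ℝ) : ℂ) * Psi X k f ((d : ℤ) * m)‖ ^ (2 ^ k) ≤
      (((2 * k * X / m : ℕ) : ℝ) * X) ^ (2 ^ k - 1) * X * ((2 ^ k * C) * ((1 / SA A) ^ (2 ^ k) * (4 * A : ℝ) ^ (2 ^ (k + 1))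
        + 27 * 2 ^ k * ((1 / SA A) * (2 * Real.log (2 * k * X)) + 1) ^ (2 ^ k) * (1 / SA A) ^ 2 * ((2 * k * X / m : ℕ) : ℝ) / A)) := by
  rw [b15_sum k X A D m i hk hm f hf]
  have hA1 : 4 * k * (A + 1) < 2 * k * X / m := lt_of_le_of_lt hD hDL
  generalize hLdef : 2 * k * X / m = L at *
  have hmL : m * L ≤ 2 * k * X := by
    rw [← hLdef]
    exact Nat.mul_div_le _ _
  obtain ⟨H, hHdef⟩ : ∃ H, H = L / k := ⟨_, rfl⟩
  have hkH : k * H ≤ L := by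
    rw [hHdef]
    exact Nat.mul_div_le _ _
  have hH4 : 4 * A ≤ H := by
    rw [hHdef, Nat.le_div_iff_mul_le (by omega)]
    nlinarith
  have hHL : H ≤ L := by
    rw [hHdef]
    exact Nat.div_le_self _ _
  have hmH : m * H ≤ 4 * X := by
    have h1 : k * (m * H) ≤ k * (2 * X) := by
      calc k * (m * H) = m * (k * H) := by ring
        _ ≤ m * L := Nat.mul_le_mul_left _ hkH
        _ ≤ 2 * k * X := hmL
        _ = k * (2 * X) := by ring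
    have h2 : m * H ≤ 2 * X := Nat.le_of_mul_le_mul_left h1 (by omega)
    omega
  have hH1 : 1 ≤ H := by omega
  have h1 := hel X m H L hX hm hH1 hHL hmH f hf (i : ℤ) (L : ℤ) (by omega) (fun d => ge A D i L d)
    (fun d hd => b15_ge_zero A D i L d hd)
  have hY1 : (1 : ℝ) ≤ 2 * k * X := by
    have h : 1 ≤ 2 * k * X := Nat.succ_le_of_lt (by positivity)
    exact_mod_cast h
  have hLY : ((L : ℤ) : ℝ) ≤ 2 * k * X := by
    have h : L ≤ 2 * k * X := by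
      rw [← hLdef]
      exact Nat.div_le_self _ _
    exact_mod_cast h
  have h2 := b10_corr k A D H L hA hkA hH4 (by omega) hS (i : ℤ) (L : ℤ) (by omega) (by omega) (2 * k * X) hY1 hLY
    (fun i => (k : ℤ) - i) (fun i => ⟨by have := i.2; omega, by have := i.2; omega⟩)
  have hHpos : (0 : ℝ) < H := by exact_mod_cast hH1
  refine h1.trans ?_
  have h3 : 0 ≤ C * ((L : ℝ) * X) ^ (2 ^ k - 1) * X * (1 / (H : ℝ) ^ k) := by positivity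
  refine (mul_le_mul_of_nonneg_left h2 h3).trans (le_of_eq ?_)
  rw [mul_pow (2 : ℝ) (H : ℝ) k]
  field_simp

theorem b15_local (k : ℕ) (hk : 2 ≤ k) (θ τ : ℝ) (hτ : 0 < τ) (hθτ : 2 ^ (k + 3) * τ ≤ θ) (hθ : θ ≤ 1) :
    ∃ c : ℝ, 0 < c ∧ ∃ X0 : ℕ, ∀ X : ℕ, X0 ≤ X → ∀ f : ℕ → ℤ → ℂ, (∀ j, j < k → Bdd X (f j)) → ∀ m i : ℕ, 1 ≤ m →
    ‖∑ d ∈ Ioc i (2 * k * X), ((eta ⌊(X : ℝ) ^ τ⌋₊ ⌊(X : ℝ) ^ θ⌋₊ d : ℝ) : ℂ) * Psi X k f ((d : ℤ) * m)‖ ≤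
      (X : ℝ) ^ (2 - c) / m := by
  obtain ⟨A0, hA02, hA0⟩ := b01_sa
  obtain ⟨C, hC1, hel⟩ := b13_elim k hk
  have hC2 : (1 : ℝ) ≤ 2 ^ k * C := by
    have h : (1 : ℝ) ≤ 2 ^ k := one_le_pow₀ (by norm_num)
    nlinarith
  obtain ⟨X1, hX1⟩ := b14_num k θ τ (2 ^ k * C) hτ hθτ hθ hC2
  have hc : 0 < τ / (4 * 2 ^ k) := by positivity
  refine ⟨τ / (4 * 2 ^ k), hc, ?_⟩
  have ht1 : Filter.Tendsto (fun X : ℕ => (X : ℝ) ^ τ) Filter.atTop Filter.atTop :=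
    (tendsto_rpow_atTop hτ).comp tendsto_natCast_atTop_atTop
  have ht2 : Filter.Tendsto (fun X : ℕ => (X : ℝ) ^ (τ / (4 * 2 ^ k))) Filter.atTop Filter.atTop :=
    (tendsto_rpow_atTop hc).comp tendsto_natCast_atTop_atTop
  have hev := ((ht1.eventually_ge_atTop ((A0 : ℝ) + k)).and ((ht1.eventually_ge_atTop (8 * k : ℝ)).and
    (ht2.eventually_ge_atTop (2 * k : ℝ)))).and ((Filter.eventually_ge_atTop 1).and (Filter.eventually_ge_atTop X1))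
  obtain ⟨X0, hX0⟩ := Filter.eventually_atTop.mp hev
  refine ⟨X0, fun X hX f hf m i hm => ?_⟩
  obtain ⟨⟨e1, e2, e3⟩, e4, e5⟩ := hX0 X hX
  obtain ⟨A, hAdef⟩ : ∃ A, A = ⌊(X : ℝ) ^ τ⌋₊ := ⟨_, rfl⟩
  obtain ⟨D, hDdef⟩ : ∃ D, D = ⌊(X : ℝ) ^ θ⌋₊ := ⟨_, rfl⟩
  rw [← hAdef, ← hDdef]
  have hXr : (1 : ℝ) ≤ X := by exact_mod_cast e4
  have hXpos : (0 : ℝ) < X := by linarith
  have hAk : A0 + k ≤ A := by
    rw [hAdef]
    refine Nat.le_floor ?_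
    push_cast
    exact e1
  have hAle : (A : ℝ) ≤ (X : ℝ) ^ τ := by
    rw [hAdef]
    exact Nat.floor_le (by positivity)
  have hS8 := hA0 A (by omega)
  have hlogpos : 0 < Real.log (4 * A) := by
    refine Real.log_pos ?_
    have h : (2 : ℝ) ≤ A := by exact_mod_cast (show 2 ≤ A by omega)
    linarith
  have hS : 0 < SA A := lt_of_lt_of_le (by positivity) hS8
  have hS1 : 1 / SA A ≤ 8 * Real.log (4 * A) := by
    rw [div_le_iff₀ hS]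
    rw [div_le_iff₀ (by positivity)] at hS8
    linarith
  have hkr : (2 : ℝ) ≤ k := by exact_mod_cast hk
  have hD4 : 4 * k * (A + 1) ≤ D := by
    rw [hDdef]
    refine Nat.le_floor ?_
    push_cast
    have h32 : 2 * τ ≤ θ := by
      have h : (2 : ℝ) ≤ 2 ^ (k + 3) := by
        calc (2 : ℝ) = 2 ^ 1 := by norm_num
          _ ≤ 2 ^ (k + 3) := pow_le_pow_right₀ (by norm_num) (by omega)
      nlinarith
    have h1 : (X : ℝ) ^ (2 * τ) ≤ (X : ℝ) ^ θ := Real.rpow_le_rpow_of_exponent_le hXr h32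
    have h2 : (X : ℝ) ^ (2 * τ) = (X : ℝ) ^ τ * (X : ℝ) ^ τ := by
      rw [two_mul, Real.rpow_add hXpos]
    have h3 : (1 : ℝ) ≤ (X : ℝ) ^ τ := Real.one_le_rpow hXr hτ.le
    calc (4 * k * (A + 1) : ℝ) ≤ 4 * k * ((X : ℝ) ^ τ + (X : ℝ) ^ τ) := by
          refine mul_le_mul_of_nonneg_left (by linarith) (by positivity)
      _ = 8 * k * (X : ℝ) ^ τ := by ring
      _ ≤ (X : ℝ) ^ τ * (X : ℝ) ^ τ := mul_le_mul_of_nonneg_right e2 (by positivity)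
      _ ≤ (X : ℝ) ^ θ := by rw [← h2]; exact h1
  have hmr : (1 : ℝ) ≤ m := by exact_mod_cast hm
  by_cases hDL : D < 2 * k * X / m
  swap
  · have hz : ∀ d ∈ Ioc i (2 * k * X), ((eta A D d : ℝ) : ℂ) * Psi X k f ((d : ℤ) * m) = 0 := by
      intro d _
      by_cases hd : 2 * k * X / m < d
      · have h2 : 2 * k * X < d * m := (Nat.div_lt_iff_lt_mul (by omega)).mp hd
        rw [b12_psi_zero X k hk f hf ((d : ℤ) * m) (by exact_mod_cast h2), mul_zero]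
      · have h3 : eta A D d = 0 := by
          by_contra hne
          have := b03_eta_supp A D d hne
          omega
        rw [h3, Complex.ofReal_zero, zero_mul]
    rw [Finset.sum_eq_zero hz, norm_zero]
    positivity
  have hcore := b15_core k X A D m i hk e4 hm (by omega) (by omega) hS f hf hD4 hDL C hC1 hel
  have hDLr : (⌊(X : ℝ) ^ θ⌋₊ : ℝ) ≤ ((2 * k * X / m : ℕ) : ℝ) := by
    rw [← hDdef]
    exact_mod_cast hDL.le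
  have hnum := hX1 X e5 (SA A) hS (by rw [← hAdef]; exact hS1) _ hDLr
  rw [← hAdef] at hnum
  generalize ‖∑ d ∈ Ioc i (2 * k * X), ((eta A D d : ℝ) : ℂ) * Psi X k f ((d : ℤ) * m)‖ = N at *
  have hLle : ((2 * k * X / m : ℕ) : ℝ) ≤ 2 * k * X / m := by
    have h := @Nat.cast_div_le ℝ _ _ _ (2 * k * X) m
    push_cast at h
    exact h
  have hLpos : (0 : ℝ) < ((2 * k * X / m : ℕ) : ℝ) := by exact_mod_cast (by omega : 0 < 2 * k * X / m)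
  generalize ((2 * k * X / m : ℕ) : ℝ) = L at *
  have hpow : N ^ (2 ^ k) ≤ (L * X * (X : ℝ) ^ (-(τ / (2 * 2 ^ k)))) ^ (2 ^ k) := by
    refine hcore.trans ?_
    have h1 : (L * X) ^ (2 ^ k - 1) * X * ((2 ^ k * C) * ((1 / SA A) ^ (2 ^ k) * (4 * A : ℝ) ^ (2 ^ (k + 1))
        + 27 * 2 ^ k * ((1 / SA A) * (2 * Real.log (2 * k * X)) + 1) ^ (2 ^ k) * (1 / SA A) ^ 2 * L / A)) ≤
        (L * X) ^ (2 ^ k - 1) * X * (L * (X : ℝ) ^ (-(τ / 2))) :=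
      mul_le_mul_of_nonneg_left hnum (by positivity)
    refine h1.trans (le_of_eq ?_)
    have h2 : ((X : ℝ) ^ (-(τ / (2 * 2 ^ k)))) ^ (2 ^ k) = (X : ℝ) ^ (-(τ / 2)) := by
      rw [← Real.rpow_natCast, ← Real.rpow_mul hXpos.le]
      congr 1
      push_cast
      field_simp
    rw [mul_pow (L * X) ((X : ℝ) ^ (-(τ / (2 * 2 ^ k)))) (2 ^ k), h2]
    have h3 : (L * X) ^ (2 ^ k) = (L * X) ^ (2 ^ k - 1) * (L * X) := by
      rw [← pow_succ]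
      congr 1
      have : 0 < 2 ^ k := by positivity
      omega
    rw [h3]
    ring
  have hb : 0 ≤ L * X * (X : ℝ) ^ (-(τ / (2 * 2 ^ k))) := by positivity
  have hN : N ≤ L * X * (X : ℝ) ^ (-(τ / (2 * 2 ^ k))) := le_of_pow_le_pow_left₀ (by positivity) hb hpow
  refine hN.trans ?_
  have hm0 : (0 : ℝ) < m := by linarith
  rw [le_div_iff₀ hm0]
  have h4 : L * m ≤ 2 * k * X := by
    rw [le_div_iff₀ hm0] at hLle
    exact hLle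
  have h5 : (X : ℝ) ^ (2 - τ / (4 * 2 ^ k)) = (X : ℝ) ^ (τ / (4 * 2 ^ k)) * (X * X * (X : ℝ) ^ (-(τ / (2 * 2 ^ k)))) := by
    have h6 : (X : ℝ) * X = (X : ℝ) ^ (2 : ℝ) := by
      rw [Real.rpow_two]
      ring
    rw [h6, ← Real.rpow_add hXpos, ← Real.rpow_add hXpos]
    congr 1
    field_simp
    ring
  rw [h5]
  calc L * X * (X : ℝ) ^ (-(τ / (2 * 2 ^ k))) * m = (L * m) * (X * (X : ℝ) ^ (-(τ / (2 * 2 ^ k)))) := by ring
    _ ≤ (2 * k * X) * (X * (X : ℝ) ^ (-(τ / (2 * 2 ^ k)))) := mul_le_mul_of_nonneg_right h4 (by positivity)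
    _ = (2 * k) * (X * X * (X : ℝ) ^ (-(τ / (2 * 2 ^ k)))) := by ring
    _ ≤ (X : ℝ) ^ (τ / (4 * 2 ^ k)) * (X * X * (X : ℝ) ^ (-(τ / (2 * 2 ^ k)))) :=
        mul_le_mul_of_nonneg_right e3 (by positivity)

end Pool.Agent.HUK
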