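import Pool.Agent.Lib.HUK.B15

/-!
# HUK B16 (M): the weighted double sum

PROOF. `b15_local` gives `c`, `X0`; take the new exponent `c' = c / 2`, `ε = c / 8`. `Icc 1 Y = Ioc 0 Y`, `Y = 2kX`. Weight `1`: for fixed `m` the inner sum is
`γ m` times the sum of `b15_local` with `i = 0`. Weight `log`: `b12_log` with `a d = eta d * Psi (d m)`, `E = X^(2-c)/m` gives the factor
`log (2kX+1)`. So the double sum is at most `∑_{m ≤ 2kX} X^ε X^(2-c) (1 + log(2kX+1)) / m ≤ X^(2-c+ε) (1 + log(2kX+1))^2` (harmonic sum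
`∑_{m ≤ Y} 1/m ≤ 1 + log Y`: `harmonic_le_one_add_log`), at most `X^(2 - c/2)` for large `X` (`(1 + log(2kX+1))^2 ≤ X^(c/8)`).
-/

open Finset

namespace Pool.Agent.HUK

theorem b16_large (k : ℕ) (hk : 2 ≤ k) (c : ℝ) (hc : 0 < c) : ∃ X0 : ℕ, 1 ≤ X0 ∧ ∀ X : ℕ, X0 ≤ X →
    (1 + Real.log ((2 * k * X : ℕ) + 1)) ^ 2 ≤ (X : ℝ) ^ (c / 8) := by
  have h1 : ∀ᶠ x : ℝ in Filter.atTop, ‖Real.log x‖ ≤ 1 / 3 * ‖x ^ (c / 16)‖ :=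
    (isLittleO_log_rpow_atTop (show (0 : ℝ) < c / 16 by positivity)).def (by norm_num)
  have h2 : ∀ᶠ X : ℕ in Filter.atTop, ‖Real.log (X : ℝ)‖ ≤ 1 / 3 * ‖(X : ℝ) ^ (c / 16)‖ :=
    tendsto_natCast_atTop_atTop.eventually h1
  obtain ⟨X1, hX1⟩ := Filter.eventually_atTop.1 h2
  refine ⟨max X1 (2 * k + 3), le_max_of_le_right (by omega), fun X hX => ?_⟩
  have hX1' : X1 ≤ X := (le_max_left _ _).trans hX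
  have hX2 : 2 * k + 3 ≤ X := (le_max_right _ _).trans hX
  have hXr : (2 * k + 3 : ℝ) ≤ X := by exact_mod_cast hX2
  have hk0 : (0 : ℝ) ≤ k := Nat.cast_nonneg k
  have hX0 : (0 : ℝ) < X := by linarith
  have h3 := hX1 X hX1'
  rw [Real.norm_of_nonneg (Real.log_nonneg (by linarith)), Real.norm_of_nonneg (Real.rpow_nonneg hX0.le _)] at h3
  have h4 : Real.log ((2 * k * X : ℕ) + 1) ≤ 2 * Real.log X := by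
    have h5 : Real.log ((X : ℝ) ^ 2) = 2 * Real.log X := by rw [Real.log_pow]; norm_num
    rw [← h5]
    refine Real.log_le_log (by positivity) ?_
    push_cast
    nlinarith
  have h6 : 1 ≤ Real.log X := by
    rw [Real.le_log_iff_exp_le hX0]
    have := Real.exp_one_lt_d9
    linarith
  have h7 : 0 ≤ Real.log ((2 * k * X : ℕ) + 1) := Real.log_nonneg (by
    have : (0 : ℝ) ≤ ((2 * k * X : ℕ) : ℝ) := Nat.cast_nonneg _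
    linarith)
  have h8 : (1 + Real.log ((2 * k * X : ℕ) + 1)) ≤ (X : ℝ) ^ (c / 16) := by linarith
  calc (1 + Real.log ((2 * k * X : ℕ) + 1)) ^ 2 ≤ ((X : ℝ) ^ (c / 16)) ^ 2 := pow_le_pow_left₀ (by linarith) h8 2
    _ = (X : ℝ) ^ (c / 8) := by
      rw [← Real.rpow_natCast, ← Real.rpow_mul hX0.le]
      congr 1
      push_cast
      ring

theorem b16_harm (Y : ℕ) : ∑ m ∈ Icc 1 Y, 1 / (m : ℝ) ≤ 1 + Real.log (Y + 1) := by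
  have h1 := harmonic_le_one_add_log Y
  have h2 : ((harmonic Y : ℚ) : ℝ) = ∑ m ∈ Icc 1 Y, 1 / (m : ℝ) := by
    rw [harmonic_eq_sum_Icc]
    push_cast
    exact sum_congr rfl fun m _ => (one_div _).symm
  rw [← h2]
  refine h1.trans ?_
  rcases Nat.eq_zero_or_pos Y with h | h
  · subst h
    simp
  · have h3 : Real.log Y ≤ Real.log (Y + 1) := Real.log_le_log (by exact_mod_cast h) (by linarith)
    linarith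

/-- **Main statement of the eta part.** Weight `1` or `log`. `A = ⌊X^τ⌋`, `D = ⌊X^θ⌋`. -/
theorem b16_eta_sum (k : ℕ) (hk : 2 ≤ k) (θ τ : ℝ) (hτ : 0 < τ) (hθτ : 2 ^ (k + 3) * τ ≤ θ) (hθ : θ ≤ 1) :
    ∃ c ε : ℝ, 0 < c ∧ 0 < ε ∧ ∃ X0 : ℕ, ∀ X : ℕ, X0 ≤ X → ∀ f : ℕ → ℤ → ℂ, (∀ j, j < k → Bdd X (f j)) →
    ∀ γ : ℕ → ℂ, (∀ m, ‖γ m‖ ≤ (X : ℝ) ^ ε) →
    ∀ ω : ℕ → ℝ, ((∀ d, ω d = 1) ∨ (∀ d : ℕ, ω d = Real.log d)) →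
    ‖∑ m ∈ Icc 1 (2 * k * X), ∑ d ∈ Icc 1 (2 * k * X),
      γ m * ((eta ⌊(X : ℝ) ^ τ⌋₊ ⌊(X : ℝ) ^ θ⌋₊ d * ω d : ℝ) : ℂ) * Psi X k f ((d : ℤ) * m)‖ ≤ (X : ℝ) ^ (2 - c) := by
  obtain ⟨c, hc, X1, hX1⟩ := b15_local k hk θ τ hτ hθτ hθ
  obtain ⟨X2, hX2, hX2'⟩ := b16_large k hk c hc
  refine ⟨c / 2, c / 8, by positivity, by positivity, max X1 X2, ?_⟩
  intro X hX f hf γ hγ ω hω
  have hXa : X1 ≤ X := (le_max_left _ _).trans hX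
  have hXb : X2 ≤ X := (le_max_right _ _).trans hX
  have hXc : (1 : ℝ) ≤ X := by exact_mod_cast hX2.trans hXb
  have hX0 : (0 : ℝ) < X := by linarith
  have hlarge := hX2' X hXb
  set Y : ℕ := 2 * k * X with hY
  set Lg : ℝ := 1 + Real.log ((Y : ℕ) + 1) with hLg
  have hlog : 0 ≤ Real.log ((Y : ℝ) + 1) := Real.log_nonneg (by
    have : (0 : ℝ) ≤ (Y : ℝ) := Nat.cast_nonneg _
    linarith)
  have hLg0 : 0 ≤ Lg := by rw [hLg]; linarith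
  have hinner : ∀ m ∈ Icc 1 Y, ‖∑ d ∈ Icc 1 Y,
      γ m * ((eta ⌊(X : ℝ) ^ τ⌋₊ ⌊(X : ℝ) ^ θ⌋₊ d * ω d : ℝ) : ℂ) * Psi X k f ((d : ℤ) * m)‖ ≤
      (X : ℝ) ^ (c / 8) * ((X : ℝ) ^ (2 - c) * Lg) * (1 / (m : ℝ)) := by
    intro m hm
    have hm1 : 1 ≤ m := (mem_Icc.1 hm).1
    have hm0 : (0 : ℝ) < m := by exact_mod_cast hm1
    have hE := fun i => hX1 X hXa f hf m i hm1
    have hE0 : 0 ≤ (X : ℝ) ^ (2 - c) / m := div_nonneg (Real.rpow_nonneg hX0.le _) hm0.le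
    have key : ‖∑ d ∈ Icc 1 Y, ((eta ⌊(X : ℝ) ^ τ⌋₊ ⌊(X : ℝ) ^ θ⌋₊ d : ℝ) : ℂ) * Psi X k f ((d : ℤ) * m) * ((ω d : ℝ) : ℂ)‖ ≤
        (X : ℝ) ^ (2 - c) / m * Lg := by
      rcases hω with h | h
      · have h1 : ∑ d ∈ Icc 1 Y, ((eta ⌊(X : ℝ) ^ τ⌋₊ ⌊(X : ℝ) ^ θ⌋₊ d : ℝ) : ℂ) * Psi X k f ((d : ℤ) * m) * ((ω d : ℝ) : ℂ) =
            ∑ d ∈ Ioc 0 Y, ((eta ⌊(X : ℝ) ^ τ⌋₊ ⌊(X : ℝ) ^ θ⌋₊ d : ℝ) : ℂ) * Psi X k f ((d : ℤ) * m) := by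
          refine sum_congr ?_ fun d _ => ?_
          · ext d
            rw [mem_Icc, mem_Ioc]
            omega
          · rw [h d, Complex.ofReal_one, mul_one]
        rw [h1]
        refine (hE 0).trans ?_
        rw [hLg]
        nlinarith
      · have h1 := b12_log Y (fun d => ((eta ⌊(X : ℝ) ^ τ⌋₊ ⌊(X : ℝ) ^ θ⌋₊ d : ℝ) : ℂ) * Psi X k f ((d : ℤ) * m))
          ((X : ℝ) ^ (2 - c) / m) hE
        have h2 : ∑ d ∈ Icc 1 Y, ((eta ⌊(X : ℝ) ^ τ⌋₊ ⌊(X : ℝ) ^ θ⌋₊ d : ℝ) : ℂ) * Psi X k f ((d : ℤ) * m) * ((ω d : ℝ) : ℂ) =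
            ∑ d ∈ Icc 1 Y, ((eta ⌊(X : ℝ) ^ τ⌋₊ ⌊(X : ℝ) ^ θ⌋₊ d : ℝ) : ℂ) * Psi X k f ((d : ℤ) * m) * ((Real.log d : ℝ) : ℂ) :=
          sum_congr rfl fun d _ => by rw [h d]
        rw [h2]
        refine h1.trans ?_
        rw [hLg]
        nlinarith
    have h3 : ∑ d ∈ Icc 1 Y, γ m * ((eta ⌊(X : ℝ) ^ τ⌋₊ ⌊(X : ℝ) ^ θ⌋₊ d * ω d : ℝ) : ℂ) * Psi X k f ((d : ℤ) * m) =
        γ m * ∑ d ∈ Icc 1 Y, ((eta ⌊(X : ℝ) ^ τ⌋₊ ⌊(X : ℝ) ^ θ⌋₊ d : ℝ) : ℂ) * Psi X k f ((d : ℤ) * m) * ((ω d : ℝ) : ℂ) := by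
      rw [mul_sum]
      refine sum_congr rfl fun d _ => ?_
      rw [Complex.ofReal_mul]
      ring
    rw [h3, norm_mul]
    calc ‖γ m‖ * ‖∑ d ∈ Icc 1 Y, ((eta ⌊(X : ℝ) ^ τ⌋₊ ⌊(X : ℝ) ^ θ⌋₊ d : ℝ) : ℂ) * Psi X k f ((d : ℤ) * m) * ((ω d : ℝ) : ℂ)‖
        ≤ (X : ℝ) ^ (c / 8) * ((X : ℝ) ^ (2 - c) / m * Lg) :=
          mul_le_mul (hγ m) key (norm_nonneg _) (Real.rpow_nonneg hX0.le _)
      _ = (X : ℝ) ^ (c / 8) * ((X : ℝ) ^ (2 - c) * Lg) * (1 / (m : ℝ)) := by ring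
  calc ‖∑ m ∈ Icc 1 Y, ∑ d ∈ Icc 1 Y,
      γ m * ((eta ⌊(X : ℝ) ^ τ⌋₊ ⌊(X : ℝ) ^ θ⌋₊ d * ω d : ℝ) : ℂ) * Psi X k f ((d : ℤ) * m)‖
      ≤ ∑ m ∈ Icc 1 Y, (X : ℝ) ^ (c / 8) * ((X : ℝ) ^ (2 - c) * Lg) * (1 / (m : ℝ)) :=
        (norm_sum_le _ _).trans (sum_le_sum hinner)
    _ = (X : ℝ) ^ (c / 8) * ((X : ℝ) ^ (2 - c) * Lg) * ∑ m ∈ Icc 1 Y, 1 / (m : ℝ) := by rw [mul_sum]
    _ ≤ (X : ℝ) ^ (c / 8) * ((X : ℝ) ^ (2 - c) * Lg) * Lg :=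
        mul_le_mul_of_nonneg_left (b16_harm Y) (mul_nonneg (Real.rpow_nonneg hX0.le _)
          (mul_nonneg (Real.rpow_nonneg hX0.le _) hLg0))
    _ = (X : ℝ) ^ (c / 8) * (X : ℝ) ^ (2 - c) * Lg ^ 2 := by ring
    _ ≤ (X : ℝ) ^ (c / 8) * (X : ℝ) ^ (2 - c) * (X : ℝ) ^ (c / 8) :=
        mul_le_mul_of_nonneg_left hlarge (mul_nonneg (Real.rpow_nonneg hX0.le _) (Real.rpow_nonneg hX0.le _))
    _ = (X : ℝ) ^ (c / 8 + (2 - c) + c / 8) := by rw [Real.rpow_add hX0, Real.rpow_add hX0]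
    _ ≤ (X : ℝ) ^ (2 - c / 2) := Real.rpow_le_rpow_of_exponent_le hXc (by linarith)

end Pool.Agent.HUK
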