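import Pool.Agent.Lib.HUK.Defs

/-!
# Project HUK, module B: replacing a smooth variable by a tiny prime times a smooth variable (definitions)

`PA A` = the primes in `(A, 4A]` (not `(A, 2A]`: Chebyshev of Mathlib is enough), `SA A` = the sum of their reciprocals.
For `d ≥ 1`: `1 = sml d + ∑_{p e = d} uu p * vv e + eta d`.
-/

open Finset

namespace Pool.Agent.HUK

noncomputable section

/-- The primes in `(A, 4A]`. -/
def PA (A : ℕ) : Finset ℕ := (Ioc A (4 * A)).filter Nat.Prime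

/-- The sum of the reciprocals of these primes. -/
def SA (A : ℕ) : ℝ := ∑ p ∈ PA A, 1 / (p : ℝ)

/-- One prime: `1_{pD < dA} (1_{p ∣ d} - 1/p)`. -/
def eprime (A D p d : ℕ) : ℝ := if p * D < d * A then ((if p ∣ d then 1 else 0) - 1 / (p : ℝ)) else 0

/-- The error `η = ℓ - ν`, supported on `d > D`. -/
def eta (A D d : ℕ) : ℝ := -(1 / SA A) * ∑ p ∈ PA A, eprime A D p d

/-- The smooth cutoff `ℓ`: `0` for `d ≤ D`, `1` for `d > 4 D`. -/
def ell (A D d : ℕ) : ℝ := (1 / SA A) * ∑ p ∈ PA A, if p * D < d * A then 1 / (p : ℝ) else 0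

/-- `s = 1 - ℓ`, supported on `d ≤ 4 D`, values in `[0,1]`. -/
def sml (A D d : ℕ) : ℝ := 1 - ell A D d

/-- `u = S⁻¹ 1_P`. -/
def uu (A p : ℕ) : ℝ := if p ∈ PA A then 1 / SA A else 0

/-- `v(e) = 1` for `e > D / A`. -/
def vv (A D e : ℕ) : ℝ := if D < e * A then 1 else 0

/-- One prime, on the integers, cut to the interval `(lo, hi]`. -/
def gp (A D p : ℕ) (lo hi : ℤ) (d : ℤ) : ℝ :=
  if lo < d ∧ d ≤ hi ∧ (p : ℤ) * D < d * A then ((if (p : ℤ) ∣ d then 1 else 0) - 1 / (p : ℝ)) else 0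

/-- `η` on the integers, cut to `(lo, hi]`. -/
def ge (A D : ℕ) (lo hi : ℤ) (d : ℤ) : ℝ := -(1 / SA A) * ∑ p ∈ PA A, gp A D p lo hi d

/-- The shift `∑_{i ∈ w} c_i j_i`. -/
def sgb {k : ℕ} (c j : Fin k → ℤ) (w : Finset (Fin k)) : ℤ := ∑ i ∈ w, c i * j i

/-- The non-empty subsets of `Fin k`. -/
def NE (k : ℕ) : Finset (Finset (Fin k)) := univ.erase ∅

end

end Pool.Agent.HUK
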