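import Pool.Agent.Lib.HUK.B01
import Pool.Agent.Lib.HUK.B02
import Pool.Agent.Lib.HUK.B03
import Pool.Agent.Lib.HUK.B04
import Pool.Agent.Lib.HUK.B16

/-!
# Project HUK, module B: the interface of the eta part (helper5) used by the Heath-Brown part (helper68)
-/

open Finset

namespace Pool.Agent.HUK

noncomputable section

/-- For large `A` the sum of the reciprocals of the primes in `(A, 4A]` is at least `1/(8 log 4A)`. -/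
theorem sa_ge : ∃ A0 : ℕ, 2 ≤ A0 ∧ ∀ A : ℕ, A0 ≤ A → 1 / (8 * Real.log (4 * A)) ≤ SA A := b01_sa

/-- `1 = s + u * v + η`. -/
theorem b_one (A D d : ℕ) (hS : 0 < SA A) (hd : 1 ≤ d) :
    (1 : ℝ) = sml A D d + ∑ x ∈ d.divisorsAntidiagonal, uu A x.1 * vv A D x.2 + eta A D d := b02_one A D d hS hd

/-- `log = s log + (u log) * v + u * (v log) + η log`. -/
theorem b_log (A D d : ℕ) (hS : 0 < SA A) (hd : 1 ≤ d) :
    Real.log d = sml A D d * Real.log d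
      + ∑ x ∈ d.divisorsAntidiagonal, uu A x.1 * Real.log x.1 * vv A D x.2
      + ∑ x ∈ d.divisorsAntidiagonal, uu A x.1 * (vv A D x.2 * Real.log x.2) + eta A D d * Real.log d :=
  b02_log A D d hS hd

theorem sml_zero (A D d : ℕ) (hS : 0 < SA A) (hd : 4 * D < d) : sml A D d = 0 := b03_sml_zero A D d hS hd

theorem sml_mem (A D d : ℕ) (hS : 0 < SA A) : 0 ≤ sml A D d ∧ sml A D d ≤ 1 := b03_sml_mem A D d hS

theorem uu_supp (A p : ℕ) (h : uu A p ≠ 0) : A < p ∧ p ≤ 4 * A := b03_uu_supp A p h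

theorem uu_mem (A p : ℕ) : 0 ≤ uu A p ∧ uu A p ≤ 1 / SA A := b03_uu_mem A p

theorem vv_mem (A D e : ℕ) : 0 ≤ vv A D e ∧ vv A D e ≤ 1 := b03_vv_mem A D e

/-- `η` is supported on `d > D`. -/
theorem eta_supp (A D d : ℕ) (h : eta A D d ≠ 0) : D < d := b03_eta_supp A D d h

/-- `|η(d)| ≤ (log d + 1)/S` up to a constant. -/
theorem eta_abs (A D d : ℕ) (hA : 2 ≤ A) (hS : 0 < SA A) (hd : 1 ≤ d) :
    |eta A D d| ≤ (1 / SA A) * (2 * Real.log d) + 1 := b04_eta_abs A D d hA hS hd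

/-- **Main statement of the eta part.** Weight `1` or `log`. `A = ⌊X^τ⌋`, `D = ⌊X^θ⌋`. -/
theorem eta_sum (k : ℕ) (hk : 2 ≤ k) (θ τ : ℝ) (hτ : 0 < τ) (hθτ : 2 ^ (k + 3) * τ ≤ θ) (hθ : θ ≤ 1) :
    ∃ c ε : ℝ, 0 < c ∧ 0 < ε ∧ ∃ X0 : ℕ, ∀ X : ℕ, X0 ≤ X → ∀ f : ℕ → ℤ → ℂ, (∀ j, j < k → Bdd X (f j)) →
    ∀ γ : ℕ → ℂ, (∀ m, ‖γ m‖ ≤ (X : ℝ) ^ ε) →
    ∀ ω : ℕ → ℝ, ((∀ d, ω d = 1) ∨ (∀ d : ℕ, ω d = Real.log d)) →
    ‖∑ m ∈ Icc 1 (2 * k * X), ∑ d ∈ Icc 1 (2 * k * X),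
      γ m * ((eta ⌊(X : ℝ) ^ τ⌋₊ ⌊(X : ℝ) ^ θ⌋₊ d * ω d : ℝ) : ℂ) * Psi X k f ((d : ℤ) * m)‖ ≤ (X : ℝ) ^ (2 - c) :=
  b16_eta_sum k hk θ τ hτ hθτ hθ

end

end Pool.Agent.HUK
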