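import Pool.Agent.Lib.HUK.BFin
import Pool.Agent.Lib.HUK.IDE
import Pool.Agent.Lib.H81A.HB

/-!
# Project HUK, module B, Heath-Brown part: definitions (helper68)

`N = 2 k X`. All arithmetic functions are real (`H81A/Defs`: `af f` has the values `f n` for `n ≥ 1`, `muV z`, `one1`, `logf`).
-/

open Finset

namespace Pool.Agent.HUK

open Pool.Agent.Lib.H81A (af muV one1 logf)

noncomputable section

/-- The functional `∑_{n ≤ 2kX} F(n) Ψ(n)`. -/
def LF (X k : ℕ) (f : ℕ → ℤ → ℂ) (F : ArithmeticFunction ℝ) : ℂ :=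
  ∑ n ∈ Icc 1 (2 * k * X), ((F n : ℝ) : ℂ) * Psi X k f (n : ℤ)

/-- `F` is bounded by `B` on `1, …, N`. -/
def BN (N : ℕ) (B : ℝ) (F : ArithmeticFunction ℝ) : Prop := ∀ n : ℕ, 1 ≤ n → n ≤ N → |F n| ≤ B

/-- On `1, …, N` the function `F` is supported on `n ≤ Y`. -/
def SP (N : ℕ) (Y : ℝ) (F : ArithmeticFunction ℝ) : Prop := ∀ n : ℕ, 1 ≤ n → n ≤ N → F n ≠ 0 → (n : ℝ) ≤ Y

/-- At most `W` divisors for `1 ≤ n ≤ N`. -/
def TW (N : ℕ) (W : ℝ) : Prop := 1 ≤ W ∧ ∀ n : ℕ, 1 ≤ n → n ≤ N → (n.divisors.card : ℝ) ≤ W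

/-- The part of `F` on `n ≤ T`. -/
def lowT (T : ℝ) (F : ArithmeticFunction ℝ) : ArithmeticFunction ℝ := af fun n => if (n : ℝ) ≤ T then F n else 0

/-- The part of `F` on `n > T`. -/
def highT (T : ℝ) (F : ArithmeticFunction ℝ) : ArithmeticFunction ℝ := af fun n => if (n : ℝ) ≤ T then 0 else F n

/-- `s` -/
def fS (A D : ℕ) : ArithmeticFunction ℝ := af (sml A D)
/-- `u` -/
def fU (A : ℕ) : ArithmeticFunction ℝ := af (uu A)
/-- `v` -/
def fV (A D : ℕ) : ArithmeticFunction ℝ := af (vv A D)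
/-- `η` -/
def fE (A D : ℕ) : ArithmeticFunction ℝ := af (eta A D)
/-- `s log` -/
def fSL (A D : ℕ) : ArithmeticFunction ℝ := af fun n => sml A D n * Real.log n
/-- `u log` -/
def fUL (A : ℕ) : ArithmeticFunction ℝ := af fun n => uu A n * Real.log n
/-- `v log` -/
def fVL (A D : ℕ) : ArithmeticFunction ℝ := af fun n => vv A D n * Real.log n
/-- `η log` -/
def fEL (A D : ℕ) : ArithmeticFunction ℝ := af fun n => eta A D n * Real.log n

/-- What is known about the functional: type II with prime factor `u` or `u log`, the error `η`, and type II with a factor in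
`(T, T Y]`, each for coefficients bounded by `B`. -/
structure Hyp (X k : ℕ) (f : ℕ → ℤ → ℂ) (A D : ℕ) (T Y B E : ℝ) : Prop where
  u : ∀ G, BN (2 * k * X) B G → ‖LF X k f (fU A * G)‖ ≤ E
  ul : ∀ G, BN (2 * k * X) B G → ‖LF X k f (fUL A * G)‖ ≤ E
  e : ∀ G, BN (2 * k * X) B G → ‖LF X k f (G * fE A D)‖ ≤ E
  el : ∀ G, BN (2 * k * X) B G → ‖LF X k f (G * fEL A D)‖ ≤ E
  t2 : ∀ F G, BN (2 * k * X) B F → BN (2 * k * X) B G →
    (∀ n : ℕ, 1 ≤ n → n ≤ 2 * k * X → F n ≠ 0 → T < n ∧ (n : ℝ) ≤ T * Y) → ‖LF X k f (F * G)‖ ≤ E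

/-- The sizes and supports of the factors. -/
structure Siz (N : ℕ) (A D z : ℕ) (Y M W : ℝ) : Prop where
  M1 : 1 ≤ M
  tw : TW N W
  mu : BN N M (muV z) ∧ SP N Y (muV z)
  s : BN N M (fS A D) ∧ SP N Y (fS A D)
  sl : BN N M (fSL A D) ∧ SP N Y (fSL A D)
  v : BN N M (fV A D)
  vl : BN N M (fVL A D)
  one : BN N M one1
  log : BN N M logf
  S : 0 < SA A

end

end Pool.Agent.HUK
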