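import Pool.Agent.Lib.HUK.BH0

/-!
# HUK, chunk BH1 (M): the functional `LF` and Dirichlet convolutions
-/

open Finset

namespace Pool.Agent.HUK

open Pool.Agent.Lib.H81A (af muV one1 logf)

/-- Proof. Support: `k ≥ 2`, so `j = k - 1` and `j = k - 2` are in `range k`, with the forms `n - h` and `n - 2h`; if both factors are non-zero then
`n - h, n - 2h ∈ [-X, X)` and `n = 2 (n - h) - (n - 2h) < 2 X + X = 3 X`. So for `n ≥ 3X` every product over `range k` has a vanishing factor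
(`Finset.prod_eq_zero`). -/
theorem psi_zero (X k : ℕ) (hk : 2 ≤ k) (f : ℕ → ℤ → ℂ) (hf : ∀ j, j < k → Bdd X (f j)) (n : ℤ) (hn : 3 * (X : ℤ) ≤ n) :
    Psi X k f n = 0 := by
  unfold Psi
  refine Finset.sum_eq_zero fun h hh => ?_
  refine Finset.prod_eq_zero (mem_range.mpr (by omega : k - 1 < k)) ?_
  apply (hf (k - 1) (by omega)).sup
  rw [mem_Ioo] at hh
  rw [mem_Ico]
  have h1 : ((k - 1 : ℕ) : ℤ) = (k : ℤ) - 1 := by omega
  rw [h1]
  intro h2
  have h3 : ((k : ℤ) - (k - 1)) * h = h := by ring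
  rw [h3] at h2
  omega

/-- Proof. `card (Ioo (-2X) (2X)) ≤ 4X`, every factor has norm at most `1` (`Finset.prod_le_one`). -/
theorem psi_bd (X k : ℕ) (f : ℕ → ℤ → ℂ) (hf : ∀ j, j < k → Bdd X (f j)) (n : ℤ) : ‖Psi X k f n‖ ≤ 4 * X := by
  unfold Psi
  refine (norm_sum_le _ _).trans ?_
  have h1 : ∀ h ∈ Ioo (-(2 * X : ℤ)) (2 * X), ‖∏ j ∈ range k, f j (n - ((k : ℤ) - j) * h)‖ ≤ 1 := by
    intro h _
    rw [norm_prod]
    exact Finset.prod_le_one (fun _ _ => norm_nonneg _) fun j hj => (hf j (mem_range.mp hj)).le _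
  refine (Finset.sum_le_sum h1).trans ?_
  rw [Finset.sum_const, nsmul_eq_mul, mul_one, Int.card_Ioo]
  have h2 : (2 * (X : ℤ) - -(2 * (X : ℤ)) - 1).toNat ≤ 4 * X := by omega
  exact_mod_cast h2

/-- Additivity. -/
theorem LF_add (X k : ℕ) (f : ℕ → ℤ → ℂ) (F G : ArithmeticFunction ℝ) : LF X k f (F + G) = LF X k f F + LF X k f G := by
  unfold LF
  rw [← Finset.sum_add_distrib]
  refine Finset.sum_congr rfl fun n _ => ?_
  rw [ArithmeticFunction.add_apply]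
  push_cast
  ring

/-- Finite sums (`Finset.sum_induction` or induction with `LF_add`; `LF X k f 0 = 0`). -/
theorem LF_sum {ι : Type*} (s : Finset ι) (X k : ℕ) (f : ℕ → ℤ → ℂ) (F : ι → ArithmeticFunction ℝ) :
    LF X k f (∑ i ∈ s, F i) = ∑ i ∈ s, LF X k f (F i) := by
  exact map_sum (AddMonoidHom.mk' (LF X k f) (LF_add X k f)) F s

/-- **Convolutions.** Proof. `N = 2 k X ≥ 3 X` (`k ≥ 2`: `2 k X ≥ 4 X`). `(F * G) n = ∑ x ∈ n.divisorsAntidiagonal, F x.1 * G x.2`. The right side is a sum over pairs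
`(a, b) ∈ Icc 1 N ×ˢ Icc 1 N`; the pairs with `a b > N` give `0` by `psi_zero`; the others are in bijection with the pairs
`(n, x)`, `n ∈ Icc 1 N`, `x ∈ n.divisorsAntidiagonal` (`Finset.sum_sigma'`, `Finset.sum_bij'` / `Finset.sum_fiberwise_of_maps_to` for the map
`(a, b) ↦ a b`). -/
theorem LF_mul (X k : ℕ) (hk : 2 ≤ k) (f : ℕ → ℤ → ℂ) (hf : ∀ j, j < k → Bdd X (f j)) (F G : ArithmeticFunction ℝ) :
    LF X k f (F * G) = ∑ a ∈ Icc 1 (2 * k * X), ∑ b ∈ Icc 1 (2 * k * X),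
      ((F a : ℝ) : ℂ) * ((G b : ℝ) : ℂ) * Psi X k f ((a : ℤ) * b) := by
  classical
  set N := 2 * k * X with hN
  set g : ℕ × ℕ → ℂ := fun x => ((F x.1 : ℝ) : ℂ) * ((G x.2 : ℝ) : ℂ) * Psi X k f ((x.1 : ℤ) * x.2) with hg
  have h1 : LF X k f (F * G) = ∑ n ∈ Icc 1 N, ∑ x ∈ (Icc 1 N ×ˢ Icc 1 N).filter (fun x => x.1 * x.2 = n), g x := by
    unfold LF
    refine Finset.sum_congr rfl fun n hn => ?_
    rw [mem_Icc] at hn
    have h2 : (Icc 1 N ×ˢ Icc 1 N).filter (fun x => x.1 * x.2 = n) = n.divisorsAntidiagonal := by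
      ext x
      rw [mem_filter, mem_product, Nat.mem_divisorsAntidiagonal, mem_Icc, mem_Icc]
      constructor
      · rintro ⟨_, h3⟩
        exact ⟨h3, by omega⟩
      · rintro ⟨h3, h4⟩
        have h5 : x.1 ≠ 0 := by rintro h; rw [h, zero_mul] at h3; omega
        have h6 : x.2 ≠ 0 := by rintro h; rw [h, mul_zero] at h3; omega
        have h7 : x.1 ≤ n := by rw [← h3]; exact Nat.le_mul_of_pos_right _ (Nat.pos_of_ne_zero h6)
        have h8 : x.2 ≤ n := by rw [← h3]; exact Nat.le_mul_of_pos_left _ (Nat.pos_of_ne_zero h5)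
        exact ⟨⟨⟨by omega, by omega⟩, ⟨by omega, by omega⟩⟩, h3⟩
    rw [h2, ArithmeticFunction.mul_apply, Complex.ofReal_sum, Finset.sum_mul]
    refine Finset.sum_congr rfl fun x hx => ?_
    rw [Nat.mem_divisorsAntidiagonal] at hx
    rw [hg]
    simp only
    rw [← hx.1]
    push_cast
    ring
  rw [h1]
  have h3 : ∑ a ∈ Icc 1 N, ∑ b ∈ Icc 1 N, ((F a : ℝ) : ℂ) * ((G b : ℝ) : ℂ) * Psi X k f ((a : ℤ) * b) =
      ∑ x ∈ Icc 1 N ×ˢ Icc 1 N, g x := by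
    rw [Finset.sum_product]
  rw [h3]
  have h4 : ∑ x ∈ Icc 1 N ×ˢ Icc 1 N, g x = ∑ x ∈ (Icc 1 N ×ˢ Icc 1 N).filter (fun x => x.1 * x.2 ∈ Icc 1 N), g x := by
    symm
    refine Finset.sum_subset (Finset.filter_subset _ _) fun x hx hx' => ?_
    rw [mem_filter, not_and] at hx'
    have h5 := hx' hx
    rw [mem_product, mem_Icc, mem_Icc] at hx
    rw [mem_Icc, not_and, not_le] at h5
    have h6 : 1 ≤ x.1 * x.2 := Nat.one_le_iff_ne_zero.mpr (Nat.mul_ne_zero (by omega) (by omega))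
    have h7 := h5 h6
    rw [hg]
    simp only
    rw [psi_zero X k hk f hf, mul_zero]
    have h8 : 3 * X ≤ x.1 * x.2 := by nlinarith
    exact_mod_cast h8
  rw [h4, ← Finset.sum_fiberwise_of_maps_to (g := fun x : ℕ × ℕ => x.1 * x.2) (t := Icc 1 N)
    (fun x hx => (mem_filter.mp hx).2)]
  refine Finset.sum_congr rfl fun n hn => ?_
  refine Finset.sum_congr ?_ fun _ _ => rfl
  ext x
  rw [mem_filter, mem_filter, mem_filter]
  constructor
  · rintro ⟨h5, h6⟩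
    exact ⟨⟨h5, by rw [h6]; exact hn⟩, h6⟩
  · rintro ⟨⟨h5, _⟩, h6⟩
    exact ⟨h5, h6⟩

/-- **Trivial bound.** Proof. At most `T` numbers `1 ≤ n ≤ T`; each term is at most `B * (4 X)` (`psi_bd`). (Sum over the filter `F n ≠ 0`, which is contained in
`Icc 1 ⌊T⌋₊`.) -/
theorem LF_triv (X k : ℕ) (f : ℕ → ℤ → ℂ) (hf : ∀ j, j < k → Bdd X (f j)) (F : ArithmeticFunction ℝ) (T B : ℝ) (hT : 0 ≤ T)
    (hB : BN (2 * k * X) B F) (hB0 : 0 ≤ B) (hs : SP (2 * k * X) T F) : ‖LF X k f F‖ ≤ T * B * (4 * X) := by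
  classical
  have h1 : LF X k f F = ∑ n ∈ (Icc 1 (2 * k * X)).filter (fun n => F n ≠ 0), ((F n : ℝ) : ℂ) * Psi X k f (n : ℤ) := by
    unfold LF
    symm
    refine Finset.sum_subset (Finset.filter_subset _ _) fun n hn hn' => ?_
    rw [mem_filter, not_and, not_not] at hn'
    rw [hn' hn, Complex.ofReal_zero, zero_mul]
  rw [h1]
  refine (norm_sum_le _ _).trans ?_
  have h2 : ∀ n ∈ (Icc 1 (2 * k * X)).filter (fun n => F n ≠ 0), ‖((F n : ℝ) : ℂ) * Psi X k f (n : ℤ)‖ ≤ B * (4 * X) := by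
    intro n hn
    rw [mem_filter, mem_Icc] at hn
    rw [norm_mul, Complex.norm_real, Real.norm_eq_abs]
    exact mul_le_mul (hB n hn.1.1 hn.1.2) (psi_bd X k f hf n) (norm_nonneg _) hB0
  refine (Finset.sum_le_sum h2).trans ?_
  rw [Finset.sum_const, nsmul_eq_mul, mul_assoc T B (4 * (X : ℝ))]
  refine mul_le_mul_of_nonneg_right ?_ (mul_nonneg hB0 (by positivity))
  have h3 : (Icc 1 (2 * k * X)).filter (fun n => F n ≠ 0) ⊆ Icc 1 ⌊T⌋₊ := by
    intro n hn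
    rw [mem_filter, mem_Icc] at hn
    rw [mem_Icc]
    exact ⟨hn.1.1, Nat.le_floor (hs n hn.1.1 hn.1.2 hn.2)⟩
  have h4 := Finset.card_le_card h3
  rw [Nat.card_Icc, Nat.add_sub_cancel] at h4
  exact (Nat.cast_le.mpr h4).trans (Nat.floor_le hT)

end Pool.Agent.HUK
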