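import Pool.Agent.Lib.HUK.BH0

/-!
# HUK, chunk BH2 (M): bounds for Dirichlet convolutions, and the splitting of `1` and `log`
-/

open Finset

namespace Pool.Agent.HUK

open Pool.Agent.Lib.H81A (af muV one1 logf)

theorem bh2_mem {n : ℕ} (hn : 1 ≤ n) {x : ℕ × ℕ} (hx : x ∈ n.divisorsAntidiagonal) :
    1 ≤ x.1 ∧ 1 ≤ x.2 ∧ x.1 ≤ n ∧ x.2 ≤ n := by
  rw [Nat.mem_divisorsAntidiagonal] at hx
  obtain ⟨h3, _⟩ := hx
  have h5 : x.1 ≠ 0 := by rintro h; rw [h, zero_mul] at h3; omega
  have h6 : x.2 ≠ 0 := by rintro h; rw [h, mul_zero] at h3; omega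
  have h7 : x.1 ≤ n := by rw [← h3]; exact Nat.le_mul_of_pos_right _ (Nat.pos_of_ne_zero h6)
  have h8 : x.2 ≤ n := by rw [← h3]; exact Nat.le_mul_of_pos_left _ (Nat.pos_of_ne_zero h5)
  exact ⟨by omega, by omega, h7, h8⟩

/-- Monotonicity. -/
theorem BN.mono {N : ℕ} {B B' : ℝ} {F : ArithmeticFunction ℝ} (h : BN N B F) (hB : B ≤ B') : BN N B' F := by
  exact fun n h1 h2 => (h n h1 h2).trans hB

/-- Proof. `(F * G) n = ∑ x ∈ n.divisorsAntidiagonal, F x.1 * G x.2`; the entries of `x` are in `[1, n]`, at most `n.divisors.card ≤ W` terms. -/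
theorem BN_mul {N : ℕ} {W B B' : ℝ} (hW : TW N W) {F G : ArithmeticFunction ℝ} (hF : BN N B F) (hG : BN N B' G)
    (hB : 0 ≤ B) (hB' : 0 ≤ B') : BN N (W * B * B') (F * G) := by
  intro n h1 h2
  rw [ArithmeticFunction.mul_apply]
  refine (Finset.abs_sum_le_sum_abs _ _).trans ?_
  have h3 : ∀ x ∈ n.divisorsAntidiagonal, |F x.1 * G x.2| ≤ B * B' := by
    intro x hx
    obtain ⟨h4, h5, h6, h7⟩ := bh2_mem h1 hx
    rw [abs_mul]
    exact mul_le_mul (hF _ h4 (h6.trans h2)) (hG _ h5 (h7.trans h2)) (abs_nonneg _) hB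
  refine (Finset.sum_le_sum h3).trans ?_
  rw [Finset.sum_const, nsmul_eq_mul, mul_assoc]
  refine mul_le_mul_of_nonneg_right ?_ (mul_nonneg hB hB')
  have h8 : n.divisorsAntidiagonal.card = n.divisors.card := by
    rw [← Nat.map_div_right_divisors, Finset.card_map]
  rw [h8]
  exact hW.2 n h1 h2

/-- Proof. Induction on the list (`List.prod_cons`, `BN_mul`, `W * M * (W * M) ^ n = (W * M) ^ (n + 1)`); empty list: `|1 n| ≤ 1` (`ArithmeticFunction.one_apply`). -/
theorem BN_list {N : ℕ} {W M : ℝ} (hW : TW N W) (hM : 1 ≤ M) (l : List (ArithmeticFunction ℝ)) (hl : ∀ g ∈ l, BN N M g) :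
    BN N ((W * M) ^ l.length) l.prod := by
  induction l with
  | nil =>
    intro n _ _
    rw [List.length_nil, pow_zero, List.prod_nil, ArithmeticFunction.one_apply]
    split_ifs <;> simp
  | cons g l ih =>
    have h1 := BN_mul hW (hl g List.mem_cons_self) (ih fun g' hg' => hl g' (List.mem_cons_of_mem _ hg')) (by linarith)
      (pow_nonneg (mul_nonneg (by linarith [hW.1]) (by linarith)) _)
    rw [List.prod_cons, List.length_cons, pow_succ']
    exact h1

/-- Proof. `BN_list` for `List.replicate n F` (`List.prod_replicate`). -/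
theorem BN_pow {N : ℕ} {W M : ℝ} (hW : TW N W) (hM : 1 ≤ M) (F : ArithmeticFunction ℝ) (hF : BN N M F) (n : ℕ) :
    BN N ((W * M) ^ n) (F ^ n) := by
  have h1 := BN_list hW hM (List.replicate n F) (fun g hg => by rw [List.eq_of_mem_replicate hg]; exact hF)
  rw [List.length_replicate, List.prod_replicate] at h1
  exact h1

/-- Proof. `ArithmeticFunction.ext`; at `0` both sides vanish; at `n ≥ 1`: `b_one` (`BFin.lean`), `ArithmeticFunction.mul_apply`, `af_apply` (the entries of the elements of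
`n.divisorsAntidiagonal` are not `0`). -/
theorem one_split (A D : ℕ) (hS : 0 < SA A) : one1 = fS A D + fU A * fV A D + fE A D := by
  refine ArithmeticFunction.ext fun n => ?_
  rcases Nat.eq_zero_or_pos n with rfl | hn
  · rw [ArithmeticFunction.map_zero, ArithmeticFunction.map_zero]
  · rw [ArithmeticFunction.add_apply, ArithmeticFunction.add_apply, ArithmeticFunction.mul_apply]
    unfold one1 fS fE
    rw [Pool.Agent.Lib.H81A.af_apply _ hn.ne', Pool.Agent.Lib.H81A.af_apply _ hn.ne', Pool.Agent.Lib.H81A.af_apply _ hn.ne']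
    have h1 : ∑ x ∈ n.divisorsAntidiagonal, fU A x.1 * fV A D x.2 = ∑ x ∈ n.divisorsAntidiagonal, uu A x.1 * vv A D x.2 := by
      refine Finset.sum_congr rfl fun x hx => ?_
      obtain ⟨h4, h5, h6, h7⟩ := bh2_mem hn hx
      unfold fU fV
      rw [Pool.Agent.Lib.H81A.af_apply _ (by omega), Pool.Agent.Lib.H81A.af_apply _ (by omega)]
    rw [h1]
    exact b_one A D n hS hn

/-- Proof. As `one_split`, with `b_log`. -/
theorem log_split (A D : ℕ) (hS : 0 < SA A) : logf = fSL A D + fUL A * fV A D + fU A * fVL A D + fEL A D := by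
  refine ArithmeticFunction.ext fun n => ?_
  rcases Nat.eq_zero_or_pos n with rfl | hn
  · rw [ArithmeticFunction.map_zero, ArithmeticFunction.map_zero]
  · rw [ArithmeticFunction.add_apply, ArithmeticFunction.add_apply, ArithmeticFunction.add_apply, ArithmeticFunction.mul_apply,
      ArithmeticFunction.mul_apply]
    unfold logf fSL fEL
    rw [Pool.Agent.Lib.H81A.af_apply _ hn.ne', Pool.Agent.Lib.H81A.af_apply _ hn.ne', Pool.Agent.Lib.H81A.af_apply _ hn.ne']
    have h1 : ∑ x ∈ n.divisorsAntidiagonal, fUL A x.1 * fV A D x.2 =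
        ∑ x ∈ n.divisorsAntidiagonal, uu A x.1 * Real.log x.1 * vv A D x.2 := by
      refine Finset.sum_congr rfl fun x hx => ?_
      obtain ⟨h4, h5, h6, h7⟩ := bh2_mem hn hx
      unfold fUL fV
      rw [Pool.Agent.Lib.H81A.af_apply _ (by omega), Pool.Agent.Lib.H81A.af_apply _ (by omega)]
    have h2 : ∑ x ∈ n.divisorsAntidiagonal, fU A x.1 * fVL A D x.2 =
        ∑ x ∈ n.divisorsAntidiagonal, uu A x.1 * (vv A D x.2 * Real.log x.2) := by
      refine Finset.sum_congr rfl fun x hx => ?_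
      obtain ⟨h4, h5, h6, h7⟩ := bh2_mem hn hx
      unfold fU fVL
      rw [Pool.Agent.Lib.H81A.af_apply _ (by omega), Pool.Agent.Lib.H81A.af_apply _ (by omega)]
    rw [h1, h2]
    exact b_log A D n hS hn

/-- `F` is the sum of its parts. -/
theorem low_add_high (T : ℝ) (F : ArithmeticFunction ℝ) : lowT T F + highT T F = F := by
  refine ArithmeticFunction.ext fun n => ?_
  rcases Nat.eq_zero_or_pos n with rfl | hn
  · rw [ArithmeticFunction.map_zero, ArithmeticFunction.map_zero]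
  · rw [ArithmeticFunction.add_apply]
    unfold lowT highT
    rw [Pool.Agent.Lib.H81A.af_apply _ hn.ne', Pool.Agent.Lib.H81A.af_apply _ hn.ne']
    split_ifs <;> simp

theorem low_BN {N : ℕ} {B T : ℝ} {F : ArithmeticFunction ℝ} (h : BN N B F) (hB : 0 ≤ B) : BN N B (lowT T F) ∧ BN N B (highT T F) := by
  constructor
  · intro n h1 h2
    unfold lowT
    rw [Pool.Agent.Lib.H81A.af_apply _ (by omega)]
    split_ifs
    · exact h n h1 h2
    · rw [abs_zero]
      exact hB
  · intro n h1 h2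
    unfold highT
    rw [Pool.Agent.Lib.H81A.af_apply _ (by omega)]
    split_ifs
    · rw [abs_zero]
      exact hB
    · exact h n h1 h2

theorem low_SP (N : ℕ) (T : ℝ) (F : ArithmeticFunction ℝ) : SP N T (lowT T F) := by
  intro n h1 _ h3
  unfold lowT at h3
  rw [Pool.Agent.Lib.H81A.af_apply _ (by omega)] at h3
  by_contra h4
  rw [if_neg h4] at h3
  exact h3 rfl

/-- The upper part of a convolution of `S` (supported on `n ≤ T`) and `g` (supported on `n ≤ Y`) is supported on `T < n ≤ T Y`. -/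
theorem high_supp {N : ℕ} {T Y : ℝ} (hT : 0 ≤ T) {S g : ArithmeticFunction ℝ} (hS : SP N T S) (hg : SP N Y g) :
    ∀ n : ℕ, 1 ≤ n → n ≤ N → highT T (S * g) n ≠ 0 → T < n ∧ (n : ℝ) ≤ T * Y := by
  intro n h1 h2 h3
  unfold highT at h3
  rw [Pool.Agent.Lib.H81A.af_apply _ (by omega)] at h3
  by_cases h4 : (n : ℝ) ≤ T
  · rw [if_pos h4] at h3
    exact absurd rfl h3
  rw [if_neg h4, ArithmeticFunction.mul_apply] at h3
  refine ⟨not_le.mp h4, ?_⟩
  obtain ⟨x, hx, hx0⟩ := Finset.exists_ne_zero_of_sum_ne_zero h3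
  obtain ⟨h5, h6, h7, h8⟩ := bh2_mem h1 hx
  have h9 := hS x.1 h5 (h7.trans h2) (left_ne_zero_of_mul hx0)
  have h10 := hg x.2 h6 (h8.trans h2) (right_ne_zero_of_mul hx0)
  rw [← (Nat.mem_divisorsAntidiagonal.mp hx).1]
  push_cast
  exact mul_le_mul h9 h10 (by positivity) hT

end Pool.Agent.HUK
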