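import Pool.Agent.Lib.HUK.BH0

/-!
# HUK, chunk BH3 (S/M): the algebra of one term of Heath-Brown's identity, ONLY MATHLIB
-/

open Finset

namespace Pool.Agent.HUK

/-- Proof. `o - s = u v + e`, `o ^ j = s ^ j + (∑ i ∈ range j, s ^ i * o ^ (j - 1 - i)) * (o - s)` (`geom_sum₂_mul` or `Commute.geom_sum₂_mul` with the roles of
`s, o` exchanged), insert it in `m * o ^ j * L`, and `L = sl + ul v + u vl + el` in the term with `s ^ j`. -/
theorem bh_alg {R : Type*} [CommRing R] (m s o u v e L sl ul vl el : R) (j : ℕ) (ho : o = s + u * v + e)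
    (hL : L = sl + ul * v + u * vl + el) :
    m * o ^ j * L = m * s ^ j * sl + ul * (m * s ^ j * v) + u * (m * s ^ j * vl) + m * s ^ j * el
      + ∑ i ∈ range j, (u * (m * s ^ i * o ^ (j - 1 - i) * L * v) + m * s ^ i * o ^ (j - 1 - i) * L * e) := by
  have h := geom_sum₂_mul s o j
  have h2 : s - o = -(u * v + e) := by
    rw [ho]
    ring
  rw [h2] at h
  have h3 : ∑ i ∈ range j, (u * (m * s ^ i * o ^ (j - 1 - i) * L * v) + m * s ^ i * o ^ (j - 1 - i) * L * e) =
      m * L * (u * v + e) * ∑ i ∈ range j, s ^ i * o ^ (j - 1 - i) := by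
    rw [Finset.mul_sum]
    refine Finset.sum_congr rfl fun i _ => ?_
    ring
  rw [h3]
  have h4 : m * s ^ j * L = m * s ^ j * sl + ul * (m * s ^ j * v) + u * (m * s ^ j * vl) + m * s ^ j * el := by
    rw [hL]
    ring
  linear_combination (m * L) * h + h4

end Pool.Agent.HUK
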