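import Pool.Agent.Lib.HUK.BH1
import Pool.Agent.Lib.HUK.BH2

/-!
# HUK, chunk BH4 (M): all factors small, partial products
-/

open Finset

namespace Pool.Agent.HUK

open Pool.Agent.Lib.H81A (af muV one1 logf)

/-- **Products of small factors.** `N = 2 k X`. Proof. Induction on `l`, `S` and `M'` arbitrary. Empty list: `S * 1 = S`, `LF_triv` (`M' ≤ B`). `g :: l`:
`S * (g * l.prod) = lowT T (S * g) * l.prod + highT T (S * g) * l.prod` (`low_add_high`), `LF_add`. First part: induction hypothesis for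
`lowT T (S * g)` (`low_SP`, `low_BN`, bounded by `W M' M` by `BN_mul`) and `W M' M`, `W M' M (W M) ^ l.length = M' (W M) ^ (l.length + 1) ≤ B`. Second part: `t2` with
`F = highT T (S * g)` (bounded by `W M' M ≤ M' (W M) ^ (l.length + 1) ≤ B`, support `high_supp`) and `G = l.prod` (`BN_list`, `(W M) ^ l.length ≤ B`): at most `E`. -/
theorem greedy (X k : ℕ) (f : ℕ → ℤ → ℂ) (hf : ∀ j, j < k → Bdd X (f j)) (T Y B E W M : ℝ) (hT : 1 ≤ T) (hM : 1 ≤ M)
    (hW : TW (2 * k * X) W)
    (t2 : ∀ F G, BN (2 * k * X) B F → BN (2 * k * X) B G →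
      (∀ n : ℕ, 1 ≤ n → n ≤ 2 * k * X → F n ≠ 0 → T < n ∧ (n : ℝ) ≤ T * Y) → ‖LF X k f (F * G)‖ ≤ E) :
    ∀ (l : List (ArithmeticFunction ℝ)) (S : ArithmeticFunction ℝ) (M' : ℝ), 1 ≤ M' →
      (∀ g ∈ l, BN (2 * k * X) M g ∧ SP (2 * k * X) Y g) → BN (2 * k * X) M' S → SP (2 * k * X) T S →
      M' * (W * M) ^ l.length ≤ B → ‖LF X k f (S * l.prod)‖ ≤ l.length * E + T * B * (4 * X) := by
  have hW1 : 1 ≤ W := hW.1
  have hWM : 1 ≤ W * M := by nlinarith
  intro l
  induction l with
  | nil =>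
    intro S M' hM' _ hS hSP hB
    simp only [List.prod_nil, mul_one, List.length_nil, Nat.cast_zero, zero_mul, zero_add, pow_zero] at *
    exact LF_triv X k f hf S T B (by linarith) (BN.mono hS hB) (by linarith) hSP
  | cons g l ih =>
    intro S M' hM' hl hS hSP hB
    have hg := hl g (List.mem_cons_self)
    have hl' : ∀ g' ∈ l, BN (2 * k * X) M g' ∧ SP (2 * k * X) Y g' := fun g' hg' => hl g' (List.mem_cons_of_mem _ hg')
    have hpos : 1 ≤ (W * M) ^ l.length := one_le_pow₀ hWM
    have hSg : BN (2 * k * X) (W * M' * M) (S * g) := BN_mul hW hS hg.1 (by linarith) (by linarith)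
    have hWMM : 1 ≤ W * M' * M := by
      have h1 : 1 ≤ W * M' := by nlinarith
      nlinarith
    have hlen : M' * (W * M) ^ (l.length + 1) = W * M' * M * (W * M) ^ l.length := by
      rw [pow_succ]; ring
    rw [List.length_cons, hlen] at hB
    have e1 : S * (g :: l).prod = lowT T (S * g) * l.prod + highT T (S * g) * l.prod := by
      rw [List.prod_cons, ← add_mul, low_add_high, mul_assoc]
    rw [e1, LF_add]
    have hlow := ih (lowT T (S * g)) (W * M' * M) hWMM hl' (low_BN hSg (by linarith)).1 (low_SP _ _ _) hB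
    have hB2 : W * M' * M ≤ B := by
      refine le_trans ?_ hB
      exact le_mul_of_one_le_right (by linarith) hpos
    have hB3 : (W * M) ^ l.length ≤ B := by
      refine le_trans ?_ hB
      exact le_mul_of_one_le_left (by linarith) hWMM
    have hhigh : ‖LF X k f (highT T (S * g) * l.prod)‖ ≤ E := by
      refine t2 _ _ (BN.mono (low_BN hSg (by linarith)).2 hB2) (BN.mono (BN_list hW hM l fun g' hg' => (hl' g' hg').1) hB3) ?_
      exact high_supp (by linarith) hSP hg.2
    have hlc : (((g :: l).length : ℕ) : ℝ) = l.length + 1 := by simp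
    rw [hlc]
    calc ‖LF X k f (lowT T (S * g) * l.prod) + LF X k f (highT T (S * g) * l.prod)‖
        ≤ ‖LF X k f (lowT T (S * g) * l.prod)‖ + ‖LF X k f (highT T (S * g) * l.prod)‖ := norm_add_le _ _
      _ ≤ (l.length * E + T * B * (4 * X)) + E := add_le_add hlow hhigh
      _ = (l.length + 1) * E + T * B * (4 * X) := by ring

end Pool.Agent.HUK
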