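import Pool.Agent.Lib.HUK.BH3
import Pool.Agent.Lib.HUK.BH4

/-!
# HUK, chunk BH5 (M): one term of Heath-Brown's identity
-/

open Finset

namespace Pool.Agent.HUK

open Pool.Agent.Lib.H81A (af muV one1 logf)

/-- The general list product. -/
theorem bh5_list {N : ℕ} {W M B : ℝ} (A D z : ℕ) (hW : TW N W) (hM : 1 ≤ M) (hmu : BN N M (muV z)) (hs : BN N M (fS A D))
    (ho : BN N M one1) (a b c : ℕ) (t : List (ArithmeticFunction ℝ)) (ht : ∀ g ∈ t, BN N M g) (K : ℕ)
    (hK : a + b + c + t.length ≤ K) (hB : (W * M) ^ K ≤ B) :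
    BN N B (muV z ^ a * fS A D ^ b * one1 ^ c * t.prod) := by
  have hW1 : 1 ≤ W := hW.1
  have hWM : 1 ≤ W * M := by nlinarith
  have h1 : muV z ^ a * fS A D ^ b * one1 ^ c * t.prod =
      (List.replicate a (muV z) ++ List.replicate b (fS A D) ++ List.replicate c one1 ++ t).prod := by
    simp [List.prod_append, List.prod_replicate, mul_assoc]
  have h2 : ∀ g ∈ (List.replicate a (muV z) ++ List.replicate b (fS A D) ++ List.replicate c one1 ++ t), BN N M g := by
    intro g hg
    simp only [List.mem_append, List.mem_replicate] at hg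
    rcases hg with ((⟨_, rfl⟩ | ⟨_, rfl⟩) | ⟨_, rfl⟩) | hg
    · exact hmu
    · exact hs
    · exact ho
    · exact ht g hg
  have h3 := BN_list hW hM _ h2
  rw [h1]
  refine BN.mono h3 (le_trans ?_ hB)
  refine pow_le_pow_right₀ hWM ?_
  simp only [List.length_append, List.length_replicate]
  exact hK

/-- Proof. `bh_alg` with `m = muV z ^ (j + 1)`, `s = fS A D`, `o = one1`, `u = fU A`, `v = fV A D`, `e = fE A D`, `L = logf`, `sl = fSL A D`, `ul = fUL A`,
`vl = fVL A D`, `el = fEL A D` (`one_split`, `log_split`), then `LF_add`, `LF_sum`, `norm_add_le`, `norm_sum_le`. Terms: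
(1) `muV z ^ (j + 1) * fS ^ j * fSL = 1 * l.prod`, `l = List.replicate (j + 1) (muV z) ++ List.replicate j (fS A D) ++ [fSL A D]`, length `2 j + 2`: `greedy` with `S = 1`, `M' = 1`
(`1 n ≠ 0` only for `n = 1 ≤ T`), at most `(2 j + 2) E + T B (4 X)`. (2) `fUL * G`, `fU * G`, `G * fEL`: `Hyp` with `G` a product of `2 j + 2` resp. `2 j + 1` factors bounded by `M`, so by
`(W M) ^ (2 j + 2) ≤ B` (`BN_mul`, `BN_pow`: a product of `n` factors is bounded by `(W M) ^ n`; or write it as a list product, `BN_list`), at most `E` each. (3) for `i < j`: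
`u * G` with `G` a product of `(j + 1) + i + (j - 1 - i) + 2 = 2 j + 2` factors, `G * e` with `2 j + 1` factors: at most `2 E`. Sum: `(2 j + 2 + 3 + 2 j) E + T B (4 X)`. `E ≥ 0`
(`Hyp.u` for `G = 0`, `B ≥ 0`). -/
theorem hb_term (X k : ℕ) (f : ℕ → ℤ → ℂ) (hf : ∀ j, j < k → Bdd X (f j)) (A D z J j : ℕ) (hj : j < J) (T Y B E W M : ℝ)
    (hT : 1 ≤ T) (hyp : Hyp X k f A D T Y B E) (hz : Siz (2 * k * X) A D z Y M W) (hB : (W * M) ^ (2 * J + 2) ≤ B) :
    ‖LF X k f (muV z ^ (j + 1) * one1 ^ j * logf)‖ ≤ (4 * J + 5) * E + T * B * (4 * X) := by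
  have hM := hz.M1
  have hW := hz.tw
  have hW1 : 1 ≤ W := hW.1
  have hWM : 1 ≤ W * M := by nlinarith
  have hB1 : 1 ≤ B := le_trans (one_le_pow₀ hWM) hB
  have hX0 : (0 : ℝ) ≤ X := Nat.cast_nonneg X
  have hE : 0 ≤ E := by
    refine le_trans (norm_nonneg _) (hyp.u 0 ?_)
    intro n _ _
    simpa using (by linarith : (0 : ℝ) ≤ B)
  have hlist := fun (a b c : ℕ) (t : List (ArithmeticFunction ℝ)) (ht : ∀ g ∈ t, BN (2 * k * X) M g)
    (hK : a + b + c + t.length ≤ 2 * J + 2) =>
    bh5_list A D z hW hM hz.mu.1 hz.s.1 hz.one a b c t ht (2 * J + 2) hK hB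
  have halg := bh_alg (muV z ^ (j + 1)) (fS A D) one1 (fU A) (fV A D) (fE A D) logf (fSL A D) (fUL A) (fVL A D) (fEL A D) j
    (one_split A D hz.S) (log_split A D hz.S)
  have t1 : ‖LF X k f (muV z ^ (j + 1) * fS A D ^ j * fSL A D)‖ ≤ (2 * j + 2) * E + T * B * (4 * X) := by
    have h1 : muV z ^ (j + 1) * fS A D ^ j * fSL A D =
        1 * (List.replicate (j + 1) (muV z) ++ List.replicate j (fS A D) ++ [fSL A D]).prod := by
      simp [List.prod_append, List.prod_replicate, mul_assoc]
    have h2 := greedy X k f hf T Y B E W M hT hM hW hyp.t2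
      (List.replicate (j + 1) (muV z) ++ List.replicate j (fS A D) ++ [fSL A D]) 1 1 le_rfl ?_ ?_ ?_ ?_
    · rw [h1]
      refine le_trans h2 (le_of_eq ?_)
      simp only [List.length_append, List.length_replicate, List.length_cons, List.length_nil]
      push_cast
      ring
    · intro g hg
      simp only [List.mem_append, List.mem_replicate, List.mem_singleton] at hg
      rcases hg with (⟨_, rfl⟩ | ⟨_, rfl⟩) | rfl
      · exact hz.mu
      · exact hz.s
      · exact hz.sl
    · intro n hn _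
      rw [ArithmeticFunction.one_apply]
      split_ifs <;> simp
    · intro n hn _ hne
      rw [ArithmeticFunction.one_apply] at hne
      by_cases h : n = 1
      · rw [h]
        simpa using hT
      · rw [if_neg h] at hne
        exact absurd rfl hne
    · rw [one_mul]
      refine le_trans (pow_le_pow_right₀ hWM ?_) hB
      simp only [List.length_append, List.length_replicate, List.length_cons, List.length_nil]
      omega
  have t2 : ‖LF X k f (fUL A * (muV z ^ (j + 1) * fS A D ^ j * fV A D))‖ ≤ E := by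
    refine hyp.ul _ ?_
    have h := hlist (j + 1) j 0 [fV A D] (by simpa using hz.v) (by simp only [List.length_cons, List.length_nil]; omega)
    simpa using h
  have t3 : ‖LF X k f (fU A * (muV z ^ (j + 1) * fS A D ^ j * fVL A D))‖ ≤ E := by
    refine hyp.u _ ?_
    have h := hlist (j + 1) j 0 [fVL A D] (by simpa using hz.vl) (by simp only [List.length_cons, List.length_nil]; omega)
    simpa using h
  have t4 : ‖LF X k f (muV z ^ (j + 1) * fS A D ^ j * fEL A D)‖ ≤ E := by
    refine hyp.el _ ?_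
    have h := hlist (j + 1) j 0 [] (by simp) (by simp only [List.length_nil]; omega)
    simpa using h
  have t5 : ∀ i ∈ range j, ‖LF X k f (fU A * (muV z ^ (j + 1) * fS A D ^ i * one1 ^ (j - 1 - i) * logf * fV A D) +
      muV z ^ (j + 1) * fS A D ^ i * one1 ^ (j - 1 - i) * logf * fE A D)‖ ≤ 2 * E := by
    intro i hi
    have hi' := Finset.mem_range.1 hi
    rw [LF_add]
    have h5 : ‖LF X k f (fU A * (muV z ^ (j + 1) * fS A D ^ i * one1 ^ (j - 1 - i) * logf * fV A D))‖ ≤ E := by
      refine hyp.u _ ?_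
      have h := hlist (j + 1) i (j - 1 - i) [logf, fV A D] (by
        intro g hg
        simp only [List.mem_cons, List.not_mem_nil, or_false] at hg
        rcases hg with rfl | rfl
        · exact hz.log
        · exact hz.v) (by simp only [List.length_cons, List.length_nil]; omega)
      have e : muV z ^ (j + 1) * fS A D ^ i * one1 ^ (j - 1 - i) * [logf, fV A D].prod =
          muV z ^ (j + 1) * fS A D ^ i * one1 ^ (j - 1 - i) * logf * fV A D := by
        simp only [List.prod_cons, List.prod_nil, mul_one, mul_assoc]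
      rwa [e] at h
    have h6 : ‖LF X k f (muV z ^ (j + 1) * fS A D ^ i * one1 ^ (j - 1 - i) * logf * fE A D)‖ ≤ E := by
      refine hyp.e _ ?_
      have h := hlist (j + 1) i (j - 1 - i) [logf] (by
        intro g hg
        simp only [List.mem_cons, List.not_mem_nil, or_false] at hg
        rw [hg]
        exact hz.log) (by simp only [List.length_cons, List.length_nil]; omega)
      have e : muV z ^ (j + 1) * fS A D ^ i * one1 ^ (j - 1 - i) * [logf].prod =
          muV z ^ (j + 1) * fS A D ^ i * one1 ^ (j - 1 - i) * logf := by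
        simp only [List.prod_cons, List.prod_nil, mul_one]
      rwa [e] at h
    calc _ ≤ ‖LF X k f (fU A * (muV z ^ (j + 1) * fS A D ^ i * one1 ^ (j - 1 - i) * logf * fV A D))‖ +
          ‖LF X k f (muV z ^ (j + 1) * fS A D ^ i * one1 ^ (j - 1 - i) * logf * fE A D)‖ := norm_add_le _ _
      _ ≤ 2 * E := by linarith
  have t6 : ‖LF X k f (∑ i ∈ range j, (fU A * (muV z ^ (j + 1) * fS A D ^ i * one1 ^ (j - 1 - i) * logf * fV A D) +
      muV z ^ (j + 1) * fS A D ^ i * one1 ^ (j - 1 - i) * logf * fE A D))‖ ≤ j * (2 * E) := by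
    rw [LF_sum]
    refine le_trans (norm_sum_le _ _) ?_
    refine le_trans (Finset.sum_le_sum t5) ?_
    rw [Finset.sum_const, Finset.card_range, nsmul_eq_mul]
  rw [halg, LF_add, LF_add, LF_add, LF_add]
  have hjJ : (j : ℝ) ≤ J := by exact_mod_cast hj.le
  calc _ ≤ ‖LF X k f (muV z ^ (j + 1) * fS A D ^ j * fSL A D)‖ +
        ‖LF X k f (fUL A * (muV z ^ (j + 1) * fS A D ^ j * fV A D))‖ +
        ‖LF X k f (fU A * (muV z ^ (j + 1) * fS A D ^ j * fVL A D))‖ +
        ‖LF X k f (muV z ^ (j + 1) * fS A D ^ j * fEL A D)‖ +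
        ‖LF X k f (∑ i ∈ range j, (fU A * (muV z ^ (j + 1) * fS A D ^ i * one1 ^ (j - 1 - i) * logf * fV A D) +
          muV z ^ (j + 1) * fS A D ^ i * one1 ^ (j - 1 - i) * logf * fE A D))‖ := by
          refine le_trans (norm_add_le _ _) (add_le_add_left ?_ _)
          refine le_trans (norm_add_le _ _) (add_le_add_left ?_ _)
          refine le_trans (norm_add_le _ _) (add_le_add_left ?_ _)
          exact norm_add_le _ _
    _ ≤ (2 * j + 2) * E + T * B * (4 * X) + E + E + E + j * (2 * E) := by linarith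
    _ = (4 * j + 5) * E + T * B * (4 * X) := by ring
    _ ≤ (4 * J + 5) * E + T * B * (4 * X) := by nlinarith

end Pool.Agent.HUK
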