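import Pool.Agent.Lib.HUK.C1
import Pool.Agent.Lib.H9U.U1A

/-!
# HUK, chunk C2 (M): the interface `TLP` with sharp cutoffs and translations
-/

open Finset

namespace Pool.Agent.HUK

open Pool.Agent.H44W (ee)
open Pool.Agent.H9S (lc)
open Pool.Agent.H9U (JJ)

theorem c2_large (C D r : ℝ) (hr : 0 < r) :
    ∃ X0 : ℕ, ∀ X : ℕ, X0 ≤ X → C + D * Real.log X ≤ (X : ℝ) ^ r := by
  have h1 : ∀ᶠ x : ℝ in Filter.atTop, ‖Real.log x‖ ≤ (1 / (2 * (|D| + 1))) * ‖x ^ r‖ :=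
    (isLittleO_log_rpow_atTop hr).def (by positivity)
  have h2 : ∀ᶠ x : ℝ in Filter.atTop, 2 * C ≤ x ^ r :=
    (tendsto_rpow_atTop hr).eventually_ge_atTop (2 * C)
  have h3 : ∀ᶠ x : ℝ in Filter.atTop, C + D * Real.log x ≤ x ^ r := by
    filter_upwards [h1, h2, Filter.eventually_ge_atTop (1 : ℝ)] with x hx1 hx2 hx3
    have hl : 0 ≤ Real.log x := Real.log_nonneg hx3
    have hp : 0 ≤ x ^ r := Real.rpow_nonneg (by linarith) r
    rw [Real.norm_of_nonneg hl, Real.norm_of_nonneg hp] at hx1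
    have hD : D * Real.log x ≤ (|D| + 1) * Real.log x :=
      mul_le_mul_of_nonneg_right (by linarith [le_abs_self D]) hl
    have hD2 : (|D| + 1) * Real.log x ≤ (|D| + 1) * ((1 / (2 * (|D| + 1))) * x ^ r) :=
      mul_le_mul_of_nonneg_left hx1 (by positivity)
    have hD3 : (|D| + 1) * ((1 / (2 * (|D| + 1))) * x ^ r) = x ^ r / 2 := by
      have : (|D| + 1) ≠ 0 := by positivity
      field_simp
    linarith
  obtain ⟨a, ha⟩ := Filter.eventually_atTop.1 h3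
  refine ⟨⌈a⌉₊, fun X hX => ha X ?_⟩
  exact le_trans (Nat.le_ceil a) (by exact_mod_cast hX)

/-- Reindexing. -/
theorem c2_reindex (X N : ℕ) (w : ℤ) (hw : |w| ≤ X) (hX : 1 ≤ X) (hN : 4 * X ≤ N) (F : ℤ → ℂ) :
    ∑ m ∈ JJ X, F (m - w) =
      ∑ n ∈ Icc 1 N, (if (2 * (X : ℤ) - w) ≤ (n : ℤ) ∧ (n : ℤ) < 2 * X + X / 4 - w then (1 : ℂ) else 0) * F n := by
  have hw' := abs_le.1 hw
  simp only [ite_mul, one_mul, zero_mul]
  rw [← sum_filter]
  symm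
  refine Finset.sum_bij (fun n _ => (n : ℤ) + w) ?_ ?_ ?_ ?_
  · intro n hn
    rw [mem_filter] at hn
    unfold JJ
    rw [mem_Ico]
    omega
  · intro a _ b _ hab
    have : (a : ℤ) + w = b + w := hab
    omega
  · intro m hm
    unfold JJ at hm
    rw [mem_Ico] at hm
    refine ⟨(m - w).toNat, ?_, ?_⟩
    · rw [mem_filter, mem_Icc]
      refine ⟨⟨by omega, by omega⟩, by omega, by omega⟩
    · show (((m - w).toNat : ℕ) : ℤ) + w = m
      omega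
  · intro n _
    show F n = F (n + w - w)
    rw [add_sub_cancel_right]

/-- Proof. Put `g j x = f j (x + w)`, `n = m - w`, `B' = B + 1`, `Y' = B' X`. `Psi (B X) k f m = Psi Y' k f m` (`C1_scale`) `= Psi Y' k g n` (`C1_shift`).
`m ∈ JJ X` iff `u ≤ n < v`, `u = 2X - w`, `v = 2X + X/4 - w`; these `n` are in `[1, 2 k Y']` (`|w| ≤ X`, `X ≥ 1`). So the sum is
`∑_{n ∈ Icc 1 (2kY')} [u ≤ n < v] lc n Psi Y' k g n`; insert `U1A_ind M u v` (`H9U/U1A`) with `M = 2kY' + 1` (`0 ≤ n < M`), the phases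
`ee(j n/M)` are absorbed by `C1_phase`: each `j` gives at most `(Y')^(2 - κ1)` by `TLP k` for `κ` at scale `Y'` (`Bdd Y' (phf ..)`: `C1_phase_bdd`; `GG Y' (k-1) (g 0) =
GG (B X) (k-1) (f 0) ≤ X^(k-κ) ≤ (Y')^(k-κ)` by `GG_shift`, `C1_phase_GG`; `k - 1 ≥ 2`). Total `4 (1 + log M) (B'X)^(2-κ1) ≤ X^(2 - κ')`, `κ' = κ1/2`,
`X` large. `lc n = ((lp n : ℝ) : ℂ)`. -/
theorem C2_cut (k : ℕ) (hk : 3 ≤ k) (hT : TLP k) (B : ℕ) (hB : 1 ≤ B) (κ : ℝ) (hκ : 0 < κ) (hκ1 : κ ≤ 1) :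
    ∃ κ' : ℝ, 0 < κ' ∧ ∃ X0 : ℕ, ∀ X : ℕ, X0 ≤ X → ∀ f : ℕ → ℤ → ℂ, (∀ j, j < k → Bdd (B * X) (f j)) →
    GG (B * X) (k - 1) (f 0) ≤ (X : ℝ) ^ (k - κ) → ∀ w : ℤ, |w| ≤ X →
    ‖∑ m ∈ JJ X, lc (m - w) * Psi (B * X) k f m‖ ≤ (X : ℝ) ^ (2 - κ') := by
  obtain ⟨κ1, hκ10, X1, hX1⟩ := hT κ hκ
  obtain ⟨X2, hX2⟩ := c2_large (4 * (B + 1) ^ 2 * (1 + Real.log (2 * k * (B + 1) + 1))) (4 * (B + 1) ^ 2)
    (κ1 / 2) (by positivity)
  refine ⟨κ1 / 2, by positivity, max (max X1 X2) 1, fun X hX f hf hG w hw => ?_⟩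
  have hXX1 : X1 ≤ X := le_trans (le_trans (le_max_left _ _) (le_max_left _ _)) hX
  have hXX2 : X2 ≤ X := le_trans (le_trans (le_max_right _ _) (le_max_left _ _)) hX
  have hX0 : 1 ≤ X := le_trans (le_max_right _ _) hX
  have hXr : (1 : ℝ) ≤ X := by exact_mod_cast hX0
  have hw' := abs_le.1 hw
  set Y : ℕ := (B + 1) * X with hY
  have hYX : X ≤ Y := by rw [hY]; nlinarith
  have hYB : B * X ≤ Y := by rw [hY]; nlinarith
  have hYr : (Y : ℝ) = (B + 1) * X := by rw [hY]; push_cast; ring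
  set g : ℕ → ℤ → ℂ := fun j x => f j (x + w) with hg
  have hgb : ∀ j, j < k → Bdd Y (g j) := by
    intro j hj
    refine ⟨fun y => (hf j hj).le _, fun y hy => (hf j hj).sup _ ?_⟩
    intro h3
    apply hy
    rw [mem_Ico] at h3 ⊢
    have e1 : (Y : ℤ) = B * X + X := by rw [hY]; push_cast; ring
    push_cast at h3
    rw [e1]
    constructor <;> linarith [h3.1, h3.2, hw'.1, hw'.2]
  have hGg : GG Y (k - 1) (g 0) ≤ (Y : ℝ) ^ (k - κ) := by
    have h1 : GG Y (k - 1) (g 0) = GG (B * X) (k - 1) (f 0) :=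
      GG_shift (B * X) Y (k - 1) w (f 0) (hf 0 (by omega)).sup (hgb 0 (by omega)).sup
    rw [h1]
    refine le_trans hG (Real.rpow_le_rpow (by positivity) (by exact_mod_cast hYX) ?_)
    have : (3 : ℝ) ≤ k := by exact_mod_cast hk
    linarith
  have hPsi : ∀ m : ℤ, Psi (B * X) k f m = Psi Y k g (m - w) := by
    intro m
    rw [hg, C1_shift, sub_add_cancel]
    exact (C1_scale (B * X) Y k (by omega) hYB f (fun j hj => (hf j hj).sup) m).symm
  have hkX : 4 * X ≤ 2 * k * Y := by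
    have e2 : 6 ≤ 2 * k := by omega
    nlinarith
  set M : ℕ := 2 * k * Y + 1 with hM
  obtain ⟨c, hc1, hc2⟩ := Pool.Agent.H9U.U1A_ind M (by omega) (2 * (X : ℤ) - w) (2 * X + X / 4 - w)
  have hsum : ∑ m ∈ JJ X, lc (m - w) * Psi (B * X) k f m =
      ∑ j ∈ range M, c j * ∑ n ∈ Icc 1 (2 * k * Y), ((Pool.Agent.Lib.H68T.lp n : ℝ) : ℂ) *
        Psi Y k (phf k ((j : ℝ) / M) g) n := by
    have h1 : ∑ m ∈ JJ X, lc (m - w) * Psi (B * X) k f m =
        ∑ m ∈ JJ X, (fun n : ℤ => lc n * Psi Y k g n) (m - w) := by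
      refine sum_congr rfl fun m _ => ?_
      rw [hPsi m]
    rw [h1]
    refine (c2_reindex X (2 * k * Y) w hw hX0 hkX (fun n : ℤ => lc n * Psi Y k g n)).trans ?_
    simp only [mul_sum]
    rw [sum_comm]
    refine sum_congr rfl fun n hn => ?_
    rw [mem_Icc] at hn
    rw [hc1 (n : ℤ) (by omega) (by omega), sum_mul]
    refine sum_congr rfl fun j _ => ?_
    have h2 : (j : ℝ) * ((n : ℤ) : ℝ) / M = (j : ℝ) / M * ((n : ℤ) : ℝ) := by ring
    rw [h2, ← C1_phase Y k (by omega) g ((j : ℝ) / M) (n : ℤ)]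
    unfold lc
    ring
  rw [hsum]
  have hterm : ∀ j ∈ range M, ‖c j * ∑ n ∈ Icc 1 (2 * k * Y), ((Pool.Agent.Lib.H68T.lp n : ℝ) : ℂ) *
        Psi Y k (phf k ((j : ℝ) / M) g) n‖ ≤ ‖c j‖ * (Y : ℝ) ^ (2 - κ1) := by
    intro j _
    rw [norm_mul]
    refine mul_le_mul_of_nonneg_left ?_ (norm_nonneg _)
    refine hX1 Y (le_trans hXX1 hYX) _ (C1_phase_bdd Y k g _ hgb) ?_
    rw [C1_phase_GG Y k (k - 1) (by omega) g]
    exact hGg
  refine le_trans (norm_sum_le _ _) (le_trans (sum_le_sum hterm) ?_)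
  rw [← sum_mul]
  have hYp : (0 : ℝ) ≤ (Y : ℝ) ^ (2 - κ1) := by positivity
  refine le_trans (mul_le_mul_of_nonneg_right hc2 hYp) ?_
  have hlog : Real.log M ≤ Real.log (2 * k * (B + 1) + 1) + Real.log X := by
    rw [← Real.log_mul (by positivity) (by positivity)]
    refine Real.log_le_log (by rw [hM]; positivity) ?_
    rw [hM]
    push_cast
    rw [hYr]
    nlinarith
  have hY2 : (Y : ℝ) ^ (2 - κ1) ≤ (B + 1) ^ 2 * (X : ℝ) ^ (2 - κ1) := by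
    rw [hYr, Real.mul_rpow (by positivity) (by positivity)]
    refine mul_le_mul_of_nonneg_right ?_ (by positivity)
    rw [← Real.rpow_natCast]
    refine Real.rpow_le_rpow_of_exponent_le ?_ ?_
    · have : (0 : ℝ) ≤ B := by positivity
      linarith
    · push_cast
      linarith
  have hlog0 : 0 ≤ Real.log M := Real.log_nonneg (by rw [hM]; push_cast; nlinarith [Nat.cast_nonneg (α := ℝ) (2 * k * Y)])
  have hfin := hX2 X hXX2
  calc 4 * (1 + Real.log M) * (Y : ℝ) ^ (2 - κ1)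
      ≤ 4 * (1 + Real.log M) * ((B + 1) ^ 2 * (X : ℝ) ^ (2 - κ1)) :=
        mul_le_mul_of_nonneg_left hY2 (by positivity)
    _ ≤ 4 * (1 + (Real.log (2 * k * (B + 1) + 1) + Real.log X)) * ((B + 1) ^ 2 * (X : ℝ) ^ (2 - κ1)) := by
        refine mul_le_mul_of_nonneg_right ?_ (by positivity)
        linarith
    _ = (4 * (B + 1) ^ 2 * (1 + Real.log (2 * k * (B + 1) + 1)) + 4 * (B + 1) ^ 2 * Real.log X) *
        (X : ℝ) ^ (2 - κ1) := by ring
    _ ≤ (X : ℝ) ^ (κ1 / 2) * (X : ℝ) ^ (2 - κ1) := mul_le_mul_of_nonneg_right hfin (by positivity)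
    _ = (X : ℝ) ^ (2 - κ1 / 2) := by
        rw [← Real.rpow_add (by linarith)]
        congr 1
        ring

end Pool.Agent.HUK
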