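import Pool.Agent.Lib.HUK.C2
import Pool.Agent.Lib.H9S.K1

/-!
# HUK, chunk C3 (S/M): the projections of low level
-/

open Finset

namespace Pool.Agent.HUK

open Pool.Agent.H9S (lc Lc)
open Pool.Agent.H9U (JJ)

/-- Proof. `Lc Q Y m = ∑_{z ∈ Ioo (-Y) Y} kern Q Y z * lc (m - z)` (definition of `Lk`), `K1_mass` (`H9S/K1`): `∑ |kern Q Y z| ≤ Q^3`. `C2_cut` with
`w = 0` and `w = z`, `|z| < Y ≤ X`. -/
theorem C3_kern (k : ℕ) (hk : 3 ≤ k) (hT : TLP k) (B : ℕ) (hB : 1 ≤ B) (κ : ℝ) (hκ : 0 < κ) (hκ1 : κ ≤ 1) :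
    ∃ κ' : ℝ, 0 < κ' ∧ ∃ X0 : ℕ, ∀ X : ℕ, X0 ≤ X → ∀ f : ℕ → ℤ → ℂ, (∀ j, j < k → Bdd (B * X) (f j)) →
    GG (B * X) (k - 1) (f 0) ≤ (X : ℝ) ^ (k - κ) → ∀ Q Y : ℕ, Y ≤ X →
    ‖∑ m ∈ JJ X, (lc m - Lc Q Y m) * Psi (B * X) k f m‖ ≤ (1 + (Q : ℝ) ^ 3) * (X : ℝ) ^ (2 - κ') := by
  obtain ⟨κ', hκ', X0, hX0⟩ := C2_cut k hk hT B hB κ hκ hκ1
  refine ⟨κ', hκ', X0, fun X hX f hf hG Q Y hY => ?_⟩
  have hcut := hX0 X hX f hf hG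
  have h0 : ‖∑ m ∈ JJ X, lc m * Psi (B * X) k f m‖ ≤ (X : ℝ) ^ (2 - κ') := by
    have h := hcut 0 (by simp)
    simpa using h
  have e1 : ∑ m ∈ JJ X, Lc Q Y m * Psi (B * X) k f m =
      ∑ z ∈ Ioo (-(Y:ℤ)) Y, ((Pool.Agent.Lib.H68T.kern Q Y z : ℝ) : ℂ) *
        ∑ m ∈ JJ X, lc (m - z) * Psi (B * X) k f m := by
    have h1 : ∀ m ∈ JJ X, Lc Q Y m * Psi (B * X) k f m =
        ∑ z ∈ Ioo (-(Y:ℤ)) Y, ((Pool.Agent.Lib.H68T.kern Q Y z : ℝ) : ℂ) *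
          (lc (m - z) * Psi (B * X) k f m) := by
      intro m _
      have h2 : Lc Q Y m = ∑ z ∈ Ioo (-(Y:ℤ)) Y,
          ((Pool.Agent.Lib.H68T.kern Q Y z : ℝ) : ℂ) * lc (m - z) := by
        unfold Pool.Agent.H9S.Lc Pool.Agent.Lib.H68T.Lk Pool.Agent.H9S.lc
        push_cast
        rfl
      rw [h2, sum_mul]
      exact sum_congr rfl fun z _ => by ring
    rw [sum_congr rfl h1, sum_comm]
    exact sum_congr rfl fun z _ => by rw [mul_sum]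
  have h3 : ‖∑ m ∈ JJ X, Lc Q Y m * Psi (B * X) k f m‖ ≤ (Q : ℝ) ^ 3 * (X : ℝ) ^ (2 - κ') := by
    rw [e1]
    refine (norm_sum_le _ _).trans ?_
    have h4 : ∀ z ∈ Ioo (-(Y:ℤ)) Y, ‖((Pool.Agent.Lib.H68T.kern Q Y z : ℝ) : ℂ) *
        ∑ m ∈ JJ X, lc (m - z) * Psi (B * X) k f m‖ ≤
        |Pool.Agent.Lib.H68T.kern Q Y z| * (X : ℝ) ^ (2 - κ') := by
      intro z hz
      rw [norm_mul, Complex.norm_real, Real.norm_eq_abs]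
      refine mul_le_mul_of_nonneg_left (hcut z ?_) (abs_nonneg _)
      rw [mem_Ioo] at hz
      have hY' : (Y : ℤ) ≤ X := by exact_mod_cast hY
      rw [abs_le]
      constructor <;> linarith [hz.1, hz.2]
    refine (sum_le_sum h4).trans ?_
    rw [← sum_mul]
    exact mul_le_mul_of_nonneg_right (Pool.Agent.H9S.K1_mass Q Y)
      (Real.rpow_nonneg (Nat.cast_nonneg X) _)
  have e2 : ∑ m ∈ JJ X, (lc m - Lc Q Y m) * Psi (B * X) k f m =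
      ∑ m ∈ JJ X, lc m * Psi (B * X) k f m - ∑ m ∈ JJ X, Lc Q Y m * Psi (B * X) k f m := by
    rw [← sum_sub_distrib]
    exact sum_congr rfl fun m _ => by ring
  rw [e2]
  refine (norm_sub_le _ _).trans ?_
  linarith [h0, h3]

end Pool.Agent.HUK
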