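import Pool.Agent.Lib.HUK.C3

/-!
# HUK, chunk C4 (M): the error `Er` against dual functions
-/

open Finset

namespace Pool.Agent.HUK

open Pool.Agent.H9S (lc Lc)
open Pool.Agent.H9U (JJ Er Rgm)

theorem c4_Q2 (t : ℝ) (h1 : 1 ≤ t) : 1 ≤ ⌊t⌋₊ ∧ ((⌊t⌋₊ : ℕ) : ℝ) ≤ t ∧ t / 2 ≤ ((⌊t⌋₊ : ℕ) : ℝ) := by
  have h2 : 1 ≤ ⌊t⌋₊ := Nat.le_floor (by rw [Nat.cast_one]; exact h1)
  refine ⟨h2, Nat.floor_le (by linarith), ?_⟩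
  have h3 : t < ((⌊t⌋₊ : ℕ) : ℝ) + 1 := Nat.lt_floor_add_one t
  have h4 : (1 : ℝ) ≤ ((⌊t⌋₊ : ℕ) : ℝ) := by exact_mod_cast h2
  linarith

theorem c4_neg (x b c θ2 : ℝ) (hx : 1 ≤ x) (hc : 0 < c) (hb : x ^ θ2 / 2 ≤ b) :
    b ^ (-c) ≤ 2 ^ c * x ^ (-(c * θ2)) := by
  have hx0 : 0 < x := by linarith
  have h1 : 0 < x ^ θ2 / 2 := div_pos (Real.rpow_pos_of_pos hx0 _) two_pos
  have h2 : b ^ (-c) ≤ (x ^ θ2 / 2) ^ (-c) :=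
    Real.rpow_le_rpow_of_nonpos h1 hb (by linarith)
  refine h2.trans (le_of_eq ?_)
  rw [Real.div_rpow (Real.rpow_nonneg hx0.le _) two_pos.le, ← Real.rpow_mul hx0.le,
    Real.rpow_neg two_pos.le c, div_inv_eq_mul, mul_comm ((2 : ℝ) ^ c)]
  congr 2
  ring

/-- Proof. `K` from `LKP k` for `B`. Given `Cr θ κ`: `κ1` from `C3_kern`; `θ2 = min θ (κ1/6)`, `Q2 = ⌊X^θ2⌋₊`: `1 ≤ Q2 ≤ Q'` (`Rgm.low`: `X^θ2 ≤ X^θ ≤ Q'`, `X ≥ 1`),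
`Q2 ≥ X^θ2/2`. With `Y = X/Q²`:
`Er Q Q' X m = (lc m - Lc Q2 Y m) - (Lk Q' Y m - Lk Q2 Y m)` and `Lk Q' - Lk Q2 = (Lk Q - Lk Q2) - (Lk Q - Lk Q')`.
First part: `C3_kern` with `Q2`: at most `2 X^(3 θ2) X^(2-κ1) ≤ 2 X^(2-κ1/2)`. Second: twice `LKP k` (with `Q2` and with `Q'`):
at most `2 C X² Q2^(-c) ≤ 2 C 2^c X^(2 - c θ2)`. `κ' = min (min (κ1/2) (c θ2)) 1 / 2`, `X` large. -/
theorem C4_est (k : ℕ) (hk : 3 ≤ k) (hT : TLP k) (hL : LKP k) (B : ℕ) (hB : 1 ≤ B) : ∃ K : ℝ, 1 ≤ K ∧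
    ∀ Cr θ κ : ℝ, 1 ≤ Cr → 0 < θ → 0 < κ → κ ≤ 1 → ∃ κ' : ℝ, 0 < κ' ∧ κ' ≤ 1 ∧ ∃ X0 : ℕ, ∀ Q Q' X : ℕ, X0 ≤ X →
    Rgm K Cr θ Q Q' X → ∀ f : ℕ → ℤ → ℂ, (∀ j, j < k → Bdd (B * X) (f j)) →
    GG (B * X) (k - 1) (f 0) ≤ (X : ℝ) ^ (k - κ) →
    ‖∑ m ∈ JJ X, Er Q Q' X m * Psi (B * X) k f m‖ ≤ (X : ℝ) ^ (2 - κ') := by
  obtain ⟨K, C, c, hK, hC, hc, hLK⟩ := hL B
  refine ⟨K, hK, ?_⟩
  intro Cr θ κ hCr hθ hκ hκle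
  obtain ⟨κ1, hκ1, X1, h3⟩ := C3_kern k hk hT B hB κ hκ hκle
  have hθ2 : 0 < min θ (κ1 / 6) := lt_min hθ (by linarith)
  have hθ2a : min θ (κ1 / 6) ≤ θ := min_le_left _ _
  have hθ2b : min θ (κ1 / 6) ≤ κ1 / 6 := min_le_right _ _
  generalize min θ (κ1 / 6) = θ2 at hθ2 hθ2a hθ2b
  have hm0 : 0 < min (min (κ1 / 2) (c * θ2)) 1 :=
    lt_min (lt_min (by linarith) (mul_pos hc hθ2)) one_pos
  have hm1 : min (min (κ1 / 2) (c * θ2)) 1 ≤ κ1 / 2 := (min_le_left _ _).trans (min_le_left _ _)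
  have hm2 : min (min (κ1 / 2) (c * θ2)) 1 ≤ c * θ2 := (min_le_left _ _).trans (min_le_right _ _)
  have hm3 : min (min (κ1 / 2) (c * θ2)) 1 ≤ 1 := min_le_right _ _
  generalize min (min (κ1 / 2) (c * θ2)) 1 = m at hm0 hm1 hm2 hm3
  refine ⟨m / 2, by linarith, by linarith, ?_⟩
  have hA : 0 < 2 + 2 * C * 2 ^ c := by positivity
  refine ⟨max (max X1 1) ⌈(2 + 2 * C * 2 ^ c) ^ (1 / (m / 2))⌉₊, ?_⟩
  intro Q Q' X hX hR f hf hG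
  have hX1 : X1 ≤ X := ((le_max_left _ _).trans (le_max_left _ _)).trans hX
  have hX2 : 1 ≤ X := ((le_max_right _ _).trans (le_max_left _ _)).trans hX
  have hX3 : ⌈(2 + 2 * C * 2 ^ c) ^ (1 / (m / 2))⌉₊ ≤ X := (le_max_right _ _).trans hX
  have hx1 : (1 : ℝ) ≤ X := by exact_mod_cast hX2
  have hx0 : (0 : ℝ) < X := by linarith
  have hbig : 2 + 2 * C * 2 ^ c ≤ (X : ℝ) ^ (m / 2) := by
    have h4 : (2 + 2 * C * 2 ^ c) ^ (1 / (m / 2)) ≤ (X : ℝ) :=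
      (Nat.le_ceil _).trans (by exact_mod_cast hX3)
    have h5 := Real.rpow_le_rpow (Real.rpow_nonneg hA.le _) h4 (by linarith : 0 ≤ m / 2)
    rw [← Real.rpow_mul hA.le, one_div_mul_cancel (by linarith : m / 2 ≠ 0), Real.rpow_one] at h5
    exact h5
  have ht1 : 1 ≤ (X : ℝ) ^ θ2 := Real.one_le_rpow hx1 hθ2.le
  obtain ⟨hQ1, hQ2, hQ3⟩ := c4_Q2 ((X : ℝ) ^ θ2) ht1
  generalize ⌊(X : ℝ) ^ θ2⌋₊ = Q2 at hQ1 hQ2 hQ3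
  have hQQ' : Q2 ≤ Q' := by
    have h4 : ((Q2 : ℕ) : ℝ) ≤ (Q' : ℝ) :=
      (hQ2.trans (Real.rpow_le_rpow_of_exponent_le hx1 hθ2a)).trans hR.low
    exact_mod_cast h4
  have hQ'1 : 1 ≤ Q' := hQ1.trans hQQ'
  -- the three parts
  have hP1 := h3 X hX1 f hf hG Q2 (X / Q ^ 2) (Nat.div_le_self _ _)
  have hP2 := hLK Q Q2 X hR.reg hQ1 (hQQ'.trans hR.le) f hf
  have hP3 := hLK Q Q' X hR.reg hQ'1 hR.le f hf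
  have hsum : ∑ m ∈ JJ X, Er Q Q' X m * Psi (B * X) k f m =
      ∑ m ∈ JJ X, (lc m - Lc Q2 (X / Q ^ 2) m) * Psi (B * X) k f m +
      ∑ n ∈ JJ X, ((Lib.H68T.Lk Q (X / Q ^ 2) n - Lib.H68T.Lk Q' (X / Q ^ 2) n : ℝ) : ℂ) * Psi (B * X) k f n -
      ∑ n ∈ JJ X, ((Lib.H68T.Lk Q (X / Q ^ 2) n - Lib.H68T.Lk Q2 (X / Q ^ 2) n : ℝ) : ℂ) * Psi (B * X) k f n := by
    rw [← sum_add_distrib, ← sum_sub_distrib]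
    refine sum_congr rfl fun n _ => ?_
    unfold Er Lc
    push_cast
    ring
  have hb1 : (1 + (Q2 : ℝ) ^ 3) * (X : ℝ) ^ (2 - κ1) ≤ 2 * (X : ℝ) ^ (2 - m) := by
    have h4 : (Q2 : ℝ) ^ 3 ≤ (X : ℝ) ^ (κ1 / 2) := by
      have h5 : (Q2 : ℝ) ^ 3 ≤ ((X : ℝ) ^ θ2) ^ 3 := pow_le_pow_left₀ (Nat.cast_nonneg _) hQ2 3
      refine h5.trans ?_
      rw [← Real.rpow_natCast, ← Real.rpow_mul hx0.le]
      refine Real.rpow_le_rpow_of_exponent_le hx1 ?_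
      push_cast
      linarith
    have h6 : 1 ≤ (X : ℝ) ^ (κ1 / 2) := Real.one_le_rpow hx1 (by linarith)
    have h7 : (1 + (Q2 : ℝ) ^ 3) * (X : ℝ) ^ (2 - κ1) ≤ (2 * (X : ℝ) ^ (κ1 / 2)) * (X : ℝ) ^ (2 - κ1) :=
      mul_le_mul_of_nonneg_right (by linarith) (Real.rpow_nonneg hx0.le _)
    refine h7.trans ?_
    rw [mul_assoc, ← Real.rpow_add hx0]
    refine mul_le_mul_of_nonneg_left (Real.rpow_le_rpow_of_exponent_le hx1 (by linarith)) two_pos.le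
  have hpos : 0 ≤ C * (X : ℝ) ^ 2 := by positivity
  have key : ∀ b : ℝ, (X : ℝ) ^ θ2 / 2 ≤ b → C * (X : ℝ) ^ 2 * b ^ (-c) ≤ C * 2 ^ c * (X : ℝ) ^ (2 - m) := by
    intro b hb
    have h4 := c4_neg X b c θ2 hx1 hc hb
    have h5 := mul_le_mul_of_nonneg_left h4 hpos
    refine h5.trans ?_
    have h6 : C * (X : ℝ) ^ 2 * (2 ^ c * (X : ℝ) ^ (-(c * θ2))) = C * 2 ^ c * (X : ℝ) ^ (2 - c * θ2) := by
      rw [show (2 : ℝ) - c * θ2 = 2 + -(c * θ2) by ring, Real.rpow_add hx0, Real.rpow_two]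
      ring
    rw [h6]
    refine mul_le_mul_of_nonneg_left (Real.rpow_le_rpow_of_exponent_le hx1 (by linarith)) (by positivity)
  have hb2 := key (Q2 : ℝ) hQ3
  have hb3 := key (Q' : ℝ) (hQ3.trans (by exact_mod_cast hQQ'))
  rw [hsum]
  have hn1 := norm_sub_le (∑ m ∈ JJ X, (lc m - Lc Q2 (X / Q ^ 2) m) * Psi (B * X) k f m +
      ∑ n ∈ JJ X, ((Lib.H68T.Lk Q (X / Q ^ 2) n - Lib.H68T.Lk Q' (X / Q ^ 2) n : ℝ) : ℂ) * Psi (B * X) k f n)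
      (∑ n ∈ JJ X, ((Lib.H68T.Lk Q (X / Q ^ 2) n - Lib.H68T.Lk Q2 (X / Q ^ 2) n : ℝ) : ℂ) * Psi (B * X) k f n)
  have hn2 := norm_add_le (∑ m ∈ JJ X, (lc m - Lc Q2 (X / Q ^ 2) m) * Psi (B * X) k f m)
      (∑ n ∈ JJ X, ((Lib.H68T.Lk Q (X / Q ^ 2) n - Lib.H68T.Lk Q' (X / Q ^ 2) n : ℝ) : ℂ) * Psi (B * X) k f n)
  have htot : (2 + 2 * C * 2 ^ c) * (X : ℝ) ^ (2 - m) ≤ (X : ℝ) ^ (2 - m / 2) := by
    have h4 : (2 + 2 * C * 2 ^ c) * (X : ℝ) ^ (2 - m) ≤ (X : ℝ) ^ (m / 2) * (X : ℝ) ^ (2 - m) :=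
      mul_le_mul_of_nonneg_right hbig (Real.rpow_nonneg hx0.le _)
    refine h4.trans (le_of_eq ?_)
    rw [← Real.rpow_add hx0]
    congr 1
    ring
  refine le_trans ?_ htot
  have e1 : (2 + 2 * C * 2 ^ c) * (X : ℝ) ^ (2 - m) = 2 * (X : ℝ) ^ (2 - m) + C * 2 ^ c * (X : ℝ) ^ (2 - m) + C * 2 ^ c * (X : ℝ) ^ (2 - m) := by ring
  rw [e1]
  linarith

end Pool.Agent.HUK
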