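import Pool.Agent.Lib.HUK.C4
import Pool.Agent.Lib.HUK.C5
import Pool.Agent.Lib.H9U.U0B

/-!
# HUK, chunk C6 (M/L): the closure, from `U^(k-1)` to `U^k`
-/

open Finset

namespace Pool.Agent.HUK

open Pool.Agent.H9S (lc Lc)
open Pool.Agent.H9U (JJ cutJ Er Rgm)

lemma c6_cj (n : ℕ) (r : ℝ) : cj n (r : ℂ) = r := by
  unfold cj
  split_ifs
  · rfl
  · exact Complex.conj_ofReal r

lemma c6_large (c M : ℝ) (hc : 0 < c) : ∃ X0 : ℕ, ∀ X : ℕ, X0 ≤ X → M ≤ (X : ℝ) ^ c := by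
  have h1 : Filter.Tendsto (fun X : ℕ => (X : ℝ) ^ c) Filter.atTop Filter.atTop :=
    (tendsto_rpow_atTop hc).comp tendsto_natCast_atTop_atTop
  exact Filter.eventually_atTop.1 (h1.eventually_ge_atTop M)

lemma c6_rgm {K K' Cr θ : ℝ} {Q Q' X : ℕ} (h : Rgm K Cr θ Q Q' X) (h0 : 0 ≤ K) (hK : K' ≤ K) :
    Rgm K' Cr θ Q Q' X := ⟨h.reg.mono h0 hK, h.log, h.low, h.le⟩

lemma c6_JJ {X : ℕ} {m : ℤ} (hm : m ∈ JJ X) : (X:ℤ) ≤ m ∧ m < 4 * X ∧ m ∈ Ico (-((4 * X : ℕ) : ℤ)) ((4 * X : ℕ) : ℤ) := by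
  unfold Pool.Agent.H9U.JJ at hm
  rw [mem_Ico] at hm ⊢
  push_cast
  omega

/-- the values of `Er` are real -/
lemma c6_Er (Q Q' X : ℕ) (m : ℤ) : ∃ r : ℝ, Er Q Q' X m = (r : ℂ) := by
  refine ⟨Pool.Agent.Lib.H68T.lp m - Pool.Agent.Lib.H68T.Lk Q' (X / Q ^ 2) m, ?_⟩
  unfold Pool.Agent.H9U.Er Pool.Agent.H9S.lc Pool.Agent.H9S.Lc
  push_cast
  ring

/-- one vector of differences of differences -/
lemma c6_inner (X s : ℕ) (E : ℤ → ℂ) (hE : ∀ m, ∃ r : ℝ, E m = (r : ℂ)) (c : ℝ) (G : ℤ → ℂ) :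
    ∑ m ∈ Ico (-((4 * X : ℕ) : ℤ)) ((4 * X : ℕ) : ℤ), cj (s + 1) ((c : ℂ) * cutJ X E m) * G m =
      (c : ℂ) * ∑ m ∈ JJ X, E m * G m := by
  rw [mul_sum]
  have h1 : JJ X ⊆ Ico (-((4 * X : ℕ) : ℤ)) ((4 * X : ℕ) : ℤ) := fun m hm => (c6_JJ hm).2.2
  rw [← sum_subset h1]
  · refine sum_congr rfl fun m hm => ?_
    obtain ⟨r, hr⟩ := hE m
    unfold Pool.Agent.H9U.cutJ
    rw [if_pos hm, hr, ← Complex.ofReal_mul, c6_cj]
    push_cast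
    ring
  · intro m _ hm
    unfold Pool.Agent.H9U.cutJ
    rw [if_neg hm, mul_zero]
    have : cj (s + 1) (0 : ℂ) = 0 := by
      have h := c6_cj (s + 1) 0
      simpa using h
    rw [this, zero_mul]

/-- Proof. `k = s + 1`, `s ≥ 3`. `B = 4 (8 s + 1)`; `K` = maximum of the constants of `C4_est` for `B`, of `PK (k-1)` and of `U0_size` (`H9U.z4_rgm` in
`H9U/Z4.lean` is three lines, copy it: `⟨h.reg.mono .., h.log, h.low, h.le⟩`). Given `Cr θ`: `κ1` from `PK (k-1)`, `κ2` from `C4_est` with `κ = κ1`;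
`κ = κ2/2`, `ε = κ2/(8 * 2^k)`. `E = Er Q Q' X`, `b = X^ε`: `‖E m‖ ≤ b` for `X ≤ m ≤ 4X` (`U0_lp`, `U0_size` with `ε/2`, `2 X^(ε/2) ≤ X^ε`; `1 ≤ Q'`). Put
`F = cutJ X E`, `f x = (b⁻¹ : ℝ) * F x`: `Bdd (4X) f`, `F = b • f`, so `GG (4X) k F = b^(2^k) GG (4X) k f` (`C1_smul`).
`C5_slice` with `Y = 4X`, `Y' = B X`, `GG_real`: `GG (4X) k f = ∑_{e ∈ bxS s (16X)} ∑_{m ∈ Ico (-4X) (4X)} cj k (f m) * Psi (B X) k (sl f e) m`. `E m` is real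
(`Er` is a difference of real numbers), so `cj k (f m) = f m = b⁻¹ E m` for `m ∈ JJ X` and `0` otherwise: the inner sum is `b⁻¹ ∑_{m ∈ JJ X} E m * Psi (B X) k (sl f e) m`,
at most `X^(2-κ2)` by `C4_est`: `Bdd (B X) (sl f e j)` by `C5_bdd` (`(8s+1) (4X) = B X`), and `GG (B X) (k-1) (sl f e 0) = GG (4X) (k-1) f`
(`C5_zero`, `GG_shift`) `= b^(-2^(k-1)) GG (4X) (k-1) F ≤ X^(k - κ1)` (`PK (k-1)`, `b ≥ 1`, `((k-1 : ℕ) : ℝ) + 1 - κ1 = k - κ1`).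
Number of `e`: at most `(32 X)^s` (`bxS_card`). Total: `GG (4X) k F ≤ X^(ε 2^k) 32^s X^s X^(2-κ2) ≤ X^(k + 1 - κ2/2)` for `X` large. -/
theorem C6_close (k : ℕ) (hk : 4 ≤ k) (hT : TLP k) (hL : LKP k) (hP : PK (k - 1)) : PK k := by
  obtain ⟨s, rfl⟩ : ∃ s, k = s + 1 := ⟨k - 1, by omega⟩
  have hs : 3 ≤ s := by omega
  have hss : s + 1 - 1 = s := by omega
  rw [hss] at hP
  obtain ⟨B, hB⟩ : ∃ B : ℕ, B = 4 * (8 * s + 1) := ⟨_, rfl⟩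
  obtain ⟨K1, hK1, h1⟩ := C4_est (s + 1) (by omega) hT hL B (by omega)
  obtain ⟨K2, hK2, h2⟩ := hP
  obtain ⟨K3, hK3, h3⟩ := Pool.Agent.H9U.U0_size
  refine ⟨max K1 (max K2 K3), le_max_of_le_left hK1, fun Cr θ hCr hθ => ?_⟩
  have hK0 : (0 : ℝ) ≤ max K1 (max K2 K3) := le_trans (by linarith) (le_max_left _ _)
  obtain ⟨κ1, hκ1, hκ11, X2, h2⟩ := h2 Cr θ hCr hθ
  obtain ⟨κ2, hκ2, hκ21, X1, h1⟩ := h1 Cr θ κ1 hCr hθ hκ1 hκ11
  obtain ⟨ε, hε⟩ : ∃ ε : ℝ, ε = κ2 / (8 * 2 ^ (s + 1)) := ⟨_, rfl⟩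
  have hε0 : 0 < ε := by rw [hε]; positivity
  obtain ⟨X3, h3⟩ := h3 (ε / 2) (by linarith)
  obtain ⟨X4, h4⟩ := Pool.Agent.H9U.U0_lp (ε / 2) (by linarith)
  obtain ⟨X5, h5⟩ := c6_large (ε / 2) 2 (by linarith)
  obtain ⟨X6, h6⟩ := c6_large (3 * κ2 / 8) (32 ^ s) (by linarith)
  refine ⟨κ2 / 2, by linarith, by linarith, max (max (max X1 X2) (max X3 X4)) (max (max X5 X6) 1), fun Q Q' X hX hR => ?_⟩
  simp only [max_le_iff] at hX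
  obtain ⟨⟨⟨hX1, hX2⟩, hX3, hX4⟩, ⟨hX5, hX6⟩, hX0⟩ := hX
  have hXr : (1 : ℝ) ≤ X := by exact_mod_cast hX0
  have hXp : (0 : ℝ) < X := by linarith
  have hR1 : Rgm K1 Cr θ Q Q' X := c6_rgm hR hK0 (le_max_left _ _)
  have hR2 : Rgm K2 Cr θ Q Q' X := c6_rgm hR hK0 ((le_max_left _ _).trans (le_max_right _ _))
  have hR3 : Rgm K3 Cr θ Q Q' X := c6_rgm hR hK0 ((le_max_right _ _).trans (le_max_right _ _))
  have hQ' : 1 ≤ Q' := by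
    have h7 : (1 : ℝ) ≤ (X : ℝ) ^ θ := Real.one_le_rpow hXr hθ.le
    have h8 : (1 : ℝ) ≤ (Q' : ℝ) := h7.trans hR.low
    exact_mod_cast h8
  specialize h1 Q Q' X hX1 hR1
  specialize h2 Q Q' X hX2 hR2
  specialize h3 Q Q' X hX3 hR3.reg hQ' hR3.le
  specialize h4 X hX4
  specialize h5 X hX5
  specialize h6 X hX6
  obtain ⟨b, hb⟩ : ∃ b : ℝ, b = (X : ℝ) ^ ε := ⟨_, rfl⟩
  have hb1 : 1 ≤ b := by rw [hb]; exact Real.one_le_rpow hXr hε0.le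
  have hb0 : 0 < b := by linarith
  -- the size of the error
  have hEb : ∀ m : ℤ, (X : ℤ) ≤ m → m ≤ 4 * X → ‖Er Q Q' X m‖ ≤ b := by
    intro m hm1 hm2
    have e1 : Er Q Q' X m = ((Pool.Agent.Lib.H68T.lp m - Pool.Agent.Lib.H68T.Lk Q' (X / Q ^ 2) m : ℝ) : ℂ) := by
      unfold Pool.Agent.H9U.Er Pool.Agent.H9S.lc Pool.Agent.H9S.Lc
      push_cast
      ring
    rw [e1, Complex.norm_real, Real.norm_eq_abs]
    have e2 := abs_sub (Pool.Agent.Lib.H68T.lp m) (Pool.Agent.Lib.H68T.Lk Q' (X / Q ^ 2) m)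
    have e3 := h3 m hm1 hm2
    have e4 := h4 m hm2
    have e5 : b = (X : ℝ) ^ (ε / 2) * (X : ℝ) ^ (ε / 2) := by
      rw [hb, ← Real.rpow_add hXp]
      congr 1
      ring
    have e6 : 0 ≤ (X : ℝ) ^ (ε / 2) := Real.rpow_nonneg hXp.le _
    rw [e5]
    nlinarith
  obtain ⟨F, hF⟩ : ∃ F : ℤ → ℂ, F = cutJ X (Er Q Q' X) := ⟨_, rfl⟩
  rw [← hF] at h2 ⊢
  obtain ⟨f, hf⟩ : ∃ f : ℤ → ℂ, f = fun x => ((b⁻¹ : ℝ) : ℂ) * F x := ⟨_, rfl⟩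
  have hFf : F = fun x => ((b : ℝ) : ℂ) * f x := by
    funext x
    rw [hf]
    have hbc : (b : ℂ) ≠ 0 := by exact_mod_cast hb0.ne'
    push_cast
    field_simp
  have hfB : Bdd (4 * X) f := by
    constructor
    · intro y
      rw [hf]
      simp only
      rw [norm_mul, Complex.norm_real, Real.norm_of_nonneg (inv_nonneg.2 hb0.le), hF]
      unfold Pool.Agent.H9U.cutJ
      split_ifs with hy
      · have h7 := c6_JJ hy
        have h8 := hEb y h7.1 h7.2.1.le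
        rw [inv_mul_le_iff₀ hb0]
        linarith
      · rw [norm_zero, mul_zero]
        exact zero_le_one
    · intro y hy
      rw [hf, hF]
      simp only
      unfold Pool.Agent.H9U.cutJ
      rw [if_neg, mul_zero]
      intro hy2
      exact hy (c6_JJ hy2).2.2
  have hG1 : GG (4 * X) (s + 1) F = b ^ (2 ^ (s + 1)) * GG (4 * X) (s + 1) f := by
    rw [hFf]
    exact C1_smul _ _ _ _
  have hG2 : GG (4 * X) s f = (b⁻¹) ^ (2 ^ s) * GG (4 * X) s F := by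
    rw [hf]
    exact C1_smul _ _ _ _
  have hFs : ∀ y, y ∉ Ico (-((4 * X : ℕ) : ℤ)) ((4 * X : ℕ) : ℤ) → F y = 0 := by
    intro y hy
    rw [hFf]
    simp only
    rw [hfB.sup y hy, mul_zero]
  have hG2' : GG (4 * X) s f ≤ (X : ℝ) ^ (((s + 1 : ℕ) : ℝ) - κ1) := by
    rw [hG2]
    have h7 : 0 ≤ GG (4 * X) s F := GG_nonneg _ _ (by omega) _ hFs
    have h8 : (b⁻¹) ^ (2 ^ s) ≤ 1 := pow_le_one₀ (inv_nonneg.2 hb0.le) (inv_le_one_of_one_le₀ hb1)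
    have h9 : (X : ℝ) ^ ((s : ℝ) + 1 - κ1) = (X : ℝ) ^ (((s + 1 : ℕ) : ℝ) - κ1) := by
      congr 1
      push_cast
      ring
    rw [← h9]
    calc (b⁻¹) ^ (2 ^ s) * GG (4 * X) s F ≤ 1 * GG (4 * X) s F := mul_le_mul_of_nonneg_right h8 h7
      _ ≤ _ := by rw [one_mul]; exact h2
  -- the slices
  have hY : 4 * X ≤ B * X := Nat.mul_le_mul_right X (by omega)
  have hsl := C5_slice (4 * X) (B * X) s (by omega) hY f hfB.sup
  have hone : ∀ e ∈ bxS s (4 * (4 * X)), ‖∑ m ∈ Ico (-((4 * X : ℕ) : ℤ)) ((4 * X : ℕ) : ℤ),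
      cj (s + 1) (f m) * Psi (B * X) (s + 1) (sl f e) m‖ ≤ (X : ℝ) ^ (2 - κ2) := by
    intro e he
    have h7 : ∀ j, j < s + 1 → Bdd (B * X) (sl f e j) := by
      intro j hj
      have h8 := C5_bdd (4 * X) s j (by omega) f hfB e he
      have h9 : (8 * s + 1) * (4 * X) = B * X := by rw [hB]; ring
      rw [h9] at h8
      exact h8
    have h8 : GG (B * X) (s + 1 - 1) (sl f e 0) ≤ (X : ℝ) ^ (((s + 1 : ℕ) : ℝ) - κ1) := by
      rw [hss]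
      have h9 : sl f e 0 = fun x => f (x + (-∑ i, e i)) := by
        funext x
        rw [C5_zero, sub_eq_add_neg]
      have h10 := (h7 0 (by omega)).sup
      rw [h9] at h10 ⊢
      rw [GG_shift (4 * X) (B * X) s (-∑ i, e i) f hfB.sup h10]
      exact hG2'
    have h9 := h1 (sl f e) h7 h8
    rw [hf, hF]
    rw [hf, hF] at h9
    simp only
    rw [c6_inner X s (Er Q Q' X) (c6_Er Q Q' X) b⁻¹, norm_mul, Complex.norm_real,
      Real.norm_of_nonneg (inv_nonneg.2 hb0.le)]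
    calc b⁻¹ * ‖_‖ ≤ 1 * ‖_‖ := mul_le_mul_of_nonneg_right (inv_le_one_of_one_le₀ hb1) (norm_nonneg _)
      _ ≤ _ := by rw [one_mul]; exact h9
  have htot : GG (4 * X) (s + 1) f ≤ (32 * X) ^ s * (X : ℝ) ^ (2 - κ2) := by
    have h7 := GG_real (4 * X) (s + 1) (by omega) f hfB.sup
    rw [hsl] at h7
    have h8 : GG (4 * X) (s + 1) f ≤ ‖((GG (4 * X) (s + 1) f : ℝ) : ℂ)‖ := by
      rw [Complex.norm_real]
      exact le_abs_self _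
    rw [← h7] at h8
    refine h8.trans ((norm_sum_le_of_le _ hone).trans ?_)
    rw [sum_const, nsmul_eq_mul]
    refine mul_le_mul_of_nonneg_right ?_ (Real.rpow_nonneg hXp.le _)
    have h9 := bxS_card s (4 * (4 * X))
    refine h9.trans (le_of_eq ?_)
    push_cast
    congr 1
    ring
  rw [hG1]
  have hb2 : b ^ (2 ^ (s + 1)) = (X : ℝ) ^ (κ2 / 8) := by
    rw [hb, ← Real.rpow_natCast, ← Real.rpow_mul hXp.le]
    congr 1
    rw [hε]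
    push_cast
    field_simp
  calc b ^ (2 ^ (s + 1)) * GG (4 * X) (s + 1) f ≤ (X : ℝ) ^ (κ2 / 8) * ((32 * X) ^ s * (X : ℝ) ^ (2 - κ2)) := by
        rw [hb2]
        exact mul_le_mul_of_nonneg_left htot (Real.rpow_nonneg hXp.le _)
    _ = (32 ^ s) * ((X : ℝ) ^ (κ2 / 8) * (X : ℝ) ^ (s : ℝ) * (X : ℝ) ^ (2 - κ2)) := by
        rw [mul_pow, Real.rpow_natCast]
        ring
    _ ≤ (X : ℝ) ^ (3 * κ2 / 8) * ((X : ℝ) ^ (κ2 / 8) * (X : ℝ) ^ (s : ℝ) * (X : ℝ) ^ (2 - κ2)) := by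
        refine mul_le_mul_of_nonneg_right h6 ?_
        positivity
    _ = (X : ℝ) ^ (((s + 1 : ℕ) : ℝ) + 1 - κ2 / 2) := by
        rw [← Real.rpow_add hXp, ← Real.rpow_add hXp, ← Real.rpow_add hXp]
        congr 1
        push_cast
        ring

end Pool.Agent.HUK
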