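import Pool.Agent.Lib.HUK.C6
import Pool.Agent.Lib.HUK.C7

/-!
# HUK, module C: all Gowers norms of the error are small
-/

namespace Pool.Agent.HUK

/-- Induction on `k`. -/
theorem C8_all (hI : Pool.Agent.H9S.INV) (hT : ∀ k, 3 ≤ k → TLP k) (hL : ∀ k, 3 ≤ k → LKP k) (k : ℕ) (hk : 2 ≤ k) :
    PK k := by
  induction k, hk using Nat.le_induction with
  | base => exact C7_two (C7_three hI)
  | succ k hk ih =>
    by_cases h : k = 2
    · subst h
      exact C7_three hI
    · exact C6_close (k + 1) (by omega) (hT _ (by omega)) (hL _ (by omega)) (by simpa using ih)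

end Pool.Agent.HUK
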