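import Pool.Agent.Lib.HUK.D0

/-!
# Project HUK, chunk D11 (M): differences of cut-off functions on `ℤ × ℤ^d`
-/

open Finset

namespace Pool.Agent.HUK

/-- Composition with an affine map. Proof: induction on `l` (generalise `F`): `DD h (F ∘ φ) = (DD (lam h) F) ∘ φ`. -/
theorem D11_comp {G R : Type*} [Add G] [Add R] (φ : G → R) (lam : G → R) (h : ∀ z v, φ (z + v) = φ z + lam v) (F : R → ℂ) (l : List G)
    (z : G) : DL l (fun z => F (φ z)) z = DL (l.map lam) F (φ z) := by
  induction l generalizing F z with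
  | nil => rfl
  | cons a l ih =>
    have h1 : DD a (fun z => F (φ z)) = fun z => (DD (lam a) F) (φ z) := by
      funext y
      unfold DD
      dsimp only
      rw [h]
    show DL l (DD a (fun z => F (φ z))) z = DL (l.map lam) (DD (lam a) F) (φ z)
    rw [h1]
    exact ih (DD (lam a) F) z

/-- Membership in a box (`lo, hi` bounds for the first coordinate, `lo', hi'` for the others). -/
def InB {d : ℕ} (lo hi : ℤ) (lo' hi' : Fin d → ℤ) (z : ℤ × (Fin d → ℤ)) : Prop :=
  (lo ≤ z.1 ∧ z.1 < hi) ∧ ∀ j, lo' j ≤ z.2 j ∧ z.2 j < hi' j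

/-- The intersection of a box with its translate. -/
theorem d11_iff {d : ℕ} (a : ℤ × (Fin d → ℤ)) (lo hi : ℤ) (lo' hi' : Fin d → ℤ) (z : ℤ × (Fin d → ℤ)) :
    InB (max lo (lo - a.1)) (min hi (hi - a.1)) (fun j => max (lo' j) (lo' j - a.2 j)) (fun j => min (hi' j) (hi' j - a.2 j)) z ↔
      InB lo hi lo' hi' z ∧ InB lo hi lo' hi' (z + a) := by
  unfold InB
  simp only [Prod.fst_add, Prod.snd_add, Pi.add_apply, max_le_iff, lt_min_iff]
  constructor
  · rintro ⟨⟨⟨h1, h2⟩, h3, h4⟩, h5⟩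
    refine ⟨⟨⟨h1, h3⟩, fun j => ⟨(h5 j).1.1, (h5 j).2.1⟩⟩, ⟨by omega, by omega⟩, fun j => ?_⟩
    obtain ⟨⟨h6, h7⟩, h8, h9⟩ := h5 j
    exact ⟨by omega, by omega⟩
  · rintro ⟨⟨⟨h1, h2⟩, h3⟩, ⟨h4, h5⟩, h6⟩
    refine ⟨⟨⟨h1, by omega⟩, h2, by omega⟩, fun j => ?_⟩
    obtain ⟨h7, h8⟩ := h3 j
    obtain ⟨h9, h10⟩ := h6 j
    exact ⟨⟨h7, by omega⟩, h8, by omega⟩

open Classical in
/-- Differences of a function cut off to a box. Proof: induction on `l`, generalising the box and `f`: `DD h` of the function is `DD h f` cut off to the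
intersection of the box with the box translated by `-h` (bounds `max lo (lo - h.1)`, `min hi (hi - h.1)`, …; off the intersection one of the two factors
vanishes). -/
theorem D11_box {d : ℕ} (l : List (ℤ × (Fin d → ℤ))) (lo hi : ℤ) (lo' hi' : Fin d → ℤ) (f : ℤ × (Fin d → ℤ) → ℂ) :
    ∃ (p q : ℤ) (p' q' : Fin d → ℤ), lo ≤ p ∧ q ≤ hi ∧ (∀ j, lo' j ≤ p' j ∧ q' j ≤ hi' j) ∧
      ∀ z, DL l (fun z => if InB lo hi lo' hi' z then f z else 0) z = if InB p q p' q' z then DL l f z else 0 := by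
  induction l generalizing lo hi lo' hi' f with
  | nil => exact ⟨lo, hi, lo', hi', le_refl _, le_refl _, fun j => ⟨le_refl _, le_refl _⟩, fun z => rfl⟩
  | cons a l ih =>
    have h1 : DD a (fun z => if InB lo hi lo' hi' z then f z else 0) =
        fun z => if InB (max lo (lo - a.1)) (min hi (hi - a.1)) (fun j => max (lo' j) (lo' j - a.2 j))
          (fun j => min (hi' j) (hi' j - a.2 j)) z then DD a f z else 0 := by
      funext z
      unfold DD
      dsimp only
      by_cases h2 : InB lo hi lo' hi' z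
      · by_cases h3 : InB lo hi lo' hi' (z + a)
        · rw [if_pos h2, if_pos h3, if_pos ((d11_iff a lo hi lo' hi' z).2 ⟨h2, h3⟩)]
        · rw [if_neg h3, if_neg (fun h4 => h3 ((d11_iff a lo hi lo' hi' z).1 h4).2), map_zero, mul_zero]
      · rw [if_neg h2, if_neg (fun h4 => h2 ((d11_iff a lo hi lo' hi' z).1 h4).1), zero_mul]
    obtain ⟨p, q, p', q', h2, h3, h4, h5⟩ := ih (max lo (lo - a.1)) (min hi (hi - a.1)) (fun j => max (lo' j) (lo' j - a.2 j))
      (fun j => min (hi' j) (hi' j - a.2 j)) (DD a f)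
    refine ⟨p, q, p', q', (le_max_left _ _).trans h2, h3.trans (min_le_left _ _), fun j => ⟨(le_max_left _ _).trans (h4 j).1,
      (h4 j).2.trans (min_le_left _ _)⟩, fun z => ?_⟩
    show DL l (DD a (fun z => if InB lo hi lo' hi' z then f z else 0)) z = if InB p q p' q' z then DL l (DD a f) z else 0
    rw [h1]
    exact h5 z

end Pool.Agent.HUK
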