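import Pool.Agent.Lib.HUK.D0

/-!
# Project HUK, chunk D13 (M): mean square over the differences `Λ j` of the Fourier coefficient
-/

open Finset

namespace Pool.Agent.HUK

open Pool.Agent.H44W (ee)

/-- Re-indexing of multiples. Proof: exactly the equations `e1`, `e2` in the proof of `D0_V2` (`D0.lean`), with `Φ` instead of
`fun h => FF X h f`. -/
theorem D13_mul (X s M : ℕ) (hM : 0 < M) (d : ℤ) (hd : d ≠ 0) (Φ : (Fin s → ℤ) → ℂ) (hΦ : ∀ h i, (2 * X : ℤ) ≤ |h i| → Φ h = 0) :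
    ∑ t ∈ bxS s M, ((FW M t : ℝ) : ℂ) * Φ (fun i => d * t i) =
      ∑ h ∈ bxS s (2 * X), (∏ i, (if d ∣ h i then ((fw M (h i / d) : ℝ) : ℂ) else 0)) * Φ h := by
  classical
  -- both sums are sums over the `t` in a large box
  obtain ⟨N, hN⟩ : ∃ N : ℕ, N = M + 2 * X + 1 := ⟨_, rfl⟩
  have hfw : ∀ t : Fin s → ℤ, (∃ i, (M : ℤ) ≤ |t i|) → FW M t = 0 := by
    rintro t ⟨i, hi⟩
    exact prod_eq_zero (mem_univ i) (D0_fw0 hM hi)
  have e1 : ∑ t ∈ bxS s M, ((FW M t : ℝ) : ℂ) * Φ (fun i => d * t i) =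
      ∑ t ∈ bxS s N, ((FW M t : ℝ) : ℂ) * Φ (fun i => d * t i) := by
    refine Finset.sum_subset (fun t ht => ?_) fun t _ ht => ?_
    · unfold bxS at ht ⊢
      rw [Fintype.mem_piFinset] at ht ⊢
      intro i
      have := mem_Ioo.1 (ht i)
      rw [mem_Ioo]
      omega
    · unfold bxS at ht
      rw [Fintype.mem_piFinset] at ht
      push Not at ht
      obtain ⟨i, hi⟩ := ht
      rw [hfw t ⟨i, ?_⟩]
      · simp
      · rw [mem_Ioo] at hi
        rw [le_abs]
        omega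
  have e2 : ∑ h ∈ bxS s (2 * X), (∏ i, (if d ∣ h i then ((fw M (h i / d) : ℝ) : ℂ) else 0)) * Φ h =
      ∑ t ∈ (bxS s N).filter (fun t => ∀ i, |d * t i| < 2 * X), ((FW M t : ℝ) : ℂ) * Φ (fun i => d * t i) := by
    symm
    have e3 : ∑ h ∈ bxS s (2 * X), (∏ i, (if d ∣ h i then ((fw M (h i / d) : ℝ) : ℂ) else 0)) * Φ h =
        ∑ h ∈ (bxS s (2 * X)).filter (fun h => ∀ i, d ∣ h i),
          (∏ i, (if d ∣ h i then ((fw M (h i / d) : ℝ) : ℂ) else 0)) * Φ h := by
      rw [Finset.sum_filter]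
      refine sum_congr rfl fun h _ => ?_
      split_ifs with h2
      · rfl
      · push Not at h2
        obtain ⟨i, hi⟩ := h2
        rw [prod_eq_zero (mem_univ i) (if_neg hi), zero_mul]
    rw [e3]
    refine Finset.sum_bij' (fun t _ => fun i => d * t i) (fun h _ => fun i => h i / d) ?_ ?_ ?_ ?_ ?_
    · intro t ht
      rw [mem_filter] at ht ⊢
      refine ⟨?_, fun i => dvd_mul_right _ _⟩
      unfold bxS
      rw [Fintype.mem_piFinset]
      intro i
      have := abs_lt.1 (ht.2 i)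
      rw [mem_Ioo]
      push_cast
      exact this
    · intro h hh
      rw [mem_filter] at hh ⊢
      have hh1 := hh.1
      unfold bxS at hh1
      rw [Fintype.mem_piFinset] at hh1
      have h3 : ∀ i, d * (h i / d) = h i := fun i => Int.mul_ediv_cancel' (hh.2 i)
      refine ⟨?_, fun i => ?_⟩
      · unfold bxS
        rw [Fintype.mem_piFinset]
        intro i
        have h4 := mem_Ioo.1 (hh1 i)
        push_cast at h4
        have h5 : |h i / d| ≤ |h i| := by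
          rw [← h3 i, abs_mul, h3 i]
          have h6 : 1 ≤ |d| := Int.one_le_abs hd
          nlinarith [abs_nonneg (h i / d)]
        have h6 : |h i| < 2 * X := abs_lt.2 h4
        have h7 := abs_lt.1 (lt_of_le_of_lt h5 h6)
        rw [mem_Ioo, hN]
        push_cast
        constructor <;> linarith [h7.1, h7.2, (by positivity : (0 : ℤ) ≤ (M : ℤ))]
      · rw [h3 i]
        have h4 := mem_Ioo.1 (hh1 i)
        push_cast at h4
        exact abs_lt.2 h4
    · intro t _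
      funext i
      exact Int.mul_ediv_cancel_left _ hd
    · intro h hh
      rw [mem_filter] at hh
      funext i
      exact Int.mul_ediv_cancel' (hh.2 i)
    · intro t _
      congr 1
      unfold FW
      push_cast
      refine prod_congr rfl fun i _ => ?_
      rw [if_pos (dvd_mul_right _ _), Int.mul_ediv_cancel_left _ hd]
  rw [e1, e2, Finset.sum_filter]
  refine sum_congr rfl fun t _ => ?_
  split_ifs with h2
  · rfl
  · push Not at h2
    obtain ⟨i, hi⟩ := h2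
    rw [hΦ _ i hi, mul_zero]

/-- Proof. For `j ∈ bxS s H` all factors of `FW (2H) j` are at least `1/2`, and `FW (2H) ≥ 0`, so the sum is at most
`2^s ∑_{j ∈ bxS s (2H)} FW (2H) j Φ(Λ j)`, `Φ(h) = ‖∑_y DV h f y ee(θ y)‖²`. By `d0_sq` (with `-θ`, `g = DV h f`, `D0_SDV`) and `D0_cons'`
`Φ(h) = ∑_{a ∈ Ioo (-2X) (2X)} ee(-θ a) FF X (Fin.cons a h) f` (`Φ h = 0` if some `|h i| ≥ 2X`: `D0_large` for `Fin.cons a h`). `D13_mul`, then
`∑_h ∑_a = ∑_{bxS (s+1) (2X)}` (`D0_bx`, `Finset.sum_comm`), and the weight is `∏_i W i (h i)` with `W = Fin.cons (fun a => ee (-θ * a)) (fun _ => Fejer)`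
(`Fin.prod_univ_succ`); `D0_W` with `s + 1 ≥ 2` (`D0_Wee`, `D0_fej` with `M = 2H`, `d = Λ`). A real number is at most its norm as a complex number. -/
theorem D13_sq (X s H : ℕ) (hs : 1 ≤ s) (hH : 0 < H) (Λ : ℤ) (hΛ : Λ ≠ 0) (f : ℤ → ℂ) (hf : Spt X f) (θ : ℝ) :
    ∑ j ∈ bxS s H, ‖∑ y ∈ Ico (-(X : ℤ)) X, DV (fun i => Λ * j i) f y * ee (θ * y)‖ ^ 2 ≤ 2 ^ s * GG X (s + 1) f := by
  classical
  set Φ : (Fin s → ℤ) → ℝ := fun h => ‖∑ y ∈ Ico (-(X : ℤ)) X, DV h f y * ee (θ * y)‖ ^ 2 with hΦd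
  have hΦ0 : ∀ h, 0 ≤ Φ h := fun h => by
    rw [hΦd]
    positivity
  have hform : ∀ h, ((Φ h : ℝ) : ℂ) = ∑ a ∈ Ioo (-(2 * X : ℤ)) (2 * X), ee (-θ * a) * FF X (Fin.cons a h) f := by
    intro h
    have h1 := d0_sq X (DV h f) (D0_SDV hf h) (-θ)
    have h2 : (fun y : ℤ => DV h f y * ee (-(-θ * y))) = fun y : ℤ => DV h f y * ee (θ * y) := by
      funext y
      congr 2
      ring
    simp only [hΦd]
    rw [show (∑ y ∈ Ico (-(X : ℤ)) X, DV h f y * ee (θ * y)) = ∑ y ∈ Ico (-(X : ℤ)) X, DV h f y * ee (-(-θ * y)) from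
      Finset.sum_congr rfl fun y _ => (congrFun h2 y).symm]
    rw [← h1]
    refine Finset.sum_congr rfl fun a _ => ?_
    unfold FF
    rw [D0_cons']
  have hΦ : ∀ h : Fin s → ℤ, ∀ i, (2 * X : ℤ) ≤ |h i| → ((Φ h : ℝ) : ℂ) = 0 := by
    intro h i hi
    rw [hform]
    refine Finset.sum_eq_zero fun a _ => ?_
    rw [D0_large hf (Fin.cons a h) i.succ (by rw [Fin.cons_succ]; exact hi), mul_zero]
  have h2H : 0 < 2 * H := by omega
  have hHr : (0 : ℝ) < H := by exact_mod_cast hH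
  have hFW0 : ∀ t : Fin s → ℤ, 0 ≤ FW (2 * H) t := by
    intro t
    unfold FW
    refine Finset.prod_nonneg fun i _ => ?_
    unfold fw
    exact le_max_left _ _
  have step1 : ∑ j ∈ bxS s H, Φ (fun i => Λ * j i) ≤ 2 ^ s * ∑ j ∈ bxS s (2 * H), FW (2 * H) j * Φ (fun i => Λ * j i) := by
    rw [Finset.mul_sum]
    have hsub : bxS s H ⊆ bxS s (2 * H) := by
      intro t ht
      unfold bxS at ht ⊢
      rw [Fintype.mem_piFinset] at ht ⊢
      intro i
      have := Finset.mem_Ioo.1 (ht i)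
      rw [Finset.mem_Ioo]
      push_cast
      omega
    refine le_trans ?_ (Finset.sum_le_sum_of_subset_of_nonneg hsub
      (fun j _ _ => mul_nonneg (by positivity) (mul_nonneg (hFW0 j) (hΦ0 _))))
    refine Finset.sum_le_sum fun j hj => ?_
    have h3 : (1 / 2 : ℝ) ^ s ≤ FW (2 * H) j := by
      unfold FW
      have h4 : ∏ _i : Fin s, (1 / 2 : ℝ) = (1 / 2 : ℝ) ^ s := by
        rw [Finset.prod_const, Finset.card_univ, Fintype.card_fin]
      rw [← h4]
      refine Finset.prod_le_prod (fun _ _ => by norm_num) fun i _ => ?_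
      unfold fw
      refine le_trans ?_ (le_max_right _ _)
      unfold bxS at hj
      have h5 := Finset.mem_Ioo.1 (Fintype.mem_piFinset.1 hj i)
      have h6 : |(j i : ℝ)| ≤ H := by
        rw [abs_le]
        constructor
        · have : (-(H : ℤ) : ℝ) ≤ (j i : ℝ) := by exact_mod_cast h5.1.le
          push_cast at this
          exact this
        · exact_mod_cast h5.2.le
      have h7 : |(j i : ℝ)| / ((2 * H : ℕ) : ℝ) ≤ 1 / 2 := by
        push_cast
        rw [div_le_iff₀ (by positivity)]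
        linarith
      linarith
    have h8 : (1 : ℝ) ≤ 2 ^ s * FW (2 * H) j := by
      calc (1 : ℝ) = 2 ^ s * (1 / 2) ^ s := by
            rw [← mul_pow]
            norm_num
        _ ≤ 2 ^ s * FW (2 * H) j := mul_le_mul_of_nonneg_left h3 (by positivity)
    calc Φ (fun i => Λ * j i) = 1 * Φ (fun i => Λ * j i) := (one_mul _).symm
      _ ≤ (2 ^ s * FW (2 * H) j) * Φ (fun i => Λ * j i) := mul_le_mul_of_nonneg_right h8 (hΦ0 _)
      _ = 2 ^ s * (FW (2 * H) j * Φ (fun i => Λ * j i)) := by ring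
  refine step1.trans ?_
  apply mul_le_mul_of_nonneg_left _ (by positivity)
  have hmul := D13_mul X s (2 * H) h2H Λ hΛ (fun h => ((Φ h : ℝ) : ℂ)) hΦ
  have hcast : ((∑ j ∈ bxS s (2 * H), FW (2 * H) j * Φ (fun i => Λ * j i) : ℝ) : ℂ) =
      ∑ t ∈ bxS s (2 * H), ((FW (2 * H) t : ℝ) : ℂ) * ((Φ (fun i => Λ * t i) : ℝ) : ℂ) := by
    push_cast
    rfl
  set W : Fin (s + 1) → ℤ → ℂ := Fin.cons (fun a => ee (-θ * a))
    (fun _ a => if Λ ∣ a then ((fw (2 * H) (a / Λ) : ℝ) : ℂ) else 0) with hWd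
  have hW : ∀ i, PhW X (W i) := by
    intro i
    refine Fin.cases ?_ (fun j => ?_) i
    · rw [hWd, Fin.cons_zero]
      exact D0_Wee X (-θ)
    · rw [hWd, Fin.cons_succ]
      exact D0_fej X (2 * H) h2H Λ hΛ
  have hmain := D0_W (s := s + 1) hf (by omega) W hW
  have hsum : ∑ h ∈ bxS (s + 1) (2 * X), (∏ i, W i (h i)) * FF X h f =
      ∑ h ∈ bxS s (2 * X), (∏ i, (if Λ ∣ h i then ((fw (2 * H) (h i / Λ) : ℝ) : ℂ) else 0)) * ((Φ h : ℝ) : ℂ) := by
    rw [D0_bx, Finset.sum_comm]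
    refine Finset.sum_congr rfl fun h _ => ?_
    rw [hform, Finset.mul_sum]
    push_cast
    refine Finset.sum_congr rfl fun a _ => ?_
    rw [Fin.prod_univ_succ]
    simp only [hWd, Fin.cons_zero, Fin.cons_succ]
    ring
  rw [hsum, ← hmul, ← hcast, Complex.norm_real] at hmain
  exact (le_abs_self _).trans hmain

/-- Proof. Cauchy-Schwarz (`Finset.sum_mul_sq_le_sq_mul_sq` or `inner_mul_le_norm_mul_norm`), the number of `j` is at most `(2H)^s`. -/
theorem D13_abs (X s H : ℕ) (hs : 1 ≤ s) (hH : 0 < H) (Λ : ℤ) (hΛ : Λ ≠ 0) (f : ℤ → ℂ) (hf : Spt X f) (θ : ℝ) :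
    (∑ j ∈ bxS s H, ‖∑ y ∈ Ico (-(X : ℤ)) X, DV (fun i => Λ * j i) f y * ee (θ * y)‖) ^ 2 ≤
      (2 * H) ^ s * (2 ^ s * GG X (s + 1) f) := by
  have h1 := sq_sum_le_card_mul_sum_sq (s := bxS s H)
    (f := fun j : Fin s → ℤ => ‖∑ y ∈ Ico (-(X : ℤ)) X, DV (fun i => Λ * j i) f y * ee (θ * y)‖)
  have h2 := D13_sq X s H hs hH Λ hΛ f hf θ
  have h3 : (((bxS s H).card : ℕ) : ℝ) ≤ (2 * H) ^ s := by
    unfold bxS
    rw [Fintype.card_piFinset]
    push_cast
    rw [show ((2 : ℝ) * H) ^ s = ∏ _i : Fin s, ((2 : ℝ) * H) by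
      rw [Finset.prod_const, Finset.card_univ, Fintype.card_fin]]
    refine Finset.prod_le_prod (fun _ _ => by positivity) fun i _ => ?_
    rw [Int.card_Ioo]
    have h4 : ((H : ℤ) - -(H : ℤ) - 1).toNat ≤ 2 * H := by omega
    calc ((((H : ℤ) - -(H : ℤ) - 1).toNat : ℕ) : ℝ) ≤ ((2 * H : ℕ) : ℝ) := by exact_mod_cast h4
      _ = 2 * H := by push_cast; ring
  refine h1.trans ?_
  refine mul_le_mul h3 h2 (Finset.sum_nonneg fun _ _ => by positivity) (by positivity)

end Pool.Agent.HUK
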