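import Pool.Agent.Lib.HUK.D11
import Pool.Agent.Lib.HUK.D12
import Pool.Agent.Lib.HUK.D13
import Pool.Agent.Lib.HUK.D14
import Pool.Agent.Lib.HUK.E1
import Pool.Agent.Lib.H9U.U6

/-!
# Project HUK, chunk D15 (M/L): the generalised von Neumann inequality
-/

open Finset

namespace Pool.Agent.HUK

open Pool.Agent.H44W (ee)
open Pool.Agent.H9S (Bd)
open Pool.Agent.H9U (Sys JJ cutJ iv)
open Pool.Agent.Lib.H59P (bx)

theorem d15_smul {k d : ℕ} (S : Sys k d) (i0 : Fin k) (x : ℤ) (v : ℤ × (Fin d → ℤ)) :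
    S.lin i0 (x • v).1 (x • v).2 = x * S.lin i0 v.1 v.2 := by
  unfold Pool.Agent.H9U.Sys.lin
  rw [mul_add, Finset.mul_sum]
  simp only [Prod.smul_fst, Prod.smul_snd, Pi.smul_apply, smul_eq_mul]
  congr 1
  · ring
  · refine Finset.sum_congr rfl fun r _ => ?_
    ring

theorem d15_val {k d : ℕ} (S : Sys k d) (b : Fin k → ℤ) (i : Fin k) (z v : ℤ × (Fin d → ℤ)) :
    S.val b (z + v).1 (z + v).2 i = S.val b z.1 z.2 i + S.lin i v.1 v.2 := by
  unfold Pool.Agent.H9U.Sys.val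
  unfold Pool.Agent.H9U.Sys.lin
  simp only [Prod.fst_add, Prod.snd_add, Pi.add_apply, mul_add, Finset.sum_add_distrib]
  ring

/-- The bound for given differences. `D = bxS k H`. Proof. `f z = F0 (S.val b z.1 z.2 i0)` cut off to the box is `c`. By `D11_box` and `D11_comp`
(`φ z = S.val b z.1 z.2 i0`, `lam v = S.lin i0 v.1 v.2`; `val` at `z + v` is `val` at `z` plus `lin` at `v`) `DL (ofFn (j • v)) c z` is
`DL (ofFn (Λ j)) F0 (val z)` cut off to a box with bounds `p, q, p', q'` inside `[0, L) × [0, T)^d` (`lam (j i • v i) = j i * Λ`; `List.map_ofFn`). So the sum over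
`z` of the product set is `∑_{t ∈ piFinset (Ico (p' j) (q' j))} ∑_{n ∈ Ico p q} DV (Λ j) F0 (a n + c_t)` (sum over a product: `Finset.sum_product_right`; drop
the indicators), and `D12_prog` bounds each of the at most `T^d` inner sums. -/
theorem D15_one {k d : ℕ} (S : Sys k d) (i0 : Fin k) (Λ : ℤ) (v : Fin k → ℤ × (Fin d → ℤ))
    (hv : ∀ j, S.lin i0 (v j).1 (v j).2 = Λ) (b : Fin k → ℤ) (L T Y : ℕ) (F0 : ℤ → ℂ) (hF : Spt Y F0)
    (n : ℕ) (w θ : ℕ → ℝ) (hw : ∀ g : ℤ → ℂ, Spt Y g → ∀ c p q : ℤ, ‖∑ x ∈ Ico p q, g (S.a i0 * x + c)‖ ≤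
      ∑ l ∈ range n, w l * ‖∑ y ∈ Ico (-(Y : ℤ)) Y, g y * ee (θ l * y)‖) (hw0 : ∀ l, 0 ≤ w l) (j : Fin k → ℤ) :
    ‖∑ z ∈ (Ico (0 : ℤ) L) ×ˢ (Fintype.piFinset fun _ : Fin d => Ico (0 : ℤ) T), DL (List.ofFn fun i => j i • v i)
      (fun z => if z ∈ (Ico (0 : ℤ) L) ×ˢ (Fintype.piFinset fun _ : Fin d => Ico (0 : ℤ) T) then F0 (S.val b z.1 z.2 i0) else 0) z‖ ≤
      (T : ℝ) ^ d * ∑ l ∈ range n, w l * ‖∑ y ∈ Ico (-(Y : ℤ)) Y, DV (fun i => Λ * j i) F0 y * ee (θ l * y)‖ := by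
  classical
  set g : ℤ → ℂ := DV (fun i => Λ * j i) F0 with hg
  have hgS : Spt Y g := D0_SDV hF _
  set R : ℝ := ∑ l ∈ range n, w l * ‖∑ y ∈ Ico (-(Y : ℤ)) Y, g y * ee (θ l * y)‖ with hR
  have hR0 : 0 ≤ R := sum_nonneg fun l _ => mul_nonneg (hw0 l) (norm_nonneg _)
  obtain ⟨p, q, p', q', hp, hq, hpq, hDL⟩ := D11_box (List.ofFn fun i => j i • v i) 0 (L : ℤ) (fun _ => 0) (fun _ => (T : ℤ))
    (fun z : ℤ × (Fin d → ℤ) => F0 (S.val b z.1 z.2 i0))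
  have hfun : (fun z : ℤ × (Fin d → ℤ) => if z ∈ (Ico (0 : ℤ) L) ×ˢ (Fintype.piFinset fun _ : Fin d => Ico (0 : ℤ) T)
      then F0 (S.val b z.1 z.2 i0) else 0) =
      fun z => if InB 0 (L : ℤ) (fun _ => 0) (fun _ => (T : ℤ)) z then F0 (S.val b z.1 z.2 i0) else 0 := by
    funext z
    have h1 : z ∈ (Ico (0 : ℤ) L) ×ˢ (Fintype.piFinset fun _ : Fin d => Ico (0 : ℤ) T) ↔
        InB 0 (L : ℤ) (fun _ => 0) (fun _ => (T : ℤ)) z := by
      rw [Finset.mem_product, Fintype.mem_piFinset]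
      unfold InB
      simp only [Finset.mem_Ico]
    by_cases h : InB 0 (L : ℤ) (fun _ => 0) (fun _ => (T : ℤ)) z
    · rw [if_pos h, if_pos (h1.2 h)]
    · rw [if_neg h, if_neg (fun h' => h (h1.1 h'))]
  rw [hfun]
  have hmap : (List.ofFn fun i => j i • v i).map (fun v : ℤ × (Fin d → ℤ) => S.lin i0 v.1 v.2) =
      List.ofFn fun i => Λ * j i := by
    rw [List.map_ofFn]
    congr 1
    funext i
    simp only [Function.comp_apply]
    rw [d15_smul, hv, mul_comm]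
  have hcomp : ∀ z : ℤ × (Fin d → ℤ), DL (List.ofFn fun i => j i • v i)
      (fun z : ℤ × (Fin d → ℤ) => F0 (S.val b z.1 z.2 i0)) z = g (S.val b z.1 z.2 i0) := by
    intro z
    have h1 := D11_comp (fun z : ℤ × (Fin d → ℤ) => S.val b z.1 z.2 i0) (fun v => S.lin i0 v.1 v.2)
      (fun z v => d15_val S b i0 z v) F0 (List.ofFn fun i => j i • v i) z
    rw [hmap] at h1
    exact h1
  have hsum : ∑ z ∈ (Ico (0 : ℤ) L) ×ˢ (Fintype.piFinset fun _ : Fin d => Ico (0 : ℤ) T), DL (List.ofFn fun i => j i • v i)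
      (fun z => if InB 0 (L : ℤ) (fun _ => 0) (fun _ => (T : ℤ)) z then F0 (S.val b z.1 z.2 i0) else 0) z =
      ∑ t ∈ Fintype.piFinset fun _ : Fin d => Ico (0 : ℤ) T, ∑ m ∈ Ico (0 : ℤ) L,
        (if InB p q p' q' ((m, t) : ℤ × (Fin d → ℤ)) then g (S.val b m t i0) else 0) := by
    rw [← Finset.sum_product_right (f := fun z : ℤ × (Fin d → ℤ) => if InB p q p' q' z then g (S.val b z.1 z.2 i0) else 0)]
    refine Finset.sum_congr rfl fun z _ => ?_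
    rw [hDL z, hcomp z]
  rw [hsum]
  have hin : ∀ t ∈ Fintype.piFinset fun _ : Fin d => Ico (0 : ℤ) T, ‖∑ m ∈ Ico (0 : ℤ) L,
        (if InB p q p' q' ((m, t) : ℤ × (Fin d → ℤ)) then g (S.val b m t i0) else 0)‖ ≤ R := by
    intro t _
    by_cases ht : ∀ r, p' r ≤ t r ∧ t r < q' r
    · have h1 : ∑ m ∈ Ico (0 : ℤ) L, (if InB p q p' q' ((m, t) : ℤ × (Fin d → ℤ)) then g (S.val b m t i0) else 0) =
          ∑ m ∈ Ico p q, g (S.a i0 * m + (∑ r, S.c i0 r * t r + b i0)) := by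
        symm
        have h2 : ∀ m ∈ Ico p q, g (S.a i0 * m + (∑ r, S.c i0 r * t r + b i0)) =
            (if InB p q p' q' ((m, t) : ℤ × (Fin d → ℤ)) then g (S.val b m t i0) else 0) := by
          intro m hm
          rw [Finset.mem_Ico] at hm
          have h3 : InB p q p' q' ((m, t) : ℤ × (Fin d → ℤ)) := ⟨hm, ht⟩
          rw [if_pos h3]
          congr 1
          unfold Pool.Agent.H9U.Sys.val Pool.Agent.H9U.Sys.lin
          ring
        rw [Finset.sum_congr rfl h2]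
        refine Finset.sum_subset (fun m hm => ?_) (fun m _ hm => ?_)
        · rw [Finset.mem_Ico] at hm ⊢
          omega
        · rw [if_neg]
          intro h3
          apply hm
          rw [Finset.mem_Ico]
          exact h3.1
      rw [h1]
      exact hw g hgS _ _ _
    · rw [Finset.sum_eq_zero, norm_zero]
      · exact hR0
      · intro m _
        rw [if_neg]
        intro h3
        exact ht h3.2
  refine (norm_sum_le_of_le _ hin).trans ?_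
  rw [Finset.sum_const, nsmul_eq_mul, Fintype.card_piFinset]
  simp only [Int.card_Ico, sub_zero, Int.toNat_natCast, Finset.prod_const, Finset.card_univ, Fintype.card_fin]
  push_cast
  exact le_refl _

theorem d15_large (κ : ℝ) (hκ : 0 < κ) (A : ℝ) : ∃ X0 : ℕ, ∀ X : ℕ, X0 ≤ X → A ≤ (X : ℝ) ^ κ := by
  have h1 : Filter.Tendsto (fun X : ℕ => (X : ℝ) ^ κ) Filter.atTop Filter.atTop :=
    (tendsto_rpow_atTop hκ).comp tendsto_natCast_atTop_atTop
  obtain ⟨X0, hX0⟩ := Filter.eventually_atTop.1 (h1.eventually_ge_atTop A)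
  exact ⟨X0, hX0⟩

/-- logarithms against powers -/
theorem d15_log (κ : ℝ) (hκ : 0 < κ) (A : ℝ) (hA : 0 ≤ A) :
    ∃ X0 : ℕ, 1 ≤ X0 ∧ ∀ X : ℕ, X0 ≤ X → A * (1 + Real.log (8 * X)) ≤ (X : ℝ) ^ κ := by
  obtain ⟨X1, hX1⟩ := d15_large (κ / 2) (by positivity) (A * (1 + 8 ^ (κ / 2) / (κ / 2)))
  refine ⟨X1 + 1, by omega, fun X hX => ?_⟩
  have hX0 : (1 : ℝ) ≤ X := by exact_mod_cast (by omega : 1 ≤ X)
  have hXp : (0 : ℝ) < X := by linarith
  have h1 := Real.log_le_rpow_div (x := 8 * (X : ℝ)) (by positivity) (ε := κ / 2) (by positivity)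
  rw [Real.mul_rpow (by norm_num) hXp.le] at h1
  have h2 : 1 ≤ (X : ℝ) ^ (κ / 2) := Real.one_le_rpow hX0 (by positivity)
  have h3 : 1 + Real.log (8 * X) ≤ (1 + 8 ^ (κ / 2) / (κ / 2)) * (X : ℝ) ^ (κ / 2) := by
    calc 1 + Real.log (8 * X) ≤ 1 + 8 ^ (κ / 2) * (X : ℝ) ^ (κ / 2) / (κ / 2) := by linarith
      _ ≤ (X : ℝ) ^ (κ / 2) + 8 ^ (κ / 2) * (X : ℝ) ^ (κ / 2) / (κ / 2) := by linarith
      _ = _ := by ring
  calc A * (1 + Real.log (8 * X)) ≤ A * ((1 + 8 ^ (κ / 2) / (κ / 2)) * (X : ℝ) ^ (κ / 2)) :=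
        mul_le_mul_of_nonneg_left h3 hA
    _ = (A * (1 + 8 ^ (κ / 2) / (κ / 2))) * (X : ℝ) ^ (κ / 2) := by ring
    _ ≤ (X : ℝ) ^ (κ / 2) * (X : ℝ) ^ (κ / 2) := mul_le_mul_of_nonneg_right (hX1 X (by omega)) (by positivity)
    _ = (X : ℝ) ^ κ := by
        rw [← Real.rpow_add hXp]
        congr 1
        ring

/-- **The generalised von Neumann inequality.** Proof. `D14_vec`, `D12_prog` (`a = S.a i0`, `Y = 4X`), `F0 = cutJ X F` (supported in `[-4X, 4X)`). The sum is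
the sum over `z ∈ B = [0,L) × [0,T)^d` (`u6_box` in `H9U/U6.lean`; `cutJ X F = F` on the values) of `∏_i g i z * c z`, `g j z = G j (val z j)` for `j ≠ i0`,
`g i0 z = W (fun r => (z.2 r).toNat)`, `c z = F0 (val z i0)` cut off to `B` (`g i z + v i`-invariance: `val (z + v_j) j = val z j + lin j v_j = val z j`,
`(z + v_{i0}).2 = z.2`). `E1_elim` with `H = X`, `r = k`, `B' = [-C X, C X]^(d+1)` (`C` = `C0` plus the sum of the absolute values of all coordinates of the `v_j`,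
plus `1`), `N = (3 C X)^(d+1)`. With `D15_one`, `D13_abs` for every `θ l` and `T ≤ C0 X`:
`(‖S‖/N)^(2^k) ≤ 2^(2^k)/X^k · (C0 X)^d · 4 (1 + log (8X)) · ((2X)^k 2^k X^(k+2-κ))^(1/2) / N ≤ C' (1 + log (8X)) X^(-κ/2) ≤ X^(-κ/4)` for `X` large, so
`‖S‖ ≤ N X^(-κ/2^(k+2)) ≤ X^(1 + d - κ/2^(k+3))` for `X` large. (Remember: `‖g i z‖ ≤ 1`; `Bd f` means `‖f m‖ ≤ 1` for all `m`.) -/
theorem D15_vN {k d : ℕ} (S : Sys k d) (hS : SysFin S) (i0 : Fin k) (κ : ℝ) (hκ : 0 < κ) (C0 : ℕ) :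
    ∃ X0 : ℕ, ∀ X : ℕ, X0 ≤ X → ∀ F : ℤ → ℂ, GG (4 * X) (k + 1) (cutJ X F) ≤ (X : ℝ) ^ ((k : ℝ) + 2 - κ) →
    ∀ b : Fin k → ℤ, ∀ L T : ℕ, L ≤ C0 * X → T ≤ C0 * X →
    (∀ n ∈ range L, ∀ t ∈ bx d T, S.val b n (iv t) i0 ∈ JJ X) →
    ∀ (G : Fin k → ℤ → ℂ) (W : (Fin d → ℕ) → ℂ), (∀ i, Bd (G i)) → (∀ t, ‖W t‖ ≤ 1) →
    ‖∑ t ∈ bx d T, W t * ∑ n ∈ range L, (∏ i ∈ univ.erase i0, G i (S.val b n (iv t) i)) * F (S.val b n (iv t) i0)‖ ≤
      (X : ℝ) ^ (1 + d - κ / 2 ^ (k + 3)) := by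
  classical
  obtain ⟨Λ, hΛ, v, hv1, hv2, hv3⟩ := D14_vec S hS i0
  have ha0 : S.a i0 ≠ 0 := hS.1 i0
  have hk1 : 1 ≤ k := by
    have := i0.2
    omega
  -- the size of the box
  obtain ⟨C, hC⟩ : ∃ C : ℕ, C = C0 + ∑ i, ((v i).1.natAbs + ∑ r, ((v i).2 r).natAbs) + 1 := ⟨_, rfl⟩
  have hC1 : 1 ≤ C := by omega
  have hCC0 : C0 ≤ C := by omega
  have hCr1 : (1 : ℝ) ≤ C := by exact_mod_cast hC1
  have hCfst : ∀ i, C0 + (v i).1.natAbs + 1 ≤ C := by
    intro i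
    have h1 : (v i).1.natAbs + ∑ r, ((v i).2 r).natAbs ≤ ∑ i, ((v i).1.natAbs + ∑ r, ((v i).2 r).natAbs) :=
      Finset.single_le_sum (f := fun i => (v i).1.natAbs + ∑ r, ((v i).2 r).natAbs) (fun _ _ => Nat.zero_le _) (Finset.mem_univ i)
    omega
  have hCsnd : ∀ i r, C0 + ((v i).2 r).natAbs + 1 ≤ C := by
    intro i r
    have h1 : (v i).1.natAbs + ∑ r, ((v i).2 r).natAbs ≤ ∑ i, ((v i).1.natAbs + ∑ r, ((v i).2 r).natAbs) :=
      Finset.single_le_sum (f := fun i => (v i).1.natAbs + ∑ r, ((v i).2 r).natAbs) (fun _ _ => Nat.zero_le _) (Finset.mem_univ i)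
    have h2 : ((v i).2 r).natAbs ≤ ∑ r, ((v i).2 r).natAbs :=
      Finset.single_le_sum (f := fun r => ((v i).2 r).natAbs) (fun _ _ => Nat.zero_le _) (Finset.mem_univ r)
    omega
  obtain ⟨X1, hX1, hX1'⟩ := d15_log (κ / 4) (by positivity) (2 ^ (2 ^ k) * 2 ^ k * 4) (by positivity)
  obtain ⟨X2, hX2⟩ := d15_large (κ / 2 ^ (k + 3)) (by positivity) ((3 * (C : ℝ)) ^ (d + 1))
  refine ⟨X1 + X2, fun X hX F hGG b L T hL hT hJ G W hG hW => ?_⟩
  have hX1n : 1 ≤ X := by omega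
  have hXr1 : (1 : ℝ) ≤ X := by exact_mod_cast hX1n
  have hXr : (0 : ℝ) < X := by linarith
  set F0 : ℤ → ℂ := cutJ X F with hF0
  have hSpt : Spt (4 * X) F0 := by
    intro y hy
    rw [hF0]
    unfold Pool.Agent.H9U.cutJ
    rw [if_neg]
    intro h1
    apply hy
    unfold Pool.Agent.H9U.JJ at h1
    rw [Finset.mem_Ico] at h1 ⊢
    push_cast
    constructor
    · omega
    · omega
  obtain ⟨n, w, θ, hw0, hwsum, hw⟩ := D12_prog (S.a i0) ha0 (4 * X) (by omega)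
  -- the box, the functions
  set B : Finset (ℤ × (Fin d → ℤ)) := (Ico (0 : ℤ) L) ×ˢ (Fintype.piFinset fun _ : Fin d => Ico (0 : ℤ) T) with hB
  set B' : Finset (ℤ × (Fin d → ℤ)) := (Icc (-((C : ℤ) * X)) ((C : ℤ) * X)) ×ˢ
    (Fintype.piFinset fun _ : Fin d => Icc (-((C : ℤ) * X)) ((C : ℤ) * X)) with hB'
  set g : Fin k → ℤ × (Fin d → ℤ) → ℂ := fun i z => if i = i0 then W (fun r => (z.2 r).toNat) else G i (S.val b z.1 z.2 i) with hg
  set c : ℤ × (Fin d → ℤ) → ℂ := fun z => if z ∈ B then F0 (S.val b z.1 z.2 i0) else 0 with hc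
  set N : ℝ := (3 * (C : ℝ) * X) ^ (d + 1) with hN
  have hN0 : 0 < N := by positivity
  have hcard : (B'.card : ℝ) ≤ N := by
    rw [hB', Finset.card_product, Fintype.card_piFinset]
    simp only [Int.card_Icc, Finset.prod_const, Finset.card_univ, Fintype.card_fin]
    have h9 : ((C : ℤ) * X + 1 - -((C : ℤ) * X)).toNat = 2 * C * X + 1 := by
      have : (C : ℤ) * X + 1 - -((C : ℤ) * X) = ((2 * C * X + 1 : ℕ) : ℤ) := by
        push_cast
        ring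
      rw [this, Int.toNat_natCast]
    rw [h9]
    have h10 : 1 ≤ C * X := Nat.one_le_iff_ne_zero.2 (Nat.mul_ne_zero (by omega) (by omega))
    have h11 : 2 * C * X + 1 ≤ 3 * C * X := by nlinarith
    have h12 : (2 * C * X + 1) * (2 * C * X + 1) ^ d ≤ (3 * C * X) ^ (d + 1) := by
      rw [pow_succ, mul_comm]
      exact Nat.mul_le_mul (Nat.pow_le_pow_left h11 d) h11
    rw [hN]
    exact_mod_cast h12
  -- the sum
  have hS1 : ∑ t ∈ bx d T, W t * ∑ n ∈ range L, (∏ i ∈ univ.erase i0, G i (S.val b n (iv t) i)) * F (S.val b n (iv t) i0) =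
      ∑ z ∈ B, (∏ i, g i z) * c z := by
    rw [hB, ← Pool.Agent.H9U.u6_box]
    refine Finset.sum_congr rfl fun t ht => ?_
    rw [Finset.mul_sum]
    refine Finset.sum_congr rfl fun m hm => ?_
    have hmB : (((m : ℤ), iv t) : ℤ × (Fin d → ℤ)) ∈ B := by
      rw [hB, Finset.mem_product, Fintype.mem_piFinset]
      have hm' := Finset.mem_range.1 hm
      refine ⟨?_, fun r => ?_⟩
      · rw [Finset.mem_Ico]
        exact ⟨Int.natCast_nonneg m, Int.ofNat_lt.2 hm'⟩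
      · have ht' := ht
        rw [bx, Fintype.mem_piFinset] at ht'
        have := Finset.mem_range.1 (ht' r)
        rw [Finset.mem_Ico]
        simp only [iv]
        omega
    have h1 : ∏ i, g i (((m : ℤ), iv t) : ℤ × (Fin d → ℤ)) =
        W t * ∏ i ∈ univ.erase i0, G i (S.val b m (iv t) i) := by
      rw [← Finset.mul_prod_erase Finset.univ _ (Finset.mem_univ i0)]
      congr 1
      · simp only [hg, if_true]
        congr 1
      · refine Finset.prod_congr rfl fun i hi => ?_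
        simp only [hg]
        rw [if_neg (Finset.ne_of_mem_erase hi)]
    have h2 : c (((m : ℤ), iv t) : ℤ × (Fin d → ℤ)) = F (S.val b m (iv t) i0) := by
      simp only [hc]
      rw [if_pos hmB, hF0]
      unfold Pool.Agent.H9U.cutJ
      rw [if_pos (hJ m hm t ht)]
    rw [h1, h2]
    ring
  have hgle : ∀ i z, ‖g i z‖ ≤ 1 := by
    intro i z
    simp only [hg]
    split_ifs
    · exact hW _
    · exact hG i _
  have hinv : ∀ i z, g i (z + v i) = g i z := by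
    intro i z
    simp only [hg]
    by_cases hi : i = i0
    · rw [if_pos hi, if_pos hi, hi]
      congr 1
      funext r
      rw [Prod.snd_add, hv3, add_zero]
    · rw [if_neg hi, if_neg hi, d15_val, hv2 i hi, add_zero]
  have hc0 : ∀ z, z ∉ B → c z = 0 := by
    intro z hz
    simp only [hc]
    rw [if_neg hz]
  have hbox : ∀ i z, ∀ h : ℕ, h < X → z + h • v i ∈ B → z ∈ B' := by
    intro i z h hh hz
    rw [hB, Finset.mem_product, Finset.mem_Ico, Fintype.mem_piFinset] at hz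
    obtain ⟨⟨h1, h2⟩, h3⟩ := hz
    have hLz : (L : ℤ) ≤ C0 * X := by exact_mod_cast hL
    have hTz : (T : ℤ) ≤ C0 * X := by exact_mod_cast hT
    have hXz : (1 : ℤ) ≤ X := by exact_mod_cast hX1n
    have haux : ∀ s : ℤ, C0 + s.natAbs + 1 ≤ C → |(h : ℤ) * s| + C0 * X + 1 ≤ C * X := by
      intro s hs
      have e1 := Pool.Agent.H9U.u6_abs hh s s.natAbs le_rfl
      rw [mul_comm] at e1
      have e2 : ((C0 + s.natAbs + 1 : ℕ) : ℤ) * X ≤ (C : ℤ) * X := mul_le_mul_of_nonneg_right (by exact_mod_cast hs) (by positivity)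
      push_cast at e2 e1
      nlinarith
    rw [hB', Finset.mem_product, Finset.mem_Icc, Fintype.mem_piFinset]
    have f1 : (z + h • v i).1 = z.1 + h * (v i).1 := by
      rw [Prod.fst_add, Prod.smul_fst, nsmul_eq_mul]
    have f2 : ∀ r, (z + h • v i).2 r = z.2 r + h * (v i).2 r := by
      intro r
      rw [Prod.snd_add, Pi.add_apply, Prod.smul_snd, Pi.smul_apply, nsmul_eq_mul]
    rw [f1] at h1 h2
    refine ⟨?_, fun r => ?_⟩
    · have e1 := haux _ (hCfst i)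
      have e2 := abs_le.1 (le_refl |(h : ℤ) * (v i).1|)
      have e3 : (0 : ℤ) ≤ (C0 : ℤ) * X := by positivity
      constructor
      · linarith [e2.1, e2.2]
      · linarith [e2.1, e2.2]
    · have h4 := Finset.mem_Ico.1 (h3 r)
      rw [f2] at h4
      have e1 := haux _ (hCsnd i r)
      have e2 := abs_le.1 (le_refl |(h : ℤ) * (v i).2 r|)
      have e3 : (0 : ℤ) ≤ (C0 : ℤ) * X := by positivity
      rw [Finset.mem_Icc]
      constructor
      · linarith [e2.1, e2.2, h4.1, h4.2]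
      · linarith [e2.1, e2.2, h4.1, h4.2]
  have hE := E1_elim B B' N hcard hN0 X (by omega) k v g c hgle hinv hc0 hbox
  rw [hS1]
  set Z : ℝ := ‖∑ z ∈ B, (∏ i, g i z) * c z‖ with hZ
  have hZ0 : 0 ≤ Z := norm_nonneg _
  -- the sum over the differences
  have hone : ∀ j ∈ bxS k X, ‖∑ z ∈ B, DL (List.ofFn fun i => j i • v i) c z‖ / N ≤
      ((T : ℝ) ^ d * ∑ l ∈ range n, w l * ‖∑ y ∈ Ico (-((4 * X : ℕ) : ℤ)) ((4 * X : ℕ) : ℤ), DV (fun i => Λ * j i) F0 y * ee (θ l * y)‖) / N := by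
    intro j _
    have h1 := D15_one S i0 Λ v hv1 b L T (4 * X) F0 hSpt n w θ hw hw0 j
    exact div_le_div_of_nonneg_right h1 hN0.le
  have hT0 : (0 : ℝ) ≤ (T : ℝ) ^ d := by positivity
  have hGG0 : (X : ℝ) ^ ((k : ℝ) + 2 - κ) = (X : ℝ) ^ k * ((X : ℝ) ^ (1 - κ / 2)) ^ 2 := by
    rw [← Real.rpow_natCast (X : ℝ) k, ← Real.rpow_natCast ((X : ℝ) ^ (1 - κ / 2)) 2, ← Real.rpow_mul hXr.le, ← Real.rpow_add hXr]
    congr 1
    push_cast
    ring
  have habs : ∀ l, ∑ j ∈ bxS k X, ‖∑ y ∈ Ico (-((4 * X : ℕ) : ℤ)) ((4 * X : ℕ) : ℤ), DV (fun i => Λ * j i) F0 y * ee (θ l * y)‖ ≤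
      2 ^ k * (X : ℝ) ^ k * (X : ℝ) ^ (1 - κ / 2) := by
    intro l
    have h1 := D13_abs (4 * X) k X hk1 (by omega) Λ hΛ F0 hSpt (θ l)
    have h2 : (2 * (X : ℝ)) ^ k * (2 ^ k * GG (4 * X) (k + 1) F0) ≤ (2 ^ k * (X : ℝ) ^ k * (X : ℝ) ^ (1 - κ / 2)) ^ 2 := by
      calc (2 * (X : ℝ)) ^ k * (2 ^ k * GG (4 * X) (k + 1) F0) ≤
            (2 * (X : ℝ)) ^ k * (2 ^ k * ((X : ℝ) ^ k * ((X : ℝ) ^ (1 - κ / 2)) ^ 2)) := by
            refine mul_le_mul_of_nonneg_left (mul_le_mul_of_nonneg_left ?_ (by positivity)) (by positivity)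
            rw [← hGG0]
            exact hGG
        _ = _ := by
            rw [mul_pow]
            ring
    exact le_of_sq_le_sq (h1.trans h2) (by positivity)
  have hsumj : ∑ j ∈ bxS k X, ‖∑ z ∈ B, DL (List.ofFn fun i => j i • v i) c z‖ / N ≤
      ((T : ℝ) ^ d * (4 * (1 + Real.log (8 * X)) * (2 ^ k * (X : ℝ) ^ k * (X : ℝ) ^ (1 - κ / 2)))) / N := by
    refine (Finset.sum_le_sum hone).trans ?_
    rw [← Finset.sum_div, ← Finset.mul_sum]
    refine div_le_div_of_nonneg_right (mul_le_mul_of_nonneg_left ?_ hT0) hN0.le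
    rw [Finset.sum_comm]
    have h1 : ∀ l ∈ range n, ∑ j ∈ bxS k X, w l * ‖∑ y ∈ Ico (-((4 * X : ℕ) : ℤ)) ((4 * X : ℕ) : ℤ), DV (fun i => Λ * j i) F0 y * ee (θ l * y)‖ ≤
        w l * (2 ^ k * (X : ℝ) ^ k * (X : ℝ) ^ (1 - κ / 2)) := by
      intro l _
      rw [← Finset.mul_sum]
      exact mul_le_mul_of_nonneg_left (habs l) (hw0 l)
    refine (Finset.sum_le_sum h1).trans ?_
    rw [← Finset.sum_mul]
    refine mul_le_mul_of_nonneg_right (hwsum.trans (le_of_eq ?_)) (by positivity)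
    congr 3
    push_cast
    ring
  have hTle : (T : ℝ) ^ d ≤ (C : ℝ) ^ d * (X : ℝ) ^ d := by
    rw [← mul_pow]
    refine pow_le_pow_left₀ (by positivity) ?_ d
    have h1 : T ≤ C * X := hT.trans (Nat.mul_le_mul_right X hCC0)
    exact_mod_cast h1
  -- the main inequality
  have hlog0 : 0 ≤ 1 + Real.log (8 * X) := by
    have : 0 ≤ Real.log (8 * X) := Real.log_nonneg (by linarith)
    linarith
  have hmain : (Z / N) ^ (2 ^ k) ≤ (X : ℝ) ^ (-(κ / 4)) := by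
    refine hE.trans ?_
    refine (mul_le_mul_of_nonneg_left hsumj (by positivity)).trans ?_
    have h1 := hX1' X (by omega)
    have hXk : (0 : ℝ) < (X : ℝ) ^ k := by positivity
    have e1 : 2 ^ (2 ^ k) / (X : ℝ) ^ k * (((T : ℝ) ^ d * (4 * (1 + Real.log (8 * X)) * (2 ^ k * (X : ℝ) ^ k * (X : ℝ) ^ (1 - κ / 2)))) / N) =
        (2 ^ (2 ^ k) * 2 ^ k * 4 * (1 + Real.log (8 * X))) * ((T : ℝ) ^ d * (X : ℝ) ^ (1 - κ / 2) / N) := by
      field_simp
    rw [e1]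
    have e2 : (T : ℝ) ^ d * (X : ℝ) ^ (1 - κ / 2) / N ≤ (X : ℝ) ^ (-(κ / 2)) := by
      rw [div_le_iff₀ hN0, hN]
      have e3 : (X : ℝ) ^ (-(κ / 2)) * (3 * (C : ℝ) * X) ^ (d + 1) = (3 * (C : ℝ)) ^ (d + 1) * ((X : ℝ) ^ d * (X : ℝ) ^ (1 - κ / 2)) := by
        rw [mul_pow (3 * (C : ℝ)) (X : ℝ) (d + 1), pow_succ (X : ℝ) d]
        have e4 : (X : ℝ) ^ (1 - κ / 2) = X * (X : ℝ) ^ (-(κ / 2)) := by
          rw [sub_eq_add_neg, Real.rpow_add hXr, Real.rpow_one]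
        rw [e4]
        ring
      rw [e3]
      have e5 : (T : ℝ) ^ d ≤ (3 * (C : ℝ)) ^ (d + 1) * (X : ℝ) ^ d := by
        refine hTle.trans (mul_le_mul_of_nonneg_right ?_ (by positivity))
        calc (C : ℝ) ^ d ≤ (3 * (C : ℝ)) ^ d := pow_le_pow_left₀ (by positivity) (by linarith) d
          _ ≤ (3 * (C : ℝ)) ^ (d + 1) := pow_le_pow_right₀ (by linarith) (by omega)
      calc (T : ℝ) ^ d * (X : ℝ) ^ (1 - κ / 2) ≤ ((3 * (C : ℝ)) ^ (d + 1) * (X : ℝ) ^ d) * (X : ℝ) ^ (1 - κ / 2) :=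
            mul_le_mul_of_nonneg_right e5 (by positivity)
        _ = _ := by ring
    calc (2 ^ (2 ^ k) * 2 ^ k * 4 * (1 + Real.log (8 * X))) * ((T : ℝ) ^ d * (X : ℝ) ^ (1 - κ / 2) / N) ≤
          (X : ℝ) ^ (κ / 4) * (X : ℝ) ^ (-(κ / 2)) := mul_le_mul h1 e2 (by positivity) (by positivity)
      _ = (X : ℝ) ^ (-(κ / 4)) := by
          rw [← Real.rpow_add hXr]
          congr 1
          ring
  have hroot : Z / N ≤ (X : ℝ) ^ (-(κ / 2 ^ (k + 2))) := by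
    have h1 : ((X : ℝ) ^ (-(κ / 2 ^ (k + 2)))) ^ (2 ^ k) = (X : ℝ) ^ (-(κ / 4)) := by
      rw [← Real.rpow_natCast, ← Real.rpow_mul hXr.le]
      congr 1
      push_cast
      rw [pow_add]
      field_simp
      norm_num
    rw [← h1] at hmain
    exact le_of_pow_le_pow_left₀ (by positivity) (by positivity) hmain
  rw [div_le_iff₀ hN0] at hroot
  refine hroot.trans ?_
  have h2 := hX2 X (by omega)
  have e1 : (X : ℝ) ^ (-(κ / 2 ^ (k + 2))) * N = (3 * (C : ℝ)) ^ (d + 1) * ((X : ℝ) ^ (-(κ / 2 ^ (k + 2))) * (X : ℝ) ^ (d + 1)) := by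
    rw [hN, mul_pow (3 * (C : ℝ)) (X : ℝ) (d + 1)]
    ring
  rw [e1]
  calc (3 * (C : ℝ)) ^ (d + 1) * ((X : ℝ) ^ (-(κ / 2 ^ (k + 2))) * (X : ℝ) ^ (d + 1)) ≤
        (X : ℝ) ^ (κ / 2 ^ (k + 3)) * ((X : ℝ) ^ (-(κ / 2 ^ (k + 2))) * (X : ℝ) ^ (d + 1)) :=
        mul_le_mul_of_nonneg_right h2 (by positivity)
    _ = (X : ℝ) ^ (1 + d - κ / 2 ^ (k + 3)) := by
        rw [← Real.rpow_natCast (X : ℝ) (d + 1), ← Real.rpow_add hXr, ← Real.rpow_add hXr]
        congr 1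
        push_cast
        rw [pow_succ (2 : ℝ) (k + 2)]
        field_simp
        ring

end Pool.Agent.HUK
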