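import Pool.Agent.Lib.HUK.D15
import Pool.Agent.Lib.H9U.U7

/-!
# Project HUK, chunk D2 (M): replacing the primes by their projections, for almost all `t`
-/

open Finset

namespace Pool.Agent.HUK

open Pool.Agent.H9S (Bd)
open Pool.Agent.Lib.H68T (lp Lk)
open Pool.Agent.Lib.H59P (bx)
open Pool.Agent.H9U (Sys JJ cutJ Er Rgm iv)

/-- Proof. Copy of `U7_tel` (`H9U/U7.lean`; `u7_abs`, `u7_one`, `u7_large` from there): `K1` and the exponent `κ0` from `PK (k + 1)` instead of `U0_unif`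
(`GG (4X) (k+1) (cutJ X (Er Q Q' X)) ≤ X^((k+1) + 1 - κ0)`), `D15_vN` instead of `U6_vN`, with the exponent `κ1 = κ0/2^(k+3)` in the place of `κ0/40`:
`ε = κ1/(25 (k+1))`, `κ = κ1/2` (or any other choice). -/
theorem D2_tel {k d : ℕ} (S : Sys k d) (hS : SysFin S) (hP : PK (k + 1)) : TelP S := by
  obtain ⟨K1, hK1, hU⟩ := hP
  obtain ⟨K2, hK2, hS2⟩ := Pool.Agent.H9U.U0_size
  refine ⟨max K1 K2, le_trans hK1 (le_max_left _ _), ?_⟩
  intro Cr θ hCr hθ C0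
  obtain ⟨κ0, hκ0, hκ01, X1, hX1⟩ := hU Cr θ hCr hθ
  have hk0 : (0:ℝ) < (k:ℝ) + 1 := by positivity
  obtain ⟨κ1, hκ1d⟩ : ∃ κ1 : ℝ, κ1 = κ0 / 2 ^ (k + 3) := ⟨_, rfl⟩
  have hκ1 : 0 < κ1 := by rw [hκ1d]; positivity
  have hκ11 : κ1 ≤ 1 := by
    rw [hκ1d, div_le_one (by positivity)]
    exact le_trans hκ01 (one_le_pow₀ (by norm_num))
  obtain ⟨ε, hεd⟩ : ∃ ε : ℝ, ε = κ1 / (25 * ((k:ℝ) + 1)) := ⟨_, rfl⟩
  have hε : 0 < ε := by rw [hεd]; positivity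
  obtain ⟨X2, hX2⟩ := hS2 ε hε
  obtain ⟨X3, hX3⟩ := Pool.Agent.H9U.U0_lp ε hε
  choose X4 hX4 using fun j : Fin k => D15_vN S hS j κ0 hκ0 C0
  obtain ⟨X5, hX5⟩ := Pool.Agent.H9U.u7_large ((k:ℝ) * (C0:ℝ) ^ ((2:ℝ) + d)) (κ1 * (4 / 25)) (by positivity)
  refine ⟨κ1 * (4 / 5), by positivity, max (max (max X1 X2) (max X3 X5)) (max 1 (∑ j, X4 j)), ?_⟩
  intro Q Q' X hX Xs hXs hR b L T hL hT hval
  have hXX1 : X1 ≤ X := le_trans (le_trans (le_trans (le_max_left _ _) (le_max_left _ _)) (le_max_left _ _)) hX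
  have hXX2 : X2 ≤ X := le_trans (le_trans (le_trans (le_max_right _ _) (le_max_left _ _)) (le_max_left _ _)) hX
  have hXX3 : X3 ≤ X := le_trans (le_trans (le_trans (le_max_left _ _) (le_max_right _ _)) (le_max_left _ _)) hX
  have hXX5 : X5 ≤ X := le_trans (le_trans (le_trans (le_max_right _ _) (le_max_right _ _)) (le_max_left _ _)) hX
  have hXone : 1 ≤ X := le_trans (le_trans (le_max_left _ _) (le_max_right _ _)) hX
  have hXX4 : ∀ j, X4 j ≤ X := fun j =>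
    le_trans (Finset.single_le_sum (f := X4) (fun _ _ => Nat.zero_le _) (Finset.mem_univ j))
      (le_trans (le_trans (le_max_right _ _) (le_max_right _ _)) hX)
  have hX1r : (1:ℝ) ≤ (X:ℝ) := by exact_mod_cast hXone
  have hX0r : (0:ℝ) < (X:ℝ) := by linarith
  -- reduction to the terms
  have hred : ∑ t ∈ bx d T, |∑ n ∈ range L, (∏ i, lp (S.val b n (iv t) i) -
      ∏ i, Lk Q' (Xs i / Q ^ 2) (S.val b n (iv t) i))| ≤
      ∑ j : Fin k, ∑ t ∈ bx d T, |∑ n ∈ range L, (∏ i ∈ univ.erase j,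
        (fun i (m : ℤ) => if i < j then Lk Q' (Xs i / Q ^ 2) m else lp m) i (S.val b n (iv t) i)) *
        (fun m : ℤ => lp m - Lk Q' (Xs j / Q ^ 2) m) (S.val b n (iv t) j)| := by
    rw [Finset.sum_comm]
    refine Finset.sum_le_sum fun t _ => ?_
    refine le_trans (le_of_eq (congrArg abs ?_)) (Finset.abs_sum_le_sum_abs _ _)
    rw [Finset.sum_comm]
    refine Finset.sum_congr rfl fun n _ => ?_
    rw [Pool.Agent.Lib.H59P.S3]
    refine Finset.sum_congr rfl fun j _ => ?_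
    rw [← Finset.prod_erase_mul univ _ (Finset.mem_univ j)]
    dsimp only
    rw [if_neg (lt_irrefl j), if_pos rfl]
    refine congrArg (fun z => z * _) (Finset.prod_congr rfl fun i hi => ?_)
    rw [if_neg (Finset.ne_of_mem_erase hi)]
  refine le_trans hred ?_
  have hterm : ∀ j : Fin k, ∑ t ∈ bx d T, |∑ n ∈ range L, (∏ i ∈ univ.erase j,
        (fun i (m : ℤ) => if i < j then Lk Q' (Xs i / Q ^ 2) m else lp m) i (S.val b n (iv t) i)) *
        (fun m : ℤ => lp m - Lk Q' (Xs j / Q ^ 2) m) (S.val b n (iv t) j)| ≤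
        (C0:ℝ) ^ ((2:ℝ) + d) * (X:ℝ) ^ (1 + d - κ1 * (24/25)) := by
    intro j
    have hC0 : 1 ≤ C0 := by
      rcases Nat.eq_zero_or_pos C0 with h | h
      · have := hXs j
        rw [h] at this
        omega
      · exact h
    have hC0r : (1:ℝ) ≤ (C0:ℝ) := by exact_mod_cast hC0
    have hCX : (1:ℝ) ≤ (C0:ℝ) * X := by nlinarith
    have hXi : ∀ i, (1:ℝ) ≤ (Xs i : ℝ) ∧ (Xs i : ℝ) ≤ (C0:ℝ) * X := fun i =>
      ⟨by exact_mod_cast le_trans hXone (hXs i).1, by exact_mod_cast (hXs i).2⟩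
    have hQ' : 1 ≤ Q' := by
      have h1 := (hR j).low
      have h2 : (1:ℝ) ≤ (Xs j : ℝ) ^ θ := Real.one_le_rpow (hXi j).1 hθ.le
      exact_mod_cast le_trans h2 h1
    have hM : (0:ℝ) < ((C0:ℝ) * X) ^ ε := Real.rpow_pos_of_pos (by linarith) _
    have hRj : ∀ i, Pool.Agent.Lib.H18Q.RegP K2 Q (Xs i) := fun i =>
      (hR i).reg.mono (by linarith [le_max_left K1 K2]) (le_max_right _ _)
    have hRg : Rgm K1 Cr θ Q Q' (Xs j) :=
      ⟨(hR j).reg.mono (by linarith [le_max_left K1 K2]) (le_max_left _ _), (hR j).log, (hR j).low, (hR j).le⟩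
    have hGG : ∀ j : Fin k, GG (4 * Xs j) (k + 1) (cutJ (Xs j) (Er Q Q' (Xs j))) ≤
        (Xs j : ℝ) ^ ((k : ℝ) + 2 - κ0) := by
      intro j
      have hRg : Rgm K1 Cr θ Q Q' (Xs j) :=
        ⟨(hR j).reg.mono (by linarith [le_max_left K1 K2]) (le_max_left _ _), (hR j).log, (hR j).low, (hR j).le⟩
      have h := hX1 Q Q' (Xs j) (le_trans hXX1 (hXs j).1) hRg
      have e : ((k + 1 : ℕ) : ℝ) + 1 - κ0 = (k : ℝ) + 2 - κ0 := by push_cast; ring
      rwa [e] at h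
    have h := Pool.Agent.H9U.u7_one S j Xs b L T (fun i (m : ℤ) => if i < j then Lk Q' (Xs i / Q ^ 2) m else lp m)
      (((C0:ℝ) * X) ^ ε) hM (fun i m hm1 hm2 => by
        have hle : (Xs i : ℝ) ^ ε ≤ ((C0:ℝ) * X) ^ ε :=
          Real.rpow_le_rpow (by linarith [(hXi i).1]) (hXi i).2 hε.le
        split_ifs
        · exact le_trans (hX2 Q Q' (Xs i) (le_trans hXX2 (hXs i).1) (hRj i) hQ' (hR i).le m hm1 hm2) hle
        · exact le_trans (hX3 (Xs i) (le_trans hXX3 (hXs i).1) m hm2) hle)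
      (Er Q Q' (Xs j)) (fun m : ℤ => lp m - Lk Q' (Xs j / Q ^ 2) m)
      (fun m => by simp [Er, Pool.Agent.H9S.lc, Pool.Agent.H9S.Lc]) hval
      ((Xs j : ℝ) ^ (1 + d - κ1))
      (fun G W hG hW => hX4 j (Xs j) (le_trans (hXX4 j) (hXs j).1) (Er Q Q' (Xs j))
        (hGG j) b L T
        (le_trans hL (Nat.mul_le_mul_left _ (hXs j).1)) (le_trans hT (Nat.mul_le_mul_left _ (hXs j).1))
        (fun n hn t ht => hval j n hn t ht) G W hG hW |>.trans (le_of_eq (by rw [hκ1d])))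
    refine le_trans h ?_
    have hd0 : (0:ℝ) ≤ (d:ℝ) := Nat.cast_nonneg d
    have he1 : (0:ℝ) ≤ 1 + d - κ1 := by linarith
    have h2 : (Xs j : ℝ) ^ (1 + d - κ1) ≤ ((C0:ℝ) * X) ^ (1 + d - κ1) :=
      Real.rpow_le_rpow (by linarith [(hXi j).1]) (hXi j).2 he1
    have h3 : (((C0:ℝ) * X) ^ ε) ^ (k - 1) ≤ ((C0:ℝ) * X) ^ (κ1 / 25) := by
      rw [← Real.rpow_natCast, ← Real.rpow_mul (by linarith)]
      refine Real.rpow_le_rpow_of_exponent_le hCX ?_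
      have h4 : ((k - 1 : ℕ) : ℝ) ≤ (k:ℝ) + 1 := by
        have : ((k - 1 : ℕ) : ℝ) ≤ (k:ℝ) := by exact_mod_cast Nat.sub_le k 1
        linarith
      calc ε * ((k - 1 : ℕ) : ℝ) ≤ ε * ((k:ℝ) + 1) := mul_le_mul_of_nonneg_left h4 hε.le
        _ = κ1 / 25 := by rw [hεd]; field_simp
    calc (((C0:ℝ) * X) ^ ε) ^ (k - 1) * (Xs j : ℝ) ^ (1 + d - κ1)
        ≤ ((C0:ℝ) * X) ^ (κ1 / 25) * ((C0:ℝ) * X) ^ (1 + d - κ1) :=
          mul_le_mul h3 h2 (by positivity) (by positivity)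
      _ = ((C0:ℝ) * X) ^ (1 + d - κ1 * (24/25)) := by
          rw [← Real.rpow_add (by linarith)]
          ring_nf
      _ = (C0:ℝ) ^ (1 + d - κ1 * (24/25)) * (X:ℝ) ^ (1 + d - κ1 * (24/25)) :=
          Real.mul_rpow (by linarith) (by linarith)
      _ ≤ (C0:ℝ) ^ ((2:ℝ) + d) * (X:ℝ) ^ (1 + d - κ1 * (24/25)) := by
          refine mul_le_mul_of_nonneg_right ?_ (by positivity)
          exact Real.rpow_le_rpow_of_exponent_le hC0r (by linarith)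
  refine le_trans (Finset.sum_le_sum fun j _ => hterm j) ?_
  rw [Finset.sum_const, Finset.card_univ, Fintype.card_fin, nsmul_eq_mul]
  have h5 := hX5 X hXX5
  calc (k:ℝ) * ((C0:ℝ) ^ ((2:ℝ) + d) * (X:ℝ) ^ (1 + d - κ1 * (24/25)))
      = (k:ℝ) * (C0:ℝ) ^ ((2:ℝ) + d) * (X:ℝ) ^ (1 + d - κ1 * (24/25)) := by ring
    _ ≤ (X:ℝ) ^ (κ1 * (4 / 25)) * (X:ℝ) ^ (1 + d - κ1 * (24/25)) :=
        mul_le_mul_of_nonneg_right h5 (by positivity)
    _ = (X:ℝ) ^ (1 + d - κ1 * (4 / 5)) := by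
        rw [← Real.rpow_add hX0r]
        ring_nf

end Pool.Agent.HUK
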