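import Pool.Agent.Lib.HUK.D0
import Pool.Agent.Lib.H9U.L0

/-!
# Project HUK, chunk D41 (M): sums over differences modulo `q`
-/

open Finset

namespace Pool.Agent.HUK

theorem d41_sum {s q : ℕ} [NeZero q] (F : (Fin (s + 1) → ZMod q) → ℝ) :
    ∑ h : Fin (s + 1) → ZMod q, F h = ∑ x : ZMod q, ∑ h : Fin s → ZMod q, F (Fin.cons x h) := by
  rw [← Fintype.sum_prod_type']
  exact (Fintype.sum_equiv (Fin.consEquiv fun _ => ZMod q) _ _ fun p => rfl).symm

theorem d41_inj (q : ℕ) [NeZero q] (g : ZMod q → ℝ) (hg : ∀ x, 0 ≤ g x) (S : Finset ℤ)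
    (hS : ∀ a ∈ S, ∀ b ∈ S, |b - a| < (q : ℤ)) : ∑ a ∈ S, g (a : ZMod q) ≤ ∑ x : ZMod q, g x := by
  classical
  have hinj : Set.InjOn (fun a : ℤ => (a : ZMod q)) (S : Set ℤ) := by
    intro a ha b hb hab
    have h1 : (q : ℤ) ∣ b - a := (ZMod.intCast_eq_intCast_iff_dvd_sub a b q).1 hab
    have h2 := Int.eq_zero_of_abs_lt_dvd h1 (hS a ha b hb)
    linarith
  rw [← Finset.sum_image (f := g) hinj]
  exact Finset.sum_le_univ_sum_of_nonneg hg

theorem d41_one (q : ℕ) [NeZero q] (g : ZMod q → ℝ) (hg : ∀ x, 0 ≤ g x) :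
    ∑ a ∈ Ioo (-(q : ℤ)) q, g (a : ZMod q) ≤ 2 * ∑ x : ZMod q, g x := by
  classical
  have h1 : Ioo (-(q : ℤ)) q ⊆ Ico (-(q : ℤ)) 0 ∪ Ico (0 : ℤ) q := by
    intro a ha
    rw [Finset.mem_Ioo] at ha
    rw [Finset.mem_union, Finset.mem_Ico, Finset.mem_Ico]
    omega
  have h2 : ∑ a ∈ Ico (-(q : ℤ)) 0, g (a : ZMod q) ≤ ∑ x : ZMod q, g x := by
    refine d41_inj q g hg _ fun a ha b hb => ?_
    rw [Finset.mem_Ico] at ha hb
    rw [abs_lt]
    omega
  have h3 : ∑ a ∈ Ico (0 : ℤ) q, g (a : ZMod q) ≤ ∑ x : ZMod q, g x := by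
    refine d41_inj q g hg _ fun a ha b hb => ?_
    rw [Finset.mem_Ico] at ha hb
    rw [abs_lt]
    omega
  have h4 : Disjoint (Ico (-(q : ℤ)) 0) (Ico (0 : ℤ) q) := by
    rw [Finset.disjoint_left]
    intro a ha hb
    rw [Finset.mem_Ico] at ha hb
    omega
  calc ∑ a ∈ Ioo (-(q : ℤ)) q, g (a : ZMod q) ≤ ∑ a ∈ Ico (-(q : ℤ)) 0 ∪ Ico (0 : ℤ) q, g (a : ZMod q) :=
        Finset.sum_le_sum_of_subset_of_nonneg h1 fun a _ _ => hg _
    _ = ∑ a ∈ Ico (-(q : ℤ)) 0, g (a : ZMod q) + ∑ a ∈ Ico (0 : ℤ) q, g (a : ZMod q) := Finset.sum_union h4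
    _ ≤ 2 * ∑ x : ZMod q, g x := by linarith

/-- Differences with many signs: `(-q, q)` covers every residue class at most twice. Proof: induction on `s` (`D0_bx`, `Fin.consEquiv`-type splitting of the sum
over `Fin (s+1) → ZMod q`), or: the map `j ↦ (fun i => (j i : ZMod q))` from `bxS s q` has fibres with at most `2^s` elements. -/
theorem D41_cover (s q : ℕ) [NeZero q] (Φ : (Fin s → ZMod q) → ℝ) (hΦ : ∀ h, 0 ≤ Φ h) :
    ∑ j ∈ bxS s q, Φ (fun i => (j i : ZMod q)) ≤ 2 ^ s * ∑ h : Fin s → ZMod q, Φ h := by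
  induction s with
  | zero =>
    have h1 : bxS 0 q = {fun i => i.elim0} := by
      ext j
      unfold bxS
      rw [Fintype.mem_piFinset, Finset.mem_singleton]
      constructor
      · intro _
        funext i
        exact i.elim0
      · intro _ i
        exact i.elim0
    rw [h1, Finset.sum_singleton, pow_zero, one_mul]
    exact Finset.single_le_sum (f := Φ) (fun h _ => hΦ h) (Finset.mem_univ _)
  | succ s ih =>
    rw [D0_bx, d41_sum]
    have h1 : ∀ a ∈ Ioo (-(q : ℤ)) q, ∑ h ∈ bxS s q, Φ (fun i => ((Fin.cons a h : Fin (s + 1) → ℤ) i : ZMod q)) ≤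
        2 ^ s * ∑ h : Fin s → ZMod q, Φ (Fin.cons (a : ZMod q) h) := by
      intro a _
      have h2 : ∀ h : Fin s → ℤ, (fun i => ((Fin.cons a h : Fin (s + 1) → ℤ) i : ZMod q)) =
          (Fin.cons (a : ZMod q) (fun i => (h i : ZMod q)) : Fin (s + 1) → ZMod q) := by
        intro h
        funext i
        refine Fin.cases ?_ (fun i => ?_) i
        · simp
        · simp
      rw [Finset.sum_congr rfl fun h _ => congrArg Φ (h2 h)]
      exact ih (fun h => Φ (Fin.cons (a : ZMod q) h)) fun h => hΦ _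
    refine (Finset.sum_le_sum h1).trans ?_
    rw [← Finset.mul_sum]
    have h3 := d41_one q (fun x => ∑ h : Fin s → ZMod q, Φ (Fin.cons x h)) fun x => Finset.sum_nonneg fun h _ => hΦ _
    calc (2 : ℝ) ^ s * ∑ a ∈ Ioo (-(q : ℤ)) q, ∑ h : Fin s → ZMod q, Φ (Fin.cons (a : ZMod q) h)
        ≤ 2 ^ s * (2 * ∑ x : ZMod q, ∑ h : Fin s → ZMod q, Φ (Fin.cons x h)) :=
          mul_le_mul_of_nonneg_left h3 (by positivity)
      _ = 2 ^ (s + 1) * ∑ x : ZMod q, ∑ h : Fin s → ZMod q, Φ (Fin.cons x h) := by ring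

/-- Multiplication by `Λ` in every coordinate. Proof: induction on `s` with `L0_fib` (`H9U/L0.lean`, `c = 0`) in each coordinate. -/
theorem D41_mul (s q : ℕ) [NeZero q] (Λ : ℤ) (hΛ : Λ ≠ 0) (Φ : (Fin s → ZMod q) → ℝ) (hΦ : ∀ h, 0 ≤ Φ h) :
    ∑ h : Fin s → ZMod q, Φ (fun i => (Λ : ZMod q) * h i) ≤ |(Λ : ℝ)| ^ s * ∑ h : Fin s → ZMod q, Φ h := by
  induction s with
  | zero =>
    rw [pow_zero, one_mul]
    refine Finset.sum_le_sum fun h _ => le_of_eq (congrArg Φ ?_)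
    funext i
    exact i.elim0
  | succ s ih =>
    rw [d41_sum, d41_sum]
    have h2 : ∀ (x : ZMod q) (h : Fin s → ZMod q), (fun i => (Λ : ZMod q) * (Fin.cons x h : Fin (s + 1) → ZMod q) i) =
        (Fin.cons ((Λ : ZMod q) * x) (fun i => (Λ : ZMod q) * h i) : Fin (s + 1) → ZMod q) := by
      intro x h
      funext i
      refine Fin.cases ?_ (fun i => ?_) i
      · simp
      · simp
    have h1 : ∀ x ∈ (univ : Finset (ZMod q)), ∑ h : Fin s → ZMod q, Φ (fun i => (Λ : ZMod q) * (Fin.cons x h : Fin (s + 1) → ZMod q) i) ≤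
        |(Λ : ℝ)| ^ s * ∑ h : Fin s → ZMod q, Φ (Fin.cons ((Λ : ZMod q) * x) h) := by
      intro x _
      rw [Finset.sum_congr rfl fun h _ => congrArg Φ (h2 x h)]
      exact ih (fun h => Φ (Fin.cons ((Λ : ZMod q) * x) h)) fun h => hΦ _
    refine (Finset.sum_le_sum h1).trans ?_
    rw [← Finset.mul_sum]
    have h3 := Pool.Agent.H9U.L0_fib q Λ hΛ 0 (fun x => ∑ h : Fin s → ZMod q, Φ (Fin.cons x h))
      fun x => Finset.sum_nonneg fun h _ => hΦ _
    simp only [add_zero] at h3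
    calc |(Λ : ℝ)| ^ s * ∑ x : ZMod q, ∑ h : Fin s → ZMod q, Φ (Fin.cons ((Λ : ZMod q) * x) h)
        ≤ |(Λ : ℝ)| ^ s * (|(Λ : ℝ)| * ∑ x : ZMod q, ∑ h : Fin s → ZMod q, Φ (Fin.cons x h)) :=
          mul_le_mul_of_nonneg_left h3 (by positivity)
      _ = |(Λ : ℝ)| ^ (s + 1) * ∑ x : ZMod q, ∑ h : Fin s → ZMod q, Φ (Fin.cons x h) := by ring

end Pool.Agent.HUK
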