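import Pool.Agent.Lib.HUK.D0
import Pool.Agent.Lib.H9U.L0

/-!
# Project HUK, chunk D42 (M): base points and conjugates modulo `q`
-/

open Finset

namespace Pool.Agent.HUK

/-- The mean square over the differences, base point `c` and step `a`. Proof. `Q(c)` = the left side. `Q(a x + c) = Q(c)` for all `x` (translate `n`), so
`q Q(c) = ∑_x Q(a x + c) ≤ |a| ∑_y Q(y)` (`L0_fib`). And `∑_y ‖∑_n u(a n + y)‖² = ∑_n ∑_m ∑_y u(a n + y) conj u(a n + y + a m) = q ∑_m ∑_y DD (a m) u y`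
(translate `y`), `u = DL (ofFn h) G`; so `∑_y Q(y) = q ∑_h ∑_m (∑_y DL (a m :: ofFn h) G y) ≤ q |a| ∑_{h : Fin (s+1) → ZMod q} ‖∑_y DL (ofFn h) G y‖`
(`L0_fib` in `m`; `DL (m :: l) G = DL l (DD m G) = DD m (DL l G)`: `D0_DLDD`; the sum over `Fin (s+1) → ZMod q` as a double sum: `Fin.consEquiv` or
`Fin.insertNthEquiv`, `Fintype.sum_equiv`, `Fintype.sum_prod_type`). -/
theorem D42_base (s q : ℕ) [NeZero q] (G : ZMod q → ℂ) (a : ℤ) (ha : a ≠ 0) (c : ZMod q) :
    ∑ h : Fin s → ZMod q, ‖∑ n : ZMod q, DL (List.ofFn h) G ((a : ZMod q) * n + c)‖ ^ 2 ≤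
      |(a : ℝ)| ^ 2 * ∑ h : Fin (s + 1) → ZMod q, ‖∑ y : ZMod q, DL (List.ofFn h) G y‖ := by
  classical
  have hq : (0 : ℝ) < q := Nat.cast_pos.2 (Nat.pos_of_ne_zero (NeZero.ne q))
  let Q : ZMod q → ℝ := fun c => ∑ h : Fin s → ZMod q,
    ‖∑ n : ZMod q, DL (List.ofFn h) G ((a : ZMod q) * n + c)‖ ^ 2
  have hQ0 : ∀ x, 0 ≤ Q x := fun x => Finset.sum_nonneg fun h _ => sq_nonneg _
  have h1 : ∀ x, Q ((a : ZMod q) * x + c) = Q c := by
    intro x
    refine Finset.sum_congr rfl fun h _ => ?_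
    have h2 : ∑ n : ZMod q, DL (List.ofFn h) G ((a : ZMod q) * n + ((a : ZMod q) * x + c)) =
        ∑ n : ZMod q, DL (List.ofFn h) G ((a : ZMod q) * n + c) := by
      refine Fintype.sum_equiv (Equiv.addRight x) _ _ fun n => ?_
      rw [Equiv.coe_addRight]
      congr 1
      ring
    rw [h2]
  have h3 : (q : ℝ) * Q c ≤ |(a : ℝ)| * ∑ y : ZMod q, Q y := by
    have h4 := Pool.Agent.H9U.L0_fib q a ha c Q hQ0
    rw [Finset.sum_congr rfl fun x _ => h1 x, Finset.sum_const, Finset.card_univ, ZMod.card,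
      nsmul_eq_mul] at h4
    exact h4
  have h5 : ∀ u : ZMod q → ℂ, ∑ y : ZMod q, ‖∑ n : ZMod q, u ((a : ZMod q) * n + y)‖ ^ 2 ≤
      (q : ℝ) * (|(a : ℝ)| * ∑ m : ZMod q, ‖∑ y : ZMod q, DD m u y‖) := by
    intro u
    have h6 : ((∑ y : ZMod q, ‖∑ n : ZMod q, u ((a : ZMod q) * n + y)‖ ^ 2 : ℝ) : ℂ) =
        (q : ℂ) * ∑ m : ZMod q, ∑ y : ZMod q, DD ((a : ZMod q) * m) u y := by
      have h7 : ∀ y : ZMod q, ((‖∑ n : ZMod q, u ((a : ZMod q) * n + y)‖ ^ 2 : ℝ) : ℂ) =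
          ∑ n : ZMod q, ∑ m : ZMod q, DD ((a : ZMod q) * m) u ((a : ZMod q) * n + y) := by
        intro y
        rw [← Complex.normSq_eq_norm_sq, ← Complex.mul_conj, map_sum, Finset.sum_mul]
        refine Finset.sum_congr rfl fun n _ => ?_
        rw [Finset.mul_sum]
        refine (Fintype.sum_equiv (Equiv.addLeft n) _ _ fun m => ?_).symm
        rw [Equiv.coe_addLeft]
        unfold DD
        congr 3
        ring
      rw [Complex.ofReal_sum, Finset.sum_congr rfl fun y _ => h7 y, Finset.sum_comm]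
      have h8 : ∀ n : ZMod q, ∑ y : ZMod q, ∑ m : ZMod q,
          DD ((a : ZMod q) * m) u ((a : ZMod q) * n + y) =
          ∑ m : ZMod q, ∑ y : ZMod q, DD ((a : ZMod q) * m) u y := by
        intro n
        rw [Finset.sum_comm]
        refine Finset.sum_congr rfl fun m _ => ?_
        exact Fintype.sum_equiv (Equiv.addLeft ((a : ZMod q) * n)) _ _ fun y => rfl
      rw [Finset.sum_congr rfl fun n _ => h8 n, Finset.sum_const, Finset.card_univ, ZMod.card,
        nsmul_eq_mul]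
    have h9 : ∑ y : ZMod q, ‖∑ n : ZMod q, u ((a : ZMod q) * n + y)‖ ^ 2 =
        ‖(q : ℂ) * ∑ m : ZMod q, ∑ y : ZMod q, DD ((a : ZMod q) * m) u y‖ := by
      rw [← h6, Complex.norm_real, Real.norm_of_nonneg]
      exact Finset.sum_nonneg fun y _ => sq_nonneg _
    rw [h9, norm_mul, Complex.norm_natCast]
    refine mul_le_mul_of_nonneg_left ?_ hq.le
    refine (norm_sum_le _ _).trans ?_
    have h10 := Pool.Agent.H9U.L0_fib q a ha 0 (fun m => ‖∑ y : ZMod q, DD m u y‖)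
      (fun m => norm_nonneg _)
    simp only [add_zero] at h10
    exact h10
  have h11 : ∑ y : ZMod q, Q y ≤ (q : ℝ) * (|(a : ℝ)| *
      ∑ h : Fin (s + 1) → ZMod q, ‖∑ y : ZMod q, DL (List.ofFn h) G y‖) := by
    have h12 : ∑ h : Fin (s + 1) → ZMod q, ‖∑ y : ZMod q, DL (List.ofFn h) G y‖ =
        ∑ h : Fin s → ZMod q, ∑ m : ZMod q, ‖∑ y : ZMod q, DD m (DL (List.ofFn h) G) y‖ := by
      rw [← Fintype.sum_equiv (Fin.consEquiv (fun _ => ZMod q))
        (fun p : ZMod q × (Fin s → ZMod q) =>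
          ‖∑ y : ZMod q, DL (List.ofFn (Fin.cons p.1 p.2 : Fin (s + 1) → ZMod q)) G y‖) _
        (fun p => rfl), Fintype.sum_prod_type, Finset.sum_comm]
      refine Finset.sum_congr rfl fun h _ => Finset.sum_congr rfl fun m _ => ?_
      have h13 : DL (List.ofFn (Fin.cons m h : Fin (s + 1) → ZMod q)) G =
          DD m (DL (List.ofFn h) G) := by
        rw [List.ofFn_succ, ← D0_DLDD]
        simp only [Fin.cons_zero, Fin.cons_succ]
        rfl
      rw [h13]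
    rw [h12, Finset.sum_comm, Finset.mul_sum, Finset.mul_sum]
    refine Finset.sum_le_sum fun h _ => ?_
    exact h5 (DL (List.ofFn h) G)
  have h14 : (q : ℝ) * Q c ≤ (q : ℝ) * (|(a : ℝ)| ^ 2 *
      ∑ h : Fin (s + 1) → ZMod q, ‖∑ y : ZMod q, DL (List.ofFn h) G y‖) := by
    refine h3.trans ((mul_le_mul_of_nonneg_left h11 (abs_nonneg _)).trans (le_of_eq ?_))
    ring
  exact le_of_mul_le_mul_left h14 hq

/-- Multiples and conjugates. Proof: `DL l (z conj f) y = w conj (DL l f y)` with `‖w‖ ≤ 1`, `w` depending on `l` only (`w = z` for `l = []`,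
`DD h (z conj f) = ‖z‖² conj (DD h f)`). -/
theorem D42_conj {q : ℕ} [NeZero q] (z : ℂ) (hz : ‖z‖ ≤ 1) (f : ZMod q → ℂ) (l : List (ZMod q)) :
    ‖∑ y : ZMod q, DL l (fun x => z * (starRingEnd ℂ) (f x)) y‖ ≤ ‖∑ y : ZMod q, DL l f y‖ := by
  induction l generalizing z f with
  | nil =>
    show ‖∑ y : ZMod q, z * (starRingEnd ℂ) (f y)‖ ≤ ‖∑ y : ZMod q, f y‖
    rw [← Finset.mul_sum, ← map_sum, norm_mul, RCLike.norm_conj]
    exact mul_le_of_le_one_left (norm_nonneg _) hz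
  | cons h l ih =>
    have h1 : DD h (fun x => z * (starRingEnd ℂ) (f x)) =
        fun x => (z * (starRingEnd ℂ) z) * (starRingEnd ℂ) (DD h f x) := by
      funext x
      unfold DD
      simp only [map_mul, Complex.conj_conj]
      ring
    have h2 : ‖z * (starRingEnd ℂ) z‖ ≤ 1 := by
      rw [norm_mul, RCLike.norm_conj]
      exact mul_le_one₀ hz (norm_nonneg _) hz
    have h3 := ih (z * (starRingEnd ℂ) z) h2 (DD h f)
    show ‖∑ y : ZMod q, DL l (DD h (fun x => z * (starRingEnd ℂ) (f x))) y‖ ≤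
      ‖∑ y : ZMod q, DL l (DD h f) y‖
    rw [h1]
    exact h3

end Pool.Agent.HUK
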