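import Pool.Agent.Lib.HUK.D11
import Pool.Agent.Lib.HUK.D14
import Pool.Agent.Lib.HUK.D41
import Pool.Agent.Lib.HUK.D42
import Pool.Agent.Lib.HUK.E1
import Pool.Agent.Lib.H9U.L2

/-!
# Project HUK, chunk D43 (M/L): the local first moment of a system with a primitive character
-/

open Finset

namespace Pool.Agent.HUK

open Pool.Agent.H9U (Sys FZ l2_w)

theorem d43_vz {k d : ℕ} (S : Sys k d) (q : ℕ) (b : Fin k → ℤ) (i : Fin k) (z v : ZMod q × (Fin d → ZMod q)) :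
    S.vz q b (z + v).1 (z + v).2 i =
      S.vz q b z.1 z.2 i + ((S.a i : ZMod q) * v.1 + ∑ j, (S.c i j : ZMod q) * v.2 j) := by
  unfold Sys.vz
  simp only [Prod.fst_add, Prod.snd_add, Pi.add_apply, mul_add, Finset.sum_add_distrib]
  ring

/-- a vector modulo `q` -/
def d43_md {d : ℕ} (q : ℕ) (v : ℤ × (Fin d → ℤ)) : ZMod q × (Fin d → ZMod q) :=
  ((v.1 : ZMod q), fun r => (v.2 r : ZMod q))

theorem d43_lam {k d : ℕ} (S : Sys k d) (q : ℕ) (i : Fin k) (m : ℤ) (v : ℤ × (Fin d → ℤ)) :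
    (S.a i : ZMod q) * (m • d43_md q v).1 + ∑ j, (S.c i j : ZMod q) * (m • d43_md q v).2 j =
      (S.lin i v.1 v.2 : ZMod q) * (m : ZMod q) := by
  unfold Sys.lin d43_md
  have h1 : ∀ j, (S.c i j : ZMod q) * (m • (((v.1 : ZMod q), fun r => (v.2 r : ZMod q)) : ZMod q × (Fin d → ZMod q))).2 j =
      (S.c i j : ZMod q) * (v.2 j : ZMod q) * m := by
    intro j
    show (S.c i j : ZMod q) * (m • (v.2 j : ZMod q)) = _
    rw [zsmul_eq_mul]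
    ring
  have h2 : (m • (((v.1 : ZMod q), fun r => (v.2 r : ZMod q)) : ZMod q × (Fin d → ZMod q))).1 = (m : ZMod q) * (v.1 : ZMod q) := by
    show m • (v.1 : ZMod q) = _
    rw [zsmul_eq_mul]
  rw [Finset.sum_congr rfl fun j _ => h1 j, h2, ← Finset.sum_mul]
  push_cast
  ring

theorem d43_card (k q : ℕ) : ((bxS k q).card : ℝ) ≤ (2 * q) ^ k := by
  unfold bxS
  rw [Fintype.card_piFinset, Finset.prod_const, Finset.card_univ, Fintype.card_fin, Int.card_Ioo]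
  push_cast
  refine pow_le_pow_left₀ (by positivity) ?_ k
  have h1 : ((q : ℤ) - -(q : ℤ) - 1).toNat ≤ 2 * q := by omega
  calc ((((q : ℤ) - -(q : ℤ) - 1).toNat : ℕ) : ℝ) ≤ ((2 * q : ℕ) : ℝ) := by exact_mod_cast h1
    _ = 2 * q := by push_cast; ring

theorem d43_cs {ι : Type*} (s : Finset ι) (x : ι → ℝ) (hx : ∀ i ∈ s, 0 ≤ x i) (K E : ℝ) (hK : (s.card : ℝ) ≤ K)
    (hE : ∑ i ∈ s, x i ^ 2 ≤ E) : ∑ i ∈ s, x i ≤ Real.sqrt (K * E) := by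
  refine Real.le_sqrt_of_sq_le ?_
  have h1 : (∑ i ∈ s, x i) ^ 2 ≤ s.card * ∑ i ∈ s, x i ^ 2 := sq_sum_le_card_mul_sum_sq
  refine h1.trans (mul_le_mul hK hE (Finset.sum_nonneg fun i _ => sq_nonneg _) ?_)
  exact (Nat.cast_nonneg _).trans hK

theorem d43_core {k d : ℕ} (S : Sys k d) (i0 : Fin k) (Λ : ℤ) (v : Fin k → ℤ × (Fin d → ℤ))
    (hv0 : ∀ j, S.lin i0 (v j).1 (v j).2 = Λ) (hvj : ∀ j, j ≠ i0 → S.lin j (v j).1 (v j).2 = 0)
    (hvt : (v i0).2 = 0) (q : ℕ) [NeZero q] (b : Fin k → ℤ) (G : Fin k → ZMod q → ℂ) (hG : ∀ i x, ‖G i x‖ ≤ 1) :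
    (FZ S q b G / (q : ℝ) ^ (d + 1)) ^ (2 ^ k) ≤ 2 ^ (2 ^ k) / (q : ℝ) ^ k *
      ((∑ t : Fin d → ZMod q, ∑ j ∈ bxS k q, ‖∑ n : ZMod q, DL (List.ofFn fun i => (Λ : ZMod q) * (j i : ZMod q)) (G i0)
        ((S.a i0 : ZMod q) * n + S.vz q b 0 t i0)‖) / (q : ℝ) ^ (d + 1)) := by
  classical
  have hq0 : (0 : ℝ) < q := by exact_mod_cast Nat.pos_of_ne_zero (NeZero.ne q)
  obtain ⟨z, hz⟩ : ∃ z : (Fin d → ZMod q) → ℂ, ∀ t, z t = ∑ n : ZMod q, ∏ i, G i (S.vz q b n t i) :=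
    ⟨fun t => _, fun t => rfl⟩
  obtain ⟨w, hw1, hw⟩ := l2_w z
  have e1 : ((FZ S q b G : ℝ) : ℂ) = ∑ t, w t * z t := by
    unfold FZ
    rw [Complex.ofReal_sum]
    refine Finset.sum_congr rfl fun t _ => ?_
    rw [← hz, hw]
  obtain ⟨g, hg⟩ : ∃ g : Fin k → ZMod q × (Fin d → ZMod q) → ℂ, ∀ i x, g i x =
      if i = i0 then w x.2 else G i (S.vz q b x.1 x.2 i) := ⟨fun i x => _, fun i x => rfl⟩
  obtain ⟨cc, hcc⟩ : ∃ cc : ZMod q × (Fin d → ZMod q) → ℂ, cc = fun x => G i0 (S.vz q b x.1 x.2 i0) := ⟨_, rfl⟩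
  have e2 : ∀ x, (∏ i, g i x) * cc x = w x.2 * ∏ i, G i (S.vz q b x.1 x.2 i) := by
    intro x
    rw [← Finset.mul_prod_erase univ (fun i => g i x) (mem_univ i0),
      ← Finset.mul_prod_erase univ (fun i => G i (S.vz q b x.1 x.2 i)) (mem_univ i0)]
    have e3 : ∏ i ∈ univ.erase i0, g i x = ∏ i ∈ univ.erase i0, G i (S.vz q b x.1 x.2 i) := by
      refine Finset.prod_congr rfl fun i hi => ?_
      rw [hg, if_neg (Finset.ne_of_mem_erase hi)]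
    rw [e3, hg, if_pos rfl, hcc]
    ring
  have e4 : ‖∑ x ∈ (univ : Finset (ZMod q × (Fin d → ZMod q))), (∏ i, g i x) * cc x‖ = FZ S q b G := by
    rw [Finset.sum_congr rfl fun x _ => e2 x, Fintype.sum_prod_type_right]
    have e5 : ∑ t : Fin d → ZMod q, ∑ n : ZMod q, w t * ∏ i, G i (S.vz q b n t i) = ((FZ S q b G : ℝ) : ℂ) := by
      rw [e1]
      refine Finset.sum_congr rfl fun t _ => ?_
      rw [← Finset.mul_sum, hz]
    show ‖∑ t : Fin d → ZMod q, ∑ n : ZMod q, w t * ∏ i, G i (S.vz q b n t i)‖ = _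
    rw [e5, Complex.norm_real, Real.norm_of_nonneg]
    unfold FZ
    positivity
  have hcard : (((univ : Finset (ZMod q × (Fin d → ZMod q))).card : ℕ) : ℝ) ≤ (q : ℝ) ^ (d + 1) := by
    rw [Finset.card_univ, Fintype.card_prod, Fintype.card_fun, ZMod.card, Fintype.card_fin]
    push_cast
    rw [pow_succ]
    linarith [mul_comm (q : ℝ) ((q : ℝ) ^ d)]
  have key := E1_elim (univ : Finset (ZMod q × (Fin d → ZMod q))) univ ((q : ℝ) ^ (d + 1)) hcard (by positivity) q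
    (Nat.pos_of_ne_zero (NeZero.ne q)) k (fun i => d43_md q (v i)) g cc
    (fun i x => by
      rw [hg]
      split_ifs
      · exact hw1 _
      · exact hG _ _)
    (fun i x => by
      rw [hg, hg]
      split_ifs with h
      · have h1 : (x + d43_md q (v i)).2 = x.2 := by
          rw [h]
          show x.2 + (fun r => ((v i0).2 r : ZMod q)) = x.2
          rw [hvt]
          funext r
          simp
        rw [h1]
      · have h1 := d43_lam S q i 1 (v i)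
        rw [one_zsmul, hvj i h] at h1
        rw [d43_vz, h1]
        simp)
    (fun x hx => absurd (mem_univ x) hx) (fun _ _ _ _ _ => mem_univ _)
  rw [e4] at key
  refine key.trans (mul_le_mul_of_nonneg_left ?_ (by positivity))
  rw [← Finset.sum_div]
  refine div_le_div_of_nonneg_right ?_ (by positivity)
  rw [Finset.sum_comm]
  refine Finset.sum_le_sum fun j _ => ?_
  have e6 : ∀ x : ZMod q × (Fin d → ZMod q), DL (List.ofFn fun i => j i • d43_md q (v i)) cc x =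
      DL (List.ofFn fun i => (Λ : ZMod q) * (j i : ZMod q)) (G i0) ((S.a i0 : ZMod q) * x.1 + S.vz q b 0 x.2 i0) := by
    intro x
    have h1 := D11_comp (fun x : ZMod q × (Fin d → ZMod q) => S.vz q b x.1 x.2 i0)
      (fun v => (S.a i0 : ZMod q) * v.1 + ∑ j, (S.c i0 j : ZMod q) * v.2 j) (fun x v => d43_vz S q b i0 x v) (G i0)
      (List.ofFn fun i => j i • d43_md q (v i)) x
    rw [hcc, h1, List.map_ofFn]
    have h2 : ((fun v : ZMod q × (Fin d → ZMod q) => (S.a i0 : ZMod q) * v.1 + ∑ j, (S.c i0 j : ZMod q) * v.2 j) ∘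
        fun i => j i • d43_md q (v i)) = fun i => (Λ : ZMod q) * (j i : ZMod q) := by
      funext i
      show (S.a i0 : ZMod q) * (j i • d43_md q (v i)).1 + ∑ r, (S.c i0 r : ZMod q) * (j i • d43_md q (v i)).2 r = _
      rw [d43_lam, hv0]
    rw [h2]
    have h3 : S.vz q b x.1 x.2 i0 = (S.a i0 : ZMod q) * x.1 + S.vz q b 0 x.2 i0 := by
      unfold Sys.vz
      ring
    rw [h3]
  rw [Finset.sum_congr rfl fun x _ => e6 x, Fintype.sum_prod_type_right]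
  exact norm_sum_le _ _

theorem d43_one {k d : ℕ} (S : Sys k d) (hS : SysFin S) (i0 : Fin k) (C0 c : ℝ) (hC0 : 0 < C0)
    (hU : ∀ (q : ℕ) [NeZero q] (χ : DirichletCharacter ℂ q), χ.IsPrimitive →
      ∑ h : Fin (k + 1) → ZMod q, ‖∑ y : ZMod q, DL (List.ofFn h) (fun y => χ y) y‖ ≤
        C0 * (q : ℝ) ^ (((k + 1 : ℕ) : ℝ) + 1 - c)) :
    ∃ C : ℝ, 1 ≤ C ∧ ∀ (q : ℕ) [NeZero q] (b : Fin k → ℤ) (G : Fin k → ZMod q → ℂ), (∀ i x, ‖G i x‖ ≤ 1) →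
    ∀ (χ : DirichletCharacter ℂ q) (z : ℂ), χ.IsPrimitive → ‖z‖ ≤ 1 → (∀ x, G i0 x = z * (starRingEnd ℂ) (χ x)) →
    FZ S q b G ≤ (q : ℝ) ^ (d + 1) * (C * (q : ℝ) ^ (-(c / 2 ^ (k + 1)))) := by
  obtain ⟨Λ, hΛ, v, hv0, hvj, hvt⟩ := D14_vec S hS i0
  obtain ⟨A, hA⟩ : ∃ A : ℝ, A = 4 ^ k * |(Λ : ℝ)| ^ k * |(S.a i0 : ℝ)| ^ 2 * C0 := ⟨_, rfl⟩
  have hA0 : 0 ≤ A := by rw [hA]; positivity
  obtain ⟨C2, hC2⟩ : ∃ C2 : ℝ, C2 = 2 ^ (2 ^ k) * Real.sqrt A := ⟨_, rfl⟩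
  have hC20 : 0 ≤ C2 := by rw [hC2]; positivity
  refine ⟨max 1 (C2 ^ ((1 : ℝ) / 2 ^ k)), le_max_left _ _, ?_⟩
  intro q _ b G hG χ z hχ hz hGz
  have hq0 : (0 : ℝ) < q := by exact_mod_cast Nat.pos_of_ne_zero (NeZero.ne q)
  have hGf : G i0 = fun x => z * (starRingEnd ℂ) (χ x) := funext hGz
  have hcore := d43_core S i0 Λ v hv0 hvj hvt q b G hG
  -- for each t
  have ht : ∀ t : Fin d → ZMod q, ∑ j ∈ bxS k q, ‖∑ n : ZMod q, DL (List.ofFn fun i => (Λ : ZMod q) * (j i : ZMod q)) (G i0)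
        ((S.a i0 : ZMod q) * n + S.vz q b 0 t i0)‖ ≤ Real.sqrt A * (q : ℝ) ^ ((k : ℝ) + 1 - c / 2) := by
    intro t
    obtain ⟨Φ, hΦ⟩ : ∃ Φ : (Fin k → ZMod q) → ℝ, Φ = fun h => ‖∑ n : ZMod q, DL (List.ofFn h) (G i0)
        ((S.a i0 : ZMod q) * n + S.vz q b 0 t i0)‖ ^ 2 := ⟨_, rfl⟩
    have hΦ0 : ∀ h, 0 ≤ Φ h := by
      intro h
      rw [hΦ]
      positivity
    have s1 : ∑ j ∈ bxS k q, Φ (fun i => (Λ : ZMod q) * (j i : ZMod q)) ≤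
        2 ^ k * ∑ h : Fin k → ZMod q, Φ (fun i => (Λ : ZMod q) * h i) :=
      D41_cover k q (fun h => Φ (fun i => (Λ : ZMod q) * h i)) fun h => hΦ0 _
    have s2 := D41_mul k q Λ hΛ Φ hΦ0
    have s3 : ∑ h : Fin k → ZMod q, Φ h ≤
        |(S.a i0 : ℝ)| ^ 2 * ∑ h : Fin (k + 1) → ZMod q, ‖∑ y : ZMod q, DL (List.ofFn h) (G i0) y‖ := by
      rw [hΦ]
      exact D42_base k q (G i0) (S.a i0) (hS.1 i0) _
    have s4 : ∑ h : Fin (k + 1) → ZMod q, ‖∑ y : ZMod q, DL (List.ofFn h) (G i0) y‖ ≤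
        C0 * (q : ℝ) ^ (((k + 1 : ℕ) : ℝ) + 1 - c) := by
      refine (Finset.sum_le_sum fun h _ => ?_).trans (hU q χ hχ)
      rw [hGf]
      exact D42_conj z hz (fun y => χ y) (List.ofFn h)
    have s5 : ∑ j ∈ bxS k q, Φ (fun i => (Λ : ZMod q) * (j i : ZMod q)) ≤
        2 ^ k * (|(Λ : ℝ)| ^ k * (|(S.a i0 : ℝ)| ^ 2 * (C0 * (q : ℝ) ^ (((k + 1 : ℕ) : ℝ) + 1 - c)))) := by
      refine s1.trans (mul_le_mul_of_nonneg_left (s2.trans (mul_le_mul_of_nonneg_left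
        (s3.trans (mul_le_mul_of_nonneg_left s4 (by positivity))) (by positivity))) (by positivity))
    have s6 := d43_cs (bxS k q) (fun j => ‖∑ n : ZMod q, DL (List.ofFn fun i => (Λ : ZMod q) * (j i : ZMod q)) (G i0)
        ((S.a i0 : ZMod q) * n + S.vz q b 0 t i0)‖) (fun j _ => norm_nonneg _) ((2 * q) ^ k)
        (2 ^ k * (|(Λ : ℝ)| ^ k * (|(S.a i0 : ℝ)| ^ 2 * (C0 * (q : ℝ) ^ (((k + 1 : ℕ) : ℝ) + 1 - c))))) (d43_card k q)
        (by rw [hΦ] at s5; exact s5)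
    refine s6.trans (le_of_eq ?_)
    have s7 : (2 * (q : ℝ)) ^ k * (2 ^ k * (|(Λ : ℝ)| ^ k * (|(S.a i0 : ℝ)| ^ 2 *
        (C0 * (q : ℝ) ^ (((k + 1 : ℕ) : ℝ) + 1 - c))))) = A * ((q : ℝ) ^ ((k : ℝ) + 1 - c / 2)) ^ 2 := by
      have s8 : ((q : ℝ) ^ ((k : ℝ) + 1 - c / 2)) ^ 2 = (q : ℝ) ^ k * (q : ℝ) ^ (((k + 1 : ℕ) : ℝ) + 1 - c) := by
        rw [← Real.rpow_natCast ((q : ℝ) ^ ((k : ℝ) + 1 - c / 2)) 2, ← Real.rpow_mul hq0.le,
          ← Real.rpow_natCast (q : ℝ) k, ← Real.rpow_add hq0]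
        push_cast
        ring_nf
      rw [s8, hA, mul_pow]
      have s9 : (4 : ℝ) ^ k = 2 ^ k * 2 ^ k := by
        rw [← mul_pow]
        norm_num
      rw [s9]
      ring
    rw [s7, Real.sqrt_mul hA0, Real.sqrt_sq (by positivity)]
  have hsum : ∑ t : Fin d → ZMod q, ∑ j ∈ bxS k q, ‖∑ n : ZMod q, DL (List.ofFn fun i => (Λ : ZMod q) * (j i : ZMod q)) (G i0)
        ((S.a i0 : ZMod q) * n + S.vz q b 0 t i0)‖ ≤ (q : ℝ) ^ d * (Real.sqrt A * (q : ℝ) ^ ((k : ℝ) + 1 - c / 2)) := by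
    refine (Finset.sum_le_sum fun t _ => ht t).trans (le_of_eq ?_)
    rw [Finset.sum_const, Finset.card_univ, Fintype.card_fun, ZMod.card, Fintype.card_fin, nsmul_eq_mul]
    push_cast
    ring
  have hpow : (FZ S q b G / (q : ℝ) ^ (d + 1)) ^ (2 ^ k) ≤ C2 * (q : ℝ) ^ (-(c / 2)) := by
    refine hcore.trans ((mul_le_mul_of_nonneg_left (div_le_div_of_nonneg_right hsum (by positivity))
      (by positivity)).trans (le_of_eq ?_))
    have r1 : (q : ℝ) ^ ((k : ℝ) + 1 - c / 2) = (q : ℝ) ^ k * q * (q : ℝ) ^ (-(c / 2)) := by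
      rw [← Real.rpow_natCast (q : ℝ) k, ← Real.rpow_add_one hq0.ne', ← Real.rpow_add hq0]
      ring_nf
    rw [r1, hC2]
    field_simp
    ring
  obtain ⟨Y, hY⟩ : ∃ Y : ℝ, Y = C2 ^ ((1 : ℝ) / 2 ^ k) * (q : ℝ) ^ (-(c / 2 ^ (k + 1))) := ⟨_, rfl⟩
  have hY0 : 0 ≤ Y := by rw [hY]; positivity
  have hYp : Y ^ (2 ^ k) = C2 * (q : ℝ) ^ (-(c / 2)) := by
    rw [hY, mul_pow, ← Real.rpow_natCast (C2 ^ ((1 : ℝ) / 2 ^ k)), ← Real.rpow_mul hC20,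
      ← Real.rpow_natCast ((q : ℝ) ^ (-(c / 2 ^ (k + 1)))), ← Real.rpow_mul hq0.le]
    have r2 : (1 : ℝ) / 2 ^ k * ((2 ^ k : ℕ) : ℝ) = 1 := by
      push_cast
      field_simp
    have r3 : -(c / 2 ^ (k + 1)) * ((2 ^ k : ℕ) : ℝ) = -(c / 2) := by
      push_cast
      rw [pow_succ]
      field_simp
    rw [r2, r3, Real.rpow_one]
  have hx : FZ S q b G / (q : ℝ) ^ (d + 1) ≤ Y :=
    le_of_pow_le_pow_left₀ (by positivity) hY0 (hpow.trans (le_of_eq hYp.symm))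
  rw [div_le_iff₀ (by positivity)] at hx
  refine hx.trans ?_
  rw [mul_comm]
  refine mul_le_mul_of_nonneg_left ?_ (by positivity)
  rw [hY]
  exact mul_le_mul_of_nonneg_right (le_max_right _ _) (by positivity)

/-- **The local first moment.** Proof. `Γ = ZMod q × (Fin d → ZMod q)`. `FZ = ‖∑_{z ∈ Γ} ∏_i g i z * c z‖` with `c z = G i0 (vz z)`, `g j z = G j (vz z)` for
`j ≠ i0`, `g i0 z = w(z.2)` unimodular (`l2_w` in `H9U/L2.lean`). The vectors `v_j` of `D14_vec` modulo `q`. `E1_elim` with `B = B' = univ`, `N = q^(d+1)`,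
`H = q`, `r = k` (the group `Γ` is finite; `card Γ = q^(d+1)`): by `D11_comp` (`φ z = vz z`, `lam` the linear part over `ZMod q`)
`DL (ofFn (j • v)) c z = DL (ofFn (Λ j)) (G i0) (vz z)`, and `vz z = a n + c_t`. So the right side is at most
`2^(2^k)/q^k · ∑_t ∑_{j ∈ bxS k q} ‖∑_n DL (ofFn (Λ j)) (G i0) (a n + c_t)‖ / q^(d+1)`. For each `t`, Cauchy-Schwarz (at most `(2q)^k` values `j`), `D41_cover`,
`D41_mul`, `D42_base`, `D42_conj` and `UCH (k+1)`: the sum over `j` is at most `((2q)^k 2^k |Λ|^k |a|² C q^(k+2-c))^(1/2) = C1 q^(k+1-c/2)`.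
Hence `(FZ/q^(d+1))^(2^k) ≤ C2 q^(-c/2)` and `FZ ≤ C3 q^(d+1) q^(-c/2^(k+1))`; `C3` the maximum over `i0`. -/
theorem D43_loc {k d : ℕ} (S : Sys k d) (hS : SysFin S) (hU : UCH (k + 1)) : ∃ C c : ℝ, 1 ≤ C ∧ 0 < c ∧ c ≤ 1 ∧
    ∀ (q : ℕ) [NeZero q] (b : Fin k → ℤ) (G : Fin k → ZMod q → ℂ), (∀ i x, ‖G i x‖ ≤ 1) → ∀ i0 : Fin k,
    ∀ (χ : DirichletCharacter ℂ q) (z : ℂ), χ.IsPrimitive → ‖z‖ ≤ 1 → (∀ x, G i0 x = z * (starRingEnd ℂ) (χ x)) →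
    FZ S q b G ≤ (q : ℝ) ^ (d + 1) * (C * (q : ℝ) ^ (-c)) := by
  obtain ⟨C0, c, hC0, hc, hc1, hχ⟩ := hU
  choose Cf hCf1 hCf using fun i0 : Fin k => d43_one S hS i0 C0 c hC0 hχ
  refine ⟨1 + ∑ i, Cf i, c / 2 ^ (k + 1), ?_, by positivity, ?_, ?_⟩
  · have : 0 ≤ ∑ i, Cf i := Finset.sum_nonneg fun i _ => zero_le_one.trans (hCf1 i)
    linarith
  · have h1 : (1 : ℝ) ≤ 2 ^ (k + 1) := one_le_pow₀ (by norm_num)
    exact (div_le_self hc.le h1).trans hc1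
  · intro q _ b G hG i0 χ z hχ' hz hGz
    have hq0 : (0 : ℝ) < q := by exact_mod_cast Nat.pos_of_ne_zero (NeZero.ne q)
    refine (hCf i0 q b G hG χ z hχ' hz hGz).trans (mul_le_mul_of_nonneg_left
      (mul_le_mul_of_nonneg_right ?_ (by positivity)) (by positivity))
    have h1 : Cf i0 ≤ ∑ i, Cf i :=
      Finset.single_le_sum (f := Cf) (fun i _ => zero_le_one.trans (hCf1 i)) (mem_univ i0)
    linarith

end Pool.Agent.HUK
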