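import Pool.Agent.Lib.HUK.D43
import Pool.Agent.Lib.H9U.L3

/-!
# Project HUK, chunk D44: the local factors at the primes dividing the conductors (copy of `H9U/L3`)
-/

open Finset

namespace Pool.Agent.HUK

open Pool.Agent.H9U
open Pool.Agent.Lib.H59P (Ch bx)
open Pool.Agent.Lib.H59T (UU Rm Pm Kp dof tau lf)

/-- The bound for one prime power. -/
theorem d44_one {k d : ℕ} (S : Sys k d) (E ρ : ℝ) (hE : ∀ (q : ℕ) [NeZero q] (b : Fin k → ℤ) (G : Fin k → ZMod q → ℂ),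
    (∀ i x, ‖G i x‖ ≤ 1) → ∀ i0 : Fin k, ∀ (χ : DirichletCharacter ℂ q) (z : ℂ), χ.IsPrimitive → ‖z‖ ≤ 1 →
    (∀ x, G i0 x = z * (starRingEnd ℂ) (χ x)) → FZ S q b G ≤ (q : ℝ) ^ (d + 1) * (E * (q : ℝ) ^ (-ρ)))
    (b : Fin k → ℤ) (l a : ℕ) (hl : l.Prime) (χ : DirichletCharacter ℂ (l ^ a))
    (hχ : χ.IsPrimitive) (c : ℝ) (hc : |c| ≤ 2) (g : Fin k → ℤ → ℂ)
    (hp : ∀ i m, g i (m + (l ^ a : ℕ)) = g i m) (hb : ∀ i m, ‖g i m‖ ≤ 2) (i0 : Fin k)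
    (h : ∀ m : ℤ, g i0 m = c * (starRingEnd ℂ) (χ (m : ZMod (l ^ a)))) :
    FM S (l ^ a) b g ≤ ((l ^ a : ℕ) : ℝ) ^ (d + 1) * (2 ^ k * E * ((l ^ a : ℕ) : ℝ) ^ (-ρ)) := by
  have hne : NeZero (l ^ a) := ⟨pow_ne_zero _ hl.ne_zero⟩
  have hn2 : ‖(2 : ℂ)‖ = 2 := by simp
  choose G hG using fun i => Pool.Agent.Lib.H59T.C3_fun (l ^ a) (g i) (hp i)
  have hs : ∀ t : ZMod (l ^ a), ∃ m : ℤ, (m : ZMod (l ^ a)) = t := fun t => ZMod.intCast_surjective t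
  have bG : ∀ i t, ‖G i t‖ ≤ 2 := by
    intro i t
    obtain ⟨m, rfl⟩ := hs t
    rw [← hG]
    exact hb i m
  have hG0 : ∀ t, G i0 t = c * (starRingEnd ℂ) (χ t) := by
    intro t
    obtain ⟨m, rfl⟩ := hs t
    rw [← hG]
    exact h m
  have u1 := hE (l ^ a) b (fun i t => G i t / 2) (fun i t => by
    rw [norm_div, hn2]
    have := bG i t
    linarith) i0 χ ((c : ℂ) / 2) hχ (by
      rw [norm_div, hn2, Complex.norm_real, Real.norm_eq_abs]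
      linarith) (fun x => by
      rw [hG0]
      ring)
  rw [L2T S (l ^ a) b g G (fun i m => hG i m), l3_scale]
  have h2k : (0 : ℝ) ≤ 2 ^ k := by positivity
  calc (2 : ℝ) ^ k * FZ S (l ^ a) b (fun i t => G i t / 2) ≤
      2 ^ k * (((l ^ a : ℕ) : ℝ) ^ (d + 1) * (E * ((l ^ a : ℕ) : ℝ) ^ (-ρ))) := mul_le_mul_of_nonneg_left u1 h2k
    _ = _ := by ring

theorem D44_pow {k d : ℕ} (S : Sys k d) (hS : SysFin S) (hU : UCH (k + 1)) : ∃ (A : ℕ) (ρ : ℝ), 0 < ρ ∧ ρ ≤ 1 ∧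
    ∀ (b : Fin k → ℤ) (p : Fin k → Ch), Pm p →
    ∀ κ : Fin k → ℕ, Kp p κ → ∀ l : ℕ, l.Prime → l ∣ Rm p →
    FM S (l ^ (Rm p).factorization l) b (fun i => lf (p i) (κ i) l) ≤
      ((l ^ (Rm p).factorization l : ℕ) : ℝ) ^ (d + 1) *
        (2 ^ A * ((l ^ (Rm p).factorization l : ℕ) : ℝ) ^ (-ρ)) := by
  obtain ⟨E, ρ, hE1, hρ, hρ1, hE⟩ := D43_loc S hS hU
  obtain ⟨A, hA⟩ := pow_unbounded_of_one_lt (2 ^ k * E) (by norm_num : (1 : ℝ) < 2)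
  refine ⟨A, ρ, hρ, hρ1, fun b p hp κ _hκ l hl hd => ?_⟩
  have hl2 : (2 : ℝ) ≤ l := by exact_mod_cast hl.two_le
  obtain ⟨h1, h2, i0, h3, h4⟩ := Pool.Agent.Lib.H59T.E7_attained p hp l hl hd
  have hch := Pool.Agent.Lib.H59T.L4_char (p i0) (hp i0).1 (hp i0).2 l hl h4
  rw [h3] at hch
  obtain ⟨χ, hχ, hlf⟩ := hch
  have hc : |(l : ℝ) / ((l : ℝ) - 1)| ≤ 2 := by
    rw [abs_of_nonneg (by apply div_nonneg <;> linarith), div_le_iff₀ (by linarith)]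
    linarith
  have hper : ∀ (i : Fin k) (m : ℤ),
      lf (p i) (κ i) l (m + ((l ^ (Rm p).factorization l : ℕ) : ℤ)) = lf (p i) (κ i) l m := by
    intro i m
    have := Pool.Agent.Lib.H59T.L4_per (p i) (hp i).1 (hp i).2 (κ i) l ((Rm p).factorization l) hl h1 (h2 i) m 1
    rw [mul_one] at this
    rw [← this]
    push_cast
    rfl
  refine (d44_one S E ρ hE b l ((Rm p).factorization l) hl χ hχ _ hc (fun i => lf (p i) (κ i) l)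
    (fun i m => hper i m) (fun i m => Pool.Agent.Lib.H59T.L4_norm _ _ _ hl m) i0 (fun m => hlf (κ i0) m)).trans ?_
  refine mul_le_mul_of_nonneg_left ?_ (by positivity)
  exact mul_le_mul_of_nonneg_right hA.le (by positivity)

end Pool.Agent.HUK
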