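import Pool.Agent.Lib.HUK.DDefs
import Pool.Agent.Lib.H9U.L4

/-!
# Project HUK, chunk D45: the local factors at the other primes (copy of `H9U/L4`)
-/

open Finset

namespace Pool.Agent.HUK

open Pool.Agent.H9U
open Pool.Agent.Lib.H59P (Ch bx)
open Pool.Agent.Lib.H59T (UU Rm Pm Kp dof tau lf glz)

/-- Proof. `M0 = ∏_i |a_i| · ∏_{i ≠ j} |m_ij|`, `m_ij = a_i c_jr - a_j c_ir ≠ 0` for some `r` (`T6S_ne`). `l ∣ M0`: `l ≤ M0`, trivial bound
`l^(d+1)` (`|glz| ≤ 1`) and `2^A ≥ M0²`. `l ∤ M0`: if `I = {i}`, the sum over `n` vanishes (`n ↦ vz n t i` is a bijection,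
`E3_glz` in `H59T/E3.lean`). Else take `i ≠ j` in `I`: `|∏_{I} glz| ≤ |glz(vz i)| |glz(vz j)|`; the sum over `(t, n)` of this is at most the number of
common zeros (`L4_zero`) plus `2 l^d/(l-1)` (exactly one is zero, the other factor is `1/(l-1)`; for given `t` at most two `n`) plus
`l^(d+1)/(l-1)²`: at most `l^(d-1) + 4 l^(d-1) + 4 l^(d-1)`, and `2^A ≥ 9`. -/
theorem D45_gl {k d : ℕ} (S : Sys k d) (ha : ∀ i, S.a i ≠ 0) (hS : MinP S) : ∃ A : ℕ, ∀ (l : ℕ) [Fact l.Prime] (b : Fin k → ℤ)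
    (I : Finset (Fin k)), I.Nonempty →
    ∑ t : Fin d → ZMod l, ‖∑ n : ZMod l, ∏ i ∈ I, ((glz l (S.vz l b n t i) : ℝ) : ℂ)‖ ≤
      (l : ℝ) ^ (d + 1) * (2 ^ A / (l : ℝ) ^ 2) := by
  have hex : ∀ i j : Fin k, ∃ m : ℤ, m ≠ 0 ∧ (i ≠ j → ∃ r : Fin d, S.a i * S.c j r - S.a j * S.c i r = m) := by
    intro i j
    by_cases hij : i = j
    · exact ⟨1, one_ne_zero, fun h => absurd hij h⟩
    · obtain ⟨r, hr⟩ := hS i j hij
      exact ⟨_, hr, fun _ => ⟨r, rfl⟩⟩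
  choose m hm0 hm using hex
  obtain ⟨M, hM⟩ : ∃ M : ℤ, M = (∏ i, S.a i) * ∏ i, ∏ j, m i j := ⟨_, rfl⟩
  have hM0 : M ≠ 0 := by
    rw [hM]
    exact mul_ne_zero (Finset.prod_ne_zero_iff.2 fun i _ => ha i)
      (Finset.prod_ne_zero_iff.2 fun i _ => Finset.prod_ne_zero_iff.2 fun j _ => hm0 i j)
  refine ⟨M.natAbs ^ 2 + 4, fun l hlf b I hI => ?_⟩
  have hl := hlf.out
  have h2 : (2:ℝ) ≤ l := by exact_mod_cast hl.two_le
  have hl0 : (0:ℝ) < l := by linarith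
  by_cases hlM : (l : ℤ) ∣ M
  · have h3 : l ≤ M.natAbs := Nat.le_of_dvd (Int.natAbs_pos.2 hM0) (Int.natCast_dvd.1 hlM)
    have h4 : l ^ 2 ≤ 2 ^ (M.natAbs ^ 2 + 4) := by
      calc l ^ 2 ≤ M.natAbs ^ 2 := Nat.pow_le_pow_left h3 2
        _ ≤ 2 ^ (M.natAbs ^ 2) := Nat.lt_two_pow_self.le
        _ ≤ 2 ^ (M.natAbs ^ 2 + 4) := Nat.pow_le_pow_right (by norm_num) (by omega)
    have h5 : (l : ℝ) ^ 2 ≤ 2 ^ (M.natAbs ^ 2 + 4) := by exact_mod_cast h4
    refine (l4_triv S l b I).trans ?_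
    have h6 : 1 ≤ (2:ℝ) ^ (M.natAbs ^ 2 + 4) / (l : ℝ) ^ 2 := by
      rw [le_div_iff₀ (by positivity), one_mul]
      exact h5
    calc (l : ℝ) ^ (d + 1) = (l : ℝ) ^ (d + 1) * 1 := (mul_one _).symm
      _ ≤ _ := mul_le_mul_of_nonneg_left h6 (by positivity)
  · have hla : ∀ i, ((S.a i : ℤ) : ZMod l) ≠ 0 := by
      intro i h
      rw [ZMod.intCast_zmod_eq_zero_iff_dvd] at h
      apply hlM
      rw [hM]
      exact dvd_mul_of_dvd_left (h.trans (Finset.dvd_prod_of_mem _ (Finset.mem_univ i))) _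
    have hlm : ∀ i j, ((m i j : ℤ) : ZMod l) ≠ 0 := by
      intro i j h
      rw [ZMod.intCast_zmod_eq_zero_iff_dvd] at h
      apply hlM
      rw [hM]
      refine dvd_mul_of_dvd_right ?_ _
      have h3 : m i j ∣ ∏ j, m i j := Finset.dvd_prod_of_mem _ (Finset.mem_univ j)
      have h4 : ∏ j, m i j ∣ ∏ i, ∏ j, m i j := Finset.dvd_prod_of_mem (fun i => ∏ j, m i j) (Finset.mem_univ i)
      exact h.trans (h3.trans h4)
    obtain ⟨i, hi⟩ := hI
    by_cases hone : ∃ j ∈ I, i ≠ j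
    · obtain ⟨j, hj, hij⟩ := hone
      obtain ⟨r, hr⟩ := hm i j hij
      refine (l4_two S l b I hi hj hij (hla i) (hla j) r (by rw [hr]; exact hlm i j)).trans ?_
      refine mul_le_mul_of_nonneg_left ?_ (by positivity)
      refine div_le_div_of_nonneg_right ?_ (by positivity)
      calc (9:ℝ) ≤ 2 ^ 4 := by norm_num
        _ ≤ 2 ^ (M.natAbs ^ 2 + 4) := pow_le_pow_right₀ (by norm_num) (by omega)
    · push Not at hone
      have hIi : I = {i} := by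
        ext j
        rw [Finset.mem_singleton]
        constructor
        · intro hj
          exact (hone j hj).symm
        · intro hj
          rw [hj]
          exact hi
      have h7 : ∑ t : Fin d → ZMod l, ‖∑ n : ZMod l, ∏ i ∈ I, ((glz l (S.vz l b n t i) : ℝ) : ℂ)‖ = 0 := by
        refine Finset.sum_eq_zero fun t _ => ?_
        rw [hIi]
        simp only [Finset.prod_singleton]
        rw [l4_bij S l b i (hla i) t (fun s => ((glz l s : ℝ) : ℂ)), ← Complex.ofReal_sum, Pool.Agent.Lib.H59T.E3_glz]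
        simp
      rw [h7]
      positivity

/-- Proof. `l ∤ Rm p`, so `l` divides no `(p i).1` and `lf (p i) (κ i) l m` is `gl l m` if `l ∣ κ i` and `1` else; `C3_gl`, `L2T` with
`G i = if l ∣ κ i then glz l else 1`, and `L4_gl` with `I = {i : l ∣ κ i}` (`Finset.prod_filter`). -/
theorem D45_out {k d : ℕ} (S : Sys k d) (ha : ∀ i, S.a i ≠ 0) (hS : MinP S) : ∃ A : ℕ, ∀ (b : Fin k → ℤ) (p : Fin k → Ch), Pm p →
    ∀ κ : Fin k → ℕ, Kp p κ → ∀ l : ℕ, l.Prime → ¬ l ∣ Rm p → (∃ i, l ∣ κ i) →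
    FM S l b (fun i => lf (p i) (κ i) l) ≤ (l : ℝ) ^ (d + 1) * (2 ^ A / (l : ℝ) ^ 2) := by
  obtain ⟨A, hA⟩ := D45_gl S ha hS
  refine ⟨A, fun b p hp κ hκ l hl hlR hex => ?_⟩
  have hlf : Fact l.Prime := ⟨hl⟩
  have hl0 : NeZero l := ⟨hl.ne_zero⟩
  have hlp : ∀ i, ¬ l ∣ (p i).1 := fun i h =>
    hlR (h.trans (Finset.dvd_lcm (Finset.mem_univ i)))
  rw [L2T S l b (fun i => lf (p i) (κ i) l) (fun i s => if l ∣ κ i then ((glz l s : ℝ) : ℂ) else 1) (fun i m => by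
    unfold Pool.Agent.Lib.H59T.lf
    rw [if_neg (hlp i), Pool.Agent.Lib.H59T.C3_gl])]
  have h := hA l b (univ.filter fun i => l ∣ κ i) (by
    obtain ⟨i, hi⟩ := hex
    exact ⟨i, Finset.mem_filter.2 ⟨Finset.mem_univ i, hi⟩⟩)
  refine le_trans (le_of_eq ?_) h
  unfold FZ
  refine Finset.sum_congr rfl fun t _ => congrArg norm (Finset.sum_congr rfl fun n _ => ?_)
  rw [Finset.prod_filter]

end Pool.Agent.HUK
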