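import Pool.Agent.Lib.HUK.Defs

/-!
# Project HUK, chunk E0 (S/M): one Cauchy-Schwarz step in an additive group (only `Defs`)
-/

open Finset

namespace Pool.Agent.HUK

theorem e0_inv {G : Type*} [AddCommGroup G] (v : G) (g : G → ℂ) (hinv : ∀ z, g (z + v) = g z) (h : ℕ) (z : G) :
    g (z + h • v) = g z := by
  induction h with
  | zero => rw [zero_smul, add_zero]
  | succ n ih => rw [succ_nsmul, ← add_assoc, hinv, ih]

/-- Substitution of `z + h • v`. -/
theorem e0_shift {G : Type*} [AddCommGroup G] [DecidableEq G] (B B' : Finset G) (H : ℕ) (v : G) (F : G → ℂ)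
    (hB : ∀ z, ∀ h : ℕ, h < H → z + h • v ∈ B → z ∈ B') (hF : ∀ z, z ∉ B → F z = 0) (h : ℕ) (hh : h < H) :
    ∑ z ∈ B', F (z + h • v) = ∑ z ∈ B, F z := by
  have h1 : ∑ z ∈ B', F (z + h • v) = ∑ z ∈ B'.filter (fun z => z + h • v ∈ B), F (z + h • v) := by
    rw [Finset.sum_filter]
    refine Finset.sum_congr rfl fun z _ => ?_
    by_cases h2 : z + h • v ∈ B
    · rw [if_pos h2]
    · rw [if_neg h2, hF _ h2]
  rw [h1]
  refine Finset.sum_nbij' (fun z => z + h • v) (fun w => w - h • v) ?_ ?_ ?_ ?_ ?_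
  · intro z hz
    exact (mem_filter.1 hz).2
  · intro w hw
    have e1 : w - h • v + h • v = w := sub_add_cancel _ _
    rw [mem_filter]
    refine ⟨hB _ h hh ?_, ?_⟩
    · rw [e1]
      exact hw
    · rw [e1]
      exact hw
  · intro z _
    exact add_sub_cancel_right _ _
  · intro w _
    exact sub_add_cancel _ _
  · intro z _
    rfl

theorem e0_card (H : ℕ) (j : ℤ) (hj : j ∈ Ioo (-(H : ℤ)) H) :
    (((range H ×ˢ range H).filter fun p : ℕ × ℕ => (p.2 : ℤ) - p.1 = j).card : ℝ) = H * fw H j := by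
  rw [mem_Ioo] at hj
  have h1 : ((range H ×ˢ range H).filter fun p : ℕ × ℕ => (p.2 : ℤ) - p.1 = j).card = (range (H - j.natAbs)).card := by
    refine Finset.card_nbij' (fun p => min p.1 p.2) (fun m => if 0 ≤ j then (m, m + j.natAbs) else (m + j.natAbs, m))
      ?_ ?_ ?_ ?_
    · intro p hp
      simp only [coe_filter, mem_product, mem_range, Set.mem_ofPred_eq, coe_range, Set.mem_Iio] at hp ⊢
      omega
    · intro m hm
      simp only [coe_filter, mem_product, mem_range, Set.mem_ofPred_eq, coe_range, Set.mem_Iio] at hm ⊢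
      by_cases h0 : 0 ≤ j
      · rw [if_pos h0]
        simp only [Nat.cast_add]
        omega
      · rw [if_neg h0]
        simp only [Nat.cast_add]
        omega
    · intro p hp
      simp only [coe_filter, mem_product, mem_range, Set.mem_ofPred_eq] at hp
      by_cases h0 : 0 ≤ j
      · simp only [if_pos h0]
        refine Prod.ext ?_ ?_
        · simp only
          omega
        · simp only
          omega
      · simp only [if_neg h0]
        refine Prod.ext ?_ ?_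
        · simp only
          omega
        · simp only
          omega
    · intro m hm
      by_cases h0 : 0 ≤ j
      · simp only [if_pos h0]
        omega
      · simp only [if_neg h0]
        omega
  rw [h1, card_range]
  have h2 : j.natAbs ≤ H := by omega
  have hH : (0 : ℝ) < H := by
    have : 0 < H := by omega
    exact_mod_cast this
  have h3 : |(j : ℝ)| = (j.natAbs : ℝ) := by
    rw [Nat.cast_natAbs, Int.cast_abs]
  have h4 : ((j.natAbs : ℕ) : ℝ) ≤ H := by exact_mod_cast h2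
  rw [Nat.cast_sub h2]
  unfold fw
  rw [h3, max_eq_right]
  · field_simp
  · rw [sub_nonneg, div_le_one hH]
    exact h4

/-- Pairs with difference `j`. -/
theorem e0_pairs (H : ℕ) (φ : ℤ → ℂ) : ∑ h ∈ range H, ∑ h' ∈ range H, φ ((h' : ℤ) - h) =
    H * ∑ j ∈ Ioo (-(H : ℤ)) H, ((fw H j : ℝ) : ℂ) * φ j := by
  rw [← Finset.sum_product' (range H) (range H) (fun h h' : ℕ => φ ((h' : ℤ) - h))]
  rw [← Finset.sum_fiberwise_of_maps_to (t := Ioo (-(H : ℤ)) H) (g := fun p : ℕ × ℕ => (p.2 : ℤ) - p.1)]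
  · rw [Finset.mul_sum]
    refine Finset.sum_congr rfl fun j hj => ?_
    have h1 : ∀ p ∈ (range H ×ˢ range H).filter (fun p : ℕ × ℕ => (p.2 : ℤ) - p.1 = j),
        φ ((p.2 : ℤ) - p.1) = φ j := by
      intro p hp
      rw [(mem_filter.1 hp).2]
    rw [Finset.sum_congr rfl h1, Finset.sum_const, nsmul_eq_mul, ← mul_assoc]
    congr 1
    have h2 := e0_card H j hj
    have h3 : ((((range H ×ˢ range H).filter fun p : ℕ × ℕ => (p.2 : ℤ) - p.1 = j).card : ℝ) : ℂ) =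
        ((H * fw H j : ℝ) : ℂ) := by rw [h2]
    push_cast at h3
    exact h3
  · intro p hp
    simp only [mem_product, mem_range] at hp
    rw [mem_Ioo]
    omega

theorem e0_sq (s : Finset ℕ) (a : ℕ → ℂ) : ((‖∑ h ∈ s, a h‖ ^ 2 : ℝ) : ℂ) =
    ∑ h ∈ s, ∑ h' ∈ s, a h * (starRingEnd ℂ) (a h') := by
  have h1 : ((‖∑ h ∈ s, a h‖ ^ 2 : ℝ) : ℂ) = (∑ h ∈ s, a h) * (starRingEnd ℂ) (∑ h ∈ s, a h) := by
    rw [Complex.mul_conj, Complex.normSq_eq_norm_sq]
  rw [h1, map_sum, Finset.sum_mul_sum]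

/-- Proof. For every `h < H`, substituting `z + h • v` for `z` and `g (z + h • v) = g z`: `∑_{z ∈ B} g z u z = ∑_{z ∈ B'} g z u (z + h • v)`
(terms which are not `0` have `z + h • v ∈ B`, so `z ∈ B'`). Average over `h < H`, Cauchy-Schwarz over `z ∈ B'` (`‖g‖ ≤ 1`):
`‖S‖² ≤ (|B'| / H²) ∑_{z ∈ B'} ‖∑_{h<H} u (z + h • v)‖²`, and the last sum is
`∑_{h,h'<H} ∑_{z ∈ B'} u (z + h • v) conj u (z + h' • v) = ∑_{h,h'<H} ∑_{w ∈ B} u w conj u (w + (h' - h) • v)`. Every `j = h' - h ∈ (-H, H)` occurs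
`H - |j|` times, i.e. `H * fw H j` times. First the form without absolute values. -/
theorem E0_real {G : Type*} [AddCommGroup G] [DecidableEq G] (B B' : Finset G) (N : ℝ) (hN : (B'.card : ℝ) ≤ N) (H : ℕ)
    (hH : 0 < H) (v : G) (g u : G → ℂ) (hg : ∀ z, ‖g z‖ ≤ 1) (hinv : ∀ z, g (z + v) = g z) (hu : ∀ z, z ∉ B → u z = 0)
    (hB : ∀ z, ∀ h : ℕ, h < H → z + h • v ∈ B → z ∈ B') :
    ‖∑ z ∈ B, g z * u z‖ ^ 2 ≤
      N / H * (∑ j ∈ Ioo (-(H : ℤ)) H, ((fw H j : ℝ) : ℂ) * ∑ z ∈ B, DD (j • v) u z).re := by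
  have hHr : (0 : ℝ) < H := by exact_mod_cast hH
  have hHc : (H : ℂ) ≠ 0 := by exact_mod_cast hH.ne'
  -- the averaged sum
  have h1 : (H : ℂ) * ∑ z ∈ B, g z * u z = ∑ z ∈ B', g z * ∑ h ∈ range H, u (z + h • v) := by
    have h2 : ∀ h ∈ range H, ∑ z ∈ B', g z * u (z + h • v) = ∑ z ∈ B, g z * u z := by
      intro h hh
      rw [← e0_shift B B' H v (fun z => g z * u z) hB (fun z hz => by simp only [hu z hz, mul_zero]) h
        (mem_range.1 hh)]
      refine Finset.sum_congr rfl fun z _ => ?_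
      simp only [e0_inv v g hinv]
    calc (H : ℂ) * ∑ z ∈ B, g z * u z = ∑ h ∈ range H, ∑ z ∈ B', g z * u (z + h • v) := by
          rw [Finset.sum_congr rfl h2, Finset.sum_const, card_range, nsmul_eq_mul]
      _ = ∑ z ∈ B', g z * ∑ h ∈ range H, u (z + h • v) := by
          rw [Finset.sum_comm]
          refine Finset.sum_congr rfl fun z _ => ?_
          rw [Finset.mul_sum]
  -- Cauchy-Schwarz
  have h3 : (H : ℝ) ^ 2 * ‖∑ z ∈ B, g z * u z‖ ^ 2 ≤ N * ∑ z ∈ B', ‖∑ h ∈ range H, u (z + h • v)‖ ^ 2 := by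
    have h4 : (H : ℝ) * ‖∑ z ∈ B, g z * u z‖ ≤ ∑ z ∈ B', 1 * ‖∑ h ∈ range H, u (z + h • v)‖ := by
      have h5 : (H : ℝ) * ‖∑ z ∈ B, g z * u z‖ = ‖(H : ℂ) * ∑ z ∈ B, g z * u z‖ := by
        rw [norm_mul, Complex.norm_natCast]
      rw [h5, h1]
      refine (norm_sum_le _ _).trans (Finset.sum_le_sum fun z _ => ?_)
      rw [norm_mul]
      exact mul_le_mul_of_nonneg_right (hg z) (norm_nonneg _)
    have h6 : (∑ z ∈ B', 1 * ‖∑ h ∈ range H, u (z + h • v)‖) ^ 2 ≤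
        (∑ z ∈ B', (1 : ℝ) ^ 2) * ∑ z ∈ B', ‖∑ h ∈ range H, u (z + h • v)‖ ^ 2 :=
      Finset.sum_mul_sq_le_sq_mul_sq _ _ _
    have h7 : (∑ z ∈ B', (1 : ℝ) ^ 2) = B'.card := by
      rw [Finset.sum_const, one_pow, nsmul_eq_mul, mul_one]
    rw [h7] at h6
    calc (H : ℝ) ^ 2 * ‖∑ z ∈ B, g z * u z‖ ^ 2 = ((H : ℝ) * ‖∑ z ∈ B, g z * u z‖) ^ 2 := by ring
      _ ≤ (∑ z ∈ B', 1 * ‖∑ h ∈ range H, u (z + h • v)‖) ^ 2 := by
          refine pow_le_pow_left₀ (by positivity) h4 2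
      _ ≤ _ := h6
      _ ≤ _ := mul_le_mul_of_nonneg_right hN (Finset.sum_nonneg fun z _ => by positivity)
  -- the squares
  have h8 : ((∑ z ∈ B', ‖∑ h ∈ range H, u (z + h • v)‖ ^ 2 : ℝ) : ℂ) =
      H * ∑ j ∈ Ioo (-(H : ℤ)) H, ((fw H j : ℝ) : ℂ) * ∑ z ∈ B, DD (j • v) u z := by
    rw [Complex.ofReal_sum, ← e0_pairs H (fun j => ∑ z ∈ B, DD (j • v) u z)]
    have h9 : ∀ z ∈ B', ((‖∑ h ∈ range H, u (z + h • v)‖ ^ 2 : ℝ) : ℂ) =
        ∑ h ∈ range H, ∑ h' ∈ range H, u (z + h • v) * (starRingEnd ℂ) (u (z + h' • v)) := by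
      intro z _
      exact e0_sq _ _
    rw [Finset.sum_congr rfl h9, Finset.sum_comm]
    refine Finset.sum_congr rfl fun h hh => ?_
    rw [Finset.sum_comm]
    refine Finset.sum_congr rfl fun h' _ => ?_
    rw [← e0_shift B B' H v (fun z => DD (((h' : ℤ) - h) • v) u z) hB (fun z hz => by
      simp only [DD, hu z hz, zero_mul]) h (mem_range.1 hh)]
    refine Finset.sum_congr rfl fun z _ => ?_
    simp only [DD]
    congr 2
    rw [sub_smul, natCast_zsmul, natCast_zsmul]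
    abel_nf
  have h10 : ∑ z ∈ B', ‖∑ h ∈ range H, u (z + h • v)‖ ^ 2 =
      H * (∑ j ∈ Ioo (-(H : ℤ)) H, ((fw H j : ℝ) : ℂ) * ∑ z ∈ B, DD (j • v) u z).re := by
    have h11 := congrArg Complex.re h8
    rw [Complex.ofReal_re, ← Complex.ofReal_natCast, Complex.re_ofReal_mul] at h11
    exact h11
  rw [h10] at h3
  have h12 : N / H * (∑ j ∈ Ioo (-(H : ℤ)) H, ((fw H j : ℝ) : ℂ) * ∑ z ∈ B, DD (j • v) u z).re =
      (N * (H * (∑ j ∈ Ioo (-(H : ℤ)) H, ((fw H j : ℝ) : ℂ) * ∑ z ∈ B, DD (j • v) u z).re)) / (H : ℝ) ^ 2 := by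
    field_simp
  rw [h12, le_div_iff₀ (by positivity), mul_comm]
  exact h3

theorem e0_fw_nonneg (H : ℕ) (j : ℤ) : 0 ≤ fw H j := le_max_left _ _

theorem e0_fw_le (H : ℕ) (j : ℤ) : fw H j ≤ 1 := by
  unfold fw
  refine max_le zero_le_one ?_
  have : 0 ≤ |(j : ℝ)| / H := by positivity
  linarith

/-- From `E0_real`: the real part is at most the sum of the absolute values, `0 ≤ fw H j ≤ 1`. -/
theorem E0_step {G : Type*} [AddCommGroup G] [DecidableEq G] (B B' : Finset G) (N : ℝ) (hN : (B'.card : ℝ) ≤ N) (H : ℕ)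
    (hH : 0 < H) (v : G) (g u : G → ℂ) (hg : ∀ z, ‖g z‖ ≤ 1) (hinv : ∀ z, g (z + v) = g z) (hu : ∀ z, z ∉ B → u z = 0)
    (hB : ∀ z, ∀ h : ℕ, h < H → z + h • v ∈ B → z ∈ B') :
    ‖∑ z ∈ B, g z * u z‖ ^ 2 ≤ N / H * ∑ j ∈ Ioo (-(H : ℤ)) H, ‖∑ z ∈ B, DD (j • v) u z‖ := by
  have hN0 : 0 ≤ N := (Nat.cast_nonneg _).trans hN
  refine (E0_real B B' N hN H hH v g u hg hinv hu hB).trans ?_
  refine mul_le_mul_of_nonneg_left ?_ (by positivity)
  refine (Complex.re_le_norm _).trans ((norm_sum_le _ _).trans (Finset.sum_le_sum fun j _ => ?_))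
  rw [norm_mul, Complex.norm_real, Real.norm_of_nonneg (e0_fw_nonneg H j)]
  exact (mul_le_mul_of_nonneg_right (e0_fw_le H j) (norm_nonneg _)).trans (one_mul _).le

end Pool.Agent.HUK
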