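import Pool.Agent.Lib.HUK.P0

/-!
# Project HUK, module K (`LKP k`, PROOF.md section 6): definitions for the Gowers norms of characters on `ZMod r`
-/

open Finset

namespace Pool.Agent.HUK

noncomputable section

/-- The product of all vertices `a + ω · j`, in a commutative ring. -/
def QG {A : Type*} [CommRing A] : List A → A → A
  | [], a => a
  | j :: l, a => QG l a * QG l (a + j)

/-- `QG` times the alternating sum of the inverses of the vertices `a + ω · j`, in a commutative ring. -/
def DG {A : Type*} [CommRing A] : List A → A → A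
  | [], _ => 1
  | j :: l, a => DG l a * QG l (a + j) - DG l (a + j) * QG l a

/-- The Fourier coefficient `(1/r) ∑_y f(y) e(-xy/r)`. -/
def ft {r : ℕ} [NeZero r] (f : ZMod r → ℂ) (x : ZMod r) : ℂ := (∑ y, f y * ZMod.stdAddChar (-(x * y))) / r

/-- The power `2^s` of the normalised `U^s` norm on `ZMod r`. -/
def uG {r : ℕ} [NeZero r] (s : ℕ) (f : ZMod r → ℂ) : ℝ :=
  (∑ h : Fin s → ZMod r, ∑ y, DL (List.ofFn h) f y).re / (r : ℝ) ^ (s + 1)

end

end Pool.Agent.HUK
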