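import Pool.Agent.Lib.HUK.K0
import Pool.Agent.Lib.HUK.E1

/-!
# Project HUK, chunk KA0 (S/M): elimination in a finite module over `ZMod q`
-/

open Finset

namespace Pool.Agent.HUK

private theorem ka0_two {q : ℕ} [NeZero q] (t : ZMod q) (x : ℤ) (h1 : -(q : ℤ) < x) (h2 : x < q) (hx : (x : ZMod q) = t) :
    x = (t.val : ℤ) ∨ x = (t.val : ℤ) - q := by
  have hq : (0 : ℤ) < q := by exact_mod_cast Nat.pos_of_ne_zero (NeZero.ne q)
  have h3 : ((t.val : ℤ) : ZMod q) = t := by
    rw [Int.cast_natCast, ZMod.natCast_zmod_val]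
  have h4 : (x : ZMod q) = ((t.val : ℤ) : ZMod q) := by rw [hx, h3]
  rw [ZMod.intCast_eq_intCast_iff_dvd_sub] at h4
  obtain ⟨c, hc⟩ := h4
  have h5 : (t.val : ℤ) < q := by exact_mod_cast ZMod.val_lt t
  have h6 : (0 : ℤ) ≤ (t.val : ℤ) := by positivity
  have h7 : c < 2 := by
    by_contra h
    push Not at h
    nlinarith
  have h8 : -1 < c := by
    by_contra h
    push Not at h
    nlinarith
  have h9 : c = 0 ∨ c = 1 := by omega
  rcases h9 with rfl | rfl
  · left
    linarith
  · right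
    linarith

private theorem ka0_fibre {q : ℕ} [NeZero q] (r : ℕ) (t : Fin r → ZMod q) :
    ((bxS r q).filter fun j => (fun i => ((j i : ℤ) : ZMod q)) = t).card ≤ 2 ^ r := by
  have h1 : ((bxS r q).filter fun j => (fun i => ((j i : ℤ) : ZMod q)) = t) ⊆
      Fintype.piFinset fun i => ({((t i).val : ℤ), ((t i).val : ℤ) - q} : Finset ℤ) := by
    intro j hj
    rw [Finset.mem_filter, bxS, Fintype.mem_piFinset] at hj
    rw [Fintype.mem_piFinset]
    intro i
    rw [Finset.mem_insert, Finset.mem_singleton]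
    have h2 := Finset.mem_Ioo.1 (hj.1 i)
    exact ka0_two (t i) (j i) h2.1 h2.2 (congrFun hj.2 i)
  refine (Finset.card_le_card h1).trans ?_
  rw [Fintype.card_piFinset]
  refine (Finset.prod_le_prod (fun _ _ => Nat.zero_le _) fun i _ => Finset.card_le_two).trans ?_
  simp

private theorem ka0_sum {q : ℕ} [NeZero q] (r : ℕ) (F : (Fin r → ZMod q) → ℝ) (hF : ∀ t, 0 ≤ F t) :
    ∑ j ∈ bxS r q, F (fun i => ((j i : ℤ) : ZMod q)) ≤ 2 ^ r * ∑ t, F t := by
  classical
  rw [← Finset.sum_fiberwise_of_maps_to (s := bxS r q) (t := univ)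
    (g := fun j : Fin r → ℤ => (fun i => ((j i : ℤ) : ZMod q))) (fun _ _ => Finset.mem_univ _), Finset.mul_sum]
  refine Finset.sum_le_sum fun t _ => ?_
  have h1 : ∑ j ∈ (bxS r q).filter (fun j => (fun i => ((j i : ℤ) : ZMod q)) = t), F (fun i => ((j i : ℤ) : ZMod q)) =
      ∑ j ∈ (bxS r q).filter (fun j => (fun i => ((j i : ℤ) : ZMod q)) = t), F t := by
    refine Finset.sum_congr rfl fun j hj => ?_
    rw [(Finset.mem_filter.1 hj).2]
  rw [h1, Finset.sum_const, nsmul_eq_mul]
  refine mul_le_mul_of_nonneg_right ?_ (hF t)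
  exact_mod_cast ka0_fibre r t

/-- Proof. `E1_elim` with `B = B' = univ`, `N = card Z`, `H = q`: the left side is the same, the right side is
`2^(2^r) / q^r * ∑_{j ∈ bxS r q} ‖∑_z DL (List.ofFn fun i => j i • v i) c z‖ / card Z` with integers `-q < j i < q`, and
`(j i : ℤ) • v i = ((j i : ℤ) : ZMod q) • v i` (`Int.cast_smul_eq_zsmul`). The map `bxS r q → (Fin r → ZMod q)` (cast of every coordinate)
has at most `2^r` elements in every fibre: in `(-q, q)` there are at most two representatives of a class modulo `q`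
(`Finset.sum_fiberwise_of_maps_to` or `Finset.card_le_mul_card_image`; or by induction on `r`; or compare with the product structure:
the fibre over `t` is contained in the `piFinset` of the sets of the two integers `(t i).val`, `(t i).val - q`). -/
theorem KA0_elim {q : ℕ} [NeZero q] {Z : Type*} [AddCommGroup Z] [Module (ZMod q) Z] [Fintype Z] [DecidableEq Z]
    (r : ℕ) (v : Fin r → Z) (g : Fin r → Z → ℂ) (c : Z → ℂ) (hg : ∀ i z, ‖g i z‖ ≤ 1)
    (hinv : ∀ i z, g i (z + v i) = g i z) :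
    (‖∑ z, (∏ i, g i z) * c z‖ / Fintype.card Z) ^ (2 ^ r) ≤
      2 ^ (2 ^ r + r) / (q : ℝ) ^ r *
        ∑ j : Fin r → ZMod q, ‖∑ z, DL (List.ofFn fun i => j i • v i) c z‖ / Fintype.card Z := by
  have hE := E1_elim (univ : Finset Z) univ (Fintype.card Z : ℝ) (by rw [Finset.card_univ])
    (by exact_mod_cast Fintype.card_pos) q (Nat.pos_of_ne_zero (NeZero.ne q)) r v g c hg hinv
    (fun z hz => absurd (Finset.mem_univ z) hz) (fun _ _ _ _ _ => Finset.mem_univ _)
  refine hE.trans ?_
  have hs := ka0_sum (q := q) r (fun t => ‖∑ z, DL (List.ofFn fun i => t i • v i) c z‖ / Fintype.card Z)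
    (fun t => by positivity)
  have he : ∑ j ∈ bxS r q, ‖∑ z, DL (List.ofFn fun i => j i • v i) c z‖ / (Fintype.card Z : ℝ) =
      ∑ j ∈ bxS r q, (fun t : Fin r → ZMod q => ‖∑ z, DL (List.ofFn fun i => t i • v i) c z‖ / (Fintype.card Z : ℝ))
        (fun i => ((j i : ℤ) : ZMod q)) := by
    refine Finset.sum_congr rfl fun j _ => ?_
    simp only [Int.cast_smul_eq_zsmul]
  rw [he]
  refine (mul_le_mul_of_nonneg_left hs (by positivity)).trans (le_of_eq ?_)
  rw [pow_add]
  ring

end Pool.Agent.HUK
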