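import Pool.Agent.Lib.HUK.K0

/-!
# Project HUK, chunk KA1 (S/M): degree and leading coefficient of `QG` and `DG`
-/

open Finset

namespace Pool.Agent.HUK

/-- Proof by induction on `l` (generalise `a`). Empty list: `QG [] a = a`, `DG [] a = 1`. Step:
`QG (j :: l) a = QG l a * QG l (a + j)`, degrees at most `2^n + 2^n = 2^(n+1)`, and `Polynomial.coeff_mul_of_natDegree_le` for the
coefficient; `(a + j).coeff 1 = a.coeff 1 + j.coeff 1`. `DG (j :: l) a = DG l a * QG l (a + j) - DG l (a + j) * QG l a`, degrees at most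
`(2^n - 1) + 2^n = 2^(n+1) - 1` (`2^n ≥ 1`), the coefficients in the same way (`add_comm` for the second product). -/
theorem KA1_deg (l : List (Polynomial ℤ)) (hl : ∀ j ∈ l, j.natDegree ≤ 1) (a : Polynomial ℤ) (ha : a.natDegree ≤ 1) :
    (QG l a).natDegree ≤ 2 ^ l.length ∧ (QG l a).coeff (2 ^ l.length) = QG (l.map fun j => j.coeff 1) (a.coeff 1) ∧
    (DG l a).natDegree ≤ 2 ^ l.length - 1 ∧
    (DG l a).coeff (2 ^ l.length - 1) = DG (l.map fun j => j.coeff 1) (a.coeff 1) := by
  induction l generalizing a with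
  | nil =>
    simp only [QG, DG, List.length_nil, pow_zero, List.map_nil]
    refine ⟨ha, trivial, ?_, ?_⟩
    · simp
    · simp
  | cons j l ih =>
    have hj : j.natDegree ≤ 1 := hl j (List.mem_cons_self ..)
    have hl' : ∀ j ∈ l, j.natDegree ≤ 1 := fun x hx => hl x (List.mem_cons_of_mem _ hx)
    have haj : (a + j).natDegree ≤ 1 := Polynomial.natDegree_add_le_of_degree_le ha hj
    obtain ⟨q1, q2, d1, d2⟩ := ih hl' a ha
    obtain ⟨q3, q4, d3, d4⟩ := ih hl' (a + j) haj
    rw [Polynomial.coeff_add] at q4 d4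
    have hpos : 1 ≤ 2 ^ l.length := Nat.one_le_two_pow
    have e1 : 2 ^ (j :: l).length = 2 ^ l.length + 2 ^ l.length := by
      rw [List.length_cons, pow_succ]
      ring
    have e2 : 2 ^ (j :: l).length - 1 = (2 ^ l.length - 1) + 2 ^ l.length := by
      rw [e1]
      omega
    rw [e2, e1]
    refine ⟨?_, ?_, ?_, ?_⟩
    · change (QG l a * QG l (a + j)).natDegree ≤ _
      exact Polynomial.natDegree_mul_le_of_le q1 q3
    · change (QG l a * QG l (a + j)).coeff _ = _
      rw [Polynomial.coeff_mul_add_eq_of_natDegree_le q1 q3, q2, q4]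
      rfl
    · change (DG l a * QG l (a + j) - DG l (a + j) * QG l a).natDegree ≤ _
      refine (Polynomial.natDegree_sub_le _ _).trans (max_le ?_ ?_)
      · exact Polynomial.natDegree_mul_le_of_le d1 q3
      · exact Polynomial.natDegree_mul_le_of_le d3 q1
    · change (DG l a * QG l (a + j) - DG l (a + j) * QG l a).coeff _ = _
      rw [Polynomial.coeff_sub, Polynomial.coeff_mul_add_eq_of_natDegree_le d1 q3, Polynomial.coeff_mul_add_eq_of_natDegree_le d3 q1, q2, q4, d2, d4]
      rfl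

/-- Ring homomorphisms. Induction on `l` (generalise `a`). -/
theorem KA1_map {A B : Type*} [CommRing A] [CommRing B] (φ : A →+* B) (l : List A) (a : A) :
    φ (QG l a) = QG (l.map φ) (φ a) ∧ φ (DG l a) = DG (l.map φ) (φ a) := by
  induction l generalizing a with
  | nil => exact ⟨rfl, map_one φ⟩
  | cons j l ih =>
    obtain ⟨h1, h2⟩ := ih a
    obtain ⟨h3, h4⟩ := ih (a + j)
    rw [map_add] at h3 h4
    constructor
    · change φ (QG l a * QG l (a + j)) = _
      rw [map_mul, h1, h3]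
      rfl
    · change φ (DG l a * QG l (a + j) - DG l (a + j) * QG l a) = _
      rw [map_sub, map_mul, map_mul, h1, h2, h3, h4]
      rfl

theorem ka1_main (n : ℕ) : ∀ a : ℤ, 1 ≤ a → 0 < QG (List.replicate n (1 : ℤ)) a ∧
    (∏ i ∈ range (n + 1), (a + i)) * DG (List.replicate n (1 : ℤ)) a = (n.factorial : ℤ) * QG (List.replicate n (1 : ℤ)) a := by
  induction n with
  | zero =>
    intro a ha
    simp only [List.replicate_zero, QG, DG, zero_add, Finset.prod_range_one, Nat.factorial_zero]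
    refine ⟨by omega, ?_⟩
    push_cast
    ring
  | succ n ih =>
    intro a ha
    obtain ⟨h1, h2⟩ := ih a ha
    obtain ⟨h3, h4⟩ := ih (a + 1) (by omega)
    have hQ : QG (List.replicate (n + 1) (1 : ℤ)) a = QG (List.replicate n (1 : ℤ)) a * QG (List.replicate n (1 : ℤ)) (a + 1) := rfl
    have hD : DG (List.replicate (n + 1) (1 : ℤ)) a = DG (List.replicate n (1 : ℤ)) a * QG (List.replicate n (1 : ℤ)) (a + 1) -
      DG (List.replicate n (1 : ℤ)) (a + 1) * QG (List.replicate n (1 : ℤ)) a := rfl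
    have hp1 : ∏ i ∈ range (n + 1 + 1), (a + (i : ℤ)) = (∏ i ∈ range (n + 1), (a + (i : ℤ))) * (a + n + 1) := by
      rw [Finset.prod_range_succ]
      push_cast
      ring
    have hp2 : ∏ i ∈ range (n + 1 + 1), (a + (i : ℤ)) = a * ∏ i ∈ range (n + 1), (a + 1 + (i : ℤ)) := by
      rw [Finset.prod_range_succ']
      push_cast
      rw [add_zero, mul_comm]
      congr 1
      refine Finset.prod_congr rfl fun i _ => ?_
      ring
    refine ⟨by rw [hQ]; exact mul_pos h1 h3, ?_⟩
    rw [hQ, hD, mul_sub]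
    have e1 : (∏ i ∈ range (n + 1 + 1), (a + (i : ℤ))) * (DG (List.replicate n (1 : ℤ)) a * QG (List.replicate n (1 : ℤ)) (a + 1)) =
        (a + n + 1) * ((n.factorial : ℤ) * QG (List.replicate n (1 : ℤ)) a) * QG (List.replicate n (1 : ℤ)) (a + 1) := by
      rw [hp1, ← h2]
      ring
    have e2 : (∏ i ∈ range (n + 1 + 1), (a + (i : ℤ))) * (DG (List.replicate n (1 : ℤ)) (a + 1) * QG (List.replicate n (1 : ℤ)) a) =
        a * ((n.factorial : ℤ) * QG (List.replicate n (1 : ℤ)) (a + 1)) * QG (List.replicate n (1 : ℤ)) a := by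
      rw [hp2, ← h4]
      ring
    rw [e1, e2, Nat.factorial_succ]
    push_cast
    ring

/-- The leading coefficient is not zero. Proof. For all `n` and all integers `a ≥ 1`: `0 < QG (replicate n 1) a` and
`(∏ i ∈ range (n + 1), (a + i)) * DG (replicate n 1) a = n ! * QG (replicate n 1) a`. Induction on `n`: put
`π_n(a) = ∏ i ∈ range (n + 1), (a + i)`, `π_(n+1)(a) = π_n(a) (a + n + 1) = a π_n(a + 1)`, so
`π_(n+1)(a) D_(n+1)(a) = (a + n + 1) (π_n(a) D_n(a)) Q_n(a + 1) - a (π_n(a + 1) D_n(a + 1)) Q_n(a) = (n + 1) n! Q_n(a) Q_n(a + 1)`.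
Take `a = 1`. -/
theorem KA1_pos (n : ℕ) : DG (List.replicate n (1 : ℤ)) 1 ≠ 0 := by
  intro h
  obtain ⟨h1, h2⟩ := ka1_main n 1 le_rfl
  rw [h, mul_zero] at h2
  have h3 : (0 : ℤ) < (n.factorial : ℤ) := by exact_mod_cast n.factorial_pos
  have h4 := mul_pos h3 h1
  omega

end Pool.Agent.HUK
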