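import Pool.Agent.Lib.HUK.KA9

/-!
# Project HUK, chunk KA10 (M): recursions for the Gowers norms on `ZMod r`
-/

open Finset

namespace Pool.Agent.HUK

theorem KA10_dd {r : ℕ} [NeZero r] (g : ZMod r → ℂ) : ∑ z : ZMod r, ∑ y, DD z g y = ((‖∑ y, g y‖ ^ 2 : ℝ) : ℂ) := by
  rw [Finset.sum_comm]
  have h : ∀ y : ZMod r, ∑ z : ZMod r, DD z g y = g y * (starRingEnd ℂ) (∑ w, g w) := by
    intro y
    unfold DD
    rw [← Finset.mul_sum, map_sum]
    congr 1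
    exact Equiv.sum_comp (Equiv.addLeft y) (fun w => (starRingEnd ℂ) (g w))
  rw [Finset.sum_congr rfl fun y _ => h y, ← Finset.sum_mul, Complex.mul_conj']
  push_cast
  rfl

/-- Sums over `Fin (s + 1) → ZMod r`: first coordinate. (`Fin.consEquiv`, `List.ofFn_succ`, `DL (h :: l) f = DL l (DD h f)`.) -/
theorem KA10_sum {r : ℕ} [NeZero r] (s : ℕ) (f : ZMod r → ℂ) :
    ∑ t : Fin (s + 1) → ZMod r, ∑ y, DL (List.ofFn t) f y =
      ∑ z : ZMod r, ∑ t : Fin s → ZMod r, ∑ y, DL (List.ofFn t) (DD z f) y := by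
  rw [← (Fin.consEquiv (fun _ : Fin (s + 1) => ZMod r)).sum_comp, Fintype.sum_prod_type]
  refine Finset.sum_congr rfl fun z _ => Finset.sum_congr rfl fun t _ => ?_
  have h : List.ofFn ((Fin.consEquiv (fun _ : Fin (s + 1) => ZMod r)) (z, t)) = z :: List.ofFn t := by
    rw [List.ofFn_succ]
    simp [Fin.consEquiv]
  rw [h]
  rfl

/-- Proof. `KA10_sum`, `DL l (DD z f) = DD z (DL l f)` (`DL_DD` in `P0.lean`), and `∑_z ∑_y DD z g y = ‖∑_y g y‖²` (substitution `y + z`). -/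
theorem KA10_sq {r : ℕ} [NeZero r] (s : ℕ) (f : ZMod r → ℂ) :
    ∑ t : Fin (s + 1) → ZMod r, ∑ y, DL (List.ofFn t) f y =
      ((∑ t : Fin s → ZMod r, ‖∑ y, DL (List.ofFn t) f y‖ ^ 2 : ℝ) : ℂ) := by
  rw [KA10_sum, Finset.sum_comm, Complex.ofReal_sum]
  refine Finset.sum_congr rfl fun t _ => ?_
  rw [← KA10_dd]
  refine Finset.sum_congr rfl fun z _ => ?_
  rw [DL_DD]

/-- From `KA10_sq`. -/
theorem KA10_nn {r : ℕ} [NeZero r] (s : ℕ) (f : ZMod r → ℂ) : 0 ≤ uG (s + 1) f := by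
  unfold uG
  rw [KA10_sq, Complex.ofReal_re]
  positivity

/-- From `KA10_sum`. -/
theorem KA10_succ {r : ℕ} [NeZero r] (s : ℕ) (f : ZMod r → ℂ) : uG (s + 1) f = (∑ z, uG s (DD z f)) / r := by
  have hr : (r : ℝ) ≠ 0 := Nat.cast_ne_zero.mpr (NeZero.ne r)
  unfold uG
  rw [KA10_sum, Complex.re_sum, ← Finset.sum_div, div_div, ← pow_succ]

/-- Proof. `KA10_sum` twice, `DL_DD`, `KA9_U2` for `DL (List.ofFn t) f`. -/
theorem KA10_four {r : ℕ} [NeZero r] (s : ℕ) (f : ZMod r → ℂ) :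
    uG (s + 2) f = (∑ t : Fin s → ZMod r, ∑ x, ‖ft (DL (List.ofFn t) f) x‖ ^ 4) / (r : ℝ) ^ s := by
  have hr : (r : ℝ) ≠ 0 := Nat.cast_ne_zero.mpr (NeZero.ne r)
  have h1 : ∑ t : Fin (s + 2) → ZMod r, ∑ y, DL (List.ofFn t) f y =
      ((∑ t : Fin s → ZMod r, (r : ℝ) ^ 3 * ∑ x, ‖ft (DL (List.ofFn t) f) x‖ ^ 4 : ℝ) : ℂ) := by
    rw [KA10_sum (s + 1) f, Complex.ofReal_sum]
    have h2 : ∀ z : ZMod r, ∑ t : Fin (s + 1) → ZMod r, ∑ y, DL (List.ofFn t) (DD z f) y =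
        ∑ t : Fin s → ZMod r, ∑ w : ZMod r, ∑ y, DD w (DD z (DL (List.ofFn t) f)) y := by
      intro z
      rw [KA10_sum s, Finset.sum_comm]
      refine Finset.sum_congr rfl fun t _ => Finset.sum_congr rfl fun w _ => ?_
      rw [DL_DD, DL_DD]
    rw [Finset.sum_congr rfl fun z _ => h2 z, Finset.sum_comm]
    refine Finset.sum_congr rfl fun t _ => ?_
    rw [← KA9_U2, Finset.sum_comm]
  unfold uG
  rw [h1, Complex.ofReal_re, ← Finset.mul_sum, show s + 2 + 1 = s + 3 by ring, pow_add]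
  field_simp

/-- Proof. `KA9_sq` for `g = DL (List.ofFn t) f` and `DD z g = DL (List.ofFn t) (DD z f)`: the sum over `t` of the squares is
`(1/r²) ∑_z e(x z) (∑_t ∑_y DL (List.ofFn t) (DD z f) y)`, the inner sums are real and non-negative (`KA10_sq`), equal to
`r^(s+2) uG (s+1) (DD z f)`; so it is at most `(1/r²) ∑_z r^(s+2) uG (s+1) (DD z f) = r^(s+1) uG (s+2) f` (`KA10_succ`). -/
theorem KA10_le {r : ℕ} [NeZero r] (s : ℕ) (f : ZMod r → ℂ) (x : ZMod r) :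
    ∑ t : Fin (s + 1) → ZMod r, ‖ft (DL (List.ofFn t) f) x‖ ^ 2 ≤ (r : ℝ) ^ (s + 1) * uG (s + 2) f := by
  have hr : (0 : ℝ) < r := Nat.cast_pos.mpr (Nat.pos_of_ne_zero (NeZero.ne r))
  have hA : ∀ z : ZMod r, ∃ A : ℝ, 0 ≤ A ∧ ∑ t : Fin (s + 1) → ZMod r, ∑ y, DL (List.ofFn t) (DD z f) y = (A : ℂ) ∧
      A = (r : ℝ) ^ (s + 2) * uG (s + 1) (DD z f) := by
    intro z
    refine ⟨_, ?_, KA10_sq s (DD z f), ?_⟩
    · positivity
    · unfold uG
      rw [KA10_sq, Complex.ofReal_re]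
      field_simp
  choose A hA0 hA1 hA2 using hA
  have h1 : ((∑ t : Fin (s + 1) → ZMod r, ‖ft (DL (List.ofFn t) f) x‖ ^ 2 : ℝ) : ℂ) =
      (∑ z : ZMod r, ZMod.stdAddChar (x * z) * (A z : ℂ)) / (r : ℂ) ^ 2 := by
    rw [Complex.ofReal_sum, Finset.sum_congr rfl fun t _ => KA9_sq (DL (List.ofFn t) f) x, ← Finset.sum_div,
      Finset.sum_comm]
    congr 1
    refine Finset.sum_congr rfl fun z _ => ?_
    rw [← hA1 z, Finset.mul_sum]
    refine Finset.sum_congr rfl fun t _ => ?_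
    rw [DL_DD]
  have h0 : 0 ≤ ∑ t : Fin (s + 1) → ZMod r, ‖ft (DL (List.ofFn t) f) x‖ ^ 2 := by positivity
  have h2 : ∑ t : Fin (s + 1) → ZMod r, ‖ft (DL (List.ofFn t) f) x‖ ^ 2 ≤ (∑ z : ZMod r, A z) / (r : ℝ) ^ 2 := by
    rw [← Real.norm_of_nonneg h0, ← Complex.norm_real, h1, norm_div, norm_pow, Complex.norm_natCast]
    refine div_le_div_of_nonneg_right ((norm_sum_le _ _).trans (Finset.sum_le_sum fun z _ => ?_)) (by positivity)
    rw [norm_mul, AddChar.norm_apply, one_mul, Complex.norm_real, Real.norm_of_nonneg (hA0 z)]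
  refine h2.trans (le_of_eq ?_)
  rw [Finset.sum_congr rfl fun z _ => hA2 z, ← Finset.mul_sum, KA10_succ (s + 1) f]
  rw [show s + 2 = s + 1 + 1 by ring, pow_succ (r : ℝ) (s + 1)]
  field_simp

end Pool.Agent.HUK
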