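import Pool.Agent.Lib.HUK.KA9
import Pool.Agent.Lib.H21AP.DivisorBound

/-!
# Project HUK, chunk KA11 (M): Fourier coefficients of a primitive character; the totient; elements of small order
-/

open Finset

namespace Pool.Agent.HUK

theorem ka11_inv {r : ℕ} [NeZero r] (χ : DirichletCharacter ℂ r) (x : ZMod r) : ‖χ⁻¹ x‖ = ‖χ x‖ := by
  by_cases hx : IsUnit x
  · obtain ⟨u, rfl⟩ := hx
    rw [DirichletCharacter.unit_norm_eq_one, DirichletCharacter.unit_norm_eq_one]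
  · rw [MulChar.map_nonunit _ hx, MulChar.map_nonunit _ hx]

/-- Proof. `gaussSum_mulShift_of_isPrimitive` (Mathlib): `∑_y χ y stdAddChar (a y) = χ⁻¹ a * τ`, `τ = gaussSum χ stdAddChar`; so
`ft χ x = χ⁻¹ (-x) τ / r`, of absolute value at most `‖τ‖ / r`, with equality if `x` is a unit. `KA9_parseval`: the sum of the squares is
`(number of units) / r = φ(r) / r`, and it is `φ(r) ‖τ‖² / r²`; so `‖τ‖² = r`. -/
theorem KA11_gauss {r : ℕ} [NeZero r] (χ : DirichletCharacter ℂ r) (hχ : χ.IsPrimitive) (x : ZMod r) :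
    ‖ft (fun y => χ y) x‖ ^ 2 ≤ 1 / r := by
  have hr : (0 : ℝ) < r := Nat.cast_pos.mpr (Nat.pos_of_ne_zero (NeZero.ne r))
  obtain ⟨τ, hτ⟩ : ∃ τ, τ = gaussSum χ (ZMod.stdAddChar (N := r)) := ⟨_, rfl⟩
  have hft : ∀ x : ZMod r, ‖ft (fun y => χ y) x‖ ^ 2 = ‖χ (-x)‖ ^ 2 * (‖τ‖ ^ 2 / (r : ℝ) ^ 2) := by
    intro x
    have h1 : ∑ y : ZMod r, χ y * ZMod.stdAddChar (-(x * y)) = χ⁻¹ (-x) * τ := by
      rw [hτ, ← gaussSum_mulShift_of_isPrimitive _ hχ (-x)]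
      unfold gaussSum
      refine Finset.sum_congr rfl fun y _ => ?_
      rw [AddChar.mulShift_apply, neg_mul]
    unfold ft
    rw [h1, norm_div, norm_mul, Complex.norm_natCast, ka11_inv]
    ring
  have hpar := KA9_parseval (fun y : ZMod r => χ y)
  rw [Finset.sum_congr rfl fun x _ => hft x, ← Finset.sum_mul] at hpar
  have hneg : ∑ x : ZMod r, ‖χ (-x)‖ ^ 2 = ∑ x : ZMod r, ‖χ x‖ ^ 2 :=
    Equiv.sum_comp (Equiv.neg (ZMod r)) (fun x => ‖χ x‖ ^ 2)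
  rw [hneg] at hpar
  have hS : 0 < ∑ x : ZMod r, ‖χ x‖ ^ 2 := by
    refine lt_of_lt_of_le ?_ (Finset.single_le_sum (f := fun x : ZMod r => ‖χ x‖ ^ 2) (fun x _ => by positivity) (Finset.mem_univ (1 : ZMod r)))
    simp only [map_one, norm_one]
    norm_num
  have hτ2 : ‖τ‖ ^ 2 / (r : ℝ) ^ 2 = 1 / r := by
    have h2 : (∑ x : ZMod r, ‖χ x‖ ^ 2) * (‖τ‖ ^ 2 / (r : ℝ) ^ 2) = (∑ x : ZMod r, ‖χ x‖ ^ 2) * (1 / r) := by
      rw [hpar]
      ring
    exact mul_left_cancel₀ hS.ne' h2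
  rw [hft x, hτ2]
  have h3 : ‖χ (-x)‖ ≤ 1 := DirichletCharacter.norm_le_one χ _
  have h4 : ‖χ (-x)‖ ^ 2 ≤ 1 := pow_le_one₀ (norm_nonneg _) h3
  exact mul_le_of_le_one_left (by positivity) h4

/-- Proof. `n ≤ φ(n) d(n)` for `n ≥ 1` (`Nat.recOnPosPrimePosCoprime`: for a prime power `p^a`, `a ≥ 1`:
`p^(a-1) (p-1) (a+1) ≥ p^(a-1) (p-1) 2 ≥ p^a`; both functions are multiplicative), and `divisor_bound`. -/
theorem KA11_tot (ε : ℝ) (hε : 0 < ε) : ∃ C : ℝ, 0 < C ∧ ∀ r : ℕ, 1 ≤ r → (r : ℝ) / (Nat.totient r : ℝ) ≤ C * (r : ℝ) ^ ε := by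
  obtain ⟨C, hC, h⟩ := Pool.Agent.Lib.H21AP.divisor_bound hε
  refine ⟨C, hC, fun r hr => ?_⟩
  have hφ : 0 < Nat.totient r := Nat.totient_pos.mpr (by omega)
  have hφ' : (0 : ℝ) < Nat.totient r := by exact_mod_cast hφ
  refine le_trans ?_ (h r hr)
  rw [div_le_iff₀ hφ']
  have h1 : r ≤ r.divisors.card * Nat.totient r := by
    calc r = ∑ m ∈ r.divisors, Nat.totient m := (Nat.sum_totient r).symm
      _ ≤ ∑ m ∈ r.divisors, Nat.totient r := Finset.sum_le_sum fun m hm =>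
          Nat.le_of_dvd hφ (Nat.totient_dvd_of_dvd (Nat.dvd_of_mem_divisors hm))
      _ = r.divisors.card * Nat.totient r := by rw [Finset.sum_const, smul_eq_mul]
  exact_mod_cast h1

/-- Proof. `addOrderOf x ≤ B` implies `addOrderOf x = m` for some `1 ≤ m ≤ ⌊B⌋₊`; for each `m` with `1 ≤ m` there are at most `m` elements `x` with
`m • x = 0` in the cyclic group `ZMod r` (`IsAddCyclic.card_nsmul_eq_zero_le` or `card_addOrderOf_eq_totient`), and `∑_{m ≤ M} m ≤ M²`. -/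
theorem KA11_ord {r : ℕ} [NeZero r] (B : ℝ) (hB : 0 ≤ B) :
    ((univ.filter fun x : ZMod r => (addOrderOf x : ℝ) ≤ B).card : ℝ) ≤ B ^ 2 := by
  classical
  obtain ⟨M, hM⟩ : ∃ M, M = ⌊B⌋₊ := ⟨_, rfl⟩
  have hsub : (univ.filter fun x : ZMod r => (addOrderOf x : ℝ) ≤ B) ⊆
      (Icc 1 M).biUnion fun m => univ.filter fun x : ZMod r => m • x = 0 := by
    intro x hx
    rw [mem_filter] at hx
    rw [mem_biUnion]
    refine ⟨addOrderOf x, ?_, ?_⟩
    · rw [mem_Icc]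
      exact ⟨addOrderOf_pos x, by rw [hM]; exact Nat.le_floor hx.2⟩
    · rw [mem_filter]
      exact ⟨mem_univ _, addOrderOf_nsmul_eq_zero x⟩
  have h1 : (univ.filter fun x : ZMod r => (addOrderOf x : ℝ) ≤ B).card ≤ M ^ 2 := by
    calc (univ.filter fun x : ZMod r => (addOrderOf x : ℝ) ≤ B).card ≤
          ((Icc 1 M).biUnion fun m => univ.filter fun x : ZMod r => m • x = 0).card := Finset.card_le_card hsub
      _ ≤ ∑ m ∈ Icc 1 M, (univ.filter fun x : ZMod r => m • x = 0).card := Finset.card_biUnion_le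
      _ ≤ ∑ m ∈ Icc 1 M, M := Finset.sum_le_sum fun m hm => by
          rw [mem_Icc] at hm
          exact (IsAddCyclic.card_nsmul_eq_zero_le (by omega)).trans hm.2
      _ = M ^ 2 := by rw [Finset.sum_const, Nat.card_Icc, smul_eq_mul, Nat.add_sub_cancel, pow_two]
  have h2 : (M : ℝ) ≤ B := by rw [hM]; exact Nat.floor_le hB
  calc ((univ.filter fun x : ZMod r => (addOrderOf x : ℝ) ≤ B).card : ℝ) ≤ ((M ^ 2 : ℕ) : ℝ) := Nat.cast_le.mpr h1
    _ = (M : ℝ) ^ 2 := by push_cast; rfl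
    _ ≤ B ^ 2 := pow_le_pow_left₀ (by positivity) h2 2

end Pool.Agent.HUK
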