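import Pool.Agent.Lib.HUK.KA8
import Pool.Agent.Lib.HUK.KA10
import Pool.Agent.Lib.HUK.KA11

/-!
# Project HUK, chunk KA13 (M): the Gowers norms of primitive characters are small
-/

open Finset

namespace Pool.Agent.HUK

theorem ka13_sq {r : ℕ} [NeZero r] (f : ZMod r → ℂ) (hf : ∀ y, ‖f y‖ ≤ 1) : ∑ x, ‖ft f x‖ ^ 2 ≤ 1 := by
  have hr : (0 : ℝ) < r := by exact_mod_cast Nat.pos_of_ne_zero (NeZero.ne r)
  rw [KA9_parseval, div_le_one hr]
  calc ∑ y, ‖f y‖ ^ 2 ≤ ∑ y : ZMod r, (1 : ℝ) := sum_le_sum fun y _ => pow_le_one₀ (norm_nonneg _) (hf y)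
    _ = r := by simp [ZMod.card]

theorem ka13_one {r : ℕ} [NeZero r] (f : ZMod r → ℂ) (hf : ∀ y, ‖f y‖ ≤ 1) (x : ZMod r) : ‖ft f x‖ ^ 2 ≤ 1 :=
  (single_le_sum (f := fun x => ‖ft f x‖ ^ 2) (fun _ _ => by positivity) (mem_univ x)).trans (ka13_sq f hf)

theorem ka13_t {r : ℕ} [NeZero r] (f : ZMod r → ℂ) (hf : ∀ y, ‖f y‖ ≤ 1) (B M : ℝ)
    (hM : ∀ x : ZMod r, B < (addOrderOf x : ℝ) → ‖ft f x‖ ^ 2 ≤ M) (hM0 : 0 ≤ M) :
    ∑ x, ‖ft f x‖ ^ 4 ≤ M + ∑ x ∈ univ.filter (fun x : ZMod r => (addOrderOf x : ℝ) ≤ B), ‖ft f x‖ ^ 2 := by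
  rw [← Finset.sum_filter_add_sum_filter_not univ (fun x : ZMod r => (addOrderOf x : ℝ) ≤ B), add_comm]
  refine add_le_add ?_ ?_
  · calc ∑ x ∈ univ.filter (fun x : ZMod r => ¬ (addOrderOf x : ℝ) ≤ B), ‖ft f x‖ ^ 4 ≤
          ∑ x ∈ univ.filter (fun x : ZMod r => ¬ (addOrderOf x : ℝ) ≤ B), M * ‖ft f x‖ ^ 2 := by
          refine sum_le_sum fun x hx => ?_
          have h1 := hM x (not_le.1 (mem_filter.1 hx).2)
          have h2 : ‖ft f x‖ ^ 4 = ‖ft f x‖ ^ 2 * ‖ft f x‖ ^ 2 := by ring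
          rw [h2]
          exact mul_le_mul_of_nonneg_right h1 (by positivity)
      _ ≤ ∑ x, M * ‖ft f x‖ ^ 2 := sum_le_sum_of_subset_of_nonneg (filter_subset _ _) fun x _ _ => by positivity
      _ = M * ∑ x, ‖ft f x‖ ^ 2 := by rw [Finset.mul_sum]
      _ ≤ M * 1 := mul_le_mul_of_nonneg_left (ka13_sq f hf) hM0
      _ = M := mul_one _
  · refine sum_le_sum fun x _ => ?_
    have h1 := ka13_one f hf x
    have h2 : ‖ft f x‖ ^ 4 = ‖ft f x‖ ^ 2 * ‖ft f x‖ ^ 2 := by ring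
    rw [h2]
    exact mul_le_of_le_one_left (by positivity) h1

/-- Proof by induction on `s`. `s = 0`: `KA10_four` (`s = 0`, one `t`, `DL [] f = f`): `uG 2 χ = ∑_x ‖ft χ x‖⁴ ≤ (1/r) ∑_x ‖ft χ x‖² ≤ 1/r`
(`KA11_gauss`, `KA9_parseval`, `‖χ y‖ ≤ 1`); `C = e = 1`. Step: `C'`, `e'` for `s`; `C1`, `e1` from `KA8_ft s`; `ε = e1 e' / 8`,
`C2` from `KA11_tot ε`; `B = r^(e'/4) ≥ 1`. `KA10_four`: `uG (s+3) χ = r^(-(s+1)) ∑_{t : Fin (s+1) → ZMod r} ∑_x ‖ft (D_t χ) x‖⁴`. Terms with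
`addOrderOf x > B`: `‖ft‖² ≤ (r/φ(r))² C1² B^(-2 e1)` (`KA8_ft`), the sum over `x` of `‖ft‖²` is at most `1` (`KA9_parseval`, `‖D_t χ‖ ≤ 1`,
`DL_norm` in `P0.lean`), total at most `C2² r^(2ε) C1² r^(-e1 e'/2) = (C1 C2)² r^(-e1 e'/4)`. Terms with `addOrderOf x ≤ B`: at most `B²` values of `x`
(`KA11_ord`), `‖ft‖⁴ ≤ ‖ft‖²` (`‖ft‖ ≤ 1`), the average over `t` is at most `uG (s+2) χ ≤ C' r^(-e')` (`KA10_le`), total at most
`B² C' r^(-e') = C' r^(-e'/2)`. So `e = e1 e' / 4`, `C = (C1 C2)² + C'`. -/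
theorem KA13_u (s : ℕ) : ∃ C e : ℝ, 0 < C ∧ 0 < e ∧ e ≤ 1 ∧ ∀ (r : ℕ) [NeZero r] (χ : DirichletCharacter ℂ r),
    χ.IsPrimitive → uG (s + 2) (fun y => χ y) ≤ C * (r : ℝ) ^ (-e) := by
  induction s with
  | zero =>
    refine ⟨1, 1, one_pos, one_pos, le_refl _, fun r _ χ hχ => ?_⟩
    have hr : (0 : ℝ) < r := by exact_mod_cast Nat.pos_of_ne_zero (NeZero.ne r)
    have hχn : ∀ y, ‖χ y‖ ≤ 1 := fun y => χ.norm_le_one y
    rw [KA10_four, pow_zero, div_one, Fintype.sum_unique, one_mul, Real.rpow_neg_one]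
    have h0 : ∀ t : Fin 0 → ZMod r, DL (List.ofFn t) (fun y => χ y) = fun y => χ y := by
      intro t
      rw [List.ofFn_zero]
      rfl
    rw [h0]
    calc ∑ x, ‖ft (fun y => χ y) x‖ ^ 4 ≤ ∑ x, (1 / (r : ℝ)) * ‖ft (fun y => χ y) x‖ ^ 2 := by
          refine sum_le_sum fun x _ => ?_
          have h1 := KA11_gauss χ hχ x
          have h2 : ‖ft (fun y => χ y) x‖ ^ 4 = ‖ft (fun y => χ y) x‖ ^ 2 * ‖ft (fun y => χ y) x‖ ^ 2 := by ring
          rw [h2]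
          exact mul_le_mul_of_nonneg_right h1 (by positivity)
      _ = 1 / (r : ℝ) * ∑ x, ‖ft (fun y => χ y) x‖ ^ 2 := by rw [Finset.mul_sum]
      _ ≤ 1 / (r : ℝ) * 1 := mul_le_mul_of_nonneg_left (ka13_sq _ hχn) (by positivity)
      _ = (r : ℝ)⁻¹ := by rw [mul_one, one_div]
  | succ s ih =>
    obtain ⟨C', e', hC', he', he'1, h'⟩ := ih
    obtain ⟨C1, e1, hC1, he1, he11, h1⟩ := KA8_ft s
    obtain ⟨C2, hC2, h2⟩ := KA11_tot (e1 * e' / 8) (by positivity)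
    have hee : e1 * e' ≤ e' := mul_le_of_le_one_left he'.le he11
    refine ⟨(C1 * C2) ^ 2 + C', e1 * e' / 4, by positivity, by positivity, by linarith, fun r _ χ hχ => ?_⟩
    have hr1 : 1 ≤ r := Nat.pos_of_ne_zero (NeZero.ne r)
    have hrr : (1 : ℝ) ≤ r := by exact_mod_cast hr1
    have hr0 : (0 : ℝ) < r := by linarith
    have hχn : ∀ y, ‖χ y‖ ≤ 1 := fun y => χ.norm_le_one y
    have hφ : (0 : ℝ) < (Nat.totient r : ℝ) := by exact_mod_cast Nat.totient_pos.2 hr1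
    obtain ⟨B, hB⟩ : ∃ B : ℝ, B = (r : ℝ) ^ (e' / 4) := ⟨_, rfl⟩
    have hB0 : 0 < B := by rw [hB]; positivity
    obtain ⟨M, hM⟩ : ∃ M : ℝ, M = (C1 * C2) ^ 2 * (r : ℝ) ^ (-(e1 * e' / 4)) := ⟨_, rfl⟩
    have hM0 : 0 ≤ M := by rw [hM]; positivity
    have key : ∀ t : Fin (s + 1) → ZMod r, ∀ x : ZMod r, B < (addOrderOf x : ℝ) →
        ‖ft (DL (List.ofFn t) fun y => χ y) x‖ ^ 2 ≤ M := by
      intro t x hx
      have h3 := h1 r χ t x
      have h4 : (addOrderOf x : ℝ) ^ (-e1) ≤ (r : ℝ) ^ (-(e1 * e' / 4)) := by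
        have : (addOrderOf x : ℝ) ^ (-e1) ≤ B ^ (-e1) := Real.rpow_le_rpow_of_nonpos hB0 hx.le (by linarith)
        refine this.trans (le_of_eq ?_)
        rw [hB, ← Real.rpow_mul hr0.le]
        congr 1
        ring
      have h5 := h2 r hr1
      have h6 : ‖ft (DL (List.ofFn t) fun y => χ y) x‖ ≤ C1 * C2 * (r : ℝ) ^ (-(e1 * e' / 8)) := by
        have h7 : ‖ft (DL (List.ofFn t) fun y => χ y) x‖ =
            ‖ft (DL (List.ofFn t) fun y => χ y) x‖ * ((Nat.totient r : ℝ) / r) * ((r : ℝ) / Nat.totient r) := by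
          field_simp
        rw [h7]
        calc _ ≤ C1 * (addOrderOf x : ℝ) ^ (-e1) * (C2 * (r : ℝ) ^ (e1 * e' / 8)) :=
              mul_le_mul h3 h5 (by positivity) (by positivity)
          _ ≤ C1 * (r : ℝ) ^ (-(e1 * e' / 4)) * (C2 * (r : ℝ) ^ (e1 * e' / 8)) :=
              mul_le_mul_of_nonneg_right (mul_le_mul_of_nonneg_left h4 hC1.le) (by positivity)
          _ = C1 * C2 * ((r : ℝ) ^ (-(e1 * e' / 4)) * (r : ℝ) ^ (e1 * e' / 8)) := by ring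
          _ = _ := by
            rw [← Real.rpow_add hr0]
            congr 2
            ring
      calc ‖ft (DL (List.ofFn t) fun y => χ y) x‖ ^ 2 ≤ (C1 * C2 * (r : ℝ) ^ (-(e1 * e' / 8))) ^ 2 :=
            pow_le_pow_left₀ (norm_nonneg _) h6 2
        _ = M := by
          rw [mul_pow, hM, ← Real.rpow_natCast ((r : ℝ) ^ (-(e1 * e' / 8))) 2, ← Real.rpow_mul hr0.le]
          congr 2
          push_cast
          ring
    rw [KA10_four]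
    have hsum : ∑ t : Fin (s + 1) → ZMod r, ∑ x, ‖ft (DL (List.ofFn t) fun y => χ y) x‖ ^ 4 ≤
        (r : ℝ) ^ (s + 1) * M + B ^ 2 * ((r : ℝ) ^ (s + 1) * (C' * (r : ℝ) ^ (-e'))) := by
      calc _ ≤ ∑ t : Fin (s + 1) → ZMod r, (M + ∑ x ∈ univ.filter (fun x : ZMod r => (addOrderOf x : ℝ) ≤ B),
            ‖ft (DL (List.ofFn t) fun y => χ y) x‖ ^ 2) :=
            sum_le_sum fun t _ => ka13_t _ (DL_norm _ _ hχn) B M (key t) hM0
        _ = (r : ℝ) ^ (s + 1) * M + ∑ x ∈ univ.filter (fun x : ZMod r => (addOrderOf x : ℝ) ≤ B),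
            ∑ t : Fin (s + 1) → ZMod r, ‖ft (DL (List.ofFn t) fun y => χ y) x‖ ^ 2 := by
          rw [Finset.sum_add_distrib, Finset.sum_comm, sum_const, card_univ, Fintype.card_fun, ZMod.card, Fintype.card_fin,
            nsmul_eq_mul]
          push_cast
          rfl
        _ ≤ (r : ℝ) ^ (s + 1) * M + ∑ x ∈ univ.filter (fun x : ZMod r => (addOrderOf x : ℝ) ≤ B),
            (r : ℝ) ^ (s + 1) * (C' * (r : ℝ) ^ (-e')) := by
          refine add_le_add le_rfl (sum_le_sum fun x _ => (KA10_le s _ x).trans ?_)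
          exact mul_le_mul_of_nonneg_left (h' r χ hχ) (by positivity)
        _ ≤ _ := by
          rw [sum_const, nsmul_eq_mul]
          exact add_le_add le_rfl (mul_le_mul_of_nonneg_right (KA11_ord B hB0.le) (by positivity))
    rw [div_le_iff₀ (by positivity)]
    refine hsum.trans ?_
    have hB2 : B ^ 2 * (r : ℝ) ^ (-e') ≤ (r : ℝ) ^ (-(e1 * e' / 4)) := by
      rw [hB, ← Real.rpow_natCast, ← Real.rpow_mul hr0.le, ← Real.rpow_add hr0]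
      refine Real.rpow_le_rpow_of_exponent_le hrr ?_
      push_cast
      linarith
    rw [hM]
    calc _ = (r : ℝ) ^ (s + 1) * ((C1 * C2) ^ 2 * (r : ℝ) ^ (-(e1 * e' / 4))) +
          (r : ℝ) ^ (s + 1) * (C' * (B ^ 2 * (r : ℝ) ^ (-e'))) := by ring
      _ ≤ (r : ℝ) ^ (s + 1) * ((C1 * C2) ^ 2 * (r : ℝ) ^ (-(e1 * e' / 4))) +
          (r : ℝ) ^ (s + 1) * (C' * (r : ℝ) ^ (-(e1 * e' / 4))) :=
          add_le_add le_rfl (mul_le_mul_of_nonneg_left (mul_le_mul_of_nonneg_left hB2 hC'.le) (by positivity))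
      _ = _ := by ring

end Pool.Agent.HUK
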