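import Mathlib

/-!
# Project HUK, chunk KA4 (M): a polynomial divisible by `m` at `d + 1` points
-/

open Finset

namespace Pool.Agent.HUK

/-- Proof. Induction on `d`, for all `P` and `k`. `d = 0`: `P = C (P.coeff 0)`, the product is empty. Step `d + 1`: `P - C (P.eval (k 0))` has the root
`k 0`, so it is `(X - C (k 0)) * R` (`Polynomial.dvd_iff_isRoot`), `R.natDegree ≤ d`, `R.coeff d = P.coeff (d + 1)`. For `i : Fin (d + 1)`:
`m ∣ P.eval (k i.succ) - P.eval (k 0) = (k i.succ - k 0) * R.eval (k i.succ)`. Let `c = ∏ i : Fin (d + 1), (k i.succ - k 0)`. Then `m` divides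
`(C c * R).eval (k i.succ)` for all `i`; the induction hypothesis for `C c * R` and `k ∘ Fin.succ` gives
`m ∣ c * R.coeff d * ∏ i, ∏ j ∈ Ioi i, (k j.succ - k i.succ)`. Finally `∏ i : Fin (d + 2), ∏ j ∈ Ioi i, (k j - k i) = c * ∏ i, ∏ j ∈ Ioi i, ..`
(`Fin.prod_univ_succ` and the lemmas on `Ioi 0`, `Ioi i.succ` in `Fin`, as in the proof of `Matrix.det_vandermonde` in Mathlib).
(Alternative: determinants: the Vandermonde matrix with last column `P.eval (k i)` has determinant `P.coeff d * det V`.) -/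
theorem KA4_vdm (d : ℕ) (P : Polynomial ℤ) (hP : P.natDegree ≤ d) (m : ℤ) (k : Fin (d + 1) → ℤ)
    (hm : ∀ i, m ∣ P.eval (k i)) : m ∣ P.coeff d * ∏ i, ∏ j ∈ Ioi i, (k j - k i) := by
  choose r hr using hm
  have h1 := Matrix.det_updateCol_sum (Matrix.vandermonde k) (Fin.last d) (fun j : Fin (d + 1) => P.coeff j)
  have h2 : (fun i => ∑ j : Fin (d + 1), P.coeff (j : ℕ) • Matrix.vandermonde k i j) = m • r := by
    funext i
    rw [Pi.smul_apply, smul_eq_mul, ← hr i, Polynomial.eval_eq_sum_range' (Nat.lt_succ_of_le hP),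
      ← Fin.sum_univ_eq_sum_range (fun j => P.coeff j * k i ^ j) (d + 1)]
    exact Finset.sum_congr rfl fun j _ => by rw [Matrix.vandermonde_apply, smul_eq_mul]
  rw [h2, Matrix.det_updateCol_smul, Matrix.det_vandermonde, Fin.val_last, smul_eq_mul] at h1
  exact ⟨_, h1.symm⟩

end Pool.Agent.HUK
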