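import Pool.Agent.Lib.HUK.KA4

/-!
# Project HUK, chunk KA5 (M): roots of a polynomial modulo `m`
-/

open Finset

namespace Pool.Agent.HUK

theorem ka5_block (d : ℕ) (c : ℤ) (hc : c ≠ 0) (P : Polynomial ℤ) (hP : P.natDegree ≤ d) (hPc : P.coeff d = c) (m L : ℕ)
    (hL : 1 ≤ L) (hm : c.natAbs * L ^ ((d + 1) * (d + 1)) < m) (F : Finset ℕ) (hF : ∀ k ∈ F, (m : ℤ) ∣ P.eval (k : ℤ)) (b : ℕ)
    (hb : ∀ k ∈ F, k / L = b) : F.card ≤ d := by
  by_contra hcard
  rw [not_le] at hcard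
  obtain ⟨T, hT, hTc⟩ := Finset.exists_subset_card_eq (s := F) (n := d + 1) hcard
  have hf : ∀ i, T.orderEmbOfFin hTc i ∈ F := fun i => hT (Finset.orderEmbOfFin_mem T hTc i)
  have h1 := KA4_vdm d P hP (m : ℤ) (fun i => (T.orderEmbOfFin hTc i : ℤ)) (fun i => hF _ (hf i))
  rw [hPc] at h1
  have h2 : ∀ i j : Fin (d + 1), i < j → (1 : ℤ) ≤ (T.orderEmbOfFin hTc j : ℤ) - T.orderEmbOfFin hTc i ∧
      (T.orderEmbOfFin hTc j : ℤ) - T.orderEmbOfFin hTc i ≤ L := by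
    intro i j hij
    have h3 : T.orderEmbOfFin hTc i < T.orderEmbOfFin hTc j := (T.orderEmbOfFin hTc).strictMono hij
    have h4 := hb _ (hf i)
    have h5 := hb _ (hf j)
    have h6 := Nat.div_add_mod (T.orderEmbOfFin hTc i) L
    have h7 := Nat.div_add_mod (T.orderEmbOfFin hTc j) L
    have h8 := Nat.mod_lt (T.orderEmbOfFin hTc j) hL
    rw [h4] at h6
    rw [h5] at h7
    constructor <;> omega
  have hL1 : (1 : ℤ) ≤ L := by exact_mod_cast hL
  have h3 : (∏ i : Fin (d + 1), ∏ j ∈ Ioi i, ((T.orderEmbOfFin hTc j : ℤ) - T.orderEmbOfFin hTc i)) ≤ (L : ℤ) ^ ((d + 1) * (d + 1)) := by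
    calc (∏ i : Fin (d + 1), ∏ j ∈ Ioi i, ((T.orderEmbOfFin hTc j : ℤ) - T.orderEmbOfFin hTc i))
        ≤ ∏ i : Fin (d + 1), (L : ℤ) ^ (d + 1) := by
          refine Finset.prod_le_prod (fun i _ => Finset.prod_nonneg fun j hj => ?_) fun i _ => ?_
          · exact zero_le_one.trans (h2 i j (mem_Ioi.1 hj)).1
          · calc ∏ j ∈ Ioi i, ((T.orderEmbOfFin hTc j : ℤ) - T.orderEmbOfFin hTc i) ≤ ∏ j ∈ Ioi i, (L : ℤ) := by
                  refine Finset.prod_le_prod (fun j hj => ?_) fun j hj => ?_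
                  · exact zero_le_one.trans (h2 i j (mem_Ioi.1 hj)).1
                  · exact (h2 i j (mem_Ioi.1 hj)).2
              _ = (L : ℤ) ^ (Ioi i).card := by rw [Finset.prod_const]
              _ ≤ (L : ℤ) ^ (d + 1) := by
                  refine pow_le_pow_right₀ hL1 ?_
                  have h9 := Finset.card_le_univ (Ioi i)
                  rwa [Fintype.card_fin] at h9
      _ = (L : ℤ) ^ ((d + 1) * (d + 1)) := by
          rw [Finset.prod_const, Finset.card_univ, Fintype.card_fin, ← pow_mul]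
  have h4 : 0 < ∏ i : Fin (d + 1), ∏ j ∈ Ioi i, ((T.orderEmbOfFin hTc j : ℤ) - T.orderEmbOfFin hTc i) :=
    Finset.prod_pos fun i _ => Finset.prod_pos fun j hj => lt_of_lt_of_le zero_lt_one (h2 i j (mem_Ioi.1 hj)).1
  have h5 : c * ∏ i : Fin (d + 1), ∏ j ∈ Ioi i, ((T.orderEmbOfFin hTc j : ℤ) - T.orderEmbOfFin hTc i) = 0 := by
    refine Int.eq_zero_of_abs_lt_dvd h1 ?_
    rw [abs_mul, abs_of_pos h4, Int.abs_eq_natAbs]
    calc (c.natAbs : ℤ) * ∏ i : Fin (d + 1), ∏ j ∈ Ioi i, ((T.orderEmbOfFin hTc j : ℤ) - T.orderEmbOfFin hTc i)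
        ≤ (c.natAbs : ℤ) * (L : ℤ) ^ ((d + 1) * (d + 1)) := mul_le_mul_of_nonneg_left h3 (Nat.cast_nonneg _)
      _ < m := by exact_mod_cast hm
  rcases mul_eq_zero.1 h5 with h6 | h6
  · exact hc h6
  · exact h4.ne' h6

/-- Proof. `D = (d + 1)^2`, `e = 1/D`, `x = (m / (2 |c|))^e`, `C = 4 d (2 |c|)^e`, so `C r m^(-e) = 4 d r / x`. If `x < 1` then
`card ≤ r ≤ 4 d r / x`. Let `x ≥ 1`, `L = ⌊x⌋₊`: `1 ≤ L`, `x / 2 ≤ L ≤ x`, `|c| L^D ≤ |c| x^D = m / 2 < m` (`x^D = m / (2 |c|)`), and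
`x ≤ m ≤ r` (as `1 ≤ x` and `x ≤ x^D ≤ m`). Claim: a block `[b L, (b + 1) L)` contains at most `d` elements `k` with `m ∣ P(k)`. Otherwise take a
subset of `d + 1` such elements in increasing order (`Finset.exists_subset_card_eq`, `Finset.orderEmbOfFin`) `k_0 < .. < k_d`; by `KA4_vdm`
`m ∣ c * ∏_{i < j} (k_j - k_i)`, which is not `0`, and `|..| ≤ |c| L^D < m` (every factor is in `[1, L]`, there are at most `D` pairs, `L ≥ 1`);
contradiction (`Int.le_of_dvd` for the absolute values). The set `range r` meets at most `r / L + 1` blocks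
(`Finset.card_eq_sum_card_fiberwise` for the map `k ↦ k / L` into `range (r / L + 1)`), so
`card ≤ d (r / L + 1) ≤ 2 d r / L ≤ 4 d r / x` (`L ≤ r`). -/
theorem KA5_count (d : ℕ) (hd : 1 ≤ d) (c : ℤ) (hc : c ≠ 0) : ∃ C e : ℝ, 0 < C ∧ 0 < e ∧ e ≤ 1 ∧
    ∀ P : Polynomial ℤ, P.natDegree ≤ d → P.coeff d = c → ∀ m r : ℕ, 1 ≤ m → m ≤ r →
      (((range r).filter fun k : ℕ => (m : ℤ) ∣ P.eval (k : ℤ)).card : ℝ) ≤ C * r * (m : ℝ) ^ (-e) := by
  have hcn : 1 ≤ c.natAbs := Nat.one_le_iff_ne_zero.2 (Int.natAbs_ne_zero.2 hc)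
  have hcr : (1 : ℝ) ≤ (c.natAbs : ℝ) := by exact_mod_cast hcn
  have hdr : (1 : ℝ) ≤ (d : ℝ) := by exact_mod_cast hd
  set B : ℝ := 2 * (c.natAbs : ℝ) with hB
  have hB0 : 0 < B := by linarith
  set D : ℕ := (d + 1) * (d + 1) with hD
  have hD1 : 1 ≤ D := by rw [hD]; exact Nat.mul_pos (Nat.succ_pos _) (Nat.succ_pos _)
  have hDr : (1 : ℝ) ≤ (D : ℝ) := by exact_mod_cast hD1
  have hBe : 0 < B ^ (1 / (D : ℝ)) := Real.rpow_pos_of_pos hB0 _
  refine ⟨4 * d * B ^ (1 / (D : ℝ)), 1 / (D : ℝ), by positivity, by positivity, ?_, ?_⟩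
  · rw [div_le_one (by linarith)]
    exact hDr
  intro P hP hPc m r hm hmr
  have hmR : (1 : ℝ) ≤ (m : ℝ) := by exact_mod_cast hm
  have hm0 : (0 : ℝ) < (m : ℝ) := by linarith
  have hrR : (m : ℝ) ≤ (r : ℝ) := by exact_mod_cast hmr
  have hme : 0 < (m : ℝ) ^ (1 / (D : ℝ)) := Real.rpow_pos_of_pos hm0 _
  set x : ℝ := ((m : ℝ) / B) ^ (1 / (D : ℝ)) with hx
  have hx0 : 0 < x := Real.rpow_pos_of_pos (div_pos hm0 hB0) _
  have hxe : 4 * d * B ^ (1 / (D : ℝ)) * r * (m : ℝ) ^ (-(1 / (D : ℝ))) = 4 * d * r / x := by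
    rw [hx, Real.div_rpow hm0.le hB0.le, Real.rpow_neg hm0.le]
    field_simp
  rw [hxe]
  have hxD : x ^ D = (m : ℝ) / B := by
    rw [hx, ← Real.rpow_natCast, ← Real.rpow_mul (div_pos hm0 hB0).le, one_div, inv_mul_cancel₀ (by linarith : (D : ℝ) ≠ 0),
      Real.rpow_one]
  rcases lt_or_ge x 1 with hx1 | hx1
  · have h1 : (((range r).filter fun k : ℕ => (m : ℤ) ∣ P.eval (k : ℤ)).card : ℝ) ≤ r := by
      have h2 := Finset.card_filter_le (range r) (fun k : ℕ => (m : ℤ) ∣ P.eval (k : ℤ))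
      rw [card_range] at h2
      exact_mod_cast h2
    refine h1.trans ?_
    rw [le_div_iff₀ hx0]
    nlinarith
  · set L : ℕ := ⌊x⌋₊ with hL
    have hL1 : 1 ≤ L := Nat.le_floor (by exact_mod_cast hx1)
    have hLx : (L : ℝ) ≤ x := Nat.floor_le hx0.le
    have hxL : x < (L : ℝ) + 1 := Nat.lt_floor_add_one x
    have hL1r : (1 : ℝ) ≤ (L : ℝ) := by exact_mod_cast hL1
    have hmB : (m : ℝ) / B ≤ m := div_le_self hm0.le (by linarith)
    have hxr : x ≤ r := by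
      have h1 : x ≤ x ^ D := le_self_pow₀ hx1 (by omega)
      rw [hxD] at h1
      linarith
    have hblock : c.natAbs * L ^ ((d + 1) * (d + 1)) < m := by
      have h1 : (c.natAbs : ℝ) * (L : ℝ) ^ D ≤ (c.natAbs : ℝ) * x ^ D :=
        mul_le_mul_of_nonneg_left (pow_le_pow_left₀ (by linarith) hLx D) (by linarith)
      have h2 : (c.natAbs : ℝ) * x ^ D = m / 2 := by
        rw [hxD, hB]
        field_simp
      have h3 : (c.natAbs : ℝ) * (L : ℝ) ^ D < m := by linarith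
      exact_mod_cast h3
    have h1 : ((range r).filter fun k : ℕ => (m : ℤ) ∣ P.eval (k : ℤ)).card ≤ d * (range (r / L + 1)).card := by
      refine Finset.card_le_mul_card_image_of_maps_to (f := fun k : ℕ => k / L) (fun k hk => ?_) d fun b _ => ?_
      · have h2 := mem_range.1 (mem_filter.1 hk).1
        exact mem_range.2 (Nat.lt_succ_of_le (Nat.div_le_div_right h2.le))
      · refine ka5_block d c hc P hP hPc m L hL1 hblock _ (fun k hk => ?_) b fun k hk => ?_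
        · exact (mem_filter.1 (mem_filter.1 hk).1).2
        · exact (mem_filter.1 hk).2
    rw [card_range] at h1
    have h2 : (((range r).filter fun k : ℕ => (m : ℤ) ∣ P.eval (k : ℤ)).card : ℝ) ≤ d * ((r / L : ℕ) + 1) := by exact_mod_cast h1
    have h3 : ((r / L : ℕ) : ℝ) ≤ (r : ℝ) / L := Nat.cast_div_le
    have h4 : (1 : ℝ) ≤ (r : ℝ) / L := by
      rw [le_div_iff₀ (by linarith)]
      linarith
    have h5 : (r : ℝ) / L ≤ 2 * r / x := by
      rw [div_le_div_iff₀ (by linarith) hx0]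
      have h6 : x ≤ 2 * L := by linarith
      have h7 : (0 : ℝ) ≤ r := by linarith
      nlinarith
    have h6 : (d : ℝ) * ((r / L : ℕ) + 1) ≤ d * (2 * (2 * r / x)) := by
      refine mul_le_mul_of_nonneg_left ?_ (by linarith)
      linarith
    refine h2.trans (h6.trans (le_of_eq ?_))
    ring

end Pool.Agent.HUK
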