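import Pool.Agent.Lib.HUK.KA1
import Pool.Agent.Lib.HUK.KA5

/-!
# Project HUK, chunk KA6 (M): zeros of `DG` modulo `r`
-/

open Finset

namespace Pool.Agent.HUK

theorem ka6_poly (n : ℕ) (h : Fin n → ℤ) (a : ℤ) :
    (DG (List.ofFn fun i => Polynomial.C (h i) + Polynomial.X) (Polynomial.C a + Polynomial.X)).natDegree
      ≤ 2 ^ n - 1 ∧
    (DG (List.ofFn fun i => Polynomial.C (h i) + Polynomial.X) (Polynomial.C a + Polynomial.X)).coeff
      (2 ^ n - 1) = DG (List.replicate n (1 : ℤ)) 1 := by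
  have hdeg : ∀ x : ℤ, (Polynomial.C x + Polynomial.X : Polynomial ℤ).natDegree ≤ 1 := fun x =>
    (Polynomial.natDegree_add_le _ _).trans
      (max_le (by rw [Polynomial.natDegree_C]; exact zero_le_one) Polynomial.natDegree_X_le)
  have hco : ∀ x : ℤ, (Polynomial.C x + Polynomial.X : Polynomial ℤ).coeff 1 = 1 := fun x => by
    rw [Polynomial.coeff_add, Polynomial.coeff_X_one, Polynomial.coeff_C_of_ne_zero one_ne_zero, zero_add]
  obtain ⟨-, -, h3, h4⟩ := KA1_deg (List.ofFn fun i => Polynomial.C (h i) + Polynomial.X) (by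
    intro j hj
    rw [List.mem_ofFn] at hj
    obtain ⟨i, rfl⟩ := hj
    exact hdeg _) (Polynomial.C a + Polynomial.X) (hdeg a)
  rw [List.length_ofFn] at h3 h4
  refine ⟨h3, ?_⟩
  rw [h4, List.map_ofFn, hco]
  have h5 : ((fun j : Polynomial ℤ => j.coeff 1) ∘ fun i => Polynomial.C (h i) + Polynomial.X) =
      fun _ : Fin n => (1 : ℤ) := by
    funext i
    exact hco _
  rw [h5, List.ofFn_const]

theorem ka6_eval (n : ℕ) (h : Fin n → ℤ) (a : ℤ) (r : ℕ) (k : ℤ) :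
    (((DG (List.ofFn fun i => Polynomial.C (h i) + Polynomial.X)
      (Polynomial.C a + Polynomial.X)).eval k : ℤ) : ZMod r) =
      DG (List.ofFn fun i => (h i : ZMod r) + k) ((a : ZMod r) + k) := by
  obtain ⟨φ, hφ⟩ : ∃ φ : Polynomial ℤ →+* ZMod r,
    φ = (Int.castRingHom (ZMod r)).comp (Polynomial.evalRingHom k) := ⟨_, rfl⟩
  have h1 : ∀ x : ℤ, φ (Polynomial.C x + Polynomial.X) = (x : ZMod r) + k := by
    intro x
    rw [hφ, RingHom.comp_apply, Polynomial.coe_evalRingHom, Polynomial.eval_add, Polynomial.eval_C,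
      Polynomial.eval_X, map_add, eq_intCast, eq_intCast]
  have h2 := (KA1_map φ (List.ofFn fun i => Polynomial.C (h i) + Polynomial.X)
    (Polynomial.C a + Polynomial.X)).2
  rw [List.map_ofFn, h1] at h2
  have h3 : (φ ∘ fun i => Polynomial.C (h i) + Polynomial.X) = fun i => (h i : ZMod r) + k := by
    funext i
    exact h1 _
  rw [h3] at h2
  rw [← h2, hφ, RingHom.comp_apply, Polynomial.coe_evalRingHom]
  rfl

theorem ka6_fibre {n r : ℕ} [NeZero r] (ψ : ZMod r) (p : (Fin n → ZMod r) × ZMod r) {C e : ℝ}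
    (hC : ∀ P : Polynomial ℤ, P.natDegree ≤ 2 ^ n - 1 → P.coeff (2 ^ n - 1) = DG (List.replicate n (1 : ℤ)) 1 →
      ∀ m r : ℕ, 1 ≤ m → m ≤ r →
      (((range r).filter fun k : ℕ => (m : ℤ) ∣ P.eval (k : ℤ)).card : ℝ) ≤ C * r * (m : ℝ) ^ (-e)) :
    ((univ.filter fun κ : ZMod r => ψ * DG (List.ofFn fun i => p.1 i + κ) (p.2 + κ) = 0).card : ℝ) ≤
      C * r * (addOrderOf ψ : ℝ) ^ (-e) := by
  obtain ⟨h1, h2⟩ := ka6_poly n (fun i => ((p.1 i).val : ℤ)) (p.2.val : ℤ)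
  have hm : 1 ≤ addOrderOf ψ := addOrderOf_pos ψ
  have hmr : addOrderOf ψ ≤ r := by
    have h := addOrderOf_le_card_univ (x := ψ)
    rwa [ZMod.card] at h
  have h3 := hC _ h1 h2 (addOrderOf ψ) r hm hmr
  refine le_trans ?_ h3
  have h4 : (univ.filter fun κ : ZMod r => ψ * DG (List.ofFn fun i => p.1 i + κ) (p.2 + κ) = 0).card ≤
      ((range r).filter fun k : ℕ => ((addOrderOf ψ : ℕ) : ℤ) ∣
        (DG (List.ofFn fun i => Polynomial.C (((p.1 i).val : ℤ)) + Polynomial.X)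
          (Polynomial.C ((p.2.val : ℤ)) + Polynomial.X)).eval (k : ℤ)).card := by
    refine card_le_card_of_injOn (fun κ => κ.val) ?_ (fun x _ y _ hxy => ZMod.val_injective r hxy)
    intro κ hκ
    have h5 : ψ * DG (List.ofFn fun i => p.1 i + κ) (p.2 + κ) = 0 := (mem_filter.1 (mem_coe.1 hκ)).2
    refine mem_coe.2 (mem_filter.2 ⟨mem_range.2 (ZMod.val_lt κ), ?_⟩)
    rw [addOrderOf_dvd_iff_zsmul_eq_zero, zsmul_eq_mul, ka6_eval]
    have h6 : ∀ x : ZMod r, (((x.val : ℕ) : ℤ) : ZMod r) = x := fun x => by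
      rw [Int.cast_natCast, ZMod.natCast_zmod_val]
    simp only [h6]
    rw [mul_comm]
    exact h5
  exact_mod_cast h4

theorem ka6_avg {n r : ℕ} [NeZero r] (ψ : ZMod r) :
    (univ.filter fun p : (Fin n → ZMod r) × ZMod r => ψ * DG (List.ofFn p.1) p.2 = 0).card * r =
      ∑ p : (Fin n → ZMod r) × ZMod r,
        (univ.filter fun κ : ZMod r => ψ * DG (List.ofFn fun i => p.1 i + κ) (p.2 + κ) = 0).card := by
  simp only [card_filter]
  rw [sum_comm]
  have h1 : ∀ κ : ZMod r, (∑ p : (Fin n → ZMod r) × ZMod r,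
      if ψ * DG (List.ofFn fun i => p.1 i + κ) (p.2 + κ) = 0 then 1 else 0) =
      ∑ p : (Fin n → ZMod r) × ZMod r, if ψ * DG (List.ofFn p.1) p.2 = 0 then 1 else 0 := by
    intro κ
    exact Equiv.sum_comp (Equiv.addRight ((fun _ => κ, κ) : (Fin n → ZMod r) × ZMod r))
      (fun p => if ψ * DG (List.ofFn p.1) p.2 = 0 then 1 else 0)
  rw [sum_congr rfl fun κ _ => h1 κ, sum_const, card_univ, ZMod.card, smul_eq_mul, mul_comm]

/-- Proof. Let `d = 2^n - 1 ≥ 1`, `c = DG (replicate n 1) 1 ≠ 0` (`KA1_pos`), `C`, `e` from `KA5_count`, `m = addOrderOf ψ` (`1 ≤ m ≤ r`, it divides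
`r`). For every `k : ZMod r` the map `p ↦ (fun i => p.1 i + k, p.2 + k)` is a permutation of `(Fin n → ZMod r) × ZMod r`, so
`r * card = ∑_p #{k : ZMod r | ψ * DG (List.ofFn fun i => p.1 i + k) (p.2 + k) = 0}`. Fix `p` and let `P = DG (List.ofFn fun i => C ((p.1 i).val : ℤ) + X)
(C (p.2.val : ℤ) + X)` in `Polynomial ℤ`. `KA1_deg`: `P.natDegree ≤ d`, `P.coeff d = c` (the coefficients at `1` are `1`:
`List.map_ofFn`, `List.ofFn_const`). For `k : ℕ` the ring homomorphism `Polynomial.eval₂RingHom (Int.castRingHom (ZMod r)) (k : ZMod r)` maps `P` to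
`DG (List.ofFn fun i => p.1 i + k) (p.2 + k)` (`KA1_map`, `ZMod.natCast_zmod_val`), and it is the cast of `P.eval (k : ℤ)`; so the condition is
`ψ * ((P.eval (k : ℤ) : ℤ) : ZMod r) = 0`, i.e. `P.eval k • ψ = 0`, i.e. `(m : ℤ) ∣ P.eval k` (`addOrderOf_dvd_iff_zsmul_eq_zero`). The elements of
`ZMod r` are the casts of `range r`; so the number of `k` is at most `C r m^(-e)` (`KA5_count`), and there are `r^(n+1)` values of `p`. -/
theorem KA6_prob (n : ℕ) (hn : 1 ≤ n) : ∃ C e : ℝ, 0 < C ∧ 0 < e ∧ e ≤ 1 ∧ ∀ (r : ℕ) [NeZero r] (ψ : ZMod r),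
    ((univ.filter fun p : (Fin n → ZMod r) × ZMod r => ψ * DG (List.ofFn p.1) p.2 = 0).card : ℝ) ≤
      C * (r : ℝ) ^ (n + 1) * (addOrderOf ψ : ℝ) ^ (-e) := by
  have hd : 1 ≤ 2 ^ n - 1 := by
    have h : 2 ^ 1 ≤ 2 ^ n := Nat.pow_le_pow_right (by norm_num) hn
    omega
  obtain ⟨C, e, hC, he, he1, hcount⟩ := KA5_count (2 ^ n - 1) hd _ (KA1_pos n)
  refine ⟨C, e, hC, he, he1, fun r _ ψ => ?_⟩
  have hr : (0 : ℝ) < r := by
    exact_mod_cast Nat.pos_of_ne_zero (NeZero.ne r)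
  have h1 := ka6_avg (n := n) ψ
  have h2 : ((univ.filter fun p : (Fin n → ZMod r) × ZMod r => ψ * DG (List.ofFn p.1) p.2 = 0).card : ℝ) * r =
      ∑ p : (Fin n → ZMod r) × ZMod r,
        ((univ.filter fun κ : ZMod r => ψ * DG (List.ofFn fun i => p.1 i + κ) (p.2 + κ) = 0).card : ℝ) := by
    exact_mod_cast h1
  have h3 : ∑ p : (Fin n → ZMod r) × ZMod r,
        ((univ.filter fun κ : ZMod r => ψ * DG (List.ofFn fun i => p.1 i + κ) (p.2 + κ) = 0).card : ℝ) ≤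
      ∑ p : (Fin n → ZMod r) × ZMod r, C * r * (addOrderOf ψ : ℝ) ^ (-e) :=
    sum_le_sum fun p _ => ka6_fibre ψ p hcount
  rw [← h2, sum_const, card_univ, Fintype.card_prod, Fintype.card_fun, Fintype.card_fin, ZMod.card,
    nsmul_eq_mul] at h3
  push_cast at h3
  refine le_of_mul_le_mul_right (h3.trans (le_of_eq ?_)) hr
  ring

end Pool.Agent.HUK
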