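import Pool.Agent.Lib.HUK.K0

/-!
# Project HUK, chunk KA7 (M): iterated differences of the phase `e(ψ y / (a r))`
-/

open Finset

namespace Pool.Agent.HUK

/-- The claim on iterated differences. -/
theorem ka7_claim {r : ℕ} [NeZero r] (ψ : ZMod r) (c : ZMod r × ZMod r → ℂ)
    (hc : ∀ z : ZMod r × ZMod r, c z = (if IsUnit z.2 then (1 : ℂ) else 0) *
      ZMod.stdAddChar (ψ * z.2⁻¹ * z.1)) (l : List (ZMod r × ZMod r)) :
    ∃ (A : ZMod r → ℂ) (B : ZMod r → ZMod r),
      (∀ z : ZMod r × ZMod r, DL (l.map fun p => p.2 • ((-p.1, 1) : ZMod r × ZMod r)) c z =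
        A z.2 * ZMod.stdAddChar (B z.2 * z.1)) ∧ (∀ a, ‖A a‖ ≤ 1) ∧
      ∀ a, A a ≠ 0 → B a * QG (l.map Prod.snd) a = ψ * DG (l.map Prod.snd) a := by
  classical
  induction l with
  | nil =>
    refine ⟨fun a => if IsUnit a then 1 else 0, fun a => ψ * a⁻¹, fun z => hc z, fun a => ?_,
      fun a ha => ?_⟩
    · change ‖(if IsUnit a then (1 : ℂ) else 0)‖ ≤ 1
      split_ifs <;> simp
    · have hu : IsUnit a := by
        by_contra h
        exact ha (if_neg h)
      change ψ * a⁻¹ * a = ψ * 1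
      rw [mul_assoc, ZMod.inv_mul_of_unit a hu]
  | cons p l ih =>
    obtain ⟨A, B, h1, h2, h3⟩ := ih
    obtain ⟨b, j⟩ := p
    refine ⟨fun a => A a * (starRingEnd ℂ) (A (a + j)) * ZMod.stdAddChar (B (a + j) * (j * b)),
      fun a => B a - B (a + j), fun z => ?_, fun a => ?_, fun a ha => ?_⟩
    · change DL (l.map fun p => p.2 • ((-p.1, 1) : ZMod r × ZMod r))
        (DD (j • ((-b, 1) : ZMod r × ZMod r)) c) z = _
      rw [DL_DD]
      change DL (l.map fun p => p.2 • ((-p.1, 1) : ZMod r × ZMod r)) c z *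
        (starRingEnd ℂ) (DL (l.map fun p => p.2 • ((-p.1, 1) : ZMod r × ZMod r)) c
          (z + j • ((-b, 1) : ZMod r × ZMod r))) = _
      rw [h1, h1]
      have h7 : ∀ u x : ZMod r, (starRingEnd ℂ) (A u * ZMod.stdAddChar x) =
          (starRingEnd ℂ) (A u) * ZMod.stdAddChar (-x) := by
        intro u x
        rw [RingHom.map_mul, ← AddChar.map_neg_eq_conj]
      rw [h7]
      change _ = A z.2 * (starRingEnd ℂ) (A (z.2 + j)) * ZMod.stdAddChar (B (z.2 + j) * (j * b)) *
            ZMod.stdAddChar ((B z.2 - B (z.2 + j)) * z.1)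
      have h4 : (z + j • ((-b, 1) : ZMod r × ZMod r)).2 = z.2 + j := by
        change z.2 + j * 1 = z.2 + j
        rw [mul_one]
      have h5 : (z + j • ((-b, 1) : ZMod r × ZMod r)).1 = z.1 + j * (-b) := rfl
      rw [h4, h5]
      have h6 : (ZMod.stdAddChar (B z.2 * z.1) : ℂ) *
          ZMod.stdAddChar (-(B (z.2 + j) * (z.1 + j * (-b)))) =
          ZMod.stdAddChar (B (z.2 + j) * (j * b)) *
            ZMod.stdAddChar ((B z.2 - B (z.2 + j)) * z.1) := by
        rw [← AddChar.map_add_eq_mul, ← AddChar.map_add_eq_mul]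
        congr 1
        ring
      calc A z.2 * ZMod.stdAddChar (B z.2 * z.1) * ((starRingEnd ℂ) (A (z.2 + j)) *
            ZMod.stdAddChar (-(B (z.2 + j) * (z.1 + j * (-b)))))
          = A z.2 * (starRingEnd ℂ) (A (z.2 + j)) * ((ZMod.stdAddChar (B z.2 * z.1) : ℂ) *
            ZMod.stdAddChar (-(B (z.2 + j) * (z.1 + j * (-b))))) := by ring
        _ = A z.2 * (starRingEnd ℂ) (A (z.2 + j)) * ZMod.stdAddChar (B (z.2 + j) * (j * b)) *
            ZMod.stdAddChar ((B z.2 - B (z.2 + j)) * z.1) := by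
            rw [h6]
            ring
    · change ‖A a * (starRingEnd ℂ) (A (a + j)) * ZMod.stdAddChar (B (a + j) * (j * b))‖ ≤ 1
      rw [norm_mul, norm_mul, AddChar.norm_apply, mul_one, RCLike.norm_conj]
      exact mul_le_one₀ (h2 a) (norm_nonneg _) (h2 _)
    · have ha1 : A a ≠ 0 := by
        intro h
        apply ha
        change A a * _ * _ = 0
        rw [h, zero_mul, zero_mul]
      have ha2 : A (a + j) ≠ 0 := by
        intro h
        apply ha
        change _ * (starRingEnd ℂ) (A (a + j)) * _ = 0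
        rw [h, map_zero, mul_zero, zero_mul]
      have h4 := h3 a ha1
      have h5 := h3 (a + j) ha2
      change (B a - B (a + j)) * (QG (l.map Prod.snd) a * QG (l.map Prod.snd) (a + j)) =
        ψ * (DG (l.map Prod.snd) a * QG (l.map Prod.snd) (a + j) -
          DG (l.map Prod.snd) (a + j) * QG (l.map Prod.snd) a)
      linear_combination QG (l.map Prod.snd) (a + j) * h4 - QG (l.map Prod.snd) a * h5

open Classical in
/-- Proof. Let `c` be the function. CLAIM, by induction on a list `l` of pairs `(b, j)`: there are `A : ZMod r → ℂ`, `B : ZMod r → ZMod r` with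
`DL (l.map fun p => p.2 • ((-p.1, 1) : ZMod r × ZMod r)) c (y, a) = A a * stdAddChar (B a * y)` for all `y`, `a`, `‖A a‖ ≤ 1`, and `A a ≠ 0` implies
`B a * QG (l.map Prod.snd) a = ψ * DG (l.map Prod.snd) a`. Empty list: `A a = 1` if `a` is a unit, else `0`, `B a = ψ * a⁻¹`
(`ZMod.inv_mul_of_unit`). Step: `DL ((b,j) :: l) c = DD (j • (-b, 1)) (DL l c)` (`DL_DD` in `P0.lean`), whose value at `(y, a)` is
`A a e(B a y) conj (A (a+j) e(B (a+j) (y - j b))) = A' a * e((B a - B (a+j)) y)`, `A' a = A a * conj (A (a+j)) * e(B (a+j) * (j * b))`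
(`‖stdAddChar x‖ = 1`, `conj (stdAddChar x) = stdAddChar (-x)`: `AddChar.map_neg_eq_conj`), and
`(B a - B (a+j)) * (QG l a * QG l (a+j)) = (ψ DG l a) QG l (a+j) - (ψ DG l (a+j)) QG l a`. The statement: with `l = List.ofFn fun i => (b i, j i)`
(`List.map_ofFn`) the sum is `∑_a A a ∑_y stdAddChar (B a * y)`, the inner sum is `r` if `B a = 0` and `0` else
(`AddChar.sum_mulShift` with `ZMod.isPrimitive_stdAddChar`), and `A a ≠ 0`, `B a = 0` imply `ψ * DG (List.ofFn j) a = 0`. -/
theorem KA7_phase {r : ℕ} [NeZero r] (n : ℕ) (b : Fin n → ZMod r) (ψ : ZMod r) (j : Fin n → ZMod r) :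
    ‖∑ z : ZMod r × ZMod r, DL (List.ofFn fun i => j i • ((-(b i), 1) : ZMod r × ZMod r))
      (fun z : ZMod r × ZMod r => if IsUnit z.2 then (ZMod.stdAddChar (ψ * z.2⁻¹ * z.1) : ℂ) else 0) z‖ ≤
      r * ((univ.filter fun a : ZMod r => ψ * DG (List.ofFn j) a = 0).card : ℝ) := by
  obtain ⟨c, hc⟩ : ∃ c : ZMod r × ZMod r → ℂ, c = fun z : ZMod r × ZMod r =>
      if IsUnit z.2 then (ZMod.stdAddChar (ψ * z.2⁻¹ * z.1) : ℂ) else 0 := ⟨_, rfl⟩
  obtain ⟨A, B, h1, h2, h3⟩ := ka7_claim ψ c (fun z => by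
    rw [hc]
    by_cases h : IsUnit z.2
    · simp only [if_pos h, one_mul]
    · simp only [if_neg h, zero_mul]) (List.ofFn fun i => (b i, j i))
  rw [List.map_ofFn] at h1
  rw [List.map_ofFn] at h3
  rw [← hc]
  have h4 : ∑ z : ZMod r × ZMod r, DL (List.ofFn fun i => j i • ((-(b i), 1) : ZMod r × ZMod r)) c z =
      ∑ a : ZMod r, A a * ∑ y : ZMod r, ZMod.stdAddChar (B a * y) := by
    rw [Fintype.sum_prod_type_right]
    refine Finset.sum_congr rfl fun a _ => ?_
    rw [Finset.mul_sum]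
    exact Finset.sum_congr rfl fun y _ => h1 (y, a)
  rw [h4]
  refine le_trans (norm_sum_le _ _) ?_
  rw [Finset.natCast_card_filter, Finset.mul_sum]
  refine Finset.sum_le_sum fun a _ => ?_
  have h5 : ∑ y : ZMod r, (ZMod.stdAddChar (B a * y) : ℂ) = if B a = 0 then (r : ℂ) else 0 := by
    have h6 := AddChar.sum_mulShift (B a) (ZMod.isPrimitive_stdAddChar r)
    rw [ZMod.card] at h6
    rw [← Finset.sum_congr rfl fun y _ => congrArg ZMod.stdAddChar (mul_comm y (B a)), h6]
    split_ifs <;> simp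
  rw [h5, norm_mul]
  by_cases hA : A a = 0
  · rw [hA, norm_zero, zero_mul]
    positivity
  · by_cases hB : B a = 0
    · have h7 : ψ * DG (List.ofFn j) a = 0 := by
        have h8 := h3 a hA
        rw [hB, zero_mul] at h8
        exact h8.symm
      rw [if_pos hB, if_pos h7, mul_one]
      have h9 : ‖(r : ℂ)‖ = r := by simp
      rw [h9]
      calc ‖A a‖ * r ≤ 1 * r := mul_le_mul_of_nonneg_right (h2 a) (Nat.cast_nonneg r)
        _ = r := one_mul _
    · rw [if_neg hB, norm_zero, mul_zero]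
      positivity

end Pool.Agent.HUK
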