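import Pool.Agent.Lib.HUK.KA0
import Pool.Agent.Lib.HUK.KA6
import Pool.Agent.Lib.HUK.KA7

/-!
# Project HUK, chunk KA8 (M/L): Fourier coefficients of the differences of a character
-/

open Finset

namespace Pool.Agent.HUK

/-- The vertices of the cube of dimension `s + 1`: for `u` of absolute value `1` the factors cancel. Proof. `cj (sg ω) u` is `u` or `conj u = u⁻¹`
according to the parity of `sg ω`; pair `Fin.cons false ω` with `Fin.cons true ω` (`Fin.consEquiv`, `p0_sg_cons` in `P0.lean`), the product of a pair is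
`u conj u = 1`. -/
theorem KA8_one (s : ℕ) (u : ℂ) (hu : ‖u‖ = 1) : ∏ ω : Fin (s + 1) → Bool, cj (sg ω) u = 1 := by
  rw [← (Fin.consEquiv fun _ : Fin (s + 1) => Bool).prod_comp, Fintype.prod_prod_type,
    Fintype.prod_bool, ← Finset.prod_mul_distrib]
  refine Finset.prod_eq_one fun ω _ => ?_
  change cj (sg (Fin.cons true ω : Fin (s + 1) → Bool)) u *
    cj (sg (Fin.cons false ω : Fin (s + 1) → Bool)) u = 1
  rw [p0_sg_cons, p0_sg_cons]
  simp only [if_true, Bool.false_eq_true, if_false, add_zero]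
  rw [← p0_cj_conj, ← p0_cj_mul, mul_comm, Complex.mul_conj, Complex.normSq_eq_norm_sq, hu]
  unfold cj
  split_ifs <;> simp

theorem ka8_vt {r : ℕ} {s : ℕ} (ω : Fin s → Bool) (t : Fin s → ZMod r) (a : ZMod r) :
    vt ω (fun i => a * t i) = a * vt ω t := by
  unfold vt
  rw [Finset.mul_sum]
  refine Finset.sum_congr rfl fun i _ => ?_
  split_ifs
  · rfl
  · rw [mul_zero]

/-- Proof. Let `a` be the class of the unit. `DL_prod` (`P0.lean`): both sides are products over the vertices;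
`χ (a y + vt ω (a t)) = χ a * χ (y + vt ω t)`, `cj n (u v) = cj n u * cj n v`, `‖χ a‖ = 1` for a unit (`DirichletCharacter.unit_norm_eq_one`), `KA8_one`. -/
theorem KA8_dil {r : ℕ} [NeZero r] (s : ℕ) (χ : DirichletCharacter ℂ r) (t : Fin (s + 1) → ZMod r) (a y : ZMod r)
    (ha : IsUnit a) : DL (List.ofFn fun i => a * t i) (fun y => χ y) (a * y) = DL (List.ofFn t) (fun y => χ y) y := by
  rw [DL_prod, DL_prod]
  have h1 : ∀ ω : Fin (s + 1) → Bool, cj (sg ω) (χ (a * y + vt ω fun i => a * t i)) =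
      cj (sg ω) (χ a) * cj (sg ω) (χ (y + vt ω t)) := by
    intro ω
    rw [← p0_cj_mul, ← map_mul]
    congr 2
    rw [mul_add, ka8_vt]
  rw [Finset.prod_congr rfl fun ω _ => h1 ω, Finset.prod_mul_distrib]
  have h2 : ‖χ a‖ = 1 := by
    obtain ⟨u, rfl⟩ := ha
    exact χ.unit_norm_eq_one u
  rw [KA8_one s (χ a) h2, one_mul]

theorem ka8_inner {r : ℕ} [NeZero r] (s : ℕ) (χ : DirichletCharacter ℂ r)
    (t : Fin (s + 1) → ZMod r) (ψ a : ZMod r) (ha : IsUnit a) :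
    ∑ y, DL (List.ofFn fun i => a * t i) (fun y => χ y) y * ZMod.stdAddChar ((-ψ) * a⁻¹ * y) =
      (r : ℂ) * ft (DL (List.ofFn t) fun y => χ y) ψ := by
  have hr : (r : ℂ) ≠ 0 := Nat.cast_ne_zero.2 (NeZero.ne r)
  have hinv := ZMod.inv_mul_of_unit a ha
  obtain ⟨u, hu⟩ := ha
  rw [ft, mul_comm (r : ℂ), div_mul_cancel₀ _ hr, ← Equiv.sum_comp (Units.mulLeft u)]
  refine Finset.sum_congr rfl fun x _ => ?_
  rw [Units.mulLeft_apply, hu, KA8_dil s χ t a x ⟨u, hu⟩]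
  congr 2
  calc (-ψ) * a⁻¹ * (a * x) = (-ψ) * (a⁻¹ * a) * x := by ring
    _ = -(ψ * x) := by rw [hinv]; ring

theorem ka8_units {r : ℕ} [NeZero r] (K : ℂ) (F : ZMod r → ℂ) (h1 : ∀ a, IsUnit a → F a = K)
    (h2 : ∀ a, ¬ IsUnit a → F a = 0) : ∑ a, F a = (Nat.totient r : ℂ) * K := by
  have h3 := MulChar.sum_one_eq_card_units (R := ZMod r) (R' := ℂ)
  rw [ZMod.card_units_eq_totient] at h3
  rw [← h3, Finset.sum_mul]
  refine Finset.sum_congr rfl fun a _ => ?_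
  by_cases h : IsUnit a
  · rw [h1 a h, MulChar.one_apply h, one_mul]
  · rw [h2 a h, MulChar.map_nonunit _ h, zero_mul]

theorem ka8_cj_norm (n : ℕ) (z : ℂ) : ‖cj n z‖ = ‖z‖ := by
  unfold cj
  split_ifs
  · rfl
  · exact RCLike.norm_conj z

open Classical in
theorem ka8_key (s : ℕ) {r : ℕ} [NeZero r] (χ : DirichletCharacter ℂ r)
    (t : Fin (s + 1) → ZMod r) (ψ : ZMod r) (n : ℕ) (hn : n = 2 ^ (s + 1)) :
    (‖ft (DL (List.ofFn t) fun y => χ y) ψ‖ * ((Nat.totient r : ℝ) / r)) ^ (2 ^ n) ≤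
      (2 : ℝ) ^ (2 ^ n + n) / (r : ℝ) ^ (n + 1) *
        ((univ.filter fun p : (Fin n → ZMod r) × ZMod r =>
          (-ψ) * DG (List.ofFn p.1) p.2 = 0).card : ℝ) := by
  have hr : (0 : ℝ) < r := Nat.cast_pos.2 (Nat.pos_of_ne_zero (NeZero.ne r))
  obtain ⟨σ⟩ : Nonempty (Fin n ≃ (Fin (s + 1) → Bool)) := by
    refine ⟨(Fintype.equivFinOfCardEq ?_).symm⟩
    rw [Fintype.card_fun, Fintype.card_bool, Fintype.card_fin, hn]
  obtain ⟨g, hg⟩ : ∃ g : Fin n → ZMod r × ZMod r → ℂ, ∀ i z, g i z =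
      cj (sg (σ i)) (χ (z.1 + z.2 * vt (σ i) t)) := ⟨_, fun _ _ => rfl⟩
  obtain ⟨c, hc⟩ : ∃ c : ZMod r × ZMod r → ℂ, c = fun z : ZMod r × ZMod r =>
      if IsUnit z.2 then (ZMod.stdAddChar ((-ψ) * z.2⁻¹ * z.1) : ℂ) else 0 := ⟨_, rfl⟩
  have hE := KA0_elim (q := r) (Z := ZMod r × ZMod r) n
    (fun i => ((-(vt (σ i) t), 1) : ZMod r × ZMod r)) g c
    (fun i z => by
      rw [hg, ka8_cj_norm]
      exact χ.norm_le_one _)
    (fun i z => by
      rw [hg, hg]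
      congr 2
      change z.1 + -(vt (σ i) t) + (z.2 + 1) * vt (σ i) t = z.1 + z.2 * vt (σ i) t
      ring)
  have hprod : ∀ z : ZMod r × ZMod r, ∏ i, g i z =
      DL (List.ofFn fun i => z.2 * t i) (fun y => χ y) z.1 := by
    intro z
    rw [DL_prod, Finset.prod_congr rfl fun i _ => hg i z]
    rw [Equiv.prod_comp σ (fun ω => cj (sg ω) (χ (z.1 + z.2 * vt ω t)))]
    refine Finset.prod_congr rfl fun ω _ => ?_
    rw [ka8_vt]
  have htot : ∑ z, (∏ i, g i z) * c z =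
      (Nat.totient r : ℂ) * ((r : ℂ) * ft (DL (List.ofFn t) fun y => χ y) ψ) := by
    rw [Fintype.sum_prod_type_right]
    refine ka8_units _ _ (fun a ha => ?_) (fun a ha => ?_)
    · rw [← ka8_inner s χ t ψ a ha]
      refine Finset.sum_congr rfl fun y _ => ?_
      rw [hprod, hc]
      change DL (List.ofFn fun i => a * t i) (fun y => χ y) y *
        (if IsUnit a then (ZMod.stdAddChar ((-ψ) * a⁻¹ * y) : ℂ) else 0) = _
      rw [if_pos ha]
    · refine Finset.sum_eq_zero fun y _ => ?_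
      rw [hc]
      change (∏ i, g i (y, a)) *
        (if IsUnit a then (ZMod.stdAddChar ((-ψ) * a⁻¹ * y) : ℂ) else 0) = 0
      rw [if_neg ha, mul_zero]
  have hcard : (Fintype.card (ZMod r × ZMod r) : ℝ) = (r : ℝ) ^ 2 := by
    rw [Fintype.card_prod, ZMod.card]
    push_cast
    ring
  rw [htot, hcard] at hE
  have hT : ‖(Nat.totient r : ℂ) * ((r : ℂ) * ft (DL (List.ofFn t) fun y => χ y) ψ)‖ / (r : ℝ) ^ 2 =
      ‖ft (DL (List.ofFn t) fun y => χ y) ψ‖ * ((Nat.totient r : ℝ) / r) := by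
    rw [norm_mul, norm_mul, Complex.norm_natCast, Complex.norm_natCast]
    field_simp
  rw [hT] at hE
  refine le_trans hE ?_
  have hsum : ∑ j : Fin n → ZMod r, ‖∑ z, DL (List.ofFn fun i => j i •
      ((-(vt (σ i) t), 1) : ZMod r × ZMod r)) c z‖ / (r : ℝ) ^ 2 ≤
      ((univ.filter fun p : (Fin n → ZMod r) × ZMod r =>
          (-ψ) * DG (List.ofFn p.1) p.2 = 0).card : ℝ) / r := by
    rw [Finset.natCast_card_filter, Fintype.sum_prod_type, Finset.sum_div]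
    refine Finset.sum_le_sum fun j _ => ?_
    have h7 := KA7_phase n (fun i => vt (σ i) t) (-ψ) j
    rw [← hc, Finset.natCast_card_filter] at h7
    calc ‖∑ z, DL (List.ofFn fun i => j i • ((-(vt (σ i) t), 1) : ZMod r × ZMod r)) c z‖ /
          (r : ℝ) ^ 2
        ≤ (r * ∑ a : ZMod r, if (-ψ) * DG (List.ofFn j) a = 0 then (1 : ℝ) else 0) / (r : ℝ) ^ 2 :=
          div_le_div_of_nonneg_right h7 (by positivity)
      _ = (∑ a : ZMod r, if (-ψ) * DG (List.ofFn j) a = 0 then (1 : ℝ) else 0) / r := by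
          field_simp
  calc (2 : ℝ) ^ (2 ^ n + n) / (r : ℝ) ^ n * ∑ j : Fin n → ZMod r,
        ‖∑ z, DL (List.ofFn fun i => j i • ((-(vt (σ i) t), 1) : ZMod r × ZMod r)) c z‖ /
          (r : ℝ) ^ 2
      ≤ (2 : ℝ) ^ (2 ^ n + n) / (r : ℝ) ^ n *
        (((univ.filter fun p : (Fin n → ZMod r) × ZMod r =>
          (-ψ) * DG (List.ofFn p.1) p.2 = 0).card : ℝ) / r) :=
        mul_le_mul_of_nonneg_left hsum (by positivity)
    _ = (2 : ℝ) ^ (2 ^ n + n) / (r : ℝ) ^ (n + 1) *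
        ((univ.filter fun p : (Fin n → ZMod r) × ZMod r =>
          (-ψ) * DG (List.ofFn p.1) p.2 = 0).card : ℝ) := by
        rw [pow_succ (r : ℝ) n]
        field_simp

/-- Proof. Let `n = 2^(s+1)`, `σ : Fin n ≃ (Fin (s+1) → Bool)` (`Fintype.equivFinOfCardEq`), `Z = ZMod r × ZMod r`, `F = DL (List.ofFn t) χ`,
`c (y, a) = stdAddChar ((-ψ) * a⁻¹ * y)` for a unit `a`, `0` else, `g i (y, a) = cj (sg ω) (χ (y + a * vt ω t))` with `ω = σ i`, and
`v i = (-(vt ω t), 1)`; `g i (z + v i) = g i z`, `‖g i z‖ ≤ 1`. For a unit `a` (substitution `y = a x`, `KA8_dil`, `a⁻¹ * (a * x) = x`):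
`r * ft F ψ = ∑_x F x stdAddChar (-(ψ x)) = ∑_y DL (List.ofFn fun i => a * t i) χ y * c (y, a)`, and `DL (..) χ y = ∏ i, g i (y, a)` (`DL_prod`,
`vt ω (a t) = a * vt ω t`, `Equiv.prod_comp`). The number of units is `φ(r)` (`ZMod.card_units_eq_totient`), so
`φ(r) * r * ft F ψ = ∑_z (∏ i, g i z) * c z`, i.e. `‖ft F ψ‖ φ(r) / r = ‖∑_z ..‖ / r^2`. `KA0_elim` (`q = r`, `n` functions) and `KA7_phase`
(for `-ψ`): `(..)^(2^n) ≤ 2^(2^n + n) / r^n * ∑_j r * #{a | (-ψ) * DG (List.ofFn j) a = 0} / r^2 = 2^(2^n + n) / r^(n+1) * #{(j, a)}`, at most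
`2^(2^n + n) * C * (addOrderOf (-ψ))^(-e)` by `KA6_prob` (`n ≥ 1`), `addOrderOf_neg`. Take the root of order `2^n`. -/
theorem KA8_ft (s : ℕ) : ∃ C e : ℝ, 0 < C ∧ 0 < e ∧ e ≤ 1 ∧ ∀ (r : ℕ) [NeZero r] (χ : DirichletCharacter ℂ r)
    (t : Fin (s + 1) → ZMod r) (ψ : ZMod r),
    ‖ft (DL (List.ofFn t) fun y => χ y) ψ‖ * ((Nat.totient r : ℝ) / r) ≤ C * (addOrderOf ψ : ℝ) ^ (-e) := by
  have hn : 1 ≤ 2 ^ (s + 1) := Nat.one_le_two_pow
  obtain ⟨C0, e0, hC0, he0, he1, hprob⟩ := KA6_prob (2 ^ (s + 1)) hn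
  obtain ⟨n, hnd⟩ : ∃ n : ℕ, n = 2 ^ (s + 1) := ⟨_, rfl⟩
  rw [← hnd] at hprob
  have hN0 : (0 : ℝ) < (2 : ℝ) ^ n := by positivity
  have hN1 : (1 : ℝ) ≤ (2 : ℝ) ^ n := one_le_pow₀ (by norm_num)
  refine ⟨((2 : ℝ) ^ (2 ^ n + n) * C0) ^ (1 / (2 : ℝ) ^ n), e0 / (2 : ℝ) ^ n, by positivity,
    by positivity, ?_, ?_⟩
  · rw [div_le_one hN0]
    linarith
  · intro r _ χ t ψ
    have hr : (0 : ℝ) < r := Nat.cast_pos.2 (Nat.pos_of_ne_zero (NeZero.ne r))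
    have hkey := ka8_key s χ t ψ n hnd
    have h1 : ((univ.filter fun p : (Fin n → ZMod r) × ZMod r =>
        (-ψ) * DG (List.ofFn p.1) p.2 = 0).card : ℝ) ≤
        C0 * (r : ℝ) ^ (n + 1) * (addOrderOf ψ : ℝ) ^ (-e0) := by
      have h2 := hprob r (-ψ)
      rw [addOrderOf_neg] at h2
      exact h2
    obtain ⟨T, hT⟩ : ∃ T : ℝ, T = ‖ft (DL (List.ofFn t) fun y => χ y) ψ‖ *
      ((Nat.totient r : ℝ) / r) := ⟨_, rfl⟩
    have hT0 : 0 ≤ T := by rw [hT]; positivity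
    rw [← hT] at hkey ⊢
    have hord : (0 : ℝ) < addOrderOf ψ := Nat.cast_pos.2 (addOrderOf_pos ψ)
    have h3 : T ^ (2 ^ n) ≤ (2 : ℝ) ^ (2 ^ n + n) * C0 * (addOrderOf ψ : ℝ) ^ (-e0) := by
      refine le_trans hkey ?_
      calc (2 : ℝ) ^ (2 ^ n + n) / (r : ℝ) ^ (n + 1) *
            ((univ.filter fun p : (Fin n → ZMod r) × ZMod r =>
              (-ψ) * DG (List.ofFn p.1) p.2 = 0).card : ℝ)
          ≤ (2 : ℝ) ^ (2 ^ n + n) / (r : ℝ) ^ (n + 1) *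
            (C0 * (r : ℝ) ^ (n + 1) * (addOrderOf ψ : ℝ) ^ (-e0)) :=
            mul_le_mul_of_nonneg_left h1 (by positivity)
        _ = (2 : ℝ) ^ (2 ^ n + n) * C0 * (addOrderOf ψ : ℝ) ^ (-e0) := by
            field_simp
    have h4 : T = (T ^ (2 ^ n)) ^ (1 / (2 : ℝ) ^ n) := by
      rw [← Real.rpow_natCast T (2 ^ n), ← Real.rpow_mul hT0]
      push_cast
      rw [mul_one_div_cancel hN0.ne', Real.rpow_one]
    rw [h4]
    calc (T ^ (2 ^ n)) ^ (1 / (2 : ℝ) ^ n)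
        ≤ ((2 : ℝ) ^ (2 ^ n + n) * C0 * (addOrderOf ψ : ℝ) ^ (-e0)) ^ (1 / (2 : ℝ) ^ n) :=
          Real.rpow_le_rpow (by positivity) h3 (by positivity)
      _ = ((2 : ℝ) ^ (2 ^ n + n) * C0) ^ (1 / (2 : ℝ) ^ n) *
          (addOrderOf ψ : ℝ) ^ (-(e0 / (2 : ℝ) ^ n)) := by
          rw [Real.mul_rpow (by positivity) (by positivity), ← Real.rpow_mul hord.le]
          congr 2
          ring

end Pool.Agent.HUK
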