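import Pool.Agent.Lib.HUK.K0

/-!
# Project HUK, chunk KA9 (M): Parseval and the `U²` norm on `ZMod r`
-/

open Finset

namespace Pool.Agent.HUK

theorem ka9_sq {r : ℕ} [NeZero r] (g : ZMod r → ℂ) (x : ZMod r) :
    ((‖ft g x‖ ^ 2 : ℝ) : ℂ) = (∑ z, ZMod.stdAddChar (x * z) * ∑ y, DD z g y) / (r : ℂ) ^ 2 := by
  have h1 : ((‖ft g x‖ ^ 2 : ℝ) : ℂ) = ft g x * (starRingEnd ℂ) (ft g x) := by
    rw [Complex.mul_conj, Complex.normSq_eq_norm_sq]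
  rw [h1, ft, map_div₀, map_natCast, div_mul_div_comm, ← sq, map_sum]
  congr 1
  have h2 : ∀ w, (starRingEnd ℂ) (g w * ZMod.stdAddChar (-(x * w))) =
      (starRingEnd ℂ) (g w) * ZMod.stdAddChar (x * w) := by
    intro w
    rw [map_mul, ← AddChar.map_neg_eq_conj, neg_neg]
  rw [Finset.sum_congr rfl fun w _ => h2 w, Finset.sum_mul]
  have h3 : ∀ y, g y * ZMod.stdAddChar (-(x * y)) *
      ∑ w, (starRingEnd ℂ) (g w) * ZMod.stdAddChar (x * w) =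
      ∑ z, ZMod.stdAddChar (x * z) * DD z g y := by
    intro y
    rw [← Equiv.sum_comp (Equiv.addLeft y)
      (fun w => (starRingEnd ℂ) (g w) * ZMod.stdAddChar (x * w)), Finset.mul_sum]
    refine Finset.sum_congr rfl fun z _ => ?_
    change g y * ZMod.stdAddChar (-(x * y)) *
      ((starRingEnd ℂ) (g (y + z)) * ZMod.stdAddChar (x * (y + z))) =
      ZMod.stdAddChar (x * z) * (g y * (starRingEnd ℂ) (g (y + z)))
    have h4 : (ZMod.stdAddChar (x * z) : ℂ) =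
        ZMod.stdAddChar (-(x * y)) * ZMod.stdAddChar (x * (y + z)) := by
      rw [← AddChar.map_add_eq_mul]
      congr 1
      ring
    rw [h4]
    ring
  rw [Finset.sum_congr rfl fun y _ => h3 y, Finset.sum_comm]
  refine Finset.sum_congr rfl fun z _ => ?_
  rw [Finset.mul_sum]

/-- Parseval. Expand the square and use `∑_x stdAddChar (x * (z - y)) = r` if `z = y`, else `0` (`AddChar.sum_mulShift`, `ZMod.isPrimitive_stdAddChar`). -/
theorem KA9_parseval {r : ℕ} [NeZero r] (f : ZMod r → ℂ) : ∑ x, ‖ft f x‖ ^ 2 = (∑ y, ‖f y‖ ^ 2) / r := by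
  have hr : (r : ℂ) ≠ 0 := Nat.cast_ne_zero.2 (NeZero.ne r)
  have h1 : ((∑ x, ‖ft f x‖ ^ 2 : ℝ) : ℂ) = (((∑ y, ‖f y‖ ^ 2) / r : ℝ) : ℂ) := by
    push_cast
    have h2 : ∀ x, ((‖ft f x‖ : ℂ)) ^ 2 =
        (∑ z, ZMod.stdAddChar (x * z) * ∑ y, DD z f y) / (r : ℂ) ^ 2 := by
      intro x
      rw [← ka9_sq f x]
      push_cast
      rfl
    rw [Finset.sum_congr rfl fun x _ => h2 x, ← Finset.sum_div, Finset.sum_comm]
    have h3 : ∀ z : ZMod r, ∑ x : ZMod r, (ZMod.stdAddChar (x * z) : ℂ) * ∑ y, DD z f y =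
        if z = 0 then (r : ℂ) * ∑ y, DD z f y else 0 := by
      intro z
      rw [← Finset.sum_mul, AddChar.sum_mulShift z (ZMod.isPrimitive_stdAddChar r), ZMod.card]
      split_ifs <;> simp
    rw [Finset.sum_congr rfl fun z _ => h3 z, Finset.sum_ite_eq' Finset.univ (0 : ZMod r),
      if_pos (Finset.mem_univ _)]
    have h4 : ∀ y, DD (0 : ZMod r) f y = ((‖f y‖ : ℂ)) ^ 2 := by
      intro y
      rw [DD, add_zero, Complex.mul_conj, Complex.normSq_eq_norm_sq]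
      push_cast
      rfl
    rw [Finset.sum_congr rfl fun y _ => h4 y]
    field_simp
  exact_mod_cast h1

/-- Proof. Let `A h = ∑_y f y * conj (f (y + h))`. `ft A (-x) = (1/r) ∑_h ∑_y f y conj f(y+h) e(x h) = (1/r) (∑_y f y e(-x y)) (∑_z conj (f z) e(x z))
= r ‖ft f x‖²`. For fixed `h2`: `∑_{h1} ∑_y DD h1 (DD h2 f) y = (∑_y DD h2 f y) (∑_y conj (DD h2 f y)) = ‖A h2‖²`. So the left side is
`∑_h ‖A h‖² = r ∑_x ‖ft A x‖²` (`KA9_parseval`) `= r ∑_x r² ‖ft f x‖⁴` (`x ↦ -x`, `Equiv.sum_comp (Equiv.neg _)`). -/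
theorem KA9_U2 {r : ℕ} [NeZero r] (f : ZMod r → ℂ) :
    ∑ h1 : ZMod r, ∑ h2 : ZMod r, ∑ y, DD h1 (DD h2 f) y = (((r : ℝ) ^ 3 * ∑ x, ‖ft f x‖ ^ 4 : ℝ) : ℂ) := by
  have hr : (r : ℂ) ≠ 0 := Nat.cast_ne_zero.2 (NeZero.ne r)
  obtain ⟨A, hA⟩ : ∃ A : ZMod r → ℂ, ∀ h, A h = ∑ y, DD h f y := ⟨_, fun _ => rfl⟩
  have h1 : ∀ h2 : ZMod r, ∑ h1 : ZMod r, ∑ y, DD h1 (DD h2 f) y = ((‖A h2‖ ^ 2 : ℝ) : ℂ) := by
    intro h2
    have h3 : ((‖A h2‖ ^ 2 : ℝ) : ℂ) = A h2 * (starRingEnd ℂ) (A h2) := by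
      rw [Complex.mul_conj, Complex.normSq_eq_norm_sq]
    rw [h3, hA, map_sum, Finset.sum_comm, Finset.sum_mul]
    refine Finset.sum_congr rfl fun y _ => ?_
    rw [← Equiv.sum_comp (Equiv.addLeft y) (fun w => (starRingEnd ℂ) (DD h2 f w)), Finset.mul_sum]
    exact Finset.sum_congr rfl fun z _ => rfl
  have h2 : ∀ x, ft A (-x) = (r : ℂ) * ((‖ft f x‖ ^ 2 : ℝ) : ℂ) := by
    intro x
    rw [ka9_sq f x, ft]
    have h3 : ∀ y, A y * ZMod.stdAddChar (-(-x * y)) =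
        ZMod.stdAddChar (x * y) * ∑ w, DD y f w := by
      intro y
      rw [hA, neg_mul, neg_neg, mul_comm]
    rw [Finset.sum_congr rfl fun y _ => h3 y]
    field_simp
  have h3 : ∑ h : ZMod r, ‖A h‖ ^ 2 = r * ∑ x, ‖ft A x‖ ^ 2 := by
    have hr' : (r : ℝ) ≠ 0 := Nat.cast_ne_zero.2 (NeZero.ne r)
    rw [KA9_parseval A]
    field_simp
  have h4 : ∑ x, ‖ft A x‖ ^ 2 = (r : ℝ) ^ 2 * ∑ x, ‖ft f x‖ ^ 4 := by
    rw [← Equiv.sum_comp (Equiv.neg (ZMod r)) (fun x => ‖ft A x‖ ^ 2), Finset.mul_sum]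
    refine Finset.sum_congr rfl fun x _ => ?_
    change ‖ft A (-x)‖ ^ 2 = _
    rw [h2, norm_mul, Complex.norm_real, Complex.norm_natCast, Real.norm_eq_abs,
      abs_of_nonneg (by positivity)]
    ring
  rw [Finset.sum_comm, Finset.sum_congr rfl fun h _ => h1 h, ← Complex.ofReal_sum, h3, h4]
  push_cast
  ring

/-- The square of a Fourier coefficient: `‖ft g x‖² = (1/r²) ∑_z e(x z) ∑_y DD z g y`. (`conj (stdAddChar u) = stdAddChar (-u)`; substitution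
of the second variable by `y + z`.) -/
theorem KA9_sq {r : ℕ} [NeZero r] (g : ZMod r → ℂ) (x : ZMod r) :
    ((‖ft g x‖ ^ 2 : ℝ) : ℂ) = (∑ z, ZMod.stdAddChar (x * z) * ∑ y, DD z g y) / (r : ℂ) ^ 2 := by
  exact ka9_sq g x

end Pool.Agent.HUK
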