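import Pool.Agent.Lib.HUK.P0

/-!
# Project HUK, module K, part 2: averages over complete periods (definitions; only `P0`)
-/

open Finset

namespace Pool.Agent.HUK

noncomputable section

/-- The coefficients `k - i`. -/
def lam (k : ℕ) (i : Fin k) : ℤ := (k : ℤ) - (i : ℕ)

/-- The vertex `∑_{ω i} (k - i) h_i`. -/
def vl {k : ℕ} (ω : Fin k → Bool) (h : Fin k → ℤ) : ℤ := vt ω (fun i => lam k i * h i)

/-- Periodic modulo `M` in all variables. -/
def Pe {k : ℕ} (M : ℕ) (φ : ℤ → (Fin k → ℤ) → ℂ) : Prop :=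
  ∀ (y y' : ℤ) (h h' : Fin k → ℤ), (M : ℤ) ∣ y - y' → (∀ i, (M : ℤ) ∣ h i - h' i) → φ y h = φ y' h'

/-- The average over a period of the absolute value of the average over `y`. -/
def Av (k M : ℕ) (φ : ℤ → (Fin k → ℤ) → ℂ) : ℝ :=
  (∑ h ∈ Fintype.piFinset (fun _ : Fin k => Ico (0 : ℤ) M), ‖∑ y ∈ Ico (0 : ℤ) M, φ y h‖) / (M : ℝ) ^ (k + 1)

end

end Pool.Agent.HUK
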