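import Pool.Agent.Lib.HUK.KB0

/-!
# Project HUK, chunk KB10 (M/L): frozen coefficient, short averages
-/

open Finset

namespace Pool.Agent.HUK

theorem kb10_cjn (n : ℕ) (z : ℂ) : ‖cj n z‖ = ‖z‖ := by
  unfold cj
  split_ifs
  · rfl
  · exact RCLike.norm_conj z

theorem kb10_cjs (n : ℕ) (a b : ℂ) : cj n (a - b) = cj n a - cj n b := by
  unfold cj
  split_ifs
  · rfl
  · exact map_sub _ _ _

theorem kb10_prod {ι : Type*} [DecidableEq ι] (s : Finset ι) (u u' : ι → ℂ) (S ε : ℝ) (hS : 0 ≤ S) (hε : 0 ≤ ε)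
    (hu : ∀ i, ‖u i‖ ≤ S) (hu' : ∀ i, ‖u' i‖ ≤ S) (h : ∀ i, ‖u i - u' i‖ ≤ ε * S) :
    ‖∏ i ∈ s, u i - ∏ i ∈ s, u' i‖ ≤ s.card * ε * S ^ s.card := by
  induction s using Finset.induction_on with
  | empty => simp
  | insert a t ha ih =>
    rw [prod_insert ha, prod_insert ha, card_insert_of_notMem ha]
    have h1 : u a * ∏ i ∈ t, u i - u' a * ∏ i ∈ t, u' i =
        (u a - u' a) * ∏ i ∈ t, u i + u' a * (∏ i ∈ t, u i - ∏ i ∈ t, u' i) := by ring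
    rw [h1]
    have h2 : ‖∏ i ∈ t, u i‖ ≤ S ^ t.card := by
      rw [norm_prod]
      calc _ ≤ ∏ i ∈ t, S := prod_le_prod (fun _ _ => norm_nonneg _) fun i _ => hu i
        _ = _ := prod_const _
    calc ‖(u a - u' a) * ∏ i ∈ t, u i + u' a * (∏ i ∈ t, u i - ∏ i ∈ t, u' i)‖ ≤
        ‖u a - u' a‖ * ‖∏ i ∈ t, u i‖ + ‖u' a‖ * ‖∏ i ∈ t, u i - ∏ i ∈ t, u' i‖ := by
          refine (norm_add_le _ _).trans ?_
          rw [norm_mul, norm_mul]
      _ ≤ ε * S * S ^ t.card + S * (t.card * ε * S ^ t.card) :=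
          add_le_add (mul_le_mul (h a) h2 (norm_nonneg _) (by positivity)) (mul_le_mul (hu' a) ih (norm_nonneg _) hS)
      _ = _ := by push_cast; ring

/-- Perturbation of the product over the vertices. Proof. `cj n` is multiplicative and an isometry, additive. Replace the factors one by one
(`Finset.prod_add_one..`, or induction over a finset of vertices): for `n` factors `‖∏ u_i - ∏ u'_i‖ ≤ n ε S^n` if all `‖u_i‖, ‖u'_i‖ ≤ S`, `1 ≤ S`,
`‖u_i - u'_i‖ ≤ ε S`; here `u = cj (a ω * b ω)`, `u' = cj (a0 * b ω)`, `n = 2^k`. -/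
theorem KB10_pert {k : ℕ} (a b : (Fin k → Bool) → ℂ) (a0 : ℂ) (S ε : ℝ) (hS : 1 ≤ S) (ha : ∀ ω, ‖a ω‖ ≤ 1) (ha0 : ‖a0‖ ≤ 1)
    (hb : ∀ ω, ‖b ω‖ ≤ S) (hε : ∀ ω, ‖a ω - a0‖ ≤ ε) :
    ‖∏ ω, cj (sg ω) (a ω * b ω) - (∏ ω : Fin k → Bool, cj (sg ω) a0) * ∏ ω, cj (sg ω) (b ω)‖ ≤ 2 ^ k * ε * S ^ (2 ^ k) := by
  have hε0 : 0 ≤ ε := (norm_nonneg _).trans (hε fun _ => false)
  have hS0 : 0 ≤ S := by linarith
  rw [← prod_mul_distrib]
  have hc : (univ : Finset (Fin k → Bool)).card = 2 ^ k := by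
    rw [card_univ, Fintype.card_fun, Fintype.card_bool, Fintype.card_fin]
  have h1 := kb10_prod (univ : Finset (Fin k → Bool)) (fun ω => cj (sg ω) (a ω * b ω))
    (fun ω => cj (sg ω) a0 * cj (sg ω) (b ω)) S ε hS0 hε0 (fun ω => ?_) (fun ω => ?_) (fun ω => ?_)
  · rw [hc] at h1
    push_cast at h1
    exact h1
  · rw [kb10_cjn, norm_mul]
    exact (mul_le_of_le_one_left (norm_nonneg _) (ha ω)).trans (hb ω)
  · rw [norm_mul, kb10_cjn, kb10_cjn]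
    exact (mul_le_of_le_one_left (norm_nonneg _) ha0).trans (hb ω)
  · rw [← p0_cj_mul, ← kb10_cjs, kb10_cjn, ← sub_mul, norm_mul]
    exact mul_le_mul (hε ω) (hb ω) (norm_nonneg _) hε0

/-- `|vl ω j| ≤ k² H` for `j ∈ bxS k H`. -/
theorem KB10_vl {k : ℕ} (H : ℕ) (ω : Fin k → Bool) (j : Fin k → ℤ) (hj : j ∈ bxS k H) : |vl ω j| ≤ (k : ℤ) ^ 2 * H := by
  unfold vl vt
  refine (abs_sum_le_sum_abs _ _).trans ?_
  calc ∑ i, |if ω i = true then lam k i * j i else 0| ≤ ∑ i : Fin k, (k : ℤ) * H := by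
        refine sum_le_sum fun i _ => ?_
        have h1 : |j i| ≤ H := by
          have := mem_Ioo.1 (Fintype.mem_piFinset.1 hj i)
          exact abs_le.2 ⟨by omega, by omega⟩
        have h2 : |lam k i| ≤ k := by
          unfold lam
          have := i.2
          rw [abs_le]
          constructor <;> omega
        split_ifs
        · rw [abs_mul]
          exact mul_le_mul h2 h1 (abs_nonneg _) (by positivity)
        · rw [abs_zero]
          positivity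
    _ = (k : ℤ) ^ 2 * H := by
        rw [sum_const, card_univ, Fintype.card_fin, nsmul_eq_mul]
        ring

theorem kb10_lip (β : ℤ → ℂ) (δ : ℝ) (u v : ℤ) (hL : ∀ m, u ≤ m → m + 1 < v → ‖β (m + 1) - β m‖ ≤ δ) (d : ℕ) :
    ∀ m, u ≤ m → m + d < v → ‖β (m + d) - β m‖ ≤ d * δ := by
  induction d with
  | zero =>
    intro m _ _
    simp
  | succ d ih =>
    intro m h1 h2
    push_cast at h2 ⊢
    have h3 := ih m h1 (by omega)
    have h4 := hL (m + d) (by omega) (by omega)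
    have h5 : β (m + (d + 1)) - β m = (β (m + d + 1) - β (m + d)) + (β (m + d) - β m) := by
      rw [← add_assoc]
      ring
    rw [h5]
    calc _ ≤ _ := norm_add_le _ _
      _ ≤ δ + d * δ := add_le_add h4 h3
      _ = _ := by ring

theorem kb10_lip' (β : ℤ → ℂ) (δ : ℝ) (hδ : 0 ≤ δ) (u v : ℤ) (hL : ∀ m, u ≤ m → m + 1 < v → ‖β (m + 1) - β m‖ ≤ δ)
    (x y D : ℤ) (hx : u ≤ x) (hx' : x < v) (hy : u ≤ y) (hy' : y < v) (hD : |x - y| ≤ D) : ‖β x - β y‖ ≤ (D : ℝ) * δ := by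
  have key : ∀ x y : ℤ, u ≤ x → y < v → x ≤ y → y - x ≤ D → ‖β y - β x‖ ≤ (D : ℝ) * δ := by
    intro x y h1 h2 h3 h4
    obtain ⟨d, hd⟩ := Int.eq_ofNat_of_zero_le (sub_nonneg.2 h3)
    have h5 : y = x + d := by omega
    rw [h5]
    refine (kb10_lip β δ u v hL d x h1 (by omega)).trans (mul_le_mul_of_nonneg_right ?_ hδ)
    have : (d : ℤ) ≤ D := by omega
    exact_mod_cast this
  rw [abs_le] at hD
  rcases le_total x y with h | h
  · rw [norm_sub_rev]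
    exact key x y hx hy' h (by omega)
  · exact key y x hy hx' h (by omega)

theorem kb10_shift (G : ℤ → ℂ) (u v : ℤ) (H : ℕ) (hG : ∀ m, m ∉ Ico u v → G m = 0) :
    (H : ℂ) * ∑ m ∈ Ico u v, G m = ∑ n ∈ Ico (u - H) v, ∑ l ∈ range H, G (n + l) := by
  rw [Finset.sum_comm]
  have h1 : ∀ l ∈ range H, ∑ n ∈ Ico (u - H) v, G (n + l) = ∑ m ∈ Ico u v, G m := by
    intro l hl
    rw [mem_range] at hl
    have h2 : ∑ n ∈ Ico (u - H) v, G (n + l) = ∑ m ∈ Ico (u - H + l) (v + l), G m := by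
      refine Finset.sum_bij' (fun n _ => n + l) (fun m _ => m - l) ?_ ?_ ?_ ?_ ?_
      · intro n hn
        rw [mem_Ico] at hn ⊢
        omega
      · intro n hn
        rw [mem_Ico] at hn ⊢
        omega
      · intro n _
        ring
      · intro n _
        ring
      · intro n _
        rfl
    rw [h2]
    symm
    refine Finset.sum_subset (fun m hm => ?_) fun m _ hm => hG m hm
    rw [mem_Ico] at hm ⊢
    omega
  rw [sum_congr rfl h1, sum_const, card_range, nsmul_eq_mul]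

theorem kb10_ite (s t : Finset ℤ) (a : ℤ → ℝ) (ha : ∀ n, 0 ≤ a n) : ∑ n ∈ s, (if n ∈ t then a n else 0) ≤ ∑ n ∈ t, a n := by
  rw [Finset.sum_ite_mem]
  exact sum_le_sum_of_subset_of_nonneg inter_subset_right fun n _ _ => ha n

theorem kb10_card (a b : ℤ) (h : a ≤ b) : ((Ico a b).card : ℝ) = b - a := by
  rw [Int.card_Ico]
  have h1 : (((b - a).toNat : ℤ) : ℝ) = ((b - a : ℤ) : ℝ) := by rw [Int.toNat_of_nonneg (by omega)]
  push_cast at h1
  exact h1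

theorem kb10_DLn {k : ℕ} (F : ℤ → ℂ) (S : ℝ) (hF : ∀ m, ‖F m‖ ≤ S) (h : Fin k → ℤ) (m : ℤ) :
    ‖DL (List.ofFn h) F m‖ ≤ S ^ (2 ^ k) := by
  rw [DL_prod, norm_prod]
  calc _ ≤ ∏ ω : Fin k → Bool, S := prod_le_prod (fun _ _ => norm_nonneg _) fun ω _ => by
          rw [kb10_cjn]
          exact hF _
    _ = S ^ (2 ^ k) := by rw [prod_const, card_univ, Fintype.card_fun, Fintype.card_bool, Fintype.card_fin]

/-- The good values of `n`. -/
theorem kb10_good {k : ℕ} (β V : ℤ → ℂ) (S δ : ℝ) (u v : ℤ) (H : ℕ) (hS : 1 ≤ S) (hδ : 0 ≤ δ)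
    (hβ : ∀ m, u ≤ m → m < v → ‖β m‖ ≤ 1) (hL : ∀ m, u ≤ m → m + 1 < v → ‖β (m + 1) - β m‖ ≤ δ) (hV : ∀ m, ‖V m‖ ≤ S)
    (j : Fin k → ℤ) (hj : j ∈ bxS k H) (n : ℤ) (hn : u + (k : ℤ) ^ 2 * H ≤ n) (hn' : n < v - (k : ℤ) ^ 2 * H - H) :
    ‖∑ l ∈ range H, DL (List.ofFn fun i => lam k i * j i) (fun m => if m ∈ Ico u v then β m * V m else 0) (n + l)‖ ≤
      ‖∑ l ∈ range H, DL (List.ofFn fun i => lam k i * j i) V (n + l)‖ +
      H * (2 ^ k * ((H + (k : ℝ) ^ 2 * H) * δ) * S ^ (2 ^ k)) := by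
  have hH1 : (0 : ℤ) ≤ (k : ℤ) ^ 2 * H := by positivity
  have hβn : ‖β n‖ ≤ 1 := hβ n (by omega) (by omega)
  obtain ⟨P, hP⟩ : ∃ P : ℂ, P = ∏ ω : Fin k → Bool, cj (sg ω) (β n) := ⟨_, rfl⟩
  have hPn : ‖P‖ ≤ 1 := by
    rw [hP, norm_prod]
    exact prod_le_one (fun _ _ => norm_nonneg _) fun ω _ => by
      rw [kb10_cjn]
      exact hβn
  have key : ∀ l ∈ range H, ‖DL (List.ofFn fun i => lam k i * j i) (fun m => if m ∈ Ico u v then β m * V m else 0) (n + l) -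
      P * DL (List.ofFn fun i => lam k i * j i) V (n + l)‖ ≤ 2 ^ k * ((H + (k : ℝ) ^ 2 * H) * δ) * S ^ (2 ^ k) := by
    intro l hl
    rw [mem_range] at hl
    have hin : ∀ ω : Fin k → Bool, u ≤ n + l + vl ω j ∧ n + l + vl ω j < v := by
      intro ω
      have h1 := abs_le.1 (KB10_vl H ω j hj)
      constructor <;> omega
    have h1 := KB10_pert (fun ω => β (n + l + vl ω j)) (fun ω => V (n + l + vl ω j)) (β n) S ((H + (k : ℝ) ^ 2 * H) * δ) hS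
      (fun ω => hβ _ (hin ω).1 (hin ω).2) hβn (fun ω => hV _) (fun ω => ?_)
    · rw [DL_prod, DL_prod, hP]
      refine le_trans (le_of_eq ?_) h1
      congr 2
      refine prod_congr rfl fun ω _ => ?_
      have h2 : n + l + vt ω (fun i => lam k i * j i) ∈ Ico u v := mem_Ico.2 (hin ω)
      rw [if_pos h2]
      rfl
    · have h2 := kb10_lip' β δ hδ u v hL (n + l + vl ω j) n (H + (k : ℤ) ^ 2 * H) (hin ω).1 (hin ω).2 (by omega) (by omega) (by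
        have h1 := abs_le.1 (KB10_vl H ω j hj)
        rw [abs_le]
        constructor <;> omega)
      push_cast at h2
      exact h2
  have h1 : ∑ l ∈ range H, DL (List.ofFn fun i => lam k i * j i) (fun m => if m ∈ Ico u v then β m * V m else 0) (n + l) =
      P * ∑ l ∈ range H, DL (List.ofFn fun i => lam k i * j i) V (n + l) +
      ∑ l ∈ range H, (DL (List.ofFn fun i => lam k i * j i) (fun m => if m ∈ Ico u v then β m * V m else 0) (n + l) -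
        P * DL (List.ofFn fun i => lam k i * j i) V (n + l)) := by
    rw [sum_sub_distrib, ← Finset.mul_sum]
    ring
  rw [h1]
  refine (norm_add_le _ _).trans (add_le_add ?_ ?_)
  · rw [norm_mul]
    exact mul_le_of_le_one_left (norm_nonneg _) hPn
  · refine (norm_sum_le _ _).trans ((sum_le_sum key).trans (le_of_eq ?_))
    rw [sum_const, card_range, nsmul_eq_mul]

theorem kb10_one {k : ℕ} (β V : ℤ → ℂ) (S δ : ℝ) (u v : ℤ) (H : ℕ) (hH : 1 ≤ H) (huv : u ≤ v) (hS : 1 ≤ S) (hδ : 0 ≤ δ)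
    (hβ : ∀ m, u ≤ m → m < v → ‖β m‖ ≤ 1) (hL : ∀ m, u ≤ m → m + 1 < v → ‖β (m + 1) - β m‖ ≤ δ) (hV : ∀ m, ‖V m‖ ≤ S)
    (j : Fin k → ℤ) (hj : j ∈ bxS k H) :
    ‖∑ m ∈ Ico u v, DL (List.ofFn fun i => lam k i * j i) (fun m => if m ∈ Ico u v then β m * V m else 0) m‖ ≤
      (∑ n ∈ Ico u v, ‖∑ l ∈ range H, DL (List.ofFn fun i => lam k i * j i) V (n + l)‖) / H +
      (2 : ℝ) ^ (k + 1) * (1 + (k : ℝ) ^ 2) * S ^ (2 ^ k) * ((v - u : ℝ) * (H * δ) + H) := by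
  have hHr : (1 : ℝ) ≤ H := by exact_mod_cast hH
  have hH0 : (0 : ℝ) < H := by linarith
  have hS0 : 0 < S := by linarith
  obtain ⟨G, hG⟩ : ∃ G : ℤ → ℂ, G = DL (List.ofFn fun i => lam k i * j i) (fun m => if m ∈ Ico u v then β m * V m else 0) :=
    ⟨_, rfl⟩
  have hgood := fun n hn hn' => kb10_good β V S δ u v H hS hδ hβ hL hV j hj n hn hn'
  rw [← hG] at hgood ⊢
  have hGs : ∀ m, m ∉ Ico u v → G m = 0 := by
    intro m hm
    rw [hG]
    exact DL_supp _ _ _ (if_neg hm)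
  have hGn : ∀ m, ‖G m‖ ≤ S ^ (2 ^ k) := by
    intro m
    rw [hG]
    refine kb10_DLn _ S (fun m => ?_) _ m
    split_ifs with h
    · rw [mem_Ico] at h
      rw [norm_mul]
      exact (mul_le_of_le_one_left (norm_nonneg _) (hβ m h.1 h.2)).trans (hV m)
    · rw [norm_zero]
      exact hS0.le
  have hsum := kb10_shift G u v H hGs
  obtain ⟨H1, hH1⟩ : ∃ H1 : ℤ, H1 = (k : ℤ) ^ 2 * H := ⟨_, rfl⟩
  have hH10 : 0 ≤ H1 := by rw [hH1]; positivity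
  have hH1r : (H1 : ℝ) = (k : ℝ) ^ 2 * H := by rw [hH1]; push_cast; ring
  obtain ⟨g, hg⟩ : ∃ g : ℤ → ℝ, g = fun n => ‖∑ l ∈ range H, DL (List.ofFn fun i => lam k i * j i) V (n + l)‖ := ⟨_, rfl⟩
  have hg0 : ∀ n, 0 ≤ g n := by
    intro n
    rw [hg]
    exact norm_nonneg _
  obtain ⟨E1, hE1⟩ : ∃ E1 : ℝ, E1 = H * (2 ^ k * ((H + (k : ℝ) ^ 2 * H) * δ) * S ^ (2 ^ k)) := ⟨_, rfl⟩
  have hE10 : 0 ≤ E1 := by rw [hE1]; positivity
  obtain ⟨E2, hE2⟩ : ∃ E2 : ℝ, E2 = H * S ^ (2 ^ k) := ⟨_, rfl⟩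
  have hE20 : 0 ≤ E2 := by rw [hE2]; positivity
  have hpt : ∀ n ∈ Ico (u - H) v, ‖∑ l ∈ range H, G (n + l)‖ ≤ (if n ∈ Ico u v then g n + E1 else 0) +
      (if n ∈ Ico (u - H) (u + H1) then E2 else 0) + (if n ∈ Ico (v - H1 - H) v then E2 else 0) := by
    intro n hn
    have hn0 := mem_Ico.1 hn
    have hbad : ‖∑ l ∈ range H, G (n + l)‖ ≤ E2 := by
      refine (norm_sum_le _ _).trans ((sum_le_sum fun l _ => hGn _).trans (le_of_eq ?_))
      rw [sum_const, card_range, nsmul_eq_mul, hE2]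
    have h0 : 0 ≤ (if n ∈ Ico u v then g n + E1 else 0) := by
      split_ifs
      · exact add_nonneg (hg0 n) hE10
      · exact le_refl _
    by_cases h1 : n ∈ Ico (u - H) (u + H1)
    · rw [if_pos h1]
      have h2 : 0 ≤ (if n ∈ Ico (v - H1 - H) v then E2 else 0) := by
        split_ifs
        · exact hE20
        · exact le_refl _
      linarith
    · by_cases h2 : n ∈ Ico (v - H1 - H) v
      · rw [if_neg h1, if_pos h2]
        linarith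
      · rw [mem_Ico] at h1 h2
        have h3 : u + H1 ≤ n := by omega
        have h4 : n < v - H1 - H := by omega
        rw [if_pos (mem_Ico.2 ⟨by omega, hn0.2⟩), if_neg (by rw [mem_Ico]; exact h1), if_neg (by rw [mem_Ico]; exact h2),
          add_zero, add_zero, hg, hE1]
        exact hgood n (by rw [← hH1]; exact h3) (by rw [← hH1]; exact h4)
  have hb1 : (H : ℝ) * ‖∑ m ∈ Ico u v, G m‖ ≤ (∑ n ∈ Ico u v, g n) + (v - u : ℝ) * E1 + 2 * ((H + H1) * E2) := by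
    calc (H : ℝ) * ‖∑ m ∈ Ico u v, G m‖ = ‖(H : ℂ) * ∑ m ∈ Ico u v, G m‖ := by rw [norm_mul, Complex.norm_natCast]
      _ = ‖∑ n ∈ Ico (u - H) v, ∑ l ∈ range H, G (n + l)‖ := by rw [hsum]
      _ ≤ ∑ n ∈ Ico (u - H) v, ‖∑ l ∈ range H, G (n + l)‖ := norm_sum_le _ _
      _ ≤ ∑ n ∈ Ico (u - H) v, ((if n ∈ Ico u v then g n + E1 else 0) +
          (if n ∈ Ico (u - H) (u + H1) then E2 else 0) + (if n ∈ Ico (v - H1 - H) v then E2 else 0)) := sum_le_sum hpt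
      _ = ∑ n ∈ Ico (u - H) v, (if n ∈ Ico u v then g n + E1 else 0) +
          ∑ n ∈ Ico (u - H) v, (if n ∈ Ico (u - H) (u + H1) then E2 else 0) +
          ∑ n ∈ Ico (u - H) v, (if n ∈ Ico (v - H1 - H) v then E2 else 0) := by
          rw [sum_add_distrib, sum_add_distrib]
      _ ≤ ∑ n ∈ Ico u v, (g n + E1) + ∑ n ∈ Ico (u - H) (u + H1), E2 + ∑ n ∈ Ico (v - H1 - H) v, E2 :=
          add_le_add (add_le_add (kb10_ite _ _ _ fun n => add_nonneg (hg0 n) hE10) (kb10_ite _ _ _ fun _ => hE20))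
            (kb10_ite _ _ _ fun _ => hE20)
      _ = _ := by
          rw [sum_add_distrib, sum_const, sum_const, sum_const, nsmul_eq_mul, nsmul_eq_mul, nsmul_eq_mul, kb10_card u v huv,
            kb10_card _ _ (by omega), kb10_card _ _ (by omega)]
          push_cast
          ring
  have hvu : (0 : ℝ) ≤ v - u := by
    have : (u : ℝ) ≤ v := by exact_mod_cast huv
    linarith
  have hg' : ∑ n ∈ Ico u v, ‖∑ l ∈ range H, DL (List.ofFn fun i => lam k i * j i) V (n + l)‖ = ∑ n ∈ Ico u v, g n := by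
    rw [hg]
  rw [hg']
  have hb2 : ‖∑ m ∈ Ico u v, G m‖ ≤ (∑ n ∈ Ico u v, g n) / H + ((v - u : ℝ) * E1 + 2 * ((H + H1) * E2)) / H := by
    rw [← add_div, le_div_iff₀ hH0, mul_comm]
    linarith
  refine hb2.trans (add_le_add le_rfl ?_)
  rw [div_le_iff₀ hH0, hE1, hE2, hH1r]
  have hA : (0 : ℝ) ≤ H * S ^ (2 ^ k) * (1 + (k : ℝ) ^ 2) * H := by positivity
  have h2k : (1 : ℝ) ≤ 2 ^ k := one_le_pow₀ (by norm_num)
  have h3 : (v - u : ℝ) * (H * (2 ^ k * ((H + (k : ℝ) ^ 2 * H) * δ) * S ^ (2 ^ k))) +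
      2 * ((H + (k : ℝ) ^ 2 * H) * (H * S ^ (2 ^ k))) =
      (H * S ^ (2 ^ k) * (1 + (k : ℝ) ^ 2) * H) * (2 ^ k * ((v - u : ℝ) * δ) + 2) := by ring
  have h4 : (2 : ℝ) ^ (k + 1) * (1 + (k : ℝ) ^ 2) * S ^ (2 ^ k) * ((v - u : ℝ) * (H * δ) + H) * H =
      (H * S ^ (2 ^ k) * (1 + (k : ℝ) ^ 2) * H) * (2 * 2 ^ k * ((v - u : ℝ) * δ) + 2 * 2 ^ k) := by
    rw [pow_succ]
    ring
  rw [h3, h4]
  refine mul_le_mul_of_nonneg_left ?_ hA
  have h5 : 0 ≤ 2 ^ k * ((v - u : ℝ) * δ) := by positivity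
  linarith

/-- Proof. Fix `j ∈ bxS k H`, `G = DL (..) F`, which vanishes outside `[u, v)` (`DL_supp`), `‖G‖ ≤ S^(2^k)` (`DL_prod`), `H1 = k² H`. Then
`H * ∑_{m ∈ Ico u v} G m = ∑_{n ∈ Ico (u - H) v} ∑_{l < H} G (n + l)`. For `u + H1 ≤ n < v - H1 - H` all the points `n + l + vl ω j` are in `[u, v)`
(`KB10_vl`), and `KB10_pert` with `a ω = β (n + l + vl ω j)`, `a0 = β n`, `b ω = V (n + l + vl ω j)`, `ε = (H + H1) δ` (Lipschitz, step by step):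
`‖∑_{l<H} G (n + l)‖ ≤ ‖∑_{l<H} DL (..) V (n + l)‖ + H 2^k (H + H1) δ S^(2^k)` (`‖∏ cj (β n)‖ ≤ 1`). At most `2 (H + H1)` other values of `n`
(`u - H ≤ n < u + H1` or `v - H1 - H ≤ n < v`), each with `‖∑_{l<H} G‖ ≤ H S^(2^k)`. Divide by `H`, sum over the at most `(2 H)^k` values of `j`;
`H + H1 = (1 + k²) H`, `C = 2^(2k+2) (1 + k²)`. -/
theorem KB10_frozen (k : ℕ) : ∃ C : ℝ, 0 < C ∧ ∀ (β V : ℤ → ℂ) (S δ : ℝ) (u v : ℤ) (H : ℕ), 1 ≤ H → u ≤ v → 1 ≤ S → 0 ≤ δ →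
    (∀ m, u ≤ m → m < v → ‖β m‖ ≤ 1) → (∀ m, u ≤ m → m + 1 < v → ‖β (m + 1) - β m‖ ≤ δ) → (∀ m, ‖V m‖ ≤ S) →
    ∑ j ∈ bxS k H, ‖∑ m ∈ Ico u v, DL (List.ofFn fun i => lam k i * j i) (fun m => if m ∈ Ico u v then β m * V m else 0) m‖ ≤
      (∑ n ∈ Ico u v, ∑ j ∈ bxS k H, ‖∑ l ∈ range H, DL (List.ofFn fun i => lam k i * j i) V (n + l)‖) / H +
      C * (H : ℝ) ^ k * S ^ (2 ^ k) * ((v - u : ℝ) * (H * δ) + H) := by
  refine ⟨(2 : ℝ) ^ k * ((2 : ℝ) ^ (k + 1) * (1 + (k : ℝ) ^ 2)), by positivity, ?_⟩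
  intro β V S δ u v H hH huv hS hδ hβ hL hV
  have hH0 : (0 : ℝ) < H := by exact_mod_cast hH
  have hvu : (0 : ℝ) ≤ v - u := by
    have : (u : ℝ) ≤ v := by exact_mod_cast huv
    linarith
  have hS0 : 0 < S := by linarith
  have hcard : ((bxS k H).card : ℝ) ≤ 2 ^ k * (H : ℝ) ^ k := by
    have h1 : (bxS k H).card ≤ (2 * H) ^ k := by
      unfold bxS
      rw [Fintype.card_piFinset_const, Int.card_Ioo]
      refine Nat.pow_le_pow_left ?_ k
      omega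
    calc ((bxS k H).card : ℝ) ≤ (((2 * H) ^ k : ℕ) : ℝ) := by exact_mod_cast h1
      _ = _ := by push_cast; rw [mul_pow]
  calc _ ≤ ∑ j ∈ bxS k H, ((∑ n ∈ Ico u v, ‖∑ l ∈ range H, DL (List.ofFn fun i => lam k i * j i) V (n + l)‖) / H +
      (2 : ℝ) ^ (k + 1) * (1 + (k : ℝ) ^ 2) * S ^ (2 ^ k) * ((v - u : ℝ) * (H * δ) + H)) :=
        sum_le_sum fun j hj => kb10_one β V S δ u v H hH huv hS hδ hβ hL hV j hj
    _ = (∑ n ∈ Ico u v, ∑ j ∈ bxS k H, ‖∑ l ∈ range H, DL (List.ofFn fun i => lam k i * j i) V (n + l)‖) / H +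
      (bxS k H).card * ((2 : ℝ) ^ (k + 1) * (1 + (k : ℝ) ^ 2) * S ^ (2 ^ k) * ((v - u : ℝ) * (H * δ) + H)) := by
        rw [sum_add_distrib, ← Finset.sum_div, Finset.sum_comm, sum_const, nsmul_eq_mul]
    _ ≤ (∑ n ∈ Ico u v, ∑ j ∈ bxS k H, ‖∑ l ∈ range H, DL (List.ofFn fun i => lam k i * j i) V (n + l)‖) / H +
      (2 ^ k * (H : ℝ) ^ k) * ((2 : ℝ) ^ (k + 1) * (1 + (k : ℝ) ^ 2) * S ^ (2 ^ k) * ((v - u : ℝ) * (H * δ) + H)) :=
        add_le_add le_rfl (mul_le_mul_of_nonneg_right hcard (by positivity))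
    _ = _ := by ring

end Pool.Agent.HUK
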