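import Pool.Agent.Lib.HUK.KB0
import Pool.Agent.Lib.HUK.E1
import Pool.Agent.Lib.H9U.Defs

/-!
# Project HUK, chunk KB11 (M): elimination of the functions `f j` on `ℤ × ℤ`
-/

open Finset

namespace Pool.Agent.HUK

open Pool.Agent.H9U (JJ)

private theorem kb11_mul {G H : Type*} [AddCommGroup G] [AddCommGroup H] (l : List (G × H)) (a : G → ℂ) (b : H → ℂ)
    (z : G × H) :
    DL l (fun z => a z.1 * b z.2) z = DL (l.map Prod.fst) a z.1 * DL (l.map Prod.snd) b z.2 := by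
  induction l generalizing a b with
  | nil => rfl
  | cons v l ih =>
    have h1 : DD v (fun z : G × H => a z.1 * b z.2) = fun z : G × H => DD v.1 a z.1 * DD v.2 b z.2 := by
      funext z
      unfold DD
      show a z.1 * b z.2 * (starRingEnd ℂ) (a (z.1 + v.1) * b (z.2 + v.2)) = _
      rw [map_mul]
      ring
    show DL l (DD v (fun z : G × H => a z.1 * b z.2)) z = _
    rw [h1, ih (DD v.1 a) (DD v.2 b)]
    rfl

private theorem kb11_left (k B X : ℕ) (F : ℤ → ℂ) (f : ℕ → ℤ → ℂ) :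
    ∑ z ∈ JJ X ×ˢ Ioo (-(2 * ((B * X : ℕ) : ℤ))) (2 * ((B * X : ℕ) : ℤ)),
      (∏ i : Fin k, f i (z.1 - lam k i * z.2)) *
        (F z.1 * (if z.2 ∈ Ioo (-(2 * ((B * X : ℕ) : ℤ))) (2 * ((B * X : ℕ) : ℤ)) then 1 else 0)) =
    ∑ n ∈ JJ X, F n * Psi (B * X) k f n := by
  rw [Finset.sum_product]
  refine Finset.sum_congr rfl fun d _ => ?_
  unfold Psi
  rw [Finset.mul_sum]
  refine Finset.sum_congr rfl fun h hh => ?_
  simp only [hh, if_true, mul_one]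
  rw [mul_comm, Finset.prod_range]
  rfl

private theorem kb11_card (k B X H : ℕ) (hHX : H ≤ X) :
    ((Ico (2 * (X : ℤ) - k * H) (2 * X + X / 4) ×ˢ
      Ioo (-(2 * ((B * X : ℕ) : ℤ)) - H) (2 * ((B * X : ℕ) : ℤ))).card : ℝ) ≤ (k + 1) * (4 * B + 1) * (X : ℝ) ^ 2 := by
  rw [Finset.card_product, Int.card_Ico, Int.card_Ioo]
  have hx4 : (X : ℤ) / 4 ≤ X := by omega
  have h1 : ((2 * (X : ℤ) + X / 4) - (2 * (X : ℤ) - k * H)).toNat ≤ (k + 1) * X := by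
    have h2 : (k : ℤ) * H ≤ k * X := by exact_mod_cast Nat.mul_le_mul_left k hHX
    exact Int.toNat_le.mpr (by push_cast; linarith)
  have h4 : (2 * ((B * X : ℕ) : ℤ) - (-(2 * ((B * X : ℕ) : ℤ)) - H) - 1).toNat ≤ (4 * B + 1) * X := by
    have h5 : (H : ℤ) ≤ X := by exact_mod_cast hHX
    exact Int.toNat_le.mpr (by push_cast; linarith)
  have h6 := Nat.mul_le_mul h1 h4
  have h7 : ((((2 * (X : ℤ) + X / 4) - (2 * (X : ℤ) - k * H)).toNat *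
      (2 * ((B * X : ℕ) : ℤ) - (-(2 * ((B * X : ℕ) : ℤ)) - H) - 1).toNat : ℕ) : ℝ) ≤
      (((k + 1) * X * ((4 * B + 1) * X) : ℕ) : ℝ) := by exact_mod_cast h6
  refine h7.trans (le_of_eq ?_)
  push_cast
  ring

private theorem kb11_right (k B X : ℕ) (F : ℤ → ℂ) (j : Fin k → ℤ) :
    ‖∑ z ∈ JJ X ×ˢ Ioo (-(2 * ((B * X : ℕ) : ℤ))) (2 * ((B * X : ℕ) : ℤ)),
      DL (List.ofFn fun i : Fin k => j i • ((lam k i, (1 : ℤ)) : ℤ × ℤ))
        (fun z : ℤ × ℤ => F z.1 * (if z.2 ∈ Ioo (-(2 * ((B * X : ℕ) : ℤ))) (2 * ((B * X : ℕ) : ℤ)) then 1 else 0)) z‖ ≤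
    ‖∑ n ∈ JJ X, DL (List.ofFn fun i => lam k i * j i) F n‖ * (4 * B * X) := by
  have hb := fun z : ℤ × ℤ => kb11_mul (List.ofFn fun i : Fin k => j i • ((lam k i, (1 : ℤ)) : ℤ × ℤ))
    F (fun h => if h ∈ Ioo (-(2 * ((B * X : ℕ) : ℤ))) (2 * ((B * X : ℕ) : ℤ)) then (1 : ℂ) else 0) z
  rw [Finset.sum_congr rfl fun z _ => hb z, Finset.sum_product]
  simp only [List.map_ofFn]
  rw [← Finset.sum_mul_sum, norm_mul]
  refine mul_le_mul ?_ ?_ (norm_nonneg _) (norm_nonneg _)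
  · have h1 : (Prod.fst ∘ fun i : Fin k => j i • ((lam k i, (1 : ℤ)) : ℤ × ℤ)) = fun i => lam k i * j i := by
      funext i
      simp [mul_comm]
    rw [h1]
  · refine (norm_sum_le _ _).trans ?_
    refine (Finset.sum_le_sum fun h _ => DL_norm _ _ (fun y => ?_) h).trans ?_
    · by_cases hy : y ∈ Ioo (-(2 * ((B * X : ℕ) : ℤ))) (2 * ((B * X : ℕ) : ℤ))
      · rw [if_pos hy, norm_one]
      · rw [if_neg hy, norm_zero]
        exact zero_le_one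
    · rw [Finset.sum_const, nsmul_eq_mul, mul_one, Int.card_Ioo]
      have h2 : (2 * ((B * X : ℕ) : ℤ) - -(2 * ((B * X : ℕ) : ℤ)) - 1).toNat ≤ 4 * B * X :=
        Int.toNat_le.mpr (by push_cast; linarith)
      have h3 : (((2 * ((B * X : ℕ) : ℤ) - -(2 * ((B * X : ℕ) : ℤ)) - 1).toNat : ℕ) : ℝ) ≤ ((4 * B * X : ℕ) : ℝ) := by
        exact_mod_cast h2
      refine h3.trans (le_of_eq ?_)
      push_cast
      ring

/-- Proof. `E1_elim` with `G = ℤ × ℤ`, `r = k`, `I = Ioo (-(2 B X)) (2 B X)`, `B = JJ X ×ˢ I`, `B' = Ico (2 X - k H) (2 X + X / 4) ×ˢ Ioo (-(2 B X) - H) (2 B X)`,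
`N = (k + 1) (4 B + 1) X²` (`card B' ≤ (X/4 + k H) (4 B X + H)`, `H ≤ X`), `v i = (lam k i, 1)`, `g i (n, h) = f i (n - lam k i * h)`,
`c (n, h) = F n` if `h ∈ I` (and `n ∈ JJ X`), else `0`. The sum on the left side is `∑_{n ∈ JJ X} F n * Psi (B * X) k f n` (`Finset.sum_product`,
`Finset.prod_range`, `Psi` is a sum over `h ∈ I`). `DL_prod` (`P0.lean`): `vt ω (fun i => j i • v i) = (vl ω j, vt ω j)`, so
`DL (..) c (n, h) = DL (List.ofFn fun i => lam k i * j i) F n * χ(h)`, where `χ(h) = ∏_ω cj (sg ω) (1_I (h + vt ω j))` is `0` or `1`; so the sum over `B` is a product and its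
norm is at most `4 B X ‖∑_{n ∈ JJ X} DL .. F n‖`, and `4 B X / N ≤ 1 / X`. So `(‖..‖ / N)^(2^k) ≤ 2^(2^k) / H^k * (1/X) * ∑_j ‖..‖`; multiply by
`N^(2^k)`. -/
theorem KB11_elim (k B X H : ℕ) (hX : 1 ≤ X) (hH : 1 ≤ H) (hHX : H ≤ X) (F : ℤ → ℂ) (hF : ∀ m, m ∉ JJ X → F m = 0)
    (f : ℕ → ℤ → ℂ) (hf : ∀ j, j < k → ∀ y, ‖f j y‖ ≤ 1) :
    ‖∑ n ∈ JJ X, F n * Psi (B * X) k f n‖ ^ (2 ^ k) ≤ (2 * (k + 1) * (4 * B + 1) * (X : ℝ) ^ 2) ^ (2 ^ k) *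
      ((∑ j ∈ bxS k H, ‖∑ n ∈ JJ X, DL (List.ofFn fun i => lam k i * j i) F n‖) / ((H : ℝ) ^ k * X)) := by
  have hX' : (0 : ℝ) < X := by exact_mod_cast hX
  have hH' : (0 : ℝ) < H := by exact_mod_cast hH
  have hk' : (0 : ℝ) ≤ k := Nat.cast_nonneg k
  have hB' : (0 : ℝ) ≤ B := Nat.cast_nonneg B
  obtain ⟨N, hN⟩ : ∃ N : ℝ, N = (k + 1) * (4 * B + 1) * (X : ℝ) ^ 2 := ⟨_, rfl⟩
  have hN0 : 0 < N := by rw [hN]; positivity
  have hE := E1_elim (G := ℤ × ℤ) (JJ X ×ˢ Ioo (-(2 * ((B * X : ℕ) : ℤ))) (2 * ((B * X : ℕ) : ℤ)))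
    (Ico (2 * (X : ℤ) - k * H) (2 * X + X / 4) ×ˢ Ioo (-(2 * ((B * X : ℕ) : ℤ)) - H) (2 * ((B * X : ℕ) : ℤ))) N
    (by rw [hN]; exact kb11_card k B X H hHX) hN0 H hH k
    (fun i => (lam k i, (1 : ℤ))) (fun i z => f i (z.1 - lam k i * z.2))
    (fun z => F z.1 * (if z.2 ∈ Ioo (-(2 * ((B * X : ℕ) : ℤ))) (2 * ((B * X : ℕ) : ℤ)) then 1 else 0))
    (fun i z => hf i i.2 _)
    (fun i z => by
      simp only [Prod.fst_add, Prod.snd_add]
      congr 1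
      ring)
    (fun z hz => by
      rw [Finset.mem_product, not_and_or] at hz
      rcases hz with hz | hz
      · rw [hF z.1 hz, zero_mul]
      · rw [if_neg hz, mul_zero])
    (fun i z h hh hz => by
      have s1 : (h • ((lam k i, (1 : ℤ)) : ℤ × ℤ)).1 = h * lam k i := by
        rw [Prod.smul_fst, nsmul_eq_mul]
      have s2 : (h • ((lam k i, (1 : ℤ)) : ℤ × ℤ)).2 = h := by
        rw [Prod.smul_snd, nsmul_eq_mul, mul_one]
      unfold JJ at hz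
      rw [Finset.mem_product, Finset.mem_Ico, Finset.mem_Ioo] at hz ⊢
      rw [Prod.fst_add, Prod.snd_add, s1, s2] at hz
      have hi1 : (i : ℤ) < k := by exact_mod_cast i.2
      have hi0 : (0 : ℤ) ≤ (i : ℕ) := by positivity
      have hl1 : (0 : ℤ) ≤ lam k i := by
        unfold lam
        linarith
      have hl2 : lam k i ≤ (k : ℤ) := by
        unfold lam
        linarith
      have hh0 : (0 : ℤ) ≤ h := by positivity
      have hhH : (h : ℤ) ≤ H := by exact_mod_cast hh.le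
      have e1 : (0 : ℤ) ≤ h * lam k i := mul_nonneg hh0 hl1
      have e2 : (h : ℤ) * lam k i ≤ k * H := by
        calc (h : ℤ) * lam k i ≤ H * k := mul_le_mul hhH hl2 hl1 (by positivity)
          _ = k * H := mul_comm _ _
      refine ⟨⟨by linarith [hz.1.1], by linarith [hz.1.2]⟩, ⟨by linarith [hz.2.1], by linarith [hz.2.2]⟩⟩)
  rw [kb11_left] at hE
  obtain ⟨S, hS⟩ : ∃ S : ℝ, S = ‖∑ n ∈ JJ X, F n * Psi (B * X) k f n‖ := ⟨_, rfl⟩
  obtain ⟨T, hT⟩ : ∃ T : (Fin k → ℤ) → ℝ, ∀ j, T j = ‖∑ n ∈ JJ X, DL (List.ofFn fun i => lam k i * j i) F n‖ :=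
    ⟨_, fun _ => rfl⟩
  rw [← hS] at hE ⊢
  have hT0 : 0 ≤ ∑ j ∈ bxS k H, T j := Finset.sum_nonneg fun j _ => by rw [hT]; positivity
  have hR : (S / N) ^ (2 ^ k) ≤ 2 ^ (2 ^ k) / (H : ℝ) ^ k * ((∑ j ∈ bxS k H, T j) * (4 * B * X) / N) := by
    refine hE.trans (mul_le_mul_of_nonneg_left ?_ (by positivity))
    rw [Finset.sum_mul, Finset.sum_div]
    refine Finset.sum_le_sum fun j _ => ?_
    rw [hT]
    exact div_le_div_of_nonneg_right (kb11_right k B X F j) hN0.le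
  have hq : (∑ j ∈ bxS k H, T j) * (4 * B * X) / N ≤ (∑ j ∈ bxS k H, T j) / X := by
    rw [div_le_div_iff₀ hN0 hX', mul_assoc]
    refine mul_le_mul_of_nonneg_left ?_ hT0
    rw [hN]
    have h1 : 0 ≤ (k : ℝ) * (4 * B + 1) * (X : ℝ) ^ 2 := by positivity
    have h2 : 0 ≤ (X : ℝ) ^ 2 := by positivity
    nlinarith
  have hSN : S ^ (2 ^ k) = (S / N) ^ (2 ^ k) * N ^ (2 ^ k) := by
    rw [div_pow, div_mul_cancel₀]
    positivity
  have hsum : ∑ j ∈ bxS k H, ‖∑ n ∈ JJ X, DL (List.ofFn fun i => lam k i * j i) F n‖ = ∑ j ∈ bxS k H, T j :=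
    Finset.sum_congr rfl fun j _ => (hT j).symm
  rw [hSN, hsum]
  calc (S / N) ^ (2 ^ k) * N ^ (2 ^ k) ≤
      2 ^ (2 ^ k) / (H : ℝ) ^ k * ((∑ j ∈ bxS k H, T j) / X) * N ^ (2 ^ k) :=
        mul_le_mul_of_nonneg_right (hR.trans (mul_le_mul_of_nonneg_left hq (by positivity))) (by positivity)
    _ = (2 * N) ^ (2 ^ k) * ((∑ j ∈ bxS k H, T j) / ((H : ℝ) ^ k * X)) := by
        rw [mul_pow]
        field_simp
    _ = _ := by
        rw [hN, ← mul_assoc, ← mul_assoc]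

end Pool.Agent.HUK
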