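import Pool.Agent.Lib.HUK.KB9
import Pool.Agent.Lib.HUK.KB10
import Pool.Agent.Lib.HUK.KB11
import Pool.Agent.Lib.H59T.UF

/-!
# Project HUK, chunk KB12 (M): one character
-/

open Finset

namespace Pool.Agent.HUK

open Pool.Agent.Lib.H68T (PC)
open Pool.Agent.Lib.H59P (Ch)
open Pool.Agent.Lib.H59T (Vl)
open Pool.Agent.H9U (JJ)

/-- Proof. `C1`, `ρ` from `KB9_cube`, `C2` from `KB10_frozen`; `H = Q^(3 * 2^k + 2)`, `A = 3 * 2^k + 2 + 2^(k+1) + 8`. `F m = β m * Vl Q Q' p m` on `JJ X = Ico (2X) (2X + X/4)`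
(contained in `[X, 4X]`), `0` else. `KB10_frozen` with `u = 2X`, `v = 2X + X/4`, `S = Q²` (`UF_sup` in `H59T/UF.lean`), `δ = Q^6 / X`:
`∑_j ‖∑_n DL .. F n‖ ≤ (X/4) C1 H^k Q'^(-ρ) + C2 H^k Q^(2^(k+1)) (X H Q^6 / X + H) ≤ H^k X (C1 Q'^(-ρ) + 2 C2 Q^(2^(k+1) + 6) H / X)`, and
`Q^(2^(k+1)+6) H / X ≤ 1/Q ≤ Q'^(-ρ)` as `Q^A ≤ X`. `KB11_elim` (`H ≤ Q^A ≤ X`), root of order `2^k`: `ρ' = ρ / 2^k`,
`C = 2 (k+1) (4B+1) (C1 + 2 C2 + 1)`. (`Q = 0` is impossible: `1 ≤ Q' ≤ Q`.) -/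
theorem KB12_one (k : ℕ) (hk : 1 ≤ k) (B : ℕ) : ∃ (A : ℕ) (C ρ : ℝ), 0 < C ∧ 0 < ρ ∧ ρ ≤ 1 ∧ ∀ (Q Q' X : ℕ), 1 ≤ Q' → Q' ≤ Q →
    Q ^ A ≤ X → ∀ p ∈ PC Q, ∀ β : ℤ → ℂ, (∀ m : ℤ, (X : ℤ) ≤ m → m ≤ 4 * X → ‖β m‖ ≤ 1) →
    (∀ m : ℤ, (X : ℤ) ≤ m → m + 1 ≤ 4 * X → ‖β (m + 1) - β m‖ ≤ (Q : ℝ) ^ 6 / X) →
    ∀ f : ℕ → ℤ → ℂ, (∀ j, j < k → ∀ y, ‖f j y‖ ≤ 1) →
    ‖∑ n ∈ JJ X, β n * Vl Q Q' p n * Psi (B * X) k f n‖ ≤ C * (X : ℝ) ^ 2 * (Q' : ℝ) ^ (-ρ) := by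
  obtain ⟨C1, ρ, hC1, hρ, hρ2, h9⟩ := KB9_cube k hk
  obtain ⟨C2, hC2, h10⟩ := KB10_frozen k
  refine ⟨2 ^ (k + 1) + 6 + (3 * 2 ^ k + 2) + 1, 2 * (k + 1) * (4 * B + 1) * (C1 + 2 * C2 + 1), ρ / 2 ^ k, by positivity, by positivity,
    ?_, ?_⟩
  · rw [div_le_one (by positivity)]
    have h1 : (1 : ℝ) ≤ 2 ^ k := one_le_pow₀ (by norm_num)
    linarith
  intro Q Q' X hQ' hQQ hQX p hp β hβ hβ' f hf
  have hQ1 : 1 ≤ Q := hQ'.trans hQQ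
  have hQr : (1 : ℝ) ≤ Q := by exact_mod_cast hQ1
  have hQ'r : (1 : ℝ) ≤ Q' := by exact_mod_cast hQ'
  have hQQr : (Q' : ℝ) ≤ Q := by exact_mod_cast hQQ
  obtain ⟨H, hH⟩ : ∃ H, H = Q ^ (3 * 2 ^ k + 2) := ⟨_, rfl⟩
  have hH1 : 1 ≤ H := by
    rw [hH]
    exact Nat.one_le_pow _ _ hQ1
  have hHX : H ≤ X := by
    rw [hH]
    exact (Nat.pow_le_pow_right hQ1 (by omega)).trans hQX
  have hX1 : 1 ≤ X := hH1.trans hHX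
  have hXr : (1 : ℝ) ≤ X := by exact_mod_cast hX1
  have hXpos : (0 : ℝ) < X := by linarith
  have hHr : (1 : ℝ) ≤ H := by exact_mod_cast hH1
  have hHpos : (0 : ℝ) < H := by linarith
  obtain ⟨F, hF⟩ : ∃ F : ℤ → ℂ, F = fun m => if m ∈ JJ X then β m * Vl Q Q' p m else 0 := ⟨_, rfl⟩
  have hF0 : ∀ m, m ∉ JJ X → F m = 0 := by
    intro m hm
    rw [hF]
    exact if_neg hm
  have hsum : ∑ n ∈ JJ X, β n * Vl Q Q' p n * Psi (B * X) k f n = ∑ n ∈ JJ X, F n * Psi (B * X) k f n := by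
    refine Finset.sum_congr rfl fun n hn => ?_
    rw [hF]
    simp only [if_pos hn]
  have hρ0 : 0 < (Q' : ℝ) ^ (-ρ) := Real.rpow_pos_of_pos (by linarith) _
  -- small averages
  have hJJ : ((JJ X).card : ℝ) ≤ X := by
    have h1 : (JJ X).card ≤ X := by
      unfold JJ
      rw [Int.card_Ico]
      omega
    exact_mod_cast h1
  have hs1 : (∑ n ∈ JJ X, ∑ j ∈ bxS k H, ‖∑ l ∈ range H, DL (List.ofFn fun i => lam k i * j i) (Vl Q Q' p) (n + l)‖) / H ≤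
      X * (C1 * (H : ℝ) ^ k * (Q' : ℝ) ^ (-ρ)) := by
    rw [div_le_iff₀ hHpos]
    refine (Finset.sum_le_sum fun n _ => h9 Q Q' H hQ' hQQ (le_of_eq hH.symm) p hp n).trans ?_
    rw [Finset.sum_const, nsmul_eq_mul]
    refine (mul_le_mul_of_nonneg_right hJJ (by positivity)).trans (le_of_eq ?_)
    rw [pow_succ]
    ring
  have hfro := h10 β (Vl Q Q' p) ((Q : ℝ) ^ 2) ((Q : ℝ) ^ 6 / X) (2 * (X : ℤ)) (2 * X + X / 4) H hH1 (by omega)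
    (one_le_pow₀ hQr) (by positivity) (fun m h1 h2 => hβ m (by omega) (by omega)) (fun m h1 h2 => hβ' m (by omega) (by omega))
    (fun m => Pool.Agent.Lib.H59T.UF_sup Q Q' p hp m)
  have hvu : (((2 * X + X / 4 : ℤ) : ℝ) - ((2 * (X : ℤ) : ℤ) : ℝ)) ≤ X := by
    rw [← Int.cast_sub]
    have h1 : (2 * X + X / 4 : ℤ) - (2 * (X : ℤ)) ≤ X := by omega
    exact_mod_cast h1
  have hE : C2 * (H : ℝ) ^ k * ((Q : ℝ) ^ 2) ^ (2 ^ k) *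
      ((((2 * X + X / 4 : ℤ) : ℝ) - ((2 * (X : ℤ) : ℤ) : ℝ)) * (H * ((Q : ℝ) ^ 6 / X)) + H) ≤
      (H : ℝ) ^ k * X * (2 * C2 * (Q' : ℝ) ^ (-ρ)) := by
    have h1 : (((2 * X + X / 4 : ℤ) : ℝ) - ((2 * (X : ℤ) : ℤ) : ℝ)) * (H * ((Q : ℝ) ^ 6 / X)) + H ≤ 2 * (H * (Q : ℝ) ^ 6) := by
      have h2 : (((2 * X + X / 4 : ℤ) : ℝ) - ((2 * (X : ℤ) : ℤ) : ℝ)) * (H * ((Q : ℝ) ^ 6 / X)) ≤ X * (H * ((Q : ℝ) ^ 6 / X)) :=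
        mul_le_mul_of_nonneg_right hvu (by positivity)
      have h3 : (X : ℝ) * (H * ((Q : ℝ) ^ 6 / X)) = H * (Q : ℝ) ^ 6 := by
        field_simp
      have h4 : (H : ℝ) * 1 ≤ H * (Q : ℝ) ^ 6 := mul_le_mul_of_nonneg_left (one_le_pow₀ hQr) hHpos.le
      linarith
    have h2 : ((Q : ℝ) ^ 2) ^ (2 ^ k) * (H * (Q : ℝ) ^ 6) * Q ≤ X := by
      have h3 : ((Q : ℝ) ^ 2) ^ (2 ^ k) * (H * (Q : ℝ) ^ 6) * Q = (Q : ℝ) ^ (2 ^ (k + 1) + 6 + (3 * 2 ^ k + 2) + 1) := by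
        rw [hH, Nat.cast_pow, ← pow_mul, ← pow_add, ← pow_add, ← pow_succ]
        congr 1
        ring
      rw [h3]
      exact_mod_cast hQX
    have h3 : ((Q : ℝ) ^ 2) ^ (2 ^ k) * (H * (Q : ℝ) ^ 6) ≤ X * (Q' : ℝ) ^ (-ρ) := by
      have h4 : (Q : ℝ)⁻¹ ≤ (Q' : ℝ) ^ (-ρ) := by
        have h5 : (Q' : ℝ) ^ (-1 : ℝ) ≤ (Q' : ℝ) ^ (-ρ) := Real.rpow_le_rpow_of_exponent_le hQ'r (by linarith)
        rw [Real.rpow_neg_one] at h5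
        exact le_trans (inv_anti₀ (by linarith) hQQr) h5
      have h5 : ((Q : ℝ) ^ 2) ^ (2 ^ k) * (H * (Q : ℝ) ^ 6) ≤ X * (Q : ℝ)⁻¹ := by
        rw [← div_eq_mul_inv, le_div_iff₀ (by linarith)]
        exact h2
      exact h5.trans (mul_le_mul_of_nonneg_left h4 hXpos.le)
    calc C2 * (H : ℝ) ^ k * ((Q : ℝ) ^ 2) ^ (2 ^ k) *
        ((((2 * X + X / 4 : ℤ) : ℝ) - ((2 * (X : ℤ) : ℤ) : ℝ)) * (H * ((Q : ℝ) ^ 6 / X)) + H)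
        ≤ C2 * (H : ℝ) ^ k * ((Q : ℝ) ^ 2) ^ (2 ^ k) * (2 * (H * (Q : ℝ) ^ 6)) :=
          mul_le_mul_of_nonneg_left h1 (by positivity)
      _ = 2 * C2 * (H : ℝ) ^ k * (((Q : ℝ) ^ 2) ^ (2 ^ k) * (H * (Q : ℝ) ^ 6)) := by ring
      _ ≤ 2 * C2 * (H : ℝ) ^ k * (X * (Q' : ℝ) ^ (-ρ)) := mul_le_mul_of_nonneg_left h3 (by positivity)
      _ = (H : ℝ) ^ k * X * (2 * C2 * (Q' : ℝ) ^ (-ρ)) := by ring
  have hDL : (∑ j ∈ bxS k H, ‖∑ n ∈ JJ X, DL (List.ofFn fun i => lam k i * j i) F n‖) / ((H : ℝ) ^ k * X) ≤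
      (C1 + 2 * C2) * (Q' : ℝ) ^ (-ρ) := by
    rw [div_le_iff₀ (by positivity)]
    have h1 : ∑ j ∈ bxS k H, ‖∑ n ∈ JJ X, DL (List.ofFn fun i => lam k i * j i) F n‖ ≤
        (∑ n ∈ JJ X, ∑ j ∈ bxS k H, ‖∑ l ∈ range H, DL (List.ofFn fun i => lam k i * j i) (Vl Q Q' p) (n + l)‖) / H +
        C2 * (H : ℝ) ^ k * ((Q : ℝ) ^ 2) ^ (2 ^ k) *
        ((((2 * X + X / 4 : ℤ) : ℝ) - ((2 * (X : ℤ) : ℤ) : ℝ)) * (H * ((Q : ℝ) ^ 6 / X)) + H) := by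
      rw [hF]
      exact hfro
    refine h1.trans ((add_le_add hs1 hE).trans (le_of_eq ?_))
    ring
  have hel := KB11_elim k B X H hX1 hH1 hHX F hF0 f hf
  rw [hsum]
  have hpow : ‖∑ n ∈ JJ X, F n * Psi (B * X) k f n‖ ^ (2 ^ k) ≤
      (2 * (k + 1) * (4 * B + 1) * (C1 + 2 * C2 + 1) * (X : ℝ) ^ 2 * (Q' : ℝ) ^ (-(ρ / 2 ^ k))) ^ (2 ^ k) := by
    refine hel.trans ?_
    have h1 : (2 * (k + 1) * (4 * B + 1) * (C1 + 2 * C2 + 1) * (X : ℝ) ^ 2 * (Q' : ℝ) ^ (-(ρ / 2 ^ k))) ^ (2 ^ k) =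
        (2 * (k + 1) * (4 * B + 1) * (X : ℝ) ^ 2) ^ (2 ^ k) * ((C1 + 2 * C2 + 1) ^ (2 ^ k) * (Q' : ℝ) ^ (-ρ)) := by
      have h2 : ((Q' : ℝ) ^ (-(ρ / 2 ^ k))) ^ (2 ^ k) = (Q' : ℝ) ^ (-ρ) := by
        rw [← Real.rpow_natCast, ← Real.rpow_mul (by linarith)]
        congr 1
        push_cast
        field_simp
      have h3 : 2 * ((k : ℝ) + 1) * (4 * B + 1) * (C1 + 2 * C2 + 1) * (X : ℝ) ^ 2 * (Q' : ℝ) ^ (-(ρ / 2 ^ k)) =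
          (2 * (k + 1) * (4 * B + 1) * (X : ℝ) ^ 2) * ((C1 + 2 * C2 + 1) * (Q' : ℝ) ^ (-(ρ / 2 ^ k))) := by ring
      rw [h3, mul_pow, mul_pow (C1 + 2 * C2 + 1), h2]
    rw [h1]
    refine mul_le_mul_of_nonneg_left (hDL.trans (mul_le_mul_of_nonneg_right ?_ hρ0.le)) (by positivity)
    have h2 : (1 : ℝ) ≤ C1 + 2 * C2 + 1 := by linarith
    calc C1 + 2 * C2 ≤ (C1 + 2 * C2 + 1) ^ 1 := by rw [pow_one]; linarith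
      _ ≤ (C1 + 2 * C2 + 1) ^ (2 ^ k) := pow_le_pow_right₀ h2 (Nat.one_le_two_pow)
  exact le_of_pow_le_pow_left₀ (by positivity) (by positivity) hpow

end Pool.Agent.HUK
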