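import Pool.Agent.Lib.HUK.KB1

/-!
# Project HUK, chunk KB2 (S/M): products over primes
-/

open Finset

namespace Pool.Agent.HUK

/-- Proof. Induction on `P` (`Finset.induction_on`): `P = ∅`: `r * 1 = r`, `φ0 * 1 = φ0`. Step `insert q P`: `r * (q * ∏ l ∈ P, l) = (r * ∏ l ∈ P, l) * q`,
the numbers `r * ∏ l ∈ P, l` and `q` are coprime (distinct primes; `Nat.Coprime.prod_left`), `KB1_mul`, `KB1_per`. -/
theorem KB2_prod {k : ℕ} (r : ℕ) (hr : 1 ≤ r) (P : Finset ℕ) (hP : ∀ l ∈ P, l.Prime) (hPr : ∀ l ∈ P, Nat.Coprime l r)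
    (φ0 : ℤ → (Fin k → ℤ) → ℂ) (h0 : Pe r φ0) (φ : ℕ → ℤ → (Fin k → ℤ) → ℂ) (hφ : ∀ l ∈ P, Pe l (φ l)) :
    Pe (r * ∏ l ∈ P, l) (fun y h => φ0 y h * ∏ l ∈ P, φ l y h) ∧
    Av k (r * ∏ l ∈ P, l) (fun y h => φ0 y h * ∏ l ∈ P, φ l y h) = Av k r φ0 * ∏ l ∈ P, Av k l (φ l) := by
  classical
  revert hP hPr hφ
  refine Finset.induction_on P ?_ ?_
  · intro _ _ _
    simp only [Finset.prod_empty, mul_one]
    exact ⟨h0, trivial⟩
  · intro q S hq ih hP hPr hφ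
    have hqS : q ∈ insert q S := mem_insert_self _ _
    obtain ⟨ih1, ih2⟩ := ih (fun l hl => hP l (mem_insert_of_mem hl)) (fun l hl => hPr l (mem_insert_of_mem hl))
      (fun l hl => hφ l (mem_insert_of_mem hl))
    have hqp := hP q hqS
    have hM : 1 ≤ r * ∏ l ∈ S, l := Nat.mul_pos hr (Finset.prod_pos fun l hl => (hP l (mem_insert_of_mem hl)).pos)
    have hco : Nat.Coprime (r * ∏ l ∈ S, l) q := by
      refine Nat.Coprime.mul_left (hPr q hqS).symm ?_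
      refine Nat.Coprime.prod_left fun l hl => ?_
      exact (Nat.coprime_primes (hP l (mem_insert_of_mem hl)) hqp).2 (fun h => hq (h ▸ hl))
    have e1 : r * ∏ l ∈ insert q S, l = (r * ∏ l ∈ S, l) * q := by
      rw [prod_insert hq]
      ring
    have e2 : (fun y h => φ0 y h * ∏ l ∈ insert q S, φ l y h) = fun y h => (φ0 y h * ∏ l ∈ S, φ l y h) * φ q y h := by
      funext y h
      rw [prod_insert hq]
      ring
    rw [e1, e2]
    refine ⟨KB1_per _ _ _ _ ih1 (hφ q hqS), ?_⟩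
    rw [KB1_mul _ _ hM hqp.pos hco _ _ ih1 (hφ q hqS), ih2, prod_insert hq]
    ring

end Pool.Agent.HUK
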