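import Pool.Agent.Lib.HUK.KB0

/-!
# Project HUK, chunk KB3 (M): long sums of periodic functions
-/

open Finset

namespace Pool.Agent.HUK

theorem kb3_block (M : ℕ) (hM : 1 ≤ M) (g : ℤ → ℂ) (hg : ∀ y y' : ℤ, (M : ℤ) ∣ y - y' → g y = g y') (a : ℤ) :
    ∑ l ∈ range M, g (a + l) = ∑ y ∈ Ico (0 : ℤ) M, g y := by
  have hM0 : (0 : ℤ) < M := by exact_mod_cast hM
  apply Finset.sum_nbij' (fun l : ℕ => (a + l) % (M : ℤ)) (fun y : ℤ => ((y - a) % (M : ℤ)).toNat)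
  · intro l _
    rw [mem_Ico]
    exact ⟨Int.emod_nonneg _ hM0.ne', Int.emod_lt_of_pos _ hM0⟩
  · intro y _
    rw [mem_range]
    have h1 := Int.emod_nonneg (y - a) hM0.ne'
    have h2 := Int.emod_lt_of_pos (y - a) hM0
    omega
  · intro l hl
    rw [mem_range] at hl
    have h3 : ((a + l) % (M : ℤ) - a) % (M : ℤ) = l := by
      rw [Int.emod_sub_emod, add_sub_cancel_left, Int.emod_eq_of_lt (by omega) (by omega)]
    rw [h3, Int.toNat_natCast]
  · intro y hy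
    rw [mem_Ico] at hy
    have h1 := Int.emod_nonneg (y - a) hM0.ne'
    show (a + (((y - a) % (M : ℤ)).toNat : ℤ)) % (M : ℤ) = y
    rw [Int.toNat_of_nonneg h1, Int.add_emod_emod, add_sub_cancel, Int.emod_eq_of_lt hy.1 hy.2]
  · intro l _
    apply hg
    exact Int.dvd_self_sub_emod

theorem kb3_blocks (M : ℕ) (hM : 1 ≤ M) (g : ℤ → ℂ) (hg : ∀ y y' : ℤ, (M : ℤ) ∣ y - y' → g y = g y') (a : ℤ) (q : ℕ) :
    ∑ l ∈ range (M * q), g (a + l) = q * ∑ y ∈ Ico (0 : ℤ) M, g y := by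
  induction q with
  | zero => simp
  | succ q ih =>
    rw [Nat.mul_succ, Finset.sum_range_add, ih, Nat.cast_add, add_mul, Nat.cast_one, one_mul]
    congr 1
    rw [← kb3_block M hM g hg (a + (M * q : ℕ))]
    apply Finset.sum_congr rfl
    intro l _
    rw [Nat.cast_add, add_assoc]

theorem kb3_one (M H : ℕ) (hM : 1 ≤ M) (g : ℤ → ℂ) (hg : ∀ y y' : ℤ, (M : ℤ) ∣ y - y' → g y = g y')
    (S : ℝ) (hS : ∀ y, ‖g y‖ ≤ S) (a : ℤ) :
    ‖∑ l ∈ range H, g (a + l)‖ ≤ ((H : ℝ) / M) * ‖∑ y ∈ Ico (0 : ℤ) M, g y‖ + M * S := by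
  have hS0 : 0 ≤ S := (norm_nonneg _).trans (hS 0)
  have hM0 : (0 : ℝ) < M := by exact_mod_cast hM
  have h1 : H = M * (H / M) + H % M := (Nat.div_add_mod H M).symm
  rw [h1, Finset.sum_range_add, kb3_blocks M hM g hg a, ← h1]
  refine (norm_add_le _ _).trans (add_le_add ?_ ?_)
  · rw [norm_mul, Complex.norm_natCast]
    apply mul_le_mul_of_nonneg_right _ (norm_nonneg _)
    exact Nat.cast_div_le
  · refine (norm_sum_le _ _).trans ?_
    calc ∑ x ∈ range (H % M), ‖g (a + ((M * (H / M) + x : ℕ) : ℤ))‖ ≤ ∑ x ∈ range (H % M), S :=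
          Finset.sum_le_sum fun x _ => hS _
      _ = (H % M : ℕ) * S := by rw [Finset.sum_const, card_range, nsmul_eq_mul]
      _ ≤ M * S := by
          apply mul_le_mul_of_nonneg_right _ hS0
          exact_mod_cast (Nat.mod_lt H hM).le

theorem kb3_card (M H : ℕ) (hM : 1 ≤ M) (hMH : M ≤ H) (r : ℤ) :
    (((Ioo (-(H : ℤ)) H).filter fun x : ℤ => x % (M : ℤ) = r).card : ℝ) ≤ 4 * H / M := by
  have hM0 : (0 : ℤ) < M := by exact_mod_cast hM
  have hMr : (0 : ℝ) < M := by exact_mod_cast hM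
  have h1 : ((Ioo (-(H : ℤ)) H).filter fun x : ℤ => x % (M : ℤ) = r) ⊆
      (Ico (-(H : ℤ)) H).filter fun x : ℤ => x ≡ r [ZMOD (M : ℤ)] := by
    intro x hx
    rw [mem_filter, mem_Ioo] at hx
    rw [mem_filter, mem_Ico]
    refine ⟨⟨hx.1.1.le, hx.1.2⟩, ?_⟩
    rw [← hx.2]
    exact (Int.mod_modEq x M).symm
  have h2 := Int.Ico_filter_modEq_card (-(H : ℤ)) (H : ℤ) hM0 r
  have h3 : ((((Ico (-(H : ℤ)) H).filter fun x : ℤ => x ≡ r [ZMOD (M : ℤ)]).card : ℤ) : ℚ) ≤ 2 * H / M + 1 := by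
    rw [h2]
    rw [Int.cast_max]
    apply max_le
    · rw [Int.cast_sub]
      have h4 := Int.ceil_lt_add_one (((H : ℤ) - r : ℚ) / ((M : ℤ) : ℚ))
      have h5 := Int.le_ceil (((-(H : ℤ) : ℤ) - r : ℚ) / ((M : ℤ) : ℚ))
      have h6 : ((H : ℤ) - r : ℚ) / ((M : ℤ) : ℚ) - ((-(H : ℤ) : ℤ) - r : ℚ) / ((M : ℤ) : ℚ) = 2 * H / M := by
        rw [← sub_div]
        push_cast
        ring
      linarith
    · simp only [Int.cast_zero]
      positivity
  have h4 : (((Ico (-(H : ℤ)) H).filter fun x : ℤ => x ≡ r [ZMOD (M : ℤ)]).card : ℝ) ≤ 2 * H / M + 1 := by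
    have h3' := (Rat.cast_le (K := ℝ)).mpr h3
    push_cast at h3'
    exact h3'
  have h5 : (1 : ℝ) ≤ H / M := by
    rw [le_div_iff₀ hMr, one_mul]
    exact_mod_cast hMH
  have h6 : ((((Ioo (-(H : ℤ)) H).filter fun x : ℤ => x % (M : ℤ) = r).card : ℕ) : ℝ) ≤
      (((Ico (-(H : ℤ)) H).filter fun x : ℤ => x ≡ r [ZMOD (M : ℤ)]).card : ℝ) := by
    exact_mod_cast Finset.card_le_card h1
  have h7 : (2 * H / M : ℝ) = 2 * (H / M) := by ring
  have h8 : (4 * H / M : ℝ) = 4 * (H / M) := by ring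
  rw [h8]
  rw [h7] at h4
  linarith

theorem kb3_fib {k : ℕ} (M H : ℕ) (hM : 1 ≤ M) (hMH : M ≤ H) (G : (Fin k → ℤ) → ℝ) (hG0 : ∀ h, 0 ≤ G h)
    (hG : ∀ h h' : Fin k → ℤ, (∀ i, (M : ℤ) ∣ h i - h' i) → G h = G h') :
    ∑ j ∈ bxS k H, G j ≤ (4 * H / M : ℝ) ^ k * ∑ h ∈ Fintype.piFinset (fun _ : Fin k => Ico (0 : ℤ) M), G h := by
  have hM0 : (0 : ℤ) < M := by exact_mod_cast hM
  have hmap : ∀ j ∈ bxS k H, (fun i => j i % (M : ℤ)) ∈ Fintype.piFinset (fun _ : Fin k => Ico (0 : ℤ) M) := by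
    intro j _
    rw [Fintype.mem_piFinset]
    intro i
    rw [mem_Ico]
    exact ⟨Int.emod_nonneg _ hM0.ne', Int.emod_lt_of_pos _ hM0⟩
  rw [← Finset.sum_fiberwise_of_maps_to hmap, Finset.mul_sum]
  apply Finset.sum_le_sum
  intro h _
  have h1 : ∑ j ∈ bxS k H with (fun i => j i % (M : ℤ)) = h, G j =
      ((bxS k H).filter fun j => (fun i => j i % (M : ℤ)) = h).card * G h := by
    rw [← nsmul_eq_mul, ← Finset.sum_const]
    apply Finset.sum_congr rfl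
    intro j hj
    rw [mem_filter] at hj
    apply hG
    intro i
    rw [← hj.2]
    exact Int.dvd_self_sub_emod
  rw [h1]
  apply mul_le_mul_of_nonneg_right _ (hG0 h)
  have h2 : ((bxS k H).filter fun j => (fun i => j i % (M : ℤ)) = h) ⊆
      Fintype.piFinset fun i => (Ioo (-(H : ℤ)) H).filter fun x : ℤ => x % (M : ℤ) = h i := by
    intro j hj
    rw [mem_filter, bxS, Fintype.mem_piFinset] at hj
    rw [Fintype.mem_piFinset]
    intro i
    rw [mem_filter]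
    exact ⟨hj.1 i, congrFun hj.2 i⟩
  have h3 : (((bxS k H).filter fun j => (fun i => j i % (M : ℤ)) = h).card : ℝ) ≤
      ∏ i : Fin k, (((Ioo (-(H : ℤ)) H).filter fun x : ℤ => x % (M : ℤ) = h i).card : ℝ) := by
    have := Finset.card_le_card h2
    rw [Fintype.card_piFinset] at this
    exact_mod_cast this
  refine h3.trans ?_
  calc ∏ i : Fin k, (((Ioo (-(H : ℤ)) H).filter fun x : ℤ => x % (M : ℤ) = h i).card : ℝ)
      ≤ ∏ i : Fin k, (4 * H / M : ℝ) := by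
        apply Finset.prod_le_prod
        · intro i _; positivity
        · intro i _; exact kb3_card M H hM hMH (h i)
    _ = (4 * H / M : ℝ) ^ k := by rw [Finset.prod_const, Finset.card_univ, Fintype.card_fin]

/-- Proof. (1) For every `j`: `‖∑ l ∈ range H, φ (n + l) j‖ ≤ (H / M) ‖∑ y ∈ Ico 0 M, φ y j‖ + M S`: write `H = M q + ρ`, `q = H / M ≤ H / M` (real),
`ρ < M`; each of the `q` blocks of `M` consecutive integers gives `∑ y ∈ Ico 0 M, φ y j` by periodicity (a block of `M` consecutive integers is a complete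
system of residues: e.g. `Int.emod` is a bijection from `Ico a (a + M)` to `Ico 0 M`), the rest is at most `ρ S`. (2) `G j = ‖∑ y ∈ Ico 0 M, φ y j‖` is
non-negative and depends only on the residues of `j`; the map `bxS k H → piFinset (Ico 0 M)`, `j ↦ (fun i => j i % M)`, has fibres of size at most
`(4 H / M)^k`: in `(-H, H)` there are at most `2 H / M + 2 ≤ 4 H / M` integers in a residue class (`M ≤ H`). So
`∑_{j ∈ bxS k H} G j ≤ (4 H / M)^k M^(k+1) Av k M φ`. (3) `card (bxS k H) ≤ (2 H)^k`. Total: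
`(H / M) (4 H / M)^k M^(k+1) Av = 4^k H^(k+1) Av`, plus `(2 H)^k M S`. -/
theorem KB3_long {k : ℕ} (M H : ℕ) (hM : 1 ≤ M) (hMH : M ≤ H) (φ : ℤ → (Fin k → ℤ) → ℂ) (hφ : Pe M φ)
    (S : ℝ) (hS : ∀ y h, ‖φ y h‖ ≤ S) (n : ℤ) :
    ∑ j ∈ bxS k H, ‖∑ l ∈ range H, φ (n + l) j‖ ≤
      4 ^ k * (H : ℝ) ^ (k + 1) * Av k M φ + (2 * H) ^ k * M * S := by
  have hMr : (0 : ℝ) < M := by exact_mod_cast hM
  have hS0 : 0 ≤ S := (norm_nonneg _).trans (hS 0 0)
  have h0 : ∀ (y : ℤ) (h h' : Fin k → ℤ), (∀ i, (M : ℤ) ∣ h i - h' i) → φ y h = φ y h' :=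
    fun y h h' hh => hφ y y h h' (by simp) hh
  have h1 : ∀ j ∈ bxS k H, ‖∑ l ∈ range H, φ (n + l) j‖ ≤
      ((H : ℝ) / M) * ‖∑ y ∈ Ico (0 : ℤ) M, φ y j‖ + M * S := by
    intro j _
    exact kb3_one M H hM (fun y => φ y j) (fun y y' hy => hφ y y' j j hy (by simp)) S (fun y => hS y j) n
  refine (Finset.sum_le_sum h1).trans ?_
  rw [Finset.sum_add_distrib, ← Finset.mul_sum, Finset.sum_const, nsmul_eq_mul]
  apply add_le_add
  · have h2 := kb3_fib M H hM hMH (fun j => ‖∑ y ∈ Ico (0 : ℤ) M, φ y j‖) (fun _ => norm_nonneg _)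
      (fun h h' hh => by
        show ‖_‖ = ‖_‖
        congr 1
        exact Finset.sum_congr rfl fun y _ => h0 y h h' hh)
    refine (mul_le_mul_of_nonneg_left h2 (by positivity)).trans (le_of_eq ?_)
    unfold Av
    rw [div_pow, mul_pow]
    field_simp
    ring
  · have h3 : ((bxS k H).card : ℝ) ≤ (2 * H) ^ k := by
      unfold bxS
      rw [Fintype.card_piFinset]
      simp only [Int.card_Ioo, Finset.prod_const, Finset.card_univ, Fintype.card_fin]
      rw [Nat.cast_pow]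
      apply pow_le_pow_left₀ (by positivity)
      have : ((H : ℤ) - -(H : ℤ) - 1).toNat ≤ 2 * H := by omega
      exact_mod_cast this
    rw [mul_assoc]
    exact mul_le_mul_of_nonneg_right h3 (by positivity)

end Pool.Agent.HUK
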