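import Pool.Agent.Lib.HUK.KBD

/-!
# Project HUK, chunk KB4A (M): local sums at a prime
-/

open Finset

namespace Pool.Agent.HUK

open Pool.Agent.Lib.H59P (gl)

theorem kb4a_filter (l : ℕ) (hl : 0 < l) (c : ℤ) :
    (Ico (0 : ℤ) l).filter (fun y => (l : ℤ) ∣ y + c) = {(-c) % (l : ℤ)} := by
  have hl' : (0 : ℤ) < l := by exact_mod_cast hl
  ext y
  rw [mem_filter, mem_Ico, mem_singleton]
  constructor
  · rintro ⟨⟨h0, h1⟩, h2⟩
    have h3 : y ≡ -c [ZMOD (l : ℤ)] := by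
      rw [Int.modEq_iff_dvd]
      have h4 : -c - y = -(y + c) := by ring
      rw [h4]
      exact (dvd_neg).2 h2
    have h5 : y % (l : ℤ) = (-c) % (l : ℤ) := h3
    rw [← h5, Int.emod_eq_of_lt h0 h1]
  · intro h
    have h1 := Int.emod_nonneg (-c) hl'.ne'
    have h2 := Int.emod_lt_of_pos (-c) hl'
    have h3 := Int.emod_add_mul_ediv (-c) (l : ℤ)
    refine ⟨⟨by rw [h]; exact h1, by rw [h]; exact h2⟩, ⟨-((-c) / (l : ℤ)), ?_⟩⟩
    rw [h]
    linarith

theorem kb4a_sum (l : ℕ) (hl : 0 < l) (c : ℤ) (F : ℝ → ℝ) :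
    ∑ y ∈ Ico (0 : ℤ) l, F (gl l (y + c)) = F (-1) + ((l : ℝ) - 1) * F (1 / ((l : ℝ) - 1)) := by
  have h1 : ∀ y ∈ Ico (0 : ℤ) l, F (gl l (y + c)) =
      F (1 / ((l : ℝ) - 1)) + (if (l : ℤ) ∣ y + c then F (-1) - F (1 / ((l : ℝ) - 1)) else 0) := by
    intro y _
    unfold gl
    split_ifs
    · ring
    · ring
  rw [sum_congr rfl h1, sum_add_distrib, ← sum_filter, kb4a_filter l hl c, sum_singleton, sum_const,
    Int.card_Ico, sub_zero, Int.toNat_natCast, nsmul_eq_mul]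
  ring

theorem kb4a_one (l : ℕ) (hl : l.Prime) : (1 : ℝ) ≤ (l : ℝ) - 1 := by
  have h : (2 : ℝ) ≤ l := by exact_mod_cast hl.two_le
  linarith

/-- `|gl l m| ≤ 1` (`l - 1 ≥ 1`). -/
theorem KB4A_le (l : ℕ) (hl : l.Prime) (m : ℤ) : |gl l m| ≤ 1 := by
  have h1 := kb4a_one l hl
  unfold gl
  split_ifs
  · rw [abs_neg, abs_one]
  · rw [abs_of_nonneg (by positivity), div_le_one (by linarith)]
    exact h1

/-- `gl l m` depends only on `m` modulo `l`. -/
theorem KB4A_mod (l : ℕ) (m m' : ℤ) (h : (l : ℤ) ∣ m - m') : gl l m = gl l m' := by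
  have h1 : (l : ℤ) ∣ m ↔ (l : ℤ) ∣ m' := dvd_iff_dvd_of_dvd_sub h
  unfold gl
  by_cases h2 : (l : ℤ) ∣ m
  · rw [if_pos h2, if_pos (h1.1 h2)]
  · rw [if_neg h2, if_neg fun h3 => h2 (h1.2 h3)]

/-- Exactly one `y ∈ [0, l)` is divisible by `l` after the shift: `-1 + (l - 1) / (l - 1) = 0`. -/
theorem KB4A_zero (l : ℕ) (hl : l.Prime) (c : ℤ) : ∑ y ∈ Ico (0 : ℤ) l, gl l (y + c) = 0 := by
  have h1 := kb4a_one l hl
  have h2 := kb4a_sum l hl.pos c (fun x => x)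
  rw [h2, mul_one_div_cancel (by linarith)]
  ring

/-- In the same way `1 + (l - 1) / (l - 1) = 2`. -/
theorem KB4A_two (l : ℕ) (hl : l.Prime) (c : ℤ) : ∑ y ∈ Ico (0 : ℤ) l, |gl l (y + c)| = 2 := by
  have h1 := kb4a_one l hl
  have h2 := kb4a_sum l hl.pos c (fun x => |x|)
  rw [h2, abs_of_nonneg (by positivity : (0 : ℝ) ≤ 1 / ((l : ℝ) - 1)), mul_one_div_cancel (by linarith), abs_neg, abs_one]
  norm_num

/-- `l ∤ c - c'`: the zeros of the two factors are different, so the sum is `2 / (l - 1) + (l - 2) / (l - 1)^2 ≤ 3 / (l - 1) ≤ 6 / l`. (It suffices: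
`|gl (y+c)| |gl (y+c')| ≤ (|gl (y+c)| + |gl(y+c')|) / (l - 1)` if not both are `1`, then `KB4A_two` gives `4 / (l - 1)`; with the bound `8 / l`.) -/
theorem KB4A_pair (l : ℕ) (hl : l.Prime) (c c' : ℤ) (h : ¬ (l : ℤ) ∣ c - c') :
    ∑ y ∈ Ico (0 : ℤ) l, |gl l (y + c)| * |gl l (y + c')| ≤ 8 / l := by
  have h1 := kb4a_one l hl
  have hl2 : (2 : ℝ) ≤ l := by exact_mod_cast hl.two_le
  have hx : (0 : ℝ) ≤ 1 / ((l : ℝ) - 1) := by positivity
  have h2 : ∀ y ∈ Ico (0 : ℤ) l, |gl l (y + c)| * |gl l (y + c')| ≤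
      (|gl l (y + c)| + |gl l (y + c')|) * (1 / ((l : ℝ) - 1)) := by
    intro y _
    have ha := abs_nonneg (gl l (y + c))
    have hb := abs_nonneg (gl l (y + c'))
    have h3 : |gl l (y + c)| = 1 / ((l : ℝ) - 1) ∨ |gl l (y + c')| = 1 / ((l : ℝ) - 1) := by
      by_cases h4 : (l : ℤ) ∣ y + c
      · right
        have h5 : ¬ (l : ℤ) ∣ y + c' := by
          intro h6
          apply h
          have h7 : c - c' = (y + c) - (y + c') := by ring
          rw [h7]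
          exact dvd_sub h4 h6
        unfold gl
        rw [if_neg h5, abs_of_nonneg hx]
      · left
        unfold gl
        rw [if_neg h4, abs_of_nonneg hx]
    rcases h3 with h3 | h3
    · rw [h3]
      nlinarith [mul_nonneg hx hx]
    · rw [h3]
      nlinarith [mul_nonneg hx hx]
  refine (sum_le_sum h2).trans ?_
  rw [← sum_mul, sum_add_distrib, KB4A_two l hl c, KB4A_two l hl c', mul_one_div,
    div_le_div_iff₀ (by linarith) (by linarith)]
  linarith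

/-- Periodicity of the local factor: `l ∣ vl ω h - vl ω h'` if `l ∣ h i - h' i` for all `i`; `KB4A_mod`. -/
theorem KB4A_per {k : ℕ} (l : ℕ) (W : Finset (Fin k → Bool)) : Pe l (lf (k := k) l W) := by
  intro y y' h h' hy hh
  unfold lf
  refine prod_congr rfl fun ω _ => ?_
  rw [KB4A_mod l (y + vl ω h) (y' + vl ω h') ?_]
  have h1 : (y + vl ω h) - (y' + vl ω h') = (y - y') + ∑ i, (if ω i then lam k i * h i else 0) -
      ∑ i, (if ω i then lam k i * h' i else 0) := by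
    unfold vl vt
    ring
  rw [h1, add_sub_assoc, ← sum_sub_distrib]
  refine dvd_add hy (dvd_sum fun i _ => ?_)
  split_ifs
  · rw [← mul_sub]
    exact Dvd.dvd.mul_left (hh i) _
  · rw [sub_zero]
    exact dvd_zero _

end Pool.Agent.HUK
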