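import Pool.Agent.Lib.HUK.KB1
import Pool.Agent.Lib.HUK.KB4A

/-!
# Project HUK, chunk KB4 (M): the local factor at a prime is at most `C / l²`
-/

open Finset

namespace Pool.Agent.HUK

open Pool.Agent.Lib.H59P (gl)

/-- two arguments which agree outside of one coordinate -/
theorem kb4_diff (k : ℕ) (ω ω' : Fin k → Bool) (i : Fin k) (hi : ω i ≠ ω' i) (h h' : Fin k → ℤ) (hj : ∀ j, j ≠ i → h j = h' j) :
    (vl ω h - vl ω' h) - (vl ω h' - vl ω' h') = lam k i * (h i - h' i) ∨
      (vl ω h - vl ω' h) - (vl ω h' - vl ω' h') = -(lam k i * (h i - h' i)) := by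
  have e1 : (vl ω h - vl ω' h) - (vl ω h' - vl ω' h') =
      ∑ j, (((if ω j then lam k j * h j else 0) - (if ω' j then lam k j * h j else 0)) -
        ((if ω j then lam k j * h' j else 0) - (if ω' j then lam k j * h' j else 0))) := by
    unfold vl vt
    simp only [Finset.sum_sub_distrib]
  have e2 : ∑ j, (((if ω j then lam k j * h j else 0) - (if ω' j then lam k j * h j else 0)) -
        ((if ω j then lam k j * h' j else 0) - (if ω' j then lam k j * h' j else 0))) =
      (((if ω i then lam k i * h i else 0) - (if ω' i then lam k i * h i else 0)) -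
        ((if ω i then lam k i * h' i else 0) - (if ω' i then lam k i * h' i else 0))) := by
    refine Finset.sum_eq_single i (fun j _ hji => ?_) (fun hn => absurd (Finset.mem_univ i) hn)
    rw [hj j hji, sub_self]
  rw [e1, e2]
  rcases Bool.eq_false_or_eq_true (ω i) with h1 | h1
  · have h2 : ω' i = false := by
      rw [h1] at hi
      exact (Bool.eq_false_or_eq_true (ω' i)).resolve_left (fun h => hi h.symm)
    left
    rw [h1, h2]
    simp only [if_true, Bool.false_eq_true, if_false]
    ring
  · have h2 : ω' i = true := by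
      rw [h1] at hi
      exact (Bool.eq_false_or_eq_true (ω' i)).resolve_right (fun h => hi h.symm)
    right
    rw [h1, h2]
    simp only [if_true, Bool.false_eq_true, if_false]
    ring

/-- the product over `W` is at most the product of two factors -/
theorem kb4_prod {α : Type*} [DecidableEq α] (W : Finset α) (f : α → ℝ) (h0 : ∀ a, 0 ≤ f a) (h1 : ∀ a, f a ≤ 1) {a b : α}
    (ha : a ∈ W) (hb : b ∈ W) (hab : b ≠ a) : ∏ x ∈ W, f x ≤ f a * f b := by
  rw [← Finset.mul_prod_erase W f ha]
  refine mul_le_mul_of_nonneg_left ?_ (h0 a)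
  rw [← Finset.mul_prod_erase (W.erase a) f (Finset.mem_erase.2 ⟨hab, hb⟩)]
  exact mul_le_of_le_one_right (h0 b) (Finset.prod_le_one (fun x _ => h0 x) (fun x _ => h1 x))

/-- Two different vertices have congruent values for few `h`. Proof. There is `i` with `ω i ≠ ω' i`; `vl ω h - vl ω' h = ± lam k i * h i + (terms with the other
coordinates)`, `1 ≤ lam k i ≤ k < l`; so for fixed other coordinates at most one `h i ∈ [0, l)` is possible (`l` prime). The map
`h ↦ (fun j : {j // j ≠ i} => h j)`, or `Function.update h i 0`, is injective on the set, and its image is in a set with `l^(k-1)` elements. -/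
theorem KB4_bad (k l : ℕ) (hl : l.Prime) (hk : k < l) (ω ω' : Fin k → Bool) (h : ω ≠ ω') :
    ((((Fintype.piFinset (fun _ : Fin k => Ico (0 : ℤ) l)).filter fun h => (l : ℤ) ∣ vl ω h - vl ω' h).card : ℕ) : ℝ) ≤
      (l : ℝ) ^ k / l := by
  classical
  obtain ⟨i, hi⟩ := Function.ne_iff.1 h
  set S := (Fintype.piFinset (fun _ : Fin k => Ico (0 : ℤ) l)).filter fun h => (l : ℤ) ∣ vl ω h - vl ω' h with hS
  have hl0 : 0 < l := hl.pos
  have hlam : ¬ (l : ℤ) ∣ lam k i := by
    intro hd
    have h1 : 0 < lam k i := by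
      unfold lam
      have := i.2
      omega
    have h2 := Int.le_of_dvd h1 hd
    have h3 : lam k i ≤ k := by
      unfold lam
      omega
    omega
  have hpr : Prime (l : ℤ) := Nat.prime_iff_prime_int.1 hl
  have hcard : S.card * l ≤ l ^ k := by
    have h1 : (S ×ˢ Ico (0 : ℤ) l).card ≤ (Fintype.piFinset (fun _ : Fin k => Ico (0 : ℤ) l)).card := by
      refine Finset.card_le_card_of_injOn (fun p => Function.update p.1 i p.2) ?_ ?_
      · rintro ⟨h, x⟩ hp
        have hp' := Finset.mem_product.1 hp
        have h3 := Fintype.mem_piFinset.1 (Finset.mem_filter.1 hp'.1).1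
        show Function.update h i x ∈ (Fintype.piFinset (fun _ : Fin k => Ico (0 : ℤ) l) : Finset (Fin k → ℤ))
        rw [Fintype.mem_piFinset]
        intro j
        by_cases hj : j = i
        · subst hj
          rw [Function.update_self]
          exact hp'.2
        · rw [Function.update_of_ne hj]
          exact h3 j
      · rintro ⟨h, x⟩ hp ⟨h', x'⟩ hp' heq
        have hp1 := Finset.mem_product.1 hp
        have hp1' := Finset.mem_product.1 hp'
        have hm := Finset.mem_filter.1 hp1.1
        have hm' := Finset.mem_filter.1 hp1'.1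
        have heq' : Function.update h i x = Function.update h' i x' := heq
        have hx : x = x' := by
          have := congrFun heq' i
          rwa [Function.update_self, Function.update_self] at this
        have hj : ∀ j, j ≠ i → h j = h' j := by
          intro j hji
          have := congrFun heq' j
          rwa [Function.update_of_ne hji, Function.update_of_ne hji] at this
        have hd : (l : ℤ) ∣ lam k i * (h i - h' i) := by
          have h5 := dvd_sub hm.2 hm'.2
          rcases kb4_diff k ω ω' i hi h h' hj with h6 | h6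
          · rwa [h6] at h5
          · rw [h6] at h5
            exact (dvd_neg.1 h5)
        have hd2 : (l : ℤ) ∣ h i - h' i := (hpr.dvd_or_dvd hd).resolve_left hlam
        have hb1 : 0 ≤ h i ∧ h i < l := Finset.mem_Ico.1 (Fintype.mem_piFinset.1 hm.1 i)
        have hb2 : 0 ≤ h' i ∧ h' i < l := Finset.mem_Ico.1 (Fintype.mem_piFinset.1 hm'.1 i)
        have h7 : h i = h' i := by
          obtain ⟨c, hc⟩ := hd2
          have hc0 : c = 0 := by
            by_contra hne
            rcases lt_or_gt_of_ne hne with hlt | hgt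
            · have : (l : ℤ) * c ≤ (l : ℤ) * (-1) := mul_le_mul_of_nonneg_left (by omega) (by positivity)
              omega
            · have : (l : ℤ) * 1 ≤ (l : ℤ) * c := mul_le_mul_of_nonneg_left (by omega) (by positivity)
              omega
          rw [hc0, mul_zero] at hc
          omega
        have h8 : h = h' := by
          funext j
          by_cases hji : j = i
          · rw [hji]
            exact h7
          · exact hj j hji
        rw [h8, hx]
    rw [Finset.card_product, Fintype.card_piFinset_const, Int.card_Ico] at h1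
    simpa using h1
  rw [le_div_iff₀ (by exact_mod_cast hl0)]
  exact_mod_cast hcard

/-- Proof. If `l ≤ k`: `Av ≤ 1 ≤ k² / l²` (`KB1_one`, `KB4A_le`). Let `k < l`. If `W = {ω}`: all inner sums are `0` (`KB4A_zero`), so `Av = 0`. Otherwise
let `ω ≠ ω'` in `W`. The inner sum is at most `∑_y ∏_{W} |gl|`, at most `∑_y |gl l (y + vl ω h)| = 2` (`KB4A_two`; the other factors are at most `1`), and if
`l ∤ vl ω h - vl ω' h` at most `∑_y |gl (y + vl ω h)| |gl (y + vl ω' h)| ≤ 8 / l` (`KB4A_pair`). By `KB4_bad`:
`Av ≤ (2 l^k / l + l^k 8 / l) / l^(k+1) = 10 / l²`. -/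
theorem KB4_loc (k l : ℕ) (hl : l.Prime) (W : Finset (Fin k → Bool)) (hW : W.Nonempty) :
    Av k l (lf l W) ≤ (10 + (k : ℝ) ^ 2) / (l : ℝ) ^ 2 := by
  classical
  have hl0 : (0 : ℝ) < l := by exact_mod_cast hl.pos
  have hnorm : ∀ (y : ℤ) (h : Fin k → ℤ), ‖lf l W y h‖ = ∏ ω ∈ W, |gl l (y + vl ω h)| := by
    intro y h
    unfold lf
    rw [norm_prod]
    exact Finset.prod_congr rfl fun ω _ => by rw [Complex.norm_real, Real.norm_eq_abs]
  by_cases hk : k < l
  · obtain ⟨ω, hω⟩ := hW
    by_cases hone : ∀ ω' ∈ W, ω' = ω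
    · have hWe : W = {ω} := by
        refine Finset.eq_singleton_iff_unique_mem.2 ⟨hω, hone⟩
      have hz : Av k l (lf l W) = 0 := by
        unfold Av
        rw [div_eq_zero_iff]
        left
        refine Finset.sum_eq_zero fun h _ => ?_
        rw [norm_eq_zero]
        have e1 : ∀ y ∈ Ico (0 : ℤ) l, lf l W y h = ((gl l (y + vl ω h) : ℝ) : ℂ) := by
          intro y _
          unfold lf
          rw [hWe, Finset.prod_singleton]
        rw [Finset.sum_congr rfl e1, ← Complex.ofReal_sum, KB4A_zero l hl]
        exact Complex.ofReal_zero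
      rw [hz]
      positivity
    · push Not at hone
      obtain ⟨ω', hω', hne⟩ := hone
      have hI : ∀ h : Fin k → ℤ, ‖∑ y ∈ Ico (0 : ℤ) l, lf l W y h‖ ≤
          ∑ y ∈ Ico (0 : ℤ) l, |gl l (y + vl ω h)| * |gl l (y + vl ω' h)| := by
        intro h
        refine (norm_sum_le _ _).trans (Finset.sum_le_sum fun y _ => ?_)
        rw [hnorm]
        exact kb4_prod W (fun ω => |gl l (y + vl ω h)|) (fun _ => abs_nonneg _) (fun _ => KB4A_le l hl _) hω hω' hne
      have hI2 : ∀ h : Fin k → ℤ, ‖∑ y ∈ Ico (0 : ℤ) l, lf l W y h‖ ≤ 2 := by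
        intro h
        refine (hI h).trans ?_
        rw [← KB4A_two l hl (vl ω h)]
        exact Finset.sum_le_sum fun y _ => mul_le_of_le_one_right (abs_nonneg _) (KB4A_le l hl _)
      have hpt : ∀ h ∈ Fintype.piFinset (fun _ : Fin k => Ico (0 : ℤ) l), ‖∑ y ∈ Ico (0 : ℤ) l, lf l W y h‖ ≤
          (if (l : ℤ) ∣ vl ω h - vl ω' h then (2 : ℝ) else 0) + 8 / l := by
        intro h _
        split_ifs with hd
        · refine (hI2 h).trans ?_
          have : (0 : ℝ) ≤ 8 / l := by positivity
          linarith
        · rw [zero_add]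
          exact (hI h).trans (KB4A_pair l hl _ _ hd)
      have hsum := Finset.sum_le_sum hpt
      rw [Finset.sum_add_distrib, Finset.sum_const, Fintype.card_piFinset_const, Int.card_Ico, ← Finset.sum_filter,
        Finset.sum_const] at hsum
      have hbad := KB4_bad k l hl hk ω ω' (Ne.symm hne)
      unfold Av
      have hpow : (0 : ℝ) < (l : ℝ) ^ (k + 1) := by positivity
      rw [div_le_div_iff₀ hpow (by positivity)]
      simp only [nsmul_eq_mul, sub_zero, Int.toNat_natCast, Nat.cast_pow] at hsum
      have h10 : (∑ h ∈ Fintype.piFinset (fun _ : Fin k => Ico (0 : ℤ) l), ‖∑ y ∈ Ico (0 : ℤ) l, lf l W y h‖) ≤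
          10 * ((l : ℝ) ^ k / l) := by
        refine hsum.trans ?_
        have e1 : (l : ℝ) ^ k * (8 / l) = 8 * ((l : ℝ) ^ k / l) := by ring
        rw [e1]
        nlinarith [hbad]
      have e2 : (10 : ℝ) * ((l : ℝ) ^ k / l) * (l : ℝ) ^ 2 = 10 * (l : ℝ) ^ (k + 1) := by
        field_simp
        ring
      calc (∑ h ∈ Fintype.piFinset (fun _ : Fin k => Ico (0 : ℤ) l), ‖∑ y ∈ Ico (0 : ℤ) l, lf l W y h‖) * (l : ℝ) ^ 2
          ≤ 10 * ((l : ℝ) ^ k / l) * (l : ℝ) ^ 2 := mul_le_mul_of_nonneg_right h10 (by positivity)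
        _ = 10 * (l : ℝ) ^ (k + 1) := e2
        _ ≤ (10 + (k : ℝ) ^ 2) * (l : ℝ) ^ (k + 1) := by
            refine mul_le_mul_of_nonneg_right ?_ hpow.le
            have : (0 : ℝ) ≤ (k : ℝ) ^ 2 := by positivity
            linarith
  · refine (KB1_one k l hl.pos _ ?_).trans ?_
    · intro y h
      rw [hnorm]
      exact Finset.prod_le_one (fun _ _ => abs_nonneg _) (fun _ _ => KB4A_le l hl _)
    · rw [le_div_iff₀ (by positivity), one_mul]
      have h1 : (l : ℝ) ≤ k := by exact_mod_cast not_lt.1 hk
      have h2 : (l : ℝ) ^ 2 ≤ (k : ℝ) ^ 2 := pow_le_pow_left₀ hl0.le h1 2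
      linarith

end Pool.Agent.HUK
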