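import Pool.Agent.Lib.HUK.KBD
import Pool.Agent.Lib.HUK.KA14
import Pool.Agent.Lib.H9U.L0

/-!
# Project HUK, chunk KB5 (M): the character part
-/

open Finset

namespace Pool.Agent.HUK

open Pool.Agent.Lib.H59P (Ch)

theorem kb5_conj (n : ℕ) (z : ℂ) : (starRingEnd ℂ) (cj n z) = cj n ((starRingEnd ℂ) z) := by
  unfold cj
  split_ifs <;> rfl

/-- the function in terms of residues -/
theorem kb5_eq {k : ℕ} (p : Ch) (y : ℤ) (h : Fin k → ℤ) :
    cp p y h = (starRingEnd ℂ) (DL (List.ofFn fun i => ((lam k i : ℤ) : ZMod p.1) * ((h i : ℤ) : ZMod p.1))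
      (fun z => p.2 z) ((y : ℤ) : ZMod p.1)) := by
  unfold cp
  rw [DL_prod, DL_prod, map_prod]
  refine Finset.prod_congr rfl fun ω _ => ?_
  rw [kb5_conj]
  congr 3
  unfold vt
  push_cast
  congr 1

/-- sums over residues -/
theorem kb5_sum (r : ℕ) [NeZero r] {M : Type*} [AddCommMonoid M] (g : ZMod r → M) :
    ∑ y ∈ Ico (0 : ℤ) r, g ((y : ℤ) : ZMod r) = ∑ z : ZMod r, g z := by
  have hr : 0 < r := Nat.pos_of_ne_zero (NeZero.ne r)
  refine Finset.sum_nbij' (fun y : ℤ => (y : ZMod r)) (fun z : ZMod r => (z.val : ℤ)) (fun _ _ => Finset.mem_univ _) ?_ ?_ ?_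
    (fun _ _ => rfl)
  · intro z _
    rw [Finset.mem_Ico]
    exact ⟨by positivity, by exact_mod_cast ZMod.val_lt z⟩
  · intro y hy
    rw [Finset.mem_Ico] at hy
    show (((y : ZMod r)).val : ℤ) = y
    rw [ZMod.val_intCast, Int.emod_eq_of_lt hy.1 hy.2]
  · intro z _
    show (((z.val : ℕ) : ℤ) : ZMod r) = z
    rw [Int.cast_natCast, ZMod.natCast_zmod_val]

/-- sums over tuples of residues -/
theorem kb5_sum_pi (k r : ℕ) [NeZero r] {M : Type*} [AddCommMonoid M] (g : (Fin k → ZMod r) → M) :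
    ∑ h ∈ Fintype.piFinset (fun _ : Fin k => Ico (0 : ℤ) r), g (fun i => ((h i : ℤ) : ZMod r)) = ∑ t : Fin k → ZMod r, g t := by
  have hr : 0 < r := Nat.pos_of_ne_zero (NeZero.ne r)
  refine Finset.sum_nbij' (fun h : Fin k → ℤ => fun i => ((h i : ℤ) : ZMod r)) (fun t : Fin k → ZMod r => fun i => ((t i).val : ℤ))
    (fun _ _ => Finset.mem_univ _) ?_ ?_ ?_ (fun _ _ => rfl)
  · intro t _
    rw [Fintype.mem_piFinset]
    intro i
    rw [Finset.mem_Ico]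
    exact ⟨by positivity, by exact_mod_cast ZMod.val_lt (t i)⟩
  · intro h hh
    funext i
    have hi := Finset.mem_Ico.1 (Fintype.mem_piFinset.1 hh i)
    show ((((h i : ℤ) : ZMod r)).val : ℤ) = h i
    rw [ZMod.val_intCast, Int.emod_eq_of_lt hi.1 hi.2]
  · intro t _
    funext i
    show ((((t i).val : ℕ) : ℤ) : ZMod r) = t i
    rw [Int.cast_natCast, ZMod.natCast_zmod_val]

theorem kb5_lam (k : ℕ) (i : Fin k) : lam k i ≠ 0 ∧ (lam k i).natAbs ≤ k := by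
  have hi := i.2
  unfold lam
  constructor
  · omega
  · omega

/-- fibres of the coordinatewise multiplication -/
theorem kb5_fib (k r : ℕ) [NeZero r] (F : (Fin k → ZMod r) → ℝ) (hF : ∀ t, 0 ≤ F t) :
    ∑ h : Fin k → ZMod r, F (fun i => ((lam k i : ℤ) : ZMod r) * h i) ≤ (k : ℝ) ^ k * ∑ t, F t := by
  classical
  rw [← Finset.sum_fiberwise univ (fun h : Fin k → ZMod r => fun i => ((lam k i : ℤ) : ZMod r) * h i), Finset.mul_sum]
  refine Finset.sum_le_sum fun t _ => ?_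
  have h1 : ∑ h ∈ univ.filter (fun h : Fin k → ZMod r => (fun i => ((lam k i : ℤ) : ZMod r) * h i) = t),
      F (fun i => ((lam k i : ℤ) : ZMod r) * h i) =
      ∑ h ∈ univ.filter (fun h : Fin k → ZMod r => (fun i => ((lam k i : ℤ) : ZMod r) * h i) = t), F t := by
    refine Finset.sum_congr rfl fun h hh => ?_
    rw [(mem_filter.1 hh).2]
  rw [h1, Finset.sum_const, nsmul_eq_mul]
  refine mul_le_mul_of_nonneg_right ?_ (hF t)
  have h2 : univ.filter (fun h : Fin k → ZMod r => (fun i => ((lam k i : ℤ) : ZMod r) * h i) = t) =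
      Fintype.piFinset (fun i => univ.filter (fun m : ZMod r => ((lam k i : ℤ) : ZMod r) * m + 0 = t i)) := by
    ext h
    rw [Fintype.mem_piFinset]
    simp only [mem_filter, mem_univ, true_and, add_zero]
    exact funext_iff
  rw [h2, Fintype.card_piFinset]
  have h3 : ∏ i : Fin k, (univ.filter (fun m : ZMod r => ((lam k i : ℤ) : ZMod r) * m + 0 = t i)).card ≤ ∏ _i : Fin k, k :=
    Finset.prod_le_prod' fun i _ => (H9U.l0_card r (lam k i) (kb5_lam k i).1 0 (t i)).trans (kb5_lam k i).2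
  rw [Finset.prod_const, Finset.card_univ, Fintype.card_fin] at h3
  exact_mod_cast h3

/-- Periodicity: `DL_prod` (`P0.lean`) and the casts of `y + vt ω ..` to `ZMod p.1`. -/
theorem KB5_per {k : ℕ} (p : Ch) : Pe p.1 (cp (k := k) p) := by
  intro y y' h h' hy hh
  rw [kb5_eq, kb5_eq]
  have e1 : ((y : ℤ) : ZMod p.1) = ((y' : ℤ) : ZMod p.1) := by
    rw [← sub_eq_zero, ← Int.cast_sub]
    exact (ZMod.intCast_zmod_eq_zero_iff_dvd _ _).2 hy
  have e2 : (fun i => ((lam k i : ℤ) : ZMod p.1) * ((h i : ℤ) : ZMod p.1)) =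
      fun i => ((lam k i : ℤ) : ZMod p.1) * ((h' i : ℤ) : ZMod p.1) := by
    funext i
    congr 1
    rw [← sub_eq_zero, ← Int.cast_sub]
    exact (ZMod.intCast_zmod_eq_zero_iff_dvd _ _).2 (hh i)
  rw [e1, e2]

theorem KB5_le {k : ℕ} (p : Ch) (y : ℤ) (h : Fin k → ℤ) : ‖cp p y h‖ ≤ 1 := by
  unfold cp
  refine DL_norm _ _ (fun z => ?_) y
  rw [RCLike.norm_conj]
  exact DirichletCharacter.norm_le_one p.2 _

/-- Proof. `r = p.1`, `C`, `c` from `UCH_all k`. For integers `y`, `h`: by `DL_prod`, `cp p y h = conj (DL (List.ofFn fun i => ((lam k i : ℤ) : ZMod r) * h i) χ y)` with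
the casts of `y` and `h i` to `ZMod r`. The casts are bijections from `Ico 0 r` to `ZMod r` (and coordinatewise), so
`r^(k+1) Av k r (cp p) = ∑_{h : Fin k → ZMod r} ‖∑_{y : ZMod r} DL (List.ofFn fun i => lam i * h i) χ y‖`. The map `h ↦ (lam i * h i)_i` has fibres with at
most `∏ i, lam k i ≤ k^k` elements (`H9U.L0` has fibres of a multiplication; or: `{x : ZMod r | a x = b}` has at most `|a|` elements for an integer
`a ≠ 0`), so this is at most `k^k ∑_{t} ‖∑_y DL (List.ofFn t) χ y‖ ≤ k^k C r^(k+1-c)`. -/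
theorem KB5_chi (k : ℕ) (hk : 1 ≤ k) : ∃ C e : ℝ, 0 < C ∧ 0 < e ∧ e ≤ 1 ∧ ∀ p : Ch, 1 ≤ p.1 → p.2.IsPrimitive →
    Av k p.1 (cp p) ≤ C * (p.1 : ℝ) ^ (-e) := by
  obtain ⟨C, c, hC, hc, hc1, H⟩ := UCH_all k hk
  have hk0 : (0 : ℝ) < (k : ℝ) ^ k := by
    have : (0 : ℝ) < k := by exact_mod_cast hk
    positivity
  refine ⟨(k : ℝ) ^ k * C, c, mul_pos hk0 hC, hc, hc1, ?_⟩
  rintro ⟨r, χ⟩ hr hχ
  have hr' : 1 ≤ r := hr
  have hne : NeZero r := ⟨by omega⟩
  have hr0 : (0 : ℝ) < r := by exact_mod_cast hr'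
  show Av k r (cp ⟨r, χ⟩) ≤ (k : ℝ) ^ k * C * (r : ℝ) ^ (-c)
  unfold Av
  let F : (Fin k → ZMod r) → ℝ := fun t => ‖∑ z : ZMod r, DL (List.ofFn t) (fun z => χ z) z‖
  have hF : ∀ t, 0 ≤ F t := fun t => norm_nonneg _
  have h1 : ∀ h : Fin k → ℤ, ‖∑ y ∈ Ico (0 : ℤ) r, cp ⟨r, χ⟩ y h‖ =
      F (fun i => ((lam k i : ℤ) : ZMod r) * ((h i : ℤ) : ZMod r)) := by
    intro h
    have e1 : ∑ y ∈ Ico (0 : ℤ) r, cp ⟨r, χ⟩ y h = (starRingEnd ℂ) (∑ z : ZMod r,
        DL (List.ofFn fun i => ((lam k i : ℤ) : ZMod r) * ((h i : ℤ) : ZMod r)) (fun z => χ z) z) := by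
      rw [map_sum, ← kb5_sum r (fun z : ZMod r => (starRingEnd ℂ)
        (DL (List.ofFn fun i => ((lam k i : ℤ) : ZMod r) * ((h i : ℤ) : ZMod r)) (fun z => χ z) z))]
      exact Finset.sum_congr rfl fun y _ => kb5_eq ⟨r, χ⟩ y h
    rw [e1, RCLike.norm_conj]
  have h2 : ∑ h ∈ Fintype.piFinset (fun _ : Fin k => Ico (0 : ℤ) r), ‖∑ y ∈ Ico (0 : ℤ) r, cp ⟨r, χ⟩ y h‖ ≤
      (k : ℝ) ^ k * (C * (r : ℝ) ^ ((k : ℝ) + 1 - c)) := by
    rw [Finset.sum_congr rfl fun h _ => h1 h,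
      kb5_sum_pi k r (fun t : Fin k → ZMod r => F (fun i => ((lam k i : ℤ) : ZMod r) * t i))]
    refine (kb5_fib k r F hF).trans (mul_le_mul_of_nonneg_left ?_ hk0.le)
    exact H r χ hχ
  rw [div_le_iff₀ (by positivity)]
  refine h2.trans (le_of_eq ?_)
  have e3 : (r : ℝ) ^ ((k : ℝ) + 1 - c) = (r : ℝ) ^ (-c) * (r : ℝ) ^ (k + 1) := by
    rw [← Real.rpow_natCast, ← Real.rpow_add hr0]
    congr 1
    push_cast
    ring
  rw [e3]
  ring

end Pool.Agent.HUK
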