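import Pool.Agent.Lib.HUK.KBD
import Pool.Agent.Lib.H59P.M2A

/-!
# Project HUK, chunk KB6 (M): factorization of the product over the vertices
-/

open Finset

namespace Pool.Agent.HUK

open Pool.Agent.Lib.H18Q (gk KS)
open Pool.Agent.Lib.H59P (Ch gl)

theorem kb6_cj_real (n : ℕ) (a : ℝ) : cj n (a : ℂ) = (a : ℂ) := by
  unfold cj
  split_ifs
  · rfl
  · exact Complex.conj_ofReal a

/-- Proof. `M2a`: `gk p κ m = (r/φ(r)) conj χ(m) ∏_{l ∈ κ.primeFactors} gl l m` (`κ` squarefree). `cj n` is multiplicative (`p0_cj_mul`) and fixes real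
numbers; `DL_prod` for `cp`; there are `2^k` vertices; and
`∏_ω ∏_{l ∈ (κ ω).primeFactors} G l ω = ∏_{l ∈ Pk κ} ∏_{ω, l ∣ κ ω} G l ω` (`Finset.prod_comm'` or `Finset.prod_subset` with `ite`; `κ ω ≠ 0`, the elements
of `Pk κ` are primes, so `l ∣ κ ω ↔ l ∈ (κ ω).primeFactors`). -/
theorem KB6_fac {k : ℕ} (p : Ch) (κ : (Fin k → Bool) → ℕ) (hκ : ∀ ω, Squarefree (κ ω)) (y : ℤ) (h : Fin k → ℤ) :
    gt p κ y h = ((((p.1 : ℝ) / (Nat.totient p.1 : ℝ)) ^ (2 ^ k) : ℝ) : ℂ) *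
      (cp p y h * ∏ l ∈ Pk κ, lf l (univ.filter fun ω => l ∣ κ ω) y h) := by
  classical
  have h1 : ∀ ω : Fin k → Bool, cj (sg ω) (gk p (κ ω) (y + vl ω h)) =
      ((((p.1 : ℝ) / (Nat.totient p.1 : ℝ)) : ℝ) : ℂ) *
        (cj (sg ω) ((starRingEnd ℂ) (p.2 ((y + vl ω h : ℤ) : ZMod p.1))) *
          ∏ l ∈ (κ ω).primeFactors, ((gl l (y + vl ω h) : ℝ) : ℂ)) := by
    intro ω
    unfold gk
    rw [Pool.Agent.Lib.H59P.M2a (κ ω) (hκ ω), p0_cj_mul, p0_cj_mul, kb6_cj_real, kb6_cj_real,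
      Complex.ofReal_prod, mul_assoc]
  have h2 : cp p y h = ∏ ω : Fin k → Bool,
      cj (sg ω) ((starRingEnd ℂ) (p.2 ((y + vl ω h : ℤ) : ZMod p.1))) := by
    unfold cp
    rw [DL_prod]
    rfl
  have h3 : ∏ ω : Fin k → Bool, ∏ l ∈ (κ ω).primeFactors, ((gl l (y + vl ω h) : ℝ) : ℂ) =
      ∏ l ∈ Pk κ, lf l (univ.filter fun ω => l ∣ κ ω) y h := by
    unfold lf
    refine Finset.prod_comm' ?_
    intro ω l
    simp only [Finset.mem_univ, true_and, Finset.mem_filter]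
    constructor
    · intro hl
      refine ⟨Nat.dvd_of_mem_primeFactors hl, ?_⟩
      exact Finset.mem_biUnion.2 ⟨ω, Finset.mem_univ _, hl⟩
    · rintro ⟨hl, hl2⟩
      obtain ⟨ω', -, hω'⟩ := Finset.mem_biUnion.1 hl2
      exact Nat.mem_primeFactors.2 ⟨Nat.prime_of_mem_primeFactors hω', hl, (hκ ω).ne_zero⟩
  unfold gt
  rw [Finset.prod_congr rfl fun ω _ => h1 ω, Finset.prod_mul_distrib, Finset.prod_mul_distrib,
    Finset.prod_const, h2, h3]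
  congr 1
  rw [Complex.ofReal_pow]
  congr 1
  rw [Finset.card_univ, Fintype.card_fun, Fintype.card_bool, Fintype.card_fin]

/-- `κ ω ∣ nk κ` (squarefree: `Nat.prod_primeFactors_of_squarefree`), `nk κ ∣ ∏ κ ω` hence `nk κ ≤ ∏ κ ω`, the primes in `Pk κ` are coprime to `r`. -/
theorem KB6_nk {k : ℕ} (Q : ℕ) (r : ℕ) (κ : (Fin k → Bool) → ℕ) (hκ : ∀ ω, κ ω ∈ KS Q r) :
    (∀ ω, κ ω ∣ nk κ) ∧ 1 ≤ nk κ ∧ nk κ ≤ ∏ ω, κ ω ∧ (∀ l ∈ Pk κ, l.Prime ∧ Nat.Coprime l r) ∧ Squarefree (nk κ) ∧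
      (nk κ).primeFactors = Pk κ := by
  classical
  have hK : ∀ ω, Squarefree (κ ω) ∧ Nat.Coprime (κ ω) r := by
    intro ω
    have h1 := hκ ω
    unfold Pool.Agent.Lib.H18Q.KS at h1
    exact (Finset.mem_filter.1 h1).2
  have hP : ∀ l ∈ Pk κ, ∃ ω, l ∈ (κ ω).primeFactors := by
    intro l hl
    obtain ⟨ω, -, hω⟩ := Finset.mem_biUnion.1 hl
    exact ⟨ω, hω⟩
  have hp : ∀ l ∈ Pk κ, l.Prime := by
    intro l hl
    obtain ⟨ω, hω⟩ := hP l hl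
    exact Nat.prime_of_mem_primeFactors hω
  have hdiv : ∀ ω, κ ω ∣ nk κ := by
    intro ω
    have h1 : ∏ l ∈ (κ ω).primeFactors, l ∣ ∏ l ∈ Pk κ, l := by
      refine Finset.prod_dvd_prod_of_subset _ _ _ ?_
      intro l hl
      exact Finset.mem_biUnion.2 ⟨ω, Finset.mem_univ _, hl⟩
    rw [Nat.prod_primeFactors_of_squarefree (hK ω).1] at h1
    exact h1
  have hpos : 0 < nk κ := Finset.prod_pos fun l hl => (hp l hl).pos
  have hdv : nk κ ∣ ∏ ω, κ ω := by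
    refine Finset.prod_primes_dvd _ (fun l hl => (hp l hl).prime) ?_
    intro l hl
    obtain ⟨ω, hω⟩ := hP l hl
    exact (Nat.dvd_of_mem_primeFactors hω).trans (Finset.dvd_prod_of_mem κ (Finset.mem_univ ω))
  refine ⟨hdiv, hpos, ?_, ?_, ?_, Nat.primeFactors_prod hp⟩
  · exact Nat.le_of_dvd (Finset.prod_pos fun ω _ => Nat.pos_of_ne_zero (hK ω).1.ne_zero) hdv
  · intro l hl
    obtain ⟨ω, hω⟩ := hP l hl
    exact ⟨hp l hl, Nat.Coprime.coprime_dvd_left (Nat.dvd_of_mem_primeFactors hω) (hK ω).2⟩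
  · refine Finset.squarefree_prod_of_pairwise_isCoprime ?_ fun l hl => (hp l hl).prime.squarefree
    intro a ha b hb hab
    exact (Nat.coprime_iff_isRelPrime).1 ((Nat.coprime_primes (hp a ha) (hp b hb)).2 hab)

end Pool.Agent.HUK
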