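import Pool.Agent.Lib.HUK.KB2
import Pool.Agent.Lib.HUK.KB4
import Pool.Agent.Lib.HUK.KB5
import Pool.Agent.Lib.HUK.KB6
import Pool.Agent.Lib.HUK.KA11

/-!
# Project HUK, chunk KB7 (M): one tuple of moduli
-/

open Finset

namespace Pool.Agent.HUK

open Pool.Agent.Lib.H68T (PC)
open Pool.Agent.Lib.H18Q (gk KS)
open Pool.Agent.Lib.H59P (Ch gl)

theorem kb7_cj (n : ℕ) (z : ℂ) : ‖cj n z‖ = ‖z‖ := by
  unfold cj
  split_ifs
  · rfl
  · exact RCLike.norm_conj z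

theorem kb7_sq {k : ℕ} {Q r : ℕ} {κ : (Fin k → Bool) → ℕ} (hκ : ∀ ω, κ ω ∈ KS Q r) : ∀ ω, Squarefree (κ ω) :=
  fun ω => (Pool.Agent.Lib.H18Q.CA_mem_KS.1 (hκ ω)).2.1

/-- Period and size. Proof. `KB6_fac`, `KB2_prod` (`KB5_per`, `KB4A_per`); `‖gk p (κ ω) m‖ ≤ Q` (`gk_bound` in `H18Q/CA.lean`, or `f3_gk` in
`H59T/F3.lean`); `p.1 * nk κ ≤ Q * ∏ κ ω ≤ Q * Q^(2^k)`. -/
theorem KB7_per {k : ℕ} (Q : ℕ) (p : Ch) (hp : p ∈ PC Q) (κ : (Fin k → Bool) → ℕ) (hκ : ∀ ω, κ ω ∈ KS Q p.1) :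
    Pe (p.1 * nk κ) (gt p κ) ∧ (∀ y h, ‖gt p κ y h‖ ≤ (Q : ℝ) ^ (2 ^ k)) ∧ p.1 * nk κ ≤ Q ^ (2 ^ k + 1) := by
  have hr1 : 1 ≤ p.1 := (Pool.Agent.Lib.H68T.mem_PC.1 hp).1
  have hrQ : p.1 ≤ Q := (Pool.Agent.Lib.H68T.mem_PC.1 hp).2.1
  obtain ⟨-, hn1, hn2, hn3, -, -⟩ := KB6_nk Q p.1 κ hκ
  refine ⟨?_, ?_, ?_⟩
  · have h1 := (KB2_prod p.1 hr1 (Pk κ) (fun l hl => (hn3 l hl).1) (fun l hl => (hn3 l hl).2) (cp p) (KB5_per p)
      (fun l => lf l (univ.filter fun ω => l ∣ κ ω)) (fun l _ => KB4A_per l _)).1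
    intro y y' h h' hy hh
    rw [KB6_fac p κ (kb7_sq hκ), KB6_fac p κ (kb7_sq hκ)]
    exact congrArg (fun z : ℂ => ((((p.1 : ℝ) / (Nat.totient p.1 : ℝ)) ^ (2 ^ k) : ℝ) : ℂ) * z) (h1 y y' h h' hy hh)
  · intro y h
    unfold gt
    rw [norm_prod]
    refine (Finset.prod_le_prod (fun _ _ => norm_nonneg _) (g := fun _ => (Q : ℝ)) fun ω _ => ?_).trans ?_
    · rw [kb7_cj]
      exact Pool.Agent.Lib.H18Q.gk_bound Q p hp (κ ω) (hκ ω) _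
    · rw [Finset.prod_const, Finset.card_univ, Fintype.card_fun, Fintype.card_bool, Fintype.card_fin]
  · have h1 : ∏ ω, κ ω ≤ Q ^ (2 ^ k) := by
      refine (Finset.prod_le_prod' (g := fun _ => Q) fun ω _ => ?_).trans ?_
      · exact (Pool.Agent.Lib.H18Q.CA_mem_KS.1 (hκ ω)).1.2.trans (Nat.div_le_self _ _)
      · rw [Finset.prod_const, Finset.card_univ, Fintype.card_fun, Fintype.card_bool, Fintype.card_fin]
    rw [pow_succ']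
    exact Nat.mul_le_mul hrQ (hn2.trans h1)

/-- Proof. `KB6_fac`, `KB1_smul`, `KB2_prod`: `Av = (r/φ(r))^(2^k) * Av k r (cp p) * ∏_{l ∈ Pk κ} Av k l (lf l ..)`. `KB5_chi`: `C1 r^(-e1)`; `KA11_tot` with
`ε = e1 / 2^(k+1)`: `(r/φ(r))^(2^k) ≤ C2^(2^k) r^(e1/2)`; `KB4_loc` (the filter is nonempty for `l ∈ Pk κ`): the product is at most
`∏_{l ∈ Pk κ} (10 + k²)/l² ≤ 2^(b * card (Pk κ)) / (nk κ)²` for `2^b ≥ 10 + k²`, and `2^(card Pk κ) = (nk κ).divisors.card` (squarefree, `KB6_nk`: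
`Nat.Squarefree.cardDivisors..`, e.g. `Nat.card_divisors` or `ArithmeticFunction.card..`; only `≤` is needed: the products of the subsets of
`Pk κ` are different divisors, or `Finset.card_powerset` and `Nat.divisors_filter_squarefree`). `e = e1/2`. -/
theorem KB7_av (k : ℕ) (hk : 1 ≤ k) : ∃ (b : ℕ) (C e : ℝ), 0 < C ∧ 0 < e ∧ e ≤ 1 ∧ ∀ (Q : ℕ) (p : Ch), p ∈ PC Q →
    ∀ κ : (Fin k → Bool) → ℕ, (∀ ω, κ ω ∈ KS Q p.1) →
    Av k (p.1 * nk κ) (gt p κ) ≤ C * (p.1 : ℝ) ^ (-e) * (((nk κ).divisors.card : ℝ) ^ b / (nk κ : ℝ) ^ 2) := by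
  obtain ⟨C1, e1, hC1, he1, he1', hchi⟩ := KB5_chi k hk
  have hk2 : (0 : ℝ) < (2 : ℝ) ^ k := by positivity
  obtain ⟨C2, hC2, htot⟩ := KA11_tot (e1 / (2 * 2 ^ k)) (by positivity)
  refine ⟨10 + k ^ 2, C1 * C2 ^ (2 ^ k), e1 / 2, by positivity, by positivity, by linarith, ?_⟩
  intro Q p hp κ hκ
  obtain ⟨hr1, -, hprim⟩ := Pool.Agent.Lib.H68T.mem_PC.1 hp
  obtain ⟨-, hn1, -, hn3, hsq, hpf⟩ := KB6_nk Q p.1 κ hκ
  have hr0 : (0 : ℝ) < (p.1 : ℝ) := by exact_mod_cast hr1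
  have hφ0 : (0 : ℝ) < (Nat.totient p.1 : ℝ) := by exact_mod_cast Nat.totient_pos.2 hr1
  -- the average
  have e1' : Av k (p.1 * nk κ) (gt p κ) = ((p.1 : ℝ) / (Nat.totient p.1 : ℝ)) ^ (2 ^ k) *
      (Av k p.1 (cp p) * ∏ l ∈ Pk κ, Av k l (lf l (univ.filter fun ω => l ∣ κ ω))) := by
    have h1 : gt p κ = fun y h => ((((p.1 : ℝ) / (Nat.totient p.1 : ℝ)) ^ (2 ^ k) : ℝ) : ℂ) *
        (cp p y h * ∏ l ∈ Pk κ, lf l (univ.filter fun ω => l ∣ κ ω) y h) := by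
      funext y h
      exact KB6_fac p κ (kb7_sq hκ) y h
    have h2 := (KB2_prod p.1 hr1 (Pk κ) (fun l hl => (hn3 l hl).1) (fun l hl => (hn3 l hl).2) (cp (k := k) p)
      (KB5_per p) (fun l => lf l (univ.filter fun ω => l ∣ κ ω)) (fun l _ => KB4A_per l _)).2
    rw [h1, KB1_smul, nk, h2, Complex.norm_real, Real.norm_of_nonneg (by positivity)]
  -- the totient
  have h3 : ((p.1 : ℝ) / (Nat.totient p.1 : ℝ)) ^ (2 ^ k) ≤ C2 ^ (2 ^ k) * (p.1 : ℝ) ^ (e1 / 2) := by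
    have h4 := pow_le_pow_left₀ (by positivity) (htot p.1 hr1) (2 ^ k)
    refine h4.trans (le_of_eq ?_)
    rw [mul_pow, ← Real.rpow_natCast ((p.1 : ℝ) ^ (e1 / (2 * 2 ^ k))), ← Real.rpow_mul hr0.le]
    congr 2
    push_cast
    field_simp
  -- the local factors
  have h5 : ∏ l ∈ Pk κ, Av k l (lf l (univ.filter fun ω => l ∣ κ ω)) ≤
      ((nk κ).divisors.card : ℝ) ^ (10 + k ^ 2) / (nk κ : ℝ) ^ 2 := by
    have h6 : ∏ l ∈ Pk κ, Av k l (lf l (univ.filter fun ω => l ∣ κ ω)) ≤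
        ∏ l ∈ Pk κ, ((10 + (k : ℝ) ^ 2) / (l : ℝ) ^ 2) := by
      refine Finset.prod_le_prod (fun _ _ => KB1_nn _ _ _) fun l hl => ?_
      refine KB4_loc k l (hn3 l hl).1 _ ?_
      obtain ⟨ω, -, hω⟩ := Finset.mem_biUnion.1 hl
      exact ⟨ω, Finset.mem_filter.2 ⟨Finset.mem_univ _, Nat.dvd_of_mem_primeFactors hω⟩⟩
    refine h6.trans ?_
    rw [Finset.prod_div_distrib, Finset.prod_const, Finset.prod_pow]
    have h7 : (∏ l ∈ Pk κ, (l : ℝ)) = (nk κ : ℝ) := by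
      rw [nk, Nat.cast_prod]
    rw [h7]
    refine div_le_div_of_nonneg_right ?_ (by positivity)
    have h8 : (nk κ).divisors.card = 2 ^ (Pk κ).card := by
      rw [Nat.card_divisors (by omega), hpf, ← Finset.prod_const]
      refine Finset.prod_congr rfl fun l hl => ?_
      have h9 : (nk κ).factorization l ≤ 1 := Squarefree.natFactorization_le_one l hsq
      have h10 : 1 ≤ (nk κ).factorization l := by
        rw [← hpf] at hl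
        have := Nat.support_factorization (nk κ)
        exact Nat.one_le_iff_ne_zero.2 (Finsupp.mem_support_iff.1 (by rw [this]; exact hl))
      omega
    rw [h8]
    push_cast
    rw [← pow_mul, mul_comm (Pk κ).card, pow_mul]
    refine pow_le_pow_left₀ (by positivity) ?_ _
    have h11 : (10 + k ^ 2 : ℕ) ≤ 2 ^ (10 + k ^ 2) := Nat.lt_two_pow_self.le
    exact_mod_cast h11
  have h12 := hchi p hr1 hprim
  have h13 : 0 ≤ Av k p.1 (cp (k := k) p) := KB1_nn _ _ _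
  have h14 : 0 ≤ ∏ l ∈ Pk κ, Av k l (lf l (univ.filter fun ω => l ∣ κ ω)) :=
    Finset.prod_nonneg fun _ _ => KB1_nn _ _ _
  rw [e1', ← mul_assoc]
  refine mul_le_mul ?_ h5 h14 (by positivity)
  refine (mul_le_mul h3 h12 h13 (by positivity)).trans (le_of_eq ?_)
  have h15 : (p.1 : ℝ) ^ (-(e1 / 2)) = (p.1 : ℝ) ^ (e1 / 2) * (p.1 : ℝ) ^ (-e1) := by
    rw [← Real.rpow_add hr0]
    congr 1
    ring
  rw [h15]
  ring

end Pool.Agent.HUK
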