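import Pool.Agent.Lib.HUK.KB7

/-!
# Project HUK, chunk KB8 (M): the sum over the tuples of moduli
-/

open Finset

namespace Pool.Agent.HUK

open Pool.Agent.Lib.H68T (PC)
open Pool.Agent.Lib.H18Q (gk KS)
open Pool.Agent.Lib.H59P (Ch gl)

theorem kb8_num (x y z e ρ D : ℝ) (hx : 1 ≤ x) (hy : 1 ≤ y) (hz : 1 ≤ z) (hzx : z ≤ x * y) (hρ : 0 ≤ ρ) (hρe : ρ ≤ e)
    (hρ2 : ρ ≤ 1 / 2) (hD : 0 ≤ D) : x ^ (-e) * (D / y ^ 2) ≤ z ^ (-ρ) * (D * y ^ (-(3 / 2 : ℝ))) := by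
  have hx0 : 0 < x := by linarith
  have hy0 : 0 < y := by linarith
  have hz0 : 0 < z := by linarith
  have h1 : z ^ ρ ≤ x ^ e * y ^ (1 / 2 : ℝ) := by
    calc z ^ ρ ≤ (x * y) ^ ρ := Real.rpow_le_rpow hz0.le hzx hρ
      _ = x ^ ρ * y ^ ρ := Real.mul_rpow hx0.le hy0.le
      _ ≤ x ^ e * y ^ (1 / 2 : ℝ) := mul_le_mul (Real.rpow_le_rpow_of_exponent_le hx hρe)
          (Real.rpow_le_rpow_of_exponent_le hy hρ2) (by positivity) (by positivity)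
  have hy3 : y ^ (-(3 / 2 : ℝ)) = y ^ (1 / 2 : ℝ) / y ^ 2 := by
    rw [show (-(3 / 2) : ℝ) = 1 / 2 - 2 by norm_num, Real.rpow_sub hy0, Real.rpow_two]
  rw [hy3, Real.rpow_neg hx0.le, Real.rpow_neg hz0.le]
  have hxe : 0 < x ^ e := by positivity
  have hzr : 0 < z ^ ρ := by positivity
  have h2 : (x ^ e)⁻¹ ≤ y ^ (1 / 2 : ℝ) * (z ^ ρ)⁻¹ := by
    rw [← div_eq_mul_inv, inv_eq_one_div, div_le_div_iff₀ hxe hzr]
    linarith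
  have h3 : 0 ≤ D / y ^ 2 := by positivity
  calc (x ^ e)⁻¹ * (D / y ^ 2) ≤ (y ^ (1 / 2 : ℝ) * (z ^ ρ)⁻¹) * (D / y ^ 2) := mul_le_mul_of_nonneg_right h2 h3
    _ = (z ^ ρ)⁻¹ * (D * (y ^ (1 / 2 : ℝ) / y ^ 2)) := by ring

theorem kb8_fib {k : ℕ} (Q r : ℕ) (T : Finset ((Fin k → Bool) → ℕ)) (hT : ∀ κ ∈ T, ∀ ω, κ ω ∈ KS Q r) (n : ℕ) :
    ((T.filter fun κ => nk κ = n).card : ℝ) ≤ (n.divisors.card : ℝ) ^ (2 ^ k) := by
  have hsub : (T.filter fun κ => nk κ = n) ⊆ Fintype.piFinset fun _ : Fin k → Bool => n.divisors := by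
    intro κ hκ
    rw [mem_filter] at hκ
    rw [Fintype.mem_piFinset]
    intro ω
    have h := KB6_nk Q r κ (hT κ hκ.1)
    rw [hκ.2] at h
    rw [Nat.mem_divisors]
    exact ⟨h.1 ω, by have := h.2.1; omega⟩
  have h1 := card_le_card hsub
  rw [Fintype.card_piFinset, prod_const, card_univ, Fintype.card_fun, Fintype.card_bool, Fintype.card_fin] at h1
  exact_mod_cast h1

/-- Proof. The map `κ ↦ nk κ` sends the set to `Icc 1 (Q^(2^k))` (`KB6_nk`, `κ ω ≤ Q`), and every fibre over `n` is contained in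
`Fintype.piFinset fun _ => n.divisors`, which has `d(n)^(2^k)` elements. So the sum is at most `∑_{n ∈ Icc 1 N} d(n)^(2^k + b) n^(-3/2)`
(`Finset.sum_fiberwise_of_maps_to`), `divisor_bound` (`H21AP/DivisorBound.lean`) with `ε = 1/(4 (2^k + b + 1))` gives `d(n)^(2^k + b) ≤ C n^(1/4)`, and
`∑_n n^(-5/4)` converges (`Real.summable_nat_rpow_inv` / `Real.summable_one_div_nat_rpow`, `Summable.sum_le_tsum`). -/
theorem KB8_series (k b : ℕ) : ∃ C : ℝ, 0 < C ∧ ∀ (Q r : ℕ) (T : Finset ((Fin k → Bool) → ℕ)),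
    (∀ κ ∈ T, ∀ ω, κ ω ∈ KS Q r) →
    ∑ κ ∈ T, ((nk κ).divisors.card : ℝ) ^ b * (nk κ : ℝ) ^ (-(3 / 2 : ℝ)) ≤ C := by
  set m := 2 ^ k + b with hm
  have hm1 : 1 ≤ m := by
    have := Nat.one_le_two_pow (n := k)
    omega
  have hm0 : (0 : ℝ) < m := by exact_mod_cast hm1
  obtain ⟨C0, hC0, hd⟩ := Pool.Agent.Lib.H21AP.divisor_bound (ε := 1 / (4 * m)) (by positivity)
  have hsum : Summable fun n : ℕ => C0 ^ m * (n : ℝ) ^ (-(5 / 4 : ℝ)) :=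
    (Real.summable_nat_rpow.2 (by norm_num)).mul_left _
  have hnn : ∀ n : ℕ, 0 ≤ C0 ^ m * (n : ℝ) ^ (-(5 / 4 : ℝ)) := fun n => by positivity
  refine ⟨(∑' n : ℕ, C0 ^ m * (n : ℝ) ^ (-(5 / 4 : ℝ))) + 1, ?_, ?_⟩
  · have h0 : 0 ≤ ∑' n : ℕ, C0 ^ m * (n : ℝ) ^ (-(5 / 4 : ℝ)) := tsum_nonneg hnn
    linarith
  intro Q r T hT
  have h1 : ∑ κ ∈ T, ((nk κ).divisors.card : ℝ) ^ b * (nk κ : ℝ) ^ (-(3 / 2 : ℝ)) =
      ∑ n ∈ T.image nk, ∑ κ ∈ T with nk κ = n, ((nk κ).divisors.card : ℝ) ^ b * (nk κ : ℝ) ^ (-(3 / 2 : ℝ)) := by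
    rw [sum_fiberwise_of_maps_to]
    intro κ hκ
    exact mem_image_of_mem _ hκ
  rw [h1]
  have h2 : ∀ n ∈ T.image nk, ∑ κ ∈ T with nk κ = n, ((nk κ).divisors.card : ℝ) ^ b * (nk κ : ℝ) ^ (-(3 / 2 : ℝ)) ≤
      C0 ^ m * (n : ℝ) ^ (-(5 / 4 : ℝ)) := by
    intro n hn
    rw [mem_image] at hn
    obtain ⟨κ0, hκ0, hn0⟩ := hn
    have hn1 : 1 ≤ n := by
      rw [← hn0]
      exact (KB6_nk Q r κ0 (hT κ0 hκ0)).2.1
    have hn1' : (1 : ℝ) ≤ n := by exact_mod_cast hn1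
    have hn0' : (0 : ℝ) < n := by linarith
    have h3 : ∑ κ ∈ T with nk κ = n, ((nk κ).divisors.card : ℝ) ^ b * (nk κ : ℝ) ^ (-(3 / 2 : ℝ)) =
        ((T.filter fun κ => nk κ = n).card : ℝ) * ((n.divisors.card : ℝ) ^ b * (n : ℝ) ^ (-(3 / 2 : ℝ))) := by
      rw [← nsmul_eq_mul, ← sum_const]
      refine sum_congr rfl fun κ hκ => ?_
      rw [mem_filter] at hκ
      rw [hκ.2]
    rw [h3]
    have h4 := kb8_fib Q r T hT n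
    have h5 : (n.divisors.card : ℝ) ^ m ≤ C0 ^ m * (n : ℝ) ^ (1 / 4 : ℝ) := by
      calc (n.divisors.card : ℝ) ^ m ≤ (C0 * (n : ℝ) ^ (1 / (4 * m) : ℝ)) ^ m :=
            pow_le_pow_left₀ (by positivity) (hd n hn1) m
        _ = C0 ^ m * (n : ℝ) ^ (1 / 4 : ℝ) := by
            rw [mul_pow, ← Real.rpow_mul_natCast hn0'.le]
            congr 2
            field_simp
    calc ((T.filter fun κ => nk κ = n).card : ℝ) * ((n.divisors.card : ℝ) ^ b * (n : ℝ) ^ (-(3 / 2 : ℝ))) ≤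
        (n.divisors.card : ℝ) ^ (2 ^ k) * ((n.divisors.card : ℝ) ^ b * (n : ℝ) ^ (-(3 / 2 : ℝ))) :=
          mul_le_mul_of_nonneg_right h4 (by positivity)
      _ = (n.divisors.card : ℝ) ^ m * (n : ℝ) ^ (-(3 / 2 : ℝ)) := by
          rw [hm, pow_add]
          ring
      _ ≤ C0 ^ m * (n : ℝ) ^ (1 / 4 : ℝ) * (n : ℝ) ^ (-(3 / 2 : ℝ)) := mul_le_mul_of_nonneg_right h5 (by positivity)
      _ = C0 ^ m * (n : ℝ) ^ (-(5 / 4 : ℝ)) := by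
          rw [mul_assoc, ← Real.rpow_add hn0']
          norm_num
  refine le_trans (sum_le_sum h2) ?_
  refine le_trans (hsum.sum_le_tsum (T.image nk) fun n _ => hnn n) ?_
  linarith

/-- Proof. `b`, `C1`, `e` from `KB7_av`, `ρ = min e (1/2)`. For `κ ∈ TK k Q Q' p`: with `ω0 = fun _ => false`: `Q' < r κ(ω0) ≤ r n`, `n = nk κ`
(`KB6_nk`), so `1 ≤ (r n / Q')^ρ` and `Av ≤ C1 r^(-e) d(n)^b n^(-2) (r n)^ρ Q'^(-ρ) ≤ C1 Q'^(-ρ) d(n)^b n^(-3/2)` (`r^(ρ-e) ≤ 1`, `n^(ρ-2) ≤ n^(-3/2)`). Sum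
with `KB8_series`. -/
theorem KB8_sum (k : ℕ) (hk : 1 ≤ k) : ∃ C ρ : ℝ, 0 < C ∧ 0 < ρ ∧ ρ ≤ 1 / 2 ∧ ∀ (Q Q' : ℕ), 1 ≤ Q' → ∀ p ∈ PC Q,
    ∑ κ ∈ TK k Q Q' p, Av k (p.1 * nk κ) (gt p κ) ≤ C * (Q' : ℝ) ^ (-ρ) := by
  obtain ⟨b, C1, e, hC1, he, _, hav⟩ := KB7_av k hk
  obtain ⟨C2, hC2, hser⟩ := KB8_series k b
  refine ⟨C1 * C2, min e (1 / 2), by positivity, lt_min he (by norm_num), min_le_right _ _, ?_⟩
  intro Q Q' hQ' p hp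
  have hT : ∀ κ ∈ TK k Q Q' p, ∀ ω, κ ω ∈ KS Q p.1 ∧ Q' < p.1 * κ ω := by
    intro κ hκ ω
    unfold TK at hκ
    rw [Fintype.mem_piFinset] at hκ
    exact mem_filter.1 (hκ ω)
  have hp1 : 1 ≤ p.1 := (Pool.Agent.Lib.H68T.mem_PC.1 hp).1
  have hx : (1 : ℝ) ≤ (p.1 : ℝ) := by exact_mod_cast hp1
  have hz : (1 : ℝ) ≤ (Q' : ℝ) := by exact_mod_cast hQ'
  have h1 : ∀ κ ∈ TK k Q Q' p, Av k (p.1 * nk κ) (gt p κ) ≤ C1 * (Q' : ℝ) ^ (-(min e (1 / 2))) *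
      (((nk κ).divisors.card : ℝ) ^ b * (nk κ : ℝ) ^ (-(3 / 2 : ℝ))) := by
    intro κ hκ
    have h2 := hav Q p hp κ fun ω => (hT κ hκ ω).1
    have h3 := KB6_nk Q p.1 κ fun ω => (hT κ hκ ω).1
    have hy : (1 : ℝ) ≤ (nk κ : ℝ) := by exact_mod_cast h3.2.1
    have hzx : (Q' : ℝ) ≤ (p.1 : ℝ) * (nk κ : ℝ) := by
      have h4 := (hT κ hκ fun _ => false).2
      have h5 : κ (fun _ => false) ≤ nk κ := Nat.le_of_dvd (by have := h3.2.1; omega) (h3.1 _)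
      have h6 : Q' ≤ p.1 * nk κ := le_trans h4.le (Nat.mul_le_mul_left _ h5)
      exact_mod_cast h6
    have h7 := kb8_num (p.1 : ℝ) (nk κ : ℝ) (Q' : ℝ) e (min e (1 / 2)) (((nk κ).divisors.card : ℝ) ^ b) hx hy hz hzx
      (le_min he.le (by norm_num)) (min_le_left _ _) (min_le_right _ _) (by positivity)
    calc Av k (p.1 * nk κ) (gt p κ) ≤ C1 * (p.1 : ℝ) ^ (-e) * (((nk κ).divisors.card : ℝ) ^ b / (nk κ : ℝ) ^ 2) := h2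
      _ = C1 * ((p.1 : ℝ) ^ (-e) * (((nk κ).divisors.card : ℝ) ^ b / (nk κ : ℝ) ^ 2)) := by ring
      _ ≤ C1 * ((Q' : ℝ) ^ (-(min e (1 / 2))) * (((nk κ).divisors.card : ℝ) ^ b * (nk κ : ℝ) ^ (-(3 / 2 : ℝ)))) :=
          mul_le_mul_of_nonneg_left h7 hC1.le
      _ = _ := by ring
  refine le_trans (sum_le_sum h1) ?_
  rw [← mul_sum]
  have h8 := hser Q p.1 (TK k Q Q' p) fun κ hκ ω => (hT κ hκ ω).1
  calc C1 * (Q' : ℝ) ^ (-(min e (1 / 2))) *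
      ∑ κ ∈ TK k Q Q' p, (((nk κ).divisors.card : ℝ) ^ b * (nk κ : ℝ) ^ (-(3 / 2 : ℝ))) ≤
      C1 * (Q' : ℝ) ^ (-(min e (1 / 2))) * C2 := mul_le_mul_of_nonneg_left h8 (by positivity)
    _ = C1 * C2 * (Q' : ℝ) ^ (-(min e (1 / 2))) := by ring

end Pool.Agent.HUK
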