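import Pool.Agent.Lib.HUK.KB3
import Pool.Agent.Lib.HUK.KB8

/-!
# Project HUK, chunk KB9 (M): small cubes for the components of large modulus
-/

open Finset

namespace Pool.Agent.HUK

open Pool.Agent.Lib.H68T (PC)
open Pool.Agent.Lib.H18Q (gk KS)
open Pool.Agent.Lib.H59P (Ch gl)
open Pool.Agent.Lib.H59T (Vl)

theorem kb9_cj_sum {ι : Type*} (n : ℕ) (T : Finset ι) (g : ι → ℂ) : cj n (∑ i ∈ T, g i) = ∑ i ∈ T, cj n (g i) := by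
  unfold cj
  split_ifs
  · rfl
  · exact map_sum _ _ _

theorem kb9_card (k Q Q' : ℕ) (p : Ch) : (TK k Q Q' p).card ≤ Q ^ 2 ^ k := by
  unfold TK
  rw [Fintype.card_piFinset, prod_const, card_univ, Fintype.card_fun, Fintype.card_bool, Fintype.card_fin]
  refine Nat.pow_le_pow_left ?_ _
  refine le_trans (card_filter_le _ _) ?_
  unfold KS
  refine le_trans (card_filter_le _ _) ?_
  rw [Nat.card_Icc, Nat.add_sub_cancel]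
  exact Nat.div_le_self _ _

/-- Proof. `DL_prod` (`P0.lean`), definition of `Vl`, `cj n` is additive, `Finset.prod_univ_sum`. -/
theorem KB9_expand (k Q Q' : ℕ) (p : Ch) (y : ℤ) (h : Fin k → ℤ) :
    DL (List.ofFn fun i => lam k i * h i) (Vl Q Q' p) y = ∑ κ ∈ TK k Q Q' p, gt p κ y h := by
  rw [DL_prod]
  have h1 : ∀ ω : Fin k → Bool, cj (sg ω) (Vl Q Q' p (y + vt ω (fun i => lam k i * h i))) =
      ∑ κ ∈ (KS Q p.1).filter (fun κ => Q' < p.1 * κ), cj (sg ω) (gk p κ (y + vl ω h)) := by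
    intro ω
    unfold Vl
    rw [kb9_cj_sum]
    rfl
  rw [prod_congr rfl fun ω _ => h1 ω, prod_univ_sum]
  rfl

/-- Proof. `C1`, `ρ` from `KB8_sum`. `KB9_expand`, triangle inequality, `KB3_long` for each `κ` with `M = p.1 * nk κ ≤ Q^(2^k+1) ≤ H`, `S = Q^(2^k)` (`KB7_per`), at most
`Q^(2^k)` tuples: total at most `4^k H^(k+1) C1 Q'^(-ρ) + Q^(2^k) (2 H)^k Q^(2^k+1) Q^(2^k)`, and
`Q^(3 * 2^k + 1) ≤ H / Q ≤ H Q'^(-ρ)` (`Q' ≤ Q`, `ρ ≤ 1`). `C = 4^k C1 + 2^k`. -/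
theorem KB9_cube (k : ℕ) (hk : 1 ≤ k) : ∃ C ρ : ℝ, 0 < C ∧ 0 < ρ ∧ ρ ≤ 1 / 2 ∧ ∀ (Q Q' H : ℕ), 1 ≤ Q' → Q' ≤ Q →
    Q ^ (3 * 2 ^ k + 2) ≤ H → ∀ p ∈ PC Q, ∀ n : ℤ,
    ∑ j ∈ bxS k H, ‖∑ l ∈ range H, DL (List.ofFn fun i => lam k i * j i) (Vl Q Q' p) (n + l)‖ ≤
      C * (H : ℝ) ^ (k + 1) * (Q' : ℝ) ^ (-ρ) := by
  obtain ⟨C1, ρ, hC1, hρ, hρ2, hsum⟩ := KB8_sum k hk
  refine ⟨4 ^ k * C1 + 2 ^ k, ρ, by positivity, hρ, hρ2, ?_⟩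
  intro Q Q' H hQ' hQQ hH p hp n
  have hQ1 : 1 ≤ Q := le_trans hQ' hQQ
  have hp1 : 1 ≤ p.1 := (Pool.Agent.Lib.H68T.mem_PC.1 hp).1
  have hT : ∀ κ ∈ TK k Q Q' p, ∀ ω, κ ω ∈ KS Q p.1 := by
    intro κ hκ ω
    unfold TK at hκ
    rw [Fintype.mem_piFinset] at hκ
    exact (mem_filter.1 (hκ ω)).1
  have h1 : ∑ j ∈ bxS k H, ‖∑ l ∈ range H, DL (List.ofFn fun i => lam k i * j i) (Vl Q Q' p) (n + l)‖ ≤
      ∑ κ ∈ TK k Q Q' p, ∑ j ∈ bxS k H, ‖∑ l ∈ range H, gt p κ (n + l) j‖ := by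
    rw [sum_comm]
    refine sum_le_sum fun j _ => ?_
    have h2 : ∑ l ∈ range H, DL (List.ofFn fun i => lam k i * j i) (Vl Q Q' p) (n + l) =
        ∑ κ ∈ TK k Q Q' p, ∑ l ∈ range H, gt p κ (n + l) j := by
      rw [sum_comm]
      exact sum_congr rfl fun l _ => KB9_expand k Q Q' p (n + l) j
    rw [h2]
    exact norm_sum_le _ _
  have hone : ∀ κ ∈ TK k Q Q' p, ∑ j ∈ bxS k H, ‖∑ l ∈ range H, gt p κ (n + l) j‖ ≤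
      4 ^ k * (H : ℝ) ^ (k + 1) * Av k (p.1 * nk κ) (gt p κ) + (2 * H) ^ k * ((Q : ℝ) ^ (2 ^ k + 1)) * (Q : ℝ) ^ (2 ^ k) := by
    intro κ hκ
    have h3 := KB7_per Q p hp κ (hT κ hκ)
    have h4 := KB6_nk Q p.1 κ (hT κ hκ)
    have h5 : 1 ≤ p.1 * nk κ := Nat.mul_pos hp1 h4.2.1
    have h6 : p.1 * nk κ ≤ H := by
      refine le_trans h3.2.2 (le_trans (Nat.pow_le_pow_right hQ1 ?_) hH)
      omega
    have h7 := KB3_long (p.1 * nk κ) H h5 h6 (gt p κ) h3.1 ((Q : ℝ) ^ (2 ^ k)) h3.2.1 n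
    have h8 : ((p.1 * nk κ : ℕ) : ℝ) ≤ (Q : ℝ) ^ (2 ^ k + 1) := by exact_mod_cast h3.2.2
    have h9 : (2 * (H : ℝ)) ^ k * ((p.1 * nk κ : ℕ) : ℝ) * (Q : ℝ) ^ (2 ^ k) ≤
        (2 * H) ^ k * ((Q : ℝ) ^ (2 ^ k + 1)) * (Q : ℝ) ^ (2 ^ k) :=
      mul_le_mul_of_nonneg_right (mul_le_mul_of_nonneg_left h8 (by positivity)) (by positivity)
    linarith
  have h10 : ∑ κ ∈ TK k Q Q' p, ∑ j ∈ bxS k H, ‖∑ l ∈ range H, gt p κ (n + l) j‖ ≤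
      4 ^ k * (H : ℝ) ^ (k + 1) * (C1 * (Q' : ℝ) ^ (-ρ)) +
        (Q : ℝ) ^ (2 ^ k) * ((2 * H) ^ k * ((Q : ℝ) ^ (2 ^ k + 1)) * (Q : ℝ) ^ (2 ^ k)) := by
    refine le_trans (sum_le_sum hone) ?_
    rw [sum_add_distrib, ← mul_sum, sum_const, nsmul_eq_mul]
    refine add_le_add ?_ ?_
    · exact mul_le_mul_of_nonneg_left (hsum Q Q' hQ' p hp) (by positivity)
    · refine mul_le_mul_of_nonneg_right ?_ (by positivity)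
      exact_mod_cast kb9_card k Q Q' p
  have hz : (1 : ℝ) ≤ (Q' : ℝ) := by exact_mod_cast hQ'
  have hz0 : (0 : ℝ) < (Q' : ℝ) := by linarith
  have hQR : (0 : ℝ) < (Q : ℝ) := by exact_mod_cast hQ1
  have h11 : (Q : ℝ) ^ (3 * 2 ^ k + 1) ≤ H * (Q' : ℝ) ^ (-ρ) := by
    have h12 : (Q' : ℝ) ^ ρ ≤ Q := by
      calc (Q' : ℝ) ^ ρ ≤ (Q' : ℝ) ^ (1 : ℝ) := Real.rpow_le_rpow_of_exponent_le hz (by linarith)
        _ = Q' := Real.rpow_one _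
        _ ≤ Q := by exact_mod_cast hQQ
    have h13 : (Q : ℝ) ^ (3 * 2 ^ k + 1) * (Q' : ℝ) ^ ρ ≤ H := by
      calc (Q : ℝ) ^ (3 * 2 ^ k + 1) * (Q' : ℝ) ^ ρ ≤ (Q : ℝ) ^ (3 * 2 ^ k + 1) * Q :=
            mul_le_mul_of_nonneg_left h12 (by positivity)
        _ = (Q : ℝ) ^ (3 * 2 ^ k + 2) := by rw [← pow_succ]
        _ ≤ H := by exact_mod_cast hH
    rw [Real.rpow_neg hz0.le, ← div_eq_mul_inv, le_div_iff₀ (by positivity)]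
    exact h13
  have h14 : (Q : ℝ) ^ (2 ^ k) * ((2 * H) ^ k * ((Q : ℝ) ^ (2 ^ k + 1)) * (Q : ℝ) ^ (2 ^ k)) =
      2 ^ k * (H : ℝ) ^ k * (Q : ℝ) ^ (3 * 2 ^ k + 1) := by
    rw [mul_pow]
    ring
  rw [h14] at h10
  have h15 : 2 ^ k * (H : ℝ) ^ k * (Q : ℝ) ^ (3 * 2 ^ k + 1) ≤ 2 ^ k * (H : ℝ) ^ k * (H * (Q' : ℝ) ^ (-ρ)) :=
    mul_le_mul_of_nonneg_left h11 (by positivity)
  calc ∑ j ∈ bxS k H, ‖∑ l ∈ range H, DL (List.ofFn fun i => lam k i * j i) (Vl Q Q' p) (n + l)‖ ≤ _ := h1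
    _ ≤ 4 ^ k * (H : ℝ) ^ (k + 1) * (C1 * (Q' : ℝ) ^ (-ρ)) + 2 ^ k * (H : ℝ) ^ k * (Q : ℝ) ^ (3 * 2 ^ k + 1) := h10
    _ ≤ 4 ^ k * (H : ℝ) ^ (k + 1) * (C1 * (Q' : ℝ) ^ (-ρ)) + 2 ^ k * (H : ℝ) ^ k * (H * (Q' : ℝ) ^ (-ρ)) := by linarith
    _ = (4 ^ k * C1 + 2 ^ k) * (H : ℝ) ^ (k + 1) * (Q' : ℝ) ^ (-ρ) := by ring

end Pool.Agent.HUK
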