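import Pool.Agent.Lib.HUK.KB0
import Pool.Agent.Lib.H59T.LKDefs

/-!
# Project HUK, module K, part 2: products of components over the vertices (definitions)

`gk p κ m = (r/φ(r)) conj χ(m) ∏_{l ∣ κ} gl l m` for squarefree `κ` (`H59P/M2A`), `p = (r, χ)`.
-/

open Finset

namespace Pool.Agent.HUK

open Pool.Agent.Lib.H68T (PC)
open Pool.Agent.Lib.H18Q (gk KS)
open Pool.Agent.Lib.H59P (Ch gl)
open Pool.Agent.Lib.H59T (Vl)

noncomputable section

/-- The product of the components `κ ω` at the vertices `y + vl ω h`. -/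
def gt {k : ℕ} (p : Ch) (κ : (Fin k → Bool) → ℕ) (y : ℤ) (h : Fin k → ℤ) : ℂ :=
  ∏ ω : Fin k → Bool, cj (sg ω) (gk p (κ ω) (y + vl ω h))

/-- The local factor at `l`: the vertices in `W`. -/
def lf {k : ℕ} (l : ℕ) (W : Finset (Fin k → Bool)) (y : ℤ) (h : Fin k → ℤ) : ℂ :=
  ∏ ω ∈ W, ((gl l (y + vl ω h) : ℝ) : ℂ)

/-- The character part: the differences of `conj χ`. -/
def cp {k : ℕ} (p : Ch) (y : ℤ) (h : Fin k → ℤ) : ℂ :=
  DL (List.ofFn fun i => lam k i * h i) (fun m : ℤ => (starRingEnd ℂ) (p.2 (m : ZMod p.1))) y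

/-- The primes dividing some `κ ω`. -/
def Pk {k : ℕ} (κ : (Fin k → Bool) → ℕ) : Finset ℕ := univ.biUnion fun ω => (κ ω).primeFactors

/-- Their product. -/
def nk {k : ℕ} (κ : (Fin k → Bool) → ℕ) : ℕ := ∏ l ∈ Pk κ, l

/-- The tuples of moduli between `Q'` and `Q`. -/
def TK (k Q Q' : ℕ) (p : Ch) : Finset ((Fin k → Bool) → ℕ) :=
  Fintype.piFinset fun _ => (KS Q p.1).filter fun κ => Q' < p.1 * κ

end

end Pool.Agent.HUK
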