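import Pool.Agent.Lib.HUK.LLD

/-!
# Project HUK, chunk LL1 (M): averages over progressions are almost invariant; one Cauchy-Schwarz step
-/

open Finset

namespace Pool.Agent.HUK

theorem ll1_shiftN (C : ℝ) (G : ℤ → ℂ) (hG : ∀ t, ‖G t‖ ≤ C) (M m : ℕ) :
    ‖∑ j ∈ range M, G ((j : ℤ) + m) - ∑ j ∈ range M, G (j : ℤ)‖ ≤ 2 * m * C := by
  induction m with
  | zero => simp
  | succ m ih =>
    have h1 : ∑ j ∈ range M, G ((j : ℤ) + ((m + 1 : ℕ) : ℤ)) - ∑ j ∈ range M, G ((j : ℤ) + m) =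
        G ((M : ℤ) + m) - G (m : ℤ) := by
      rw [← Finset.sum_sub_distrib]
      have h2 := Finset.sum_range_sub (fun j : ℕ => G ((j : ℤ) + m)) M
      have e0 : ((0 : ℕ) : ℤ) + m = m := by push_cast; ring
      rw [e0] at h2
      rw [← h2]
      refine Finset.sum_congr rfl fun j _ => ?_
      congr 2
      push_cast
      ring
    calc ‖∑ j ∈ range M, G ((j : ℤ) + ((m + 1 : ℕ) : ℤ)) - ∑ j ∈ range M, G (j : ℤ)‖ =
          ‖(G ((M : ℤ) + m) - G (m : ℤ)) + (∑ j ∈ range M, G ((j : ℤ) + m) - ∑ j ∈ range M, G (j : ℤ))‖ := by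
          rw [← h1]
          congr 1
          ring
      _ ≤ (C + C) + 2 * m * C :=
          (norm_add_le _ _).trans (add_le_add ((norm_sub_le _ _).trans (add_le_add (hG _) (hG _))) ih)
      _ = 2 * ((m + 1 : ℕ) : ℝ) * C := by
          push_cast
          ring

theorem ll1_shift (C : ℝ) (G : ℤ → ℂ) (hG : ∀ t, ‖G t‖ ≤ C) (M : ℕ) (n : ℤ) :
    ‖∑ j ∈ range M, G ((j : ℤ) + n) - ∑ j ∈ range M, G (j : ℤ)‖ ≤ 2 * |(n : ℝ)| * C := by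
  rcases le_total 0 n with h | h
  · obtain ⟨m, rfl⟩ := Int.eq_ofNat_of_zero_le h
    have h1 := ll1_shiftN C G hG M m
    simpa using h1
  · obtain ⟨m, hm⟩ := Int.eq_ofNat_of_zero_le (neg_nonneg.2 h)
    have hn : n = -(m : ℤ) := by omega
    subst hn
    have h1 := ll1_shiftN C (fun t => G (t + -(m : ℤ))) (fun t => hG _) M m
    rw [norm_sub_rev]
    have e1 : ∑ j ∈ range M, G ((j : ℤ) + m + -(m : ℤ)) = ∑ j ∈ range M, G (j : ℤ) :=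
      Finset.sum_congr rfl fun j _ => by rw [add_neg_cancel_right]
    have h2 : ‖∑ j ∈ range M, G ((j : ℤ) + m + -(m : ℤ)) - ∑ j ∈ range M, G ((j : ℤ) + -(m : ℤ))‖ ≤ 2 * m * C := h1
    rw [e1] at h2
    refine h2.trans (le_of_eq ?_)
    rw [Int.cast_neg, Int.cast_natCast, abs_neg, Nat.abs_cast]

/-- Fejer averages are almost invariant. By `mq1_fw`, `mq1_pairs`: `M ∑_t fw(t) F(t) = ∑_{j<M} ∑_{i<M} F(i - j)`; for `n ≥ 0` the inner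
sums for `F` and `F(· + n)` differ by at most `2 n C` (`mq2_shift`, applied to `F / C`, or repeat its proof); `n < 0`: put
`F' = F(· + n)`. (`C = 0`: both sides are `0`; or divide by `max C ..`.) -/
theorem LL1_fej (M : ℕ) (hM : 1 ≤ M) (C : ℝ) (F : ℤ → ℂ) (hF : ∀ t, ‖F t‖ ≤ C) (n : ℤ) :
    ‖(∑ t ∈ Ioo (-(M : ℤ)) M, ((fw M t : ℝ) : ℂ) * F (t + n)) / (M : ℂ) -
      (∑ t ∈ Ioo (-(M : ℤ)) M, ((fw M t : ℝ) : ℂ) * F t) / (M : ℂ)‖ ≤ C * (2 * |(n : ℝ)| / M) := by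
  have hM' : (0 : ℝ) < M := by exact_mod_cast hM
  have key : ∀ H : ℤ → ℂ, (M : ℂ) * ∑ t ∈ Ioo (-(M : ℤ)) M, ((fw M t : ℝ) : ℂ) * H t =
      ∑ j ∈ range M, ∑ i ∈ range M, H ((i : ℤ) - j) := by
    intro H
    rw [mq1_pairs M H, mul_sum]
    refine sum_congr rfl fun t ht => ?_
    rw [← mul_assoc, mq1_fw M hM ht]
  have h1 : (M : ℂ) * ((∑ t ∈ Ioo (-(M : ℤ)) M, ((fw M t : ℝ) : ℂ) * F (t + n)) -
      ∑ t ∈ Ioo (-(M : ℤ)) M, ((fw M t : ℝ) : ℂ) * F t) =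
      ∑ j ∈ range M, (∑ i ∈ range M, F (((i : ℤ) + n) - j) - ∑ i ∈ range M, F ((i : ℤ) - j)) := by
    rw [mul_sub, key (fun t => F (t + n)), key F, sum_sub_distrib]
    congr 1
    refine sum_congr rfl fun j _ => sum_congr rfl fun i _ => ?_
    show F ((i : ℤ) - j + n) = F (((i : ℤ) + n) - j)
    congr 1
    ring
  have h2 : (M : ℝ) * ‖(∑ t ∈ Ioo (-(M : ℤ)) M, ((fw M t : ℝ) : ℂ) * F (t + n)) -
      ∑ t ∈ Ioo (-(M : ℤ)) M, ((fw M t : ℝ) : ℂ) * F t‖ ≤ M * (2 * |(n : ℝ)| * C) := by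
    have h3 : (M : ℝ) * ‖(∑ t ∈ Ioo (-(M : ℤ)) M, ((fw M t : ℝ) : ℂ) * F (t + n)) -
      ∑ t ∈ Ioo (-(M : ℤ)) M, ((fw M t : ℝ) : ℂ) * F t‖ = ‖(M : ℂ) * ((∑ t ∈ Ioo (-(M : ℤ)) M, ((fw M t : ℝ) : ℂ) * F (t + n)) -
      ∑ t ∈ Ioo (-(M : ℤ)) M, ((fw M t : ℝ) : ℂ) * F t)‖ := by
      rw [norm_mul, Complex.norm_natCast]
    rw [h3, h1]
    refine (norm_sum_le _ _).trans ?_
    refine (sum_le_sum (g := fun _ => 2 * |(n : ℝ)| * C) fun j _ => ?_).trans ?_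
    · exact ll1_shift C (fun t => F (t - j)) (fun t => hF _) M n
    · rw [sum_const, card_range, nsmul_eq_mul]
  have h4 := le_of_mul_le_mul_left h2 hM'
  rw [← sub_div, norm_div, Complex.norm_natCast]
  calc _ ≤ (2 * |(n : ℝ)| * C) / M := div_le_div_of_nonneg_right h4 hM'.le
    _ = C * (2 * |(n : ℝ)| / M) := by ring

theorem ll1_avg (M : ℕ) (hM : 1 ≤ M) (C : ℝ) (G : ℤ → ℂ) (hG : ∀ t, ‖G t‖ ≤ C) :
    ‖(∑ t ∈ Ioo (-(M : ℤ)) M, ((fw M t : ℝ) : ℂ) * G t) / (M : ℂ)‖ ≤ C := by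
  have hM' : (0 : ℝ) < M := by exact_mod_cast hM
  rw [norm_div, Complex.norm_natCast, div_le_iff₀ hM']
  calc ‖∑ t ∈ Ioo (-(M : ℤ)) M, ((fw M t : ℝ) : ℂ) * G t‖ ≤ ∑ t ∈ Ioo (-(M : ℤ)) M, fw M t * C := by
        refine (norm_sum_le _ _).trans (sum_le_sum fun t _ => ?_)
        rw [norm_mul, Complex.norm_real, Real.norm_eq_abs, abs_of_nonneg (mq1_fw_nonneg M t)]
        exact mul_le_mul_of_nonneg_left (hG t) (mq1_fw_nonneg M t)
    _ = C * M := by rw [← sum_mul, mq1_fw_sum M hM, mul_comm]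

/-- Two variables (triangle inequality, `LL1_fej` for each variable, the other average has total weight `1`, `mq1_fw_sum`). -/
theorem LL1_fej2 (M : ℕ) (hM : 1 ≤ M) (C : ℝ) (F : ℤ → ℤ → ℂ) (hF : ∀ t t', ‖F t t'‖ ≤ C) (n n' : ℤ) :
    ‖(∑ t ∈ Ioo (-(M : ℤ)) M, ∑ t' ∈ Ioo (-(M : ℤ)) M, ((fw M t * fw M t' : ℝ) : ℂ) * F (t + n) (t' + n')) / (M : ℂ) ^ 2 -
      (∑ t ∈ Ioo (-(M : ℤ)) M, ∑ t' ∈ Ioo (-(M : ℤ)) M, ((fw M t * fw M t' : ℝ) : ℂ) * F t t') / (M : ℂ) ^ 2‖ ≤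
      C * (2 * (|(n : ℝ)| + |(n' : ℝ)|) / M) := by
  have hM' : (0 : ℝ) < M := by exact_mod_cast hM
  have hMc : (M : ℂ) ≠ 0 := by
    have : M ≠ 0 := by omega
    exact_mod_cast this
  have key : ∀ H : ℤ → ℤ → ℂ, (∑ t ∈ Ioo (-(M : ℤ)) M, ∑ t' ∈ Ioo (-(M : ℤ)) M, ((fw M t * fw M t' : ℝ) : ℂ) * H t t') / (M : ℂ) ^ 2 =
      (∑ t ∈ Ioo (-(M : ℤ)) M, ((fw M t : ℝ) : ℂ) * ((∑ t' ∈ Ioo (-(M : ℤ)) M, ((fw M t' : ℝ) : ℂ) * H t t') / (M : ℂ))) / (M : ℂ) := by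
    intro H
    rw [sum_div, sum_div]
    refine sum_congr rfl fun t _ => ?_
    rw [mul_div_assoc', div_div, ← sq, mul_sum]
    congr 1
    refine sum_congr rfl fun t' _ => ?_
    push_cast
    ring
  have key' : ∀ H : ℤ → ℤ → ℂ, (∑ t ∈ Ioo (-(M : ℤ)) M, ∑ t' ∈ Ioo (-(M : ℤ)) M, ((fw M t * fw M t' : ℝ) : ℂ) * H t t') / (M : ℂ) ^ 2 =
      (∑ t' ∈ Ioo (-(M : ℤ)) M, ((fw M t' : ℝ) : ℂ) * ((∑ t ∈ Ioo (-(M : ℤ)) M, ((fw M t : ℝ) : ℂ) * H t t') / (M : ℂ))) / (M : ℂ) := by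
    intro H
    rw [sum_comm, ← key (fun t' t => H t t')]
    congr 1
    refine sum_congr rfl fun t' _ => sum_congr rfl fun t _ => ?_
    rw [mul_comm (fw M t) (fw M t')]
  have h1 : ‖(∑ t ∈ Ioo (-(M : ℤ)) M, ∑ t' ∈ Ioo (-(M : ℤ)) M, ((fw M t * fw M t' : ℝ) : ℂ) * F (t + n) (t' + n')) / (M : ℂ) ^ 2 -
      (∑ t ∈ Ioo (-(M : ℤ)) M, ∑ t' ∈ Ioo (-(M : ℤ)) M, ((fw M t * fw M t' : ℝ) : ℂ) * F (t + n) t') / (M : ℂ) ^ 2‖ ≤
      C * (2 * |(n' : ℝ)| / M) := by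
    rw [key (fun t t' => F (t + n) (t' + n')), key (fun t t' => F (t + n) t'), ← sub_div, ← sum_sub_distrib]
    have e : ∀ t ∈ Ioo (-(M : ℤ)) M, ((fw M t : ℝ) : ℂ) * ((∑ t' ∈ Ioo (-(M : ℤ)) M, ((fw M t' : ℝ) : ℂ) * F (t + n) (t' + n')) / (M : ℂ)) -
        ((fw M t : ℝ) : ℂ) * ((∑ t' ∈ Ioo (-(M : ℤ)) M, ((fw M t' : ℝ) : ℂ) * F (t + n) t') / (M : ℂ)) =
        ((fw M t : ℝ) : ℂ) * ((∑ t' ∈ Ioo (-(M : ℤ)) M, ((fw M t' : ℝ) : ℂ) * F (t + n) (t' + n')) / (M : ℂ) -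
          (∑ t' ∈ Ioo (-(M : ℤ)) M, ((fw M t' : ℝ) : ℂ) * F (t + n) t') / (M : ℂ)) := fun t _ => by ring
    rw [sum_congr rfl e]
    exact ll1_avg M hM _ (fun t => (∑ t' ∈ Ioo (-(M : ℤ)) M, ((fw M t' : ℝ) : ℂ) * F (t + n) (t' + n')) / (M : ℂ) -
          (∑ t' ∈ Ioo (-(M : ℤ)) M, ((fw M t' : ℝ) : ℂ) * F (t + n) t') / (M : ℂ))
      (fun t => LL1_fej M hM C (F (t + n)) (fun t' => hF _ _) n')
  have h2 : ‖(∑ t ∈ Ioo (-(M : ℤ)) M, ∑ t' ∈ Ioo (-(M : ℤ)) M, ((fw M t * fw M t' : ℝ) : ℂ) * F (t + n) t') / (M : ℂ) ^ 2 -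
      (∑ t ∈ Ioo (-(M : ℤ)) M, ∑ t' ∈ Ioo (-(M : ℤ)) M, ((fw M t * fw M t' : ℝ) : ℂ) * F t t') / (M : ℂ) ^ 2‖ ≤
      C * (2 * |(n : ℝ)| / M) := by
    rw [key' (fun t t' => F (t + n) t'), key' F, ← sub_div, ← sum_sub_distrib]
    have e : ∀ t' ∈ Ioo (-(M : ℤ)) M, ((fw M t' : ℝ) : ℂ) * ((∑ t ∈ Ioo (-(M : ℤ)) M, ((fw M t : ℝ) : ℂ) * F (t + n) t') / (M : ℂ)) -
        ((fw M t' : ℝ) : ℂ) * ((∑ t ∈ Ioo (-(M : ℤ)) M, ((fw M t : ℝ) : ℂ) * F t t') / (M : ℂ)) =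
        ((fw M t' : ℝ) : ℂ) * ((∑ t ∈ Ioo (-(M : ℤ)) M, ((fw M t : ℝ) : ℂ) * F (t + n) t') / (M : ℂ) -
          (∑ t ∈ Ioo (-(M : ℤ)) M, ((fw M t : ℝ) : ℂ) * F t t') / (M : ℂ)) := fun t' _ => by ring
    rw [sum_congr rfl e]
    exact ll1_avg M hM _ (fun t' => (∑ t ∈ Ioo (-(M : ℤ)) M, ((fw M t : ℝ) : ℂ) * F (t + n) t') / (M : ℂ) -
          (∑ t ∈ Ioo (-(M : ℤ)) M, ((fw M t : ℝ) : ℂ) * F t t') / (M : ℂ))
      (fun t' => LL1_fej M hM C (fun t => F t t') (fun t => hF _ _) n)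
  refine (norm_sub_le_norm_sub_add_norm_sub _ _ _).trans ((add_le_add h1 h2).trans (le_of_eq ?_))
  ring

/-- **One step.** `a` supported in `[-X, X)`; `c(y) = B̃(y) B̃'(y)`, `B̃(y) = (∑_t fw(t) B(y + b q t)) / M` etc., bounded by `1`.
With `d = b b' q`, `k < H`: `c(y + d k)` is `c(y)` up to `e = 2 (b + b') H / M` (`LL1_fej` with `n = b' k` and `n = b k`). As
`a` is supported in `[-X, X)` and `d k ≤ X`: `S = ∑_{y ∈ [-2X, 2X)} a(y + d k) c(y + d k)`, so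
`‖S - ∑_{y ∈ [-2X, 2X)} (avg_{k<H} a(y + d k)) c(y)‖ ≤ 2X e`, and Cauchy-Schwarz: `‖∑ ..‖² ≤ 4X TQ X H d 0 a` (`TQ` has the range
`[-2X, 2X)`; `ee (0 * j) = 1`). -/
theorem LL1_step (X M H b b' q : ℕ) (hM : 1 ≤ M) (hH : 1 ≤ H) (hd : b * b' * q * H ≤ X) (a B B' : ℤ → ℂ) (ha : Bdd X a)
    (hB : ∀ y, ‖B y‖ ≤ 1) (hB' : ∀ y, ‖B' y‖ ≤ 1) :
    ‖∑ y ∈ Ico (-(X : ℤ)) X, a y * ((∑ t ∈ Ioo (-(M : ℤ)) M, ((fw M t : ℝ) : ℂ) * B (y + b * q * t)) / (M : ℂ)) *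
      ((∑ t ∈ Ioo (-(M : ℤ)) M, ((fw M t : ℝ) : ℂ) * B' (y + b' * q * t)) / (M : ℂ))‖ ^ 2 ≤
      8 * X * TQ X H (b * b' * q) 0 a + 8 * (X : ℝ) ^ 2 * (2 * (b + b') * H / M) ^ 2 := by
  have hM' : (0 : ℝ) < M := by exact_mod_cast hM
  have hH' : (0 : ℝ) < H := by exact_mod_cast hH
  have hHc : (H : ℂ) ≠ 0 := by
    have : H ≠ 0 := by omega
    exact_mod_cast this
  set Bt : ℤ → ℂ := fun y => (∑ t ∈ Ioo (-(M : ℤ)) M, ((fw M t : ℝ) : ℂ) * B (y + b * q * t)) / (M : ℂ) with hBt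
  set Bt' : ℤ → ℂ := fun y => (∑ t ∈ Ioo (-(M : ℤ)) M, ((fw M t : ℝ) : ℂ) * B' (y + b' * q * t)) / (M : ℂ) with hBt'
  set c : ℤ → ℂ := fun y => Bt y * Bt' y with hc
  set d : ℤ := (b : ℤ) * b' * q with hdd
  set e : ℝ := 2 * (b + b') * H / M with he
  have hS : ∑ y ∈ Ico (-(X : ℤ)) X, a y * ((∑ t ∈ Ioo (-(M : ℤ)) M, ((fw M t : ℝ) : ℂ) * B (y + b * q * t)) / (M : ℂ)) *
      ((∑ t ∈ Ioo (-(M : ℤ)) M, ((fw M t : ℝ) : ℂ) * B' (y + b' * q * t)) / (M : ℂ)) =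
      ∑ y ∈ Ico (-(X : ℤ)) X, a y * c y := sum_congr rfl fun y _ => by
    show a y * Bt y * Bt' y = a y * (Bt y * Bt' y)
    ring
  have hBt1 : ∀ y, ‖Bt y‖ ≤ 1 := fun y => ll1_avg M hM 1 (fun t => B (y + b * q * t)) (fun t => hB _)
  have hBt1' : ∀ y, ‖Bt' y‖ ≤ 1 := fun y => ll1_avg M hM 1 (fun t => B' (y + b' * q * t)) (fun t => hB' _)
  have hc1 : ∀ y, ‖c y‖ ≤ 1 := fun y => by
    show ‖Bt y * Bt' y‖ ≤ 1
    rw [norm_mul]
    exact mul_le_one₀ (hBt1 y) (norm_nonneg _) (hBt1' y)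
  have hsh : ∀ (k : ℕ), k < H → ∀ y, ‖c (y + d * k) - c y‖ ≤ e := by
    intro k hk y
    have hk' : (k : ℝ) ≤ H := by exact_mod_cast hk.le
    have h1 : ‖Bt (y + d * k) - Bt y‖ ≤ 2 * b' * H / M := by
      have h2 := LL1_fej M hM 1 (fun t => B (y + b * q * t)) (fun t => hB _) (b' * k : ℤ)
      have h3 : (∑ t ∈ Ioo (-(M : ℤ)) M, ((fw M t : ℝ) : ℂ) * B (y + b * q * (t + (b' * k : ℤ)))) / (M : ℂ) = Bt (y + d * k) := by
        show _ = (∑ t ∈ Ioo (-(M : ℤ)) M, ((fw M t : ℝ) : ℂ) * B (y + d * k + b * q * t)) / (M : ℂ)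
        congr 1
        refine sum_congr rfl fun t _ => ?_
        rw [hdd]
        congr 2
        ring
      have h4 : ‖Bt (y + d * k) - Bt y‖ ≤ 1 * (2 * |((b' * k : ℤ) : ℝ)| / M) := by
        rw [← h3]; exact h2
      refine h4.trans ?_
      rw [one_mul]
      refine div_le_div_of_nonneg_right ?_ hM'.le
      have h5 : |((b' * k : ℤ) : ℝ)| = (b' : ℝ) * k := by
        push_cast
        exact abs_of_nonneg (by positivity)
      rw [h5]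
      have h6 : (b' : ℝ) * k ≤ b' * H := mul_le_mul_of_nonneg_left hk' (by positivity)
      linarith
    have h1' : ‖Bt' (y + d * k) - Bt' y‖ ≤ 2 * b * H / M := by
      have h2 := LL1_fej M hM 1 (fun t => B' (y + b' * q * t)) (fun t => hB' _) (b * k : ℤ)
      have h3 : (∑ t ∈ Ioo (-(M : ℤ)) M, ((fw M t : ℝ) : ℂ) * B' (y + b' * q * (t + (b * k : ℤ)))) / (M : ℂ) = Bt' (y + d * k) := by
        show _ = (∑ t ∈ Ioo (-(M : ℤ)) M, ((fw M t : ℝ) : ℂ) * B' (y + d * k + b' * q * t)) / (M : ℂ)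
        congr 1
        refine sum_congr rfl fun t _ => ?_
        rw [hdd]
        congr 2
        ring
      have h4 : ‖Bt' (y + d * k) - Bt' y‖ ≤ 1 * (2 * |((b * k : ℤ) : ℝ)| / M) := by
        rw [← h3]; exact h2
      refine h4.trans ?_
      rw [one_mul]
      refine div_le_div_of_nonneg_right ?_ hM'.le
      have h5 : |((b * k : ℤ) : ℝ)| = (b : ℝ) * k := by
        push_cast
        exact abs_of_nonneg (by positivity)
      rw [h5]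
      have h6 : (b : ℝ) * k ≤ b * H := mul_le_mul_of_nonneg_left hk' (by positivity)
      linarith
    have h7 : c (y + d * k) - c y = (Bt (y + d * k) - Bt y) * Bt' (y + d * k) + Bt y * (Bt' (y + d * k) - Bt' y) := by
      show Bt (y + d * k) * Bt' (y + d * k) - Bt y * Bt' y = _
      ring
    rw [h7]
    refine (norm_add_le _ _).trans ?_
    rw [norm_mul, norm_mul]
    calc ‖Bt (y + d * k) - Bt y‖ * ‖Bt' (y + d * k)‖ + ‖Bt y‖ * ‖Bt' (y + d * k) - Bt' y‖ ≤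
          (2 * b' * H / M) * 1 + 1 * (2 * b * H / M) :=
          add_le_add (mul_le_mul h1 (hBt1' _) (norm_nonneg _) (by positivity))
            (mul_le_mul (hBt1 _) h1' (norm_nonneg _) zero_le_one)
      _ = e := by rw [he]; ring
  have hdH : d * H ≤ X := by
    rw [hdd]; exact_mod_cast hd
  have hd0 : 0 ≤ d := by rw [hdd]; positivity
  have hdk : ∀ k : ℕ, k < H → d * k ≤ X := fun k hk =>
    (mul_le_mul_of_nonneg_left (by exact_mod_cast hk.le : (k : ℤ) ≤ H) hd0).trans hdH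
  have hdk0 : ∀ k : ℕ, 0 ≤ d * k := fun k => by positivity
  -- shift of the window
  have hwin : ∀ (k : ℕ), k < H → ∀ G : ℤ → ℂ, (∀ y, y ∉ Ico (-(X : ℤ)) X → G y = 0) →
      ∑ z ∈ Ico (-(2 * X : ℤ)) (2 * X), G (z + d * k) = ∑ y ∈ Ico (-(X : ℤ)) X, G y := by
    intro k hk G hG
    rw [Finset.sum_Ico_add' G (-(2 * X : ℤ)) (2 * X) (d * k)]
    symm
    refine sum_subset ?_ ?_
    · intro y hy
      rw [mem_Ico] at hy ⊢
      have h1 := hdk k hk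
      have h2 := hdk0 k
      constructor <;> omega
    · intro y _ hy
      exact hG y hy
  have hwinR : ∀ (k : ℕ), k < H → ∀ G : ℤ → ℝ, (∀ y, y ∉ Ico (-(X : ℤ)) X → G y = 0) →
      ∑ z ∈ Ico (-(2 * X : ℤ)) (2 * X), G (z + d * k) = ∑ y ∈ Ico (-(X : ℤ)) X, G y := by
    intro k hk G hG
    rw [Finset.sum_Ico_add' G (-(2 * X : ℤ)) (2 * X) (d * k)]
    symm
    refine sum_subset ?_ ?_
    · intro y hy
      rw [mem_Ico] at hy ⊢
      have h1 := hdk k hk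
      have h2 := hdk0 k
      constructor <;> omega
    · intro y _ hy
      exact hG y hy
  set S : ℂ := ∑ y ∈ Ico (-(X : ℤ)) X, a y * c y with hSdef
  set A : ℤ → ℂ := fun z => (∑ j ∈ range H, a (z + d * j) * Pool.Agent.H44W.ee (0 * j)) / H with hA
  set T : ℂ := ∑ z ∈ Ico (-(2 * X : ℤ)) (2 * X), A z * c z with hT
  have hTeq : (H : ℂ) * T = ∑ k ∈ range H, ∑ z ∈ Ico (-(2 * X : ℤ)) (2 * X), a (z + d * k) * c z := by
    rw [hT, sum_comm, mul_sum]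
    refine sum_congr rfl fun z _ => ?_
    show (H : ℂ) * ((∑ j ∈ range H, a (z + d * j) * Pool.Agent.H44W.ee (0 * j)) / H * c z) = _
    rw [← mul_assoc, mul_div_cancel₀ _ hHc, sum_mul]
    refine sum_congr rfl fun k _ => ?_
    rw [zero_mul, Pool.Agent.H44W.ee_zero, mul_one]
  have hdiff : ‖S - T‖ ≤ 2 * X * e := by
    have h1 : (H : ℂ) * (S - T) = ∑ k ∈ range H, ∑ z ∈ Ico (-(2 * X : ℤ)) (2 * X), a (z + d * k) * (c (z + d * k) - c z) := by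
      have h2 : (H : ℂ) * S = ∑ k ∈ range H, ∑ z ∈ Ico (-(2 * X : ℤ)) (2 * X), a (z + d * k) * c (z + d * k) := by
        have h3 : ∀ k ∈ range H, ∑ z ∈ Ico (-(2 * X : ℤ)) (2 * X), a (z + d * k) * c (z + d * k) = S := fun k hk =>
          hwin k (mem_range.1 hk) (fun y => a y * c y) (fun y hy => by
            show a y * c y = 0
            rw [ha.sup y hy, zero_mul])
        rw [sum_congr rfl h3, sum_const, card_range, nsmul_eq_mul]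
      rw [mul_sub, h2, hTeq, ← sum_sub_distrib]
      refine sum_congr rfl fun k _ => ?_
      rw [← sum_sub_distrib]
      refine sum_congr rfl fun z _ => ?_
      ring
    have h2 : (H : ℝ) * ‖S - T‖ ≤ H * (2 * X * e) := by
      have h3 : (H : ℝ) * ‖S - T‖ = ‖(H : ℂ) * (S - T)‖ := by rw [norm_mul, Complex.norm_natCast]
      rw [h3, h1]
      refine (norm_sum_le _ _).trans ((sum_le_sum (g := fun _ => 2 * X * e) fun k hk => ?_).trans ?_)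
      · have hk' := mem_range.1 hk
        have he0 : 0 ≤ e := by rw [he]; positivity
        calc ‖∑ z ∈ Ico (-(2 * X : ℤ)) (2 * X), a (z + d * k) * (c (z + d * k) - c z)‖ ≤
              ∑ z ∈ Ico (-(2 * X : ℤ)) (2 * X), ‖a (z + d * k)‖ * e := by
              refine (norm_sum_le _ _).trans (sum_le_sum fun z _ => ?_)
              rw [norm_mul]
              exact mul_le_mul_of_nonneg_left (hsh k hk' z) (norm_nonneg _)
          _ = (∑ y ∈ Ico (-(X : ℤ)) X, ‖a y‖) * e := by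
              rw [← sum_mul]
              congr 1
              exact hwinR k hk' (fun y => ‖a y‖) (fun y hy => by
                show ‖a y‖ = 0
                rw [ha.sup y hy, norm_zero])
          _ ≤ 2 * X * e := by
              refine mul_le_mul_of_nonneg_right ?_ he0
              refine (sum_le_sum (g := fun _ => (1 : ℝ)) fun y _ => ha.le y).trans (le_of_eq ?_)
              rw [sum_const, Int.card_Ico, nsmul_eq_mul, mul_one]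
              have h4 : ((X : ℤ) - -(X : ℤ)).toNat = 2 * X := by omega
              rw [h4]
              push_cast
              ring
      · rw [sum_const, card_range, nsmul_eq_mul]
    exact le_of_mul_le_mul_left h2 hH'
  have hCS : ‖T‖ ^ 2 ≤ 4 * X * TQ X H d 0 a := by
    have h1 : ‖T‖ ≤ ∑ z ∈ Ico (-(2 * X : ℤ)) (2 * X), ‖A z‖ * 1 := by
      refine (norm_sum_le _ _).trans (sum_le_sum fun z _ => ?_)
      rw [norm_mul]
      exact mul_le_mul_of_nonneg_left (hc1 z) (norm_nonneg _)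
    have h2 := sum_mul_sq_le_sq_mul_sq (Ico (-(2 * X : ℤ)) (2 * X)) (fun z => ‖A z‖) (fun _ => (1 : ℝ))
    have h3 : ∑ _z ∈ Ico (-(2 * X : ℤ)) (2 * X), (1 : ℝ) ^ 2 = 4 * X := by
      rw [one_pow, sum_const, Int.card_Ico, nsmul_eq_mul, mul_one]
      have h4 : ((2 * X : ℤ) - -(2 * X : ℤ)).toNat = 4 * X := by omega
      rw [h4]
      push_cast
      ring
    rw [h3] at h2
    have h5 : TQ X H d 0 a = ∑ z ∈ Ico (-(2 * X : ℤ)) (2 * X), ‖A z‖ ^ 2 := rfl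
    rw [h5]
    calc ‖T‖ ^ 2 ≤ (∑ z ∈ Ico (-(2 * X : ℤ)) (2 * X), ‖A z‖ * 1) ^ 2 := pow_le_pow_left₀ (norm_nonneg _) h1 2
      _ ≤ _ := h2
      _ = _ := by ring
  rw [hS]
  have h1 : ‖S‖ ≤ ‖T‖ + 2 * X * e := by
    have h2 : S = T + (S - T) := by ring
    calc ‖S‖ = ‖T + (S - T)‖ := by rw [← h2]
      _ ≤ ‖T‖ + ‖S - T‖ := norm_add_le _ _
      _ ≤ ‖T‖ + 2 * X * e := add_le_add le_rfl hdiff
  have h2 : ‖S‖ ^ 2 ≤ (‖T‖ + 2 * X * e) ^ 2 := pow_le_pow_left₀ (norm_nonneg _) h1 2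
  nlinarith [sq_nonneg (‖T‖ - 2 * X * e)]

end Pool.Agent.HUK
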