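import Pool.Agent.Lib.HUK.LL1

/-!
# Project HUK, chunk LL2 (M): splitting off one coordinate
-/

open Finset

namespace Pool.Agent.HUK

/-- Products over the cube split: `Fin.consEquiv` as in the proof of `DL_prod` (`P0.lean`), `p0_vt_cons`. -/
theorem LL2_cons (s : ℕ) (β : ℤ) (U : (Fin (s + 1) → Bool) → ℤ → ℂ) (t0 : ℤ) (t : Fin s → ℤ) (y : ℤ) :
    PV β U (Fin.cons t0 t : Fin (s + 1) → ℤ) y = PV β (fun ω => U (Fin.cons false ω : Fin (s + 1) → Bool)) t y *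
      PV β (fun ω => U (Fin.cons true ω : Fin (s + 1) → Bool)) t (y + β * t0) := by
  unfold PV
  rw [← (Fin.consEquiv fun _ : Fin (s + 1) => Bool).prod_comp, Fintype.prod_prod_type, Fintype.prod_bool, mul_comm]
  have e1 : ∀ ω : Fin s → Bool, vt (Fin.cons false ω : Fin (s + 1) → Bool) (Fin.cons t0 t : Fin (s + 1) → ℤ) = vt ω t := by
    intro ω
    rw [p0_vt_cons]
    simp
  have e2 : ∀ ω : Fin s → Bool, vt (Fin.cons true ω : Fin (s + 1) → Bool) (Fin.cons t0 t : Fin (s + 1) → ℤ) = t0 + vt ω t := by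
    intro ω
    rw [p0_vt_cons]
    simp
  refine congrArg₂ (· * ·) ?_ ?_
  · refine Finset.prod_congr rfl fun ω _ => ?_
    change U (Fin.cons false ω : Fin (s + 1) → Bool)
      (y + β * vt (Fin.cons false ω : Fin (s + 1) → Bool) (Fin.cons t0 t : Fin (s + 1) → ℤ)) = _
    rw [e1]
  · refine Finset.prod_congr rfl fun ω _ => ?_
    change U (Fin.cons true ω : Fin (s + 1) → Bool)
      (y + β * vt (Fin.cons true ω : Fin (s + 1) → Bool) (Fin.cons t0 t : Fin (s + 1) → ℤ)) = _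
    rw [e2]
    congr 1
    ring

/-- `DD` is multiplicative (`p0_DD_mul` for finite products). -/
theorem LL2_DD (s : ℕ) (β h : ℤ) (U : (Fin s → Bool) → ℤ → ℂ) (t : Fin s → ℤ) :
    DD h (PV β U t) = PV β (fun ω => DD h (U ω)) t := by
  funext y
  simp only [DD, PV]
  rw [map_prod, ← Finset.prod_mul_distrib]
  refine Finset.prod_congr rfl fun ω _ => ?_
  rw [add_right_comm y h]

theorem LL2_le (s : ℕ) (β : ℤ) (U : (Fin s → Bool) → ℤ → ℂ) (hU : ∀ ω y, ‖U ω y‖ ≤ 1) (t : Fin s → ℤ) (y : ℤ) :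
    ‖PV β U t y‖ ≤ 1 := by
  unfold PV
  rw [norm_prod]
  exact Finset.prod_le_one (fun ω _ => norm_nonneg _) (fun ω _ => hU ω _)

/-- The vertex `0` (`vt (zv s) t = 0`) is a factor. -/
theorem LL2_supp (X s : ℕ) (β β' : ℤ) (U U' : (Fin s → Bool) → ℤ → ℂ)
    (h0 : ∀ y, y ∉ Ico (-(X : ℤ)) X → U (zv s) y * U' (zv s) y = 0) (t t' : Fin s → ℤ) (y : ℤ)
    (hy : y ∉ Ico (-(X : ℤ)) X) : PV β U t y * PV β' U' t' y = 0 := by
  have e : ∀ r : Fin s → ℤ, vt (zv s) r = 0 := by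
    intro r
    unfold vt zv
    simp
  rcases mul_eq_zero.1 (h0 y hy) with h | h
  · have h1 : PV β U t y = 0 := by
      unfold PV
      refine Finset.prod_eq_zero (Finset.mem_univ (zv s)) ?_
      rw [e, mul_zero, add_zero]
      exact h
    rw [h1, zero_mul]
  · have h1 : PV β' U' t' y = 0 := by
      unfold PV
      refine Finset.prod_eq_zero (Finset.mem_univ (zv s)) ?_
      rw [e, mul_zero, add_zero]
      exact h
    rw [h1, mul_zero]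

/-- Total weight of the box: `∑_{t ∈ bxS s M} FW M t = M^s` (induction, `D0_bx` or `bxS_sum`-style splitting, `mq1_fw_sum`). -/
theorem LL2_FW (s M : ℕ) (hM : 1 ≤ M) : ∑ t ∈ bxS s M, FW M t = (M : ℝ) ^ s := by
  unfold bxS FW
  rw [← Finset.prod_univ_sum]
  rw [Finset.prod_congr rfl fun (i : Fin s) _ => mq1_fw_sum M hM]
  simp

theorem ll2_FW_cons (s M : ℕ) (t0 : ℤ) (t : Fin s → ℤ) :
    FW M (Fin.cons t0 t : Fin (s + 1) → ℤ) = fw M t0 * FW M t := by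
  unfold FW
  rw [Fin.prod_univ_succ, Fin.cons_zero]
  rfl

theorem ll2_FW_nonneg {s : ℕ} (M : ℕ) (t : Fin s → ℤ) : 0 ≤ FW M t :=
  Finset.prod_nonneg fun i _ => le_max_left _ _

theorem ll2_bx {A : Type*} [AddCommMonoid A] (s N : ℕ) (F : (Fin (s + 1) → ℤ) → A) :
    ∑ t ∈ bxS (s + 1) N, F t = ∑ t ∈ bxS s N, ∑ t0 ∈ Ioo (-(N : ℤ)) N, F (Fin.cons t0 t : Fin (s + 1) → ℤ) := by
  rw [Finset.sum_comm, ← Finset.sum_product']
  symm
  refine Finset.sum_bij' (fun p _ => (Fin.cons p.1 p.2 : Fin (s + 1) → ℤ)) (fun h _ => (h 0, fun i => h i.succ))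
    ?_ ?_ ?_ ?_ ?_
  · rintro ⟨a, h⟩ hm
    rw [Finset.mem_product] at hm
    unfold bxS at hm ⊢
    rw [Fintype.mem_piFinset] at hm ⊢
    intro i
    refine Fin.cases ?_ ?_ i
    · rw [Fin.cons_zero]
      exact hm.1
    · intro j
      rw [Fin.cons_succ]
      exact hm.2 j
  · intro h hm
    unfold bxS at hm ⊢
    rw [Finset.mem_product, Fintype.mem_piFinset]
    rw [Fintype.mem_piFinset] at hm
    exact ⟨hm 0, fun i => hm i.succ⟩
  · rintro ⟨a, h⟩ _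
    simp
  · intro h _
    exact Fin.cons_self_tail h
  · intro p _
    rfl

/-- Splitting `TT` (`bxS (s+1) M` = pairs `(t0, t)`, `FW M (cons t0 t) = fw M t0 * FW M t`, `LL2_cons`; exchange the sums). -/
theorem LL2_split (X M s : ℕ) (β β' : ℤ) (U U' : (Fin (s + 1) → Bool) → ℤ → ℂ) :
    TT X M β β' U U' = (∑ t ∈ bxS s M, ∑ t' ∈ bxS s M, ((FW M t * FW M t' : ℝ) : ℂ) * ∑ y ∈ Ico (-(X : ℤ)) X,
      (PV β (fun ω => U (Fin.cons false ω : Fin (s + 1) → Bool)) t y *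
        PV β' (fun ω => U' (Fin.cons false ω : Fin (s + 1) → Bool)) t' y) *
      ((∑ t0 ∈ Ioo (-(M : ℤ)) M, ((fw M t0 : ℝ) : ℂ) *
        PV β (fun ω => U (Fin.cons true ω : Fin (s + 1) → Bool)) t (y + β * t0)) / (M : ℂ)) *
      ((∑ t0 ∈ Ioo (-(M : ℤ)) M, ((fw M t0 : ℝ) : ℂ) *
        PV β' (fun ω => U' (Fin.cons true ω : Fin (s + 1) → Bool)) t' (y + β' * t0)) / (M : ℂ))) / (M : ℂ) ^ (2 * s) := by
  have e1 : ∀ a A B : ℂ, a * (A / (M : ℂ)) * (B / (M : ℂ)) = (a * A * B) / (M : ℂ) ^ 2 := by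
    intro a A B
    ring
  have e2 : (M : ℂ) ^ (2 * (s + 1)) = (M : ℂ) ^ 2 * (M : ℂ) ^ (2 * s) := by ring
  have e5 : (∑ t ∈ bxS s M, ∑ t' ∈ bxS s M, ((FW M t * FW M t' : ℝ) : ℂ) * ∑ y ∈ Ico (-(X : ℤ)) X,
      (PV β (fun ω => U (Fin.cons false ω : Fin (s + 1) → Bool)) t y *
        PV β' (fun ω => U' (Fin.cons false ω : Fin (s + 1) → Bool)) t' y) *
      ((∑ t0 ∈ Ioo (-(M : ℤ)) M, ((fw M t0 : ℝ) : ℂ) *
        PV β (fun ω => U (Fin.cons true ω : Fin (s + 1) → Bool)) t (y + β * t0)) / (M : ℂ)) *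
      ((∑ t0 ∈ Ioo (-(M : ℤ)) M, ((fw M t0 : ℝ) : ℂ) *
        PV β' (fun ω => U' (Fin.cons true ω : Fin (s + 1) → Bool)) t' (y + β' * t0)) / (M : ℂ))) =
      (∑ t ∈ bxS s M, ∑ t' ∈ bxS s M, ((FW M t * FW M t' : ℝ) : ℂ) * ∑ y ∈ Ico (-(X : ℤ)) X,
      (PV β (fun ω => U (Fin.cons false ω : Fin (s + 1) → Bool)) t y *
        PV β' (fun ω => U' (Fin.cons false ω : Fin (s + 1) → Bool)) t' y) *
      (∑ t0 ∈ Ioo (-(M : ℤ)) M, ((fw M t0 : ℝ) : ℂ) *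
        PV β (fun ω => U (Fin.cons true ω : Fin (s + 1) → Bool)) t (y + β * t0)) *
      (∑ t0 ∈ Ioo (-(M : ℤ)) M, ((fw M t0 : ℝ) : ℂ) *
        PV β' (fun ω => U' (Fin.cons true ω : Fin (s + 1) → Bool)) t' (y + β' * t0))) / (M : ℂ) ^ 2 := by
    rw [Finset.sum_div]
    refine Finset.sum_congr rfl fun t _ => ?_
    rw [Finset.sum_div]
    refine Finset.sum_congr rfl fun t' _ => ?_
    rw [mul_div_assoc, Finset.sum_div]
    refine congrArg (((FW M t * FW M t' : ℝ) : ℂ) * ·) ?_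
    exact Finset.sum_congr rfl fun y _ => e1 _ _ _
  rw [e5, div_div, ← e2]
  unfold TT
  congr 1
  rw [ll2_bx]
  refine Finset.sum_congr rfl fun t _ => ?_
  have e3 : ∀ t0 : ℤ, ∑ t' ∈ bxS (s + 1) M, ((FW M (Fin.cons t0 t : Fin (s + 1) → ℤ) * FW M t' : ℝ) : ℂ) *
      ∑ y ∈ Ico (-(X : ℤ)) X, PV β U (Fin.cons t0 t : Fin (s + 1) → ℤ) y * PV β' U' t' y =
      ∑ t' ∈ bxS s M, ∑ t0' ∈ Ioo (-(M : ℤ)) M,
        ((FW M (Fin.cons t0 t : Fin (s + 1) → ℤ) * FW M (Fin.cons t0' t' : Fin (s + 1) → ℤ) : ℝ) : ℂ) *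
      ∑ y ∈ Ico (-(X : ℤ)) X, PV β U (Fin.cons t0 t : Fin (s + 1) → ℤ) y *
        PV β' U' (Fin.cons t0' t' : Fin (s + 1) → ℤ) y := by
    intro t0
    rw [ll2_bx]
  rw [Finset.sum_congr rfl fun t0 _ => e3 t0, Finset.sum_comm]
  refine Finset.sum_congr rfl fun t' _ => ?_
  simp only [Finset.mul_sum, Finset.sum_mul]
  rw [Finset.sum_congr rfl fun t0 _ => Finset.sum_comm, Finset.sum_comm]
  refine Finset.sum_congr rfl fun y _ => ?_
  rw [Finset.sum_comm]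
  refine Finset.sum_congr rfl fun t0' _ => ?_
  refine Finset.sum_congr rfl fun t0 _ => ?_
  rw [ll2_FW_cons, ll2_FW_cons, LL2_cons, LL2_cons]
  push_cast
  ring

theorem ll2_cs {ι : Type*} (P : Finset ι) (w : ι → ℝ) (S : ι → ℂ) (hw : ∀ i, 0 ≤ w i) :
    ‖∑ i ∈ P, ((w i : ℝ) : ℂ) * S i‖ ^ 2 ≤ (∑ i ∈ P, w i) * ∑ i ∈ P, w i * ‖S i‖ ^ 2 := by
  have h1 : ‖∑ i ∈ P, ((w i : ℝ) : ℂ) * S i‖ ≤ ∑ i ∈ P, w i * ‖S i‖ := by
    refine (norm_sum_le _ _).trans (le_of_eq ?_)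
    refine Finset.sum_congr rfl fun i _ => ?_
    rw [norm_mul, Complex.norm_real, Real.norm_of_nonneg (hw i)]
  have h2 : (∑ i ∈ P, w i * ‖S i‖) ^ 2 ≤ (∑ i ∈ P, w i) * ∑ i ∈ P, w i * ‖S i‖ ^ 2 := by
    refine Finset.sum_sq_le_sum_mul_sum_of_sq_le_mul P (fun i _ => hw i) (fun i _ => mul_nonneg (hw i) (sq_nonneg _)) ?_
    intro i _
    exact le_of_eq (by ring)
  exact (pow_le_pow_left₀ (norm_nonneg _) h1 2).trans h2

theorem ll2_zv (s : ℕ) : (Fin.cons false (zv s) : Fin (s + 1) → Bool) = zv (s + 1) := by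
  funext i
  refine Fin.cases ?_ ?_ i
  · rfl
  · intro j
    rw [Fin.cons_succ]
    rfl

/-- **One coordinate.** `LL2_split`; Cauchy-Schwarz over `(t, t')` (weights `FW FW / M^(2s)`, total `1`, `LL2_FW`), `LL1_step` with
`a = PV .. * PV ..` (support by `LL2_supp` for the families `cons false`, `cons false (zv s) = zv (s+1)`), and
`TQ X H d 0 a = (∑_k fw H k ∑_y DD (d k) a y) / H` (`MQ_one`, `MQ`), `DD (d k) a` by `p0_DD_mul`, `LL2_DD`; exchange the sums. -/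
theorem LL2_rec (X M H b b' q s : ℕ) (hM : 1 ≤ M) (hH : 1 ≤ H) (hd : b * b' * q * H ≤ X)
    (U U' : (Fin (s + 1) → Bool) → ℤ → ℂ) (hU : ∀ ω y, ‖U ω y‖ ≤ 1) (hU' : ∀ ω y, ‖U' ω y‖ ≤ 1)
    (h0 : ∀ y, y ∉ Ico (-(X : ℤ)) X → U (zv (s + 1)) y * U' (zv (s + 1)) y = 0) :
    ‖TT X M (b * q) (b' * q) U U'‖ ^ 2 ≤
      8 * X * ((∑ k ∈ Ioo (-(H : ℤ)) H, fw H k * (TT X M (b * q) (b' * q)
        (fun ω => DD (b * b' * q * k) (U (Fin.cons false ω : Fin (s + 1) → Bool)))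
        (fun ω => DD (b * b' * q * k) (U' (Fin.cons false ω : Fin (s + 1) → Bool)))).re) / H) +
      8 * (X : ℝ) ^ 2 * (2 * (b + b') * H / M) ^ 2 := by
  have hM' : (0 : ℝ) < M := by exact_mod_cast hM
  have hMc : (M : ℂ) ≠ 0 := by
    have : M ≠ 0 := by omega
    exact_mod_cast this
  have hHc : (H : ℂ) ≠ 0 := by
    have : H ≠ 0 := by omega
    exact_mod_cast this
  obtain ⟨V, hV⟩ : ∃ V : (Fin s → Bool) → ℤ → ℂ, V = fun ω => U (Fin.cons false ω : Fin (s + 1) → Bool) := ⟨_, rfl⟩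
  obtain ⟨V', hV'⟩ : ∃ V' : (Fin s → Bool) → ℤ → ℂ, V' = fun ω => U' (Fin.cons false ω : Fin (s + 1) → Bool) := ⟨_, rfl⟩
  obtain ⟨W, hW⟩ : ∃ W : (Fin s → Bool) → ℤ → ℂ, W = fun ω => U (Fin.cons true ω : Fin (s + 1) → Bool) := ⟨_, rfl⟩
  obtain ⟨W', hW'⟩ : ∃ W' : (Fin s → Bool) → ℤ → ℂ, W' = fun ω => U' (Fin.cons true ω : Fin (s + 1) → Bool) := ⟨_, rfl⟩
  obtain ⟨a, hadef⟩ : ∃ a : (Fin s → ℤ) × (Fin s → ℤ) → ℤ → ℂ,
      a = fun p y => PV (b * q) V p.1 y * PV (b' * q) V' p.2 y := ⟨_, rfl⟩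
  obtain ⟨S, hSdef⟩ : ∃ S : (Fin s → ℤ) × (Fin s → ℤ) → ℂ, S = fun p => ∑ y ∈ Ico (-(X : ℤ)) X, a p y *
      ((∑ t ∈ Ioo (-(M : ℤ)) M, ((fw M t : ℝ) : ℂ) * PV (b * q) W p.1 (y + b * q * t)) / (M : ℂ)) *
      ((∑ t ∈ Ioo (-(M : ℤ)) M, ((fw M t : ℝ) : ℂ) * PV (b' * q) W' p.2 (y + b' * q * t)) / (M : ℂ)) := ⟨_, rfl⟩
  obtain ⟨w, hwdef⟩ : ∃ w : (Fin s → ℤ) × (Fin s → ℤ) → ℝ, w = fun p => FW M p.1 * FW M p.2 := ⟨_, rfl⟩
  have hw : ∀ p, 0 ≤ w p := fun p => by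
    rw [hwdef]
    exact mul_nonneg (ll2_FW_nonneg _ _) (ll2_FW_nonneg _ _)
  have hT : TT X M (b * q) (b' * q) U U' = (∑ p ∈ bxS s M ×ˢ bxS s M, ((w p : ℝ) : ℂ) * S p) / (M : ℂ) ^ (2 * s) := by
    rw [LL2_split, Finset.sum_product, hSdef, hadef, hwdef, hV, hV', hW, hW']
  have hsw : ∑ p ∈ bxS s M ×ˢ bxS s M, w p = (M : ℝ) ^ (2 * s) := by
    rw [hwdef, Finset.sum_product]
    simp only [← Finset.mul_sum, ← Finset.sum_mul]
    rw [LL2_FW s M hM]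
    ring
  have ha : ∀ p, Bdd X (a p) := by
    intro p
    rw [hadef]
    constructor
    · intro y
      rw [norm_mul]
      refine mul_le_one₀ (LL2_le s _ V (fun ω y => ?_) _ y) (norm_nonneg _) (LL2_le s _ V' (fun ω y => ?_) _ y)
      · rw [hV]
        exact hU _ _
      · rw [hV']
        exact hU' _ _
    · intro y hy
      refine LL2_supp X s _ _ V V' (fun y hy => ?_) _ _ y hy
      rw [hV, hV']
      change U (Fin.cons false (zv s) : Fin (s + 1) → Bool) y * U' (Fin.cons false (zv s) : Fin (s + 1) → Bool) y = 0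
      rw [ll2_zv]
      exact h0 y hy
  have hS : ∀ p, ‖S p‖ ^ 2 ≤ 8 * X * TQ X H (b * b' * q) 0 (a p) + 8 * (X : ℝ) ^ 2 * (2 * (b + b') * H / M) ^ 2 := by
    intro p
    rw [hSdef]
    refine LL1_step X M H b b' q hM hH hd (a p) (PV (b * q) W p.1) (PV (b' * q) W' p.2) (ha p) (fun y => ?_) (fun y => ?_)
    · refine LL2_le s _ W (fun ω y => ?_) _ y
      rw [hW]
      exact hU _ _
    · refine LL2_le s _ W' (fun ω y => ?_) _ y
      rw [hW']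
      exact hU' _ _
  have hCS := ll2_cs (bxS s M ×ˢ bxS s M) w S hw
  rw [hsw] at hCS
  have hsum : ∑ p ∈ bxS s M ×ˢ bxS s M, w p * ‖S p‖ ^ 2 ≤
      8 * X * (∑ p ∈ bxS s M ×ˢ bxS s M, w p * TQ X H (b * b' * q) 0 (a p)) +
        8 * (X : ℝ) ^ 2 * (2 * (b + b') * H / M) ^ 2 * (M : ℝ) ^ (2 * s) := by
    rw [← hsw, Finset.mul_sum, Finset.mul_sum, ← Finset.sum_add_distrib]
    refine Finset.sum_le_sum fun p _ => ?_
    refine (mul_le_mul_of_nonneg_left (hS p) (hw p)).trans (le_of_eq ?_)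
    ring
  have hkey : (∑ p ∈ bxS s M ×ˢ bxS s M, w p * TQ X H (b * b' * q) 0 (a p)) / (M : ℝ) ^ (2 * s) =
      (∑ k ∈ Ioo (-(H : ℤ)) H, fw H k * (TT X M (b * q) (b' * q)
        (fun ω => DD (b * b' * q * k) (U (Fin.cons false ω : Fin (s + 1) → Bool)))
        (fun ω => DD (b * b' * q * k) (U' (Fin.cons false ω : Fin (s + 1) → Bool)))).re) / H := by
    have hTQ : ∀ p, ((TQ X H (b * b' * q) 0 (a p) : ℝ) : ℂ) =
        (∑ k ∈ Ioo (-(H : ℤ)) H, ((fw H k : ℝ) : ℂ) * ∑ y ∈ Ico (-(X : ℤ)) X, DD (b * b' * q * k) (a p) y) / (H : ℂ) := by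
      intro p
      rw [← MQ_one X H hH ((b : ℤ) * b' * q) (by positivity) (by exact_mod_cast hd) (a p) (ha p).sup]
      rfl
    have hTT : ∀ k : ℤ, TT X M (b * q) (b' * q)
        (fun ω => DD (b * b' * q * k) (U (Fin.cons false ω : Fin (s + 1) → Bool)))
        (fun ω => DD (b * b' * q * k) (U' (Fin.cons false ω : Fin (s + 1) → Bool))) =
        (∑ p ∈ bxS s M ×ˢ bxS s M, ((w p : ℝ) : ℂ) * ∑ y ∈ Ico (-(X : ℤ)) X, DD (b * b' * q * k) (a p) y) /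
          (M : ℂ) ^ (2 * s) := by
      intro k
      unfold TT
      rw [Finset.sum_product, hwdef, hadef]
      refine congrArg (· / (M : ℂ) ^ (2 * s)) ?_
      refine Finset.sum_congr rfl fun t _ => ?_
      refine Finset.sum_congr rfl fun t' _ => ?_
      refine congrArg (((FW M t * FW M t' : ℝ) : ℂ) * ·) ?_
      refine Finset.sum_congr rfl fun y _ => ?_
      change _ = DD (b * b' * q * k) (fun y => PV (b * q) V t y * PV (b' * q) V' t' y) y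
      rw [p0_DD_mul, LL2_DD, LL2_DD, hV, hV']
    have hc : (((∑ p ∈ bxS s M ×ˢ bxS s M, w p * TQ X H (b * b' * q) 0 (a p)) / (M : ℝ) ^ (2 * s) : ℝ) : ℂ) =
        (∑ k ∈ Ioo (-(H : ℤ)) H, ((fw H k : ℝ) : ℂ) * TT X M (b * q) (b' * q)
        (fun ω => DD (b * b' * q * k) (U (Fin.cons false ω : Fin (s + 1) → Bool)))
        (fun ω => DD (b * b' * q * k) (U' (Fin.cons false ω : Fin (s + 1) → Bool)))) / ((H : ℝ) : ℂ) := by
      simp only [hTT]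
      push_cast
      rw [Finset.sum_congr rfl fun p _ => congrArg (((w p : ℝ) : ℂ) * ·) (hTQ p)]
      simp only [mul_div_assoc', ← Finset.sum_div]
      rw [div_div, div_div, mul_comm (H : ℂ)]
      refine congrArg (· / ((M : ℂ) ^ (2 * s) * (H : ℂ))) ?_
      simp only [Finset.mul_sum]
      rw [Finset.sum_comm]
      refine Finset.sum_congr rfl fun k _ => ?_
      refine Finset.sum_congr rfl fun p _ => ?_
      refine Finset.sum_congr rfl fun y _ => ?_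
      ring
    have hre := congrArg Complex.re hc
    rw [Complex.ofReal_re, Complex.div_ofReal_re, Complex.re_sum] at hre
    simp only [Complex.re_ofReal_mul] at hre
    exact hre
  have hMp : (0 : ℝ) < (M : ℝ) ^ (2 * s) := by positivity
  have hnorm : ‖TT X M (b * q) (b' * q) U U'‖ ^ 2 =
      ‖∑ p ∈ bxS s M ×ˢ bxS s M, ((w p : ℝ) : ℂ) * S p‖ ^ 2 / ((M : ℝ) ^ (2 * s)) ^ 2 := by
    rw [hT, norm_div, div_pow, norm_pow, Complex.norm_natCast]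
  rw [hnorm, ← hkey, div_le_iff₀ (by positivity)]
  have h5 : (8 * X * ((∑ p ∈ bxS s M ×ˢ bxS s M, w p * TQ X H (b * b' * q) 0 (a p)) / (M : ℝ) ^ (2 * s)) +
      8 * (X : ℝ) ^ 2 * (2 * (b + b') * H / M) ^ 2) * ((M : ℝ) ^ (2 * s)) ^ 2 =
      (M : ℝ) ^ (2 * s) * (8 * X * (∑ p ∈ bxS s M ×ˢ bxS s M, w p * TQ X H (b * b' * q) 0 (a p)) +
        8 * (X : ℝ) ^ 2 * (2 * (b + b') * H / M) ^ 2 * (M : ℝ) ^ (2 * s)) := by
    have e : ∀ A B C D : ℝ, D ≠ 0 → (A * (B / D) + C) * D ^ 2 = D * (A * B + C * D) := by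
      intro A B C D hD
      field_simp
    exact e _ _ _ _ hMp.ne'
  rw [h5]
  exact hCS.trans (mul_le_mul_of_nonneg_left hsum hMp.le)

end Pool.Agent.HUK
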