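import Pool.Agent.Lib.HUK.LL2

/-!
# Project HUK, chunk LL3 (M): recursion over the coordinates
-/

open Finset

namespace Pool.Agent.HUK

private theorem ll3_zv (s : ℕ) : (Fin.cons false (zv s) : Fin (s + 1) → Bool) = zv (s + 1) := by
  funext i
  refine Fin.cases ?_ (fun j => ?_) i
  · rfl
  · rfl

private theorem ll3_bx0 (M : ℕ) : bxS 0 M = {fun i => i.elim0} := by
  ext x
  simp only [bxS, Fintype.mem_piFinset, mem_singleton]
  constructor
  · intro _
    funext i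
    exact i.elim0
  · intro _ i
    exact i.elim0

private theorem ll3_TT0 (X M : ℕ) (β β' : ℤ) (U U' : (Fin 0 → Bool) → ℤ → ℂ) :
    TT X M β β' U U' = ∑ y ∈ Ico (-(X : ℤ)) X, U (zv 0) y * U' (zv 0) y := by
  have hPV : ∀ (γ : ℤ) (V : (Fin 0 → Bool) → ℤ → ℂ) (t : Fin 0 → ℤ) (y : ℤ), PV γ V t y = V (zv 0) y := by
    intro γ V t y
    unfold PV
    rw [Fintype.prod_eq_single (zv 0) (fun ω hω => absurd (Subsingleton.elim ω (zv 0)) hω)]
    simp [vt]
  unfold TT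
  rw [ll3_bx0]
  simp only [sum_singleton, hPV, FW, univ_eq_empty, prod_empty, mul_one, Complex.ofReal_one, one_mul, mul_zero, pow_zero,
    div_one]

/-- The sum over `k` of the `NU` of the differences. -/
private theorem ll3_NU (X s H : ℕ) (hH : 1 ≤ H) (d : ℤ) (f : ℤ → ℂ) :
    NU X (s + 1) H d f = (∑ k ∈ Ioo (-(H : ℤ)) H, fw H k * NU X s H d (DD (d * k) f)) / H := by
  rw [← MQ_NU X (s + 1) H hH d f, List.replicate_succ, mq2_cons_re]
  simp only [MQ_NU X s H hH d]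

private theorem ll3_NU0 (X H : ℕ) (hH : 1 ≤ H) (d : ℤ) (f : ℤ → ℂ) :
    NU X 0 H d f = (∑ y ∈ Ico (-(X : ℤ)) X, f y).re := by
  rw [← MQ_NU X 0 H hH d f]
  rfl

private theorem ll3_fam {s : ℕ} (h : ℤ) (U U' : (Fin (s + 1) → Bool) → ℤ → ℂ) (y : ℤ) :
    DD h (U (Fin.cons false (zv s) : Fin (s + 1) → Bool)) y * DD h (U' (Fin.cons false (zv s) : Fin (s + 1) → Bool)) y =
      DD h (fun y => U (zv (s + 1)) y * U' (zv (s + 1)) y) y := by
  rw [ll3_zv, p0_DD_mul]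

/-- `s = 0`: `TT = ∑_y U(y) U'(y)`, hence the sum over `k` in `LL2_rec` is `NU X 1 H d (U U')` (`MQ_NU`, `MQ`). -/
theorem LL3_base (X M H b b' q : ℕ) (hM : 1 ≤ M) (hH : 1 ≤ H) (hd : b * b' * q * H ≤ X)
    (U U' : (Fin 1 → Bool) → ℤ → ℂ) (hU : ∀ ω y, ‖U ω y‖ ≤ 1) (hU' : ∀ ω y, ‖U' ω y‖ ≤ 1)
    (h0 : ∀ y, y ∉ Ico (-(X : ℤ)) X → U (zv 1) y * U' (zv 1) y = 0) :
    ‖TT X M (b * q) (b' * q) U U'‖ ^ 2 ≤ 8 * X * NU X 1 H (b * b' * q) (fun y => U (zv 1) y * U' (zv 1) y) +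
      8 * (X : ℝ) ^ 2 * (2 * (b + b') * H / M) ^ 2 := by
  refine (LL2_rec X M H b b' q 0 hM hH hd U U' hU hU' h0).trans (le_of_eq ?_)
  congr 2
  rw [ll3_NU X 0 H hH]
  congr 1
  refine sum_congr rfl fun k _ => ?_
  rw [ll3_NU0 X H hH, ll3_TT0]
  congr 2
  refine sum_congr rfl fun y _ => ?_
  exact ll3_fam _ U U' y

private theorem ll3_DDle (h : ℤ) (f : ℤ → ℂ) (hf : ∀ y, ‖f y‖ ≤ 1) (y : ℤ) : ‖DD h f y‖ ≤ 1 := by
  simp only [DD]
  rw [norm_mul, RCLike.norm_conj]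
  exact mul_le_one₀ (hf _) (norm_nonneg _) (hf _)

private theorem ll3_pow (a b : ℝ) (ha : 0 ≤ a) (hb : 0 ≤ b) (n : ℕ) : (a + b) ^ n ≤ 2 ^ n * (a ^ n + b ^ n) := by
  have h1 : a + b ≤ 2 * max a b := by
    have := le_max_left a b
    have := le_max_right a b
    linarith
  calc (a + b) ^ n ≤ (2 * max a b) ^ n := pow_le_pow_left₀ (by positivity) h1 n
    _ = 2 ^ n * (max a b) ^ n := mul_pow _ _ _
    _ ≤ 2 ^ n * (a ^ n + b ^ n) := by
      refine mul_le_mul_of_nonneg_left ?_ (by positivity)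
      rcases le_total a b with h | h
      · rw [max_eq_right h]
        have : 0 ≤ a ^ n := by positivity
        linarith
      · rw [max_eq_left h]
        have : 0 ≤ b ^ n := by positivity
        linarith

/-- **Recursion.** Induction on `s` from `LL3_base` (with `e = (b + b') H / M ≤ 1`, `e² ≤ e`). Step: with `n = 2^s`,
`A = 8X (∑_k fw H k ‖TT (DD (d k) ..)‖) / H`, `E = 32 X² e²`: `‖TT‖^(2n) ≤ (A + E)^n ≤ 2^n (A^n + E^n)`, `A^n ≤ (8X)^n (∑_k fw H k ‖TT ..‖^n) / H`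
(Jensen, the weights `fw H k / H` have total `1`: `inner_le_nnorm_mul_nnorm`-free, use `Finset.inner_mul_le_norm_mul_norm` or
`inner_pow_le`: `Real.inner_le_...`; simplest: `Real.pow_arith_mean_le_arith_mean_pow`), induction hypothesis for the families
`DD (d k) (U (cons false ·))` (bounded, product at `zv s` is `DD (d k)` of the product), and
`(∑_k fw H k NU X s H d (DD (d k) Φ)) / H = NU X (s + 1) H d Φ` (`MQ_NU`, `mq2_cons_re`). `E^n ≤ 32^n X^(2n) e`. -/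
theorem LL3_main (s : ℕ) (hs : 1 ≤ s) : ∃ C : ℝ, 1 ≤ C ∧ ∀ X M H b b' q : ℕ, 1 ≤ X → 1 ≤ M → 1 ≤ H → b * b' * q * H ≤ X →
    (b + b') * H ≤ M → ∀ U U' : (Fin s → Bool) → ℤ → ℂ, (∀ ω y, ‖U ω y‖ ≤ 1) → (∀ ω y, ‖U' ω y‖ ≤ 1) →
    (∀ y, y ∉ Ico (-(X : ℤ)) X → U (zv s) y * U' (zv s) y = 0) →
    ‖TT X M (b * q) (b' * q) U U'‖ ^ (2 ^ s) ≤ C * (X : ℝ) ^ (2 ^ s - 1) *
      (NU X s H (b * b' * q) (fun y => U (zv s) y * U' (zv s) y) + X * ((b + b') * H / M)) := by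
  induction s, hs using Nat.le_induction with
  | base =>
    refine ⟨32, by norm_num, ?_⟩
    intro X M H b b' q hX hM hH hd hbM U U' hU hU' h0
    have h1 := LL3_base X M H b b' q hM hH hd U U' hU hU' h0
    have hd' : (b * b' * q : ℤ) * H ≤ X := by exact_mod_cast hd
    have h2 := NU_nonneg X 1 H le_rfl hH (b * b' * q) (by positivity) hd' (fun y => U (zv 1) y * U' (zv 1) y) h0
    set N := NU X 1 H (b * b' * q) (fun y => U (zv 1) y * U' (zv 1) y) with hN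
    have hM' : (0 : ℝ) < M := by exact_mod_cast hM
    have hX' : (0 : ℝ) < X := by exact_mod_cast hX
    have he1 : ((b : ℝ) + b') * H / M ≤ 1 := by
      rw [div_le_one hM']
      exact_mod_cast hbM
    have he0 : 0 ≤ ((b : ℝ) + b') * H / M := by positivity
    set e : ℝ := ((b : ℝ) + b') * H / M with he
    have h3 : (2 * ((b : ℝ) + b') * H / M) ^ 2 ≤ 4 * e := by
      have h4 : 2 * ((b : ℝ) + b') * H / M = 2 * e := by
        rw [he]
        ring
      rw [h4]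
      nlinarith
    have h5 : ‖TT X M (b * q) (b' * q) U U'‖ ^ 2 ≤ 8 * X * N + 8 * (X : ℝ) ^ 2 * (4 * e) :=
      h1.trans (by
        have := mul_le_mul_of_nonneg_left h3 (by positivity : (0 : ℝ) ≤ 8 * (X : ℝ) ^ 2)
        linarith)
    have h6 : 8 * X * N + 8 * (X : ℝ) ^ 2 * (4 * e) ≤ 32 * (X : ℝ) ^ (2 ^ 1 - 1) * (N + X * e) := by
      norm_num
      nlinarith [mul_nonneg hX'.le h2]
    have h7 : (2 : ℕ) ^ 1 = 2 := by norm_num
    rw [h7] at h6 ⊢
    exact h5.trans h6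
  | succ s hs ih =>
    obtain ⟨C, hC1, hC⟩ := ih
    refine ⟨2 ^ (2 ^ s) * (8 ^ (2 ^ s) * C + 32 ^ (2 ^ s)), ?_, ?_⟩
    · have h1 : (1 : ℝ) ≤ 2 ^ (2 ^ s) := one_le_pow₀ (by norm_num)
      have h2 : (1 : ℝ) ≤ 32 ^ (2 ^ s) := one_le_pow₀ (by norm_num)
      have h3 : (0 : ℝ) ≤ 8 ^ (2 ^ s) * C := by positivity
      nlinarith
    intro X M H b b' q hX hM hH hd hbM U U' hU hU' h0
    have hM' : (0 : ℝ) < M := by exact_mod_cast hM
    have hX' : (0 : ℝ) < X := by exact_mod_cast hX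
    have hH' : (0 : ℝ) < H := by exact_mod_cast hH
    have hd' : (b * b' * q : ℤ) * H ≤ X := by exact_mod_cast hd
    have he1 : ((b : ℝ) + b') * H / M ≤ 1 := by
      rw [div_le_one hM']
      exact_mod_cast hbM
    have he0 : 0 ≤ ((b : ℝ) + b') * H / M := by positivity
    set e : ℝ := ((b : ℝ) + b') * H / M with he
    set n : ℕ := 2 ^ s with hn
    have hn1 : 1 ≤ n := Nat.one_le_two_pow
    set Φ : ℤ → ℂ := fun y => U (zv (s + 1)) y * U' (zv (s + 1)) y with hΦ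
    have hNU := NU_nonneg X (s + 1) H (by omega) hH (b * b' * q) (by positivity) hd' Φ h0
    set T : ℤ → ℂ := fun k => TT X M (b * q) (b' * q)
        (fun ω => DD (b * b' * q * k) (U (Fin.cons false ω : Fin (s + 1) → Bool)))
        (fun ω => DD (b * b' * q * k) (U' (Fin.cons false ω : Fin (s + 1) → Bool))) with hT
    have h1 := LL2_rec X M H b b' q s hM hH hd U U' hU hU' h0
    have hfw : ∀ k, 0 ≤ fw H k := fun k => mq1_fw_nonneg H k
    set A : ℝ := 8 * X * ((∑ k ∈ Ioo (-(H : ℤ)) H, fw H k * ‖T k‖) / H) with hA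
    have hA0 : 0 ≤ A := by
      have : 0 ≤ ∑ k ∈ Ioo (-(H : ℤ)) H, fw H k * ‖T k‖ := sum_nonneg fun k _ => mul_nonneg (hfw k) (norm_nonneg _)
      positivity
    have h2 : ‖TT X M (b * q) (b' * q) U U'‖ ^ 2 ≤ A + 32 * (X : ℝ) ^ 2 * e ^ 2 := by
      refine h1.trans ?_
      have h3 : (∑ k ∈ Ioo (-(H : ℤ)) H, fw H k * (T k).re) / H ≤ (∑ k ∈ Ioo (-(H : ℤ)) H, fw H k * ‖T k‖) / H := by
        refine div_le_div_of_nonneg_right (sum_le_sum fun k _ => ?_) hH'.le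
        exact mul_le_mul_of_nonneg_left (Complex.re_le_norm _) (hfw k)
      have h4 : 8 * (X : ℝ) ^ 2 * (2 * ((b : ℝ) + b') * H / M) ^ 2 = 32 * (X : ℝ) ^ 2 * e ^ 2 := by
        have h5 : 2 * ((b : ℝ) + b') * H / M = 2 * e := by
          rw [he]
          ring
        rw [h5]
        ring
      have h6 := mul_le_mul_of_nonneg_left h3 (by positivity : (0 : ℝ) ≤ 8 * X)
      rw [h4]
      linarith
    have h7 : ‖TT X M (b * q) (b' * q) U U'‖ ^ (2 ^ (s + 1)) ≤ 2 ^ n * (A ^ n + (32 * (X : ℝ) ^ 2 * e ^ 2) ^ n) := by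
      have h8 : (2 : ℕ) ^ (s + 1) = 2 * n := by
        rw [hn, pow_succ]
        ring
      rw [h8, pow_mul]
      exact (pow_le_pow_left₀ (by positivity) h2 n).trans (ll3_pow _ _ hA0 (by positivity) n)
    have hw1 : ∑ k ∈ Ioo (-(H : ℤ)) H, fw H k / H = 1 := by
      rw [← sum_div, mq1_fw_sum H hH, div_self hH'.ne']
    have hAn : A ^ n ≤ (8 * X) ^ n * (C * (X : ℝ) ^ (n - 1) * (NU X (s + 1) H (b * b' * q) Φ + X * e)) := by
      rw [hA, mul_pow]
      refine mul_le_mul_of_nonneg_left ?_ (by positivity)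
      have h9 : (∑ k ∈ Ioo (-(H : ℤ)) H, fw H k * ‖T k‖) / H = ∑ k ∈ Ioo (-(H : ℤ)) H, fw H k / H * ‖T k‖ := by
        rw [sum_div]
        exact sum_congr rfl fun k _ => by ring
      rw [h9]
      refine (Real.pow_arith_mean_le_arith_mean_pow _ _ _ (fun k _ => div_nonneg (hfw k) hH'.le) hw1
        (fun k _ => norm_nonneg _) n).trans ?_
      have h10 : ∀ k ∈ Ioo (-(H : ℤ)) H, fw H k / H * ‖T k‖ ^ n ≤
          fw H k / H * (C * (X : ℝ) ^ (n - 1) * (NU X s H (b * b' * q) (DD (b * b' * q * k) Φ) + X * e)) := by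
        intro k _
        refine mul_le_mul_of_nonneg_left ?_ (div_nonneg (hfw k) hH'.le)
        have h11 := hC X M H b b' q hX hM hH hd hbM
          (fun ω => DD (b * b' * q * k) (U (Fin.cons false ω : Fin (s + 1) → Bool)))
          (fun ω => DD (b * b' * q * k) (U' (Fin.cons false ω : Fin (s + 1) → Bool)))
          (fun ω y => ll3_DDle _ _ (hU _) y) (fun ω y => ll3_DDle _ _ (hU' _) y)
          (fun y hy => by
            rw [ll3_fam]
            exact mq1_DD_supp h0 _ y hy)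
        have h12 : (fun y => DD (b * b' * q * k : ℤ) (U (Fin.cons false (zv s) : Fin (s + 1) → Bool)) y *
            DD (b * b' * q * k : ℤ) (U' (Fin.cons false (zv s) : Fin (s + 1) → Bool)) y) = DD (b * b' * q * k : ℤ) Φ := by
          funext y
          exact ll3_fam _ U U' y
        rw [h12] at h11
        exact h11
      refine (sum_le_sum h10).trans (le_of_eq ?_)
      rw [ll3_NU X s H hH]
      have h13 : ∀ k ∈ Ioo (-(H : ℤ)) H, fw H k / H * (C * (X : ℝ) ^ (n - 1) * (NU X s H (b * b' * q) (DD (b * b' * q * k) Φ) + X * e)) =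
          C * (X : ℝ) ^ (n - 1) * (fw H k * NU X s H (b * b' * q) (DD (b * b' * q * k) Φ) / H) +
            C * (X : ℝ) ^ (n - 1) * (X * e) * (fw H k / H) := by
        intro k _
        ring
      rw [sum_congr rfl h13, sum_add_distrib, ← mul_sum, ← mul_sum, hw1, ← sum_div]
      ring
    have hEn : (32 * (X : ℝ) ^ 2 * e ^ 2) ^ n ≤ 32 ^ n * ((X : ℝ) ^ (2 * n) * e) := by
      rw [mul_pow, mul_pow, ← pow_mul, ← pow_mul, mul_assoc]
      refine mul_le_mul_of_nonneg_left ?_ (by positivity)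
      refine mul_le_mul_of_nonneg_left ?_ (by positivity)
      calc e ^ (2 * n) ≤ e ^ 1 := pow_le_pow_of_le_one he0 he1 (by omega)
        _ = e := pow_one e
    have hXe : 0 ≤ X * e := by positivity
    have h14 : (2 : ℕ) ^ (s + 1) - 1 = n + (n - 1) := by
      rw [pow_succ]
      omega
    have h15 : (X : ℝ) ^ (2 * n) = (X : ℝ) ^ (n + (n - 1)) * X := by
      rw [← pow_succ]
      congr 1
      omega
    rw [h14]
    calc ‖TT X M (b * q) (b' * q) U U'‖ ^ (2 ^ (s + 1)) ≤ 2 ^ n * (A ^ n + (32 * (X : ℝ) ^ 2 * e ^ 2) ^ n) := h7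
      _ ≤ 2 ^ n * ((8 * X) ^ n * (C * (X : ℝ) ^ (n - 1) * (NU X (s + 1) H (b * b' * q) Φ + X * e)) +
          32 ^ n * ((X : ℝ) ^ (2 * n) * e)) := by
        refine mul_le_mul_of_nonneg_left (add_le_add hAn hEn) (by positivity)
      _ = 2 ^ n * (8 ^ n * C * (X : ℝ) ^ (n + (n - 1)) * (NU X (s + 1) H (b * b' * q) Φ + X * e) +
          32 ^ n * (X : ℝ) ^ (n + (n - 1)) * (X * e)) := by
        rw [h15, mul_pow, pow_add]
        ring
      _ ≤ 2 ^ n * (8 ^ n * C * (X : ℝ) ^ (n + (n - 1)) * (NU X (s + 1) H (b * b' * q) Φ + X * e) +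
          32 ^ n * (X : ℝ) ^ (n + (n - 1)) * (NU X (s + 1) H (b * b' * q) Φ + X * e)) := by
        refine mul_le_mul_of_nonneg_left ?_ (by positivity)
        have h16 := mul_le_mul_of_nonneg_left (by linarith : X * e ≤ NU X (s + 1) H (b * b' * q) Φ + X * e)
          (by positivity : (0 : ℝ) ≤ 32 ^ n * (X : ℝ) ^ (n + (n - 1)))
        linarith
      _ = 2 ^ n * (8 ^ n * C + 32 ^ n) * (X : ℝ) ^ (n + (n - 1)) * (NU X (s + 1) H (b * b' * q) Φ + X * e) := by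
        ring

end Pool.Agent.HUK
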