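import Pool.Agent.Lib.HUK.LL2
import Pool.Agent.Lib.HUK.E1

/-!
# Project HUK, chunk LL4 (M): Cauchy-Schwarz over `y`
-/

open Finset

namespace Pool.Agent.HUK

theorem ll4_vt_mul {s : ℕ} (β : ℤ) (ω : Fin s → Bool) (t : Fin s → ℤ) :
    vt ω (fun i => β * t i) = β * vt ω t := by
  unfold vt
  rw [mul_sum]
  refine sum_congr rfl fun i _ => ?_
  split_ifs
  · rfl
  · rw [mul_zero]

theorem ll4_sg_zv (s : ℕ) : sg (zv s) = 0 := by
  unfold sg zv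
  simp

theorem ll4_vt_zv (s : ℕ) (t : Fin s → ℤ) : vt (zv s) t = 0 := by
  unfold vt zv
  simp

theorem ll4_prod_zv (s : ℕ) (a : (Fin s → Bool) → ℂ) :
    ∏ ω : Fin s → Bool, a ω = a (zv s) * ∏ ω : Fin s → Bool, (if ω = zv s then 1 else a ω) := by
  have h1 : ∏ ω : Fin s → Bool, (if ω = zv s then a (zv s) else 1) = a (zv s) := by
    rw [prod_ite_eq' univ (zv s) (fun _ => a (zv s)), if_pos (mem_univ _)]
  rw [← h1]
  have h2 : ∀ ω : Fin s → Bool, a ω = (if ω = zv s then a (zv s) else 1) * (if ω = zv s then 1 else a ω) := by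
    intro ω
    split_ifs with h
    · rw [h, mul_one]
    · rw [one_mul]
  rw [h1]
  calc ∏ ω : Fin s → Bool, a ω = ∏ ω : Fin s → Bool, ((if ω = zv s then a (zv s) else 1) * (if ω = zv s then 1 else a ω)) :=
        prod_congr rfl fun ω _ => h2 ω
    _ = (∏ ω : Fin s → Bool, (if ω = zv s then a (zv s) else 1)) * ∏ ω : Fin s → Bool, (if ω = zv s then 1 else a ω) :=
        prod_mul_distrib
    _ = a (zv s) * ∏ ω : Fin s → Bool, (if ω = zv s then 1 else a ω) := by rw [h1]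

theorem ll4_conj_PV {s : ℕ} (β : ℤ) (U : (Fin s → Bool) → ℤ → ℂ) (t : Fin s → ℤ) (y : ℤ) :
    (starRingEnd ℂ) (PV β U t y) = PV β (cU U) t y := by
  unfold PV cU
  rw [map_prod]

theorem ll4_FW_cons (M s : ℕ) (t0 : ℤ) (t : Fin s → ℤ) :
    FW M (Fin.cons t0 t : Fin (s + 1) → ℤ) = fw M t0 * FW M t := by
  unfold FW
  rw [Fin.prod_univ_succ]
  simp only [Fin.cons_zero, Fin.cons_succ]

/-- The vertices of the cube `{0,1}^(s+1)` other than `0`: for `t = cons t0 t'`: `DV (β t) f y = f y * PV β (Uf f (β t0)) t' y`.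
By `DL_prod` (with `vt ω (fun i => β * t i) = β * vt ω t`) and `Fin.consEquiv`, `p0_sg_cons`: the pair `(cons false ω, cons true ω)`
gives `cj (sg ω) (f (y + β ω·t')) * cj (sg ω + 1) (f (y + β t0 + β ω·t'))`; the factor `cj 0 (f y)` of `ω = zv s` is taken out. -/
theorem LL4_DV (s : ℕ) (β : ℤ) (f : ℤ → ℂ) (t0 : ℤ) (t : Fin s → ℤ) (y : ℤ) :
    DV (fun i => β * (Fin.cons t0 t : Fin (s + 1) → ℤ) i) f y = f y * PV β (Uf (s := s) f (β * t0)) t y := by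
  unfold DV
  rw [DL_prod]
  rw [← (Fin.consEquiv fun _ : Fin (s + 1) => Bool).prod_comp, Fintype.prod_prod_type, Fintype.prod_bool]
  have h1 : ∀ ω : Fin s → Bool, cj (sg ((Fin.consEquiv fun _ : Fin (s + 1) => Bool) (false, ω)))
      (f (y + vt ((Fin.consEquiv fun _ : Fin (s + 1) => Bool) (false, ω)) (fun i => β * (Fin.cons t0 t : Fin (s + 1) → ℤ) i))) =
      cj (sg ω) (f (y + β * vt ω t)) := by
    intro ω
    change cj (sg (Fin.cons false ω : Fin (s + 1) → Bool)) (f (y + vt (Fin.cons false ω : Fin (s + 1) → Bool) _)) = _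
    rw [p0_sg_cons, p0_vt_cons]
    simp only [Bool.false_eq_true, if_false, add_zero, zero_add, Fin.cons_succ]
    rw [ll4_vt_mul]
  have h2 : ∀ ω : Fin s → Bool, cj (sg ((Fin.consEquiv fun _ : Fin (s + 1) => Bool) (true, ω)))
      (f (y + vt ((Fin.consEquiv fun _ : Fin (s + 1) => Bool) (true, ω)) (fun i => β * (Fin.cons t0 t : Fin (s + 1) → ℤ) i))) =
      cj (sg ω + 1) (f (y + β * vt ω t + β * t0)) := by
    intro ω
    change cj (sg (Fin.cons true ω : Fin (s + 1) → Bool)) (f (y + vt (Fin.cons true ω : Fin (s + 1) → Bool) _)) = _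
    rw [p0_sg_cons, p0_vt_cons]
    simp only [if_true, Fin.cons_succ, Fin.cons_zero]
    rw [ll4_vt_mul, add_assoc y, add_comm (β * t0)]
  rw [prod_congr rfl fun ω _ => h1 ω, prod_congr rfl fun ω _ => h2 ω]
  rw [ll4_prod_zv s (fun ω => cj (sg ω) (f (y + β * vt ω t)))]
  have h3 : cj (sg (zv s)) (f (y + β * vt (zv s) t)) = f y := by
    rw [ll4_sg_zv, ll4_vt_zv, mul_zero, add_zero]
    simp [cj]
  rw [h3]
  unfold PV Uf
  rw [prod_mul_distrib]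
  ring

/-- `NU` as an inner product with the dual function (`LL4_DV`, exchange of sums). -/
theorem LL4_NU (X s M : ℕ) (β : ℤ) (f : ℤ → ℂ) :
    NU X (s + 1) M β f = (∑ y ∈ Ico (-(X : ℤ)) X, f y * Db s M β f y).re := by
  unfold NU FF
  rw [e1_box_succ]
  have h1 : (∑ y ∈ Ico (-(X : ℤ)) X, f y * Db s M β f y) =
      (∑ j0 ∈ Ioo (-(M : ℤ)) M, ∑ j' ∈ bxS s M, ((FW M (Fin.cons j0 j' : Fin (s + 1) → ℤ) : ℝ) : ℂ) *
        ∑ y ∈ Ico (-(X : ℤ)) X, DV (fun i => β * (Fin.cons j0 j' : Fin (s + 1) → ℤ) i) f y) / (((M ^ (s + 1) : ℕ)) : ℂ) := by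
    have h2 : ∀ y ∈ Ico (-(X : ℤ)) X, f y * Db s M β f y =
        (∑ j0 ∈ Ioo (-(M : ℤ)) M, ∑ j' ∈ bxS s M, ((FW M (Fin.cons j0 j' : Fin (s + 1) → ℤ) : ℝ) : ℂ) *
          DV (fun i => β * (Fin.cons j0 j' : Fin (s + 1) → ℤ) i) f y) / (((M ^ (s + 1) : ℕ)) : ℂ) := by
      intro y _
      unfold Db
      rw [← mul_div_assoc, mul_sum]
      push_cast
      congr 1
      refine sum_congr rfl fun j0 _ => ?_
      rw [mul_sum, mul_sum]
      refine sum_congr rfl fun j' _ => ?_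
      rw [LL4_DV, ll4_FW_cons]
      push_cast
      ring
    rw [sum_congr rfl h2, ← sum_div]
    congr 1
    rw [sum_comm]
    refine sum_congr rfl fun j0 _ => ?_
    rw [sum_comm]
    refine sum_congr rfl fun j' _ => ?_
    rw [mul_sum]
  rw [h1, Complex.div_natCast_re]
  push_cast
  rfl

/-- The correlation of two dual functions (`conj (PV β U t y) = PV β (cU U) t y`; exchange of sums). -/
theorem LL4_pair (X s M : ℕ) (β β' : ℤ) (f : ℤ → ℂ) :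
    (∑ y ∈ Ico (-(2 * X : ℕ) : ℤ) (2 * X : ℕ), Db s M β f y * (starRingEnd ℂ) (Db s M β' f y)).re = SPd X s M β β' f := by
  unfold SPd
  congr 1
  have h1 : ∀ y : ℤ, Db s M β f y * (starRingEnd ℂ) (Db s M β' f y) =
      (∑ t ∈ Ioo (-(M : ℤ)) M, ∑ t' ∈ Ioo (-(M : ℤ)) M, ((fw M t * fw M t' : ℝ) : ℂ) *
        ∑ u ∈ bxS s M, ∑ u' ∈ bxS s M, ((FW M u * FW M u' : ℝ) : ℂ) *
          (PV β (Uf (s := s) f (β * t)) u y * PV β' (cU (Uf (s := s) f (β' * t'))) u' y)) / ((M : ℂ) ^ (2 * s) * (M : ℂ) ^ 2) := by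
    intro y
    unfold Db
    rw [map_div₀, map_pow, Complex.conj_natCast, div_mul_div_comm]
    have h2 : (M : ℂ) ^ (s + 1) * (M : ℂ) ^ (s + 1) = (M : ℂ) ^ (2 * s) * (M : ℂ) ^ 2 := by
      ring
    rw [h2]
    congr 1
    rw [map_sum, sum_mul_sum]
    refine sum_congr rfl fun t _ => ?_
    refine sum_congr rfl fun t' _ => ?_
    rw [map_mul, Complex.conj_ofReal, map_sum]
    have h3 : ∀ u' ∈ bxS s M, (starRingEnd ℂ) (((FW M u' : ℝ) : ℂ) * PV β' (Uf (s := s) f (β' * t')) u' y) =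
        ((FW M u' : ℝ) : ℂ) * PV β' (cU (Uf (s := s) f (β' * t'))) u' y := by
      intro u' _
      rw [map_mul, Complex.conj_ofReal, ll4_conj_PV]
    rw [sum_congr rfl h3, mul_mul_mul_comm, sum_mul_sum]
    push_cast
    congr 1
    refine sum_congr rfl fun u _ => ?_
    refine sum_congr rfl fun u' _ => ?_
    ring
  rw [sum_congr rfl fun y _ => h1 y, ← sum_div, ← div_div]
  congr 1
  rw [sum_comm, sum_div]
  have h4 : ∀ t ∈ Ioo (-(M : ℤ)) M, (∑ y ∈ Ico (-((2 * X : ℕ) : ℤ)) ((2 * X : ℕ) : ℤ), ∑ t' ∈ Ioo (-(M : ℤ)) M, ((fw M t * fw M t' : ℝ) : ℂ) *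
        ∑ u ∈ bxS s M, ∑ u' ∈ bxS s M, ((FW M u * FW M u' : ℝ) : ℂ) *
          (PV β (Uf (s := s) f (β * t)) u y * PV β' (cU (Uf (s := s) f (β' * t'))) u' y)) / (M : ℂ) ^ (2 * s) =
      ∑ t' ∈ Ioo (-(M : ℤ)) M, ((fw M t * fw M t' : ℝ) : ℂ) * TT (2 * X) M β β' (Uf (s := s) f (β * t)) (cU (Uf (s := s) f (β' * t'))) := by
    intro t _
    rw [sum_comm, sum_div]
    refine sum_congr rfl fun t' _ => ?_
    rw [← mul_sum, mul_div_assoc]
    congr 1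
    unfold TT
    congr 1
    rw [sum_comm]
    refine sum_congr rfl fun u _ => ?_
    rw [sum_comm]
    refine sum_congr rfl fun u' _ => ?_
    rw [mul_sum]
  exact sum_congr rfl h4

/-- **Cauchy-Schwarz over `y`.** `(∑_b NU)² ≤ ‖∑_y f y ∑_b Db‖² ≤ 2X ∑_{y ∈ [-X,X)} ‖∑_b Db‖² ≤ 2X ∑_{y ∈ [-2X,2X)} ‖∑_b Db‖²`, open the
square, `LL4_pair`. -/
theorem LL4_cs (X s M K q : ℕ) (f : ℤ → ℂ) (hf : Bdd X f) :
    (∑ b ∈ Ioc K (2 * K), NU X (s + 1) M (b * q) f) ^ 2 ≤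
      2 * X * ∑ p ∈ Ioc K (2 * K) ×ˢ Ioc K (2 * K), SPd X s M (p.1 * q) (p.2 * q) f := by
  obtain ⟨G, hG⟩ : ∃ G : ℤ → ℂ, ∀ y, G y = ∑ b ∈ Ioc K (2 * K), Db s M ((b : ℤ) * q) f y := ⟨_, fun _ => rfl⟩
  have h1 : ∑ b ∈ Ioc K (2 * K), NU X (s + 1) M ((b : ℤ) * q) f = (∑ y ∈ Ico (-(X : ℤ)) X, f y * G y).re := by
    rw [sum_congr rfl fun (b : ℕ) _ => LL4_NU X s M ((b : ℤ) * q) f, ← Complex.re_sum]
    congr 1
    rw [sum_comm]
    refine sum_congr rfl fun y _ => ?_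
    rw [hG, mul_sum]
  rw [h1]
  have h2 : (∑ y ∈ Ico (-(X : ℤ)) X, f y * G y).re ^ 2 ≤ 2 * X * ∑ y ∈ Ico (-(X : ℤ)) X, ‖G y‖ ^ 2 := by
    have h3 : |(∑ y ∈ Ico (-(X : ℤ)) X, f y * G y).re| ≤ ∑ y ∈ Ico (-(X : ℤ)) X, 1 * ‖G y‖ := by
      refine (Complex.abs_re_le_norm _).trans ((norm_sum_le _ _).trans ?_)
      refine sum_le_sum fun y _ => ?_
      rw [norm_mul]
      exact mul_le_mul_of_nonneg_right (hf.le y) (norm_nonneg _)
    have h4 := sum_mul_sq_le_sq_mul_sq (Ico (-(X : ℤ)) X) (fun _ => (1 : ℝ)) (fun y => ‖G y‖)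
    have h5 : ∑ y ∈ Ico (-(X : ℤ)) X, ((1 : ℝ)) ^ 2 = 2 * X := by
      rw [sum_const, Int.card_Ico, one_pow, nsmul_eq_mul, mul_one]
      have h6 : ((X : ℤ) - (-(X : ℤ))).toNat = 2 * X := by omega
      rw [h6]
      push_cast
      ring
    rw [h5] at h4
    refine le_trans ?_ h4
    rw [← sq_abs]
    exact pow_le_pow_left₀ (abs_nonneg _) h3 2
  refine h2.trans ?_
  refine mul_le_mul_of_nonneg_left ?_ (by positivity)
  have h7 : ∑ y ∈ Ico (-(X : ℤ)) X, ‖G y‖ ^ 2 ≤ ∑ y ∈ Ico (-((2 * X : ℕ) : ℤ)) ((2 * X : ℕ) : ℤ), ‖G y‖ ^ 2 := by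
    refine sum_le_sum_of_subset_of_nonneg ?_ (fun y _ _ => by positivity)
    intro y hy
    rw [mem_Ico] at hy ⊢
    push_cast
    omega
  refine h7.trans (le_of_eq ?_)
  rw [sum_product]
  have h8 : ∀ b ∈ Ioc K (2 * K), ∀ b' ∈ Ioc K (2 * K), SPd X s M ((b : ℤ) * q) ((b' : ℤ) * q) f =
      ∑ y ∈ Ico (-((2 * X : ℕ) : ℤ)) ((2 * X : ℕ) : ℤ), (Db s M ((b : ℤ) * q) f y * (starRingEnd ℂ) (Db s M ((b' : ℤ) * q) f y)).re := by
    intro b _ b' _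
    rw [← LL4_pair, Complex.re_sum]
  rw [sum_congr rfl fun b hb => sum_congr rfl fun b' hb' => h8 b hb b' hb']
  have h9 : ∀ y : ℤ, ‖G y‖ ^ 2 = ∑ b ∈ Ioc K (2 * K), ∑ b' ∈ Ioc K (2 * K),
      (Db s M ((b : ℤ) * q) f y * (starRingEnd ℂ) (Db s M ((b' : ℤ) * q) f y)).re := by
    intro y
    have h10 : ‖G y‖ ^ 2 = (G y * (starRingEnd ℂ) (G y)).re := by
      rw [Complex.mul_conj, Complex.ofReal_re, Complex.normSq_eq_norm_sq]
    rw [h10, hG, map_sum, sum_mul_sum, Complex.re_sum]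
    refine sum_congr rfl fun b _ => ?_
    rw [Complex.re_sum]
  rw [sum_congr rfl fun y _ => h9 y, sum_comm]
  refine sum_congr rfl fun b _ => ?_
  rw [sum_comm]

end Pool.Agent.HUK
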