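import Pool.Agent.Lib.HUK.LL1

/-!
# Project HUK, chunk LL5 (M): the last coordinate, by Bezout
-/

open Finset

namespace Pool.Agent.HUK

/-- Bezout with small coefficients: choose `0 ≤ u < b' / γ`, then `u' = (b u - γ j) / b'`, `|u'| ≤ b / γ + γ |j| / b'`. -/
theorem LL5_bez (K b b' : ℕ) (hK : 1 ≤ K) (hb : b ∈ Ioc K (2 * K)) (hb' : b' ∈ Ioc K (2 * K)) (j : ℤ) :
    ∃ u u' : ℤ, (b : ℤ) * u - b' * u' = Nat.gcd b b' * j ∧ |(u : ℝ)| ≤ 2 * K ∧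
      |(u' : ℝ)| ≤ 2 * K + Nat.gcd b b' * |(j : ℝ)| / K := by
  rw [mem_Ioc] at hb hb'
  obtain ⟨γ, hγ⟩ : ∃ γ : ℕ, γ = Nat.gcd b b' := ⟨_, rfl⟩
  have hγ0 : 0 < γ := by
    rw [hγ]
    exact Nat.gcd_pos_of_pos_left _ (by omega)
  obtain ⟨β, hβ⟩ : γ ∣ b := by
    rw [hγ]
    exact Nat.gcd_dvd_left b b'
  obtain ⟨β', hβ'⟩ : γ ∣ b' := by
    rw [hγ]
    exact Nat.gcd_dvd_right b b'
  have hβ'0 : 0 < β' := Nat.pos_of_ne_zero fun h => by
    rw [h, mul_zero] at hβ'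
    omega
  have hββ : β ≤ 2 * K := by
    have : β ≤ γ * β := Nat.le_mul_of_pos_left β hγ0
    omega
  have hββ' : β' ≤ 2 * K := by
    have : β' ≤ γ * β' := Nat.le_mul_of_pos_left β' hγ0
    omega
  have hbez := Nat.gcd_eq_gcd_ab b b'
  rw [← hγ] at hbez
  obtain ⟨x, hx⟩ : ∃ x : ℤ, x = Nat.gcdA b b' := ⟨_, rfl⟩
  obtain ⟨y, hy⟩ : ∃ y : ℤ, y = Nat.gcdB b b' := ⟨_, rfl⟩
  rw [← hx, ← hy] at hbez
  obtain ⟨u, hu⟩ : ∃ u : ℤ, u = (x * j) % β' := ⟨_, rfl⟩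
  obtain ⟨w, hw⟩ : ∃ w : ℤ, w = (x * j) / β' := ⟨_, rfl⟩
  have huw : (β' : ℤ) * w + u = x * j := by
    rw [hu, hw]
    exact Int.mul_ediv_add_emod _ _
  have hβ'z : (0 : ℤ) < β' := by exact_mod_cast hβ'0
  have hu0 : 0 ≤ u := by
    rw [hu]
    exact Int.emod_nonneg _ hβ'z.ne'
  have hu1 : u < β' := by
    rw [hu]
    exact Int.emod_lt_of_pos _ hβ'z
  obtain ⟨u', hu'⟩ : ∃ u' : ℤ, u' = -(β * w + y * j) := ⟨_, rfl⟩
  have hbz : (b : ℤ) = γ * β := by exact_mod_cast hβ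
  have hbz' : (b' : ℤ) = γ * β' := by exact_mod_cast hβ'
  have heq : (b : ℤ) * u - b' * u' = γ * j := by
    have e1 : (γ : ℤ) * j = b * (x * j) + b' * (y * j) := by
      rw [hbez]
      ring
    rw [e1, ← huw, hu', hbz, hbz']
    ring
  refine ⟨u, u', ?_, ?_, ?_⟩
  · rw [← hγ]
    exact heq
  · have h1 : |(u : ℝ)| = u := abs_of_nonneg (by exact_mod_cast hu0)
    rw [h1]
    have h2 : (u : ℤ) ≤ ((2 * K : ℕ) : ℤ) := by
      have : (β' : ℤ) ≤ ((2 * K : ℕ) : ℤ) := by exact_mod_cast hββ'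
      omega
    have h3 : (u : ℝ) ≤ ((2 * K : ℕ) : ℝ) := by exact_mod_cast h2
    push_cast at h3
    exact h3
  · rw [← hγ]
    have hK0 : (0 : ℝ) < K := by exact_mod_cast hK
    have hb'K : (K : ℝ) < b' := by exact_mod_cast hb'.1
    have hb'0 : (0 : ℝ) < b' := hK0.trans hb'K
    have h1 : (b' : ℝ) * u' = b * u - γ * j := by
      have : (b' : ℤ) * u' = b * u - γ * j := by linarith
      exact_mod_cast this
    have h2 : (b' : ℝ) * |(u' : ℝ)| ≤ b * u + γ * |(j : ℝ)| := by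
      have e1 : (b' : ℝ) * |(u' : ℝ)| = |(b' : ℝ) * u'| := by
        rw [abs_mul, abs_of_pos hb'0]
      rw [e1, h1]
      have hu0' : (0 : ℝ) ≤ u := by exact_mod_cast hu0
      calc |(b : ℝ) * u - γ * j| ≤ |(b : ℝ) * u| + |(γ : ℝ) * j| := abs_sub _ _
        _ = b * u + γ * |(j : ℝ)| := by
            rw [abs_of_nonneg (by positivity), abs_mul, abs_of_nonneg (by positivity : (0 : ℝ) ≤ (γ : ℝ))]
    have h3 : (b : ℝ) * u ≤ b' * β := by
      have h4 : (u : ℝ) ≤ β' := by exact_mod_cast hu1.le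
      calc (b : ℝ) * u ≤ b * β' := mul_le_mul_of_nonneg_left h4 (by positivity)
        _ = b' * β := by
          have : (b : ℤ) * β' = b' * β := by
            rw [hbz, hbz']
            ring
          exact_mod_cast this
    have h5 : (b' : ℝ) * |(u' : ℝ)| ≤ b' * (2 * K + γ * |(j : ℝ)| / K) := by
      have h6 : (β : ℝ) ≤ 2 * K := by exact_mod_cast hββ
      have h7 : (γ : ℝ) * |(j : ℝ)| ≤ b' * (γ * |(j : ℝ)| / K) := by
        rw [mul_div_assoc', le_div_iff₀ hK0]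
        have : (0 : ℝ) ≤ γ * |(j : ℝ)| := by positivity
        nlinarith
      calc (b' : ℝ) * |(u' : ℝ)| ≤ b * u + γ * |(j : ℝ)| := h2
        _ ≤ b' * β + b' * (γ * |(j : ℝ)| / K) := add_le_add h3 h7
        _ ≤ b' * (2 * K) + b' * (γ * |(j : ℝ)| / K) := by
            have := mul_le_mul_of_nonneg_left h6 hb'0.le
            linarith
        _ = b' * (2 * K + γ * |(j : ℝ)| / K) := by ring
    exact le_of_mul_le_mul_left h5 hb'0

/-- The sum of a function supported in a window over a window shifted by a small amount. -/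
theorem ll5_win (A B A' B' b : ℤ) (F : ℤ → ℂ) (hF : ∀ y, y ∉ Ico A B → F y = 0) (hA : A' + b ≤ A) (hB : B ≤ B' + b) :
    ∑ y ∈ Ico A B, F y = ∑ z ∈ Ico A' B', F (z + b) := by
  rw [Finset.sum_Ico_add' F A' B' b]
  refine Finset.sum_subset (Finset.Ico_subset_Ico hA hB) fun y _ hy => hF y hy

/-- The square of the average `G(y) = (∑_{i<R} g(y + d i)) / R`: `avg_{i,i'} ∑_y g(y) conj g(y + n + d (i - i')) =
∑_{y ∈ [-2X,2X)} G(y) conj G(y + n)`, real part at most `∑_{y ∈ ℤ} ‖G(y)‖² = TQ X R d 0 g` (Cauchy-Schwarz or `2 ‖a‖ ‖b‖ ≤ ‖a‖² + ‖b‖²`;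
`G` is supported in `[-2X, X)`, `mq2_shiftsum` for the translate). -/
theorem LL5_sq (X R : ℕ) (hR : 1 ≤ R) (d : ℕ) (hd : d * R ≤ X) (g : ℤ → ℂ) (hg : Bdd X g) (n : ℤ) :
    ((∑ i ∈ range R, ∑ i' ∈ range R, ∑ y ∈ Ico (-(X : ℤ)) X, DD (n + d * ((i : ℤ) - i')) g y) / (R : ℂ) ^ 2).re ≤
      TQ X R d 0 g := by
  obtain ⟨G, hG⟩ : ∃ G : ℤ → ℂ, G = fun y => (∑ i ∈ range R, g (y + d * i)) / R := ⟨_, rfl⟩
  have hR0 : (R : ℂ) ≠ 0 := by
    have : R ≠ 0 := by omega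
    exact_mod_cast this
  have hdi : ∀ i ∈ range R, (0 : ℤ) ≤ d * (i : ℤ) ∧ (d : ℤ) * (i : ℤ) ≤ X := by
    intro i hi
    rw [mem_range] at hi
    refine ⟨by positivity, ?_⟩
    have h1 : d * i ≤ d * R := Nat.mul_le_mul_left d hi.le
    have h2 : d * i ≤ X := h1.trans hd
    exact_mod_cast h2
  have h1 : ∀ i ∈ range R, ∀ i' ∈ range R, ∑ y ∈ Ico (-(X : ℤ)) X, DD (n + d * ((i : ℤ) - i')) g y =
      ∑ z ∈ Ico (-(2 * X : ℤ)) (2 * X), g (z + d * i') * (starRingEnd ℂ) (g (z + n + d * i)) := by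
    intro i hi i' hi'
    obtain ⟨h2, h3⟩ := hdi i' hi'
    rw [ll5_win (-(X : ℤ)) X (-(2 * X : ℤ)) (2 * X) (d * i') (DD (n + d * ((i : ℤ) - i')) g) (by
      intro y hy
      rw [DD, hg.sup y hy, zero_mul]) (by omega) (by omega)]
    refine Finset.sum_congr rfl fun z _ => ?_
    rw [DD]
    congr 3
    ring
  have h4 : (∑ i ∈ range R, ∑ i' ∈ range R, ∑ y ∈ Ico (-(X : ℤ)) X, DD (n + d * ((i : ℤ) - i')) g y) / (R : ℂ) ^ 2 =
      ∑ z ∈ Ico (-(2 * X : ℤ)) (2 * X), G z * (starRingEnd ℂ) (G (z + n)) := by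
    rw [Finset.sum_congr rfl fun i hi => Finset.sum_congr rfl fun i' hi' => h1 i hi i' hi']
    rw [Finset.sum_congr rfl fun i _ => Finset.sum_comm, Finset.sum_comm, Finset.sum_div]
    refine Finset.sum_congr rfl fun z _ => ?_
    rw [hG]
    simp only [map_div₀, map_sum, Complex.conj_natCast]
    rw [div_mul_div_comm, ← pow_two, Finset.sum_mul_sum, Finset.sum_comm]
  rw [h4, Complex.re_sum]
  have h5 : TQ X R d 0 g = ∑ z ∈ Ico (-(2 * X : ℤ)) (2 * X), ‖G z‖ ^ 2 := by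
    rw [TQ]
    refine Finset.sum_congr rfl fun z _ => ?_
    rw [hG]
    simp only [zero_mul, Pool.Agent.H44W.ee_zero, mul_one]
  rw [h5]
  have h6 : ∀ z ∈ Ico (-(2 * X : ℤ)) (2 * X), (G z * (starRingEnd ℂ) (G (z + n))).re ≤
      (‖G z‖ ^ 2 + ‖G (z + n)‖ ^ 2) / 2 := by
    intro z _
    have h7 : (G z * (starRingEnd ℂ) (G (z + n))).re ≤ ‖G z‖ * ‖G (z + n)‖ := by
      refine (Complex.re_le_norm _).trans ?_
      rw [norm_mul, RCLike.norm_conj]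
    nlinarith [sq_nonneg (‖G z‖ - ‖G (z + n)‖)]
  refine (Finset.sum_le_sum h6).trans ?_
  rw [← Finset.sum_div, Finset.sum_add_distrib]
  have h8 : ∑ z ∈ Ico (-(2 * X : ℤ)) (2 * X), ‖G (z + n)‖ ^ 2 ≤ ∑ z ∈ Ico (-(2 * X : ℤ)) (2 * X), ‖G z‖ ^ 2 := by
    refine mq2_shiftsum (fun z => ‖G z‖ ^ 2) (fun _ => by positivity) _ _ n fun y hy => ?_
    have h9 : G y = 0 := by
      rw [hG]
      show (∑ i ∈ range R, g (y + d * i)) / R = 0
      rw [Finset.sum_eq_zero, zero_div]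
      intro i hi
      obtain ⟨h2, h3⟩ := hdi i hi
      refine hg.sup _ fun h => hy ?_
      rw [mem_Ico] at h ⊢
      omega
    show ‖G y‖ ^ 2 = 0
    rw [h9, norm_zero]
    norm_num
  linarith

/-- **Last coordinate.** `F(t, t') = ∑_y DD (q (b t - b' t')) g y`, `‖F‖ ≤ 2X`. For `j = i - i'`, `i, i' < R`, take `u, u'` from
`LL5_bez`: `F(t + u, t' + u')` has the difference `q (b t - b' t') + q γ j`; by `LL1_fej2` the average of `F` over `(t, t')` changes by at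
most `2X * 2 (|u| + |u'|) / M ≤ 4 X (4 K + γ R / K) / M`. Average over `i, i'`, then `LL5_sq` for each `(t, t')` (weights `fw ≥ 0`,
total weight `1`). -/
theorem LL5_last (X M K R b b' q : ℕ) (hM : 1 ≤ M) (hK : 1 ≤ K) (hR : 1 ≤ R) (hb : b ∈ Ioc K (2 * K))
    (hb' : b' ∈ Ioc K (2 * K)) (hq : q * Nat.gcd b b' * R ≤ X) (g : ℤ → ℂ) (hg : Bdd X g) :
    ((∑ t ∈ Ioo (-(M : ℤ)) M, ∑ t' ∈ Ioo (-(M : ℤ)) M, ((fw M t * fw M t' : ℝ) : ℂ) *
      ∑ y ∈ Ico (-(X : ℤ)) X, DD ((q : ℤ) * (b * t - b' * t')) g y) / (M : ℂ) ^ 2).re ≤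
      TQ X R (q * Nat.gcd b b' : ℕ) 0 g + 4 * X * ((4 * K + Nat.gcd b b' * R / K) / M) := by
  have hM0 : (0 : ℝ) < M := by exact_mod_cast hM
  have hK0 : (0 : ℝ) < K := by exact_mod_cast hK
  have hR0 : (0 : ℝ) < R := by exact_mod_cast hR
  obtain ⟨γ, hγ⟩ : ∃ γ : ℕ, γ = Nat.gcd b b' := ⟨_, rfl⟩
  obtain ⟨F, hF⟩ : ∃ F : ℤ → ℤ → ℂ, F = fun t t' => ∑ y ∈ Ico (-(X : ℤ)) X, DD ((q : ℤ) * (b * t - b' * t')) g y := ⟨_, rfl⟩
  have hFle : ∀ t t', ‖F t t'‖ ≤ 2 * X := by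
    intro t t'
    rw [hF]
    refine (norm_sum_le _ _).trans ?_
    refine (Finset.sum_le_sum (g := fun _ => (1 : ℝ)) fun y _ => ?_).trans ?_
    · rw [DD, norm_mul, RCLike.norm_conj]
      exact mul_le_one₀ (hg.le _) (norm_nonneg _) (hg.le _)
    · rw [Finset.sum_const, nsmul_eq_mul, mul_one, Int.card_Ico]
      have e : ((X : ℤ) - -(X : ℤ)).toNat = 2 * X := by omega
      rw [e]
      push_cast
      exact le_rfl
  obtain ⟨A, hA⟩ : ∃ A : (ℤ → ℤ → ℂ) → ℂ, A = fun H => (∑ t ∈ Ioo (-(M : ℤ)) M, ∑ t' ∈ Ioo (-(M : ℤ)) M,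
    ((fw M t * fw M t' : ℝ) : ℂ) * H t t') / (M : ℂ) ^ 2 := ⟨_, rfl⟩
  have hgoal : (∑ t ∈ Ioo (-(M : ℤ)) M, ∑ t' ∈ Ioo (-(M : ℤ)) M, ((fw M t * fw M t' : ℝ) : ℂ) *
      ∑ y ∈ Ico (-(X : ℤ)) X, DD ((q : ℤ) * (b * t - b' * t')) g y) / (M : ℂ) ^ 2 = A F := by
    rw [hA, hF]
  rw [hgoal, ← hγ]
  -- one pair `i, i'`
  have h1 : ∀ i ∈ range R, ∀ i' ∈ range R, (A F).re ≤ (A fun t t' => ∑ y ∈ Ico (-(X : ℤ)) X,
      DD ((q : ℤ) * (b * t - b' * t') + (q * γ : ℕ) * ((i : ℤ) - i')) g y).re + 4 * X * ((4 * K + γ * R / K) / M) := by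
    intro i hi i' hi'
    rw [mem_range] at hi hi'
    obtain ⟨u, u', hu1, hu2, hu3⟩ := LL5_bez K b b' hK hb hb' ((i : ℤ) - i')
    rw [← hγ] at hu1 hu3
    have h2 := LL1_fej2 M hM (2 * X) F hFle u u'
    have e1 : (fun t t' : ℤ => F (t + u) (t' + u')) = fun t t' => ∑ y ∈ Ico (-(X : ℤ)) X,
        DD ((q : ℤ) * (b * t - b' * t') + (q * γ : ℕ) * ((i : ℤ) - i')) g y := by
      funext t t'
      rw [hF]
      refine Finset.sum_congr rfl fun y _ => ?_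
      congr 1
      push_cast
      linear_combination (q : ℤ) * hu1
    have h3 : ‖A (fun t t' : ℤ => F (t + u) (t' + u')) - A F‖ ≤ 2 * X * (2 * (|(u : ℝ)| + |(u' : ℝ)|) / M) := by
      rw [hA]
      exact h2
    have h4 : (A F).re ≤ (A (fun t t' : ℤ => F (t + u) (t' + u'))).re + 2 * X * (2 * (|(u : ℝ)| + |(u' : ℝ)|) / M) := by
      have h5 : (A F - A (fun t t' : ℤ => F (t + u) (t' + u'))).re ≤
          ‖A (fun t t' : ℤ => F (t + u) (t' + u')) - A F‖ := by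
        rw [norm_sub_rev]
        exact Complex.re_le_norm _
      rw [Complex.sub_re] at h5
      linarith
    rw [e1] at h4
    refine h4.trans (add_le_add le_rfl ?_)
    have h6 : |(((i : ℤ) - i' : ℤ) : ℝ)| ≤ R := by
      push_cast
      rw [abs_le]
      have h7 : (i : ℝ) < R := by exact_mod_cast hi
      have h8 : (i' : ℝ) < R := by exact_mod_cast hi'
      have h9 : (0 : ℝ) ≤ i := Nat.cast_nonneg _
      have h10 : (0 : ℝ) ≤ i' := Nat.cast_nonneg _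
      constructor <;> linarith
    have h7 : |(u : ℝ)| + |(u' : ℝ)| ≤ 4 * K + γ * R / K := by
      have h8 : (γ : ℝ) * |(((i : ℤ) - i' : ℤ) : ℝ)| / K ≤ γ * R / K := by
        refine div_le_div_of_nonneg_right ?_ hK0.le
        exact mul_le_mul_of_nonneg_left h6 (Nat.cast_nonneg _)
      linarith
    calc 2 * X * (2 * (|(u : ℝ)| + |(u' : ℝ)|) / M) = 4 * X * ((|(u : ℝ)| + |(u' : ℝ)|) / M) := by ring
      _ ≤ 4 * X * ((4 * K + γ * R / K) / M) := by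
          refine mul_le_mul_of_nonneg_left ?_ (by positivity)
          exact div_le_div_of_nonneg_right h7 hM0.le
  -- average
  have h2 : (R : ℝ) ^ 2 * (A F).re ≤ ∑ i ∈ range R, ∑ i' ∈ range R, ((A fun t t' => ∑ y ∈ Ico (-(X : ℤ)) X,
      DD ((q : ℤ) * (b * t - b' * t') + (q * γ : ℕ) * ((i : ℤ) - i')) g y).re + 4 * X * ((4 * K + γ * R / K) / M)) := by
    calc (R : ℝ) ^ 2 * (A F).re = ∑ i ∈ range R, ∑ i' ∈ range R, (A F).re := by
          rw [Finset.sum_const, Finset.sum_const, card_range, nsmul_eq_mul, nsmul_eq_mul]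
          ring
      _ ≤ _ := Finset.sum_le_sum fun i hi => Finset.sum_le_sum fun i' hi' => h1 i hi i' hi'
  have h3 : ∑ i ∈ range R, ∑ i' ∈ range R, ((A fun t t' => ∑ y ∈ Ico (-(X : ℤ)) X,
      DD ((q : ℤ) * (b * t - b' * t') + (q * γ : ℕ) * ((i : ℤ) - i')) g y).re + 4 * X * ((4 * K + γ * R / K) / M)) =
      (R : ℝ) ^ 2 * ((∑ t ∈ Ioo (-(M : ℤ)) M, ∑ t' ∈ Ioo (-(M : ℤ)) M, fw M t * fw M t' *
        ((∑ i ∈ range R, ∑ i' ∈ range R, ∑ y ∈ Ico (-(X : ℤ)) X,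
          DD ((q : ℤ) * (b * t - b' * t') + (q * γ : ℕ) * ((i : ℤ) - i')) g y) / (R : ℂ) ^ 2).re) / (M : ℝ) ^ 2) +
      (R : ℝ) ^ 2 * (4 * X * ((4 * K + γ * R / K) / M)) := by
    rw [Finset.sum_congr rfl fun i _ => Finset.sum_add_distrib, Finset.sum_add_distrib]
    congr 1
    · have h4 : ∀ i i' : ℕ, (A fun t t' => ∑ y ∈ Ico (-(X : ℤ)) X,
          DD ((q : ℤ) * (b * t - b' * t') + (q * γ : ℕ) * ((i : ℤ) - i')) g y).re =
          (∑ t ∈ Ioo (-(M : ℤ)) M, ∑ t' ∈ Ioo (-(M : ℤ)) M, fw M t * fw M t' *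
            (∑ y ∈ Ico (-(X : ℤ)) X, DD ((q : ℤ) * (b * t - b' * t') + (q * γ : ℕ) * ((i : ℤ) - i')) g y).re) /
              (M : ℝ) ^ 2 := by
        intro i i'
        rw [hA]
        have e2 : ((M : ℂ) ^ 2) = (((M : ℝ) ^ 2 : ℝ) : ℂ) := by
          push_cast
          rfl
        show (_ / (M : ℂ) ^ 2).re = _
        rw [e2, Complex.div_ofReal_re, Complex.re_sum]
        congr 1
        refine Finset.sum_congr rfl fun t _ => ?_
        rw [Complex.re_sum]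
        refine Finset.sum_congr rfl fun t' _ => ?_
        rw [Complex.re_ofReal_mul]
      rw [Finset.sum_congr rfl fun i _ => Finset.sum_congr rfl fun i' _ => h4 i i']
      rw [Finset.sum_congr rfl fun i _ => (Finset.sum_div _ _ _).symm, ← Finset.sum_div, mul_div_assoc']
      congr 1
      rw [Finset.sum_congr rfl fun i _ => Finset.sum_comm, Finset.sum_comm, Finset.mul_sum]
      refine Finset.sum_congr rfl fun t _ => ?_
      rw [Finset.sum_congr rfl fun i _ => Finset.sum_comm, Finset.sum_comm, Finset.mul_sum]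
      refine Finset.sum_congr rfl fun t' _ => ?_
      have e3 : ((R : ℂ) ^ 2) = (((R : ℝ) ^ 2 : ℝ) : ℂ) := by
        push_cast
        rfl
      rw [e3, Complex.div_ofReal_re, Complex.re_sum, mul_div_assoc', mul_div_cancel₀ _ (by positivity : (R : ℝ) ^ 2 ≠ 0),
        Finset.mul_sum]
      refine Finset.sum_congr rfl fun i _ => ?_
      rw [Complex.re_sum, Finset.mul_sum]
    · rw [Finset.sum_const, Finset.sum_const, card_range, nsmul_eq_mul, nsmul_eq_mul]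
      ring
  have h4 : (∑ t ∈ Ioo (-(M : ℤ)) M, ∑ t' ∈ Ioo (-(M : ℤ)) M, fw M t * fw M t' *
        ((∑ i ∈ range R, ∑ i' ∈ range R, ∑ y ∈ Ico (-(X : ℤ)) X,
          DD ((q : ℤ) * (b * t - b' * t') + (q * γ : ℕ) * ((i : ℤ) - i')) g y) / (R : ℂ) ^ 2).re) / (M : ℝ) ^ 2 ≤
      TQ X R (q * γ : ℕ) 0 g := by
    rw [div_le_iff₀ (by positivity)]
    have h5 : ∑ t ∈ Ioo (-(M : ℤ)) M, ∑ t' ∈ Ioo (-(M : ℤ)) M, fw M t * fw M t' *
        ((∑ i ∈ range R, ∑ i' ∈ range R, ∑ y ∈ Ico (-(X : ℤ)) X,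
          DD ((q : ℤ) * (b * t - b' * t') + (q * γ : ℕ) * ((i : ℤ) - i')) g y) / (R : ℂ) ^ 2).re ≤
        ∑ t ∈ Ioo (-(M : ℤ)) M, ∑ t' ∈ Ioo (-(M : ℤ)) M, fw M t * fw M t' * TQ X R (q * γ : ℕ) 0 g := by
      refine Finset.sum_le_sum fun t _ => Finset.sum_le_sum fun t' _ => ?_
      refine mul_le_mul_of_nonneg_left ?_ (mul_nonneg (mq1_fw_nonneg _ _) (mq1_fw_nonneg _ _))
      exact LL5_sq X R hR (q * γ) (by rw [hγ]; exact hq) g hg _
    refine h5.trans (le_of_eq ?_)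
    have h6 := mq1_fw_sum M hM
    calc ∑ t ∈ Ioo (-(M : ℤ)) M, ∑ t' ∈ Ioo (-(M : ℤ)) M, fw M t * fw M t' * TQ X R (q * γ : ℕ) 0 g
        = (∑ t ∈ Ioo (-(M : ℤ)) M, fw M t) * (∑ t' ∈ Ioo (-(M : ℤ)) M, fw M t') * TQ X R (q * γ : ℕ) 0 g := by
          rw [Finset.sum_mul_sum, Finset.sum_mul]
          refine Finset.sum_congr rfl fun t _ => ?_
          rw [Finset.sum_mul]
      _ = TQ X R (q * γ : ℕ) 0 g * (M : ℝ) ^ 2 := by
          rw [h6]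
          ring
  have h5 : (R : ℝ) ^ 2 * (A F).re ≤ (R : ℝ) ^ 2 * (TQ X R (q * γ : ℕ) 0 g + 4 * X * ((4 * K + γ * R / K) / M)) := by
    rw [h3] at h2
    have h6 := mul_le_mul_of_nonneg_left h4 (by positivity : (0 : ℝ) ≤ (R : ℝ) ^ 2)
    linarith
  exact le_of_mul_le_mul_left h5 (by positivity)

end Pool.Agent.HUK
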