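import Pool.Agent.Lib.HUK.LL3
import Pool.Agent.Lib.HUK.LL5

/-!
# Project HUK, chunk LL7a (M): one pair of directions, preparations
-/

open Finset

namespace Pool.Agent.HUK

private theorem ll7_DL {l : List ℤ} (a : ℤ) (g : ℤ → ℂ) : DL l (fun y => g (y + a)) = fun y => DL l g (y + a) := by
  induction l generalizing g with
  | nil => rfl
  | cons h l ih =>
    show DL l (DD h (fun y => g (y + a))) = fun y => DL l (DD h g) (y + a)
    rw [← ih (DD h g)]
    congr 1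
    funext y
    show g (y + a) * (starRingEnd ℂ) (g (y + h + a)) = g (y + a) * (starRingEnd ℂ) (g (y + a + h))
    rw [show y + h + a = y + a + h by ring]

private theorem ll7_FF (X X' s : ℕ) (a : ℤ) (h : Fin s → ℤ) (g : ℤ → ℂ) (hg : ∀ y, y ∉ Ico (-(X : ℤ)) X → g y = 0)
    (hg' : ∀ y, y ∉ Ico (-(X' : ℤ)) X' → g (y + a) = 0) : FF X' h (fun y => g (y + a)) = FF X h g := by
  unfold FF DV
  rw [ll7_DL]
  refine Finset.sum_bij_ne_zero (fun z _ _ => z + a) ?_ ?_ ?_ ?_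
  · intro z _ hne
    by_contra hc
    exact hne (DL_supp _ g _ (hg _ hc))
  · intro z _ _ w _ _ hzw
    have : z + a = w + a := hzw
    omega
  · intro z _ hne
    refine ⟨z - a, ?_, ?_, ?_⟩
    · by_contra hc
      apply hne
      have := hg' _ hc
      rw [sub_add_cancel] at this
      exact DL_supp _ g _ this
    · show DL _ g (z - a + a) ≠ 0
      rwa [sub_add_cancel]
    · show z - a + a = z
      ring
  · intro z _ _
    rfl

private theorem ll7_sg (s : ℕ) : sg (zv s) = 0 := by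
  unfold sg zv
  simp

private theorem ll7_bx0 (M : ℕ) : bxS 0 M = {fun i => i.elim0} := by
  ext x
  simp only [bxS, Fintype.mem_piFinset, mem_singleton]
  constructor
  · intro _
    funext i
    exact i.elim0
  · intro _ i
    exact i.elim0

private theorem ll7_TT0 (X M : ℕ) (β β' : ℤ) (U U' : (Fin 0 → Bool) → ℤ → ℂ) :
    TT X M β β' U U' = ∑ y ∈ Ico (-(X : ℤ)) X, U (zv 0) y * U' (zv 0) y := by
  have hPV : ∀ (γ : ℤ) (V : (Fin 0 → Bool) → ℤ → ℂ) (t : Fin 0 → ℤ) (y : ℤ), PV γ V t y = V (zv 0) y := by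
    intro γ V t y
    unfold PV
    rw [Fintype.prod_eq_single (zv 0) (fun ω hω => absurd (Subsingleton.elim ω (zv 0)) hω)]
    simp [vt]
  unfold TT
  rw [ll7_bx0]
  simp only [sum_singleton, hPV, FW, univ_eq_empty, prod_empty, mul_one, Complex.ofReal_one, one_mul, mul_zero, pow_zero,
    div_one]

/-- Translation (as `GG_shift`; `FF X (h) g = ∑_{y ∈ ℤ} DV h g y` whenever `g` is supported in `[-X, X)`, `DL_supp`). -/
theorem LL7_shift (X X' s H : ℕ) (d a : ℤ) (g : ℤ → ℂ) (hg : ∀ y, y ∉ Ico (-(X : ℤ)) X → g y = 0)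
    (hg' : ∀ y, y ∉ Ico (-(X' : ℤ)) X' → g (y + a) = 0) : NU X' s H d (fun y => g (y + a)) = NU X s H d g := by
  unfold NU
  congr 2
  exact Finset.sum_congr rfl fun t _ => by rw [ll7_FF X X' s a _ g hg hg']

/-- The product at the vertex `0`: `conj f(y + β t) f(y + β' t') = DD (β t - β' t') f (y + β' t')` (`sg (zv s) = 0`). -/
theorem LL7_Uf (s : ℕ) (f : ℤ → ℂ) (z z' y : ℤ) :
    Uf (s := s) f z (zv s) y * cU (Uf (s := s) f z') (zv s) y = DD (z - z') f (y + z') := by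
  unfold cU Uf
  rw [if_pos rfl, ll7_sg, one_mul, one_mul, zero_add]
  have h1 : ∀ w : ℂ, cj 1 w = (starRingEnd ℂ) w := by
    intro w
    unfold cj
    rw [if_neg (by decide)]
  rw [h1, h1, Complex.conj_conj]
  show (starRingEnd ℂ) (f (y + z)) * f (y + z') = f (y + z') * (starRingEnd ℂ) (f (y + z' + (z - z')))
  rw [show y + z' + (z - z') = y + z by ring, mul_comm]

/-- `s = 0`: `TT` is `∑_y Uf .. * cU .. = ∑_{y ∈ [-X,X)} DD (q (b t - b' t')) f y` (`LL7_Uf`, translation by `b' q t'`, `|b q t| ≤ X`), then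
`LL5_last` with `g = f`, and `MQ_one`. -/
theorem LL7_zero (X M K R b b' q : ℕ) (hM : 1 ≤ M) (hK : 1 ≤ K) (hR : 1 ≤ R) (hb : b ∈ Ioc K (2 * K))
    (hb' : b' ∈ Ioc K (2 * K)) (hq : q * Nat.gcd b b' * R ≤ X) (hKM : 2 * q * K * M ≤ X) (f : ℤ → ℂ) (hf : Bdd X f) :
    SPd X 0 M (b * q) (b' * q) f ≤ (MQ X [(R, ((q * Nat.gcd b b' : ℕ) : ℤ))] f).re +
      4 * X * ((4 * K + Nat.gcd b b' * R / K) / M) := by
  have hγ : ((q * Nat.gcd b b' : ℕ) : ℤ) * R ≤ X := by exact_mod_cast hq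
  rw [MQ_one X R hR _ (by positivity) hγ f hf.sup, Complex.ofReal_re]
  refine le_trans (le_of_eq ?_) (LL5_last X M K R b b' q hM hK hR hb hb' hq f hf)
  unfold SPd
  congr 2
  refine Finset.sum_congr rfl fun t _ => Finset.sum_congr rfl fun t' ht' => ?_
  congr 1
  rw [ll7_TT0]
  have hb2 : ((b' * q : ℤ) * t') ≤ X ∧ -(X : ℤ) ≤ ((b' * q : ℤ) * t') := by
    rw [mem_Ioo] at ht'
    rw [mem_Ioc] at hb'
    have h1 : (b' : ℤ) * q * M ≤ X := by
      have h2 : b' * q * M ≤ 2 * q * K * M := by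
        have h3 : b' * q ≤ 2 * K * q := Nat.mul_le_mul_right q hb'.2
        calc b' * q * M ≤ 2 * K * q * M := Nat.mul_le_mul_right M h3
          _ = 2 * q * K * M := by ring
      exact_mod_cast h2.trans hKM
    have h0 : (0 : ℤ) ≤ (b' : ℤ) * q := by positivity
    constructor
    · exact (mul_le_mul_of_nonneg_left ht'.2.le h0).trans h1
    · have h4 := mul_le_mul_of_nonneg_left ht'.1.le h0
      linarith
  have h5 : ∑ y ∈ Ico (-(X : ℤ)) X, DD ((q : ℤ) * (b * t - b' * t')) f y =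
      ∑ z ∈ Ico (-(2 * X : ℤ)) (2 * X), DD ((q : ℤ) * (b * t - b' * t')) f (z + (b' * q : ℤ) * t') :=
    ll5_win (-(X : ℤ)) X (-(2 * X : ℤ)) (2 * X) ((b' * q : ℤ) * t') (DD ((q : ℤ) * (b * t - b' * t')) f)
      (mq1_DD_supp hf.sup _) (by linarith [hb2.1]) (by linarith [hb2.2])
  rw [h5]
  push_cast
  refine Finset.sum_congr rfl fun y _ => ?_
  rw [LL7_Uf 0 f ((b : ℤ) * q * t) ((b' : ℤ) * q * t') y]
  rw [show (b : ℤ) * q * t - (b' : ℤ) * q * t' = (q : ℤ) * (b * t - b' * t') by ring]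

end Pool.Agent.HUK
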