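import Pool.Agent.Lib.HUK.MQ2

/-!
# Project HUK, definitions for the chunks LL1 .. LL9 (pair trick, `PROOF.md` 2.7, by recursion over the coordinates)
-/

open Finset

namespace Pool.Agent.HUK

noncomputable section

/-- Product over the vertices `ω` of `U ω` at `y + β (ω · t)`. -/
def PV {s : ℕ} (β : ℤ) (U : (Fin s → Bool) → ℤ → ℂ) (t : Fin s → ℤ) (y : ℤ) : ℂ :=
  ∏ ω : Fin s → Bool, U ω (y + β * vt ω t)

/-- Average over two boxes with the directions `β`, `β'`. The product of the vertices `0` is supported in `[-X, X)`. -/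
def TT (X M : ℕ) {s : ℕ} (β β' : ℤ) (U U' : (Fin s → Bool) → ℤ → ℂ) : ℂ :=
  (∑ t ∈ bxS s M, ∑ t' ∈ bxS s M, ((FW M t * FW M t' : ℝ) : ℂ) *
    ∑ y ∈ Ico (-(X : ℤ)) X, PV β U t y * PV β' U' t' y) / (M : ℂ) ^ (2 * s)

/-- The vertex `(0, .., 0)`. -/
def zv (s : ℕ) : Fin s → Bool := fun _ => false

/-- The vertices `(0, ω)` and `(1, ω)` of the cube without the vertex `(0, 0)`, first coordinate `z`. -/
def Uf {s : ℕ} (f : ℤ → ℂ) (z : ℤ) (ω : Fin s → Bool) (y : ℤ) : ℂ :=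
  (if ω = zv s then 1 else cj (sg ω) (f y)) * cj (sg ω + 1) (f (y + z))

/-- The dual function: `NU X (s + 1) M β f = (∑_y f(y) Db(y)).re`. -/
def Db (s M : ℕ) (β : ℤ) (f : ℤ → ℂ) (y : ℤ) : ℂ :=
  (∑ t0 ∈ Ioo (-(M : ℤ)) M, ((fw M t0 : ℝ) : ℂ) * ∑ t ∈ bxS s M, ((FW M t : ℝ) : ℂ) * PV β (Uf (s := s) f (β * t0)) t y) /
    (M : ℂ) ^ (s + 1)

/-- Conjugate of a family. -/
def cU {s : ℕ} (U : (Fin s → Bool) → ℤ → ℂ) : (Fin s → Bool) → ℤ → ℂ := fun ω y => (starRingEnd ℂ) (U ω y)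

/-- The correlation of the dual functions for the directions `β` and `β'`. -/
def SPd (X s M : ℕ) (β β' : ℤ) (f : ℤ → ℂ) : ℝ :=
  ((∑ t ∈ Ioo (-(M : ℤ)) M, ∑ t' ∈ Ioo (-(M : ℤ)) M, ((fw M t * fw M t' : ℝ) : ℂ) *
    TT (2 * X) M β β' (Uf (s := s) f (β * t)) (cU (Uf (s := s) f (β' * t')))) / (M : ℂ) ^ 2).re

end

end Pool.Agent.HUK
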