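import Pool.Agent.Lib.HUK.P1

/-!
# Project HUK, chunk MQ1 (M): mixed averages `MQ`, mean squares `TQ`
-/

open Finset

namespace Pool.Agent.HUK

open Pool.Agent.H44W (ee)

/-! ### Auxiliary lemmas -/

theorem mq1_ioo (M : ℕ) (F : ℤ → ℂ) : ∑ n ∈ Ioo (-((M + 1 : ℕ) : ℤ)) ((M + 1 : ℕ) : ℤ), F n =
    F 0 + ∑ j ∈ range M, (F ((j : ℤ) + 1) + F (-((j : ℤ) + 1))) := by
  induction M with
  | zero =>
    have h : Ioo (-((0 + 1 : ℕ) : ℤ)) ((0 + 1 : ℕ) : ℤ) = {0} := by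
      ext x; simp only [mem_Ioo, mem_singleton]; push_cast; omega
    rw [h]; simp
  | succ M ih =>
    have h : Ioo (-((M + 1 + 1 : ℕ) : ℤ)) ((M + 1 + 1 : ℕ) : ℤ) =
        insert ((M : ℤ) + 1) (insert (-((M : ℤ) + 1)) (Ioo (-((M + 1 : ℕ) : ℤ)) ((M + 1 : ℕ) : ℤ))) := by
      ext x; simp only [mem_Ioo, mem_insert]; push_cast; omega
    rw [h, sum_insert (by simp only [mem_insert, mem_Ioo]; push_cast; omega),
      sum_insert (by simp only [mem_Ioo]; push_cast; omega), ih, sum_range_succ]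
    ring

theorem mq1_refl (M : ℕ) (F : ℤ → ℂ) : ∑ j ∈ range M, F ((M : ℤ) - j) = ∑ j ∈ range M, F ((j : ℤ) + 1) := by
  induction M with
  | zero => simp
  | succ M ih =>
    rw [sum_range_succ', sum_range_succ, ← ih]
    have e1 : ∀ j : ℕ, F (((M + 1 : ℕ) : ℤ) - ((j + 1 : ℕ) : ℤ)) = F ((M : ℤ) - j) := by
      intro j; congr 1; push_cast; ring
    have e2 : F (((M + 1 : ℕ) : ℤ) - ((0 : ℕ) : ℤ)) = F ((M : ℤ) + 1) := by
      congr 1
    rw [e2, sum_congr rfl fun j _ => e1 j]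

theorem mq1_pairs (M : ℕ) (H : ℤ → ℂ) : ∑ j ∈ range M, ∑ i ∈ range M, H ((i : ℤ) - j) =
    ∑ n ∈ Ioo (-(M : ℤ)) M, ((M : ℂ) - ((|n| : ℤ) : ℂ)) * H n := by
  induction M with
  | zero => simp
  | succ M ih =>
    have h1 : ∑ n ∈ Ioo (-((M + 1 : ℕ) : ℤ)) ((M + 1 : ℕ) : ℤ), (((M + 1 : ℕ) : ℂ) - ((|n| : ℤ) : ℂ)) * H n =
        ∑ n ∈ Ioo (-((M + 1 : ℕ) : ℤ)) ((M + 1 : ℕ) : ℤ), ((M : ℂ) - ((|n| : ℤ) : ℂ)) * H n +
        ∑ n ∈ Ioo (-((M + 1 : ℕ) : ℤ)) ((M + 1 : ℕ) : ℤ), H n := by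
      rw [← sum_add_distrib]
      apply sum_congr rfl; intro n _; push_cast; ring
    have h2 : ∑ n ∈ Ioo (-((M + 1 : ℕ) : ℤ)) ((M + 1 : ℕ) : ℤ), ((M : ℂ) - ((|n| : ℤ) : ℂ)) * H n =
        ∑ n ∈ Ioo (-(M : ℤ)) M, ((M : ℂ) - ((|n| : ℤ) : ℂ)) * H n := by
      symm
      apply sum_subset
      · intro x hx; rw [mem_Ioo] at hx ⊢; push_cast; omega
      · intro x hx hx'
        rw [mem_Ioo] at hx hx'
        have h3 : |x| = (M : ℤ) := by
          push_cast at hx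
          rcases abs_cases x with h | h <;> omega
        rw [h3]; simp
    rw [h1, h2, ← ih, mq1_ioo, sum_add_distrib, sum_range_succ]
    have h5 : ∑ j ∈ range M, ∑ i ∈ range (M + 1), H ((i : ℤ) - j) =
        ∑ j ∈ range M, ∑ i ∈ range M, H ((i : ℤ) - j) + ∑ j ∈ range M, H ((j : ℤ) + 1) := by
      rw [sum_congr rfl fun (j : ℕ) _ => sum_range_succ (fun i : ℕ => H ((i : ℤ) - j)) M, sum_add_distrib, mq1_refl M H]
    rw [h5, sum_range_succ]
    have h4 : ∑ i ∈ range M, H ((i : ℤ) - M) = ∑ j ∈ range M, H (-((j : ℤ) + 1)) := by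
      rw [← mq1_refl M (fun n => H (-n))]
      apply sum_congr rfl; intro j _; congr 1; ring
    rw [h4, sub_self]
    ring

theorem mq1_fw (M : ℕ) (hM : 1 ≤ M) {n : ℤ} (hn : n ∈ Ioo (-(M : ℤ)) M) :
    (M : ℂ) * ((fw M n : ℝ) : ℂ) = (M : ℂ) - ((|n| : ℤ) : ℂ) := by
  rw [mem_Ioo] at hn
  have hM' : (0 : ℝ) < M := by exact_mod_cast hM
  have h1 : |(n : ℝ)| ≤ M := by
    have : |n| ≤ (M : ℤ) := abs_le.2 ⟨hn.1.le, hn.2.le⟩
    exact_mod_cast this
  have h2 : fw M n = 1 - |(n : ℝ)| / M := by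
    rw [fw, max_eq_right]
    rw [sub_nonneg, div_le_one hM']
    exact h1
  have h3 : (M : ℝ) * fw M n = (M : ℝ) - ((|n| : ℤ) : ℝ) := by
    rw [h2, mul_sub, mul_one, mul_div_cancel₀ _ hM'.ne']
    simp
  have h4 := congrArg (fun x : ℝ => (x : ℂ)) h3
  simp only [Complex.ofReal_mul, Complex.ofReal_sub, Complex.ofReal_natCast, Complex.ofReal_intCast] at h4
  exact h4

theorem mq1_fw_nonneg (M : ℕ) (n : ℤ) : 0 ≤ fw M n := le_max_left _ _

theorem mq1_fw_sum (M : ℕ) (hM : 1 ≤ M) : ∑ n ∈ Ioo (-(M : ℤ)) M, fw M n = M := by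
  have h := mq1_pairs M (fun _ => 1)
  have hM' : (M : ℂ) ≠ 0 := by
    have : M ≠ 0 := by omega
    exact_mod_cast this
  have h1 : ∑ n ∈ Ioo (-(M : ℤ)) M, ((M : ℂ) - ((|n| : ℤ) : ℂ)) * 1 = (M : ℂ) * ∑ n ∈ Ioo (-(M : ℤ)) M, ((fw M n : ℝ) : ℂ) := by
    rw [mul_sum]
    apply sum_congr rfl; intro n hn
    rw [mq1_fw M hM hn, mul_one]
  rw [h1] at h
  simp only [sum_const, card_range, nsmul_eq_mul, mul_one] at h
  have h2 := mul_left_cancel₀ hM' h
  have h3 : ((∑ n ∈ Ioo (-(M : ℤ)) M, fw M n : ℝ) : ℂ) = ((M : ℝ) : ℂ) := by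
    push_cast; exact h2.symm
  exact_mod_cast h3

theorem mq1_DD_supp {X : ℕ} {f : ℤ → ℂ} (hf : ∀ y, y ∉ Ico (-(X : ℤ)) X → f y = 0) (h : ℤ) :
    ∀ y, y ∉ Ico (-(X : ℤ)) X → DD h f y = 0 := by
  intro y hy
  simp only [DD]
  rw [hf y hy, zero_mul]

theorem mq1_DD_comm (h k : ℤ) (f : ℤ → ℂ) : DD h (DD k f) = DD k (DD h f) := by
  funext y
  simp only [DD, map_mul]
  rw [add_right_comm y h k]
  ring

/-- The order of the progressions does not matter (differences commute, finite sums; adjacent transpositions, `List.Perm.rec`). -/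
theorem MQ_perm (X : ℕ) {l l' : List (ℕ × ℤ)} (h : l.Perm l') (f : ℤ → ℂ) : MQ X l f = MQ X l' f := by
  induction h generalizing f with
  | nil => rfl
  | cons p _ ih =>
    simp only [MQ]
    rw [sum_congr rfl fun t _ => by rw [ih (DD (p.2 * t) f)]]
  | swap p q l =>
    simp only [MQ]
    simp only [sum_div, mul_sum, mul_div_assoc']
    rw [sum_comm]
    apply sum_congr rfl; intro t _
    apply sum_congr rfl; intro u _
    rw [mq1_DD_comm]
    ring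
  | trans _ _ ih1 ih2 => rw [ih1, ih2]

theorem MQ_NU (X s M : ℕ) (hM : 1 ≤ M) (d : ℤ) (f : ℤ → ℂ) : (MQ X (List.replicate s (M, d)) f).re = NU X s M d f := by
  have key : ∀ (s : ℕ) (f : ℤ → ℂ), MQ X (List.replicate s (M, d)) f =
      (∑ t ∈ bxS s M, ((FW M t : ℝ) : ℂ) * FF X (fun i => d * t i) f) / (M : ℂ) ^ s := by
    intro s
    induction s with
    | zero =>
      intro f
      have h : bxS 0 M = {fun i => i.elim0} := by
        ext x
        simp only [bxS, Fintype.mem_piFinset, mem_singleton]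
        constructor
        · intro _; funext i; exact i.elim0
        · intro _ i; exact i.elim0
      rw [h]
      simp [MQ, FW, FF, DV, DL]
    | succ s ih =>
      intro f
      rw [List.replicate_succ]
      simp only [MQ]
      rw [bxS_sum, pow_succ, ← div_div]
      congr 1
      rw [sum_div]
      apply sum_congr rfl; intro k _
      rw [ih, mul_div_assoc', mul_sum]
      congr 1
      apply sum_congr rfl; intro h _
      have h1 : (fun i => d * (Fin.cons k h : Fin (s + 1) → ℤ) i) = (Fin.cons (d * k) (fun i => d * h i) : Fin (s + 1) → ℤ) := by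
        funext i
        refine Fin.cases ?_ (fun j => ?_) i
        · simp
        · simp
      rw [h1, FF_cons]
      have h2 : FW M (Fin.cons k h : Fin (s + 1) → ℤ) = fw M k * FW M h := by
        simp [FW, Fin.prod_univ_succ]
      rw [h2]
      push_cast
      ring
  rw [key, NU]
  have h : ((M : ℂ) ^ s) = (((M : ℝ) ^ s : ℝ) : ℂ) := by push_cast; rfl
  rw [h, Complex.div_ofReal_re]

/-- Opening the square: `‖∑_{j<M} g(z + a j) ee(ψ j)‖² = ∑_{j,i<M} g(z + a j) conj g(z + a i) ee(ψ (j - i))`, put `y = z + a j`, `n = i - j`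
(`M - |n| = M fw M n` pairs); `y ∈ [-X, X)` forces `z ∈ [-2X, 2X)` because `0 ≤ a j ≤ X`. -/
theorem TQ_eq (X M : ℕ) (hM : 1 ≤ M) (a : ℤ) (ha : 0 ≤ a) (haM : a * M ≤ X) (ψ : ℝ) (g : ℤ → ℂ)
    (hg : ∀ y, y ∉ Ico (-(X : ℤ)) X → g y = 0) :
    ((M * TQ X M a ψ g : ℝ) : ℂ) = ∑ n ∈ Ioo (-(M : ℤ)) M, ((fw M n : ℝ) : ℂ) * ee (-(ψ * n)) *
      ∑ y ∈ Ico (-(X : ℤ)) X, g y * (starRingEnd ℂ) (g (y + a * n)) := by
  have hM' : (M : ℂ) ≠ 0 := by
    have : M ≠ 0 := by omega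
    exact_mod_cast this
  set S : ℤ → ℂ := fun n => ∑ y ∈ Ico (-(X : ℤ)) X, g y * (starRingEnd ℂ) (g (y + a * n)) with hS
  have hshift : ∀ j ∈ range M, ∀ n : ℤ,
      ∑ z ∈ Ico (-(2 * X : ℤ)) (2 * X), g (z + a * j) * (starRingEnd ℂ) (g (z + a * j + a * n)) = S n := by
    intro j hj n
    rw [mem_range] at hj
    have hj1 : a * j ≤ X := by
      have : (j : ℤ) ≤ M := by exact_mod_cast hj.le
      nlinarith
    have hj0 : 0 ≤ a * j := mul_nonneg ha (by positivity)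
    have e1 : ∑ z ∈ Ico (-(2 * X : ℤ)) (2 * X), g (z + a * j) * (starRingEnd ℂ) (g (z + a * j + a * n)) =
        ∑ y ∈ Ico (-(2 * X : ℤ) + a * j) (2 * X + a * j), g y * (starRingEnd ℂ) (g (y + a * n)) := by
      refine sum_bij (fun z _ => z + a * j) ?_ ?_ ?_ ?_
      · intro z hz; rw [mem_Ico] at hz ⊢; omega
      · intro z _ z' _ h; simpa using h
      · intro y hy
        rw [mem_Ico] at hy
        exact ⟨y - a * j, by rw [mem_Ico]; omega, by ring⟩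
      · intro z _; rfl
    rw [e1]
    symm
    apply sum_subset
    · intro y hy; rw [mem_Ico] at hy ⊢; omega
    · intro y _ hy; rw [hg y hy, zero_mul]
  have hsq : ∀ z : ℤ, ((‖(∑ j ∈ range M, g (z + a * j) * ee (ψ * j)) / M‖ ^ 2 : ℝ) : ℂ) =
      (∑ j ∈ range M, ∑ i ∈ range M, ee (-(ψ * ((i : ℤ) - j : ℤ))) *
        (g (z + a * j) * (starRingEnd ℂ) (g (z + a * j + a * ((i : ℤ) - j))))) / ((M : ℂ) * M) := by
    intro z
    have h0 : ∀ w : ℂ, ((‖w‖ ^ 2 : ℝ) : ℂ) = w * (starRingEnd ℂ) w := by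
      intro w
      rw [Complex.mul_conj, Complex.normSq_eq_norm_sq]
    rw [h0, map_div₀, map_sum, Complex.conj_natCast, div_mul_div_comm, sum_mul_sum]
    congr 1
    apply sum_congr rfl; intro j _
    apply sum_congr rfl; intro i _
    rw [map_mul, ← Pool.Agent.H44W.ee_neg]
    have e1 : z + a * j + a * ((i : ℤ) - j) = z + a * i := by ring
    have e2 : -(ψ * (((i : ℤ) - j : ℤ) : ℝ)) = ψ * j + -(ψ * i) := by push_cast; ring
    rw [e1, e2, Pool.Agent.H44W.ee_add]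
    ring
  have h1 : ((M * TQ X M a ψ g : ℝ) : ℂ) = (∑ j ∈ range M, ∑ i ∈ range M,
      ee (-(ψ * ((i : ℤ) - j : ℤ))) * S ((i : ℤ) - j)) / M := by
    rw [TQ]
    rw [Complex.ofReal_mul, Complex.ofReal_sum, sum_congr rfl fun z _ => hsq z, ← sum_div]
    rw [Complex.ofReal_natCast, mul_div_assoc', mul_comm (M : ℂ), mul_div_mul_right _ _ hM']
    congr 1
    rw [sum_comm]
    apply sum_congr rfl; intro j hj
    rw [sum_comm]
    apply sum_congr rfl; intro i _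
    rw [← mul_sum, hshift j hj]
  rw [h1, mq1_pairs M (fun n => ee (-(ψ * (n : ℤ))) * S n), sum_div]
  apply sum_congr rfl; intro n hn
  rw [← mq1_fw M hM hn, mul_assoc, mul_assoc, mul_div_assoc, mul_div_cancel₀ _ hM']

/-- One progression. -/
theorem MQ_one (X M : ℕ) (hM : 1 ≤ M) (a : ℤ) (ha : 0 ≤ a) (haM : a * M ≤ X) (g : ℤ → ℂ)
    (hg : ∀ y, y ∉ Ico (-(X : ℤ)) X → g y = 0) : MQ X [(M, a)] g = ((TQ X M a 0 g : ℝ) : ℂ) := by
  have hM' : (M : ℂ) ≠ 0 := by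
    have : M ≠ 0 := by omega
    exact_mod_cast this
  have h := TQ_eq X M hM a ha haM 0 g hg
  simp only [MQ]
  rw [div_eq_iff hM', mul_comm]
  have h2 : (M : ℂ) * ((TQ X M a 0 g : ℝ) : ℂ) = ((M * TQ X M a 0 g : ℝ) : ℂ) := by push_cast; rfl
  rw [h2, h]
  apply sum_congr rfl; intro n _
  rw [zero_mul, neg_zero, Pool.Agent.H44W.ee_zero, mul_one]
  rfl

/-- Real and nonnegative: induction on the list, the last entry (`MQ_one`) is a mean square, the weights `fw` are `≥ 0`. -/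
theorem MQ_nonneg (X : ℕ) (l : List (ℕ × ℤ)) (hl : l ≠ []) (hp : ∀ p ∈ l, 1 ≤ p.1 ∧ 0 ≤ p.2 ∧ p.2 * p.1 ≤ X) (f : ℤ → ℂ)
    (hf : ∀ y, y ∉ Ico (-(X : ℤ)) X → f y = 0) : ∃ x : ℝ, 0 ≤ x ∧ MQ X l f = (x : ℂ) := by
  induction l generalizing f with
  | nil => exact absurd rfl hl
  | cons p l ih =>
    rcases l with _ | ⟨q, l⟩
    · have h := hp p (by simp)
      refine ⟨TQ X p.1 p.2 0 f, ?_, ?_⟩
      · rw [TQ]; exact sum_nonneg fun _ _ => by positivity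
      · exact MQ_one X p.1 h.1 p.2 h.2.1 h.2.2 f hf
    · have h1 : ∀ t : ℤ, ∃ x : ℝ, 0 ≤ x ∧ MQ X (q :: l) (DD (p.2 * t) f) = (x : ℂ) := fun t =>
        ih (by simp) (fun r hr => hp r (List.mem_cons_of_mem _ hr)) (DD (p.2 * t) f) (mq1_DD_supp hf _)
      choose x hx0 hx using h1
      refine ⟨(∑ t ∈ Ioo (-(p.1 : ℤ)) p.1, fw p.1 t * x t) / p.1, ?_, ?_⟩
      · exact div_nonneg (sum_nonneg fun t _ => mul_nonneg (mq1_fw_nonneg _ _) (hx0 t)) (by positivity)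
      · rw [MQ, sum_congr rfl fun t _ => by rw [hx t]]
        push_cast
        rfl

theorem NU_nonneg (X s M : ℕ) (hs : 1 ≤ s) (hM : 1 ≤ M) (d : ℤ) (hd : 0 ≤ d) (hdM : d * M ≤ X) (f : ℤ → ℂ)
    (hf : ∀ y, y ∉ Ico (-(X : ℤ)) X → f y = 0) : 0 ≤ NU X s M d f := by
  rw [← MQ_NU X s M hM d f]
  obtain ⟨x, hx, h⟩ := MQ_nonneg X (List.replicate s (M, d))
    (by intro h; rw [List.replicate_eq_nil_iff] at h; omega)
    (by
      intro p hp
      rw [List.eq_of_mem_replicate hp]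
      exact ⟨hM, hd, hdM⟩) f hf
  rw [h, Complex.ofReal_re]
  exact hx

theorem TQ_le (X M : ℕ) (a : ℤ) (ψ : ℝ) (g : ℤ → ℂ) (hg : ∀ y, ‖g y‖ ≤ 1) : TQ X M a ψ g ≤ 4 * X := by
  have h1 : ∀ z : ℤ, ‖(∑ j ∈ range M, g (z + a * j) * ee (ψ * j)) / M‖ ^ 2 ≤ 1 := by
    intro z
    have h2 : ‖(∑ j ∈ range M, g (z + a * j) * ee (ψ * j)) / M‖ ≤ 1 := by
      rw [norm_div, Complex.norm_natCast]
      apply div_le_one_of_le₀ _ (by positivity)
      refine (norm_sum_le _ _).trans ?_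
      refine (sum_le_sum fun j _ => ?_ : _ ≤ ∑ j ∈ range M, (1 : ℝ)).trans ?_
      · rw [norm_mul, Pool.Agent.H44W.norm_ee, mul_one]; exact hg _
      · simp
    exact pow_le_one₀ (norm_nonneg _) h2
  rw [TQ]
  refine (sum_le_sum fun z _ => h1 z).trans ?_
  rw [sum_const, nsmul_eq_mul, mul_one, Int.card_Ico]
  have : (2 * (X : ℤ) - -(2 * (X : ℤ))).toNat = 4 * X := by omega
  rw [this]
  push_cast
  exact le_refl _

/-- At most `2X` (the trivial bound for each difference, and `∑_{|t|<M} fw M t = M`). -/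
theorem MQ_le (X : ℕ) (l : List (ℕ × ℤ)) (hp : ∀ p ∈ l, 1 ≤ p.1) (f : ℤ → ℂ) (hf : Bdd X f) : ‖MQ X l f‖ ≤ 2 * X := by
  induction l generalizing f with
  | nil =>
    simp only [MQ]
    refine (norm_sum_le _ _).trans ?_
    refine (sum_le_sum fun y _ => hf.le y).trans ?_
    rw [sum_const, nsmul_eq_mul, mul_one, Int.card_Ico]
    have : ((X : ℤ) - -(X : ℤ)).toNat = 2 * X := by omega
    rw [this]
    push_cast
    exact le_refl _
  | cons p l ih =>
    have hp1 := hp p (by simp)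
    have hp' : (0 : ℝ) < p.1 := by exact_mod_cast hp1
    simp only [MQ]
    rw [norm_div, Complex.norm_natCast, div_le_iff₀ hp']
    refine (norm_sum_le _ _).trans ?_
    have h1 : ∑ t ∈ Ioo (-(p.1 : ℤ)) p.1, ‖((fw p.1 t : ℝ) : ℂ) * MQ X l (DD (p.2 * t) f)‖ ≤
        ∑ t ∈ Ioo (-(p.1 : ℤ)) p.1, fw p.1 t * (2 * X) := by
      apply sum_le_sum; intro t _
      rw [norm_mul, Complex.norm_real, Real.norm_eq_abs, abs_of_nonneg (mq1_fw_nonneg _ _)]
      exact mul_le_mul_of_nonneg_left (ih (fun r hr => hp r (List.mem_cons_of_mem _ hr)) _ (Bdd_DD hf _))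
        (mq1_fw_nonneg _ _)
    refine h1.trans ?_
    rw [← sum_mul, mq1_fw_sum p.1 hp1, mul_comm]

/-- The last progression as a mean square, the others with Fejer weights. -/
theorem NU_succ (X n M : ℕ) (hM : 1 ≤ M) (d : ℤ) (hd : 0 ≤ d) (hdM : d * M ≤ X) (f : ℤ → ℂ)
    (hf : ∀ y, y ∉ Ico (-(X : ℤ)) X → f y = 0) :
    NU X (n + 1) M d f = (∑ t ∈ bxS n M, FW M t * TQ X M d 0 (DV (fun i => d * t i) f)) / (M : ℝ) ^ n := by
  have hM0 : (M : ℝ) ≠ 0 := by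
    have : M ≠ 0 := by omega
    exact_mod_cast this
  have h1 : ∑ t ∈ bxS (n + 1) M, ((FW M t : ℝ) : ℂ) * FF X (fun i => d * t i) f =
      ((M * ∑ t ∈ bxS n M, FW M t * TQ X M d 0 (DV (fun i => d * t i) f) : ℝ) : ℂ) := by
    rw [bxS_sum, sum_comm, mul_sum, Complex.ofReal_sum]
    apply sum_congr rfl; intro h _
    have h2 : ∀ y, y ∉ Ico (-(X : ℤ)) X → DV (fun i => d * h i) f y = 0 := by
      intro y hy
      exact DL_supp _ f y (hf y hy)
    have h3 := TQ_eq X M hM d hd hdM 0 (DV (fun i => d * h i) f) h2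
    have h4 : ((M * (FW M h * TQ X M d 0 (DV (fun i => d * h i) f)) : ℝ) : ℂ) =
        ((FW M h : ℝ) : ℂ) * ((M * TQ X M d 0 (DV (fun i => d * h i) f) : ℝ) : ℂ) := by
      push_cast; ring
    rw [h4, h3, mul_sum]
    apply sum_congr rfl; intro k _
    have h5 : FW M (Fin.cons k h : Fin (n + 1) → ℤ) = fw M k * FW M h := by
      simp [FW, Fin.prod_univ_succ]
    have h6 : (fun i => d * (Fin.cons k h : Fin (n + 1) → ℤ) i) = (Fin.cons (d * k) (fun i => d * h i) : Fin (n + 1) → ℤ) := by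
      funext i
      refine Fin.cases ?_ (fun j => ?_) i
      · simp
      · simp
    rw [h5, h6, FF_cons, FF, DV, DL_DD]
    rw [zero_mul, neg_zero, Pool.Agent.H44W.ee_zero, mul_one]
    rw [Complex.ofReal_mul]
    simp only [DD, DV]
    ring
  rw [NU, h1, Complex.ofReal_re, pow_succ, mul_comm (M : ℝ) (∑ t ∈ bxS n M, _), mul_div_mul_right _ _ hM0]

end Pool.Agent.HUK
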